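import Pool.Agent.Lib.MP_45c83f_lc.LabA

set_option autoImplicit false

/-!
# Labellings: gluing
-/

namespace Pool.Agent.Lib.MP_45c83f_lc

namespace TSys

variable {X : Type} [PartialOrder X] [Finite X] [Primcodable X] {L : TSys X} {F : ℕ → ℕ → X}

open Classical in
/-- one step of the glued labelling: the decision, the labels, the state, the old label -/
private noncomputable def glueG (L : TSys X) (k : ℕ)
    (p : Option (Fin k) × (Fin k → Option (Fin L.K)) × X × Option (Fin L.K)) :
    Option (Fin L.K) :=
  match p.2.2.2 with
  | none =>
    match p.1 with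
    | none => none
    | some i =>
      match p.2.1 i with
      | none => none
      | some v => if L.lab v = p.2.2.1 then some v else none
  | some _ =>
    match p.1 with
    | none => none
    | some i => p.2.1 i

/-- Gluing of finitely many labellings along a persistent decision function. -/
theorem glue (hF : IsAp F) {k : ℕ} (W : Fin k → ℕ → ℕ → Bool) (S : Fin k → Finset (Fin L.K))
    (mu : Fin k → ℕ → ℕ → Option (Fin L.K)) (hmu : ∀ i, L.IsLab F (W i) (S i) (mu i))
    {d : ℕ → ℕ → Option (Fin k)} (hd : Primrec₂ d)
    (hd' : ∀ e t i, d e t = some i → d e (t + 1) = some i) {V : ℕ → ℕ → Bool}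
    (hV : ∀ e t i, d e t = some i → V e t = true) {S' : Finset (Fin L.K)}
    (hS : ∀ i v, L.Node (S i) v → L.Node S' v) :
    ∃ lam', L.IsLab F V S' lam' ∧
      (∀ e t v, lam' e t = some v → ∃ i, d e t = some i ∧ mu i e t = some v) ∧
      ∀ e i t, d e t = some i → L.Corr F (mu i) e → L.Corr F lam' e := by
  classical
  have hG : Primrec (glueG L k) := Primrec.dom_finite _
  let m : ℕ → ℕ → (Fin k → Option (Fin L.K)) := fun e t i => mu i e t
  have hm : Primrec₂ m := by
    have : Primrec fun p : ℕ × ℕ => (fun i => mu i p.1 p.2 : Fin k → Option (Fin L.K)) := by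
      rw [Primrec.fin_curry]
      have h2 : Primrec₂ fun (i : Fin k) (p : ℕ × ℕ) => mu i p.1 p.2 :=
        Primrec.fin_curry₁.2 fun i => (hmu i).prim
      exact h2.swap
    exact this
  let lam' : ℕ → ℕ → Option (Fin L.K) := fun e t =>
    Nat.rec none (fun t x => glueG L k (d e (t + 1), m e (t + 1), F e (t + 1), x)) t
  have h0 : ∀ e, lam' e 0 = none := fun e => rfl
  have hs : ∀ e t, lam' e (t + 1) =
      glueG L k (d e (t + 1), m e (t + 1), F e (t + 1), lam' e t) := fun e t => rfl
  have hp : Primrec₂ lam' := by
    refine Primrec.nat_rec (f := fun _ : ℕ => (none : Option (Fin L.K)))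
      (g := fun (e : ℕ) (p : ℕ × Option (Fin L.K)) =>
        glueG L k (d e (p.1 + 1), m e (p.1 + 1), F e (p.1 + 1), p.2)) (Primrec.const none) ?_
    have hst : Primrec fun q : ℕ × (ℕ × Option (Fin L.K)) => q.2.1 + 1 :=
      Primrec.succ.comp (Primrec.fst.comp Primrec.snd)
    refine hG.comp (Primrec.pair (Primrec₂.comp hd Primrec.fst hst)
      (Primrec.pair (Primrec₂.comp hm Primrec.fst hst)
        (Primrec.pair (Primrec₂.comp hF.prim Primrec.fst hst)
          (Primrec.snd.comp Primrec.snd))))
  -- the invariant
  have hinv : ∀ e t v, lam' e t = some v → ∃ i, d e t = some i ∧ mu i e t = some v := by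
    intro e t v hv
    cases t with
    | zero => rw [h0] at hv; exact absurd hv (by simp)
    | succ t =>
      rw [hs] at hv
      rcases h1 : lam' e t with _ | u
      · rcases h2 : d e (t + 1) with _ | i
        · rw [h1, h2] at hv
          simp [glueG] at hv
        · rw [h1, h2] at hv
          rcases h3 : mu i e (t + 1) with _ | w
          · simp [glueG, m, h3] at hv
          · by_cases h4 : L.lab w = F e (t + 1)
            · simp only [glueG, m, h3, if_pos h4] at hv
              exact ⟨i, rfl, h3.trans hv⟩
            · simp [glueG, m, h3, h4] at hv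
      · rcases h2 : d e (t + 1) with _ | i
        · rw [h1, h2] at hv
          simp [glueG] at hv
        · rw [h1, h2] at hv
          simp only [glueG, m] at hv
          exact ⟨i, rfl, hv⟩
  have hds : ∀ e t i, d e t = some i → ∀ u, t ≤ u → d e u = some i := by
    intro e t i hi u hu
    induction u, hu using Nat.le_induction with
    | base => exact hi
    | succ n _ ih => exact hd' e n i ih
  refine ⟨lam', ⟨hp, h0, ?_, ?_⟩, hinv, ?_⟩
  · intro e t hVt
    rcases h1 : lam' e t with _ | u
    · rfl
    · obtain ⟨i, hi, -⟩ := hinv e t u h1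
      rw [hV e t i hi] at hVt
      exact absurd hVt (by simp)
  · intro e t
    rcases h1 : lam' e t with _ | u
    · rw [hs, h1]
      rcases h2 : d e (t + 1) with _ | i
      · left
        simp [glueG]
      · rcases h3 : mu i e (t + 1) with _ | w
        · left
          simp [glueG, m, h3]
        · by_cases h4 : L.lab w = F e (t + 1)
          · right
            refine ⟨w, by simp [glueG, m, h3, h4], h4, fun u hu => absurd hu (by simp),
              fun _ => hS i w ((hmu i).node h3)⟩
          · left
            simp [glueG, m, h3, h4]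
    · obtain ⟨i, hi, hui⟩ := hinv e t u h1
      have hi' := hd' e t i hi
      have h5 : lam' e (t + 1) = mu i e (t + 1) := by
        rw [hs, h1, hi']
        rfl
      rw [h5]
      rcases (hmu i).step e t with h6 | ⟨v, h6, h7, h8, -⟩
      · left
        rw [h6, hui]
      · right
        refine ⟨v, h6, h7, ?_, fun h => absurd h (by simp)⟩
        intro u' hu'
        rw [Option.some.injEq] at hu'
        subst hu'
        exact h8 u hui
  · rintro e i t hi ⟨v, t0, ht0⟩
    refine ⟨v, max t t0 + 1, fun u hu => ?_⟩
    obtain ⟨s, rfl⟩ : ∃ s, u = s + 1 := ⟨u - 1, by omega⟩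
    have h1 := hds e t i hi (s + 1) (by omega)
    obtain ⟨h2, h3⟩ := ht0 (s + 1) (by omega)
    refine ⟨?_, h3⟩
    rw [hs, h1]
    rcases h4 : lam' e s with _ | w
    · simp only [glueG, m, h2]
      rw [if_pos h3.symm]
    · simp only [glueG, m, h2]

open Classical in
/-- the rooted label from the membership and the old label -/
private noncomputable def glueR (K : ℕ) (d : Fin K) (p : Bool × Option (Fin K)) :
    Option (Fin K) :=
  if p.1 = true then (match p.2 with | none => some d | some v => some v) else none

/-- Adding a root to a labelling. -/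
theorem rootify (hF : IsAp F) {V : ℕ → ℕ → Bool} (hV : IsAp V) {S0 : Finset (Fin L.K)}
    {nu : ℕ → ℕ → Option (Fin L.K)} (hnu : L.IsLab F V S0 nu) {d : Fin L.K}
    (hch : ∀ v, L.Node S0 v → L.Desc d v) (hent : ∀ e t, Enter V e t → F e t = L.lab d)
    (h0 : ∀ e, V e 0 = false) :
    ∃ lam', L.IsLab F V {d} lam' ∧ ∀ e, In V e →
      (L.Corr F nu e ∨ ((∀ t, nu e t = none) ∧ ∃ t, ∀ u, t ≤ u → F e u = L.lab d)) →
      L.Corr F lam' e := by
  classical
  have hR : Primrec (glueR L.K d) := Primrec.dom_finite _
  let lam' : ℕ → ℕ → Option (Fin L.K) := fun e t => glueR L.K d (V e t, nu e t)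
  have hl : ∀ e t, lam' e t = glueR L.K d (V e t, nu e t) := fun e t => rfl
  have hp : Primrec₂ lam' := hR.comp (Primrec.pair hV.prim hnu.prim)
  refine ⟨lam', ⟨hp, ?_, ?_, ?_⟩, ?_⟩
  · intro e
    rw [hl, h0 e]
    simp [glueR]
  · intro e t h
    rw [hl, h]
    simp [glueR]
  · intro e t
    rcases h1 : V e (t + 1) with _ | _
    · have h2 : V e t = false := by
        rcases h3 : V e t with _ | _
        · rfl
        · have := hV.true_of_le (Nat.le_succ t) h3
          rw [Nat.succ_eq_add_one, h1] at this
          exact absurd this (by simp)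
      left
      rw [hl, hl, h1, h2]
      simp [glueR]
    · rcases h2 : V e t with _ | _
      · -- the entry stage
        have h3 : Enter V e (t + 1) := by
          refine ⟨h1, fun u hu => ?_⟩
          rcases h4 : V e u with _ | _
          · rfl
          · have := hV.true_of_le (show u ≤ t by omega) h4
            rw [h2] at this
            exact absurd this (by simp)
        have h4 := hent e (t + 1) h3
        have h5 : nu e t = none := hnu.off e t h2
        have h6 : nu e (t + 1) = none := by
          rcases hnu.step e t with h6 | ⟨v, h6, h7, -, h8⟩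
          · rw [h6, h5]
          · exfalso
            have h9 := (hch v (h8 h5)).lab_lt
            rw [h7, h4] at h9
            exact lt_irrefl _ h9
        right
        refine ⟨d, ?_, h4.symm, ?_, fun _ => node_singleton.2 (Or.inl rfl)⟩
        · rw [hl, h1, h6]
          simp [glueR]
        · intro u hu
          rw [hl, h2] at hu
          simp [glueR] at hu
      · rcases hnu.step e t with h3 | ⟨v, h3, h4, h5, h6⟩
        · left
          rw [hl, hl, h1, h2, h3]
        · right
          refine ⟨v, ?_, h4, ?_, ?_⟩
          · rw [hl, h1, h3]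
            simp [glueR]
          · intro u hu
            rw [hl, h2] at hu
            rcases h7 : nu e t with _ | w
            · rw [h7] at hu
              simp only [glueR, if_true, Option.some.injEq] at hu
              rw [← hu]
              exact hch v (h6 h7)
            · rw [h7] at hu
              simp only [glueR, if_true, Option.some.injEq] at hu
              rw [← hu]
              exact h5 w h7
          · intro hu
            rw [hl, h2] at hu
            rcases h7 : nu e t with _ | w
            · rw [h7] at hu
              simp [glueR] at hu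
            · rw [h7] at hu
              simp [glueR] at hu
  · rintro e ⟨t1, ht1⟩ (⟨v, t0, ht0⟩ | ⟨hn, t0, ht0⟩)
    · refine ⟨v, max t0 t1, fun u hu => ?_⟩
      have h1 : V e u = true := hV.true_of_le (show t1 ≤ u by omega) ht1
      obtain ⟨h2, h3⟩ := ht0 u (by omega)
      refine ⟨?_, h3⟩
      rw [hl, h1, h2]
      simp [glueR]
    · refine ⟨d, max t0 t1, fun u hu => ?_⟩
      have h1 : V e u = true := hV.true_of_le (show t1 ≤ u by omega) ht1
      refine ⟨?_, ht0 u (by omega)⟩
      rw [hl, h1, hn u]
      simp [glueR]

end TSys

end Pool.Agent.Lib.MP_45c83f_lc
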