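import Pool.Agent.Lib.MP_45c83f_lc.Basics

set_option autoImplicit false

/-!
# Recursive sets: knowledge functions
-/

namespace Pool.Agent.Lib.MP_45c83f_lc

/-- A primitive recursive function which eventually knows whether `e ∈ H`. -/
theorem Rec.exists_known {H : Set ℕ} (hH : Rec H) : ∃ k : ℕ → ℕ → Option Bool, Primrec₂ k ∧
    (∀ e t u b, k e t = some b → t ≤ u → k e u = some b) ∧
    (∀ e t b, k e t = some b → (b = true ↔ e ∈ H)) ∧ (∀ e, k e 0 = none) ∧
    ∀ e, ∃ t b, k e t = some b := by
  obtain ⟨⟨a, ha, hA⟩, ⟨b, hb, hB⟩⟩ := hH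
  have hp : Primrec fun p : ℕ × ℕ => if p.2 = 0 then (none : Option Bool) else
      if a p.1 p.2 = true then some true else if b p.1 p.2 = true then some false else none := by
    have h1 : PrimrecPred fun p : ℕ × ℕ => p.2 = 0 :=
      PrimrecRel.comp Primrec.eq Primrec.snd (Primrec.const 0)
    have h2 : PrimrecPred fun p : ℕ × ℕ => a p.1 p.2 = true :=
      PrimrecRel.comp Primrec.eq ha.prim (Primrec.const true)
    have h3 : PrimrecPred fun p : ℕ × ℕ => b p.1 p.2 = true :=
      PrimrecRel.comp Primrec.eq hb.prim (Primrec.const true)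
    exact Primrec.ite h1 (Primrec.const _) (Primrec.ite h2 (Primrec.const _)
      (Primrec.ite h3 (Primrec.const _) (Primrec.const _)))
  have hkey : ∀ e t c, (if t = 0 then (none : Option Bool) else
      if a e t = true then some true else if b e t = true then some false else none) = some c ↔
      t ≠ 0 ∧ ((c = true ∧ a e t = true) ∨ (c = false ∧ b e t = true)) := by
    intro e t c
    have h1 : a e t = true → b e t = true → False := by
      intro h2 h3
      exact (hB e).2 ⟨t, h3⟩ ((hA e).2 ⟨t, h2⟩)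
    by_cases ht : t = 0
    · simp [ht]
    · by_cases h2 : a e t = true
      · have h3 : ¬ b e t = true := fun h3 => h1 h2 h3
        cases c <;> simp [ht, h2, h3]
      · by_cases h3 : b e t = true
        · cases c <;> simp [ht, h2, h3]
        · simp [ht, h2, h3]
  refine ⟨fun e t => if t = 0 then none else
      if a e t = true then some true else if b e t = true then some false else none,
      hp, ?_, ?_, fun e => if_pos rfl, ?_⟩
  · intro e t u c h htu
    obtain ⟨h0, h1⟩ := (hkey e t c).1 h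
    refine (hkey e u c).2 ⟨by omega, ?_⟩
    rcases h1 with ⟨h1, h2⟩ | ⟨h1, h2⟩
    · exact Or.inl ⟨h1, ha.true_of_le htu h2⟩
    · exact Or.inr ⟨h1, hb.true_of_le htu h2⟩
  · intro e t c h
    obtain ⟨-, h1⟩ := (hkey e t c).1 h
    rcases h1 with ⟨h1, h2⟩ | ⟨h1, h2⟩
    · exact ⟨fun _ => (hA e).2 ⟨t, h2⟩, fun _ => h1⟩
    · have h3 : e ∉ H := (hB e).2 ⟨t, h2⟩
      rw [h1]
      exact ⟨fun h => absurd h Bool.false_ne_true, fun h => absurd h h3⟩
  · intro e
    by_cases he : e ∈ H
    · obtain ⟨t, ht⟩ := (hA e).1 he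
      exact ⟨t + 1, true, (hkey e (t + 1) true).2 ⟨Nat.succ_ne_zero t,
        Or.inl ⟨rfl, ha.true_of_le (Nat.le_succ t) ht⟩⟩⟩
    · obtain ⟨t, ht⟩ := (hB e).1 he
      exact ⟨t + 1, false, (hkey e (t + 1) false).2 ⟨Nat.succ_ne_zero t,
        Or.inr ⟨rfl, hb.true_of_le (Nat.le_succ t) ht⟩⟩⟩

/-- Finitely many values: a recursive function. -/
theorem exists_known_fun {A : Type} [Primcodable A] [Finite A] (r : ℕ → A)
    (hr : ∀ a, Rec {e | r e = a}) : ∃ k : ℕ → ℕ → Option A, Primrec₂ k ∧
    (∀ e t u b, k e t = some b → t ≤ u → k e u = some b) ∧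
    (∀ e t b, k e t = some b → b = r e) ∧ (∀ e, k e 0 = none) ∧
    ∀ e, ∃ t b, k e t = some b := by
  classical
  have hr1 : ∀ a, RESet {e | r e = a} := fun a => (hr a).1
  choose f hf hA using hr1
  obtain ⟨n, ⟨b⟩⟩ := Finite.exists_equiv_fin A
  let G : (Fin n → Bool) → Option A := fun p =>
    if h : ∃ i, p i = true then some (b.symm h.choose) else none
  have hG : Primrec G := Primrec.dom_finite _
  let v : ℕ → ℕ → (Fin n → Bool) := fun e s i => f (b.symm i) e s
  have hv : Primrec₂ v := by
    have : Primrec fun p : ℕ × ℕ => (fun i => f (b.symm i) p.1 p.2 : Fin n → Bool) := by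
      rw [Primrec.fin_curry]
      have h2 : Primrec₂ fun (i : Fin n) (p : ℕ × ℕ) => f (b.symm i) p.1 p.2 :=
        Primrec.fin_curry₁.2 fun i => (hf (b.symm i)).prim
      exact h2.swap
    exact this
  have hkey : ∀ e t c, G (v e t) = some c ↔ c = r e ∧ f (r e) e t = true := by
    intro e t c
    by_cases h : ∃ i, v e t i = true
    · have h1 : G (v e t) = some (b.symm h.choose) := by
        simp only [G, dif_pos h]
      have h2 : r e = b.symm h.choose := (hA (b.symm h.choose) e).2 ⟨t, h.choose_spec⟩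
      rw [h1, Option.some.injEq, ← h2]
      have h3 : f (r e) e t = true := by
        rw [h2]
        exact h.choose_spec
      exact ⟨fun h4 => ⟨h4.symm, h3⟩, fun h4 => h4.1.symm⟩
    · have h1 : G (v e t) = none := by
        simp only [G, dif_neg h]
      rw [h1]
      constructor
      · intro h2
        exact absurd h2 (by simp)
      · rintro ⟨-, h2⟩
        exact absurd ⟨b (r e), by simpa [v] using h2⟩ h
  have hkey' : ∀ e t c, (if t = 0 then none else G (v e t)) = some c ↔
      t ≠ 0 ∧ c = r e ∧ f (r e) e t = true := by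
    intro e t c
    by_cases ht : t = 0
    · simp [ht]
    · rw [if_neg ht, hkey]
      simp [ht]
  refine ⟨fun e t => if t = 0 then none else G (v e t), ?_, ?_, ?_, fun e => if_pos rfl, ?_⟩
  · exact Primrec.ite (PrimrecRel.comp Primrec.eq Primrec.snd (Primrec.const 0))
      (Primrec.const none) (hG.comp hv)
  · intro e t u c h htu
    obtain ⟨h0, h1, h2⟩ := (hkey' e t c).1 h
    exact (hkey' e u c).2 ⟨by omega, h1, (hf _).true_of_le htu h2⟩
  · intro e t c h
    exact ((hkey' e t c).1 h).2.1
  · intro e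
    obtain ⟨t, ht⟩ := (hA (r e) e).1 rfl
    exact ⟨t + 1, r e, (hkey' e (t + 1) (r e)).2
      ⟨Nat.succ_ne_zero t, rfl, (hf _).true_of_le (Nat.le_succ t) ht⟩⟩

/-- The number of the known members below `e`. -/
private def Known_cnt (k : ℕ → ℕ → Option Bool) (e t : ℕ) : ℕ :=
  Nat.rec 0 (fun i c => c + if k i t = some true then 1 else 0) e

private theorem Known_cnt_prim {k : ℕ → ℕ → Option Bool} (hk : Primrec₂ k) :
    Primrec₂ (Known_cnt k) := by
  have h1 : Primrec₂ fun (t : ℕ) (p : ℕ × ℕ) => p.2 + if k p.1 t = some true then 1 else 0 := by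
    have h2 : PrimrecPred fun q : ℕ × (ℕ × ℕ) => k q.2.1 q.1 = some true :=
      PrimrecRel.comp Primrec.eq (hk.comp (Primrec.fst.comp Primrec.snd) Primrec.fst)
        (Primrec.const (some true))
    have h3 : Primrec fun q : ℕ × (ℕ × ℕ) => q.2.2 + if k q.2.1 q.1 = some true then 1 else 0 :=
      Primrec.nat_add.comp (Primrec.snd.comp Primrec.snd)
        (Primrec.ite h2 (Primrec.const 1) (Primrec.const 0))
    exact h3
  have h2 : Primrec₂ fun (t : ℕ) (e : ℕ) => Known_cnt k e t :=
    Primrec.nat_rec (f := fun _ : ℕ => (0 : ℕ)) (Primrec.const 0) h1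
  exact h2.swap

private theorem Known_cnt_eq {k : ℕ → ℕ → Option Bool} {R : Set ℕ} [DecidablePred (· ∈ R)]
    {t : ℕ} (h : ∀ e b, k e t = some b → (b = true ↔ e ∈ R)) {e : ℕ}
    (he : ∀ e' < e, k e' t ≠ none) : Known_cnt k e t = Nat.count (· ∈ R) e := by
  induction e with
  | zero => simp [Known_cnt]
  | succ e ih =>
    have h1 : Known_cnt k (e + 1) t = Known_cnt k e t + if k e t = some true then 1 else 0 := rfl
    rw [h1, ih (fun e' he' => he e' (by omega)), Nat.count_succ]
    congr 1
    obtain ⟨b, hb⟩ := Option.ne_none_iff_exists'.1 (he e (Nat.lt_succ_self e))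
    have h2 := h e b hb
    rw [hb]
    by_cases h3 : e ∈ R
    · rw [if_pos h3, if_pos]
      rw [h2.2 h3]
    · rw [if_neg h3, if_neg]
      intro h4
      exact h3 (h2.1 (Option.some.inj h4))

/-- An infinite recursive set can be divided into infinitely many infinite pieces: the piece of an
element is eventually known. -/
theorem Rec.exists_tasks {R : Set ℕ} (hR : Rec R) (hi : R.Infinite) :
    ∃ k : ℕ → ℕ → Option ℕ, Primrec₂ k ∧
    (∀ e t u j, k e t = some j → t ≤ u → k e u = some j) ∧
    (∀ e t j, k e t = some j → e ∈ R) ∧ (∀ e, k e 0 = none) ∧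
    (∀ e ∈ R, ∃ t j, k e t = some j) ∧ ∀ j, {e | ∃ t, k e t = some j}.Infinite := by
  classical
  obtain ⟨k, hk, k1, k2, k3, k4⟩ := hR.exists_known
  have hpred : PrimrecPred fun p : ℕ × ℕ => ¬ (∃ e' < p.1 + 1, k e' p.2 = none) := by
    have h1 : PrimrecRel fun (e' t : ℕ) => k e' t = none :=
      PrimrecRel.comp Primrec.eq hk (Primrec.const none)
    have h2 := h1.exists_lt
    have h3 : PrimrecPred fun p : ℕ × ℕ => ∃ e' < p.1 + 1, k e' p.2 = none :=
      PrimrecPred.comp (p := fun p : ℕ × ℕ => ∃ e' < p.1, k e' p.2 = none)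
        (f := fun p : ℕ × ℕ => (p.1 + 1, p.2)) h2
        (Primrec.pair (Primrec.succ.comp Primrec.fst) Primrec.snd)
    exact h3.not
  have hkey : ∀ e t j, (if ¬ (∃ e' < e + 1, k e' t = none) then
      (if k e t = some true then some (Known_cnt k e t).unpair.1 else none) else none) = some j ↔
      (∀ e' < e + 1, k e' t ≠ none) ∧ k e t = some true ∧
        j = (Nat.count (· ∈ R) e).unpair.1 := by
    intro e t j
    by_cases h1 : ∃ e' < e + 1, k e' t = none
    · rw [if_neg (not_not.2 h1)]
      constructor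
      · intro h
        exact absurd h (by simp)
      · rintro ⟨h2, -⟩
        obtain ⟨e', h3, h4⟩ := h1
        exact absurd h4 (h2 e' h3)
    · rw [if_pos h1]
      have h2 : ∀ e' < e + 1, k e' t ≠ none := fun e' h3 h4 => h1 ⟨e', h3, h4⟩
      by_cases h3 : k e t = some true
      · rw [if_pos h3, Known_cnt_eq (R := R) (fun e b => k2 e t b)
          (fun e' he' => h2 e' (by omega)), Option.some.injEq]
        exact ⟨fun h => ⟨h2, h3, h.symm⟩, fun h => h.2.2.symm⟩
      · rw [if_neg h3]
        constructor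
        · intro h
          exact absurd h (by simp)
        · rintro ⟨-, h4, -⟩
          exact absurd h4 h3
  have hex : ∀ e ∈ R, ∃ t, (∀ e' < e + 1, k e' t ≠ none) ∧ k e t = some true := by
    intro e he
    have h1 : ∀ n, ∃ t, ∀ e' < n, k e' t ≠ none := by
      intro n
      induction n with
      | zero => exact ⟨0, fun e' he' => absurd he' (Nat.not_lt_zero e')⟩
      | succ n ih =>
        obtain ⟨t, ht⟩ := ih
        obtain ⟨s, b, hs⟩ := k4 n
        refine ⟨max s t, fun e' he' => ?_⟩
        rcases Nat.lt_succ_iff_lt_or_eq.1 he' with h2 | h2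
        · obtain ⟨c, hc⟩ := Option.ne_none_iff_exists'.1 (ht e' h2)
          rw [k1 e' t _ c hc (le_max_right s t)]
          simp
        · rw [h2, k1 n s _ b hs (le_max_left s t)]
          simp
    obtain ⟨t, ht⟩ := h1 (e + 1)
    refine ⟨t, ht, ?_⟩
    obtain ⟨c, hc⟩ := Option.ne_none_iff_exists'.1 (ht e (Nat.lt_succ_self e))
    rw [hc, (k2 e t c hc).2 he]
  refine ⟨fun e t => if ¬ (∃ e' < e + 1, k e' t = none) then
      (if k e t = some true then some (Known_cnt k e t).unpair.1 else none) else none,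
      ?_, ?_, ?_, ?_, ?_, ?_⟩
  · have h1 : PrimrecPred fun p : ℕ × ℕ => k p.1 p.2 = some true :=
      PrimrecRel.comp Primrec.eq hk (Primrec.const (some true))
    have h2 : Primrec fun p : ℕ × ℕ => some (Known_cnt k p.1 p.2).unpair.1 :=
      Primrec.option_some.comp (Primrec.fst.comp (Primrec.unpair.comp (Known_cnt_prim hk)))
    exact Primrec.ite hpred (Primrec.ite h1 h2 (Primrec.const none)) (Primrec.const none)
  · intro e t u j h htu
    obtain ⟨h1, h2, h3⟩ := (hkey e t j).1 h
    refine (hkey e u j).2 ⟨?_, k1 e t u _ h2 htu, h3⟩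
    intro e' he'
    obtain ⟨c, hc⟩ := Option.ne_none_iff_exists'.1 (h1 e' he')
    rw [k1 e' t u c hc htu]
    simp
  · intro e t j h
    obtain ⟨-, h2, -⟩ := (hkey e t j).1 h
    exact (k2 e t true h2).1 rfl
  · intro e
    refine if_neg (not_not.2 ⟨e, Nat.lt_succ_self e, k3 e⟩)
  · intro e he
    obtain ⟨t, h1, h2⟩ := hex e he
    exact ⟨t, _, (hkey e t _).2 ⟨h1, h2, rfl⟩⟩
  · intro j
    have hi' : (Set.ofPred (· ∈ R)).Infinite := hi
    have hnm : ∀ n, Nat.nth (· ∈ R) n ∈ R := Nat.nth_mem_of_infinite hi'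
    have hcn : ∀ n, Nat.count (· ∈ R) (Nat.nth (· ∈ R) n) = n :=
      Nat.count_nth_of_infinite hi'
    refine Set.infinite_of_injective_forall_mem (f := fun m => Nat.nth (· ∈ R) (Nat.pair j m))
      ?_ ?_
    · intro m m' h
      have h1 : Nat.pair j m = Nat.pair j m' := by
        rw [← hcn (Nat.pair j m), ← hcn (Nat.pair j m')]
        exact congrArg _ h
      exact (Nat.pair_eq_pair.1 h1).2
    · intro m
      obtain ⟨t, h1, h2⟩ := hex _ (hnm (Nat.pair j m))
      exact ⟨t, (hkey _ t j).2 ⟨h1, h2, by rw [hcn, Nat.unpair_pair]⟩⟩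

end Pool.Agent.Lib.MP_45c83f_lc
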