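import Pool.Agent.Lib.MP_45c83f_lc.NodeEx
import Pool.Agent.Lib.MP_45c83f_lc.Glue
import Pool.Agent.Lib.MP_45c83f_lc.Known

set_option autoImplicit false

/-!
# The free region (text, 5.4 (i))
-/

namespace Pool.Agent.Lib.MP_45c83f_lc

/-- the unique index which has a value -/
private theorem Free_hit {K : ℕ} (k : Fin K → ℕ → ℕ → Option ℕ) (hk : ∀ v, Primrec₂ (k v))
    (hdisj : ∀ e t v w j j', k v e t = some j → k w e t = some j' → v = w) :
    ∃ h : ℕ → ℕ → Option (Fin K × ℕ), Primrec₂ h ∧
      ∀ e t v j, h e t = some (v, j) ↔ k v e t = some j := by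
  have key : ∀ l : List (Fin K), ∃ h : ℕ → ℕ → Option (Fin K × ℕ), Primrec₂ h ∧
      ∀ e t v j, h e t = some (v, j) ↔ v ∈ l ∧ k v e t = some j := by
    intro l
    induction l with
    | nil => exact ⟨fun _ _ => none, Primrec₂.const none, fun e t v j => by simp⟩
    | cons v0 l ih =>
      obtain ⟨h, hh, h1⟩ := ih
      refine ⟨fun e t => ((k v0 e t).map fun j => (v0, j)) <|> h e t, ?_, ?_⟩
      · have h2 : Primrec fun p : ℕ × ℕ => (k v0 p.1 p.2).map fun j => (v0, j) :=
          Primrec.option_map (hk v0) ((Primrec.pair (Primrec.const v0) Primrec.snd).to₂)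
        exact Primrec.option_orElse.comp h2 hh
      · intro e t v j
        rcases h2 : k v0 e t with _ | j0
        · have e1 : (((none : Option ℕ).map fun j => (v0, j)) <|> h e t) = h e t := rfl
          simp only [h2]
          rw [e1, h1, List.mem_cons]
          constructor
          · rintro ⟨h3, h4⟩
            exact ⟨Or.inr h3, h4⟩
          · rintro ⟨h3 | h3, h4⟩
            · rw [h3, h2] at h4
              exact absurd h4 (by simp)
            · exact ⟨h3, h4⟩
        · have e1 : (((some j0 : Option ℕ).map fun j => (v0, j)) <|> h e t) = some (v0, j0) := rfl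
          simp only [h2]
          rw [e1, List.mem_cons, Option.some.injEq, Prod.mk.injEq]
          constructor
          · rintro ⟨rfl, rfl⟩
            exact ⟨Or.inl rfl, h2⟩
          · rintro ⟨-, h4⟩
            have h5 := hdisj e t v0 v j0 j h2 h4
            subst h5
            rw [h2] at h4
            exact ⟨rfl, Option.some.inj h4⟩
  obtain ⟨h, hh, h1⟩ := key (List.finRange K)
  exact ⟨h, hh, fun e t v j => by rw [h1]; simp⟩

namespace TSys

variable {X : Type} [PartialOrder X] [Finite X] [Primcodable X] {L : TSys X} {F : ℕ → ℕ → X}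
  {S : Finset (Fin L.K)}

/-- A labelling with a free region: `kn e t = some (some (v, j))` says that `e` is known at stage
`t` to be in the free region of the leaf node `v`, with task `j`; `kn e t = some none` says that
`e` is known not to be in the free region. -/
theorem exists_free (hF : IsAp F) {f : ℕ → X} (hf : Lim F f) (hS : L.HRed S)
    (hex : L.Exact F allSt S) :
    ∃ (lam : ℕ → ℕ → Option (Fin L.K)) (kn : ℕ → ℕ → Option (Option (Fin L.K × ℕ))),
      L.IsLab F allSt S lam ∧ {e | ¬ L.Corr F lam e}.Finite ∧ Primrec₂ kn ∧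
      (∀ e, kn e 0 = none) ∧
      (∀ e t k, kn e t = some k → kn e (t + 1) = some k) ∧
      (∀ e t v, lam e t = some v → ∃ k, kn e t = some k) ∧
      (∀ e t v j, kn e t = some (some (v, j)) → L.Node S v ∧ L.ch v = ∅ ∧
        (∀ u w, lam e u = some w → w = v)) ∧
      ∀ v, L.Node S v → L.ch v = ∅ → ∀ j, {e | ∃ t, kn e t = some (some (v, j))}.Infinite := by
  classical
  -- the sets
  have hR : ∀ v : Fin L.K, ∃ R : Set ℕ, Rec R ∧ (L.Node S v ∧ L.ch v = ∅ → R.Infinite) ∧
      (¬ (L.Node S v ∧ L.ch v = ∅) → R = ∅) ∧ ∀ e ∈ R, f e = L.lab v := by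
    intro v
    by_cases hv : L.Node S v ∧ L.ch v = ∅
    · obtain ⟨R, h1, h2, h3⟩ := exists_leafSet hF hf hS hex (d := L.lab v) ⟨v, hv.1, hv.2, rfl⟩
      exact ⟨R, h1, fun _ => h2, fun h => absurd hv h, h3⟩
    · exact ⟨∅, ⟨RESet.of_finite Set.finite_empty, RESet.compl_of_finite Set.finite_empty⟩,
        fun h => absurd h hv, fun _ => rfl, fun e he => absurd he (Set.notMem_empty e)⟩
  choose R hRec hRi hRe hRf using hR
  have hleaf : ∀ v e, e ∈ R v → L.Node S v ∧ L.ch v = ∅ := by
    intro v e he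
    by_contra h
    rw [hRe v h] at he
    exact Set.notMem_empty e he
  have hdis : ∀ v w e, e ∈ R v → e ∈ R w → v = w := by
    intro v w e hv hw
    refine L.inj v w ?_ ?_
    · rw [← hRf v e hv, hRf w e hw]
    · rw [(hleaf v e hv).2, (hleaf w e hw).2]
  -- the tasks
  have hk : ∀ v : Fin L.K, ∃ k : ℕ → ℕ → Option ℕ, Primrec₂ k ∧
      (∀ e t u j, k e t = some j → t ≤ u → k e u = some j) ∧
      (∀ e t j, k e t = some j → e ∈ R v) ∧ (∀ e, k e 0 = none) ∧
      (∀ e ∈ R v, ∃ t j, k e t = some j) ∧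
      (L.Node S v ∧ L.ch v = ∅ → ∀ j, {e | ∃ t, k e t = some j}.Infinite) := by
    intro v
    by_cases hv : L.Node S v ∧ L.ch v = ∅
    · obtain ⟨k, h1, h2, h3, h4, h5, h6⟩ := (hRec v).exists_tasks (hRi v hv)
      exact ⟨k, h1, h2, h3, h4, h5, fun _ => h6⟩
    · refine ⟨fun _ _ => none, Primrec₂.const none, by simp, by simp, by simp, ?_,
        fun h => absurd h hv⟩
      intro e he
      rw [hRe v hv] at he
      exact absurd he (Set.notMem_empty e)
  choose k hkp hk1 hk2 hk3 hk4 hk5 using hk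
  obtain ⟨h, hh, hhk⟩ := Free_hit k hkp fun e t v w j j' h1 h2 =>
    hdis v w e (hk2 v e t j h1) (hk2 w e t j' h2)
  -- the union
  have hU : Rec (⋃ v ∈ (Finset.univ : Finset (Fin L.K)), R v) := by
    refine ⟨RESet.biUnion _ fun v _ => (hRec v).1, ?_⟩
    have : (⋃ v ∈ (Finset.univ : Finset (Fin L.K)), R v)ᶜ =
        ⋂ v ∈ (Finset.univ : Finset (Fin L.K)), (R v)ᶜ := by
      ext e
      simp
    rw [this]
    exact RESet.biInter _ fun v _ => (hRec v).2
  obtain ⟨m, hmp, hm1, hm2, hm3, hm4⟩ := hU.exists_known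
  have hmem : ∀ e, e ∈ (⋃ v ∈ (Finset.univ : Finset (Fin L.K)), R v) ↔ ∃ v, e ∈ R v := by
    intro e
    simp
  have hmf : ∀ e t, m e t = some false → ∀ v, e ∉ R v := by
    intro e t h1 v h2
    have h3 := (hm2 e t false h1).2 ((hmem e).2 ⟨v, h2⟩)
    exact absurd h3 (by simp)
  -- the knowledge function
  obtain ⟨kn, hkn⟩ : ∃ kn : ℕ → ℕ → Option (Option (Fin L.K × ℕ)), kn = fun e t =>
      if m e t = some false then some none else (h e t).map some := ⟨_, rfl⟩
  have hknp : Primrec₂ kn := by
    rw [hkn]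
    have h1 : PrimrecPred fun p : ℕ × ℕ => m p.1 p.2 = some false :=
      PrimrecRel.comp Primrec.eq hmp (Primrec.const (some false))
    have h2 : Primrec fun p : ℕ × ℕ => (h p.1 p.2).map some :=
      Primrec.option_map hh (Primrec.option_some.comp Primrec.snd).to₂
    exact Primrec.ite h1 (Primrec.const (some none)) h2
  have hkn0 : ∀ e t, kn e t = some none ↔ m e t = some false := by
    intro e t
    rw [hkn]
    by_cases h1 : m e t = some false
    · simp [h1]
    · simp only [h1, if_false, iff_false]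
      rcases h e t with _ | x <;> simp
  have hkn1 : ∀ e t v j, kn e t = some (some (v, j)) ↔ k v e t = some j := by
    intro e t v j
    rw [← hhk, hkn]
    by_cases h1 : m e t = some false
    · simp only [h1, if_true]
      constructor
      · intro h2
        exact absurd h2 (by simp)
      · intro h2
        exact absurd (hk2 v e t j ((hhk e t v j).1 h2)) (hmf e t h1 v)
    · simp only [h1, if_false]
      rcases h2 : h e t with _ | x
      · simp
      · simp
  have hpers : ∀ e t x, kn e t = some x → kn e (t + 1) = some x := by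
    intro e t x hx
    rcases x with _ | ⟨v, j⟩
    · rw [hkn0] at hx ⊢
      exact hm1 e t (t + 1) false hx (Nat.le_succ t)
    · rw [hkn1] at hx ⊢
      exact hk1 v e t (t + 1) j hx (Nat.le_succ t)
  have htot : ∀ e, (∃ t, kn e t = some none) ∨ ∃ t v j, kn e t = some (some (v, j)) := by
    intro e
    by_cases h1 : ∃ v, e ∈ R v
    · obtain ⟨v, hv⟩ := h1
      obtain ⟨t, j, h2⟩ := hk4 v e hv
      exact Or.inr ⟨t, v, j, (hkn1 e t v j).2 h2⟩
    · obtain ⟨t, b, hb⟩ := hm4 e
      refine Or.inl ⟨t, (hkn0 e t).2 ?_⟩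
      cases b with
      | false => exact hb
      | true => exact absurd ((hmem e).1 ((hm2 e t true hb).1 rfl)) h1
  -- the labelling of the free region
  obtain ⟨G, hG⟩ : ∃ G : Option (Fin L.K) × X → Option (Fin L.K), G = fun p =>
      match p.1 with
      | none => none
      | some v => if L.lab v = p.2 then some v else none := ⟨_, rfl⟩
  have hGp : Primrec G := Primrec.dom_finite _
  obtain ⟨mu1, hmu1⟩ : ∃ mu1 : ℕ → ℕ → Option (Fin L.K), mu1 = fun e t =>
      G ((h e t).map Prod.fst, F e t) := ⟨_, rfl⟩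
  have hmu1p : Primrec₂ mu1 := by
    rw [hmu1]
    have h2 : Primrec fun p : ℕ × ℕ => (h p.1 p.2).map Prod.fst :=
      Primrec.option_map hh (Primrec.fst.comp Primrec.snd).to₂
    exact hGp.comp (Primrec.pair h2 hF.prim)
  have hmu1k : ∀ e t v, mu1 e t = some v ↔ (∃ j, k v e t = some j) ∧ L.lab v = F e t := by
    intro e t v
    rw [hmu1, hG]
    rcases h2 : h e t with _ | ⟨w, j⟩
    · simp only [h2, Option.map_none]
      constructor
      · intro h3
        exact absurd h3 (by simp)
      · rintro ⟨⟨j, hj⟩, -⟩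
        rw [← hhk, h2] at hj
        exact absurd hj (by simp)
    · simp only [h2, Option.map_some]
      constructor
      · intro h3
        split_ifs at h3 with h4
        rw [Option.some.injEq] at h3
        subst h3
        exact ⟨⟨j, (hhk e t w j).1 h2⟩, h4⟩
      · rintro ⟨⟨j', hj'⟩, h4⟩
        rw [← hhk, h2, Option.some.injEq, Prod.mk.injEq] at hj'
        obtain ⟨rfl, rfl⟩ := hj'
        rw [if_pos h4]
  have hmu1s : ∀ e t v, mu1 e t = some v → mu1 e (t + 1) = some v := by
    intro e t v hv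
    rw [hmu1k] at hv ⊢
    obtain ⟨⟨j, hj⟩, h2⟩ := hv
    refine ⟨⟨j, hk1 v e t (t + 1) j hj (Nat.le_succ t)⟩, ?_⟩
    have h3 := hRf v e (hk2 v e t j hj)
    apply le_antisymm
    · rw [h2]
      exact hF.mono e (Nat.le_succ t)
    · rw [← h3]
      exact hF.le_lim hf e (t + 1)
  have hlab1 : L.IsLab F allSt S mu1 := by
    refine ⟨hmu1p, ?_, ?_, ?_⟩
    · intro e
      rcases h1 : mu1 e 0 with _ | v
      · rfl
      · obtain ⟨⟨j, hj⟩, -⟩ := (hmu1k e 0 v).1 h1
        rw [hk3] at hj
        exact absurd hj (by simp)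
    · intro e t h1
      exact absurd h1 (by simp [allSt])
    · intro e t
      rcases h1 : mu1 e t with _ | u
      · rcases h2 : mu1 e (t + 1) with _ | v
        · left
          rfl
        · right
          obtain ⟨⟨j, hj⟩, h3⟩ := (hmu1k e (t + 1) v).1 h2
          exact ⟨v, rfl, h3, fun u hu => absurd hu (by simp),
            fun _ => (hleaf v e (hk2 v e _ j hj)).1⟩
      · left
        exact hmu1s e t u h1
  obtain ⟨lam0, hlam0, hcor0⟩ := hex.1
  -- the decision
  obtain ⟨D, hD⟩ : ∃ D : Option (Option (Fin L.K)) → Option (Fin 2), D = fun x =>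
      match x with
      | none => none
      | some none => some 0
      | some (some _) => some 1 := ⟨_, rfl⟩
  have hDp : Primrec D := Primrec.dom_finite _
  obtain ⟨d, hd⟩ : ∃ d : ℕ → ℕ → Option (Fin 2), d = fun e t =>
      D ((kn e t).map fun x => x.map Prod.fst) := ⟨_, rfl⟩
  have hdp : Primrec₂ d := by
    rw [hd]
    have h2 : Primrec fun p : ℕ × ℕ => (kn p.1 p.2).map fun x => x.map Prod.fst := by
      refine Primrec.option_map hknp ?_
      exact Primrec.option_map Primrec.snd (Primrec.fst.comp Primrec.snd).to₂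
    exact hDp.comp h2
  have hdn : ∀ e t, kn e t = none → d e t = none := by
    intro e t h1
    rw [hd, hD]
    simp only [h1, Option.map_none]
  have hdz : ∀ e t, kn e t = some none → d e t = some 0 := by
    intro e t h1
    rw [hd, hD]
    simp only [h1, Option.map_some, Option.map_none]
  have hdo : ∀ e t x, kn e t = some (some x) → d e t = some 1 := by
    intro e t x h1
    rw [hd, hD]
    simp only [h1, Option.map_some]
  have hd0 : ∀ e t, d e t = some 0 ↔ kn e t = some none := by
    intro e t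
    rcases h1 : kn e t with _ | _ | x
    · rw [hdn e t h1]; simp
    · rw [hdz e t h1]; exact ⟨fun _ => rfl, fun _ => rfl⟩
    · rw [hdo e t x h1]; simp
  have hd1 : ∀ e t, d e t = some 1 ↔ ∃ x, kn e t = some (some x) := by
    intro e t
    rcases h1 : kn e t with _ | _ | x
    · rw [hdn e t h1]; simp
    · rw [hdz e t h1]; simp
    · rw [hdo e t x h1]; simp
  have hdi : ∀ e t i, d e t = some i → (i = 0 ∨ i = 1) := by
    intro e t i _
    omega
  have hdpers : ∀ e t i, d e t = some i → d e (t + 1) = some i := by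
    intro e t i hi
    rcases hdi e t i hi with rfl | rfl
    · rw [hd0] at hi ⊢
      exact hpers e t _ hi
    · rw [hd1] at hi ⊢
      obtain ⟨x, hx⟩ := hi
      exact ⟨x, hpers e t _ hx⟩
  obtain ⟨lam, hlam, hl1, hl2⟩ := glue (L := L) hF (k := 2) (fun _ => allSt) (fun _ => S)
    ![lam0, mu1] (by
      intro i
      fin_cases i
      · exact hlam0
      · exact hlab1) hdp hdpers (V := allSt) (fun e t i _ => rfl) (S' := S) (fun i v hv => hv)
  refine ⟨lam, kn, hlam, ?_, hknp, ?_, hpers, ?_, ?_, ?_⟩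
  · refine hcor0.subset ?_
    intro e he
    refine ⟨⟨0, rfl⟩, fun hc => he ?_⟩
    rcases htot e with ⟨t, ht⟩ | ⟨t, v, j, ht⟩
    · exact hl2 e 0 t ((hd0 e t).2 ht) hc
    · refine hl2 e 1 t ((hd1 e t).2 ⟨_, ht⟩) ?_
      show L.Corr F mu1 e
      have h1 := (hkn1 e t v j).1 ht
      have h2 := hRf v e (hk2 v e t j h1)
      obtain ⟨s, hs⟩ := hf e
      refine ⟨v, max s t, fun u hu => ?_⟩
      have h3 : F e u = L.lab v := by rw [hs u (le_trans (le_max_left _ _) hu), h2]
      exact ⟨(hmu1k e u v).2 ⟨⟨j, hk1 v e t u j h1 (le_trans (le_max_right _ _) hu)⟩, h3.symm⟩, h3⟩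
  · intro e
    rcases h1 : kn e 0 with _ | _ | ⟨v, j⟩
    · rfl
    · have h2 := (hkn0 e 0).1 h1
      rw [hm3] at h2
      exact absurd h2 (by simp)
    · have h2 := (hkn1 e 0 v j).1 h1
      rw [hk3] at h2
      exact absurd h2 (by simp)
  · intro e t v hv
    obtain ⟨i, hi, -⟩ := hl1 e t v hv
    rcases hdi e t i hi with rfl | rfl
    · exact ⟨_, (hd0 e t).1 hi⟩
    · obtain ⟨x, hx⟩ := (hd1 e t).1 hi
      exact ⟨_, hx⟩
  · intro e t v j hv
    have h1 := (hkn1 e t v j).1 hv
    have h2 := hk2 v e t j h1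
    refine ⟨(hleaf v e h2).1, (hleaf v e h2).2, ?_⟩
    intro u w hw
    obtain ⟨i, hi, hi2⟩ := hl1 e u w hw
    rcases hdi e u i hi with rfl | rfl
    · exact absurd h2 (hmf e u ((hkn0 e u).1 ((hd0 e u).1 hi)) v)
    · have h3 : mu1 e u = some w := hi2
      obtain ⟨⟨j', hj'⟩, -⟩ := (hmu1k e u w).1 h3
      exact hdis w v e (hk2 w e u j' hj') h2
  · intro v hv hv' j
    have h1 : {e | ∃ t, kn e t = some (some (v, j))} = {e | ∃ t, k v e t = some j} := by
      ext e
      constructor
      · rintro ⟨t, ht⟩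
        exact ⟨t, (hkn1 e t v j).1 ht⟩
      · rintro ⟨t, ht⟩
        exact ⟨t, (hkn1 e t v j).2 ht⟩
    rw [h1]
    exact hk5 v ⟨hv, hv'⟩ j

end TSys

end Pool.Agent.Lib.MP_45c83f_lc
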