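import Pool.Agent.Lib.MP_45c83f_lc.Types

set_option autoImplicit false

/-!
# Types: the combinatorial parts of Lemmas A, B, D
-/

namespace Pool.Agent.Lib.MP_45c83f_lc

namespace TSys

variable {X : Type} [PartialOrder X] {L : TSys X}

private theorem lab_eq {v w : Fin L.K} (h : L.Emb v w) : L.lab v = L.lab w := (emb_iff.1 h).1

/-- Nothing below or at a child of `s` has `s` embedded. -/
private theorem not_emb_ch {s w : Fin L.K} (hw : L.Node (L.ch s) w) : ¬ L.Emb s w := by
  intro h
  have h1 : L.lab s < L.lab w := Desc.lab_lt (desc_iff_node.2 hw)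
  rw [lab_eq h] at h1
  exact lt_irrefl _ h1

/-- A forest above which `s` embeds at a node is above `{s}`. -/
private theorem leF_singleton {s : Fin L.K} {S : Finset (Fin L.K)} {w : Fin L.K}
    (hw : L.Node S w) (h : L.Emb s w) : L.LeF {s} S := by
  intro s' hs'
  rw [Finset.mem_singleton] at hs'
  exact ⟨w, hw, hs' ▸ h⟩

/-- The combinatorial part of Lemma A. -/
theorem ltF_A {S S'' : Finset (Fin L.K)} {s : Fin L.K} (hS : L.Red S) (hs : s ∈ S)
    (h : L.LtF S'' {s}) : L.LtF (S.erase s ∪ L.ch s ∪ S'') S := by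
  constructor
  · refine LeF.union (LeF.union ?_ ?_) ?_
    · exact LeF.of_node fun v hv => Node.of_mem (Finset.mem_of_mem_erase hv)
    · exact LeF.of_node fun v hv => (Node.of_mem hs).desc (Desc.of_ch hv)
    · refine h.1.trans ?_
      exact LeF.of_node fun v hv => by
        rw [Finset.mem_singleton] at hv
        rw [hv]
        exact Node.of_mem hs
  · intro hle
    obtain ⟨w, hw, hsw⟩ := hle s hs
    rw [node_union, node_union] at hw
    rcases hw with (hw | hw) | hw
    · exact hS s hs (leF_singleton hw hsw)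
    · exact not_emb_ch hw hsw
    · exact h.2 (leF_singleton hw hsw)

private theorem node_biUnion {ι : Type} [Fintype ι] (T : ι → Finset (Fin L.K)) {w : Fin L.K}
    (h : L.Node (Finset.univ.biUnion T) w) : ∃ i, L.Node (T i) w := by
  obtain ⟨s, hs, hsw⟩ := h
  rw [Finset.mem_biUnion] at hs
  obtain ⟨i, -, hi⟩ := hs
  exact ⟨i, s, hi, hsw⟩

/-- The combinatorial part of Lemma B. -/
theorem ltF_B {c : Fin L.K} {ι : Type} [Fintype ι] (T : ι → Finset (Fin L.K))
    (h : ∀ i, L.LtF (T i) {c}) : L.LtF (L.ch c ∪ Finset.univ.biUnion T) {c} := by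
  constructor
  · refine LeF.union ?_ ?_
    · exact LeF.of_node fun v hv => (Node.of_mem (Finset.mem_singleton_self c)).desc
        (Desc.of_ch hv)
    · intro v hv
      rw [Finset.mem_biUnion] at hv
      obtain ⟨i, -, hi⟩ := hv
      exact (h i).1 v hi
  · intro hle
    obtain ⟨w, hw, hcw⟩ := hle c (Finset.mem_singleton_self c)
    rw [node_union] at hw
    rcases hw with hw | hw
    · exact not_emb_ch hw hcw
    · obtain ⟨i, hi⟩ := node_biUnion T hw
      exact (h i).2 (leF_singleton hi hcw)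

/-- The combinatorial part of Lemma D. -/
theorem ltF_D {c c' : Fin L.K} {S'' : Finset (Fin L.K)} (hc : L.Red (L.ch c)) (hc' : c' ∈ L.ch c)
    (h : L.LtF S'' {c'}) : ∃ d, L.lab d = L.lab c ∧
      L.ch d = (L.ch c).erase c' ∪ L.ch c' ∪ S'' ∧ L.LtF {d} {c} := by
  have hcc' : L.Desc c c' := Desc.of_ch hc'
  -- every node of `S''` is embedded in a proper descendant of `c`
  have hS'' : ∀ v ∈ S'', ∃ w, L.Desc c w ∧ L.Emb v w := by
    intro v hv
    obtain ⟨w, hw, hvw⟩ := h.1 v hv
    rw [node_singleton] at hw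
    rcases hw with rfl | hw
    · exact ⟨_, hcc', hvw⟩
    · exact ⟨w, hcc'.trans hw, hvw⟩
  have hnew : ∀ v ∈ (L.ch c).erase c' ∪ L.ch c' ∪ S'', ∃ w, L.Desc c w ∧ L.Emb v w := by
    intro v hv
    rw [Finset.mem_union, Finset.mem_union] at hv
    rcases hv with (hv | hv) | hv
    · exact ⟨v, Desc.of_ch (Finset.mem_of_mem_erase hv), Emb.refl v⟩
    · exact ⟨v, hcc'.trans (Desc.of_ch hv), Emb.refl v⟩
    · exact hS'' v hv
  obtain ⟨d, hd1, hd2⟩ := L.ex (L.lab c) ((L.ch c).erase c' ∪ L.ch c' ∪ S'') (by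
    intro v hv
    obtain ⟨w, hw, hvw⟩ := hnew v hv
    rw [lab_eq hvw]
    exact hw.lab_lt)
  refine ⟨d, hd1, hd2, ?_, ?_⟩
  · intro v hv
    rw [Finset.mem_singleton] at hv
    rw [hv]
    refine ⟨c, Node.of_mem (Finset.mem_singleton_self c), emb_iff.2 ⟨hd1, ?_⟩⟩
    rw [hd2]
    exact hnew
  · intro hle
    obtain ⟨w, hw, hcw⟩ := hle c (Finset.mem_singleton_self c)
    rw [node_singleton] at hw
    rcases hw with rfl | hw
    · obtain ⟨w, hw, hw'⟩ := (emb_iff.1 hcw).2 c' hc'
      rw [desc_iff_node, hd2, node_union, node_union] at hw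
      rcases hw with (hw | hw) | hw
      · exact hc c' hc' (leF_singleton hw hw')
      · exact not_emb_ch hw hw'
      · exact h.2 (leF_singleton hw hw')
    · have h1 := hw.lab_lt
      rw [hd1, lab_eq hcw] at h1
      exact lt_irrefl _ h1

end TSys

end Pool.Agent.Lib.MP_45c83f_lc
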