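import Pool.Agent.Lib.MP_45c83f_lc.Glue
import Pool.Agent.Lib.MP_45c83f_lc.TypesC

set_option autoImplicit false

/-!
# Labellings: Lemma D (text, 5.2)
-/

namespace Pool.Agent.Lib.MP_45c83f_lc

namespace TSys

variable {X : Type} [PartialOrder X] [Finite X] [Primcodable X] {L : TSys X} {F : ℕ → ℕ → X}
  {S : Finset (Fin L.K)} {lam : ℕ → ℕ → Option (Fin L.K)}

/-- Elements of a stream at `c` have the label `c` or a proper descendant. -/
theorem LabD_val (hlam : L.IsLab F allSt S lam)
    {V : ℕ → ℕ → Bool} {c : Fin L.K} (hV : L.AtC F lam V c) {e t : ℕ} (ht : V e t = true) :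
    ∃ w, lam e t = some w ∧ (w = c ∨ L.Desc c w) := by
  classical
  have hex : ∃ u, V e u = true := ⟨t, ht⟩
  have h1 : Enter V e (Nat.find hex) := by
    refine ⟨Nat.find_spec hex, fun u hu => ?_⟩
    have := Nat.find_min hex hu
    simpa using this
  exact hlam.later (Nat.find_min' hex ht) (hV.at_c e _ h1).1

theorem LabD_ne {c w : Fin L.K} (h : L.Desc c w) : w ≠ c := by
  rintro rfl
  exact lt_irrefl _ h.lab_lt

/-- The label `c` never comes back. -/
theorem LabD_persist (hlam : L.IsLab F allSt S lam)
    {V : ℕ → ℕ → Bool} {c : Fin L.K} (hV : L.AtC F lam V c) {e t u : ℕ} (ht : V e t = true)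
    (hne : lam e t ≠ some c) (htu : t ≤ u) : lam e u ≠ some c := by
  obtain ⟨w, hw, hcw⟩ := LabD_val hlam hV ht
  have hcw' : L.Desc c w := by
    rcases hcw with rfl | h
    · exact absurd hw hne
    · exact h
  obtain ⟨w', hw', h⟩ := hlam.later htu hw
  rw [hw']
  intro h1
  have h2 : w' = c := Option.some.inj h1
  rcases h with h | h
  · exact LabD_ne hcw' (h ▸ h2)
  · exact LabD_ne (hcw'.trans h) h2

theorem LabD_nxt_iff {V : ℕ → ℕ → Bool} {c c' : Fin L.K} {e t : ℕ} :
    L.nxt lam V c c' e t = true ↔
      ∃ u, u < t ∧ lam e u = some c ∧ lam e (u + 1) = some c' ∧ V e u = true := by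
  unfold nxt
  exact decide_eq_true_iff

theorem LabD_nxt_ap (hlam : L.IsLab F allSt S lam) {V : ℕ → ℕ → Bool} (hV : IsAp V)
    (c c' : Fin L.K) : IsAp (L.nxt lam V c c') := by
  classical
  constructor
  · have h1 : PrimrecRel fun (u e : ℕ) =>
        lam e u = some c ∧ lam e (u + 1) = some c' ∧ V e u = true := by
      have a1 : PrimrecPred fun p : ℕ × ℕ => lam p.2 p.1 = some c :=
        PrimrecRel.comp Primrec.eq (Primrec₂.comp hlam.prim Primrec.snd Primrec.fst)
          (Primrec.const _)
      have a2 : PrimrecPred fun p : ℕ × ℕ => lam p.2 (p.1 + 1) = some c' :=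
        PrimrecRel.comp Primrec.eq (Primrec₂.comp hlam.prim Primrec.snd
          (Primrec.succ.comp Primrec.fst)) (Primrec.const _)
      have a3 : PrimrecPred fun p : ℕ × ℕ => V p.2 p.1 = true :=
        PrimrecRel.comp Primrec.eq (Primrec₂.comp hV.prim Primrec.snd Primrec.fst)
          (Primrec.const _)
      exact a1.and (a2.and a3)
    have h2 := h1.exists_lt
    have h3 : PrimrecPred fun p : ℕ × ℕ => ∃ u < p.2,
        lam p.1 u = some c ∧ lam p.1 (u + 1) = some c' ∧ V p.1 u = true :=
      PrimrecPred.comp (p := fun p : ℕ × ℕ => ∃ u < p.1,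
        lam p.2 u = some c ∧ lam p.2 (u + 1) = some c' ∧ V p.2 u = true)
        (f := fun p : ℕ × ℕ => (p.2, p.1)) h2 (Primrec.pair Primrec.snd Primrec.fst)
    have h4 : Primrec fun p : ℕ × ℕ => decide (∃ u < p.2,
        lam p.1 u = some c ∧ lam p.1 (u + 1) = some c' ∧ V p.1 u = true) := h3.decide
    refine h4.of_eq fun p => ?_
    rw [Bool.eq_iff_iff, decide_eq_true_iff, LabD_nxt_iff]
  · intro e s t hst
    rw [Bool.le_iff_imp, LabD_nxt_iff, LabD_nxt_iff]
    rintro ⟨u, hu, h⟩
    exact ⟨u, lt_of_lt_of_le hu hst, h⟩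

theorem LabD_nxt_atC (hlam : L.IsLab F allSt S lam) {V : ℕ → ℕ → Bool} (hV : IsAp V)
    {c c' : Fin L.K} (hc' : c' ∈ L.ch c) : L.AtC F lam (L.nxt lam V c c') c' := by
  refine ⟨LabD_nxt_ap hlam hV c c', ?_⟩
  rintro e t ⟨h1, h2⟩
  obtain ⟨u, hu, h3, h4, h5⟩ := LabD_nxt_iff.1 h1
  have h6 : t = u + 1 := by
    by_contra hne
    have h7 : u + 1 < t := by omega
    have h8 := h2 _ h7
    have h9 : L.nxt lam V c c' e (u + 1) = true := LabD_nxt_iff.2 ⟨u, Nat.lt_succ_self u, h3, h4, h5⟩
    rw [h9] at h8
    exact absurd h8 (by simp)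
  subst h6
  refine ⟨h4, ?_⟩
  rcases hlam.step e u with h | ⟨v, hv, hlab, -, -⟩
  · rw [h4, h3] at h
    exact absurd (Option.some.inj h) (LabD_ne (Desc.of_ch hc'))
  · rw [h4] at hv
    rw [← hlab, Option.some.inj hv]

/-- Lemma D. -/
theorem lemD (hF : IsAp F) (hlam : L.IsLab F allSt S lam) (hcor : {e | ¬ L.Corr F lam e}.Finite)
    {V : ℕ → ℕ → Bool} {c c' : Fin L.K} (hV : L.AtC F lam V c) (hex : L.Exact F V {c})
    (hred : L.Red (L.ch c)) (hc' : c' ∈ L.ch c) :
    L.AtC F lam (L.nxt lam V c c') c' ∧ L.Exact F (L.nxt lam V c c') {c'} := by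
  classical
  have hat : L.AtC F lam (L.nxt lam V c c') c' := LabD_nxt_atC hlam hV.ap hc'
  refine ⟨hat, hat.bdd hF hlam hcor, ?_⟩
  rintro S'' hlt ⟨mu, hmu, hmufin⟩
  obtain ⟨d, hd1, hd2, hd3⟩ := ltF_D hred hc' hlt
  apply hex.2 {d} hd3
  have hVmono : ∀ e s t, s ≤ t → V e s = true → V e t = true := fun e s t hst h =>
    hV.ap.true_of_le hst h
  have hNmono : ∀ e s t, s ≤ t → L.nxt lam V c c' e s = true → L.nxt lam V c c' e t = true :=
    fun e s t hst h => hat.ap.true_of_le hst h
  have hV0 : ∀ e, V e 0 = false := by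
    intro e
    by_contra h
    have h1 : Enter V e 0 := ⟨by simpa using h, fun u hu => absurd hu (Nat.not_lt_zero u)⟩
    have h2 := (hV.at_c e 0 h1).1
    rw [hlam.zero] at h2
    exact absurd h2 (by simp)
  -- the stages after the departure from `c`, not to `c'`
  let cond : ℕ → ℕ → Prop := fun e t =>
    V e t = true ∧ lam e t ≠ some c ∧ L.nxt lam V c c' e t = false
  have hcondp : PrimrecPred fun p : ℕ × ℕ => cond p.1 p.2 := by
    have a1 : PrimrecPred fun p : ℕ × ℕ => V p.1 p.2 = true :=
      PrimrecRel.comp Primrec.eq hV.ap.prim (Primrec.const _)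
    have a2 : PrimrecPred fun p : ℕ × ℕ => lam p.1 p.2 = some c :=
      PrimrecRel.comp Primrec.eq hlam.prim (Primrec.const _)
    have a3 : PrimrecPred fun p : ℕ × ℕ => L.nxt lam V c c' p.1 p.2 = false :=
      PrimrecRel.comp Primrec.eq hat.ap.prim (Primrec.const _)
    exact a1.and (a2.not.and a3)
  have hcond_mono : ∀ e t, cond e t → cond e (t + 1) := by
    rintro e t ⟨h1, h2, h3⟩
    refine ⟨hVmono e t (t + 1) (Nat.le_succ t) h1,
      LabD_persist hlam hV h1 h2 (Nat.le_succ t), ?_⟩
    by_contra h4
    have h5 : L.nxt lam V c c' e (t + 1) = true := by simpa using h4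
    obtain ⟨u, hu, hu2⟩ := LabD_nxt_iff.1 h5
    rcases Nat.lt_succ_iff_lt_or_eq.1 hu with h6 | h6
    · have h7 : L.nxt lam V c c' e t = true := LabD_nxt_iff.2 ⟨u, h6, hu2⟩
      rw [h3] at h7
      exact absurd h7 (by simp)
    · subst h6
      exact h2 hu2.1
  have hcond_mono' : ∀ e s t, s ≤ t → cond e s → cond e t := by
    intro e s t hst h
    induction t, hst using Nat.le_induction with
    | base => exact h
    | succ k hk ih => exact hcond_mono e k ih
  let S0 : Finset (Fin L.K) := (L.ch c).erase c' ∪ L.ch c'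
  let mu0 : ℕ → ℕ → Option (Fin L.K) := fun e t => if cond e t then lam e t else none
  have hmu0c : ∀ e t, cond e t → mu0 e t = lam e t := fun e t h => if_pos h
  have hmu0n : ∀ e t, ¬ cond e t → mu0 e t = none := fun e t h => if_neg h
  have hmu0 : L.IsLab F V S0 mu0 := by
    refine ⟨?_, ?_, ?_, ?_⟩
    · exact Primrec.ite hcondp hlam.prim (Primrec.const none)
    · intro e
      refine hmu0n e 0 fun h => ?_
      have := h.1
      rw [hV0] at this
      exact absurd this (by simp)
    · intro e t h
      refine hmu0n e t fun h' => ?_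
      have := h'.1
      rw [h] at this
      exact absurd this (by simp)
    · intro e t
      by_cases hc1 : cond e (t + 1)
      · rw [hmu0c e (t + 1) hc1]
        by_cases hc0 : cond e t
        · rw [hmu0c e t hc0]
          rcases hlam.step e t with h | ⟨v, hv, hlab, hdesc, -⟩
          · exact Or.inl h
          · right
            refine ⟨v, hv, hlab, hdesc, fun hn => ?_⟩
            obtain ⟨w, hw, -⟩ := LabD_val hlam hV hc0.1
            rw [hn] at hw
            exact absurd hw (by simp)
        · -- the departure from `c`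
          right
          have hVt : V e t = true := by
            by_contra hVt
            have h1 : Enter V e (t + 1) := by
              refine ⟨hc1.1, fun u hu => ?_⟩
              by_contra hu'
              exact hVt (hVmono e u t (by omega) (by simpa using hu'))
            exact hc1.2.1 (hV.at_c e _ h1).1
          have hNt : L.nxt lam V c c' e t = false := by
            by_contra h
            have h1 := hNmono e t (t + 1) (Nat.le_succ t) (by simpa using h)
            rw [hc1.2.2] at h1
            exact absurd h1 (by simp)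
          have hlt' : lam e t = some c := by
            by_contra h
            exact hc0 ⟨hVt, h, hNt⟩
          rcases hlam.step e t with h | ⟨v, hv, hlab, hdesc, -⟩
          · rw [hlt'] at h
            exact absurd h hc1.2.1
          · have hcv : L.Desc c v := hdesc c hlt'
            have hvc' : v ≠ c' := by
              rintro rfl
              have h1 : L.nxt lam V c v e (t + 1) = true :=
                LabD_nxt_iff.2 ⟨t, Nat.lt_succ_self t, hlt', hv, hVt⟩
              rw [hc1.2.2] at h1
              exact absurd h1 (by simp)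
            refine ⟨v, hv, hlab, ?_, ?_⟩
            · intro u hu
              rw [hmu0n e t hc0] at hu
              exact absurd hu (by simp)
            · intro _
              rw [desc_iff_node] at hcv
              obtain ⟨s, hs, hsv⟩ := hcv
              show L.Node ((L.ch c).erase c' ∪ L.ch c') v
              rw [node_union]
              rcases hsv with rfl | hsv
              · exact Or.inl (Node.of_mem (Finset.mem_erase.2 ⟨hvc', hs⟩))
              · by_cases hsc : s = c'
                · subst hsc
                  exact Or.inr (desc_iff_node.1 hsv)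
                · exact Or.inl ((Node.of_mem (Finset.mem_erase.2 ⟨hsc, hs⟩)).desc hsv)
      · left
        rw [hmu0n e (t + 1) hc1, hmu0n e t fun h => hc1 (hcond_mono e t h)]
  -- the decision
  let D : ℕ → ℕ → Option (Fin 2) := fun e t =>
    if L.nxt lam V c c' e t = true then some 1 else if cond e t then some 0 else none
  have hD1 : ∀ e t, L.nxt lam V c c' e t = true → D e t = some 1 := fun e t h => if_pos h
  have hD0 : ∀ e t, cond e t → D e t = some 0 := by
    intro e t h
    have h1 : ¬ L.nxt lam V c c' e t = true := by rw [h.2.2]; simp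
    show (if L.nxt lam V c c' e t = true then some 1 else if cond e t then some 0 else none) = _
    rw [if_neg h1, if_pos h]
  have hDs : ∀ e t i, D e t = some i →
      (i = 1 ∧ L.nxt lam V c c' e t = true) ∨ (i = 0 ∧ cond e t) := by
    intro e t i h
    by_cases h1 : L.nxt lam V c c' e t = true
    · rw [hD1 e t h1] at h
      exact Or.inl ⟨(Option.some.inj h).symm, h1⟩
    · by_cases h2 : cond e t
      · rw [hD0 e t h2] at h
        exact Or.inr ⟨(Option.some.inj h).symm, h2⟩
      · have h3 : D e t = none := by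
          show (if L.nxt lam V c c' e t = true then some 1 else
            if cond e t then some 0 else none) = _
          rw [if_neg h1, if_neg h2]
        rw [h3] at h
        exact absurd h (by simp)
  have hDp : Primrec₂ D := by
    refine Primrec.ite ?_ (Primrec.const _) (Primrec.ite hcondp (Primrec.const _)
      (Primrec.const _))
    exact PrimrecRel.comp Primrec.eq hat.ap.prim (Primrec.const _)
  obtain ⟨lam', hlam', hval, hcorr⟩ := glue (L := L) (F := F) hF (k := 2)
    (fun i => if i = 0 then V else L.nxt lam V c c')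
    (fun i => if i = 0 then S0 else S'') (fun i => if i = 0 then mu0 else mu)
    (by
      intro i
      by_cases hi : i = 0
      · simp only [hi, if_true]; exact hmu0
      · simp only [hi, if_false]; exact hmu)
    (d := D) hDp
    (by
      intro e t i hi
      rcases hDs e t i hi with ⟨rfl, h⟩ | ⟨rfl, h⟩
      · exact hD1 e _ (hNmono e t _ (Nat.le_succ t) h)
      · exact hD0 e _ (hcond_mono e t h))
    (V := V)
    (by
      intro e t i hi
      rcases hDs e t i hi with ⟨rfl, h⟩ | ⟨rfl, h⟩
      · obtain ⟨u, hu, -, -, hu2⟩ := LabD_nxt_iff.1 h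
        exact hVmono e u t hu.le hu2
      · exact h.1)
    (S' := L.ch d)
    (by
      intro i v hv
      rw [hd2, node_union]
      by_cases hi : i = 0
      · simp only [hi, if_true] at hv; exact Or.inl hv
      · simp only [hi, if_false] at hv; exact Or.inr hv)
  obtain ⟨nu, hnu, hnucorr⟩ := rootify hF hV.ap hlam' (d := d)
    (fun v hv => desc_iff_node.2 hv)
    (fun e t h => by rw [hd1]; exact (hV.at_c e t h).2) hV0
  refine ⟨nu, hnu, (hcor.union hmufin).subset ?_⟩
  rintro e ⟨he, hne⟩
  by_contra hcon
  rw [Set.mem_union, not_or] at hcon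
  obtain ⟨hcon1, hcon2⟩ := hcon
  apply hne
  apply hnucorr e he
  have hc1 : L.Corr F lam e := by
    by_contra h
    exact hcon1 h
  by_cases hN : In (L.nxt lam V c c') e
  · left
    have hc2 : L.Corr F mu e := by
      by_contra h
      exact hcon2 ⟨hN, h⟩
    obtain ⟨t, ht⟩ := hN
    exact hcorr e 1 t (hD1 e t ht) (by simpa using hc2)
  · have hN' : ∀ t, L.nxt lam V c c' e t = false := by
      intro t
      by_contra h
      exact hN ⟨t, by simpa using h⟩
    obtain ⟨t0, ht0⟩ := he
    obtain ⟨v, t1, ht1⟩ := hc1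
    by_cases hvc : v = c
    · right
      subst hvc
      have hnc : ∀ t, ¬ cond e t := by
        rintro t ⟨h1, h2, -⟩
        exact LabD_persist hlam hV h1 h2 (le_max_left t t1) (ht1 _ (le_max_right t t1)).1
      refine ⟨?_, t1, fun u hu => by rw [hd1]; exact (ht1 u hu).2⟩
      intro t
      by_contra hne'
      obtain ⟨w, hw⟩ := Option.ne_none_iff_exists'.1 hne'
      obtain ⟨i, hi, -⟩ := hval e t w hw
      rcases hDs e t i hi with ⟨-, h⟩ | ⟨-, h⟩
      · rw [hN'] at h; exact absurd h (by simp)
      · exact hnc t h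
    · left
      have hcd : ∀ u, max t0 t1 ≤ u → cond e u := by
        intro u hu
        refine ⟨hVmono e t0 u (le_trans (le_max_left _ _) hu) ht0, ?_, hN' u⟩
        rw [(ht1 u (le_trans (le_max_right _ _) hu)).1]
        intro h
        exact hvc (Option.some.inj h)
      refine hcorr e 0 (max t0 t1) (hD0 e _ (hcd _ le_rfl)) ?_
      simp only [if_true]
      refine ⟨v, max t0 t1, fun u hu => ?_⟩
      rw [hmu0c e u (hcd u hu)]
      exact ht1 u (le_trans (le_max_right _ _) hu)

end TSys

end Pool.Agent.Lib.MP_45c83f_lc
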