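import Pool.Agent.Lib.MP_45c83f_lc.Types

set_option autoImplicit false

/-!
# Types: hereditarily reduced forests and the full forest
-/

namespace Pool.Agent.Lib.MP_45c83f_lc

namespace TSys

variable {X : Type} [PartialOrder X] {L : TSys X}

private theorem typesB_red_sub (C : Finset (Fin L.K)) :
    ∃ C', C' ⊆ C ∧ L.LeF C C' ∧ L.Red C' := by
  induction C using Finset.strongInduction with
  | H C ih =>
    by_cases h : L.Red C
    · exact ⟨C, subset_rfl, LeF.refl C, h⟩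
    · unfold Red at h
      push Not at h
      obtain ⟨c, hc, h1⟩ := h
      obtain ⟨C', h2, h3, h4⟩ := ih (C.erase c) (Finset.erase_ssubset hc)
      refine ⟨C', h2.trans (Finset.erase_subset _ _), ?_, h4⟩
      have h5 : L.LeF ({c} ∪ C.erase c) (C.erase c) := LeF.union h1 (LeF.refl _)
      have h6 : ({c} ∪ C.erase c : Finset (Fin L.K)) = C := by
        rw [← Finset.insert_eq, Finset.insert_erase hc]
      rw [h6] at h5
      exact h5.trans h3

/-- all the forests of children at and below the node are reduced -/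
private def typesB_HR (L : TSys X) (v : Fin L.K) : Prop := ∀ w, L.Node {v} w → L.Red (L.ch w)

private theorem typesB_step (S : Finset (Fin L.K))
    (h : ∀ s ∈ S, ∃ s', L.Emb s s' ∧ L.Emb s' s ∧ typesB_HR L s') :
    ∃ S', L.LeF S S' ∧ L.LeF S' S ∧ L.Red S' ∧ (∀ s' ∈ S', typesB_HR L s') ∧
      ∀ s' ∈ S', ∃ s ∈ S, L.lab s = L.lab s' := by
  choose! φ h1 h2 h3 using h
  obtain ⟨C, c1, c2, c3⟩ := typesB_red_sub (L := L) (S.image φ)
  have e1 : L.LeF S (S.image φ) := fun s hs =>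
    ⟨φ s, Node.of_mem (Finset.mem_image_of_mem φ hs), h1 s hs⟩
  have e2 : L.LeF (S.image φ) S := by
    intro t ht
    obtain ⟨s, hs, rfl⟩ := Finset.mem_image.1 ht
    exact ⟨s, Node.of_mem hs, h2 s hs⟩
  have e3 : L.LeF C (S.image φ) := LeF.of_node fun s hs => Node.of_mem (c1 hs)
  refine ⟨C, e1.trans c2, e3.trans e2, c3, ?_, ?_⟩
  · intro t ht
    obtain ⟨s, hs, rfl⟩ := Finset.mem_image.1 (c1 ht)
    exact h3 s hs
  · intro t ht
    obtain ⟨s, hs, rfl⟩ := Finset.mem_image.1 (c1 ht)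
    exact ⟨s, hs, (emb_iff.1 (h1 s hs)).1⟩

private theorem typesB_node (v : Fin L.K) :
    ∃ v', L.Emb v v' ∧ L.Emb v' v ∧ typesB_HR L v' := by
  have wf : WellFounded (fun a b : Fin L.K => L.lab b < L.lab a) := by
    haveI : IsTrans (Fin L.K) (fun a b => L.lab b < L.lab a) :=
      ⟨fun a b c h1 h2 => h2.trans h1⟩
    haveI : Std.Irrefl (fun a b : Fin L.K => L.lab b < L.lab a) :=
      ⟨fun a h => lt_irrefl _ h⟩
    exact Finite.wellFounded_of_trans_of_irrefl _
  induction v using wf.induction with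
  | _ v ih =>
    obtain ⟨C, c1, c2, c3, c4, c5⟩ := typesB_step (L := L) (L.ch v)
      (fun c hc => ih c (L.lt_ch v c hc))
    have hC : ∀ c ∈ C, L.lab v < L.lab c := by
      intro c hc
      obtain ⟨s, hs, he⟩ := c5 c hc
      rw [← he]
      exact L.lt_ch v s hs
    obtain ⟨v', v1, v2⟩ := L.ex (L.lab v) C hC
    refine ⟨v', ?_, ?_, ?_⟩
    · rw [emb_iff]
      refine ⟨v1.symm, fun c hc => ?_⟩
      obtain ⟨w, hw, he⟩ := c1 c hc
      exact ⟨w, desc_iff_node.2 (by rwa [v2]), he⟩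
    · rw [emb_iff]
      refine ⟨v1, fun c hc => ?_⟩
      rw [v2] at hc
      obtain ⟨w, hw, he⟩ := c2 c hc
      exact ⟨w, desc_iff_node.2 hw, he⟩
    · intro w hw
      rcases node_singleton.1 hw with rfl | h1
      · rw [v2]
        exact c3
      · have h2 := desc_iff_node.1 h1
        rw [v2] at h2
        obtain ⟨s, hs, h3⟩ := h2
        exact c4 s hs w (node_singleton.2 h3)

/-- Every forest is equivalent to a hereditarily reduced one. -/
theorem exists_hred (S : Finset (Fin L.K)) : ∃ S', L.HRed S' ∧ L.LeF S S' ∧ L.LeF S' S := by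
  obtain ⟨C, c1, c2, c3, c4, -⟩ := typesB_step (L := L) S (fun s _ => typesB_node s)
  refine ⟨C, ⟨c3, ?_⟩, c1, c2⟩
  rintro v ⟨s, hs, h1⟩
  exact c4 s hs v (node_singleton.2 h1)

/-- The full forest. -/
theorem exists_full [Finite X] : ∃ fl : X → Fin L.K, (∀ τ, L.lab (fl τ) = τ) ∧
    ∀ τ τ', τ < τ' → fl τ' ∈ L.ch (fl τ) := by
  classical
  haveI := Fintype.ofFinite X
  have wf : WellFounded (fun a b : X => b < a) := wellFounded_gt
  have key : ∀ (τ : X) (ih : (τ' : X) → τ < τ' → {v : Fin L.K // L.lab v = τ'}),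
      ∃ v : {v : Fin L.K // L.lab v = τ}, ∀ (τ' : X) (h : τ < τ'), (ih τ' h).1 ∈ L.ch v.1 := by
    intro τ ih
    have hC : ∀ c ∈ (Finset.univ : Finset {τ' // τ < τ'}).image (fun x => (ih x.1 x.2).1),
        τ < L.lab c := by
      intro c hc
      obtain ⟨x, -, rfl⟩ := Finset.mem_image.1 hc
      rw [(ih x.1 x.2).2]
      exact x.2
    obtain ⟨v, v1, v2⟩ := L.ex τ _ hC
    refine ⟨⟨v, v1⟩, fun τ' h => ?_⟩
    show (ih τ' h).1 ∈ L.ch v
    rw [v2]
    exact Finset.mem_image.2 ⟨⟨τ', h⟩, Finset.mem_univ _, rfl⟩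
  choose F hF using key
  let fl : (τ : X) → {v : Fin L.K // L.lab v = τ} := wf.fix F
  have hfl : ∀ τ, fl τ = F τ (fun τ' _ => fl τ') := fun τ => wf.fix_eq F τ
  refine ⟨fun τ => (fl τ).1, fun τ => (fl τ).2, fun τ τ' h => ?_⟩
  have h1 := hF τ (fun τ' _ => fl τ') τ' h
  rw [← hfl τ] at h1
  exact h1

end TSys

end Pool.Agent.Lib.MP_45c83f_lc
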