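import Pool.Agent.Lib.MP_45c83f_lc.LabA
import Pool.Agent.Lib.MP_45c83f_lc.TypesB

set_option autoImplicit false

/-!
# Labellings: monotonicity in the forest, existence of an exact type
-/

namespace Pool.Agent.Lib.MP_45c83f_lc

namespace TSys

variable {X : Type} [PartialOrder X] [Finite X] [Primcodable X] {L : TSys X} {F : ℕ → ℕ → X}

/-- (5.1a) -/
theorem Bdd.mono {V : ℕ → ℕ → Bool} {S S' : Finset (Fin L.K)} (h : L.Bdd F V S)
    (hS : L.LeF S S') : L.Bdd F V S' := by
  classical
  obtain ⟨lam, hlam, hfin⟩ := h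
  -- the two choices
  have hw0 : ∀ v : Fin L.K, ∃ w : Fin L.K, L.Node S v → L.Node S' w ∧ L.Emb v w := by
    intro v
    by_cases hv : L.Node S v
    · obtain ⟨w, hw, hvw⟩ := hS.node hv
      exact ⟨w, fun _ => ⟨hw, hvw⟩⟩
    · exact ⟨v, fun h => absurd h hv⟩
  choose w0 hw0 using hw0
  have hw1 : ∀ w v : Fin L.K, ∃ d : Fin L.K, ∀ u, L.Emb u w → L.Desc u v →
      L.Desc w d ∧ L.Emb v d := by
    intro w v
    by_cases hd : ∃ d, L.Desc w d ∧ L.Emb v d
    · obtain ⟨d, hd⟩ := hd
      exact ⟨d, fun _ _ _ => hd⟩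
    · exact ⟨v, fun u hu huv => absurd (hu.desc huv) hd⟩
  choose w1 hw1 using hw1
  let G : (Option (Fin L.K) × Option (Fin L.K)) × Option (Fin L.K) → Option (Fin L.K) := fun p =>
    if p.1.2 = p.1.1 then p.2 else
      p.1.2.bind fun v => some (match p.2 with
        | none => w0 v
        | some w => w1 w v)
  have hG : Primrec G := Primrec.dom_finite _
  let lam' : ℕ → ℕ → Option (Fin L.K) := fun e t =>
    Nat.rec none (fun u x => G ((lam e u, lam e (u + 1)), x)) t
  have h0 : ∀ e, lam' e 0 = none := fun _ => rfl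
  have hs : ∀ e t, lam' e (t + 1) = G ((lam e t, lam e (t + 1)), lam' e t) := fun _ _ => rfl
  have hsame : ∀ e t, lam e (t + 1) = lam e t → lam' e (t + 1) = lam' e t := by
    intro e t h
    rw [hs]
    exact if_pos h
  have hnone : ∀ e t v, lam e (t + 1) = some v → lam e (t + 1) ≠ lam e t → lam' e t = none →
      lam' e (t + 1) = some (w0 v) := by
    intro e t v hv hne hn
    rw [hs]
    show (if lam e (t + 1) = lam e t then lam' e t else _) = _
    rw [if_neg hne, hn]
    show (lam e (t + 1)).bind _ = _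
    rw [hv]
    rfl
  have hsome : ∀ e t v w, lam e (t + 1) = some v → lam e (t + 1) ≠ lam e t →
      lam' e t = some w → lam' e (t + 1) = some (w1 w v) := by
    intro e t v w hv hne hn
    rw [hs]
    show (if lam e (t + 1) = lam e t then lam' e t else _) = _
    rw [if_neg hne, hn]
    show (lam e (t + 1)).bind _ = _
    rw [hv]
    rfl
  -- the invariant
  have hinv : ∀ e t, (lam e t = none ∧ lam' e t = none) ∨
      ∃ u w, lam e t = some u ∧ lam' e t = some w ∧ L.Emb u w := by
    intro e t
    induction t with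
    | zero => exact Or.inl ⟨hlam.zero e, h0 e⟩
    | succ t ih =>
      by_cases hst : lam e (t + 1) = lam e t
      · rw [hst, hsame e t hst]; exact ih
      · rcases hlam.step e t with h | ⟨v, hv, hlab, hdesc, hnode⟩
        · exact absurd h hst
        · right
          rcases ih with ⟨h1, h2⟩ | ⟨u, w, h1, h2, h3⟩
          · exact ⟨v, w0 v, hv, hnone e t v hv hst h2, (hw0 v (hnode h1)).2⟩
          · exact ⟨v, w1 w v, hv, hsome e t v w hv hst h2, (hw1 w v u h3 (hdesc u h1)).2⟩
  refine ⟨lam', ⟨?_, h0, ?_, ?_⟩, ?_⟩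
  · refine Primrec.nat_rec (f := fun _ : ℕ => (none : Option (Fin L.K)))
      (g := fun (e : ℕ) (p : ℕ × Option (Fin L.K)) => G ((lam e p.1, lam e (p.1 + 1)), p.2))
      (Primrec.const none) ?_
    refine hG.comp (Primrec.pair (Primrec.pair ?_ ?_) (Primrec.snd.comp Primrec.snd))
    · exact Primrec₂.comp hlam.prim Primrec.fst (Primrec.fst.comp Primrec.snd)
    · exact Primrec₂.comp hlam.prim Primrec.fst
        (Primrec.succ.comp (Primrec.fst.comp Primrec.snd))
  · intro e t hV
    have h1 := hlam.off e t hV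
    rcases hinv e t with h | ⟨u, w, h2, -⟩
    · exact h.2
    · rw [h1] at h2; exact absurd h2 (by simp)
  · intro e t
    by_cases hst : lam e (t + 1) = lam e t
    · exact Or.inl (hsame e t hst)
    · right
      rcases hlam.step e t with h | ⟨v, hv, hlab, hdesc, hnode⟩
      · exact absurd h hst
      · rcases hinv e t with ⟨h1, h2⟩ | ⟨u, w, h1, h2, h3⟩
        · refine ⟨w0 v, hnone e t v hv hst h2, ?_, ?_, fun _ => (hw0 v (hnode h1)).1⟩
          · rw [← hlab]
            exact ((emb_iff.1 (hw0 v (hnode h1)).2).1).symm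
          · intro u hu
            rw [h2] at hu
            exact absurd hu (by simp)
        · refine ⟨w1 w v, hsome e t v w hv hst h2, ?_, ?_, ?_⟩
          · rw [← hlab]
            exact ((emb_iff.1 (hw1 w v u h3 (hdesc u h1)).2).1).symm
          · intro u' hu'
            rw [h2] at hu'
            rw [← Option.some.inj hu']
            exact (hw1 w v u h3 (hdesc u h1)).1
          · intro hn
            rw [h2] at hn
            exact absurd hn (by simp)
  · refine hfin.subset ?_
    rintro e ⟨he, hnc⟩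
    refine ⟨he, fun hc => hnc ?_⟩
    obtain ⟨v, t, ht⟩ := hc
    rcases hinv e t with ⟨h1, -⟩ | ⟨u, w, h1, h2, h3⟩
    · rw [(ht t le_rfl).1] at h1; exact absurd h1 (by simp)
    · have huv : v = u := by
        rw [(ht t le_rfl).1] at h1
        exact Option.some.inj h1
      subst huv
      refine ⟨w, t, fun u hu => ⟨?_, ?_⟩⟩
      · induction u, hu using Nat.le_induction with
        | base => exact h2
        | succ k hk ih =>
          rw [hsame e k (by rw [(ht k hk).1, (ht (k + 1) (Nat.le_succ_of_le hk)).1]), ih]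
      · rw [(ht u hu).2]
        exact (emb_iff.1 h3).1

/-- (5.1b) -/
theorem bdd_full (hF : IsAp F) : ∃ S, L.Bdd F allSt S := by
  classical
  haveI : Fintype X := Fintype.ofFinite X
  obtain ⟨fl, hfl, hch⟩ := exists_full (L := L)
  have hflp : Primrec fl := Primrec.dom_finite _
  refine ⟨Finset.univ.image fl, fun e t => if t = 0 then none else some (fl (F e t)),
    ⟨?_, ?_, ?_, ?_⟩, ?_⟩
  · exact Primrec.ite (PrimrecRel.comp Primrec.eq Primrec.snd (Primrec.const 0))
      (Primrec.const none) (Primrec.option_some.comp (hflp.comp hF.prim))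
  · intro e; simp
  · intro e t h
    exact absurd h (by simp [allSt])
  · intro e t
    have h1 : ∀ v, L.Node (Finset.univ.image fl) (fl v) := fun v =>
      Node.of_mem (Finset.mem_image_of_mem fl (Finset.mem_univ v))
    rcases Nat.eq_zero_or_pos t with ht | ht
    · subst ht
      right
      exact ⟨fl (F e 1), by simp, hfl _, by simp, fun _ => h1 _⟩
    · have ht' : t ≠ 0 := by omega
      by_cases hst : F e (t + 1) = F e t
      · left
        simp [ht', hst]
      · right
        refine ⟨fl (F e (t + 1)), by simp, hfl _, ?_, fun _ => h1 _⟩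
        intro u hu
        simp only [ht', if_false] at hu
        rw [← Option.some.inj hu]
        exact Desc.of_ch (hch _ _ (lt_of_le_of_ne (hF.mono e (Nat.le_succ t)) (Ne.symm hst)))
  · convert Set.finite_empty
    rw [Set.eq_empty_iff_forall_notMem]
    rintro e ⟨-, hnc⟩
    apply hnc
    obtain ⟨g, hg⟩ := exists_lim hF.mono
    obtain ⟨s, hs⟩ := hg e
    refine ⟨fl (g e), s + 1, fun u hu => ?_⟩
    have hu' : u ≠ 0 := by omega
    have h2 := hs u (by omega)
    simp [hu', h2, hfl]

/-- There is a nonempty hereditarily reduced forest which is the exact type of the stream of all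
numbers. -/
theorem exists_exact (hF : IsAp F) : ∃ S : Finset (Fin L.K), S.Nonempty ∧ L.HRed S ∧
    L.Exact F allSt S := by
  obtain ⟨S0, h0, hmin⟩ := exists_minimal (p := fun S => L.Bdd F allSt S) (bdd_full hF)
  obtain ⟨S, hS, h1, h2⟩ := exists_hred S0
  have hb : L.Bdd F allSt S := h0.mono h1
  refine ⟨S, ?_, hS, hb, ?_⟩
  · rw [Finset.nonempty_iff_ne_empty]
    rintro rfl
    have h3 := bdd_empty_iff.1 hb
    have h4 : {e : ℕ | In allSt e} = Set.univ := by
      ext e
      simp [In, allSt]
    rw [h4] at h3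
    exact Set.infinite_univ h3
  · intro S'' hlt
    refine hmin S'' ⟨hlt.1.trans h2, fun h => hlt.2 (h2.trans h)⟩

end TSys

end Pool.Agent.Lib.MP_45c83f_lc
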