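import Pool.Agent.Lib.MP_45c83f_lc.LabU
import Pool.Agent.Lib.MP_45c83f_lc.LabM

set_option autoImplicit false

/-!
# Labellings: small streams (text, 5.2)
-/

namespace Pool.Agent.Lib.MP_45c83f_lc

namespace TSys

variable {X : Type} [PartialOrder X] [Finite X] [Primcodable X] {L : TSys X} {F : ℕ → ℕ → X}
  {S : Finset (Fin L.K)} {lam : ℕ → ℕ → Option (Fin L.K)}

/-- A stream at `c` which is not small is exact. -/
theorem exact_of_not_small (hF : IsAp F) (hlam : L.IsLab F allSt S lam)
    (hcor : {e | ¬ L.Corr F lam e}.Finite) {V : ℕ → ℕ → Bool} {c : Fin L.K}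
    (hV : L.AtC F lam V c) (h : ¬ L.Small F V c) : L.Exact F V {c} :=
  ⟨AtC.bdd hF hlam hcor hV, fun S' hlt hb => h ⟨S', hlt, hb⟩⟩

theorem Small.sub {V W : ℕ → ℕ → Bool} {c : Fin L.K} (hF : IsAp F) (hV : L.AtC F lam V c)
    (hW : L.AtC F lam W c) (hsub : {e | ∃ t, W e t = true ∧ V e t = false}.Finite)
    (h : L.Small F V c) : L.Small F W c := by
  obtain ⟨S', hlt, hb⟩ := h
  exact ⟨S', hlt, Bdd.sub hF hV hW hsub hb⟩

omit [Finite X] [Primcodable X] in
private theorem labS_atC_or {V W : ℕ → ℕ → Bool} {c : Fin L.K} (hV : L.AtC F lam V c)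
    (hW : L.AtC F lam W c) : L.AtC F lam (fun e t => V e t || W e t) c := by
  refine ⟨⟨Primrec.or.comp₂ hV.ap.prim hW.ap.prim, ?_⟩, ?_⟩
  · intro e s t hst
    rw [Bool.le_iff_imp]
    intro hs
    simp only [Bool.or_eq_true] at hs ⊢
    exact hs.imp (hV.ap.true_of_le hst) (hW.ap.true_of_le hst)
  · rintro e t ⟨h1, h2⟩
    have h3 : ∀ u, u < t → V e u = false ∧ W e u = false := by
      intro u hu
      have := h2 u hu
      rwa [Bool.or_eq_false_iff] at this
    rw [Bool.or_eq_true] at h1
    rcases h1 with h1 | h1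
    · exact hV.at_c e t ⟨h1, fun u hu => (h3 u hu).1⟩
    · exact hW.at_c e t ⟨h1, fun u hu => (h3 u hu).2⟩

omit [Finite X] [Primcodable X] in
private theorem labS_atC_false {c : Fin L.K} : L.AtC F lam (fun _ _ => false) c := by
  refine ⟨⟨Primrec.const false, fun e => monotone_const⟩, ?_⟩
  rintro e t ⟨h1, -⟩
  exact absurd h1 (by simp)

private theorem labS_small_false {c : Fin L.K} : L.Small F (fun _ _ => false) c := by
  refine ⟨∅, ⟨fun s hs => absurd hs (Finset.notMem_empty s), ?_⟩, ?_⟩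
  · intro h
    obtain ⟨w, ⟨s, hs, -⟩, -⟩ := h c (Finset.mem_singleton_self c)
    exact Finset.notMem_empty s hs
  · rw [bdd_empty_iff]
    have : {e | In (fun _ _ => false) e} = (∅ : Set ℕ) := by
      ext e
      simp [In]
    rw [this]
    exact Set.finite_empty

private theorem labS_small_or (hF : IsAp F) {V W : ℕ → ℕ → Bool} {c : Fin L.K}
    (hV : L.AtC F lam V c) (hW : L.AtC F lam W c) (h : L.Small F V c) (h' : L.Small F W c) :
    L.Small F (fun e t => V e t || W e t) c := by
  classical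
  obtain ⟨S1, h1, b1⟩ := h
  obtain ⟨S2, h2, b2⟩ := h'
  refine ⟨S1 ∪ S2, ⟨LeF.union h1.1 h2.1, ?_⟩, Bdd.union hF hV hW ?_ ?_⟩
  · intro h
    obtain ⟨w, hw, he⟩ := h c (Finset.mem_singleton_self c)
    rcases node_union.1 hw with hw | hw
    · refine h1.2 fun s hs => ?_
      rw [Finset.mem_singleton] at hs
      rw [hs]
      exact ⟨w, hw, he⟩
    · refine h2.2 fun s hs => ?_
      rw [Finset.mem_singleton] at hs
      rw [hs]
      exact ⟨w, hw, he⟩
  · exact b1.mono (LeF.of_node fun s hs => Node.of_mem (Finset.mem_union_left _ hs))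
  · exact b2.mono (LeF.of_node fun s hs => Node.of_mem (Finset.mem_union_right _ hs))

/-- Finite unions of small streams are small. -/
theorem Small.biUnion {c : Fin L.K} (hF : IsAp F) (hlam : L.IsLab F allSt S lam)
    (V : ℕ → ℕ → ℕ → Bool) (J : Finset ℕ) (hV : ∀ j ∈ J, L.AtC F lam (V j) c)
    (h : ∀ j ∈ J, L.Small F (V j) c) :
    L.AtC F lam (fun e t => decide (∃ j ∈ J, V j e t = true)) c ∧
      L.Small F (fun e t => decide (∃ j ∈ J, V j e t = true)) c := by
  induction J using Finset.induction_on with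
  | empty =>
    have h0 : (fun e t => decide (∃ j ∈ (∅ : Finset ℕ), V j e t = true)) =
        (fun _ _ => false : ℕ → ℕ → Bool) := by
      funext e t
      simp
    rw [h0]
    exact ⟨labS_atC_false, labS_small_false⟩
  | insert a J ha ih =>
    obtain ⟨h1, h2⟩ := ih (fun j hj => hV j (Finset.mem_insert_of_mem hj))
      (fun j hj => h j (Finset.mem_insert_of_mem hj))
    have h0 : (fun e t => decide (∃ j ∈ insert a J, V j e t = true)) =
        (fun e t => V a e t || decide (∃ j ∈ J, V j e t = true)) := by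
      funext e t
      rw [Bool.eq_iff_iff, Bool.or_eq_true, decide_eq_true_iff, decide_eq_true_iff]
      simp
    rw [h0]
    have ha1 := hV a (Finset.mem_insert_self a J)
    exact ⟨labS_atC_or ha1 h1, labS_small_or hF ha1 h1 (h a (Finset.mem_insert_self a J)) h2⟩

end TSys

end Pool.Agent.Lib.MP_45c83f_lc
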