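import Pool.Agent.Lib.MP_45c83f_lc.Basics

set_option autoImplicit false

/-!
# The allocation construction, abstract form (text, proof of Theorem P)
-/

namespace Pool.Agent.Lib.MP_45c83f_lc

/-- The length of agreement of the index `P` at stage `t`: all numbers between `fb P` and
`ell P t` which `P` owns are handled by `P` at stage `t`. -/
noncomputable def ell (own : ℕ → ℕ → Option ℕ) (hd : ℕ → ℕ → ℕ → Bool) (fb : ℕ → ℕ)
    (P t : ℕ) : ℕ :=
  @Nat.findGreatest (fun l => ∀ e, e < l → fb P ≤ e → own e t = some P → hd P e t = true)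
    (Classical.decPred _) t

/-- The number `e` is marked for `P` at stage `t`. -/
def Mk (own : ℕ → ℕ → Option ℕ) (hd : ℕ → ℕ → ℕ → Bool) (fb : ℕ → ℕ) (va : ℕ → Bool)
    (R : ℕ → ℕ → ℕ → Bool) (P e t : ℕ) : Prop :=
  P ≤ e ∧ va P = true ∧ ∃ s, s ≤ t ∧ R P e s = true ∧ e < ell own hd fb P s

variable {R mv hd : ℕ → ℕ → ℕ → Bool} {fb : ℕ → ℕ} {va : ℕ → Bool}

/-- The length of agreement, computed from the row of the stage. -/
private noncomputable def Own_ell (hd : ℕ → ℕ → ℕ → Bool) (fb : ℕ → ℕ) (r : List (Option ℕ))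
    (P s : ℕ) : ℕ :=
  @Nat.findGreatest (fun l => ∀ e, e < l → fb P ≤ e → r.getD e none = some P → hd P e s = true)
    (Classical.decPred _) s

private theorem Own_ell_prim (hhd : Primrec fun p : ℕ × ℕ × ℕ => hd p.1 p.2.1 p.2.2)
    (hfb : Primrec fb) :
    Primrec fun z : List (Option ℕ) × ℕ × ℕ => Own_ell hd fb z.1 z.2.1 z.2.2 := by
  have h1 : PrimrecRel fun (e : ℕ) (z : List (Option ℕ) × ℕ × ℕ) =>
      fb z.2.1 ≤ e → z.1.getD e none = some z.2.1 → hd z.2.1 e z.2.2 = true := by
    have hP : Primrec fun y : ℕ × (List (Option ℕ) × ℕ × ℕ) => y.2.2.1 :=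
      Primrec.fst.comp (Primrec.snd.comp Primrec.snd)
    have ha : PrimrecPred fun y : ℕ × (List (Option ℕ) × ℕ × ℕ) => fb y.2.2.1 ≤ y.1 :=
      Primrec.nat_le.comp (hfb.comp hP) Primrec.fst
    have hb : PrimrecPred fun y : ℕ × (List (Option ℕ) × ℕ × ℕ) =>
        y.2.1.getD y.1 none = some y.2.2.1 :=
      Primrec.eq.comp ((Primrec.list_getD none).comp (Primrec.fst.comp Primrec.snd) Primrec.fst)
        (Primrec.option_some.comp hP)
    have hc : PrimrecPred fun y : ℕ × (List (Option ℕ) × ℕ × ℕ) =>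
        hd y.2.2.1 y.1 y.2.2.2 = true :=
      Primrec.eq.comp (hhd.comp (Primrec.pair hP (Primrec.pair Primrec.fst
        (Primrec.snd.comp (Primrec.snd.comp Primrec.snd))))) (Primrec.const true)
    exact (ha.not.or (hb.not.or hc)).of_eq (fun y => by tauto)
  have h2 : PrimrecRel fun (z : List (Option ℕ) × ℕ × ℕ) (l : ℕ) => ∀ e, e < l →
      fb z.2.1 ≤ e → z.1.getD e none = some z.2.1 → hd z.2.1 e z.2.2 = true := by
    have h3 : PrimrecPred fun y : (List (Option ℕ) × ℕ × ℕ) × ℕ => ∀ e ∈ List.range y.2,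
        fb y.1.2.1 ≤ e → y.1.1.getD e none = some y.1.2.1 → hd y.1.2.1 e y.1.2.2 = true :=
      h1.forall_mem_list.comp (Primrec.list_range.comp Primrec.snd) Primrec.fst
    exact h3.of_eq (fun y => by simp only [List.mem_range])
  exact @Primrec.nat_findGreatest _ _ _ _ (fun z => Classical.decPred _)
    (Primrec.snd.comp Primrec.snd) h2

/-- The marks, computed from the history. -/
private def Own_Mk (hd : ℕ → ℕ → ℕ → Bool) (fb : ℕ → ℕ) (va : ℕ → Bool)
    (R : ℕ → ℕ → ℕ → Bool) (h : List (List (Option ℕ))) (P e t : ℕ) : Prop :=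
  P ≤ e ∧ va P = true ∧ ∃ s, s ≤ t ∧ R P e s = true ∧ e < Own_ell hd fb (h.getD (t - s) []) P s

private theorem Own_Mk_prim (hR : Primrec fun p : ℕ × ℕ × ℕ => R p.1 p.2.1 p.2.2)
    (hhd : Primrec fun p : ℕ × ℕ × ℕ => hd p.1 p.2.1 p.2.2) (hfb : Primrec fb)
    (hva : Primrec va) :
    PrimrecPred fun z : List (List (Option ℕ)) × ℕ × ℕ × ℕ =>
      Own_Mk hd fb va R z.1 z.2.1 z.2.2.1 z.2.2.2 := by
  have p1 : Primrec fun z : List (List (Option ℕ)) × ℕ × ℕ × ℕ => z.2.1 :=
    Primrec.fst.comp Primrec.snd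
  have p2 : Primrec fun z : List (List (Option ℕ)) × ℕ × ℕ × ℕ => z.2.2.1 :=
    Primrec.fst.comp (Primrec.snd.comp Primrec.snd)
  have p3 : Primrec fun z : List (List (Option ℕ)) × ℕ × ℕ × ℕ => z.2.2.2 :=
    Primrec.snd.comp (Primrec.snd.comp Primrec.snd)
  have h1 : PrimrecRel fun (s : ℕ) (z : List (List (Option ℕ)) × ℕ × ℕ × ℕ) =>
      R z.2.1 z.2.2.1 s = true ∧
        z.2.2.1 < Own_ell hd fb (z.1.getD (z.2.2.2 - s) []) z.2.1 s := by
    have ha : PrimrecPred fun y : ℕ × (List (List (Option ℕ)) × ℕ × ℕ × ℕ) =>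
        R y.2.2.1 y.2.2.2.1 y.1 = true :=
      Primrec.eq.comp (hR.comp (Primrec.pair (p1.comp Primrec.snd)
        (Primrec.pair (p2.comp Primrec.snd) Primrec.fst))) (Primrec.const true)
    have hb : PrimrecPred fun y : ℕ × (List (List (Option ℕ)) × ℕ × ℕ × ℕ) =>
        y.2.2.2.1 < Own_ell hd fb (y.2.1.getD (y.2.2.2.2 - y.1) []) y.2.2.1 y.1 := by
      refine Primrec.nat_lt.comp (p2.comp Primrec.snd) ?_
      refine (Own_ell_prim hhd hfb).comp (Primrec.pair ?_
        (Primrec.pair (p1.comp Primrec.snd) Primrec.fst))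
      exact (Primrec.list_getD []).comp (Primrec.fst.comp Primrec.snd)
        (Primrec.nat_sub.comp (p3.comp Primrec.snd) Primrec.fst)
    exact ha.and hb
  have h2 : PrimrecPred fun z : List (List (Option ℕ)) × ℕ × ℕ × ℕ =>
      ∃ s < z.2.2.2 + 1, R z.2.1 z.2.2.1 s = true ∧
        z.2.2.1 < Own_ell hd fb (z.1.getD (z.2.2.2 - s) []) z.2.1 s := by
    have h3 : PrimrecPred fun z : List (List (Option ℕ)) × ℕ × ℕ × ℕ =>
        ∃ s ∈ List.range (z.2.2.2 + 1), R z.2.1 z.2.2.1 s = true ∧
          z.2.2.1 < Own_ell hd fb (z.1.getD (z.2.2.2 - s) []) z.2.1 s :=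
      h1.exists_mem_list.comp (Primrec.list_range.comp (Primrec.succ.comp p3)) Primrec.id
    exact h3.of_eq (fun y => by simp only [List.mem_range])
  have h3 : PrimrecPred fun z : List (List (Option ℕ)) × ℕ × ℕ × ℕ => z.2.1 ≤ z.2.2.1 :=
    Primrec.nat_le.comp p1 p2
  have h4 : PrimrecPred fun z : List (List (Option ℕ)) × ℕ × ℕ × ℕ => va z.2.1 = true :=
    Primrec.eq.comp (hva.comp p1) (Primrec.const true)
  refine (h3.and (h4.and h2)).of_eq (fun z => ?_)
  unfold Own_Mk
  simp only [Nat.lt_succ_iff]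

/-- The condition for the choice of the owner. -/
private def Own_C (mv hd : ℕ → ℕ → ℕ → Bool) (fb : ℕ → ℕ) (va : ℕ → Bool)
    (R : ℕ → ℕ → ℕ → Bool) (h : List (List (Option ℕ))) (e t P : ℕ) : Prop :=
  mv P e t = true ∧ Own_Mk hd fb va R h P e t

open Classical in
/-- The least possible owner. -/
private noncomputable def Own_cand (mv hd : ℕ → ℕ → ℕ → Bool) (fb : ℕ → ℕ) (va : ℕ → Bool)
    (R : ℕ → ℕ → ℕ → Bool) (h : List (List (Option ℕ))) (e t : ℕ) : Option ℕ :=
  if (List.range (e + 1)).findIdx (fun P => decide (Own_C mv hd fb va R h e t P)) ≤ e then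
    some ((List.range (e + 1)).findIdx (fun P => decide (Own_C mv hd fb va R h e t P)))
  else none

private theorem Own_cand_prim (hR : Primrec fun p : ℕ × ℕ × ℕ => R p.1 p.2.1 p.2.2)
    (hmv : Primrec fun p : ℕ × ℕ × ℕ => mv p.1 p.2.1 p.2.2)
    (hhd : Primrec fun p : ℕ × ℕ × ℕ => hd p.1 p.2.1 p.2.2) (hfb : Primrec fb)
    (hva : Primrec va) :
    Primrec fun z : List (List (Option ℕ)) × ℕ × ℕ =>
      Own_cand mv hd fb va R z.1 z.2.1 z.2.2 := by
  classical
  have p1 : Primrec fun z : List (List (Option ℕ)) × ℕ × ℕ => z.2.1 :=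
    Primrec.fst.comp Primrec.snd
  have p2 : Primrec fun z : List (List (Option ℕ)) × ℕ × ℕ => z.2.2 :=
    Primrec.snd.comp Primrec.snd
  have h0 : PrimrecRel fun (z : List (List (Option ℕ)) × ℕ × ℕ) (P : ℕ) =>
      Own_C mv hd fb va R z.1 z.2.1 z.2.2 P := by
    have ha : PrimrecPred fun y : (List (List (Option ℕ)) × ℕ × ℕ) × ℕ =>
        mv y.2 y.1.2.1 y.1.2.2 = true :=
      Primrec.eq.comp (hmv.comp (Primrec.pair Primrec.snd
        (Primrec.pair (p1.comp Primrec.fst) (p2.comp Primrec.fst)))) (Primrec.const true)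
    have hb : PrimrecPred fun y : (List (List (Option ℕ)) × ℕ × ℕ) × ℕ =>
        Own_Mk hd fb va R y.1.1 y.2 y.1.2.1 y.1.2.2 :=
      (Own_Mk_prim hR hhd hfb hva).comp (Primrec.pair (Primrec.fst.comp Primrec.fst)
        (Primrec.pair Primrec.snd (Primrec.pair (p1.comp Primrec.fst) (p2.comp Primrec.fst))))
    exact ha.and hb
  have h1 : Primrec fun z : List (List (Option ℕ)) × ℕ × ℕ =>
      (List.range (z.2.1 + 1)).findIdx
        (fun P => decide (Own_C mv hd fb va R z.1 z.2.1 z.2.2 P)) :=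
    Primrec.list_findIdx (Primrec.list_range.comp (Primrec.succ.comp p1)) h0.decide
  exact Primrec.ite (Primrec.nat_le.comp h1 p1) (Primrec.option_some.comp h1)
    (Primrec.const none)

private theorem Own_cand_some {h : List (List (Option ℕ))} {e t P : ℕ}
    (hc : Own_cand mv hd fb va R h e t = some P) : Own_C mv hd fb va R h e t P := by
  classical
  unfold Own_cand at hc
  split_ifs at hc with h1
  have h2 := Option.some_injective _ hc
  have h3 : (List.range (e + 1)).findIdx (fun P => decide (Own_C mv hd fb va R h e t P)) <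
      (List.range (e + 1)).length := by
    rw [List.length_range]
    omega
  have h4 := List.findIdx_getElem (w := h3)
  rw [List.getElem_range, h2, decide_eq_true_iff] at h4
  exact h4

private theorem Own_cand_le {h : List (List (Option ℕ))} {e t Q : ℕ} (hQ : Q ≤ e)
    (hc : Own_C mv hd fb va R h e t Q) :
    ∃ P ≤ Q, Own_cand mv hd fb va R h e t = some P := by
  classical
  have h1 : (List.range (e + 1)).findIdx
      (fun P => decide (Own_C mv hd fb va R h e t P)) ≤ Q := by
    by_contra hlt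
    push Not at hlt
    have h2 := List.not_of_lt_findIdx hlt
    rw [List.getElem_range] at h2
    simp only [decide_eq_false_iff_not] at h2
    exact h2 hc
  refine ⟨_, h1, ?_⟩
  unfold Own_cand
  rw [if_pos (h1.trans hQ)]

/-- The next row. -/
private noncomputable def Own_new (mv hd : ℕ → ℕ → ℕ → Bool) (fb : ℕ → ℕ) (va : ℕ → Bool)
    (R : ℕ → ℕ → ℕ → Bool) (t : ℕ) (h : List (List (Option ℕ))) : List (Option ℕ) :=
  (List.range t).map fun e => (h.getD 0 []).getD e none <|> Own_cand mv hd fb va R h e t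

/-- The history. -/
private noncomputable def Own_H (mv hd : ℕ → ℕ → ℕ → Bool) (fb : ℕ → ℕ) (va : ℕ → Bool)
    (R : ℕ → ℕ → ℕ → Bool) : ℕ → List (List (Option ℕ)) :=
  Nat.rec [[]] fun t h => Own_new mv hd fb va R t h :: h

private theorem Own_H_prim (hR : Primrec fun p : ℕ × ℕ × ℕ => R p.1 p.2.1 p.2.2)
    (hmv : Primrec fun p : ℕ × ℕ × ℕ => mv p.1 p.2.1 p.2.2)
    (hhd : Primrec fun p : ℕ × ℕ × ℕ => hd p.1 p.2.1 p.2.2) (hfb : Primrec fb)
    (hva : Primrec va) : Primrec (Own_H mv hd fb va R) := by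
  refine Primrec.nat_rec₁ _ ?_
  have h1 : Primrec₂ fun (z : ℕ × List (List (Option ℕ))) (e : ℕ) =>
      ((z.2.getD 0 []).getD e none <|> Own_cand mv hd fb va R z.2 e z.1) := by
    refine Primrec.option_orElse.comp ?_ ?_
    · exact (Primrec.list_getD none).comp ((Primrec.list_getD []).comp
        (Primrec.snd.comp Primrec.fst) (Primrec.const 0)) Primrec.snd
    · exact (Own_cand_prim hR hmv hhd hfb hva).comp
        (Primrec.pair (Primrec.snd.comp Primrec.fst)
          (Primrec.pair Primrec.snd (Primrec.fst.comp Primrec.fst)))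
  have h2 : Primrec fun z : ℕ × List (List (Option ℕ)) => Own_new mv hd fb va R z.1 z.2 :=
    Primrec.list_map (Primrec.list_range.comp Primrec.fst) h1
  exact Primrec.list_cons.comp h2 Primrec.snd

/-- The owner. -/
private noncomputable def Own_own (mv hd : ℕ → ℕ → ℕ → Bool) (fb : ℕ → ℕ) (va : ℕ → Bool)
    (R : ℕ → ℕ → ℕ → Bool) (e t : ℕ) : Option ℕ :=
  ((Own_H mv hd fb va R t).getD 0 []).getD e none

private theorem Own_row (s t : ℕ) (h : s ≤ t) : (Own_H mv hd fb va R t).getD (t - s) [] =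
    (Own_H mv hd fb va R s).getD 0 [] := by
  induction t, h using Nat.le_induction with
  | base => rw [Nat.sub_self]
  | succ t hst ih =>
    have h1 : t + 1 - s = (t - s) + 1 := by omega
    have h2 : Own_H mv hd fb va R (t + 1) =
        Own_new mv hd fb va R t (Own_H mv hd fb va R t) :: Own_H mv hd fb va R t := rfl
    rw [h1, h2, List.getD_cons_succ, ih]

private theorem Own_Mk_iff (P e t : ℕ) : Own_Mk hd fb va R (Own_H mv hd fb va R t) P e t ↔
    Mk (Own_own mv hd fb va R) hd fb va R P e t := by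
  unfold Own_Mk Mk
  have h1 : ∀ s, s ≤ t → Own_ell hd fb ((Own_H mv hd fb va R t).getD (t - s) []) P s =
      ell (Own_own mv hd fb va R) hd fb P s := by
    intro s hs
    rw [Own_row s t hs]
    rfl
  constructor
  · rintro ⟨h2, h3, s, h4, h5, h6⟩
    exact ⟨h2, h3, s, h4, h5, by rw [← h1 s h4]; exact h6⟩
  · rintro ⟨h2, h3, s, h4, h5, h6⟩
    exact ⟨h2, h3, s, h4, h5, by rw [h1 s h4]; exact h6⟩

private theorem Own_succ (e t : ℕ) (he : e < t) : Own_own mv hd fb va R e (t + 1) =
    (Own_own mv hd fb va R e t <|>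
      Own_cand mv hd fb va R (Own_H mv hd fb va R t) e t) := by
  have h1 : Own_own mv hd fb va R e (t + 1) =
      (Own_new mv hd fb va R t (Own_H mv hd fb va R t)).getD e none := rfl
  rw [h1]
  unfold Own_new
  rw [List.getD_eq_getElem?_getD, List.getElem?_map, List.getElem?_range he]
  rfl

private theorem Own_none (e t : ℕ) (he : t ≤ e) : Own_own mv hd fb va R e (t + 1) = none := by
  have h1 : Own_own mv hd fb va R e (t + 1) =
      (Own_new mv hd fb va R t (Own_H mv hd fb va R t)).getD e none := rfl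
  rw [h1]
  apply List.getD_eq_default
  unfold Own_new
  rw [List.length_map, List.length_range]
  exact he

private theorem Own_ell_le (own : ℕ → ℕ → Option ℕ) (hd : ℕ → ℕ → ℕ → Bool) (fb : ℕ → ℕ)
    (P t : ℕ) : ell own hd fb P t ≤ t := by
  unfold ell
  exact @Nat.findGreatest_le _ (Classical.decPred _) _

/-- The construction. -/
theorem exists_own (hR : Primrec fun p : ℕ × ℕ × ℕ => R p.1 p.2.1 p.2.2)
    (hmv : Primrec fun p : ℕ × ℕ × ℕ => mv p.1 p.2.1 p.2.2)
    (hhd : Primrec fun p : ℕ × ℕ × ℕ => hd p.1 p.2.1 p.2.2) (hfb : Primrec fb)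
    (hva : Primrec va) :
    ∃ own : ℕ → ℕ → Option ℕ, Primrec₂ own ∧ (∀ e, own e 0 = none) ∧
      (∀ e t P, own e t = some P → own e (t + 1) = some P) ∧
      (∀ e t P, own e t = none → own e (t + 1) = some P →
        mv P e t = true ∧ Mk own hd fb va R P e t) ∧
      (∀ e t Q, own e t = none → mv Q e t = true → Mk own hd fb va R Q e t →
        ∃ P, P ≤ Q ∧ own e (t + 1) = some P) ∧
      PrimrecPred fun p : ℕ × ℕ × ℕ => Mk own hd fb va R p.1 p.2.1 p.2.2 := by
  have hH := Own_H_prim hR hmv hhd hfb hva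
  have h0 : ∀ e, Own_own mv hd fb va R e 0 = none := fun e => rfl
  refine ⟨Own_own mv hd fb va R, ?_, h0, ?_, ?_, ?_, ?_⟩
  · exact (Primrec.list_getD none).comp ((Primrec.list_getD []).comp
      (hH.comp Primrec.snd) (Primrec.const 0)) Primrec.fst
  · intro e t P h
    have he : e < t := by
      by_contra hcon
      push Not at hcon
      cases t with
      | zero => rw [h0] at h; cases h
      | succ t => rw [Own_none e t (by omega)] at h; cases h
    rw [Own_succ e t he, h]
    rfl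
  · intro e t P h h'
    have he : e < t := by
      by_contra hcon
      push Not at hcon
      rw [Own_none e t hcon] at h'
      cases h'
    rw [Own_succ e t he, h] at h'
    have h1 : Own_cand mv hd fb va R (Own_H mv hd fb va R t) e t = some P := h'
    obtain ⟨h2, h3⟩ := Own_cand_some h1
    exact ⟨h2, (Own_Mk_iff P e t).1 h3⟩
  · intro e t Q h hQ hMk
    have he : e < t := by
      obtain ⟨-, -, s, hs, -, h1⟩ := hMk
      have h2 := Own_ell_le (Own_own mv hd fb va R) hd fb Q s
      omega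
    obtain ⟨P, hP, h1⟩ := Own_cand_le (mv := mv) (h := Own_H mv hd fb va R t) hMk.1
      ⟨hQ, (Own_Mk_iff Q e t).2 hMk⟩
    refine ⟨P, hP, ?_⟩
    rw [Own_succ e t he, h, h1]
    rfl
  · have h1 : PrimrecPred fun p : ℕ × ℕ × ℕ =>
        Own_Mk hd fb va R (Own_H mv hd fb va R p.2.2) p.1 p.2.1 p.2.2 :=
      (Own_Mk_prim hR hhd hfb hva).comp (Primrec.pair (hH.comp (Primrec.snd.comp Primrec.snd))
        (Primrec.pair Primrec.fst (Primrec.pair (Primrec.fst.comp Primrec.snd)
          (Primrec.snd.comp Primrec.snd))))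
    exact h1.of_eq fun p => Own_Mk_iff _ _ _

private theorem Own_keep {own : ℕ → ℕ → Option ℕ}
    (hp : ∀ e t P, own e t = some P → own e (t + 1) = some P) {e t u P : ℕ} (h : t ≤ u)
    (ho : own e t = some P) : own e u = some P := by
  induction u, h using Nat.le_induction with
  | base => exact ho
  | succ u _ ih => exact hp e u P ih

/-- A correct index has an unbounded length of agreement. -/
theorem ell_unbounded {own : ℕ → ℕ → Option ℕ}
    (hp : ∀ e t P, own e t = some P → own e (t + 1) = some P) {P : ℕ}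
    (h : ∀ e, fb P ≤ e → (∃ t, own e t = some P) → ∃ t, ∀ u, t ≤ u → hd P e u = true) (n : ℕ) :
    ∃ t, ∀ u, t ≤ u → n < ell own hd fb P u := by
  have h1 : ∀ e, ∃ t, ∀ u, t ≤ u → fb P ≤ e → own e u = some P → hd P e u = true := by
    intro e
    by_cases h2 : fb P ≤ e ∧ ∃ t, own e t = some P
    · obtain ⟨t, ht⟩ := h e h2.1 h2.2
      exact ⟨t, fun u hu _ _ => ht u hu⟩
    · exact ⟨0, fun u _ h3 h4 => absurd ⟨h3, u, h4⟩ h2⟩
  choose t ht using h1
  refine ⟨max (n + 1) ((Finset.range (n + 1)).sup t), fun u hu => ?_⟩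
  have h2 : n + 1 ≤ u := (le_max_left _ _).trans hu
  have h3 : (Finset.range (n + 1)).sup t ≤ u := (le_max_right _ _).trans hu
  unfold ell
  refine lt_of_lt_of_le (Nat.lt_succ_self n) (@Nat.le_findGreatest _ _
    (Classical.decPred _) _ h2 ?_)
  intro e he hfe ho
  exact ht e u ((Finset.le_sup (f := t) (Finset.mem_range.2 he)).trans h3) hfe ho

/-- An incorrect index has a bounded length of agreement. -/
theorem ell_bounded {own : ℕ → ℕ → Option ℕ}
    (hp : ∀ e t P, own e t = some P → own e (t + 1) = some P) {P e t : ℕ} (he : fb P ≤ e)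
    (ho : own e t = some P) (h : ∃ t, ∀ u, t ≤ u → hd P e u = false) :
    ∃ b, ∀ u, ell own hd fb P u ≤ b := by
  obtain ⟨t', ht'⟩ := h
  refine ⟨max e (max t t'), fun u => ?_⟩
  by_cases hu : max t t' ≤ u
  · refine le_trans ?_ (le_max_left _ _)
    by_contra hcon
    push Not at hcon
    have h1 : ell own hd fb P u ≠ 0 := by omega
    have h2 := @Nat.findGreatest_of_ne_zero _ (fun l => ∀ e, e < l → fb P ≤ e →
      own e u = some P → hd P e u = true) (Classical.decPred _) u rfl h1
    have h3 := h2 e hcon he (Own_keep hp ((le_max_left _ _).trans hu) ho)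
    rw [ht' u ((le_max_right _ _).trans hu)] at h3
    exact absurd h3 (by decide)
  · have h1 := Own_ell_le own hd fb P u
    have h2 : u ≤ max t t' := by omega
    exact (h1.trans h2).trans (le_max_right _ _)

end Pool.Agent.Lib.MP_45c83f_lc
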