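import Pool.Agent.Lib.MP_45c83f_lc.Defs

set_option autoImplicit false

/-!
# Universal enumerations
-/

namespace Pool.Agent.Lib.MP_45c83f_lc

open Nat.Partrec (Code)
open Encodable Denumerable

/-- A universal enumeration of the r.e. functions with values in a finite order. -/
theorem exists_univ (X : Type) [PartialOrder X] [OrderBot X] [Finite X] [Primcodable X] :
    ∃ U : ℕ → ℕ → ℕ → X, Primrec (fun p : ℕ × ℕ × ℕ => U p.1 p.2.1 p.2.2) ∧
      (∀ i e, Monotone (U i e)) ∧ (∀ i e, U i e 0 = ⊥) ∧
      ∀ g : ℕ → X, RE g → ∃ i, Lim (U i) g := by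
  classical
  -- the new value from the old one and the computed value
  let G : X × Option X → X := fun p =>
    match p.2 with
    | none => p.1
    | some x => if p.1 ≤ x then x else p.1
  have hG : Primrec G := Primrec.dom_finite _
  have hGle : ∀ x o, x ≤ G (x, o) := by
    intro x o
    cases o with
    | none => exact le_rfl
    | some y =>
      by_cases h : x ≤ y
      · simp only [G, if_pos h]; exact h
      · simp only [G, if_neg h]; exact le_rfl
  -- the computed value
  let V : ℕ → ℕ → ℕ → Option X := fun i e s =>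
    (Code.evaln s.unpair.1 (ofNat Code i) (Nat.pair e s.unpair.2)).bind
      (fun y => (decode y : Option X))
  have hV : Primrec fun p : ℕ × ℕ × ℕ => V p.1 p.2.1 p.2.2 := by
    have h1 : Primrec fun p : ℕ × ℕ × ℕ =>
        Code.evaln p.2.2.unpair.1 (ofNat Code p.1) (Nat.pair p.2.1 p.2.2.unpair.2) := by
      refine Code.primrec_evaln.comp (f := fun a : (ℕ × Code) × ℕ => Code.evaln a.1.1 a.1.2 a.2)
        (g := fun p : ℕ × ℕ × ℕ => ((p.2.2.unpair.1, ofNat Code p.1),
          Nat.pair p.2.1 p.2.2.unpair.2)) ?_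
      refine Primrec.pair (Primrec.pair ?_ ?_) ?_
      · exact Primrec.fst.comp (Primrec.unpair.comp (Primrec.snd.comp Primrec.snd))
      · exact (Primrec.ofNat Code).comp Primrec.fst
      · exact Primrec₂.comp Primrec₂.natPair (Primrec.fst.comp Primrec.snd)
          (Primrec.snd.comp (Primrec.unpair.comp (Primrec.snd.comp Primrec.snd)))
    exact Primrec.option_bind h1 ((Primrec.decode (α := X)).comp Primrec.snd)
  let U : ℕ → ℕ → ℕ → X := fun i e s => Nat.rec ⊥ (fun t x => G (x, V i e t)) s
  have hU0 : ∀ i e, U i e 0 = ⊥ := fun _ _ => rfl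
  have hUs : ∀ i e s, U i e (s + 1) = G (U i e s, V i e s) := fun _ _ _ => rfl
  have hUmono : ∀ i e, Monotone (U i e) := by
    intro i e
    refine monotone_nat_of_le_succ fun s => ?_
    rw [hUs]
    exact hGle _ _
  refine ⟨U, ?_, hUmono, hU0, ?_⟩
  · refine Primrec.nat_rec' (f := fun p : ℕ × ℕ × ℕ => p.2.2)
      (g := fun _ : ℕ × ℕ × ℕ => (⊥ : X))
      (h := fun (p : ℕ × ℕ × ℕ) (q : ℕ × X) => G (q.2, V p.1 p.2.1 q.1))
      (Primrec.snd.comp Primrec.snd) (Primrec.const ⊥) ?_
    refine hG.comp (Primrec.pair (Primrec.snd.comp Primrec.snd) ?_)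
    exact hV.comp (f := fun p : ℕ × ℕ × ℕ => V p.1 p.2.1 p.2.2)
      (g := fun r : (ℕ × ℕ × ℕ) × (ℕ × X) => (r.1.1, r.1.2.1, r.2.1))
      (Primrec.pair (Primrec.fst.comp Primrec.fst)
        (Primrec.pair (Primrec.fst.comp (Primrec.snd.comp Primrec.fst))
          (Primrec.fst.comp Primrec.snd)))
  · rintro g ⟨f, hf, hl⟩
    -- a code for `f`
    have hp : Partrec fun n : ℕ => (Part.some (encode (f n.unpair.1 n.unpair.2)) : Part ℕ) := by
      have : Primrec fun n : ℕ => encode (f n.unpair.1 n.unpair.2) :=
        Primrec.encode.comp (Primrec₂.comp hf.prim (Primrec.fst.comp Primrec.unpair)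
          (Primrec.snd.comp Primrec.unpair))
      exact this.to_comp.partrec
    obtain ⟨c, hc⟩ := Code.exists_code.1 (Partrec.nat_iff.1 hp)
    have hc' : ∀ e t, Code.eval c (Nat.pair e t) = Part.some (encode (f e t)) := by
      intro e t
      rw [hc]
      simp
    have hle : ∀ e s, f e s ≤ g e := by
      intro e s
      obtain ⟨s0, hs0⟩ := hl e
      have h2 := hf.mono e (le_max_left s s0)
      rwa [hs0 _ (le_max_right s s0)] at h2
    -- values of V
    have hVval : ∀ e s x, V (encode c) e s = some x → x ≤ g e := by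
      intro e s x hx
      simp only [V] at hx
      rw [Option.bind_eq_some_iff] at hx
      obtain ⟨y, hy, hyx⟩ := hx
      rw [Denumerable.ofNat_encode] at hy
      have h1 := Code.evaln_sound hy
      rw [hc', Part.mem_some_iff] at h1
      rw [h1, encodek] at hyx
      rw [← Option.some.inj hyx]
      exact hle _ _
    have hUle : ∀ e s, U (encode c) e s ≤ g e := by
      intro e s
      induction s with
      | zero => rw [hU0]; exact bot_le
      | succ s ih =>
        rw [hUs]
        cases hv : V (encode c) e s with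
        | none => exact ih
        | some x =>
          have hx := hVval e s x hv
          have hG2 : ∀ a b y : X, a ≤ y → b ≤ y → G (a, some b) ≤ y := by
            intro a b y ha hb
            by_cases h : a ≤ b
            · simp only [G, if_pos h]; exact hb
            · simp only [G, if_neg h]; exact ha
          exact hG2 _ _ _ ih hx
    refine ⟨encode c, fun e => ?_⟩
    obtain ⟨t0, ht0⟩ := hl e
    have h5 : encode (f e t0) ∈ Code.eval c (Nat.pair e t0) := by
      rw [hc']; simp
    obtain ⟨k, hk⟩ := Code.evaln_complete.1 h5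
    have hVk : V (encode c) e (Nat.pair k t0) = some (g e) := by
      simp only [V, Nat.unpair_pair, Denumerable.ofNat_encode]
      rw [Option.mem_def.1 hk, Option.bind_some, encodek, ht0 t0 le_rfl]
    have hUk : U (encode c) e (Nat.pair k t0 + 1) = g e := by
      rw [hUs, hVk]
      exact if_pos (hUle e _)
    refine ⟨Nat.pair k t0 + 1, fun t ht => le_antisymm (hUle e t) ?_⟩
    rw [← hUk]
    exact hUmono _ _ ht

/-- A universal enumeration of the r.e. sets. -/
theorem exists_univ_set : ∃ W : ℕ → ℕ → ℕ → Bool,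
    Primrec (fun p : ℕ × ℕ × ℕ => W p.1 p.2.1 p.2.2) ∧ (∀ i e, Monotone (W i e)) ∧
      (∀ i e s, W i e s = true → e < s ∧ i < s) ∧
      ∀ A : Set ℕ, RESet A → ∃ i, ∀ e, e ∈ A ↔ ∃ s, W i e s = true := by
  classical
  obtain ⟨U, hU, hmono, -, huniv⟩ := exists_univ Bool
  have hT : ∀ i e s t, s ≤ t → U i e s = true → U i e t = true := fun i e s t hst h =>
    (Bool.le_iff_imp.1 (hmono i e hst)) h
  refine ⟨fun i e s => U i e s && (decide (e < s) && decide (i < s)), ?_, ?_, ?_, ?_⟩
  · refine Primrec₂.comp Primrec.and hU (Primrec₂.comp Primrec.and ?_ ?_)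
    · exact Primrec₂.comp (f := fun a b : ℕ => decide (a < b)) Primrec.nat_lt.decide
        (Primrec.fst.comp Primrec.snd) (Primrec.snd.comp Primrec.snd)
    · exact Primrec₂.comp (f := fun a b : ℕ => decide (a < b)) Primrec.nat_lt.decide
        Primrec.fst (Primrec.snd.comp Primrec.snd)
  · intro i e s t hst
    rw [Bool.le_iff_imp]
    intro hs
    simp only [Bool.and_eq_true, decide_eq_true_eq] at hs ⊢
    exact ⟨hT i e s t hst hs.1, lt_of_lt_of_le hs.2.1 hst, lt_of_lt_of_le hs.2.2 hst⟩
  · intro i e s hs
    simp only [Bool.and_eq_true, decide_eq_true_eq] at hs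
    exact hs.2
  · rintro A ⟨f, hf, hA⟩
    have hl : Lim f fun e => decide (e ∈ A) := by
      intro e
      by_cases he : e ∈ A
      · obtain ⟨s, hs⟩ := (hA e).1 he
        refine ⟨s, fun t ht => ?_⟩
        show f e t = decide (e ∈ A)
        rw [decide_eq_true he]
        exact (Bool.le_iff_imp.1 (hf.mono e ht)) hs
      · refine ⟨0, fun t _ => ?_⟩
        show f e t = decide (e ∈ A)
        rw [decide_eq_false he]
        cases hft : f e t with
        | false => rfl
        | true => exact absurd ((hA e).2 ⟨t, hft⟩) he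
    obtain ⟨i, hi⟩ := huniv _ ⟨f, hf, hl⟩
    refine ⟨i, fun e => ?_⟩
    obtain ⟨s0, hs0⟩ := hi e
    constructor
    · intro he
      refine ⟨max s0 (max e i + 1), ?_⟩
      simp only [Bool.and_eq_true, decide_eq_true_eq]
      refine ⟨?_, ?_, ?_⟩
      · rw [hs0 _ (le_max_left _ _)]
        exact decide_eq_true he
      · have h1 := le_max_left e i
        have h2 := le_max_right s0 (max e i + 1)
        omega
      · have h1 := le_max_right e i
        have h2 := le_max_right s0 (max e i + 1)
        omega
    · rintro ⟨s, hs⟩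
      simp only [Bool.and_eq_true] at hs
      have h1 := hT i e s (max s s0) (le_max_left _ _) hs.1
      rw [hs0 _ (le_max_right _ _)] at h1
      exact of_decide_eq_true h1

end Pool.Agent.Lib.MP_45c83f_lc
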