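import Pool.Agent.Lib.MP_45c83f_lc.LabA
import Pool.Agent.Lib.MP_45c83f_lc.Univ

set_option autoImplicit false

/-!
# Universal labellings (text, proof of Theorem P)
-/

namespace Pool.Agent.Lib.MP_45c83f_lc

namespace TSys

variable {X : Type} [PartialOrder X] [Finite X] [Primcodable X] {L : TSys X} {F : ℕ → ℕ → X}

/-- `v` may be the next label after `a`. -/
private def ulAdm (L : TSys X) (p : Option (Fin L.K) × (Fin L.K → Bool) × (Fin L.K → Bool) × X)
    (v : Fin L.K) : Prop :=
  p.2.2.1 v = true ∧ L.lab v = p.2.2.2 ∧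
    ((p.1 = none ∧ L.Node (Finset.univ.filter fun v => p.2.1 v = true) v) ∨
      ∃ u, p.1 = some u ∧ L.Desc u v)

open Classical in
/-- The next label. -/
private noncomputable def ulStep (L : TSys X)
    (p : Option (Fin L.K) × (Fin L.K → Bool) × (Fin L.K → Bool) × X) : Option (Fin L.K) :=
  if h : ∃ v, ulAdm L p v then some h.choose else p.1

private theorem ulStep_prim (L : TSys X) : Primrec (ulStep L) := Primrec.dom_finite _

omit [Finite X] [Primcodable X] in
private theorem ulStep_pos {p : Option (Fin L.K) × (Fin L.K → Bool) × (Fin L.K → Bool) × X}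
    (h : ∃ v, ulAdm L p v) : ∃ v, ulStep L p = some v ∧ ulAdm L p v :=
  ⟨h.choose, dif_pos h, h.choose_spec⟩

omit [Finite X] [Primcodable X] in
private theorem ulStep_neg {p : Option (Fin L.K) × (Fin L.K → Bool) × (Fin L.K → Bool) × X}
    (h : ¬ ∃ v, ulAdm L p v) : ulStep L p = p.1 := dif_neg h

/-- The forest with the index `w`. -/
private def ulS (L : TSys X) (w : ℕ) : Fin L.K → Bool :=
  (@Encodable.decode (Fin L.K → Bool) Primcodable.toEncodable (Nat.unpair w).2).getD default

omit [Finite X] [Primcodable X] in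
private theorem ulS_prim (L : TSys X) : Primrec (ulS L) :=
  Primrec.option_getD_default.comp (Primrec.decode.comp (Primrec.snd.comp Primrec.unpair))

/-- One step of the labelling with the index `w`. -/
private noncomputable def ulG (L : TSys X) (F : ℕ → ℕ → X) (U : ℕ → ℕ → ℕ → (Fin L.K → Bool))
    (p : ℕ × ℕ) (q : ℕ × Option (Fin L.K)) : Option (Fin L.K) :=
  ulStep L (q.2, ulS L p.1, U (Nat.unpair p.1).1 p.2 (q.1 + 1), F p.2 (q.1 + 1))

private theorem ulG_prim (hF : IsAp F) {U : ℕ → ℕ → ℕ → (Fin L.K → Bool)}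
    (hU : Primrec (fun p : ℕ × ℕ × ℕ => U p.1 p.2.1 p.2.2)) : Primrec₂ (ulG L F U) := by
  have hw : Primrec fun z : (ℕ × ℕ) × (ℕ × Option (Fin L.K)) => z.1.1 :=
    Primrec.fst.comp Primrec.fst
  have he : Primrec fun z : (ℕ × ℕ) × (ℕ × Option (Fin L.K)) => z.1.2 :=
    Primrec.snd.comp Primrec.fst
  have ht : Primrec fun z : (ℕ × ℕ) × (ℕ × Option (Fin L.K)) => z.2.1 + 1 :=
    Primrec.succ.comp (Primrec.fst.comp Primrec.snd)
  have ha : Primrec fun z : (ℕ × ℕ) × (ℕ × Option (Fin L.K)) => z.2.2 :=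
    Primrec.snd.comp Primrec.snd
  have hi : Primrec fun z : (ℕ × ℕ) × (ℕ × Option (Fin L.K)) => (Nat.unpair z.1.1).1 :=
    Primrec.fst.comp (Primrec.unpair.comp hw)
  have h1 : Primrec fun z : (ℕ × ℕ) × (ℕ × Option (Fin L.K)) =>
      U (Nat.unpair z.1.1).1 z.1.2 (z.2.1 + 1) :=
    hU.comp (Primrec.pair hi (Primrec.pair he ht))
  have h2 : Primrec fun z : (ℕ × ℕ) × (ℕ × Option (Fin L.K)) => F z.1.2 (z.2.1 + 1) :=
    Primrec₂.comp hF.prim he ht
  have h3 : Primrec fun z : (ℕ × ℕ) × (ℕ × Option (Fin L.K)) => ulS L z.1.1 :=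
    (ulS_prim L).comp hw
  have h4 := (ulStep_prim L).comp (Primrec.pair ha (Primrec.pair h3 (Primrec.pair h1 h2)))
  exact h4

/-- The labelling with the index `w`. -/
private noncomputable def ulM (L : TSys X) (F : ℕ → ℕ → X) (U : ℕ → ℕ → ℕ → (Fin L.K → Bool))
    (w e t : ℕ) : Option (Fin L.K) :=
  Nat.rec (motive := fun _ => Option (Fin L.K)) none (fun n IH => ulG L F U (w, e) (n, IH)) t

omit [Finite X] [Primcodable X] in
private theorem ulM_succ (U : ℕ → ℕ → ℕ → (Fin L.K → Bool)) (w e t : ℕ) :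
    ulM L F U w e (t + 1) =
      ulStep L (ulM L F U w e t, ulS L w, U (Nat.unpair w).1 e (t + 1), F e (t + 1)) := rfl

private theorem ulM_prim (hF : IsAp F) {U : ℕ → ℕ → ℕ → (Fin L.K → Bool)}
    (hU : Primrec (fun p : ℕ × ℕ × ℕ => U p.1 p.2.1 p.2.2)) :
    Primrec (fun p : ℕ × ℕ × ℕ => ulM L F U p.1 p.2.1 p.2.2) := by
  have h := Primrec.nat_rec (f := fun _ : ℕ × ℕ => (none : Option (Fin L.K)))
    (Primrec.const none) (ulG_prim hF hU)
  have h1 : Primrec fun p : ℕ × ℕ × ℕ => (p.1, p.2.1) :=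
    Primrec.pair Primrec.fst (Primrec.fst.comp Primrec.snd)
  have h2 : Primrec fun p : ℕ × ℕ × ℕ => p.2.2 := Primrec.snd.comp Primrec.snd
  have h3 := Primrec₂.comp h h1 h2
  exact h3

private theorem ulM_isLab (hF : IsAp F) {U : ℕ → ℕ → ℕ → (Fin L.K → Bool)}
    (hU : Primrec (fun p : ℕ × ℕ × ℕ => U p.1 p.2.1 p.2.2)) (w : ℕ) :
    L.IsLab F allSt (Finset.univ.filter fun v => ulS L w v = true) (ulM L F U w) where
  prim := by
    have h1 : Primrec fun q : ℕ × ℕ => (w, q) := Primrec.pair (Primrec.const w) Primrec.id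
    have h2 := (ulM_prim hF hU).comp h1
    exact h2
  zero _ := rfl
  off e t h := by
    exact absurd h (by simp [allSt])
  step e t := by
    rw [ulM_succ]
    by_cases h : ∃ v, ulAdm L (ulM L F U w e t, ulS L w, U (Nat.unpair w).1 e (t + 1),
        F e (t + 1)) v
    · obtain ⟨v, h1, h2, h3, h4⟩ := ulStep_pos h
      refine Or.inr ⟨v, h1, h3, fun u hu => ?_, fun hn => ?_⟩
      · rcases h4 with ⟨h5, -⟩ | ⟨u', h5, h6⟩
        · exact absurd (hu.symm.trans h5) (by simp)
        · have h7 : u = u' := Option.some.inj (hu.symm.trans h5)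
          exact h7 ▸ h6
      · rcases h4 with ⟨-, h5⟩ | ⟨u', h5, -⟩
        · exact h5
        · exact absurd (hn.symm.trans h5) (by simp)
    · exact Or.inl (ulStep_neg h)

/-- The set of the labels of `e` up to stage `t`. -/
private noncomputable def ulA (L : TSys X) (mu : ℕ → ℕ → Option (Fin L.K)) (e t : ℕ) :
    Fin L.K → Bool :=
  Nat.rec (fun _ => false) (fun t a v => a v || decide (mu e (t + 1) = some v)) t

omit [Finite X] [Primcodable X] in
private theorem ulA_prim {mu : ℕ → ℕ → Option (Fin L.K)} (h : Primrec₂ mu) :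
    Primrec₂ (ulA L mu) := by
  have h1 : Primrec fun p : (Fin L.K → Bool) × Option (Fin L.K) =>
      fun v => p.1 v || decide (p.2 = some v) := Primrec.dom_finite _
  have hg : Primrec₂ fun (e : ℕ) (q : ℕ × (Fin L.K → Bool)) =>
      fun v => q.2 v || decide (mu e (q.1 + 1) = some v) :=
    h1.comp (Primrec.pair (Primrec.snd.comp Primrec.snd)
      (h.comp Primrec.fst (Primrec.succ.comp (Primrec.fst.comp Primrec.snd))))
  exact Primrec.nat_rec (f := fun _ : ℕ => (fun _ : Fin L.K => false)) (Primrec.const _) hg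

omit [Finite X] [Primcodable X] in
private theorem ulA_succ (mu : ℕ → ℕ → Option (Fin L.K)) (e t : ℕ) (v : Fin L.K) :
    ulA L mu e (t + 1) v = (ulA L mu e t v || decide (mu e (t + 1) = some v)) := rfl

omit [Finite X] [Primcodable X] in
private theorem ulA_mono (mu : ℕ → ℕ → Option (Fin L.K)) (e : ℕ) : Monotone (ulA L mu e) := by
  refine monotone_nat_of_le_succ fun t v => ?_
  rw [ulA_succ]
  exact Bool.left_le_or _ _

omit [Finite X] [Primcodable X] in
private theorem ulA_iff {mu : ℕ → ℕ → Option (Fin L.K)} {e : ℕ} (h0 : mu e 0 = none) (t : ℕ)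
    (v : Fin L.K) : ulA L mu e t v = true ↔ ∃ u ≤ t, mu e u = some v := by
  induction t with
  | zero =>
    constructor
    · intro h
      exact absurd h (by simp [ulA])
    · rintro ⟨u, hu, h⟩
      rw [Nat.le_zero.1 hu, h0] at h
      exact absurd h (by simp)
  | succ t ih =>
    rw [ulA_succ, Bool.or_eq_true, ih, decide_eq_true_iff]
    constructor
    · rintro (⟨u, hu, h⟩ | h)
      · exact ⟨u, hu.trans (Nat.le_succ t), h⟩
      · exact ⟨t + 1, le_rfl, h⟩
    · rintro ⟨u, hu, h⟩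
      rcases Nat.lt_or_ge t u with h1 | h1
      · right
        rw [show t + 1 = u by omega]
        exact h
      · exact Or.inl ⟨u, h1, h⟩

/-- A uniformly primitive recursive sequence of labellings (of all numbers) which contains a
version of every labelling of every stream. The forests are given by their characteristic
functions. -/
theorem exists_univLab (hF : IsAp F) : ∃ (M : ℕ → ℕ → ℕ → Option (Fin L.K))
    (SS : ℕ → Fin L.K → Bool), Primrec (fun p : ℕ × ℕ × ℕ => M p.1 p.2.1 p.2.2) ∧ Primrec₂ SS ∧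
    (∀ w, L.IsLab F allSt (Finset.univ.filter fun v => SS w v = true) (M w)) ∧
    ∀ (V : ℕ → ℕ → Bool) (S'' : Finset (Fin L.K)) (mu : ℕ → ℕ → Option (Fin L.K)),
      L.IsLab F V S'' mu → ∃ w, (Finset.univ.filter fun v => SS w v = true) = S'' ∧
        ∀ e, L.Corr F mu e → L.Corr F (M w) e := by
  obtain ⟨U, hU, hUm, -, hUu⟩ := exists_univ (Fin L.K → Bool)
  refine ⟨ulM L F U, ulS L, ulM_prim hF hU, Primrec.fin_app.comp
    ((ulS_prim L).comp Primrec.fst) Primrec.snd, fun w => ulM_isLab hF hU w, ?_⟩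
  intro V S'' mu hmu
  obtain ⟨g, hg⟩ := exists_lim (ulA_mono (L := L) mu)
  obtain ⟨i, hi⟩ := hUu g ⟨ulA L mu, ⟨ulA_prim hmu.prim, ulA_mono mu⟩, hg⟩
  have hgA : ∀ e v, g e v = true → ∃ t, mu e t = some v := by
    intro e v h
    obtain ⟨s, hs⟩ := hg e
    rw [← hs s le_rfl] at h
    obtain ⟨u, -, hu⟩ := (ulA_iff (hmu.zero e) s v).1 h
    exact ⟨u, hu⟩
  have hAg : ∀ e v t, mu e t = some v → g e v = true := by
    intro e v t h
    obtain ⟨s, hs⟩ := hg e
    rw [← hs (max s t) (le_max_left _ _)]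
    exact (ulA_iff (hmu.zero e) _ v).2 ⟨t, le_max_right _ _, h⟩
  obtain ⟨w, hw⟩ : ∃ w, w = Nat.pair i (@Encodable.encode (Fin L.K → Bool)
      Primcodable.toEncodable fun v => decide (v ∈ S'')) := ⟨_, rfl⟩
  have hS : ulS L w = fun v => decide (v ∈ S'') := by
    unfold ulS
    rw [hw, Nat.unpair_pair]
    rw [@Encodable.encodek (Fin L.K → Bool) Primcodable.toEncodable]
    rfl
  have hS' : (Finset.univ.filter fun v => ulS L w v = true) = S'' := by
    rw [hS]
    ext v
    simp
  refine ⟨w, hS', fun e hc => ?_⟩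
  have hwi : (Nat.unpair w).1 = i := by rw [hw, Nat.unpair_pair]
  obtain ⟨v₀, t₀, ht₀⟩ := hc
  obtain ⟨s₀, hs₀⟩ := hi e
  -- the labels of `e` are `v₀` or its ancestors
  have hanc : ∀ v, g e v = true → v = v₀ ∨ L.Desc v v₀ := by
    intro v hv
    obtain ⟨t, ht⟩ := hgA e v hv
    obtain ⟨u, hu, h1⟩ := hmu.later (le_max_left t t₀) ht
    rw [(ht₀ _ (le_max_right t t₀)).1] at hu
    rcases h1 with h1 | h1
    · exact Or.inl (h1.symm.trans (Option.some.inj hu).symm)
    · exact Or.inr ((Option.some.inj hu).symm ▸ h1)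
  have hv₀ : g e v₀ = true := hAg e v₀ t₀ (ht₀ t₀ le_rfl).1
  have hUg : ∀ t v, U i e t v = true → g e v = true := by
    intro t v h
    have h1 : U i e t v ≤ U i e (max t s₀) v := hUm i e (le_max_left _ _) v
    rw [hs₀ _ (le_max_right _ _), h] at h1
    exact le_antisymm le_top h1
  have hMg : ∀ t v, ulM L F U w e t = some v → g e v = true := by
    intro t
    induction t with
    | zero =>
      intro v h
      exact absurd h (by simp [ulM])
    | succ t ih =>
      intro v h
      rw [ulM_succ] at h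
      by_cases h1 : ∃ v, ulAdm L (ulM L F U w e t, ulS L w, U (Nat.unpair w).1 e (t + 1),
          F e (t + 1)) v
      · obtain ⟨v', h2, h3⟩ := ulStep_pos h1
        rw [h2] at h
        have h4 : U (Nat.unpair w).1 e (t + 1) v' = true := h3.1
        rw [hwi] at h4
        rw [← Option.some.inj h]
        exact hUg _ _ h4
      · rw [ulStep_neg h1] at h
        exact ih v h
  refine ⟨v₀, max s₀ t₀ + 1, fun u hu => ?_⟩
  obtain ⟨t, rfl⟩ : ∃ t, u = t + 1 := ⟨u - 1, by omega⟩
  have hts : s₀ ≤ t + 1 := by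
    have := le_max_left s₀ t₀
    omega
  have htt : t₀ ≤ t + 1 := by
    have := le_max_right s₀ t₀
    omega
  have hFt : F e (t + 1) = L.lab v₀ := (ht₀ _ htt).2
  refine ⟨?_, hFt⟩
  have hUt : U (Nat.unpair w).1 e (t + 1) = g e := by
    rw [hwi]
    exact hs₀ _ hts
  rw [ulM_succ]
  by_cases h1 : ∃ v, ulAdm L (ulM L F U w e t, ulS L w, U (Nat.unpair w).1 e (t + 1),
      F e (t + 1)) v
  · obtain ⟨v, h2, h3, h4, -⟩ := ulStep_pos h1
    have h5 : U (Nat.unpair w).1 e (t + 1) v = true := h3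
    have h6 : L.lab v = F e (t + 1) := h4
    rw [hUt] at h5
    rw [h2]
    rcases hanc v h5 with h7 | h7
    · rw [h7]
    · have h8 := h7.lab_lt
      rw [h6, hFt] at h8
      exact absurd h8 (lt_irrefl _)
  · rw [ulStep_neg h1]
    show ulM L F U w e t = some v₀
    cases ha : ulM L F U w e t with
    | none =>
      refine absurd ⟨v₀, ?_, hFt.symm, Or.inl ⟨ha, ?_⟩⟩ h1
      · show U (Nat.unpair w).1 e (t + 1) v₀ = true
        rw [hUt]
        exact hv₀
      · show L.Node (Finset.univ.filter fun v => ulS L w v = true) v₀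
        rw [hS']
        exact hmu.node (ht₀ t₀ le_rfl).1
    | some u =>
      rcases hanc u (hMg t u ha) with h7 | h7
      · rw [h7]
      · refine absurd ⟨v₀, ?_, hFt.symm, Or.inr ⟨u, ha, h7⟩⟩ h1
        show U (Nat.unpair w).1 e (t + 1) v₀ = true
        rw [hUt]
        exact hv₀

end TSys

end Pool.Agent.Lib.MP_45c83f_lc
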