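import Pool.Agent.Lib.MP_45c83f_lc.LabB
import Pool.Agent.Lib.MP_45c83f_lc.LabD
import Pool.Agent.Lib.MP_45c83f_lc.LabS
import Pool.Agent.Lib.MP_45c83f_lc.UnivLab
import Pool.Agent.Lib.MP_45c83f_lc.Own

set_option autoImplicit false

/-!
# The Allocation Theorem P (text, 5.3)
-/

namespace Pool.Agent.Lib.MP_45c83f_lc

/-- Persistence over several stages. -/
private theorem thmP_pers {own : ℕ → ℕ → Option ℕ}
    (hp : ∀ e t P, own e t = some P → own e (t + 1) = some P) {e t u P : ℕ} (htu : t ≤ u)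
    (h : own e t = some P) : own e u = some P := by
  induction u, htu using Nat.le_induction with
  | base => exact h
  | succ k _ ih => exact hp e k P ih

/-- The entry stage. -/
private theorem thmP_entry {own : ℕ → ℕ → Option ℕ} (h0 : ∀ e, own e 0 = none)
    (hp : ∀ e t P, own e t = some P → own e (t + 1) = some P) {e t P : ℕ}
    (h : own e t = some P) : ∃ u, u < t ∧ own e u = none ∧ own e (u + 1) = some P := by
  induction t with
  | zero => rw [h0] at h; exact absurd h (by simp)
  | succ t ih =>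
    cases ht : own e t with
    | none => exact ⟨t, Nat.lt_succ_self t, ht, h⟩
    | some Q =>
      have h1 := hp e t Q ht
      rw [h1] at h
      rw [Option.some.inj h] at ht
      obtain ⟨u, hu, h2⟩ := ih ht
      exact ⟨u, by omega, h2⟩

namespace TSys

variable {X : Type} [PartialOrder X] [Finite X] [Primcodable X] {L : TSys X} {F : ℕ → ℕ → X}
  {S : Finset (Fin L.K)} {lam : ℕ → ℕ → Option (Fin L.K)}

omit [Finite X] [Primcodable X] in
private theorem thmP_atC (hlam : L.IsLab F allSt S lam) {own : ℕ → ℕ → Option ℕ}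
    (hprim : Primrec₂ own) (h0 : ∀ e, own e 0 = none)
    (hp : ∀ e t P, own e t = some P → own e (t + 1) = some P) {P : ℕ} {s c : Fin L.K}
    (hc : c ∈ L.ch s)
    (hent : ∀ e t, own e t = none → own e (t + 1) = some P →
      lam e t = some s ∧ lam e (t + 1) = some c) :
    L.AtC F lam (fun e t => decide (own e t = some P)) c := by
  refine ⟨⟨?_, ?_⟩, ?_⟩
  · have h1 : PrimrecPred fun p : ℕ × ℕ => own p.1 p.2 = some P :=
      PrimrecRel.comp Primrec.eq hprim (Primrec.const (some P))
    exact h1.decide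
  · intro e u v huv
    rw [Bool.le_iff_imp]
    intro h
    rw [decide_eq_true_iff] at h ⊢
    exact thmP_pers hp huv h
  · rintro e t ⟨h1, h2⟩
    rw [decide_eq_true_iff] at h1
    obtain ⟨u, hu, h3, h4⟩ := thmP_entry h0 hp h1
    have h5 : t = u + 1 := by
      by_contra hne
      have h6 := h2 (u + 1) (by omega)
      rw [decide_eq_false_iff_not] at h6
      exact h6 h4
    subst h5
    obtain ⟨h6, h7⟩ := hent e u h3 h4
    refine ⟨h7, ?_⟩
    rcases hlam.step e u with h8 | ⟨v, hv, hlab, -, -⟩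
    · rw [h6, h7] at h8
      have h9 := L.lt_ch s c hc
      rw [Option.some.inj h8] at h9
      exact absurd h9 (lt_irrefl _)
    · rw [h7] at hv
      rw [← hlab, Option.some.inj hv]

/-- Theorem P. The requirement `a` is active if `act a = true`. -/
theorem thmP (hF : IsAp F) (hlam : L.IsLab F allSt S lam)
    (hcor : {e | ¬ L.Corr F lam e}.Finite) (hS : L.HRed S) {act : ℕ → Bool}
    (hact : Primrec act) {s c : ℕ → Fin L.K} (hs : Primrec s) (hc : Primrec c)
    (hs' : ∀ a, act a = true → s a ∈ S) (hc' : ∀ a, act a = true → c a ∈ L.ch (s a))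
    {V : ℕ → ℕ → ℕ → Bool} (hV : Primrec fun p : ℕ × ℕ × ℕ => V p.1 p.2.1 p.2.2)
    (hV' : ∀ a, act a = true → L.AtC F lam (V a) (s a)) :
    ∃ al : ℕ → ℕ → Option ℕ, Primrec₂ al ∧ (∀ e, al e 0 = none) ∧
      (∀ e t a, al e t = some a → al e (t + 1) = some a) ∧
      (∀ e t a, al e t = none → al e (t + 1) = some a → act a = true ∧
        lam e t = some (s a) ∧ lam e (t + 1) = some (c a) ∧ V a e t = true) ∧
      ∀ a, act a = true → L.Exact F (V a) {s a} →
        L.AtC F lam (fun e t => decide (al e t = some a)) (c a) ∧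
        L.Exact F (fun e t => decide (al e t = some a)) {c a} := by
  classical
  obtain ⟨M, SS, hM, hSS, hMlab, hMuniv⟩ := exists_univLab (L := L) hF
  -- the indices
  let ia : ℕ → ℕ := fun P => P.unpair.1
  let iw : ℕ → ℕ := fun P => P.unpair.2.unpair.1
  let fb : ℕ → ℕ := fun P => P.unpair.2.unpair.2
  have hia : Primrec ia := Primrec.fst.comp Primrec.unpair
  have hiw : Primrec iw :=
    Primrec.fst.comp (Primrec.unpair.comp (Primrec.snd.comp Primrec.unpair))
  have hfb : Primrec fb :=
    Primrec.snd.comp (Primrec.unpair.comp (Primrec.snd.comp Primrec.unpair))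
  -- the tests
  let G1 : (Fin L.K → Bool) × Fin L.K → Bool := fun p =>
    decide (L.LtF (Finset.univ.filter fun v => p.1 v = true) {p.2})
  have hG1 : Primrec G1 := Primrec.dom_finite _
  let va : ℕ → Bool := fun P => act (ia P) && G1 (SS (iw P), c (ia P))
  have hva : Primrec va := by
    refine Primrec.and.comp (hact.comp hia) (hG1.comp (Primrec.pair ?_ (hc.comp hia)))
    have h1 : Primrec SS := Primrec.fin_curry.2 hSS
    exact h1.comp hiw
  let G2 : Option (Fin L.K) × X × Fin L.K → Bool := fun p =>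
    decide (p.1 = some p.2.2 ∧ p.2.1 = L.lab p.2.2)
  have hG2 : Primrec G2 := Primrec.dom_finite _
  let R : ℕ → ℕ → ℕ → Bool := fun P e t => V (ia P) e t && G2 (lam e t, F e t, s (ia P))
  let G3 : Option (Fin L.K) × Option (Fin L.K) × Fin L.K × Fin L.K → Bool := fun p =>
    decide (p.1 = some p.2.2.1 ∧ p.2.1 = some p.2.2.2)
  have hG3 : Primrec G3 := Primrec.dom_finite _
  let mv : ℕ → ℕ → ℕ → Bool := fun P e t => G3 (lam e t, lam e (t + 1), s (ia P), c (ia P))
  let G4 : Option (Fin L.K) × X → Bool := fun p => decide (∃ v, p.1 = some v ∧ L.lab v = p.2)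
  have hG4 : Primrec G4 := Primrec.dom_finite _
  let hd : ℕ → ℕ → ℕ → Bool := fun P e t => G4 (M (iw P) e t, F e t)
  have q1 : Primrec fun p : ℕ × ℕ × ℕ => ia p.1 := hia.comp Primrec.fst
  have q2 : Primrec fun p : ℕ × ℕ × ℕ => p.2.1 := Primrec.fst.comp Primrec.snd
  have q3 : Primrec fun p : ℕ × ℕ × ℕ => p.2.2 := Primrec.snd.comp Primrec.snd
  have q4 : Primrec fun p : ℕ × ℕ × ℕ => lam p.2.1 p.2.2 := hlam.prim.comp q2 q3
  have q5 : Primrec fun p : ℕ × ℕ × ℕ => lam p.2.1 (p.2.2 + 1) :=
    hlam.prim.comp q2 (Primrec.succ.comp q3)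
  have q6 : Primrec fun p : ℕ × ℕ × ℕ => F p.2.1 p.2.2 := hF.prim.comp q2 q3
  have q7 : Primrec fun p : ℕ × ℕ × ℕ => s (ia p.1) := hs.comp q1
  have q8 : Primrec fun p : ℕ × ℕ × ℕ => c (ia p.1) := hc.comp q1
  have hR : Primrec fun p : ℕ × ℕ × ℕ => R p.1 p.2.1 p.2.2 := by
    refine Primrec.and.comp ?_ (hG2.comp (Primrec.pair q4 (Primrec.pair q6 q7)))
    exact hV.comp (Primrec.pair q1 (Primrec.pair q2 q3))
  have hmv : Primrec fun p : ℕ × ℕ × ℕ => mv p.1 p.2.1 p.2.2 :=
    hG3.comp (Primrec.pair q4 (Primrec.pair q5 (Primrec.pair q7 q8)))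
  have hhd : Primrec fun p : ℕ × ℕ × ℕ => hd p.1 p.2.1 p.2.2 := by
    refine hG4.comp (Primrec.pair ?_ q6)
    exact hM.comp (Primrec.pair (hiw.comp Primrec.fst) (Primrec.pair q2 q3))
  -- reading the tests
  have va_iff : ∀ P, va P = true ↔ act (ia P) = true ∧
      L.LtF (Finset.univ.filter fun v => SS (iw P) v = true) {c (ia P)} := by
    intro P
    simp only [va, G1, Bool.and_eq_true, decide_eq_true_eq]
  have R_iff : ∀ P e t, R P e t = true ↔ V (ia P) e t = true ∧ lam e t = some (s (ia P)) ∧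
      F e t = L.lab (s (ia P)) := by
    intro P e t
    simp only [R, G2, Bool.and_eq_true, decide_eq_true_eq]
  have mv_iff : ∀ P e t, mv P e t = true ↔ lam e t = some (s (ia P)) ∧
      lam e (t + 1) = some (c (ia P)) := by
    intro P e t
    simp only [mv, G3, decide_eq_true_eq]
  have hd_iff : ∀ P e t, hd P e t = true ↔ ∃ v, M (iw P) e t = some v ∧ L.lab v = F e t := by
    intro P e t
    simp only [hd, G4, decide_eq_true_eq]
  obtain ⟨own, o1, o2, o3, o4, o5, o6⟩ := exists_own (R := R) (mv := mv) (hd := hd) (fb := fb)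
    (va := va) hR hmv hhd hfb hva
  have hMk1 : ∀ {P e t u : ℕ}, t ≤ u → Mk own hd fb va R P e t → Mk own hd fb va R P e u := by
    rintro P e t u htu ⟨h1, h2, s0, h3, h4⟩
    exact ⟨h1, h2, s0, h3.trans htu, h4⟩
  have hMkV : ∀ {P e t : ℕ}, Mk own hd fb va R P e t → V (ia P) e t = true := by
    rintro P e t ⟨-, h2, s0, h3, h4, -⟩
    exact (hV' (ia P) ((va_iff P).1 h2).1).ap.true_of_le h3 ((R_iff P e s0).1 h4).1
  -- the allocation
  let al : ℕ → ℕ → Option ℕ := fun e t => (own e t).map ia
  have al_iff : ∀ e t a, al e t = some a ↔ ∃ P, own e t = some P ∧ ia P = a := by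
    intro e t a
    simp only [al, Option.map_eq_some_iff]
  have al0 : ∀ e, al e 0 = none := by
    intro e
    simp only [al, o2, Option.map_none]
  have al1 : ∀ e t a, al e t = some a → al e (t + 1) = some a := by
    intro e t a h
    obtain ⟨P, h1, h2⟩ := (al_iff e t a).1 h
    exact (al_iff e (t + 1) a).2 ⟨P, o3 e t P h1, h2⟩
  have al2 : ∀ e t a, al e t = none → al e (t + 1) = some a → act a = true ∧
      lam e t = some (s a) ∧ lam e (t + 1) = some (c a) ∧ V a e t = true := by
    intro e t a h h'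
    obtain ⟨P, h1, h2⟩ := (al_iff e (t + 1) a).1 h'
    have h3 : own e t = none := by
      simpa only [al, Option.map_eq_none_iff] using h
    obtain ⟨h4, h5⟩ := o4 e t P h3 h1
    rw [mv_iff] at h4
    rw [← h2]
    exact ⟨((va_iff P).1 h5.2.1).1, h4.1, h4.2, hMkV h5⟩
  have hal : Primrec₂ al := by
    have h1 : Primrec fun p : ℕ × ℕ => (own p.1 p.2).map ia :=
      Primrec.option_map o1 (hia.comp Primrec.snd).to₂
    exact h1
  refine ⟨al, hal, al0, al1, al2, ?_⟩
  intro a ha hex
  have hHa : L.AtC F lam (fun e t => decide (al e t = some a)) (c a) := by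
    refine thmP_atC hlam hal al0 al1 (hc' a ha) fun e t h h' => ?_
    obtain ⟨-, h1, h2, -⟩ := al2 e t a h h'
    exact ⟨h1, h2⟩
  refine ⟨hHa, ?_⟩
  by_contra hne
  have hsmall : L.Small F (fun e t => decide (al e t = some a)) (c a) := by
    by_contra h
    exact hne (exact_of_not_small hF hlam hcor hHa h)
  obtain ⟨S'', hlt, mu, hmu, hfin⟩ := hsmall
  obtain ⟨w, hw, hMw⟩ := hMuniv _ S'' mu hmu
  obtain ⟨n, hn⟩ := hfin.bddAbove
  -- the index of the failure
  set P : ℕ := Nat.pair a (Nat.pair w (n + 1)) with hP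
  have hPa : ia P = a := by
    show (Nat.unpair P).1 = a
    rw [hP, Nat.unpair_pair]
  have hPw : iw P = w := by
    show (Nat.unpair (Nat.unpair P).2).1 = w
    rw [hP, Nat.unpair_pair, Nat.unpair_pair]
  have hPn : fb P = n + 1 := by
    show (Nat.unpair (Nat.unpair P).2).2 = n + 1
    rw [hP, Nat.unpair_pair, Nat.unpair_pair]
  have hvaP : va P = true := by
    rw [va_iff, hPa, hPw, hw]
    exact ⟨ha, hlt⟩
  have hlate : ∀ e, fb P ≤ e → (∃ t, own e t = some P) →
      ∃ t, ∀ u, t ≤ u → hd P e u = true := by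
    rintro e he ⟨t, ht⟩
    have h1 : al e t = some a := (al_iff e t a).2 ⟨P, ht, hPa⟩
    have h2 : L.Corr F mu e := by
      by_contra h2
      have h3 : e ≤ n := hn ⟨⟨t, by rw [decide_eq_true_iff]; exact h1⟩, h2⟩
      rw [hPn] at he
      omega
    obtain ⟨v, t', h3⟩ := hMw e h2
    refine ⟨t', fun u hu => ?_⟩
    rw [hd_iff, hPw]
    exact ⟨v, (h3 u hu).1, (h3 u hu).2.symm⟩
  have hunb := ell_unbounded (own := own) (hd := hd) (fb := fb) o3 hlate
  -- the stream of the marked elements
  let V' : ℕ → ℕ → Bool := fun e t => decide (Mk own hd fb va R P e t)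
  have V'_iff : ∀ e t, V' e t = true ↔ Mk own hd fb va R P e t := fun e t => decide_eq_true_iff
  have hV'at : L.AtC F lam V' (s a) := by
    refine ⟨⟨?_, ?_⟩, ?_⟩
    · have h1 : PrimrecPred fun p : ℕ × ℕ => Mk own hd fb va R P p.1 p.2 :=
        PrimrecPred.comp (p := fun p : ℕ × ℕ × ℕ => Mk own hd fb va R p.1 p.2.1 p.2.2)
          (f := fun p : ℕ × ℕ => (P, p)) o6 (Primrec.pair (Primrec.const P) Primrec.id)
      exact h1.decide
    · intro e u v huv
      rw [Bool.le_iff_imp]
      intro h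
      rw [V'_iff] at h ⊢
      exact hMk1 huv h
    · rintro e t ⟨h1, h2⟩
      rw [V'_iff] at h1
      obtain ⟨h3, h4, s0, h5, h6, h7⟩ := h1
      have h8 : s0 = t := by
        by_contra hne'
        have h9 := h2 s0 (by omega)
        have h10 : V' e s0 = true := (V'_iff e s0).2 ⟨h3, h4, s0, le_rfl, h6, h7⟩
        rw [h9] at h10
        exact Bool.noConfusion h10
      subst h8
      obtain ⟨-, h8, h9⟩ := (R_iff P e s0).1 h6
      rw [hPa] at h8 h9
      exact ⟨h8, h9⟩
  have hexV' : L.Exact F V' {s a} := by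
    obtain ⟨_, h⟩ := lemB hF hlam hcor (hV' a ha) hex (ι := Unit) (fun _ => V')
      (fun _ => hV'at)
      (by
        intro _ e t h
        rw [V'_iff] at h
        have h1 := hMkV h
        rwa [hPa] at h1)
      (by
        refine (hcor.union (Set.finite_lt_nat P)).subset ?_
        rintro e ⟨⟨t0, h1⟩, ⟨t1, h2⟩, h3⟩
        by_contra hgood
        rw [Set.mem_union, not_or] at hgood
        obtain ⟨g1, g2⟩ := hgood
        have g1' : L.Corr F lam e := by
          by_contra h
          exact g1 h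
        have g2' : P ≤ e := by
          by_contra h
          exact g2 (Nat.lt_of_not_le h)
        obtain ⟨v, t2, h4⟩ := g1'
        have hv : v = s a := by
          have h5 := (h4 (max t1 t2) (le_max_right _ _)).1
          rw [h2 (max t1 t2) (le_max_left _ _)] at h5
          exact (Option.some.inj h5).symm
        obtain ⟨t3, h5⟩ := hunb e
        refine h3 () ⟨max (max t0 t2) t3, ?_⟩
        rw [V'_iff]
        refine ⟨g2', hvaP, max (max t0 t2) t3, le_rfl, ?_, h5 _ (le_max_right _ _)⟩
        have h6 : t2 ≤ max (max t0 t2) t3 := (le_max_right _ _).trans (le_max_left _ _)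
        have h7 : t0 ≤ max (max t0 t2) t3 := (le_max_left _ _).trans (le_max_left _ _)
        rw [R_iff, hPa, ← hv]
        refine ⟨(hV' a ha).ap.true_of_le h7 h1, (h4 _ h6).1, (h4 _ h6).2⟩)
    exact h
  obtain ⟨hNat, hNex⟩ := lemD hF hlam hcor hV'at hexV' (hS.2 _ (Node.of_mem (hs' a ha)))
    (hc' a ha)
  -- the dichotomy
  obtain ⟨g, hg⟩ := exists_lim hF.mono
  have hdich : ∀ Q e, (∃ t, ∀ u, t ≤ u → hd Q e u = true) ∨
      ∃ t, ∀ u, t ≤ u → hd Q e u = false := by
    intro Q e
    obtain ⟨t1, h1⟩ := hg e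
    rcases (hMlab (iw Q)).last e with h2 | ⟨v, t2, h2⟩
    · right
      refine ⟨0, fun u _ => ?_⟩
      rw [Bool.eq_false_iff]
      intro h
      obtain ⟨v, h3, -⟩ := (hd_iff Q e u).1 h
      rw [h2 u] at h3
      exact absurd h3 (by simp)
    · by_cases h3 : L.lab v = g e
      · left
        refine ⟨max t1 t2, fun u hu => (hd_iff Q e u).2 ⟨v, h2 u ?_, ?_⟩⟩
        · exact (le_max_right _ _).trans hu
        · rw [h1 u ((le_max_left _ _).trans hu), h3]
      · right
        refine ⟨max t1 t2, fun u hu => ?_⟩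
        rw [Bool.eq_false_iff]
        intro h
        obtain ⟨v', h4, h5⟩ := (hd_iff Q e u).1 h
        rw [h2 u ((le_max_right _ _).trans hu)] at h4
        rw [h1 u ((le_max_left _ _).trans hu), ← Option.some.inj h4] at h5
        exact h3 h5
  -- correct indices
  let Co : ℕ → Prop := fun Q => ∀ e, fb Q ≤ e → (∃ t, own e t = some Q) →
    ∃ t, ∀ u, t ≤ u → hd Q e u = true
  have hinc : ∀ Q, ∃ b, ¬ Co Q → ∀ u, ell own hd fb Q u ≤ b := by
    intro Q
    by_cases hQ : Co Q
    · exact ⟨0, fun h => absurd hQ h⟩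
    · have h1 : ∃ e, fb Q ≤ e ∧ (∃ t, own e t = some Q) ∧
          ¬ ∃ t, ∀ u, t ≤ u → hd Q e u = true := by
        by_contra h
        apply hQ
        intro e he ho
        by_contra h'
        exact h ⟨e, he, ho, h'⟩
      obtain ⟨e, he, ⟨t, ht⟩, h2⟩ := h1
      obtain ⟨b, hb⟩ := ell_bounded (own := own) (hd := hd) (fb := fb) o3 he ht
        ((hdich Q e).resolve_left h2)
      exact ⟨b, fun _ => hb⟩
  choose b hb using hinc
  let J : Finset ℕ := (Finset.range (P + 1)).filter fun Q =>
    va Q = true ∧ s (ia Q) = s a ∧ c (ia Q) = c a ∧ Co Q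
  have hJ : ∀ Q ∈ J, va Q = true ∧ s (ia Q) = s a ∧ c (ia Q) = c a ∧ Co Q := by
    intro Q hQ
    exact (Finset.mem_filter.1 hQ).2
  let HQ : ℕ → ℕ → ℕ → Bool := fun Q e t => decide (own e t = some Q)
  have hHQ : ∀ Q ∈ J, L.AtC F lam (HQ Q) (c a) := by
    intro Q hQ
    obtain ⟨h1, h2, h3, -⟩ := hJ Q hQ
    refine thmP_atC hlam o1 o2 o3 (hc' a ha) fun e t h h' => ?_
    obtain ⟨h4, -⟩ := o4 e t Q h h'
    rw [mv_iff, h2, h3] at h4
    exact h4
  have hHQs : ∀ Q ∈ J, L.Small F (HQ Q) (c a) := by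
    intro Q hQ
    obtain ⟨h1, h2, h3, h4⟩ := hJ Q hQ
    have h5 := ((va_iff Q).1 h1).2
    rw [h3] at h5
    refine ⟨_, h5, ?_⟩
    have hdp : Primrec₂ fun e t =>
        if own e t = some Q then (some 0 : Option (Fin 1)) else none := by
      have h6 : PrimrecPred fun p : ℕ × ℕ => own p.1 p.2 = some Q :=
        PrimrecRel.comp Primrec.eq o1 (Primrec.const (some Q))
      exact Primrec.ite h6 (Primrec.const _) (Primrec.const _)
    have hds : ∀ e t i, (if own e t = some Q then (some 0 : Option (Fin 1)) else none) = some i →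
        own e t = some Q := by
      intro e t i h
      by_contra h6
      rw [if_neg h6] at h
      exact absurd h (by simp)
    obtain ⟨lam', hlam', -, hcorr⟩ := glue (L := L) (F := F) hF (k := 1) (fun _ => allSt)
      (fun _ => Finset.univ.filter fun v => SS (iw Q) v = true) (fun _ => M (iw Q))
      (fun _ => hMlab (iw Q))
      (d := fun e t => if own e t = some Q then some 0 else none) hdp
      (by
        intro e t i h
        have h6 := hds e t i h
        show (if own e (t + 1) = some Q then (some 0 : Option (Fin 1)) else none) = some i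
        rw [if_pos (o3 e t Q h6)]
        congr 1
        exact Subsingleton.elim _ _)
      (V := HQ Q)
      (by
        intro e t i h
        exact decide_eq_true (hds e t i h))
      (S' := Finset.univ.filter fun v => SS (iw Q) v = true) (fun _ _ h => h)
    refine ⟨lam', hlam', (Set.finite_lt_nat (fb Q)).subset ?_⟩
    rintro e ⟨⟨t, ht⟩, hn'⟩
    rw [Set.mem_ofPred_eq]
    by_contra hlt'
    apply hn'
    have ht' : own e t = some Q := of_decide_eq_true ht
    obtain ⟨t1, h6⟩ := h4 e (Nat.le_of_not_lt hlt') ⟨t, ht'⟩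
    refine hcorr e 0 t (by show (if _ then _ else _) = _; rw [if_pos ht']) ?_
    rcases (hMlab (iw Q)).last e with h7 | ⟨v, t2, h7⟩
    · obtain ⟨v, h8, -⟩ := (hd_iff Q e t1).1 (h6 t1 le_rfl)
      rw [h7 t1] at h8
      exact absurd h8 (by simp)
    · refine ⟨v, max t1 t2, fun u hu => ?_⟩
      have h9 := h7 u ((le_max_right _ _).trans hu)
      obtain ⟨v', h10, h11⟩ := (hd_iff Q e u).1 (h6 u ((le_max_left _ _).trans hu))
      rw [h9] at h10
      rw [← Option.some.inj h10] at h11
      exact ⟨h9, h11.symm⟩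
  obtain ⟨hUat, hUs⟩ := Small.biUnion hF hlam HQ J hHQ hHQs
  have hNs : L.Small F (L.nxt lam V' (s a) (c a)) (c a) := by
    refine Small.sub hF hUat hNat ?_ hUs
    refine ((Finset.range (P + 1)).finite_toSet.biUnion
      (t := fun Q => {e | e < b Q}) (fun Q _ => Set.finite_lt_nat (b Q))).subset ?_
    rintro e ⟨t, h1, h2⟩
    obtain ⟨u, hu, h3, h4, h5⟩ := LabD_nxt_iff.1 h1
    rw [V'_iff] at h5
    have h6 : mv P e u = true := by
      rw [mv_iff, hPa]
      exact ⟨h3, h4⟩
    have h7 : own e u = none := by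
      cases ho : own e u with
      | none => rfl
      | some Q =>
        exfalso
        obtain ⟨u', hu', h8, h9⟩ := thmP_entry o2 o3 ho
        obtain ⟨h10, h11⟩ := o4 e u' Q h8 h9
        have h12 := ((va_iff Q).1 h11.2.1).1
        rw [mv_iff] at h10
        obtain ⟨w', h13, h14⟩ := hlam.later (show u' + 1 ≤ u from hu') h10.2
        rw [h3] at h13
        rw [← Option.some.inj h13] at h14
        have h15 : L.Desc (s (ia Q)) (s a) := by
          rcases h14 with h14 | h14
          · rw [h14]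
            exact Desc.of_ch (hc' _ h12)
          · exact (Desc.of_ch (hc' _ h12)).trans h14
        exact hS.1.not_desc (hs' _ h12) (hs' a ha) h15
    obtain ⟨Q, hQP, h8⟩ := o5 e u P h7 h6 h5
    obtain ⟨h9, h10⟩ := o4 e u Q h7 h8
    rw [mv_iff] at h9
    have h11 : s (ia Q) = s a := by
      have := h9.1
      rw [h3] at this
      exact (Option.some.inj this).symm
    have h12 : c (ia Q) = c a := by
      have := h9.2
      rw [h4] at this
      exact (Option.some.inj this).symm
    have h13 : ¬ Co Q := by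
      intro hCo
      rw [decide_eq_false_iff_not] at h2
      apply h2
      refine ⟨Q, Finset.mem_filter.2 ⟨Finset.mem_range.2 (by omega), h10.2.1, h11, h12, hCo⟩, ?_⟩
      exact decide_eq_true (thmP_pers o3 (show u + 1 ≤ t from hu) h8)
    obtain ⟨-, -, s0, -, -, h14⟩ := h10
    have h15 := hb Q h13 s0
    rw [Set.mem_iUnion₂]
    refine ⟨Q, ?_, ?_⟩
    · rw [Finset.mem_coe, Finset.mem_range]
      omega
    · rw [Set.mem_ofPred_eq]
      omega
  obtain ⟨S3, h1, h2⟩ := hNs
  exact hNex.2 S3 h1 h2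

end TSys

end Pool.Agent.Lib.MP_45c83f_lc
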