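import Pool.Agent.Lib.MP_45c83f_lc.Run
import Pool.Agent.Lib.MP_45c83f_lc.ThmP
import Pool.Agent.Lib.MP_45c83f_lc.Free

set_option autoImplicit false

/-!
# Existence of the assignment (text, 5.4 (iv), (v))
-/

namespace Pool.Agent.Lib.MP_45c83f_lc

namespace TSys

/-- The numbers at the root `s` which have seen an answer with `cond`. -/
noncomputable def vst {X Z : Type} [PartialOrder X] {L : TSys X} (F : ℕ → ℕ → X)
    (lam : ℕ → ℕ → Option (Fin L.K)) (U : ℕ → ℕ → ℕ → Z) (i : ℕ) (cond : Z → Prop)
    (s : Fin L.K) (e t : ℕ) : Bool :=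
  @decide (∃ u, u ≤ t ∧ lam e u = some s ∧ F e u = L.lab s ∧ cond (U i e u))
    (Classical.dec _)

section aux

variable {X Y Z J : Type} [PartialOrder X] [Finite X] [Primcodable X] [PartialOrder Y]
    [PartialOrder Z] [Finite Z] [Primcodable Z] [Finite J] [Primcodable J] {L : TSys X}
    {I : Set (X × Y)} {S : Finset (Fin L.K)} {h : Fin L.K → Y}

omit [Finite X] [Primcodable X] [PartialOrder Z] [Finite Z] [Primcodable Z] in
theorem AsgEx_vst_iff {F : ℕ → ℕ → X} {lam : ℕ → ℕ → Option (Fin L.K)} {U : ℕ → ℕ → ℕ → Z}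
    {i : ℕ} {cond : Z → Prop} {s : Fin L.K} {e t : ℕ} :
    vst F lam U i cond s e t = true ↔
      ∃ u, u ≤ t ∧ lam e u = some s ∧ F e u = L.lab s ∧ cond (U i e u) := by
  unfold vst
  rw [@decide_eq_true_iff _ (Classical.dec _)]

open Classical in
/-- The streams of the requirements. -/
noncomputable def AsgEx_V (D : Jobs L I S h Z J) (F : ℕ → ℕ → X)
    (lam : ℕ → ℕ → Option (Fin L.K)) (U : ℕ → ℕ → ℕ → Z) (a e t : ℕ) : Bool :=
  Option.casesOn (motive := fun _ => Bool) (Encodable.decode a : Option (ℕ × J)) false fun p =>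
    decide (∃ u ∈ List.range (t + 1), ∃ s, D.src p.2 = some s ∧ lam e u = some s ∧
      F e u = L.lab s ∧ D.cond p.2 (U p.1 e u))

omit [Finite X] [Primcodable X] [Finite Z] [Primcodable Z] [Finite J] in
theorem AsgEx_V_eq (D : Jobs L I S h Z J) (F : ℕ → ℕ → X)
    (lam : ℕ → ℕ → Option (Fin L.K)) (U : ℕ → ℕ → ℕ → Z) {a i : ℕ} {j : J} {s : Fin L.K}
    (ha : (Encodable.decode a : Option (ℕ × J)) = some (i, j)) (hj : D.src j = some s) :
    AsgEx_V D F lam U a = vst F lam U i (D.cond j) s := by
  classical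
  funext e t
  rw [Bool.eq_iff_iff, AsgEx_vst_iff]
  unfold AsgEx_V
  rw [ha]
  simp only [decide_eq_true_iff, List.mem_range]
  constructor
  · rintro ⟨u, hu, s', hs', h1, h2, h3⟩
    rw [hj] at hs'
    obtain rfl := Option.some.inj hs'
    exact ⟨u, by omega, h1, h2, h3⟩
  · rintro ⟨u, hu, h1, h2, h3⟩
    exact ⟨u, by omega, s, hj, h1, h2, h3⟩

theorem AsgEx_V_prim (D : Jobs L I S h Z J) {F : ℕ → ℕ → X} (hF : Primrec₂ F)
    {lam : ℕ → ℕ → Option (Fin L.K)} (hlam : Primrec₂ lam) {U : ℕ → ℕ → ℕ → Z}
    (hU : Primrec fun p : ℕ × ℕ × ℕ => U p.1 p.2.1 p.2.2) :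
    Primrec fun p : ℕ × ℕ × ℕ => AsgEx_V D F lam U p.1 p.2.1 p.2.2 := by
  classical
  let Q : J × Option (Fin L.K) × X × Z → Bool := fun q =>
    decide (∃ s, D.src q.1 = some s ∧ q.2.1 = some s ∧ q.2.2.1 = L.lab s ∧
      D.cond q.1 q.2.2.2)
  have hQ : Primrec Q := Primrec.dom_finite _
  -- the relation
  have h1 : PrimrecRel fun (u : ℕ) (q : (ℕ × J) × ℕ) =>
      Q (q.1.2, lam q.2 u, F q.2 u, U q.1.1 q.2 u) = true := by
    have h2 : Primrec fun r : ℕ × ((ℕ × J) × ℕ) =>
        Q (r.2.1.2, lam r.2.2 r.1, F r.2.2 r.1, U r.2.1.1 r.2.2 r.1) := by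
      refine hQ.comp (Primrec.pair ?_ (Primrec.pair ?_ (Primrec.pair ?_ ?_)))
      · exact Primrec.snd.comp (Primrec.fst.comp Primrec.snd)
      · exact hlam.comp (Primrec.snd.comp Primrec.snd) Primrec.fst
      · exact hF.comp (Primrec.snd.comp Primrec.snd) Primrec.fst
      · exact hU.comp (Primrec.pair (Primrec.fst.comp (Primrec.fst.comp Primrec.snd))
          (Primrec.pair (Primrec.snd.comp Primrec.snd) Primrec.fst))
    exact PrimrecRel.comp Primrec.eq h2 (Primrec.const true)
  have h3 := h1.exists_mem_list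
  have h4 : Primrec₂ fun (p : ℕ × ℕ × ℕ) (q : ℕ × J) =>
      decide (∃ u ∈ List.range (p.2.2 + 1), ∃ s, D.src q.2 = some s ∧
        lam p.2.1 u = some s ∧ F p.2.1 u = L.lab s ∧ D.cond q.2 (U q.1 p.2.1 u)) := by
    have h5 : PrimrecPred fun r : (ℕ × ℕ × ℕ) × (ℕ × J) =>
        ∃ u ∈ List.range (r.1.2.2 + 1),
          Q (r.2.2, lam r.1.2.1 u, F r.1.2.1 u, U r.2.1 r.1.2.1 u) = true :=
      PrimrecRel.comp h3 (Primrec.list_range.comp
        (Primrec.succ.comp (Primrec.snd.comp (Primrec.snd.comp Primrec.fst))))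
        (Primrec.pair Primrec.snd (Primrec.fst.comp (Primrec.snd.comp Primrec.fst)))
    have h6 : PrimrecPred fun r : (ℕ × ℕ × ℕ) × (ℕ × J) =>
        ∃ u ∈ List.range (r.1.2.2 + 1), ∃ s, D.src r.2.2 = some s ∧
        lam r.1.2.1 u = some s ∧ F r.1.2.1 u = L.lab s ∧
        D.cond r.2.2 (U r.2.1 r.1.2.1 u) := by
      refine h5.of_eq fun r => ?_
      simp only [Q, decide_eq_true_iff]
    refine (h6.decide).of_eq fun r => ?_
    exact congrArg (fun i => @decide _ i) (Subsingleton.elim _ _)
  have h7 := Primrec.option_casesOn (o := fun p : ℕ × ℕ × ℕ =>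
    (Encodable.decode p.1 : Option (ℕ × J))) (f := fun _ => false)
    (Primrec.decode.comp Primrec.fst) (Primrec.const false) h4
  exact h7

/-- The streams at the roots. -/
theorem AsgEx_atC (D : Jobs L I S h Z J) {F : ℕ → ℕ → X} (hF : Primrec₂ F)
    {lam : ℕ → ℕ → Option (Fin L.K)} (hlam : Primrec₂ lam) {U : ℕ → ℕ → ℕ → Z}
    (hU : Primrec fun p : ℕ × ℕ × ℕ => U p.1 p.2.1 p.2.2) {i : ℕ} {j : J} {s : Fin L.K}
    (hj : D.src j = some s) : L.AtC F lam (vst F lam U i (D.cond j) s) s := by
  have ha : (Encodable.decode (Encodable.encode (i, j)) : Option (ℕ × J)) = some (i, j) :=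
    Encodable.encodek _
  refine ⟨⟨?_, ?_⟩, ?_⟩
  · rw [← AsgEx_V_eq D F lam U ha hj]
    exact (AsgEx_V_prim D hF hlam hU).comp (Primrec.pair (Primrec.const _)
      (Primrec.pair Primrec.fst Primrec.snd))
  · intro e t t' htt
    rw [Bool.le_iff_imp, AsgEx_vst_iff, AsgEx_vst_iff]
    rintro ⟨u, hu, h1⟩
    exact ⟨u, hu.trans htt, h1⟩
  · rintro e t ⟨h1, h2⟩
    rw [AsgEx_vst_iff] at h1
    obtain ⟨u, hu, h3, h4, h5⟩ := h1
    rcases hu.lt_or_eq with hlt | rfl
    · have h6 := h2 u hlt
      have h7 : vst F lam U i (D.cond j) s e u = true :=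
        AsgEx_vst_iff.2 ⟨u, le_rfl, h3, h4, h5⟩
      rw [h6] at h7
      exact absurd h7 (by simp)
    · exact ⟨h3, h4⟩

open Classical in
/-- The leaf jobs. -/
noncomputable def AsgEx_leaf (D : Jobs L I S h Z J)
    (lam : ℕ → ℕ → Option (Fin L.K)) (kn : ℕ → ℕ → Option (Option (Fin L.K × ℕ)))
    (e t : ℕ) : Option (ℕ × J) :=
  (kn e t).bind fun o => o.bind fun q => (Encodable.decode q.2 : Option (ℕ × J)).bind fun p =>
    if D.src p.2 = none ∧ D.nd p.2 = q.1 ∧ lam e t = some q.1 then some p else none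

omit [Finite X] [Primcodable X] [Finite Z] [Primcodable Z] [Finite J] in
theorem AsgEx_leaf_iff (D : Jobs L I S h Z J) {lam : ℕ → ℕ → Option (Fin L.K)}
    {kn : ℕ → ℕ → Option (Option (Fin L.K × ℕ))} {e t : ℕ} {p : ℕ × J} :
    AsgEx_leaf D lam kn e t = some p ↔ ∃ v m, kn e t = some (some (v, m)) ∧
      (Encodable.decode m : Option (ℕ × J)) = some p ∧ D.src p.2 = none ∧ D.nd p.2 = v ∧
      lam e t = some v := by
  unfold AsgEx_leaf
  simp only [Option.bind_eq_some_iff]
  constructor
  · rintro ⟨o, ho, ⟨v, m⟩, rfl, q, hq, h1⟩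
    split_ifs at h1 with h2
    obtain rfl := Option.some.inj h1
    exact ⟨v, m, ho, hq, h2.1, h2.2.1, h2.2.2⟩
  · rintro ⟨v, m, h1, h2, h3, h4, h5⟩
    exact ⟨_, h1, (v, m), rfl, p, h2, if_pos ⟨h3, h4, h5⟩⟩

omit [Finite X] [Primcodable X] [Finite Z] [Primcodable Z] in
theorem AsgEx_leaf_prim (D : Jobs L I S h Z J) {lam : ℕ → ℕ → Option (Fin L.K)}
    (hlam : Primrec₂ lam) {kn : ℕ → ℕ → Option (Option (Fin L.K × ℕ))} (hkn : Primrec₂ kn) :
    Primrec₂ (AsgEx_leaf D lam kn) := by
  classical
  unfold AsgEx_leaf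
  refine Primrec.option_bind hkn ?_
  refine Primrec.option_bind Primrec.snd ?_
  refine Primrec.option_bind (Primrec.decode.comp (Primrec.snd.comp Primrec.snd)) ?_
  let Q : J × Fin L.K × Option (Fin L.K) → Bool := fun q =>
    decide (D.src q.1 = none ∧ D.nd q.1 = q.2.1 ∧ q.2.2 = some q.2.1)
  have hQ : Primrec Q := Primrec.dom_finite _
  have h1 : Primrec fun r : (((ℕ × ℕ) × Option (Fin L.K × ℕ)) × (Fin L.K × ℕ)) × (ℕ × J) =>
      Q (r.2.2, r.1.2.1, lam r.1.1.1.1 r.1.1.1.2) := by
    refine hQ.comp (Primrec.pair (Primrec.snd.comp Primrec.snd) (Primrec.pair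
      (Primrec.fst.comp (Primrec.snd.comp Primrec.fst)) ?_))
    exact hlam.comp (Primrec.fst.comp (Primrec.fst.comp (Primrec.fst.comp Primrec.fst)))
      (Primrec.snd.comp (Primrec.fst.comp (Primrec.fst.comp Primrec.fst)))
  have h2 := Primrec.cond h1 (Primrec.option_some.comp Primrec.snd)
    (Primrec.const (none : Option (ℕ × J)))
  refine h2.of_eq fun r => ?_
  by_cases h3 : D.src r.2.2 = none ∧ D.nd r.2.2 = r.1.2.1 ∧
      lam r.1.1.1.1 r.1.1.1.2 = some r.1.2.1
  · have h4 : Q (r.2.2, r.1.2.1, lam r.1.1.1.1 r.1.1.1.2) = true := decide_eq_true h3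
    rw [h4]
    exact (if_pos h3).symm
  · have h4 : Q (r.2.2, r.1.2.1, lam r.1.1.1.1 r.1.1.1.2) = false := decide_eq_false h3
    rw [h4]
    exact (if_neg h3).symm

end aux

theorem exists_asg {X Y Z J : Type} [PartialOrder X] [Finite X] [Primcodable X] [PartialOrder Y]
    [PartialOrder Z] [Finite Z] [Primcodable Z] [Finite J] [Primcodable J] {L : TSys X}
    {I : Set (X × Y)} {S : Finset (Fin L.K)} {h : Fin L.K → Y} (D : Jobs L I S h Z J)
    {F : ℕ → ℕ → X} (hF : IsAp F) {f : ℕ → X} (hf : Lim F f) (hS : L.HRed S)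
    (hex : L.Exact F allSt S) {U : ℕ → ℕ → ℕ → Z}
    (hU : Primrec fun p : ℕ × ℕ × ℕ => U p.1 p.2.1 p.2.2) (hU' : ∀ i e, Monotone (U i e)) :
    ∃ (lam : ℕ → ℕ → Option (Fin L.K)) (asg : ℕ → ℕ → Option (ℕ × J)),
      L.IsLab F allSt S lam ∧ {e | ¬ L.Corr F lam e}.Finite ∧ IsAsg D lam U asg ∧
      (∀ i j, D.src j = none → {e | ∃ t, asg e t = some (i, j)}.Infinite) ∧
      (∀ i j s, D.src j = some s → L.AtC F lam (vst F lam U i (D.cond j) s) s ∧
        (L.Exact F (vst F lam U i (D.cond j) s) {s} →
          ∃ V, L.AtC F lam V (D.nd j) ∧ L.Exact F V {D.nd j} ∧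
            ∀ e t, Enter V e t → ∃ u, t = u + 1 ∧ asg e u = none ∧ asg e t = some (i, j))) ∧
      ∀ e t s, s ∈ S → (L.ch s).Nonempty → lam e t = some s → asg e t = none := by
  classical
  have _ := hU'
  obtain ⟨lam, kn, hlam, hcor, hknp, hkn0, hkns, hknl, hknf, hkni⟩ :=
    exists_free hF hf hS hex
  refine ⟨lam, ?_⟩
  -- the requirements
  obtain ⟨so, hso⟩ : ∃ so : ℕ → Option (Fin L.K), so = fun a =>
    (Encodable.decode a : Option (ℕ × J)).bind fun p => D.src p.2 := ⟨_, rfl⟩
  have hsop : Primrec so := by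
    rw [hso]
    exact Primrec.option_bind Primrec.decode
      ((Primrec.dom_finite D.src).comp (Primrec.snd.comp Primrec.snd))
  obtain ⟨co, hco⟩ : ∃ co : ℕ → Option (Fin L.K), co = fun a =>
    (Encodable.decode a : Option (ℕ × J)).bind fun p => some (D.nd p.2) := ⟨_, rfl⟩
  have hcop : Primrec co := by
    rw [hco]
    exact Primrec.option_bind Primrec.decode
      (Primrec.option_some.comp
        ((Primrec.dom_finite D.nd).comp (Primrec.snd.comp Primrec.snd)))
  -- allocation
  obtain ⟨al, halp, hal0, hals, hal1, hal2⟩ : ∃ al : ℕ → ℕ → Option ℕ, Primrec₂ al ∧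
      (∀ e, al e 0 = none) ∧ (∀ e t a, al e t = some a → al e (t + 1) = some a) ∧
      (∀ e t a, al e t = none → al e (t + 1) = some a → ∃ i j s,
        (Encodable.decode a : Option (ℕ × J)) = some (i, j) ∧ D.src j = some s ∧
        lam e t = some s ∧ lam e (t + 1) = some (D.nd j) ∧
        vst F lam U i (D.cond j) s e t = true) ∧
      ∀ a i j s, (Encodable.decode a : Option (ℕ × J)) = some (i, j) → D.src j = some s →
        L.Exact F (vst F lam U i (D.cond j) s) {s} →
        L.AtC F lam (fun e t => decide (al e t = some a)) (D.nd j) ∧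
        L.Exact F (fun e t => decide (al e t = some a)) {D.nd j} := by
    rcases isEmpty_or_nonempty (Fin L.K) with hK | ⟨⟨v₀⟩⟩
    · refine ⟨fun _ _ => none, Primrec₂.const none, fun _ => rfl, fun e t a h1 => ?_,
        fun e t a _ h1 => ?_, fun a i j s _ _ _ => hK.elim s⟩
      · exact absurd h1 (by simp)
      · exact absurd h1 (by simp)
    · have hdec : ∀ a, (so a).isSome = true → ∃ i j s,
          (Encodable.decode a : Option (ℕ × J)) = some (i, j) ∧ D.src j = some s := by
        intro a ha
        obtain ⟨s, hs⟩ := Option.isSome_iff_exists.1 ha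
        rw [hso] at hs
        simp only [Option.bind_eq_some_iff] at hs
        obtain ⟨⟨i, j⟩, h1, h2⟩ := hs
        exact ⟨i, j, s, h1, h2⟩
      have hval : ∀ a i j s, (Encodable.decode a : Option (ℕ × J)) = some (i, j) →
          D.src j = some s → (so a).isSome = true ∧ (so a).getD v₀ = s ∧
            (co a).getD v₀ = D.nd j := by
        intro a i j s h1 h2
        have h3 : so a = some s := by
          rw [hso]
          simp only [h1, Option.bind_some, h2]
        have h4 : co a = some (D.nd j) := by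
          rw [hco]
          simp only [h1, Option.bind_some]
        rw [h3, h4]
        exact ⟨rfl, rfl, rfl⟩
      obtain ⟨al, h1, h2, h3, h4, h5⟩ := thmP hF hlam hcor hS
        (act := fun a => (so a).isSome)
        ((Primrec.dom_finite fun o : Option (Fin L.K) => o.isSome).comp hsop)
        (s := fun a => (so a).getD v₀)
        ((Primrec.dom_finite fun o : Option (Fin L.K) => o.getD v₀).comp hsop)
        (c := fun a => (co a).getD v₀)
        ((Primrec.dom_finite fun o : Option (Fin L.K) => o.getD v₀).comp hcop)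
        (fun a ha => by
          obtain ⟨i, j, s, h1, h2⟩ := hdec a ha
          rw [(hval a i j s h1 h2).2.1]
          exact (D.src_some j s h2).1)
        (fun a ha => by
          obtain ⟨i, j, s, h1, h2⟩ := hdec a ha
          rw [(hval a i j s h1 h2).2.1, (hval a i j s h1 h2).2.2]
          exact (D.src_some j s h2).2.1)
        (V := AsgEx_V D F lam U) (AsgEx_V_prim D hF.prim hlam.prim hU)
        (fun a ha => by
          obtain ⟨i, j, s, h1, h2⟩ := hdec a ha
          rw [(hval a i j s h1 h2).2.1, AsgEx_V_eq D F lam U h1 h2]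
          exact AsgEx_atC D hF.prim hlam.prim hU h2)
      refine ⟨al, h1, h2, h3, fun e t a h6 h7 => ?_, fun a i j s h6 h7 h8 => ?_⟩
      · obtain ⟨h8, h9, h10, h11⟩ := h4 e t a h6 h7
        obtain ⟨i, j, s, h12, h13⟩ := hdec a h8
        rw [(hval a i j s h12 h13).2.1] at h9
        rw [(hval a i j s h12 h13).2.2] at h10
        rw [AsgEx_V_eq D F lam U h12 h13] at h11
        exact ⟨i, j, s, h12, h13, h9, h10, h11⟩
      · obtain ⟨h9, h10, h11⟩ := hval a i j s h6 h7
        have h12 := h5 a h9
        rw [h10, h11, AsgEx_V_eq D F lam U h6 h7] at h12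
        exact h12 h8
  -- the start of an allocation
  have hstart : ∀ e t a, al e t = some a → ∃ u i j s, u < t ∧ al e u = none ∧
      al e (u + 1) = some a ∧ (Encodable.decode a : Option (ℕ × J)) = some (i, j) ∧
      D.src j = some s ∧ lam e u = some s ∧ lam e (u + 1) = some (D.nd j) := by
    intro e t a h1
    induction t with
    | zero =>
      rw [hal0] at h1
      exact absurd h1 (by simp)
    | succ t ih =>
      cases h2 : al e t with
      | none =>
        obtain ⟨i, j, s, h3, h4, h5, h6, h7⟩ := hal1 e t a h2 h1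
        exact ⟨t, i, j, s, Nat.lt_succ_self t, h2, h1, h3, h4, h5, h6⟩
      | some a' =>
        have h3 := hals e t a' h2
        rw [h1] at h3
        obtain rfl := Option.some.inj h3
        obtain ⟨u, i, j, s, h4, h5⟩ := ih h2
        exact ⟨u, i, j, s, h4.trans (Nat.lt_succ_self t), h5⟩
  have hne : ∀ j s, D.src j = some s → D.nd j ≠ s := by
    intro j s h1 h2
    have h3 := L.lt_ch s _ (D.src_some j s h1).2.1
    rw [h2] at h3
    exact lt_irrefl _ h3
  have hfree : ∀ e t v m u, kn e t = some (some (v, m)) → al e u = none := by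
    intro e t v m u h1
    cases h2 : al e u with
    | none => rfl
    | some a =>
      exfalso
      obtain ⟨u', i, j, s, -, -, -, -, h7, h8, h9⟩ := hstart e u a h2
      have h10 := (hknf e t v m h1).2.2
      have h11 := h10 u' s h8
      have h12 := h10 (u' + 1) _ h9
      exact hne j s h7 (h12.trans h11.symm)
  -- the assignment
  obtain ⟨asg, hasg⟩ : ∃ asg : ℕ → ℕ → Option (ℕ × J), asg = fun e t =>
    Option.casesOn (motive := fun _ => Option (ℕ × J)) (al e t) (AsgEx_leaf D lam kn e t)
      fun a => Encodable.decode a := ⟨_, rfl⟩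
  have asg1 : ∀ e t a, al e t = some a → asg e t = Encodable.decode a := by
    intro e t a h1
    rw [hasg]
    simp only [h1]
  have asg2 : ∀ e t, al e t = none → asg e t = AsgEx_leaf D lam kn e t := by
    intro e t h1
    rw [hasg]
    simp only [h1]
  have haln : ∀ e t, al e (t + 1) = none → al e t = none := by
    intro e t h1
    cases h2 : al e t with
    | none => rfl
    | some a =>
      rw [hals e t a h2] at h1
      exact absurd h1 (by simp)
  have hIs : IsAsg D lam U asg := by
    refine ⟨?_, ?_, ?_, ?_⟩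
    · rw [hasg]
      exact Primrec.option_casesOn halp (AsgEx_leaf_prim D hlam.prim hknp)
        (Primrec.decode.comp Primrec.snd)
    · intro e
      rw [asg2 e 0 (hal0 e)]
      cases h1 : AsgEx_leaf D lam kn e 0 with
      | none => rfl
      | some p =>
        obtain ⟨v, m, h2, -⟩ := (AsgEx_leaf_iff D).1 h1
        rw [hkn0] at h2
        exact absurd h2 (by simp)
    · intro e t p h1
      cases h2 : al e t with
      | some a =>
        rw [asg1 e (t + 1) a (hals e t a h2), ← h1, asg1 e t a h2]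
      | none =>
        rw [asg2 e t h2] at h1
        obtain ⟨v, m, h3, h4, h5, h6, h7⟩ := (AsgEx_leaf_iff D).1 h1
        rw [asg2 e (t + 1) (hfree e t v m _ h3)]
        refine (AsgEx_leaf_iff D).2 ⟨v, m, hkns e t _ h3, h4, h5, h6, ?_⟩
        obtain ⟨w, hw, -⟩ := hlam.later (Nat.le_succ t) h7
        rw [hw, (hknf e t v m h3).2.2 (t + 1) w hw]
    · intro e t i j h1 h2
      cases h3 : al e (t + 1) with
      | some a =>
        have h4 : al e t = none := by
          cases h5 : al e t with
          | none => rfl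
          | some a' =>
            have h6 := hals e t a' h5
            rw [h3] at h6
            obtain rfl := Option.some.inj h6
            rw [asg1 e t a h5] at h1
            rw [asg1 e (t + 1) a h3, h1] at h2
            exact absurd h2 (by simp)
        obtain ⟨i', j', s, h5, h6, h7, h8, h9⟩ := hal1 e t a h4 h3
        rw [asg1 e (t + 1) a h3, h5] at h2
        have h10 := Option.some.inj h2
        rw [Prod.mk.injEq] at h10
        obtain ⟨rfl, rfl⟩ := h10
        obtain ⟨u, hu, -, -, h11⟩ := AsgEx_vst_iff.1 h9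
        exact ⟨h7.trans h6.symm, h8, u, hu, h11⟩
      | none =>
        have h4 := haln e t h3
        rw [asg2 e (t + 1) h3] at h2
        obtain ⟨v, m, h5, h6, h7, h8, h9⟩ := (AsgEx_leaf_iff D).1 h2
        refine ⟨?_, ?_, 0, Nat.zero_le t, D.cond_none j _ h7⟩
        · rw [show D.src j = none from h7]
          cases h10 : lam e t with
          | none => rfl
          | some w =>
            exfalso
            obtain ⟨k, hk⟩ := hknl e t w h10
            have h11 := hkns e t k hk
            rw [h5] at h11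
            obtain rfl := Option.some.inj h11
            have h12 := (hknf e t v m hk).2.2 t w h10
            rw [h12] at h10
            have h13 := (AsgEx_leaf_iff D).2 ⟨v, m, hk, h6, h7, h8, h10⟩
            rw [← asg2 e t h4, h1] at h13
            exact absurd h13 (by simp)
        · rw [h9]
          exact congrArg some h8.symm
  refine ⟨asg, hlam, hcor, hIs, ?_, ?_, ?_⟩
  · -- leaf jobs
    intro i j hj
    obtain ⟨h1, h2⟩ := D.src_none j hj
    have h3 := (hkni (D.nd j) h1 h2 (Encodable.encode (i, j))).sdiff hcor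
    refine h3.mono ?_
    rintro e ⟨⟨t, ht⟩, he⟩
    have he' : L.Corr F lam e := by
      by_contra h4
      exact he h4
    obtain ⟨w, t', hw⟩ := he'
    have hkt : ∀ u, t ≤ u → kn e u = some (some (D.nd j, Encodable.encode (i, j))) := by
      intro u hu
      induction u, hu using Nat.le_induction with
      | base => exact ht
      | succ u _ ih => exact hkns e u _ ih
    have h5 := (hw (max t t') (le_max_right _ _)).1
    have h6 := (hknf e t _ _ ht).2.2 _ w h5
    refine ⟨max t t', ?_⟩
    rw [asg2 e _ (hfree e t _ _ _ ht)]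
    refine (AsgEx_leaf_iff D).2 ⟨D.nd j, _, hkt _ (le_max_left _ _), Encodable.encodek _, hj,
      rfl, ?_⟩
    rw [h5, h6]
  · -- root jobs
    intro i j s hj
    refine ⟨AsgEx_atC D hF.prim hlam.prim hU hj, fun h1 => ?_⟩
    obtain ⟨h2, h3⟩ := hal2 _ i j s (Encodable.encodek (i, j)) hj h1
    refine ⟨_, h2, h3, ?_⟩
    rintro e t ⟨h4, h5⟩
    rw [decide_eq_true_iff] at h4
    obtain ⟨u, i', j', s', h6, h7, h8, h9, h10, h11, h12⟩ := hstart e t _ h4
    have h13 : t = u + 1 := by
      by_contra h14
      have h15 := h5 (u + 1) (by omega)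
      rw [decide_eq_false_iff_not] at h15
      exact h15 h8
    subst h13
    refine ⟨u, rfl, ?_, ?_⟩
    · rw [asg2 e u h7]
      cases h14 : AsgEx_leaf D lam kn e u with
      | none => rfl
      | some p =>
        obtain ⟨v, m, h15, -⟩ := (AsgEx_leaf_iff D).1 h14
        rw [hfree e u v m (u + 1) h15] at h8
        exact absurd h8 (by simp)
    · rw [asg1 e (u + 1) _ h8]
      exact Encodable.encodek (i, j)
  · -- no assignment at the roots
    intro e t s hs hch hl
    cases h1 : asg e t with
    | none => rfl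
    | some p =>
      exfalso
      have key : ∀ t p, asg e t = some p → ∃ u, u + 1 ≤ t ∧ asg e u = none ∧
          asg e (u + 1) = some p := by
        intro t
        induction t with
        | zero =>
          intro p h2
          rw [hIs.zero] at h2
          exact absurd h2 (by simp)
        | succ t ih =>
          intro p h2
          cases h3 : asg e t with
          | none => exact ⟨t, le_rfl, h3, h2⟩
          | some p' =>
            have h4 := hIs.pers e t p' h3
            rw [h2] at h4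
            obtain rfl := Option.some.inj h4
            obtain ⟨u, hu, h5⟩ := ih p h3
            exact ⟨u, by omega, h5⟩
      obtain ⟨u, hu, h2, h3⟩ := key t p h1
      obtain ⟨i, j⟩ := p
      obtain ⟨h4, h5, -⟩ := hIs.start e u i j h2 h3
      obtain ⟨w, hw, h6⟩ := hlam.later hu h5
      rw [hl] at hw
      obtain rfl := Option.some.inj hw
      cases h7 : D.src j with
      | none =>
        obtain ⟨h8, h9⟩ := D.src_none j h7
        rcases h6 with h6 | h6
        · rw [h6, h9] at hch
          exact absurd hch (by simp)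
        · obtain ⟨c, hc, -⟩ := Relation.TransGen.head'_iff.1 h6
          rw [h9] at hc
          exact absurd hc (by simp)
      | some s' =>
        obtain ⟨h8, h9, -⟩ := D.src_some j s' h7
        have h10 : L.Desc s' (D.nd j) := Desc.of_ch h9
        have h11 : L.Desc s' s := by
          rcases h6 with h6 | h6
          · rw [h6]
            exact h10
          · exact h10.trans h6
        exact Red.not_desc hS.1 h8 hs h11

end TSys

end Pool.Agent.Lib.MP_45c83f_lc
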