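import Pool.Agent.Lib.MP_45c83f_lc.Defs

set_option autoImplicit false

/-!
# Basic facts on r.e. sets and r.e. functions
-/

namespace Pool.Agent.Lib.MP_45c83f_lc

/-- Sets defined by one unbounded existential quantifier are r.e. -/
theorem RESet.of_exists {A : Set ℕ} {R : ℕ → ℕ → Prop} (hR : PrimrecRel R)
    (h : ∀ e, e ∈ A ↔ ∃ s, R e s) : RESet A := by
  classical
  have h1 : PrimrecRel fun e s : ℕ => ∃ t < s, R e t := by
    have h2 : PrimrecRel fun (t e : ℕ) => R e t := by
      have : PrimrecPred fun p : ℕ × ℕ => R p.2 p.1 :=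
        PrimrecPred.comp (p := fun p : ℕ × ℕ => R p.1 p.2) (f := fun p : ℕ × ℕ => (p.2, p.1))
          hR (Primrec.pair Primrec.snd Primrec.fst)
      exact this
    have h3 := h2.exists_lt
    have : PrimrecPred fun p : ℕ × ℕ => ∃ t < p.2, R p.1 t :=
      PrimrecPred.comp (p := fun p : ℕ × ℕ => ∃ t < p.1, R p.2 t)
        (f := fun p : ℕ × ℕ => (p.2, p.1)) h3 (Primrec.pair Primrec.snd Primrec.fst)
    exact this
  refine ⟨fun e s => decide (∃ t < s, R e t), ⟨h1.decide, ?_⟩, ?_⟩
  · intro e s t hst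
    rw [Bool.le_iff_imp]
    intro hs
    rw [decide_eq_true_iff] at hs ⊢
    obtain ⟨u, hu, hR⟩ := hs
    exact ⟨u, lt_of_lt_of_le hu hst, hR⟩
  · intro e
    rw [h]
    constructor
    · rintro ⟨s, hs⟩
      exact ⟨s + 1, by rw [decide_eq_true_iff]; exact ⟨s, Nat.lt_succ_self s, hs⟩⟩
    · rintro ⟨s, hs⟩
      rw [decide_eq_true_iff] at hs
      obtain ⟨u, -, hR⟩ := hs
      exact ⟨u, hR⟩

theorem IsAp.true_of_le {f : ℕ → ℕ → Bool} (hf : IsAp f) {e s t : ℕ} (hst : s ≤ t)
    (h : f e s = true) : f e t = true :=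
  (Bool.le_iff_imp.1 (hf.mono e hst)) h

/-- A monotone primitive recursive approximation of an r.e. set, with bounded elements. -/
theorem RESet.exists_bdd {A : Set ℕ} (hA : RESet A) : ∃ f : ℕ → ℕ → Bool, IsAp f ∧
    (∀ e s, f e s = true → e < s) ∧ ∀ e, e ∈ A ↔ ∃ s, f e s = true := by
  obtain ⟨f, hf, h⟩ := hA
  have hlt : Primrec₂ fun e s : ℕ => decide (e < s) := Primrec.nat_lt.decide
  refine ⟨fun e s => f e s && decide (e < s), ⟨Primrec.and.comp₂ hf.prim hlt, ?_⟩, ?_, ?_⟩
  · intro e s t hst
    rw [Bool.le_iff_imp]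
    intro hs
    simp only [Bool.and_eq_true, decide_eq_true_eq] at hs ⊢
    exact ⟨hf.true_of_le hst hs.1, lt_of_lt_of_le hs.2 hst⟩
  · intro e s hs
    simp only [Bool.and_eq_true, decide_eq_true_eq] at hs
    exact hs.2
  · intro e
    rw [h]
    constructor
    · rintro ⟨s, hs⟩
      refine ⟨max s (e + 1), ?_⟩
      simp only [Bool.and_eq_true, decide_eq_true_eq]
      exact ⟨hf.true_of_le (le_max_left _ _) hs, lt_of_lt_of_le (Nat.lt_succ_self e)
        (le_max_right _ _)⟩
    · rintro ⟨s, hs⟩
      simp only [Bool.and_eq_true, decide_eq_true_eq] at hs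
      exact ⟨s, hs.1⟩

theorem RESet.union {A B : Set ℕ} (hA : RESet A) (hB : RESet B) : RESet (A ∪ B) := by
  obtain ⟨f, hf, h⟩ := hA
  obtain ⟨g, hg, h'⟩ := hB
  refine ⟨fun e s => f e s || g e s, ⟨Primrec.or.comp₂ hf.prim hg.prim, ?_⟩, ?_⟩
  · intro e s t hst
    rw [Bool.le_iff_imp]
    intro hs
    simp only [Bool.or_eq_true] at hs ⊢
    exact hs.imp (hf.true_of_le hst) (hg.true_of_le hst)
  · intro e
    simp only [Set.mem_union, h, h', Bool.or_eq_true, exists_or]

theorem RESet.inter {A B : Set ℕ} (hA : RESet A) (hB : RESet B) : RESet (A ∩ B) := by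
  obtain ⟨f, hf, h⟩ := hA
  obtain ⟨g, hg, h'⟩ := hB
  refine ⟨fun e s => f e s && g e s, ⟨Primrec.and.comp₂ hf.prim hg.prim, ?_⟩, ?_⟩
  · intro e s t hst
    rw [Bool.le_iff_imp]
    intro hs
    simp only [Bool.and_eq_true] at hs ⊢
    exact ⟨hf.true_of_le hst hs.1, hg.true_of_le hst hs.2⟩
  · intro e
    simp only [Set.mem_inter_iff, h, h', Bool.and_eq_true]
    constructor
    · rintro ⟨⟨s, hs⟩, ⟨t, ht⟩⟩
      exact ⟨max s t, hf.true_of_le (le_max_left _ _) hs, hg.true_of_le (le_max_right _ _) ht⟩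
    · rintro ⟨s, hs, ht⟩
      exact ⟨⟨s, hs⟩, ⟨s, ht⟩⟩

theorem RESet.of_primrecPred {A : Set ℕ} (hA : PrimrecPred fun e => e ∈ A) : RESet A := by
  refine RESet.of_exists (R := fun e _ => e ∈ A) ?_ (fun e => by simp)
  have : PrimrecPred fun p : ℕ × ℕ => p.1 ∈ A :=
    PrimrecPred.comp (p := fun e : ℕ => e ∈ A) (f := fun p : ℕ × ℕ => p.1) hA Primrec.fst
  exact this

theorem primrecPred_mem_of_finite {A : Set ℕ} (hA : A.Finite) : PrimrecPred fun e => e ∈ A := by
  induction A, hA using Set.Finite.induction_on with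
  | empty => exact (PrimrecPred.of_eq (PrimrecPred.not (p := fun _ : ℕ => True)
      ⟨inferInstance, by simpa using Primrec.const true⟩) (by simp))
  | insert _ _ ih =>
    rename_i a s _ _
    have h1 : PrimrecPred fun e : ℕ => e = a :=
      PrimrecRel.comp Primrec.eq Primrec.id (Primrec.const a)
    exact (h1.or ih).of_eq (fun e => by simp)

theorem RESet.of_finite {A : Set ℕ} (hA : A.Finite) : RESet A :=
  RESet.of_primrecPred (primrecPred_mem_of_finite hA)

theorem RESet.compl_of_finite {A : Set ℕ} (hA : A.Finite) : RESet Aᶜ :=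
  RESet.of_primrecPred ((primrecPred_mem_of_finite hA).not.of_eq (fun e => by simp))

theorem RESet.biUnion {ι : Type} (C : Finset ι) {A : ι → Set ℕ} (hA : ∀ i ∈ C, RESet (A i)) :
    RESet (⋃ i ∈ C, A i) := by
  classical
  induction C using Finset.induction_on with
  | empty => simpa using RESet.of_finite (Set.finite_empty)
  | insert a s has ih =>
    rw [Finset.set_biUnion_insert]
    exact (hA a (Finset.mem_insert_self _ _)).union
      (ih (fun i hi => hA i (Finset.mem_insert_of_mem hi)))

theorem RESet.biInter {ι : Type} (C : Finset ι) {A : ι → Set ℕ} (hA : ∀ i ∈ C, RESet (A i)) :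
    RESet (⋂ i ∈ C, A i) := by
  classical
  induction C using Finset.induction_on with
  | empty => simpa using RESet.compl_of_finite (Set.finite_empty)
  | insert a s has ih =>
    rw [Finset.set_biInter_insert]
    exact (hA a (Finset.mem_insert_self _ _)).inter
      (ih (fun i hi => hA i (Finset.mem_insert_of_mem hi)))

/-- Finite changes of r.e. sets are r.e. -/
theorem RESet.change {A B : Set ℕ} (hA : RESet A) (h : (symmDiff A B).Finite) : RESet B := by
  have h1 : B = (A ∩ (symmDiff A B)ᶜ) ∪ (B ∩ symmDiff A B) := by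
    ext e
    simp only [Set.mem_union, Set.mem_inter_iff, Set.mem_compl_iff, Set.mem_symmDiff]
    tauto
  rw [h1]
  exact (hA.inter (RESet.compl_of_finite h)).union
    (RESet.of_finite (h.subset Set.inter_subset_right))

/-- The union over all rows of a primitive recursive family. -/
theorem RESet.preimage {A : Set ℕ} (hA : RESet A) {φ : ℕ → ℕ} (hφ : Primrec φ) :
    RESet (φ ⁻¹' A) := by
  obtain ⟨f, hf, h⟩ := hA
  refine ⟨fun e s => f (φ e) s, ⟨?_, fun e => hf.mono (φ e)⟩, fun e => h (φ e)⟩
  exact Primrec₂.comp hf.prim (hφ.comp Primrec.fst) Primrec.snd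

/-- The image of an r.e. set under a primitive recursive function. -/
theorem RESet.image {A : Set ℕ} (hA : RESet A) {φ : ℕ → ℕ} (hφ : Primrec φ) :
    RESet (φ '' A) := by
  obtain ⟨f, hf, h⟩ := hA
  refine RESet.of_exists (R := fun y p => φ p.unpair.1 = y ∧ f p.unpair.1 p.unpair.2 = true)
    ?_ ?_
  · have h1 : PrimrecPred fun q : ℕ × ℕ => φ q.2.unpair.1 = q.1 :=
      PrimrecRel.comp Primrec.eq
        (hφ.comp (Primrec.fst.comp (Primrec.unpair.comp Primrec.snd))) Primrec.fst
    have h2 : PrimrecPred fun q : ℕ × ℕ => f q.2.unpair.1 q.2.unpair.2 = true := by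
      refine PrimrecRel.comp Primrec.eq ?_ (Primrec.const true)
      exact Primrec₂.comp hf.prim (Primrec.fst.comp (Primrec.unpair.comp Primrec.snd))
        (Primrec.snd.comp (Primrec.unpair.comp Primrec.snd))
    exact h1.and h2
  · intro y
    constructor
    · rintro ⟨x, hx, rfl⟩
      obtain ⟨s, hs⟩ := (h x).1 hx
      exact ⟨Nat.pair x s, by simp [hs]⟩
    · rintro ⟨p, hp1, hp2⟩
      exact ⟨p.unpair.1, (h _).2 ⟨_, hp2⟩, hp1⟩

/-- A set which is r.e. together with its complement has a primitive recursive approximation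
which decides it: at some stage `e` is known to be in `A` or known to be outside. -/
theorem Rec.compl {A : Set ℕ} (hA : Rec A) : Rec Aᶜ := ⟨hA.2, by rw [compl_compl]; exact hA.1⟩

/-- Disjoint r.e. sets with union a recursive set are recursive. -/
theorem Rec.of_disjoint_union {A B R : Set ℕ} (hA : RESet A) (hB : RESet B) (hR : Rec R)
    (hAB : Disjoint A B) (hu : A ∪ B = R) : Rec A := by
  refine ⟨hA, ?_⟩
  have : Aᶜ = B ∪ Rᶜ := by
    ext e
    have h1 : e ∈ A → e ∉ B := fun h h' => Set.disjoint_left.1 hAB h h'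
    have h2 : e ∈ R ↔ e ∈ A ∨ e ∈ B := by rw [← hu]; rfl
    simp only [Set.mem_compl_iff, Set.mem_union, h2]
    tauto
  rw [this]
  exact hB.union hR.2

section poset

variable {X : Type} [PartialOrder X] [Finite X] [Primcodable X]

/-- Monotone stage functions with values in a finite order have a limit. -/
theorem exists_lim {f : ℕ → ℕ → X} (hf : ∀ e, Monotone (f e)) : ∃ g : ℕ → X, Lim f g := by
  have h : ∀ e, ∃ x, ∃ s, ∀ t, s ≤ t → f e t = x := by
    intro e
    obtain ⟨m, hm⟩ := (Set.toFinite (Set.range (f e))).exists_maximal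
      (Set.range_nonempty (f e))
    obtain ⟨s, rfl⟩ := hm.1
    refine ⟨f e s, s, fun t hst => ?_⟩
    exact le_antisymm (hm.2 ⟨t, rfl⟩ (hf e hst)) (hf e hst)
  choose g hg using h
  exact ⟨g, hg⟩

/-- Finite changes of r.e. functions are r.e. -/
theorem RE.change {g g' : ℕ → X} (hg : RE g) (h : {e | g e ≠ g' e}.Finite) : RE g' := by
  classical
  -- a general statement: the approximation can be replaced on a finite set
  have key : ∀ F : Set ℕ, F.Finite → ∃ f : ℕ → ℕ → X, IsAp f ∧
      Lim f (fun e => if e ∈ F then g' e else g e) := by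
    intro F hF
    induction F, hF using Set.Finite.induction_on with
    | empty =>
      obtain ⟨f, hf, hl⟩ := hg
      exact ⟨f, hf, by simpa using hl⟩
    | insert _ _ ih =>
      rename_i a s _ _
      obtain ⟨f, hf, hl⟩ := ih
      refine ⟨fun e t => if e = a then g' a else f e t, ⟨?_, ?_⟩, ?_⟩
      · refine Primrec.ite (PrimrecRel.comp Primrec.eq Primrec.fst (Primrec.const a))
          (Primrec.const (g' a)) hf.prim
      · intro e
        by_cases hea : e = a
        · simp only [hea, if_true]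
          exact monotone_const
        · simp only [hea, if_false]
          exact hf.mono e
      · intro e
        by_cases hea : e = a
        · exact ⟨0, fun t _ => by simp [hea]⟩
        · obtain ⟨s0, hs0⟩ := hl e
          refine ⟨s0, fun t ht => ?_⟩
          simp only [hea, if_false, Set.mem_insert_iff, false_or]
          exact hs0 t ht
  obtain ⟨f, hf, hl⟩ := key _ h
  refine ⟨f, hf, fun e => ?_⟩
  obtain ⟨s, hs⟩ := hl e
  refine ⟨s, fun t ht => ?_⟩
  rw [hs t ht]
  by_cases he : g e = g' e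
  · simp [he]
  · simp [he]

theorem RE.reSet {g : ℕ → X} (hg : RE g) (η : X) : RESet {e | η ≤ g e} := by
  classical
  obtain ⟨f, hf, hl⟩ := hg
  have h1 : Primrec fun x : X => decide (η ≤ x) := Primrec.dom_finite _
  refine ⟨fun e s => decide (η ≤ f e s), ⟨h1.comp hf.prim, ?_⟩, ?_⟩
  · intro e s t hst
    rw [Bool.le_iff_imp]
    intro hs
    rw [decide_eq_true_iff] at hs ⊢
    exact hs.trans (hf.mono e hst)
  · intro e
    constructor
    · intro he
      obtain ⟨s, hs⟩ := hl e
      refine ⟨s, ?_⟩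
      rw [decide_eq_true_iff, hs s le_rfl]
      exact he
    · rintro ⟨s, hs⟩
      rw [decide_eq_true_iff] at hs
      obtain ⟨s0, hs0⟩ := hl e
      have h2 := hf.mono e (le_max_left s s0)
      rw [hs0 _ (le_max_right s s0)] at h2
      exact hs.trans h2

/-- The limit is an upper bound of the approximation. -/
theorem IsAp.le_lim {X : Type} [PartialOrder X] [Primcodable X] {f : ℕ → ℕ → X} {g : ℕ → X}
    (hf : IsAp f) (hl : Lim f g) (e s : ℕ) : f e s ≤ g e := by
  obtain ⟨s0, hs0⟩ := hl e
  have h2 := hf.mono e (le_max_left s s0)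
  rwa [hs0 _ (le_max_right s s0)] at h2

/-- A function is r.e. if all upper sets are r.e. -/
theorem RE.of_reSet [OrderBot X] {g : ℕ → X} (hg : ∀ η, RESet {e | η ≤ g e}) : RE g := by
  classical
  choose a ha hA using hg
  obtain ⟨n, ⟨b⟩⟩ := Finite.exists_equiv_fin X
  -- the new value, from the old one and the set of known lower bounds
  let G : X × (Fin n → Bool) → X := fun p =>
    if h : ∃ m : X, p.2 (b m) = true ∧ ∀ x : X, p.2 (b x) = true → x ≤ m then h.choose else p.1
  have hG : Primrec G := Primrec.dom_finite _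
  let v : ℕ → ℕ → (Fin n → Bool) := fun e s i => a (b.symm i) e s
  have hv : Primrec₂ v := by
    have : Primrec fun p : ℕ × ℕ => (fun i => a (b.symm i) p.1 p.2 : Fin n → Bool) := by
      rw [Primrec.fin_curry]
      have h2 : Primrec₂ fun (i : Fin n) (p : ℕ × ℕ) => a (b.symm i) p.1 p.2 :=
        Primrec.fin_curry₁.2 fun i => (ha (b.symm i)).prim
      exact h2.swap
    exact this
  let f : ℕ → ℕ → X := fun e s => Nat.rec ⊥ (fun t x => G (x, v e t)) s
  have hf0 : ∀ e, f e 0 = ⊥ := fun e => rfl
  have hfs : ∀ e s, f e (s + 1) = G (f e s, v e s) := fun e s => rfl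
  have hfp : Primrec₂ f := by
    refine Primrec.nat_rec (f := fun _ : ℕ => (⊥ : X))
      (g := fun (e : ℕ) (p : ℕ × X) => G (p.2, v e p.1)) (Primrec.const ⊥) ?_
    refine hG.comp (Primrec.pair (Primrec.snd.comp Primrec.snd) ?_)
    exact Primrec₂.comp hv Primrec.fst (Primrec.fst.comp Primrec.snd)
  -- `f e s` is the least element or a known lower bound
  have hval : ∀ e s, f e s = ⊥ ∨ v e s (b (f e s)) = true := by
    intro e s
    induction s with
    | zero => exact Or.inl (hf0 e)
    | succ s ih =>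
      rw [hfs]
      by_cases h : ∃ m : X, v e s (b m) = true ∧ ∀ x : X, v e s (b x) = true → x ≤ m
      · right
        have h1 : G (f e s, v e s) = h.choose := by
          simp only [G, dif_pos h]
        rw [h1]
        have h2 := h.choose_spec.1
        simp only [v, Equiv.symm_apply_apply] at h2 ⊢
        exact (ha _).true_of_le (Nat.le_succ s) h2
      · have h1 : G (f e s, v e s) = f e s := by
          simp only [G, dif_neg h]
        rw [h1]
        rcases ih with ih | ih
        · exact Or.inl ih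
        · right
          simp only [v, Equiv.symm_apply_apply] at ih ⊢
          exact (ha _).true_of_le (Nat.le_succ s) ih
  have hmono : ∀ e, Monotone (f e) := by
    intro e
    refine monotone_nat_of_le_succ fun s => ?_
    rw [hfs]
    by_cases h : ∃ m : X, v e s (b m) = true ∧ ∀ x : X, v e s (b x) = true → x ≤ m
    · have h1 : G (f e s, v e s) = h.choose := by
        simp only [G, dif_pos h]
      rw [h1]
      rcases hval e s with h2 | h2
      · rw [h2]; exact bot_le
      · exact h.choose_spec.2 _ h2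
    · have h1 : G (f e s, v e s) = f e s := by
        simp only [G, dif_neg h]
      rw [h1]
  refine ⟨f, ⟨hfp, hmono⟩, ?_⟩
  intro e
  -- at some stage `g e` is known
  obtain ⟨s0, hs0⟩ := (hA (g e) e).1 (show g e ≤ g e from le_rfl)
  have hstage : ∀ s, s0 ≤ s → f e (s + 1) = g e := by
    intro s hs
    rw [hfs]
    have hle : ∀ x : X, v e s (b x) = true → x ≤ g e := by
      intro x hx
      simp only [v, Equiv.symm_apply_apply] at hx
      exact (hA x e).2 ⟨s, hx⟩
    have hge : v e s (b (g e)) = true := by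
      simp only [v, Equiv.symm_apply_apply]
      exact (ha _).true_of_le hs hs0
    have h : ∃ m : X, v e s (b m) = true ∧ ∀ x : X, v e s (b x) = true → x ≤ m :=
      ⟨g e, hge, hle⟩
    have h1 : G (f e s, v e s) = h.choose := by
      simp only [G, dif_pos h]
    rw [h1]
    exact le_antisymm (hle _ h.choose_spec.1) (h.choose_spec.2 _ hge)
  refine ⟨s0 + 1, fun t ht => ?_⟩
  obtain ⟨u, rfl⟩ : ∃ u, t = u + 1 := ⟨t - 1, by omega⟩
  exact hstage u (by omega)

theorem RE.comp {X' : Type} [PartialOrder X'] [Primcodable X'] {φ : X → X'} (hφ : Monotone φ)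
    {g : ℕ → X} (hg : RE g) : RE fun e => φ (g e) := by
  obtain ⟨f, hf, hl⟩ := hg
  refine ⟨fun e s => φ (f e s), ⟨(Primrec.dom_finite φ).comp hf.prim,
    fun e s t hst => hφ (hf.mono e hst)⟩, ?_⟩
  intro e
  obtain ⟨s, hs⟩ := hl e
  exact ⟨s, fun t ht => congrArg φ (hs t ht)⟩

/-- The least stage value can be made the least element. -/
theorem RE.exists_bot [OrderBot X] {g : ℕ → X} (hg : RE g) : ∃ f : ℕ → ℕ → X, IsAp f ∧
    (∀ e, f e 0 = ⊥) ∧ Lim f g := by
  obtain ⟨f, hf, hl⟩ := hg
  refine ⟨fun e s => if s = 0 then ⊥ else f e s, ⟨?_, ?_⟩, ?_, ?_⟩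
  · exact Primrec.ite (PrimrecRel.comp Primrec.eq Primrec.snd (Primrec.const 0))
      (Primrec.const ⊥) hf.prim
  · intro e s t hst
    by_cases h : s = 0
    · simp [h]
    · have h' : t ≠ 0 := by omega
      simp only [h, h', if_false]
      exact hf.mono e hst
  · intro e
    simp
  · intro e
    obtain ⟨s, hs⟩ := hl e
    refine ⟨s + 1, fun t ht => ?_⟩
    have h' : t ≠ 0 := by omega
    simp only [h', if_false]
    exact hs t (by omega)

end poset

end Pool.Agent.Lib.MP_45c83f_lc
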