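import Pool.Agent.Lib.MP_45c83f_lc.Glue
import Pool.Agent.Lib.MP_45c83f_lc.TypesC

set_option autoImplicit false

/-!
# Labellings: Lemma B (text, 5.2)
-/

namespace Pool.Agent.Lib.MP_45c83f_lc

namespace TSys

/-- The first test of a list which is positive. -/
theorem LabB_find {k : ℕ} (P : Fin k → ℕ → ℕ → Bool) (hP : ∀ i, Primrec₂ (P i))
    (l : List (Fin k)) : Primrec₂ fun e t => l.find? fun i => P i e t := by
  induction l with
  | nil => exact Primrec₂.const none
  | cons a l ih =>
    have h1 : Primrec₂ fun e t => bif P a e t then some a else l.find? fun i => P i e t :=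
      Primrec.cond (hP a) (Primrec₂.const (some a)) ih
    refine h1.of_eq fun e t => ?_
    rw [List.find?_cons]
    cases P a e t <;> rfl

/-- A persistent decision function for finitely many tests. -/
theorem LabB_dec {k : ℕ} (P : Fin k → ℕ → ℕ → Bool) (hP : ∀ i, Primrec₂ (P i)) :
    ∃ d : ℕ → ℕ → Option (Fin k), Primrec₂ d ∧
      (∀ e t i, d e t = some i → d e (t + 1) = some i) ∧
      (∀ e t i, d e t = some i → ∃ u, u ≤ t ∧ P i e u = true) ∧
      ∀ e t i, P i e t = true → ∃ j, d e t = some j := by
  let f : ℕ → ℕ → Option (Fin k) := fun e t => (List.finRange k).find? fun i => P i e t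
  have hf : Primrec₂ f := LabB_find P hP _
  let d : ℕ → ℕ → Option (Fin k) := fun e t =>
    t.rec (motive := fun _ => Option (Fin k)) (f e 0) fun n IH =>
      bif IH.isNone then f e (n + 1) else IH
  have d0 : ∀ e, d e 0 = f e 0 := fun _ => rfl
  have d1 : ∀ e t : ℕ, d e (t + 1) = bif (d e t).isNone then f e (t + 1) else d e t :=
    fun _ _ => rfl
  have d2 : ∀ e t, d e t = none → d e (t + 1) = f e (t + 1) := by
    intro e t h
    rw [d1, h]
    rfl
  have d3 : ∀ e t i, d e t = some i → d e (t + 1) = some i := by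
    intro e t i h
    rw [d1, h]
    rfl
  have hfs : ∀ e t i, f e t = some i → P i e t = true := fun e t i h =>
    List.find?_some (p := fun i => P i e t) h
  refine ⟨d, ?_, d3, ?_, ?_⟩
  · refine Primrec.nat_rec (f := fun e => f e 0)
      (g := fun e p => bif p.2.isNone then f e (p.1 + 1) else p.2) ?_ ?_
    · exact hf.comp Primrec.id (Primrec.const 0)
    · refine Primrec.cond ?_ ?_ ?_
      · have h1 : Primrec fun o : Option (Fin k) => o.isNone := Primrec.dom_finite _
        exact h1.comp (Primrec.snd.comp Primrec.snd)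
      · exact hf.comp Primrec.fst (Primrec.succ.comp (Primrec.fst.comp Primrec.snd))
      · exact Primrec.snd.comp Primrec.snd
  · intro e t i h
    induction t with
    | zero => exact ⟨0, le_rfl, hfs e 0 i (by rw [← d0]; exact h)⟩
    | succ t ih =>
      cases hd : d e t with
      | none =>
        rw [d2 e t hd] at h
        exact ⟨t + 1, le_rfl, hfs e (t + 1) i h⟩
      | some j =>
        rw [d3 e t j hd] at h
        obtain ⟨u, hu, hu'⟩ := ih (by rw [hd]; exact h)
        exact ⟨u, Nat.le_succ_of_le hu, hu'⟩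
  · intro e t i h
    have hex : ∃ j, f e t = some j := by
      cases hft : f e t with
      | some j => exact ⟨j, rfl⟩
      | none =>
        exfalso
        have h1 := List.find?_eq_none.1 hft i (List.mem_finRange i)
        exact h1 h
    cases t with
    | zero => exact hex
    | succ t =>
      cases hd : d e t with
      | none =>
        rw [d2 e t hd]
        exact hex
      | some j => exact ⟨j, d3 e t j hd⟩

variable {X : Type} [PartialOrder X] [Finite X] [Primcodable X] {L : TSys X} {F : ℕ → ℕ → X}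
  {S : Finset (Fin L.K)} {lam : ℕ → ℕ → Option (Fin L.K)}

omit [Finite X] [Primcodable X] in
theorem LabB_desc_ne {c w : Fin L.K} (h : L.Desc c w) : w ≠ c := by
  rintro rfl
  exact lt_irrefl _ h.lab_lt

/-- After the entry the label is `c` or a descendant of `c`. -/
theorem LabB_later (hlam : L.IsLab F allSt S lam) {V : ℕ → ℕ → Bool} {c : Fin L.K}
    (hV : L.AtC F lam V c) {e t : ℕ} (h : V e t = true) :
    ∃ w, lam e t = some w ∧ (w = c ∨ L.Desc c w) := by
  classical
  have hex : ∃ u, V e u = true := ⟨t, h⟩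
  have hent : Enter V e (Nat.find hex) := by
    refine ⟨Nat.find_spec hex, fun u hu => ?_⟩
    have h1 := Nat.find_min hex hu
    cases hVu : V e u with
    | false => rfl
    | true => exact absurd hVu h1
  exact hlam.later (Nat.find_min' hex h) (hV.at_c e _ hent).1

omit [Finite X] [Primcodable X] in
/-- The label `c` at the entry. -/
theorem LabB_entry {V : ℕ → ℕ → Bool} {c : Fin L.K} (hV : L.AtC F lam V c) {e t : ℕ}
    (h : V e t = true) : ∃ u, u ≤ t ∧ V e u = true ∧ lam e u = some c := by
  classical
  have hex : ∃ u, V e u = true := ⟨t, h⟩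
  have hent : Enter V e (Nat.find hex) := by
    refine ⟨Nat.find_spec hex, fun u hu => ?_⟩
    have h1 := Nat.find_min hex hu
    cases hVu : V e u with
    | false => rfl
    | true => exact absurd hVu h1
  exact ⟨_, Nat.find_min' hex h, hent.1, (hV.at_c e _ hent).1⟩

open Classical in
/-- The labelling of the elements which have left `c`. -/
noncomputable def LabB_mu (lam : ℕ → ℕ → Option (Fin L.K)) (V : ℕ → ℕ → Bool) (c : Fin L.K)
    (e t : ℕ) : Option (Fin L.K) :=
  if V e t = true ∧ lam e t ≠ some c then lam e t else none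

omit [Finite X] [Primcodable X] in
theorem LabB_prim_ne (hlam : Primrec₂ lam) (c : Fin L.K) :
    Primrec₂ fun e t => decide (lam e t ≠ some c) := by
  have h1 : Primrec fun o : Option (Fin L.K) => decide (o ≠ some c) := Primrec.dom_finite _
  exact h1.comp₂ hlam

theorem LabB_isLab (hlam : L.IsLab F allSt S lam) {V : ℕ → ℕ → Bool} {c : Fin L.K}
    (hV : L.AtC F lam V c) : L.IsLab F V (L.ch c) (LabB_mu lam V c) := by
  refine ⟨?_, fun e => ?_, fun e t h => ?_, fun e t => ?_⟩
  · have h1 : Primrec₂ fun e t => bif (V e t && decide (lam e t ≠ some c)) then lam e t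
        else none :=
      Primrec.cond (Primrec.and.comp₂ hV.ap.prim (LabB_prim_ne hlam.prim c)) hlam.prim
        (Primrec₂.const none)
    refine h1.of_eq fun e t => ?_
    unfold LabB_mu
    by_cases h2 : V e t = true
    · by_cases h3 : lam e t = some c
      · simp [h3]
      · simp [h2, h3]
    · simp [h2]
  · unfold LabB_mu
    rw [hlam.zero]
    split_ifs <;> rfl
  · unfold LabB_mu
    rw [if_neg]
    rintro ⟨h1, _⟩
    rw [h] at h1
    exact Bool.noConfusion h1
  · by_cases h1 : V e (t + 1) = true ∧ lam e (t + 1) ≠ some c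
    · obtain ⟨h2, h3⟩ := h1
      have hmu1 : LabB_mu lam V c e (t + 1) = lam e (t + 1) := if_pos ⟨h2, h3⟩
      obtain ⟨s, hs, hVs, hls⟩ := LabB_entry hV h2
      have hst : s ≤ t := by
        rcases Nat.lt_or_ge t s with h4 | h4
        · exfalso
          have : s = t + 1 := by omega
          rw [this] at hls
          exact h3 hls
        · exact h4
      have hVt : V e t = true := hV.ap.true_of_le hst hVs
      obtain ⟨w, hw, hwc⟩ := LabB_later hlam hV hVt
      rcases hlam.step e t with h4 | ⟨v, h4, h5, h6, h7⟩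
      · left
        have hne : lam e t ≠ some c := by rw [← h4]; exact h3
        have hmu : LabB_mu lam V c e t = lam e t := if_pos ⟨hVt, hne⟩
        rw [hmu1, hmu, h4]
      · right
        refine ⟨v, by rw [hmu1, h4], h5, ?_, ?_⟩
        · intro u hu
          by_cases h8 : lam e t = some c
          · have hmu : LabB_mu lam V c e t = none := if_neg fun h9 => h9.2 h8
            rw [hmu] at hu
            cases hu
          · have hmu : LabB_mu lam V c e t = lam e t := if_pos ⟨hVt, h8⟩
            rw [hmu] at hu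
            exact h6 u hu
        · intro hn
          by_cases h8 : lam e t = some c
          · exact desc_iff_node.1 (h6 c h8)
          · have hmu : LabB_mu lam V c e t = lam e t := if_pos ⟨hVt, h8⟩
            rw [hmu, hw] at hn
            cases hn
    · left
      have hmu1 : LabB_mu lam V c e (t + 1) = none := if_neg h1
      have hmu : LabB_mu lam V c e t = none := by
        refine if_neg ?_
        rintro ⟨h2, h3⟩
        apply h1
        have h4 : V e (t + 1) = true := hV.ap.true_of_le (Nat.le_succ t) h2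
        refine ⟨h4, fun h5 => ?_⟩
        obtain ⟨w, hw, hwc⟩ := LabB_later hlam hV h2
        have hwne : w ≠ c := fun h6 => h3 (by rw [hw, h6])
        have hcw : L.Desc c w := hwc.resolve_left hwne
        obtain ⟨w', hw', h6⟩ := hlam.later (Nat.le_succ t) hw
        rw [Nat.succ_eq_add_one, h5] at hw'
        have h7 : w' = c := (Option.some.inj hw').symm
        rcases h6 with h6 | h6
        · exact hwne (by rw [← h6, h7])
        · exact LabB_desc_ne (hcw.trans h6) h7
      rw [hmu1, hmu]

/-- Lemma B. -/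
theorem lemB (hF : IsAp F) (hlam : L.IsLab F allSt S lam) (hcor : {e | ¬ L.Corr F lam e}.Finite)
    {V : ℕ → ℕ → Bool} {c : Fin L.K} (hV : L.AtC F lam V c) (hex : L.Exact F V {c})
    {ι : Type} [Fintype ι] (W : ι → ℕ → ℕ → Bool) (hW : ∀ i, L.AtC F lam (W i) c)
    (hsub : ∀ i e t, W i e t = true → V e t = true)
    (hcov : {e | In V e ∧ L.Last lam e c ∧ ∀ i, ¬ In (W i) e}.Finite) :
    ∃ i, L.Exact F (W i) {c} := by
  classical
  by_contra hcon
  have h1 : ∀ i, ∃ S', L.LtF S' {c} ∧ L.Bdd F (W i) S' := by
    intro i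
    by_contra h2
    apply hcon
    refine ⟨i, (hW i).bdd hF hlam hcor, fun S' h3 h4 => h2 ⟨S', h3, h4⟩⟩
  choose T hT hB using h1
  choose mu hmu hmc using hB
  let q : Fin (Fintype.card ι) ≃ ι := (Fintype.equivFin ι).symm
  -- the tests, the streams, the forests, the labellings
  let P : Fin (Fintype.card ι + 1) → ℕ → ℕ → Bool := fun i e t =>
    Fin.cases (motive := fun _ => Bool) (V e t && decide (lam e t ≠ some c))
      (fun j => W (q j) e t) i
  let W' : Fin (Fintype.card ι + 1) → ℕ → ℕ → Bool :=
    Fin.cases (motive := fun _ => ℕ → ℕ → Bool) V (fun j => W (q j))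
  let S' : Fin (Fintype.card ι + 1) → Finset (Fin L.K) :=
    Fin.cases (motive := fun _ => Finset (Fin L.K)) (L.ch c) (fun j => T (q j))
  let mu' : Fin (Fintype.card ι + 1) → ℕ → ℕ → Option (Fin L.K) :=
    Fin.cases (motive := fun _ => ℕ → ℕ → Option (Fin L.K)) (LabB_mu lam V c)
      (fun j => mu (q j))
  have hP0 : ∀ e t, P 0 e t = (V e t && decide (lam e t ≠ some c)) := fun _ _ => rfl
  have hPs : ∀ j e t, P (Fin.succ j) e t = W (q j) e t := fun _ _ _ => rfl
  have hPprim : ∀ i, Primrec₂ (P i) := by
    intro i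
    refine Fin.cases ?_ (fun j => ?_) i
    · exact Primrec.and.comp₂ hV.ap.prim (LabB_prim_ne hlam.prim c)
    · exact (hW (q j)).ap.prim
  obtain ⟨d, hd, hd', hdP, hPd⟩ := LabB_dec P hPprim
  have hmu' : ∀ i, L.IsLab F (W' i) (S' i) (mu' i) := by
    intro i
    refine Fin.cases ?_ (fun j => ?_) i
    · exact LabB_isLab hlam hV
    · exact hmu (q j)
  have hPV : ∀ i e t, P i e t = true → V e t = true := by
    intro i e t
    refine Fin.cases ?_ (fun j => ?_) i
    · intro h
      rw [hP0, Bool.and_eq_true] at h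
      exact h.1
    · intro h
      exact hsub (q j) e t h
  have hdV : ∀ e t i, d e t = some i → V e t = true := by
    intro e t i h
    obtain ⟨u, hu, hPu⟩ := hdP e t i h
    exact hV.ap.true_of_le hu (hPV i e u hPu)
  have hnode : ∀ i v, L.Node (S' i) v → L.Node (L.ch c ∪ Finset.univ.biUnion T) v := by
    intro i v
    refine Fin.cases ?_ (fun j => ?_) i
    · intro h
      exact node_union.2 (Or.inl h)
    · intro h
      refine node_union.2 (Or.inr (Node.mono (fun s hs => ?_) h))
      exact Node.of_mem (Finset.mem_biUnion.2 ⟨q j, Finset.mem_univ _, hs⟩)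
  obtain ⟨lam', hlab', -, hcorr'⟩ := glue hF W' S' mu' hmu' hd hd' hdV hnode
  refine hex.2 _ (ltF_B T hT) ⟨lam', hlab', ?_⟩
  -- the exceptions
  have hbad : ({e | ¬ L.Corr F lam e} ∪ (⋃ i, {e | In (W i) e ∧ ¬ L.Corr F (mu i) e}) ∪
      {e | In V e ∧ L.Last lam e c ∧ ∀ i, ¬ In (W i) e}).Finite :=
    (hcor.union (Set.finite_iUnion hmc)).union hcov
  refine hbad.subset ?_
  rintro e ⟨heV, hne⟩
  by_contra hgood
  simp only [Set.mem_union, not_or, Set.mem_iUnion, not_exists] at hgood
  obtain ⟨⟨g1, g2⟩, g3⟩ := hgood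
  have g1' : L.Corr F lam e := by
    by_contra h
    exact g1 h
  apply hne
  by_cases hin : ∃ i, In (W i) e
  · obtain ⟨i, t, hit⟩ := hin
    obtain ⟨s, hs, hWs, hls⟩ := LabB_entry (hW i) hit
    obtain ⟨j, hj⟩ := hPd e s (Fin.succ (q.symm i)) (by
      rw [hPs, Equiv.apply_symm_apply]
      exact hWs)
    obtain ⟨u, hu, hPu⟩ := hdP e s j hj
    refine hcorr' e j s hj ?_
    revert hPu
    refine Fin.cases ?_ (fun j' => ?_) j
    · intro hPu
      exfalso
      rw [hP0, Bool.and_eq_true, decide_eq_true_eq] at hPu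
      obtain ⟨w, hw, hwc⟩ := LabB_later hlam hV hPu.1
      have hwne : w ≠ c := fun h6 => hPu.2 (by rw [hw, h6])
      have hcw : L.Desc c w := hwc.resolve_left hwne
      obtain ⟨w', hw', h6⟩ := hlam.later hu hw
      rw [hls] at hw'
      have h7 : w' = c := (Option.some.inj hw').symm
      rcases h6 with h6 | h6
      · exact hwne (by rw [← h6, h7])
      · exact LabB_desc_ne (hcw.trans h6) h7
    · intro hPu
      change L.Corr F (mu (q j')) e
      by_contra h
      exact g2 (q j') ⟨⟨u, hPu⟩, h⟩
  · have hin' : ∀ i, ¬ In (W i) e := fun i h => hin ⟨i, h⟩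
    obtain ⟨v, t, hvt⟩ := g1'
    have hvc : v ≠ c := by
      rintro rfl
      exact g3 ⟨heV, ⟨t, fun u hu => (hvt u hu).1⟩, hin'⟩
    obtain ⟨s, hs⟩ := heV
    have hVm : ∀ u, max s t ≤ u → V e u = true := fun u hu =>
      hV.ap.true_of_le ((le_max_left s t).trans hu) hs
    have hlm : ∀ u, max s t ≤ u → lam e u = some v := fun u hu =>
      (hvt u ((le_max_right s t).trans hu)).1
    have hlne : ∀ u, max s t ≤ u → lam e u ≠ some c := by
      intro u hu h
      rw [hlm u hu] at h
      exact hvc (Option.some.inj h)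
    obtain ⟨j, hj⟩ := hPd e (max s t) 0 (by
      rw [hP0, Bool.and_eq_true, decide_eq_true_eq]
      exact ⟨hVm _ le_rfl, hlne _ le_rfl⟩)
    refine hcorr' e j (max s t) hj ?_
    obtain ⟨u, hu, hPu⟩ := hdP e (max s t) j hj
    revert hPu
    refine Fin.cases ?_ (fun j' => ?_) j
    · intro _
      change L.Corr F (LabB_mu lam V c) e
      refine ⟨v, max s t, fun u hu => ⟨?_, ?_⟩⟩
      · have : LabB_mu lam V c e u = lam e u := if_pos ⟨hVm u hu, hlne u hu⟩
        rw [this, hlm u hu]
      · exact (hvt u ((le_max_right s t).trans hu)).2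
    · intro hPu
      exact absurd ⟨u, hPu⟩ (hin' (q j'))

/-- An exact stream at `c` has infinitely many elements with last label `c`. -/
theorem exact_infinite (hF : IsAp F) (hlam : L.IsLab F allSt S lam)
    (hcor : {e | ¬ L.Corr F lam e}.Finite) {V : ℕ → ℕ → Bool} {c : Fin L.K}
    (hV : L.AtC F lam V c) (hex : L.Exact F V {c}) :
    {e | In V e ∧ L.Last lam e c}.Infinite := by
  intro hfin
  obtain ⟨i, -⟩ := lemB hF hlam hcor hV hex (ι := Fin 0) (fun i => i.elim0)
    (fun i => i.elim0) (fun i => i.elim0) (hfin.subset fun e he => ⟨he.1, he.2.1⟩)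
  exact i.elim0

end TSys

end Pool.Agent.Lib.MP_45c83f_lc
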