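import Pool.Agent.Lib.MP_45c83f_lc.Run
import Pool.Agent.Lib.MP_45c83f_lc.LabB
import Pool.Agent.Lib.MP_45c83f_lc.LabD

set_option autoImplicit false

/-!
# The claim on exact streams of living numbers (text, 5.4 (vii))
-/

namespace Pool.Agent.Lib.MP_45c83f_lc

namespace TSys

section aux

variable {X : Type} [PartialOrder X] [Finite X] [Primcodable X] {L : TSys X} {F : ℕ → ℕ → X}
  {S : Finset (Fin L.K)} {lam : ℕ → ℕ → Option (Fin L.K)}

/-- The label is constant between two stages at which it is the same. -/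
private theorem Claim_between (hlam : L.IsLab F allSt S lam) {e s t u : ℕ} {c : Fin L.K}
    (hs : lam e s = some c) (ht : lam e t = some c) (hsu : s ≤ u) (hut : u ≤ t) :
    lam e u = some c := by
  obtain ⟨w, hw, h1⟩ := hlam.later hsu hs
  obtain ⟨w', hw', h2⟩ := hlam.later hut hw
  rw [ht] at hw'
  have h3 : w' = c := (Option.some.inj hw').symm
  subst h3
  rcases h1 with h1 | h1
  · rw [hw, h1]
  · exfalso
    rcases h2 with h2 | h2
    · rw [← h2] at h1
      exact lt_irrefl _ h1.lab_lt
    · exact lt_irrefl _ (h1.trans h2).lab_lt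

private theorem Claim_enter {V : ℕ → ℕ → Bool} {e t : ℕ} (h : V e t = true) :
    ∃ u, u ≤ t ∧ Enter V e u := by
  classical
  have hex : ∃ u, V e u = true := ⟨t, h⟩
  refine ⟨Nat.find hex, Nat.find_min' hex h, Nat.find_spec hex, fun u hu => ?_⟩
  have h1 := Nat.find_min hex hu
  simpa using h1

/-- The stream of the elements of `V` which want to go to `c'` while they are at `c`. -/
private noncomputable def Claim_W (L : TSys X) (F : ℕ → ℕ → X)
    (lam pc : ℕ → ℕ → Option (Fin L.K)) (V : ℕ → ℕ → Bool) (c c' : Fin L.K) (e t : ℕ) : Bool :=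
  @decide (∃ u, u < t + 1 ∧ lam e u = some c ∧ F e u = L.lab c ∧ pc e u = some c' ∧
    V e u = true) (Classical.propDecidable _)

omit [Finite X] [Primcodable X] in
private theorem Claim_W_iff {pc : ℕ → ℕ → Option (Fin L.K)} {V : ℕ → ℕ → Bool} {c c' : Fin L.K}
    {e t : ℕ} : Claim_W L F lam pc V c c' e t = true ↔
      ∃ u, u < t + 1 ∧ lam e u = some c ∧ F e u = L.lab c ∧ pc e u = some c' ∧ V e u = true := by
  exact @decide_eq_true_iff _ (Classical.propDecidable _)

omit [Finite X] in
private theorem Claim_W_ap (hF : IsAp F) (hlam : L.IsLab F allSt S lam)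
    {pc : ℕ → ℕ → Option (Fin L.K)} (hpc : Primrec₂ pc) {V : ℕ → ℕ → Bool} (hV : IsAp V)
    (c c' : Fin L.K) : IsAp (Claim_W L F lam pc V c c') := by
  classical
  constructor
  · have h1 : PrimrecRel fun (u e : ℕ) =>
        lam e u = some c ∧ F e u = L.lab c ∧ pc e u = some c' ∧ V e u = true := by
      have a1 : PrimrecPred fun p : ℕ × ℕ => lam p.2 p.1 = some c :=
        PrimrecRel.comp Primrec.eq (Primrec₂.comp hlam.prim Primrec.snd Primrec.fst)
          (Primrec.const _)
      have a2 : PrimrecPred fun p : ℕ × ℕ => F p.2 p.1 = L.lab c :=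
        PrimrecRel.comp Primrec.eq (Primrec₂.comp hF.prim Primrec.snd Primrec.fst)
          (Primrec.const _)
      have a3 : PrimrecPred fun p : ℕ × ℕ => pc p.2 p.1 = some c' :=
        PrimrecRel.comp Primrec.eq (Primrec₂.comp hpc Primrec.snd Primrec.fst)
          (Primrec.const _)
      have a4 : PrimrecPred fun p : ℕ × ℕ => V p.2 p.1 = true :=
        PrimrecRel.comp Primrec.eq (Primrec₂.comp hV.prim Primrec.snd Primrec.fst)
          (Primrec.const _)
      exact a1.and (a2.and (a3.and a4))
    have h2 := h1.exists_lt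
    have h3 : PrimrecPred fun p : ℕ × ℕ => ∃ u < p.2 + 1,
        lam p.1 u = some c ∧ F p.1 u = L.lab c ∧ pc p.1 u = some c' ∧ V p.1 u = true :=
      PrimrecPred.comp (p := fun p : ℕ × ℕ => ∃ u < p.1,
        lam p.2 u = some c ∧ F p.2 u = L.lab c ∧ pc p.2 u = some c' ∧ V p.2 u = true)
        (f := fun p : ℕ × ℕ => (p.2 + 1, p.1)) h2
        (Primrec.pair (Primrec.succ.comp Primrec.snd) Primrec.fst)
    have h4 : Primrec fun p : ℕ × ℕ => decide (∃ u < p.2 + 1,
        lam p.1 u = some c ∧ F p.1 u = L.lab c ∧ pc p.1 u = some c' ∧ V p.1 u = true) :=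
      h3.decide
    refine h4.of_eq fun p => ?_
    rw [Bool.eq_iff_iff, Claim_W_iff]
    exact decide_eq_true_iff
  · intro e s t hst
    rw [Bool.le_iff_imp, Claim_W_iff, Claim_W_iff]
    rintro ⟨u, hu, h⟩
    exact ⟨u, lt_of_lt_of_le hu (Nat.succ_le_succ hst), h⟩

omit [Finite X] in
private theorem Claim_W_atC (hF : IsAp F) (hlam : L.IsLab F allSt S lam)
    {pc : ℕ → ℕ → Option (Fin L.K)} (hpc : Primrec₂ pc) {V : ℕ → ℕ → Bool} (hV : IsAp V)
    (c c' : Fin L.K) : L.AtC F lam (Claim_W L F lam pc V c c') c := by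
  refine ⟨Claim_W_ap hF hlam hpc hV c c', ?_⟩
  rintro e t ⟨h1, h2⟩
  obtain ⟨u, hu, h3, h4, h5, h6⟩ := Claim_W_iff.1 h1
  have h7 : u = t := by
    by_contra hne
    have h8 := h2 u (by omega)
    have h9 : Claim_W L F lam pc V c c' e u = true :=
      Claim_W_iff.2 ⟨u, Nat.lt_succ_self u, h3, h4, h5, h6⟩
    rw [h8] at h9
    exact absurd h9 (by simp)
  subst h7
  exact ⟨h3, h4⟩

end aux

/-- The claim. -/
theorem claim {X Y Z J : Type} [PartialOrder X] [Finite X] [Primcodable X] [PartialOrder Y]
    [OrderBot Y] [Primcodable Y] [PartialOrder Z] [Primcodable J] {L : TSys X} {I : Set (X × Y)}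
    {S : Finset (Fin L.K)} {h : Fin L.K → Y} {D : Jobs L I S h Z J} {F : ℕ → ℕ → X}
    (hF : IsAp F) (hS : L.HRed S) {lam : ℕ → ℕ → Option (Fin L.K)}
    (hlam : L.IsLab F allSt S lam) (hcor : {e | ¬ L.Corr F lam e}.Finite)
    {U : ℕ → ℕ → ℕ → Z} {asg : ℕ → ℕ → Option (ℕ × J)} (ha : IsAsg D lam U asg)
    {g : ℕ → ℕ → Y} {md : ℕ → ℕ → Option J} {pc : ℕ → ℕ → Option (Fin L.K)}
    (hr : IsRun D F lam U asg g md pc) {i : ℕ} {j : J} {c : Fin L.K} (hc : L.Node S c)
    {V : ℕ → ℕ → Bool} (hV : L.AtC F lam V c) (hex : L.Exact F V {c})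
    (hal : ∀ e t, Enter V e t → md e t = some j ∧ asg e t = some (i, j)) :
    {e | ∃ v t, ∀ u, t ≤ u → F e u = L.lab v ∧ D.rest j v (g e u) (U i e u)}.Infinite := by
  by_contra hinf
  rw [Set.not_infinite] at hinf
  revert V
  revert hc
  have hwf : WellFounded (InvImage (fun a b : X => a > b) L.lab) :=
    InvImage.wf _ (wellFounded_gt)
  induction c using hwf.induction with
  | _ c IH =>
    intro hc V hV hex hal
    -- the numbers at `c` are alive
    have alive : ∀ e t, V e t = true → lam e t = some c →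
        md e t = some j ∧ asg e t = some (i, j) := by
      intro e t hVt hl
      obtain ⟨s, hst, hs⟩ := Claim_enter hVt
      have hls := (hV.at_c e s hs).1
      obtain ⟨h1, h2⟩ := hal e s hs
      have key : ∀ n, s + n ≤ t → md e (s + n) = some j ∧ asg e (s + n) = some (i, j) := by
        intro n
        induction n with
        | zero => intro _; exact ⟨h1, h2⟩
        | succ n ih =>
          intro hn
          obtain ⟨a, b⟩ := ih (by omega)
          have l1 : lam e (s + n) = some c := Claim_between hlam hls hl (by omega) (by omega)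
          have l2 : lam e (s + n + 1) = some c :=
            Claim_between hlam hls hl (by omega) (by omega)
          exact ⟨hr.stay e (s + n) j (by rw [l1, l2]) a, ha.pers e (s + n) _ b⟩
      have h3 := key (t - s) (by omega)
      rwa [Nat.add_sub_cancel' hst] at h3
    have hVtrue : ∀ e s t, s ≤ t → V e s = true → V e t = true := fun e s t hst h =>
      hV.ap.true_of_le hst h
    -- Lemma B
    obtain ⟨⟨c', hc'⟩, hexW⟩ := lemB hF hlam hcor hV hex (ι := {x // x ∈ L.ch c})
      (fun x => Claim_W L F lam pc V c x.1)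
      (fun x => Claim_W_atC hF hlam hr.pc_prim hV.ap c x.1)
      (by
        intro x e t h
        obtain ⟨u, hu, -, -, -, h6⟩ := Claim_W_iff.1 h
        exact hVtrue e u t (by omega) h6)
      (by
        refine (hcor.union hinf).subset ?_
        rintro e ⟨⟨tV, htV⟩, ⟨tL, htL⟩, hno⟩
        by_cases hC : L.Corr F lam e
        · right
          obtain ⟨v, tC, htC⟩ := hC
          have hvc : v = c := by
            have h1 := (htC (max tL tC) (le_max_right _ _)).1
            rw [htL (max tL tC) (le_max_left _ _)] at h1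
            exact (Option.some.inj h1).symm
          subst hvc
          have hnone : ∀ u, max tV tC ≤ u → pc e u = none := by
            intro u hu
            by_contra hne
            obtain ⟨x, hx⟩ := Option.ne_none_iff_exists'.1 hne
            obtain ⟨w, hw, hxw⟩ := hr.pc_mem e u x hx
            have hlu := (htC u ((le_max_right _ _).trans hu)).1
            rw [hlu] at hw
            have hwv : w = v := (Option.some.inj hw).symm
            subst hwv
            apply hno ⟨x, hxw⟩
            exact ⟨u, Claim_W_iff.2 ⟨u, Nat.lt_succ_self u, hlu,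
              (htC u ((le_max_right _ _).trans hu)).2, hx,
              hVtrue e tV u ((le_max_left _ _).trans hu) htV⟩⟩
          obtain ⟨tf, htf⟩ := hr.fin e v i j ⟨tL, htL⟩ ⟨tC, fun u hu => (htC u hu).2⟩
            ⟨max tV tC, fun u hu => by
              have h1 := alive e u (hVtrue e tV u ((le_max_left _ _).trans hu) htV)
                (htC u ((le_max_right _ _).trans hu)).1
              exact ⟨h1.2, h1.1, hnone u hu⟩⟩
          exact ⟨v, max tC tf, fun u hu => ⟨(htC u ((le_max_left _ _).trans hu)).2,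
            htf u ((le_max_right _ _).trans hu)⟩⟩
        · left
          exact hC)
    change L.Exact F (Claim_W L F lam pc V c c') {c} at hexW
    -- Lemma D
    obtain ⟨hat, hexN⟩ := lemD hF hlam hcor
      (Claim_W_atC hF hlam hr.pc_prim hV.ap c c') hexW (hS.ch hc) hc'
    have hlt : L.lab c < L.lab c' := L.lt_ch c c' hc'
    refine IH c' hlt (hc.desc (Desc.of_ch hc')) hat hexN ?_
    intro e t ht
    obtain ⟨u, hu, h3, h4, h5⟩ := LabD_nxt_iff.1 ht.1
    have h6 : t = u + 1 := by
      by_contra hne
      have h7 : u + 1 < t := by omega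
      have h8 := ht.2 _ h7
      have h9 : L.nxt lam (Claim_W L F lam pc V c c') c c' e (u + 1) = true :=
        LabD_nxt_iff.2 ⟨u, Nat.lt_succ_self u, h3, h4, h5⟩
      rw [h8] at h9
      exact absurd h9 (by simp)
    subst h6
    obtain ⟨u', hu', k1, -, k3, k4⟩ := Claim_W_iff.1 h5
    have hu'' : u' ≤ u := by omega
    have hpc : ∀ n, u' + n ≤ u → pc e (u' + n) = some c' := by
      intro n
      induction n with
      | zero => intro _; exact k3
      | succ n ih =>
        intro hn
        have a := ih (by omega)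
        have l1 : lam e (u' + n) = some c := Claim_between hlam k1 h3 (by omega) (by omega)
        have l2 : lam e (u' + n + 1) = some c := Claim_between hlam k1 h3 (by omega) (by omega)
        exact hr.pc_stay e (u' + n) c' a (by rw [l1, l2])
    have hpcu : pc e u = some c' := by
      have h7 := hpc (u - u') (by omega)
      rwa [Nat.add_sub_cancel' hu''] at h7
    obtain ⟨m1, m2⟩ := alive e u (hVtrue e u' u hu'' k4) h3
    exact ⟨hr.arrive e u c' j m1 hpcu h4, ha.pers e u _ m2⟩

end TSys

end Pool.Agent.Lib.MP_45c83f_lc
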