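import Mathlib

set_option autoImplicit false

/-!
# Basic definitions (project EAE, MP_45c83f_lc)

`X`, `Y`, `Z` are finite partial orders with a least element, all functions on stages are
primitive recursive (every r.e. function has a primitive recursive approximation).
-/

namespace Pool.Agent.Lib.MP_45c83f_lc

/-- `g` is the limit of the stage function `f`. -/
def Lim {X : Type} (f : ℕ → ℕ → X) (g : ℕ → X) : Prop :=
  ∀ e, ∃ s, ∀ t, s ≤ t → f e t = g e

/-- A primitive recursive approximation, monotone in the stage. -/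
structure IsAp {X : Type} [PartialOrder X] [Primcodable X] (f : ℕ → ℕ → X) : Prop where
  prim : Primrec₂ f
  mono : ∀ e, Monotone (f e)

/-- The r.e. functions with values in `X`. -/
def RE {X : Type} [PartialOrder X] [Primcodable X] (g : ℕ → X) : Prop :=
  ∃ f : ℕ → ℕ → X, IsAp f ∧ Lim f g

/-- The r.e. sets, by monotone primitive recursive approximations. -/
def RESet (A : Set ℕ) : Prop :=
  ∃ f : ℕ → ℕ → Bool, IsAp f ∧ ∀ e, e ∈ A ↔ ∃ s, f e s = true

/-- The recursive sets. -/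
def Rec (A : Set ℕ) : Prop := RESet A ∧ RESet Aᶜ

/-- The statement `exists f forall g exists h` on the set of attained states. -/
def Truth {X Y Z : Type} [PartialOrder X] [Primcodable X] [PartialOrder Y] [Primcodable Y]
    [PartialOrder Z] [Primcodable Z] (P : Set (X × Y × Z) → Prop) : Prop :=
  ∃ f : ℕ → X, RE f ∧ ∀ g : ℕ → Y, RE g → ∃ h : ℕ → Z, RE h ∧
    P (Set.range fun e => (f e, g e, h e))

/-- The states which are attained infinitely often. -/
def InfSt {X Y : Type} (f : ℕ → X) (g : ℕ → Y) : Set (X × Y) :=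
  {ρ | {e : ℕ | (f e, g e) = ρ}.Infinite}

/-- Some r.e. function `h` gives states in `T` up to finitely many exceptions. -/
def Pred {X Y Z : Type} [PartialOrder Z] [Primcodable Z] (f : ℕ → X) (g : ℕ → Y)
    (T : Set (X × Y × Z)) : Prop :=
  ∃ h : ℕ → Z, RE h ∧ {e : ℕ | (f e, g e, h e) ∉ T}.Finite

/-- A type system over `X`: finitely many nodes with labels and sets of children, closed under
the formation of new nodes (with labels which increase). -/
structure TSys (X : Type) [PartialOrder X] where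
  /-- the number of nodes -/
  K : ℕ
  /-- the label -/
  lab : Fin K → X
  /-- the children -/
  ch : Fin K → Finset (Fin K)
  lt_ch : ∀ v, ∀ c ∈ ch v, lab v < lab c
  ex : ∀ (τ : X) (C : Finset (Fin K)), (∀ c ∈ C, τ < lab c) → ∃ v, lab v = τ ∧ ch v = C
  inj : ∀ v w, lab v = lab w → ch v = ch w → v = w

namespace TSys

variable {X : Type} [PartialOrder X] (L : TSys X)

/-- `w` is a proper descendant of `v`. -/
def Desc (v w : Fin L.K) : Prop := Relation.TransGen (fun a b => b ∈ L.ch a) v w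

/-- The nodes of a forest. -/
def Node (S : Finset (Fin L.K)) (w : Fin L.K) : Prop := ∃ s ∈ S, s = w ∨ L.Desc s w

/-- The embedding order on types. -/
inductive Emb : Fin L.K → Fin L.K → Prop
  | mk (v w : Fin L.K) (φ : Fin L.K → Fin L.K) : L.lab v = L.lab w →
      (∀ c ∈ L.ch v, L.Desc w (φ c)) → (∀ c ∈ L.ch v, Emb c (φ c)) → Emb v w

/-- The embedding order on forests. -/
def LeF (S S' : Finset (Fin L.K)) : Prop := ∀ s ∈ S, ∃ w, L.Node S' w ∧ L.Emb s w

/-- The strict part of the embedding order on forests. -/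
def LtF (S S' : Finset (Fin L.K)) : Prop := L.LeF S S' ∧ ¬ L.LeF S' S

/-- Reduced forests. -/
def Red (C : Finset (Fin L.K)) : Prop := ∀ c ∈ C, ¬ L.LeF {c} (C.erase c)

/-- Hereditarily reduced forests. -/
def HRed (S : Finset (Fin L.K)) : Prop := L.Red S ∧ ∀ v, L.Node S v → L.Red (L.ch v)

/-- The labels of the nodes of a forest. -/
def LabF (S : Finset (Fin L.K)) (τ : X) : Prop := ∃ v, L.Node S v ∧ L.lab v = τ

/-- The labels of the leaves of a forest. -/
def LeafLab (S : Finset (Fin L.K)) (τ : X) : Prop := ∃ v, L.Node S v ∧ L.ch v = ∅ ∧ L.lab v = τ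

variable {Y : Type} [PartialOrder Y] {Z : Type} [PartialOrder Z]

/-- Compliance: `η` is a possible resting state at the node. -/
inductive Comp (I : Set (X × Y)) : Fin L.K → Y → Prop
  | mk (v : Fin L.K) (η : Y) (φ : Fin L.K → Y) : (L.lab v, η) ∈ I →
      (∀ c ∈ L.ch v, η ≤ φ c) → (∀ c ∈ L.ch v, Comp I c (φ c)) → Comp I v η

/-- The positions which the existential player wins, he is to move. -/
inductive EW (I : Set (X × Y)) (T : Set (X × Y × Z)) : Fin L.K → Y → Z → Prop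
  | mk (v : Fin L.K) (η : Y) (ζ ζ' : Z) : ζ ≤ ζ' →
      (L.Comp I v η → (L.lab v, η, ζ') ∈ T) →
      (L.Comp I v η → ∀ c ∈ L.ch v, EW I T c η ζ') →
      (∀ η'', η < η'' → EW I T v η'' ζ') → EW I T v η ζ

/-- One step of a chain of compliant labels. -/
def Step (I : Set (X × Y)) (a b : Fin L.K × Y) : Prop :=
  b.1 ∈ L.ch a.1 ∧ a.2 ≤ b.2 ∧ L.Comp I b.1 b.2

/-- Valid data for a forest. -/
def Valid (S : Finset (Fin L.K)) (I : Set (X × Y)) (h : Fin L.K → Y) : Prop :=
  (∀ s ∈ S, L.Comp I s (h s)) ∧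
  ∀ τ η, (τ, η) ∈ I → L.LeafLab S τ ∨
    ∃ s ∈ S, ∃ v, Relation.ReflTransGen (L.Step I) (s, h s) (v, η) ∧ L.lab v = τ

/-- The winning condition for the existential player. -/
def Win [OrderBot Y] [OrderBot Z] (S : Finset (Fin L.K)) (I : Set (X × Y)) (h : Fin L.K → Y)
    (T : Set (X × Y × Z)) : Prop :=
  (∀ v, L.Node S v → L.ch v = ∅ → L.EW I T v ⊥ ⊥) ∧
  ∀ s ∈ S, L.ch s ≠ ∅ → ∃ ζ, (L.lab s, h s, ζ) ∈ T ∧ ∀ c ∈ L.ch s, L.EW I T c (h s) ζ

/-- The criterion. -/
def Crit [OrderBot Y] [OrderBot Z] (P : Set (X × Y × Z) → Prop) : Prop :=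
  ∃ S : Finset (Fin L.K), S.Nonempty ∧ ∃ (q : ℕ) (x : Fin q → X), (∀ j, ¬ L.LabF S (x j)) ∧
    ∀ (I : Set (X × Y)) (h : Fin L.K → Y), L.Valid S I h →
    ∀ (y : Fin q → Y) (F : Set (X × Y)), (∀ ρ ∈ F, L.LabF S ρ.1 ∧ ρ ∉ I) →
    ∃ (z : Fin q → Z) (T : Set (X × Y × Z)), P T ∧
      (∀ τ η, (τ, η) ∈ I → ∃ ζ, (τ, η, ζ) ∈ T) ∧
      (∀ τ η, (τ, η) ∈ F → ∃! ζ, (τ, η, ζ) ∈ T) ∧
      (∀ τ η ζ, (τ, η, ζ) ∈ T → L.LabF S τ → (τ, η) ∈ I ∪ F) ∧
      (∀ τ η ζ, ¬ L.LabF S τ → ((τ, η, ζ) ∈ T ↔ ∃ j, x j = τ ∧ y j = η ∧ z j = ζ)) ∧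
      L.Win S I h T

end TSys

end Pool.Agent.Lib.MP_45c83f_lc
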