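import Pool.Agent.Lib.MP_45c83f_lc.Types

set_option autoImplicit false

/-!
# Facts on `Comp` and `EW`
-/

namespace Pool.Agent.Lib.MP_45c83f_lc

namespace TSys

variable {X Y Z : Type} [PartialOrder X] [PartialOrder Y] [PartialOrder Z] {L : TSys X}
  {I : Set (X × Y)} {T : Set (X × Y × Z)}

theorem comp_iff {v : Fin L.K} {η : Y} : L.Comp I v η ↔ (L.lab v, η) ∈ I ∧
    ∀ c ∈ L.ch v, ∃ η', η ≤ η' ∧ L.Comp I c η' := by
  classical
  constructor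
  · intro h
    cases h with
    | mk _ _ φ h1 h2 h3 => exact ⟨h1, fun c hc => ⟨φ c, h2 c hc, h3 c hc⟩⟩
  · rintro ⟨h1, h2⟩
    refine Comp.mk v η (fun c => if hc : c ∈ L.ch v then (h2 c hc).choose else η) h1 ?_ ?_
    · intro c hc
      rw [dif_pos hc]
      exact (h2 c hc).choose_spec.1
    · intro c hc
      rw [dif_pos hc]
      exact (h2 c hc).choose_spec.2

/-- From a compliant position all descendants can be reached compliantly. -/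
theorem Comp.desc {v w : Fin L.K} {η : Y} (h : L.Comp I v η) (hw : L.Desc v w) :
    ∃ η', η ≤ η' ∧ L.Comp I w η' := by
  unfold Desc at hw
  induction hw with
  | single h1 => exact (comp_iff.1 h).2 _ h1
  | tail _ h2 ih =>
    obtain ⟨η', h3, h4⟩ := ih
    obtain ⟨η'', h5, h6⟩ := (comp_iff.1 h4).2 _ h2
    exact ⟨η'', h3.trans h5, h6⟩

theorem ew_iff {v : Fin L.K} {η : Y} {ζ : Z} : L.EW I T v η ζ ↔ ∃ ζ', ζ ≤ ζ' ∧
    (L.Comp I v η → (L.lab v, η, ζ') ∈ T) ∧ (L.Comp I v η → ∀ c ∈ L.ch v, L.EW I T c η ζ') ∧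
    ∀ η'', η < η'' → L.EW I T v η'' ζ' := by
  constructor
  · intro h
    cases h with
    | mk _ _ _ ζ' h1 h2 h3 h4 => exact ⟨ζ', h1, h2, h3, h4⟩
  · rintro ⟨ζ', h1, h2, h3, h4⟩
    exact EW.mk v η ζ ζ' h1 h2 h3 h4

theorem EW.anti {v : Fin L.K} {η : Y} {ζ ζ₀ : Z} (h : L.EW I T v η ζ) (h0 : ζ₀ ≤ ζ) :
    L.EW I T v η ζ₀ := by
  obtain ⟨ζ', h1, h2, h3, h4⟩ := ew_iff.1 h
  exact ew_iff.2 ⟨ζ', h0.trans h1, h2, h3, h4⟩

theorem EW.mono {v : Fin L.K} {η η' : Y} {ζ : Z} (h : L.EW I T v η ζ) (h0 : η ≤ η') :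
    L.EW I T v η' ζ := by
  rcases h0.eq_or_lt with h1 | h1
  · rw [← h1]
    exact h
  · obtain ⟨ζ', h2, -, -, h5⟩ := ew_iff.1 h
    exact (h5 η' h1).anti h2

/-- A good answer of the existential player, with a choice which does not move without
need. -/
theorem exists_resp (L : TSys X) (I : Set (X × Y)) (T : Set (X × Y × Z)) :
    ∃ r : Fin L.K → Y → Z → Z, ∀ v η ζ, ζ ≤ r v η ζ ∧
      (L.EW I T v η ζ → L.Comp I v η → (L.lab v, η, r v η ζ) ∈ T ∧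
        (∀ c ∈ L.ch v, L.EW I T c η (r v η ζ)) ∧
        (∀ η'', η < η'' → L.EW I T v η'' (r v η ζ)) ∧ L.EW I T v η (r v η ζ) ∧
        r v η (r v η ζ) = r v η ζ) := by
  classical
  let Q : Fin L.K → Y → Z → Prop := fun v η ζ' => (L.lab v, η, ζ') ∈ T ∧
    (∀ c ∈ L.ch v, L.EW I T c η ζ') ∧ (∀ η'', η < η'' → L.EW I T v η'' ζ')
  let r : Fin L.K → Y → Z → Z := fun v η ζ =>
    if Q v η ζ then ζ else if h : ∃ ζ', ζ ≤ ζ' ∧ Q v η ζ' then h.choose else ζ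
  have hr1 : ∀ v η ζ, Q v η ζ → r v η ζ = ζ := fun v η ζ h => if_pos h
  have hr2 : ∀ v η ζ, ¬ Q v η ζ → ∀ h : ∃ ζ', ζ ≤ ζ' ∧ Q v η ζ', r v η ζ = h.choose := by
    intro v η ζ hn h
    show (if Q v η ζ then ζ else if h : ∃ ζ', ζ ≤ ζ' ∧ Q v η ζ' then h.choose else ζ) = _
    rw [if_neg hn, dif_pos h]
  have hr3 : ∀ v η ζ, ¬ Q v η ζ → (¬ ∃ ζ', ζ ≤ ζ' ∧ Q v η ζ') → r v η ζ = ζ := by
    intro v η ζ hn h
    show (if Q v η ζ then ζ else if h : ∃ ζ', ζ ≤ ζ' ∧ Q v η ζ' then h.choose else ζ) = _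
    rw [if_neg hn, dif_neg h]
  refine ⟨r, fun v η ζ => ⟨?_, fun hE hC => ?_⟩⟩
  · by_cases h1 : Q v η ζ
    · rw [hr1 v η ζ h1]
    · by_cases h2 : ∃ ζ', ζ ≤ ζ' ∧ Q v η ζ'
      · rw [hr2 v η ζ h1 h2]
        exact h2.choose_spec.1
      · rw [hr3 v η ζ h1 h2]
  · have hQ : Q v η (r v η ζ) := by
      by_cases h1 : Q v η ζ
      · rw [hr1 v η ζ h1]
        exact h1
      · have h2 : ∃ ζ', ζ ≤ ζ' ∧ Q v η ζ' := by
          obtain ⟨ζ', h3, h4, h5, h6⟩ := ew_iff.1 hE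
          exact ⟨ζ', h3, h4 hC, h5 hC, h6⟩
        rw [hr2 v η ζ h1 h2]
        exact h2.choose_spec.2
    exact ⟨hQ.1, hQ.2.1, hQ.2.2, ew_iff.2 ⟨r v η ζ, le_rfl, fun _ => hQ.1, fun _ => hQ.2.1,
      hQ.2.2⟩, hr1 v η _ hQ⟩

/-- The raising function of the universal player. -/
theorem exists_raise [Finite Y] (L : TSys X) (I : Set (X × Y)) (T : Set (X × Y × Z)) :
    ∃ r : Fin L.K → Y → Z → Y, ∀ v η ζ, ¬ L.EW I T v η ζ → η ≤ r v η ζ ∧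
      L.Comp I v (r v η ζ) ∧ ¬ L.EW I T v (r v η ζ) ζ ∧
      ((L.lab v, r v η ζ, ζ) ∉ T ∨ ∃ c ∈ L.ch v, ¬ L.EW I T c (r v η ζ) ζ) ∧
      ((L.Comp I v η ∧ ((L.lab v, η, ζ) ∉ T ∨ ∃ c ∈ L.ch v, ¬ L.EW I T c η ζ)) →
        r v η ζ = η) := by
  classical
  have key : ∀ (v : Fin L.K) (ζ : Z) (η : Y), ∃ η' : Y, ¬ L.EW I T v η ζ → η ≤ η' ∧
      L.Comp I v η' ∧ ¬ L.EW I T v η' ζ ∧
      ((L.lab v, η', ζ) ∉ T ∨ ∃ c ∈ L.ch v, ¬ L.EW I T c η' ζ) ∧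
      ((L.Comp I v η ∧ ((L.lab v, η, ζ) ∉ T ∨ ∃ c ∈ L.ch v, ¬ L.EW I T c η ζ)) →
        η' = η) := by
    intro v ζ η
    induction η using WellFoundedGT.induction with
    | ind η ih =>
      by_cases hbad : L.Comp I v η ∧ ((L.lab v, η, ζ) ∉ T ∨ ∃ c ∈ L.ch v, ¬ L.EW I T c η ζ)
      · exact ⟨η, fun hE => ⟨le_rfl, hbad.1, hE, hbad.2, fun _ => rfl⟩⟩
      · by_cases hE : L.EW I T v η ζ
        · exact ⟨η, fun h => absurd hE h⟩
        · have h1 : ∃ η'', η < η'' ∧ ¬ L.EW I T v η'' ζ := by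
            by_contra hcon
            apply hE
            refine ew_iff.2 ⟨ζ, le_rfl, fun hC => ?_, fun hC c hc => ?_, fun η'' hlt => ?_⟩
            · by_contra hT
              exact hbad ⟨hC, Or.inl hT⟩
            · by_contra hc2
              exact hbad ⟨hC, Or.inr ⟨c, hc, hc2⟩⟩
            · by_contra h2
              exact hcon ⟨η'', hlt, h2⟩
          obtain ⟨η'', hlt, h2⟩ := h1
          obtain ⟨η', h3⟩ := ih η'' hlt
          obtain ⟨h4, h5, h6, h7, -⟩ := h3 h2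
          exact ⟨η', fun _ => ⟨hlt.le.trans h4, h5, h6, h7, fun h => absurd h hbad⟩⟩
  choose r hr using key
  exact ⟨fun v η ζ => r v ζ η, fun v η ζ h => hr v ζ η h⟩

end TSys

end Pool.Agent.Lib.MP_45c83f_lc
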