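import Pool.Agent.Lib.MP_45c83f_lc.Basics

set_option autoImplicit false
set_option linter.unusedSectionVars false

/-!
# The finite part (Lemmas 1.1 and 1.2)
-/

namespace Pool.Agent.Lib.MP_45c83f_lc

variable {X Y Z : Type} [PartialOrder X] [Finite X] [Primcodable X]
  [PartialOrder Y] [Finite Y] [Primcodable Y] [PartialOrder Z] [Finite Z] [Primcodable Z]

/-- A finite type embeds in an infinite set of numbers. -/
private theorem FinCh_emb (W : Type) [Finite W] (A : Set ℕ) :
    ∃ c : W → ℕ, Function.Injective c ∧ (A.Infinite → ∀ w, c w ∈ A) := by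
  obtain ⟨n, ⟨b⟩⟩ := Finite.exists_equiv_fin W
  by_cases hA : A.Infinite
  · refine ⟨fun w => hA.natEmbedding A (b w), ?_, fun _ w => (hA.natEmbedding A (b w)).2⟩
    intro w w' h
    have h1 := Subtype.ext h
    have h2 := (hA.natEmbedding A).injective h1
    exact b.injective (Fin.ext h2)
  · refine ⟨fun w => b w, ?_, fun h => absurd h hA⟩
    intro w w' h
    exact b.injective (Fin.ext h)

/-- The elements with finitely attained states form a finite set. -/
private theorem FinCh_fin (f : ℕ → X) (g : ℕ → Y) : {e | (f e, g e) ∉ InfSt f g}.Finite := by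
  have h1 : {e | (f e, g e) ∉ InfSt f g} ⊆
      ⋃ ρ ∈ (InfSt f g)ᶜ, {e | (f e, g e) = ρ} := by
    intro e he
    simp only [Set.mem_iUnion]
    exact ⟨(f e, g e), he, rfl⟩
  refine Set.Finite.subset (Set.Finite.biUnion (Set.toFinite _) ?_) h1
  intro ρ hρ
  exact Set.not_infinite.1 hρ

/-- Lemma 1.1 in the form needed for the criterion: `f` takes values outside `Λ` only at the
points `ε j`. -/
theorem fit_of_pred {f : ℕ → X} {g : ℕ → Y} {T : Set (X × Y × Z)} (hp : Pred f g T)
    (Λ : Set X) {q : ℕ} (ε : Fin q → ℕ) (hε : Function.Injective ε)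
    (hε2 : ∀ e, f e ∉ Λ ↔ e ∈ Set.range ε) (z : Fin q → Z)
    (hI : ∀ τ η, (τ, η) ∈ InfSt f g → ∃ ζ, (τ, η, ζ) ∈ T)
    (hF : ∀ τ η, τ ∈ Λ → (τ, η) ∉ InfSt f g → (∃ e, (f e, g e) = (τ, η)) →
      ∃! ζ, (τ, η, ζ) ∈ T)
    (h0 : ∀ τ η ζ, (τ, η, ζ) ∈ T → τ ∈ Λ → ∃ e, (f e, g e) = (τ, η))
    (hz : ∀ τ η ζ, τ ∉ Λ → ((τ, η, ζ) ∈ T ↔ ∃ j, f (ε j) = τ ∧ g (ε j) = η ∧ z j = ζ)) :
    ∃ h : ℕ → Z, RE h ∧ (Set.range fun e => (f e, g e, h e)) = T := by
  classical
  obtain ⟨h, hh, hfin⟩ := hp
  choose c hc1 hc2 using fun ρ : X × Y => FinCh_emb Z {e | (f e, g e) = ρ}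
  let h' : ℕ → Z := fun e =>
    if hj : ∃ j, ε j = e then z hj.choose
    else if hc : ∃ ζ, e = c (f e, g e) ζ ∧ (f e, g e, ζ) ∈ T ∧ (f e, g e) ∈ InfSt f g then
      hc.choose
    else if (f e, g e, h e) ∈ T ∧ (f e, g e) ∈ InfSt f g then h e
    else if ht : ∃ ζ, (f e, g e, ζ) ∈ T then ht.choose else h e
  have e1 : ∀ j, h' (ε j) = z j := by
    intro j
    have hj : ∃ j', ε j' = ε j := ⟨j, rfl⟩
    have h1 : h' (ε j) = z hj.choose := dif_pos hj
    rw [h1, hε hj.choose_spec]
  have hnot : ∀ e, f e ∈ Λ → ¬ ∃ j, ε j = e := by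
    intro e he hj
    exact (hε2 e).2 hj he
  refine ⟨h', ?_, ?_⟩
  · refine RE.change hh ?_
    have hsub : {e | h e ≠ h' e} ⊆ Set.range ε ∪ (⋃ ρ : X × Y, Set.range (c ρ)) ∪
        {e | (f e, g e) ∉ InfSt f g} ∪ {e | (f e, g e, h e) ∉ T} := by
      intro e he
      by_contra hcon
      simp only [Set.mem_union, not_or, Set.mem_iUnion, not_exists, Set.mem_range,
        Set.mem_ofPred_eq, not_not] at hcon
      obtain ⟨⟨⟨a1, a2⟩, a3⟩, a4⟩ := hcon
      apply he
      have b1 : ¬ ∃ j, ε j = e := fun ⟨j, hj⟩ => a1 j hj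
      have b2 : ¬ ∃ ζ, e = c (f e, g e) ζ ∧ (f e, g e, ζ) ∈ T ∧ (f e, g e) ∈ InfSt f g :=
        fun ⟨ζ, hζ, _⟩ => a2 _ ζ hζ.symm
      show h e = h' e
      simp only [h']
      rw [dif_neg b1, dif_neg b2, if_pos ⟨a4, a3⟩]
    refine Set.Finite.subset ?_ hsub
    refine (((Set.finite_range ε).union (Set.finite_iUnion fun ρ => Set.finite_range _)).union
      (FinCh_fin f g)).union hfin
  · ext ⟨τ, η, ζ⟩
    constructor
    · rintro ⟨e, he⟩
      rw [← he]
      show (f e, g e, h' e) ∈ T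
      by_cases hj : ∃ j, ε j = e
      · obtain ⟨j, rfl⟩ := hj
        rw [e1]
        exact (hz _ _ _ ((hε2 (ε j)).2 ⟨j, rfl⟩)).2 ⟨j, rfl, rfl, rfl⟩
      · have hΛ : f e ∈ Λ := by
          by_contra hcon
          exact hj ((hε2 e).1 hcon)
        have hex : ∃ ζ, (f e, g e, ζ) ∈ T := by
          by_cases hi : (f e, g e) ∈ InfSt f g
          · exact hI _ _ hi
          · exact (hF _ _ hΛ hi ⟨e, rfl⟩).exists
        simp only [h']
        rw [dif_neg hj]
        split_ifs with a1 a2
        · exact a1.choose_spec.2.1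
        · exact a2.1
        · exact hex.choose_spec
    · intro ht
      by_cases hΛ : τ ∈ Λ
      · by_cases hi : (τ, η) ∈ InfSt f g
        · have hst : (f (c (τ, η) ζ), g (c (τ, η) ζ)) = (τ, η) := hc2 (τ, η) hi ζ
          have hs1 : f (c (τ, η) ζ) = τ := congrArg Prod.fst hst
          have hs2 : g (c (τ, η) ζ) = η := congrArg Prod.snd hst
          refine ⟨c (τ, η) ζ, ?_⟩
          have hcc : ∃ ζ', c (τ, η) ζ = c (f (c (τ, η) ζ), g (c (τ, η) ζ)) ζ' ∧
              (f (c (τ, η) ζ), g (c (τ, η) ζ), ζ') ∈ T ∧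
              (f (c (τ, η) ζ), g (c (τ, η) ζ)) ∈ InfSt f g := by
            refine ⟨ζ, ?_, ?_, ?_⟩
            · rw [hst]
            · rw [hs1, hs2]; exact ht
            · rw [hst]; exact hi
          have hval : h' (c (τ, η) ζ) = hcc.choose := by
            simp only [h']
            rw [dif_neg (hnot _ (by rw [hs1]; exact hΛ)), dif_pos hcc]
          have hζ : hcc.choose = ζ := by
            have h3 := hcc.choose_spec.1
            generalize hcc.choose = w at h3
            rw [hst] at h3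
            exact (hc1 (τ, η) h3).symm
          show (f (c (τ, η) ζ), g (c (τ, η) ζ), h' (c (τ, η) ζ)) = (τ, η, ζ)
          rw [hval, hζ, hs1, hs2]
        · obtain ⟨e, he⟩ := h0 τ η ζ ht hΛ
          have hs1 : f e = τ := congrArg Prod.fst he
          have hs2 : g e = η := congrArg Prod.snd he
          refine ⟨e, ?_⟩
          have hj : ¬ ∃ j, ε j = e := hnot _ (by rw [hs1]; exact hΛ)
          have hi' : (f e, g e) ∉ InfSt f g := by rw [he]; exact hi
          have b2 : ¬ ∃ ζ, e = c (f e, g e) ζ ∧ (f e, g e, ζ) ∈ T ∧ (f e, g e) ∈ InfSt f g :=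
            fun ⟨_, _, _, hx⟩ => hi' hx
          have b3 : ¬ ((f e, g e, h e) ∈ T ∧ (f e, g e) ∈ InfSt f g) := fun hx => hi' hx.2
          have ht' : ∃ ζ, (f e, g e, ζ) ∈ T := ⟨ζ, by rw [hs1, hs2]; exact ht⟩
          have hval : h' e = ht'.choose := by
            simp only [h']
            rw [dif_neg hj, dif_neg b2, if_neg b3, dif_pos ht']
          have hζ : ht'.choose = ζ := by
            have h3 := ht'.choose_spec
            generalize ht'.choose = w at h3
            rw [hs1, hs2] at h3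
            exact (hF τ η hΛ hi ⟨e, he⟩).unique h3 ht
          show (f e, g e, h' e) = (τ, η, ζ)
          rw [hval, hζ, hs1, hs2]
      · obtain ⟨j, h1, h2, h3⟩ := (hz τ η ζ hΛ).1 ht
        refine ⟨ε j, ?_⟩
        show (f (ε j), g (ε j), h' (ε j)) = (τ, η, ζ)
        rw [e1, h1, h2, h3]

/-- Lemma 1.2: the counts outside the infinitely attained states can be prescribed. -/
theorem exists_counts {f : ℕ → X} {g : ℕ → Y} (hg : RE g) (Λ : Set X)
    (hΛ : ∀ τ ∈ Λ, {e | f e = τ}.Infinite) {q : ℕ} (ε : Fin q → ℕ)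
    (hε : Function.Injective ε) (hε2 : ∀ e, f e ∉ Λ ↔ e ∈ Set.range ε) (y : Fin q → Y)
    (F : Set (X × Y)) (hF : ∀ ρ ∈ F, ρ.1 ∈ Λ ∧ ρ ∉ InfSt f g) :
    ∃ g' : ℕ → Y, RE g' ∧ {e | g' e ≠ g e}.Finite ∧ (∀ j, g' (ε j) = y j) ∧
      (∀ τ η, (τ, η) ∈ F → ∃! e, (f e, g' e) = (τ, η)) ∧
      ∀ e, f e ∈ Λ → (f e, g' e) ∈ InfSt f g ∪ F := by
  classical
  -- an infinitely attained state over every `τ ∈ Λ`
  have hη : ∀ τ : X, ∃ η : Y, τ ∈ Λ → (τ, η) ∈ InfSt f g := by
    intro τ
    by_cases hτ : τ ∈ Λ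
    · have h1 : ∃ η, (τ, η) ∈ InfSt f g := by
        by_contra hcon
        push Not at hcon
        refine hΛ τ hτ ?_
        refine Set.Finite.subset (FinCh_fin f g) ?_
        intro e he
        have he' : f e = τ := he
        show (f e, g e) ∉ InfSt f g
        rw [he']
        exact hcon (g e)
      obtain ⟨η, h1⟩ := h1
      exact ⟨η, fun _ => h1⟩
    · exact ⟨g 0, fun h => absurd h hτ⟩
  choose ηf hηf using hη
  choose c hc1 hc2 using fun τ : X => FinCh_emb Y {e | (f e, g e) = (τ, ηf τ)}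
  let g' : ℕ → Y := fun e =>
    if hj : ∃ j, ε j = e then y hj.choose
    else if hc : ∃ η, (f e, η) ∈ F ∧ e = c (f e) η then hc.choose
    else if (f e, g e) ∈ InfSt f g then g e else ηf (f e)
  have hnot : ∀ e, f e ∈ Λ → ¬ ∃ j, ε j = e := by
    intro e he hj
    exact (hε2 e).2 hj he
  have hfin : {e | g e ≠ g' e}.Finite := by
    have hsub : {e | g e ≠ g' e} ⊆ Set.range ε ∪ (⋃ τ : X, Set.range (c τ)) ∪
        {e | (f e, g e) ∉ InfSt f g} := by
      intro e he
      by_contra hcon
      simp only [Set.mem_union, not_or, Set.mem_iUnion, not_exists, Set.mem_range,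
        Set.mem_ofPred_eq, not_not] at hcon
      obtain ⟨⟨a1, a2⟩, a3⟩ := hcon
      apply he
      have b1 : ¬ ∃ j, ε j = e := fun ⟨j, hj⟩ => a1 j hj
      have b2 : ¬ ∃ η, (f e, η) ∈ F ∧ e = c (f e) η := fun ⟨η, _, hη⟩ => a2 _ η hη.symm
      show g e = g' e
      simp only [g']
      rw [dif_neg b1, dif_neg b2, if_pos a3]
    refine Set.Finite.subset ?_ hsub
    exact ((Set.finite_range ε).union (Set.finite_iUnion fun τ => Set.finite_range _)).union
      (FinCh_fin f g)
  refine ⟨g', RE.change hg hfin, ?_, ?_, ?_, ?_⟩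
  · refine hfin.subset fun e he => ?_
    exact Ne.symm he
  · intro j
    have hj : ∃ j', ε j' = ε j := ⟨j, rfl⟩
    have h1 : g' (ε j) = y hj.choose := dif_pos hj
    rw [h1, hε hj.choose_spec]
  · intro τ η hρ
    obtain ⟨hτ, hni⟩ := hF _ hρ
    have hst : (f (c τ η), g (c τ η)) = (τ, ηf τ) := hc2 τ (hηf τ hτ) η
    have hs1 : f (c τ η) = τ := congrArg Prod.fst hst
    refine ⟨c τ η, ?_, ?_⟩
    · have hcc : ∃ η', (f (c τ η), η') ∈ F ∧ c τ η = c (f (c τ η)) η' := by
        refine ⟨η, ?_, ?_⟩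
        · rw [hs1]; exact hρ
        · rw [hs1]
      have hval : g' (c τ η) = hcc.choose := by
        simp only [g']
        rw [dif_neg (hnot _ (by rw [hs1]; exact hτ)), dif_pos hcc]
      have hη : hcc.choose = η := by
        have h3 := hcc.choose_spec.2
        generalize hcc.choose = w at h3
        rw [hs1] at h3
        exact (hc1 τ h3).symm
      show (f (c τ η), g' (c τ η)) = (τ, η)
      rw [hval, hη, hs1]
    · intro e he
      have he1 : f e = τ := congrArg Prod.fst he
      have he2 : g' e = η := congrArg Prod.snd he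
      have hj : ¬ ∃ j, ε j = e := hnot _ (by rw [he1]; exact hτ)
      by_cases hcc : ∃ η, (f e, η) ∈ F ∧ e = c (f e) η
      · have hval : g' e = hcc.choose := by
          simp only [g']
          rw [dif_neg hj, dif_pos hcc]
        have h3 := hcc.choose_spec.2
        rw [← hval, he2, he1] at h3
        exact h3
      · exfalso
        by_cases hi : (f e, g e) ∈ InfSt f g
        · have hval : g' e = g e := by
            simp only [g']
            rw [dif_neg hj, dif_neg hcc, if_pos hi]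
          rw [← hval, he1, he2] at hi
          exact hni hi
        · have hval : g' e = ηf (f e) := by
            simp only [g']
            rw [dif_neg hj, dif_neg hcc, if_neg hi]
          have h3 := hηf τ hτ
          rw [he2, he1] at hval
          rw [← hval] at h3
          exact hni h3
  · intro e he
    have hj : ¬ ∃ j, ε j = e := hnot _ he
    by_cases hcc : ∃ η, (f e, η) ∈ F ∧ e = c (f e) η
    · have hval : g' e = hcc.choose := by
        simp only [g']
        rw [dif_neg hj, dif_pos hcc]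
      right
      rw [hval]
      exact hcc.choose_spec.1
    · left
      by_cases hi : (f e, g e) ∈ InfSt f g
      · have hval : g' e = g e := by
          simp only [g']
          rw [dif_neg hj, dif_neg hcc, if_pos hi]
        rw [hval]
        exact hi
      · have hval : g' e = ηf (f e) := by
          simp only [g']
          rw [dif_neg hj, dif_neg hcc, if_neg hi]
        rw [hval]
        exact hηf _ he

/-- Finite changes do not change the infinitely attained states. -/
theorem infSt_change {f : ℕ → X} {g g' : ℕ → Y} (h : {e | g' e ≠ g e}.Finite) :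
    InfSt f g' = InfSt f g := by
  have key : ∀ g₁ g₂ : ℕ → Y, {e | g₁ e ≠ g₂ e}.Finite → InfSt f g₁ ⊆ InfSt f g₂ := by
    intro g₁ g₂ h12 ρ hρ hfin
    refine hρ (Set.Finite.subset (hfin.union h12) ?_)
    intro e he
    by_cases h3 : g₁ e = g₂ e
    · left
      have he' : (f e, g₁ e) = ρ := he
      show (f e, g₂ e) = ρ
      rw [← h3]
      exact he'
    · right
      exact h3
  refine Set.Subset.antisymm (key g' g h) (key g g' (h.subset fun e he => ?_))
  exact Ne.symm he

theorem pred_change {f : ℕ → X} {g g' : ℕ → Y} (h : {e | g' e ≠ g e}.Finite)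
    {T : Set (X × Y × Z)} (hp : Pred f g T) : Pred f g' T := by
  obtain ⟨k, hk, hfin⟩ := hp
  refine ⟨k, hk, Set.Finite.subset (hfin.union h) ?_⟩
  intro e he
  by_cases h3 : g' e = g e
  · left
    have he' : (f e, g' e, k e) ∉ T := he
    show (f e, g e, k e) ∉ T
    rw [← h3]
    exact he'
  · right
    exact h3

end Pool.Agent.Lib.MP_45c83f_lc
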