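import Pool.Agent.Lib.MP_45c83f_lc.Run
import Pool.Agent.Lib.MP_45c83f_lc.Facts

set_option autoImplicit false

/-!
# The list of jobs (text, 5.4 (ii)-(iv))
-/

namespace Pool.Agent.Lib.MP_45c83f_lc

namespace TSys

variable {X Y Z : Type} [PartialOrder X] [Finite X] [PartialOrder Y] [OrderBot Y] [Finite Y]
  [PartialOrder Z] [OrderBot Z] [Finite Z]

/-- finitely many requirements -/
private theorem jobsEx_fin {A R : Type} [Finite R] (q : R → A → Prop) :
    ∃ (n : ℕ) (f : Fin n → A), ∀ r, (∃ a, q r a) → ∃ j, q r (f j) := by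
  classical
  obtain ⟨n, ⟨e⟩⟩ := Finite.exists_equiv_fin {r : R // ∃ a, q r a}
  refine ⟨n, fun j => (e.symm j).2.choose, fun r hr => ⟨e ⟨r, hr⟩, ?_⟩⟩
  have h1 : ∀ x : {r : R // ∃ a, q r a}, x = ⟨r, hr⟩ → q r x.2.choose := by
    rintro x rfl
    exact hr.choose_spec
  exact h1 _ (Equiv.symm_apply_apply e _)

/-- a family of single jobs -/
private def jobsEx_comb {L : TSys X} {I : Set (X × Y)} {S : Finset (Fin L.K)}
    {h : Fin L.K → Y} {n : ℕ} (f : Fin n → Jobs L I S h Z Unit) : Jobs L I S h Z (Fin n) where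
  ctl := fun j => (f j).ctl ()
  arr := fun j => (f j).arr ()
  good := fun j => (f j).good ()
  rest := fun j => (f j).rest ()
  src := fun j => (f j).src ()
  nd := fun j => (f j).nd ()
  ini := fun j => (f j).ini ()
  cond := fun j => (f j).cond ()
  anti := fun j => (f j).anti ()
  le := fun j => (f j).le ()
  comp := fun j => (f j).comp ()
  stay := fun j => (f j).stay ()
  child := fun j => (f j).child ()
  fin := fun j => (f j).fin ()
  src_some := fun j => (f j).src_some ()
  src_none := fun j => (f j).src_none ()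
  start := fun j => (f j).start ()
  cond_none := fun j => (f j).cond_none ()

/-- attack jobs -/
private theorem jobsEx_attack (L : TSys X) {I : Set (X × Y)} {S : Finset (Fin L.K)}
    {h : Fin L.K → Y} (T : Set (X × Y × Z)) (src : Option (Fin L.K)) (nd : Fin L.K) (ini : Y)
    (cond : Z → Prop) (h1 : ∀ s, src = some s → s ∈ S ∧ nd ∈ L.ch s ∧ h s ≤ ini)
    (h2 : src = none → L.Node S nd ∧ L.ch nd = ∅)
    (h3 : ∀ z z', cond z → z ≤ z' → ¬ L.EW I T nd ini z') (h4 : ∀ z, src = none → cond z) :
    ∃ D : Jobs L I S h Z Unit, D.src () = src ∧ (∀ z, D.cond () z ↔ cond z) ∧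
      ∀ v g z, D.rest () v g z → (L.lab v, g, z) ∉ T := by
  classical
  obtain ⟨r, hr⟩ := exists_raise L I T
  let ctl : Fin L.K → Y → Z → Y × Option (Fin L.K) := fun v g z =>
    (r v g z, if (L.lab v, r v g z, z) ∈ T then
      (if hc : ∃ c ∈ L.ch v, ¬ L.EW I T c (r v g z) z then some hc.choose else none) else none)
  have hctl1 : ∀ v g z, (ctl v g z).1 = r v g z := fun v g z => rfl
  have hctl2 : ∀ v g z, (ctl v g z).2 = if (L.lab v, r v g z, z) ∈ T then
      (if hc : ∃ c ∈ L.ch v, ¬ L.EW I T c (r v g z) z then some hc.choose else none)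
      else none := fun v g z => rfl
  refine ⟨{ ctl := fun _ => ctl
            arr := fun _ _ g => g
            good := fun _ v g z => ¬ L.EW I T v g z
            rest := fun _ v g z => (L.lab v, g, z) ∉ T
            src := fun _ => src
            nd := fun _ => nd
            ini := fun _ => ini
            cond := fun _ => cond
            anti := fun _ v g z z' hg hz hE => hg (hE.anti hz)
            le := fun _ v g z hg => (hr v g z hg).1
            comp := fun _ v g z hg => (hr v g z hg).2.1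
            stay := fun _ v g z hg => (hr v g z hg).2.2.1
            child := ?_
            fin := ?_
            src_some := fun _ => h1
            src_none := fun _ => h2
            start := fun _ => h3
            cond_none := fun _ => h4 }, rfl, fun _ => Iff.rfl, fun v g z hz => hz⟩
  · intro _ v g z c hg hc
    rw [hctl2] at hc
    by_cases hT : (L.lab v, r v g z, z) ∈ T
    · rw [if_pos hT] at hc
      by_cases hex : ∃ c ∈ L.ch v, ¬ L.EW I T c (r v g z) z
      · rw [dif_pos hex, Option.some.injEq] at hc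
        subst hc
        exact ⟨hex.choose_spec.1, le_rfl, hex.choose_spec.2⟩
      · rw [dif_neg hex] at hc
        exact absurd hc (by simp)
    · rw [if_neg hT] at hc
      exact absurd hc (by simp)
  · intro _ v g z hg hc hT
    have e1 : r v g z = g := by
      have := congrArg Prod.fst hc
      rwa [hctl1] at this
    have e2 : (ctl v g z).2 = none := congrArg Prod.snd hc
    rw [hctl2, e1, if_pos hT] at e2
    rcases (hr v g z hg).2.2.2.1 with h5 | h5
    · rw [e1] at h5
      exact h5 hT
    · rw [e1] at h5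
      rw [dif_pos h5] at e2
      exact absurd e2 (by simp)

/-- attainment jobs -/
private theorem jobsEx_attain (L : TSys X) {I : Set (X × Y)} {S : Finset (Fin L.K)}
    {h : Fin L.K → Y} (w : Fin L.K) (η : Y) (src : Option (Fin L.K)) (nd : Fin L.K) (ini : Y)
    (h1 : ∀ s, src = some s → s ∈ S ∧ nd ∈ L.ch s ∧ h s ≤ ini)
    (h2 : src = none → L.Node S nd ∧ L.ch nd = ∅)
    (h3 : L.Comp I nd ini) (h4 : Relation.ReflTransGen (L.Step I) (nd, ini) (w, η)) :
    ∃ D : Jobs L I S h Z Unit, D.src () = src ∧ (∀ z, D.cond () z) ∧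
      ∀ v g z, D.rest () v g z → v = w ∧ g = η := by
  classical
  have hnext : ∀ a : Fin L.K × Y, ∃ b : Fin L.K × Y, a ≠ (w, η) →
      Relation.ReflTransGen (L.Step I) a (w, η) →
      L.Step I a b ∧ Relation.ReflTransGen (L.Step I) b (w, η) := by
    intro a
    by_cases ha : a ≠ (w, η) ∧ Relation.ReflTransGen (L.Step I) a (w, η)
    · rcases Relation.ReflTransGen.cases_head ha.2 with h5 | ⟨b, h5, h6⟩
      · exact absurd h5 ha.1
      · exact ⟨b, fun _ _ => ⟨h5, h6⟩⟩
    · exact ⟨a, fun h5 h6 => absurd ⟨h5, h6⟩ ha⟩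
  choose nx hnx using hnext
  refine ⟨{ ctl := fun _ v g z => (g, if (v, g) = (w, η) then none else some (nx (v, g)).1)
            arr := fun _ v g => (nx (v, g)).2
            good := fun _ v g z => L.Comp I v g ∧
              Relation.ReflTransGen (L.Step I) (v, g) (w, η)
            rest := fun _ v g z => v = w ∧ g = η
            src := fun _ => src
            nd := fun _ => nd
            ini := fun _ => ini
            cond := fun _ _ => True
            anti := fun _ v g z z' hg _ => hg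
            le := fun _ v g z _ => le_rfl
            comp := fun _ v g z hg => hg.1
            stay := fun _ v g z hg => hg
            child := ?_
            fin := ?_
            src_some := fun _ => h1
            src_none := fun _ => h2
            start := fun _ _ _ _ _ => ⟨h3, h4⟩
            cond_none := fun _ _ _ => trivial }, rfl, fun _ => trivial, fun v g z hz => hz⟩
  · intro _ v g z c hg hc
    by_cases he : (v, g) = (w, η)
    · rw [if_pos he] at hc
      exact absurd hc (by simp)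
    · rw [if_neg he, Option.some.injEq] at hc
      subst hc
      obtain ⟨⟨h5, h6, h7⟩, h8⟩ := hnx (v, g) he hg.2
      exact ⟨h5, h6, h7, h8⟩
  · intro _ v g z hg hc
    by_cases he : (v, g) = (w, η)
    · exact Prod.mk.injEq _ _ _ _ ▸ he
    · have e2 := congrArg Prod.snd hc
      simp only [if_neg he] at e2
      exact absurd e2 (by simp)

/-- Enough jobs: for every set `T` against which the existential player does not win there is a
leaf job, or there is a root with root jobs for all answers; for every state in `I` there is a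
leaf job, a root, or a root job. -/
theorem exists_jobs (L : TSys X) {I : Set (X × Y)} {S : Finset (Fin L.K)} {h : Fin L.K → Y}
    (hv : L.Valid S I h) {𝒯 : Set (Set (X × Y × Z))} (hT : ∀ T ∈ 𝒯, ¬ L.Win S I h T) :
    ∃ (n : ℕ) (D : Jobs L I S h Z (Fin n)),
      (∀ T ∈ 𝒯, (∃ j, D.src j = none ∧ ∀ v g z, D.rest j v g z → (L.lab v, g, z) ∉ T) ∨
        ∃ s ∈ S, (L.ch s).Nonempty ∧ ∀ ζ, (L.lab s, h s, ζ) ∈ T → ∃ j, D.src j = some s ∧
          (∀ z, D.cond j z ↔ z = ζ) ∧ ∀ v g z, D.rest j v g z → (L.lab v, g, z) ∉ T) ∧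
      ∀ τ η, (τ, η) ∈ I →
        (∃ j, D.src j = none ∧ ∀ v g z, D.rest j v g z → L.lab v = τ ∧ g = η) ∨
        (∃ s ∈ S, (L.ch s).Nonempty ∧ L.lab s = τ ∧ h s = η) ∨
        ∃ j s, D.src j = some s ∧ (∀ z, D.cond j z) ∧
          ∀ v g z, D.rest j v g z → L.lab v = τ ∧ g = η := by
  classical
  let q : (Set (X × Y × Z) ⊕ (Set (X × Y × Z) × Z × Fin L.K)) ⊕ ((X × Y) ⊕ (X × Y × Fin L.K)) →
      Jobs L I S h Z Unit → Prop := fun r D =>
    match r with
    | Sum.inl (Sum.inl T) =>
      D.src () = none ∧ ∀ v g z, D.rest () v g z → (L.lab v, g, z) ∉ T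
    | Sum.inl (Sum.inr (T, ζ, s)) =>
      D.src () = some s ∧ (∀ z, D.cond () z ↔ z = ζ) ∧
        ∀ v g z, D.rest () v g z → (L.lab v, g, z) ∉ T
    | Sum.inr (Sum.inl (τ, η)) =>
      D.src () = none ∧ ∀ v g z, D.rest () v g z → L.lab v = τ ∧ g = η
    | Sum.inr (Sum.inr (τ, η, s)) =>
      D.src () = some s ∧ (∀ z, D.cond () z) ∧
        ∀ v g z, D.rest () v g z → L.lab v = τ ∧ g = η
  obtain ⟨n, f, hf⟩ := jobsEx_fin q
  refine ⟨n, jobsEx_comb f, ?_, ?_⟩
  · intro T hTT
    have hw := hT T hTT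
    by_cases ha : ∃ v, L.Node S v ∧ L.ch v = ∅ ∧ ¬ L.EW I T v ⊥ ⊥
    · left
      obtain ⟨v, h1, h2, h3⟩ := ha
      obtain ⟨D, d1, -, d3⟩ := jobsEx_attack (h := h) (S := S) L T none v ⊥ (fun _ => True)
        (fun s hs => absurd hs (by simp)) (fun _ => ⟨h1, h2⟩)
        (fun z z' _ _ hE => h3 (hE.anti bot_le)) (fun _ _ => trivial)
      obtain ⟨j, hj⟩ := hf (Sum.inl (Sum.inl T)) ⟨D, d1, d3⟩
      exact ⟨j, hj⟩
    · right
      have hb : ∃ s ∈ S, L.ch s ≠ ∅ ∧ ∀ ζ, (L.lab s, h s, ζ) ∈ T →
          ∃ c ∈ L.ch s, ¬ L.EW I T c (h s) ζ := by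
        by_contra hb
        push Not at hb
        apply hw
        refine ⟨fun v h1 h2 => ?_, fun s hs hne => ?_⟩
        · by_contra h3
          exact ha ⟨v, h1, h2, h3⟩
        · obtain ⟨ζ, h1, h2⟩ := hb s hs (Finset.nonempty_iff_ne_empty.2 hne)
          exact ⟨ζ, h1, h2⟩
      obtain ⟨s, hs, hne, hb⟩ := hb
      refine ⟨s, hs, Finset.nonempty_iff_ne_empty.2 hne, fun ζ hζ => ?_⟩
      obtain ⟨c, hc, hE⟩ := hb ζ hζ
      obtain ⟨D, d1, d2, d3⟩ := jobsEx_attack (h := h) (S := S) L T (some s) c (h s)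
        (fun z => z = ζ)
        (fun s' hs' => by
          rw [Option.some.injEq] at hs'
          subst hs'
          exact ⟨hs, hc, le_rfl⟩)
        (fun hs' => absurd hs' (by simp))
        (fun z z' hz hz' hE' => by
          subst hz
          exact hE (hE'.anti hz'))
        (fun z hs' => absurd hs' (by simp))
      obtain ⟨j, hj⟩ := hf (Sum.inl (Sum.inr (T, ζ, s))) ⟨D, d1, d2, d3⟩
      exact ⟨j, hj⟩
  · intro τ η hI
    have hleaf : L.LeafLab S τ →
        ∃ j, (jobsEx_comb f).src j = none ∧ ∀ v g z, (jobsEx_comb f).rest j v g z →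
          L.lab v = τ ∧ g = η := by
      rintro ⟨v, h1, h2, rfl⟩
      obtain ⟨D, d1, -, d3⟩ := jobsEx_attain (Z := Z) (h := h) (S := S) (I := I) L v η none v η
        (fun s hs => absurd hs (by simp)) (fun _ => ⟨h1, h2⟩)
        (comp_iff.2 ⟨hI, fun c hc => by rw [h2] at hc; exact absurd hc (by simp)⟩)
        Relation.ReflTransGen.refl
      obtain ⟨j, hj⟩ := hf (Sum.inr (Sum.inl (L.lab v, η))) ⟨D, d1, fun v' g z hz => by
        obtain ⟨rfl, rfl⟩ := d3 v' g z hz
        exact ⟨rfl, rfl⟩⟩
      exact ⟨j, hj⟩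
    rcases hv.2 τ η hI with h1 | ⟨s, hs, v, h1, rfl⟩
    · exact Or.inl (hleaf h1)
    · rcases Relation.ReflTransGen.cases_head h1 with h2 | ⟨⟨v1, η1⟩, h2, h3⟩
      · rw [Prod.mk.injEq] at h2
        obtain ⟨rfl, rfl⟩ := h2
        by_cases hne : L.ch s = ∅
        · exact Or.inl (hleaf ⟨s, Node.of_mem hs, hne, rfl⟩)
        · exact Or.inr (Or.inl ⟨s, hs, Finset.nonempty_iff_ne_empty.2 hne, rfl, rfl⟩)
      · right
        right
        obtain ⟨h4, h5, h6⟩ := h2
        obtain ⟨D, d1, d2, d3⟩ := jobsEx_attain (Z := Z) (h := h) (S := S) (I := I) L v η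
          (some s) v1 η1
          (fun s' hs' => by
            rw [Option.some.injEq] at hs'
            subst hs'
            exact ⟨hs, h4, h5⟩)
          (fun hs' => absurd hs' (by simp)) h6 h3
        obtain ⟨j, hj⟩ := hf (Sum.inr (Sum.inr (L.lab v, η, s))) ⟨D, d1, d2, fun v' g z hz => by
          obtain ⟨rfl, rfl⟩ := d3 v' g z hz
          exact ⟨rfl, rfl⟩⟩
        exact ⟨j, s, hj⟩

end TSys

end Pool.Agent.Lib.MP_45c83f_lc
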