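import Pool.Agent.Lib.MP_45c83f_lc.Types
import Pool.Agent.Lib.MP_45c83f_lc.Basics

set_option autoImplicit false

/-!
# Streams, labellings, bounding, exactness: definitions (text, section 5.1)
-/

namespace Pool.Agent.Lib.MP_45c83f_lc

namespace TSys

variable {X : Type} [PartialOrder X] [Primcodable X] (L : TSys X) (F : ℕ → ℕ → X)

/-- `lam` is a labelling of the stream `V` by nodes of the forest `S`. -/
structure IsLab (V : ℕ → ℕ → Bool) (S : Finset (Fin L.K))
    (lam : ℕ → ℕ → Option (Fin L.K)) : Prop where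
  prim : Primrec₂ lam
  zero : ∀ e, lam e 0 = none
  off : ∀ e t, V e t = false → lam e t = none
  step : ∀ e t, lam e (t + 1) = lam e t ∨ ∃ v, lam e (t + 1) = some v ∧
    L.lab v = F e (t + 1) ∧ (∀ u, lam e t = some u → L.Desc u v) ∧
    (lam e t = none → L.Node S v)

/-- The last label of `e` is `v`. -/
def Last (lam : ℕ → ℕ → Option (Fin L.K)) (e : ℕ) (v : Fin L.K) : Prop :=
  ∃ t, ∀ u, t ≤ u → lam e u = some v

/-- The labelling is correct at `e`: the last label has the final state of `e`. -/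
def Corr (lam : ℕ → ℕ → Option (Fin L.K)) (e : ℕ) : Prop :=
  ∃ v t, ∀ u, t ≤ u → lam e u = some v ∧ F e u = L.lab v

/-- `e` belongs to the stream. -/
def In (V : ℕ → ℕ → Bool) (e : ℕ) : Prop := ∃ t, V e t = true

/-- The stream is bounded by the forest. -/
def Bdd (V : ℕ → ℕ → Bool) (S : Finset (Fin L.K)) : Prop :=
  ∃ lam, L.IsLab F V S lam ∧ {e | In V e ∧ ¬ L.Corr F lam e}.Finite

/-- The stream has exactly the type `S`. -/
def Exact (V : ℕ → ℕ → Bool) (S : Finset (Fin L.K)) : Prop :=
  L.Bdd F V S ∧ ∀ S', L.LtF S' S → ¬ L.Bdd F V S'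

/-- Smallness of a stream at `c`. -/
def Small (V : ℕ → ℕ → Bool) (c : Fin L.K) : Prop := ∃ S', L.LtF S' {c} ∧ L.Bdd F V S'

/-- `e` enters the stream at stage `t`. -/
def Enter (V : ℕ → ℕ → Bool) (e t : ℕ) : Prop := V e t = true ∧ ∀ u, u < t → V e u = false

/-- `V` is a stream at `c`: its elements enter while they have the label `c` and the state
`lab c`. -/
structure AtC (lam : ℕ → ℕ → Option (Fin L.K)) (V : ℕ → ℕ → Bool) (c : Fin L.K) : Prop where
  ap : IsAp V
  at_c : ∀ e t, Enter V e t → lam e t = some c ∧ F e t = L.lab c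

/-- The stream of all numbers. -/
def allSt : ℕ → ℕ → Bool := fun _ _ => true

/-- The stream of the numbers with first label `s`. -/
def rootSt (lam : ℕ → ℕ → Option (Fin L.K)) (s : Fin L.K) (e t : ℕ) : Bool :=
  decide (∃ u, u < t ∧ lam e u = none ∧ lam e (u + 1) = some s)

/-- The stream of the elements of `V` whose label after `c` is `c'`. -/
def nxt (lam : ℕ → ℕ → Option (Fin L.K)) (V : ℕ → ℕ → Bool) (c c' : Fin L.K) (e t : ℕ) : Bool :=
  decide (∃ u, u < t ∧ lam e u = some c ∧ lam e (u + 1) = some c' ∧ V e u = true)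

end TSys

end Pool.Agent.Lib.MP_45c83f_lc
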