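import Pool.Agent.Lib.MP_45c83f_lc.Lab

set_option autoImplicit false

/-!
# Labellings: general lemmas (text, 5.1)
-/

namespace Pool.Agent.Lib.MP_45c83f_lc

namespace TSys

variable {X : Type} [PartialOrder X] [Finite X] [Primcodable X] {L : TSys X} {F : ℕ → ℕ → X}

/-- Every label is a node. -/
theorem IsLab.node {V : ℕ → ℕ → Bool} {S : Finset (Fin L.K)}
    {lam : ℕ → ℕ → Option (Fin L.K)} (h : L.IsLab F V S lam) {e t : ℕ} {v : Fin L.K}
    (hv : lam e t = some v) : L.Node S v := by
  induction t generalizing v with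
  | zero =>
    rw [h.zero e] at hv
    exact absurd hv (by simp)
  | succ t ih =>
    rcases h.step e t with h1 | ⟨w, hw, _, h2, h3⟩
    · rw [h1] at hv
      exact ih hv
    · have hwv : w = v := by
        rw [hw] at hv
        exact Option.some.inj hv
      subst hwv
      cases hu : lam e t with
      | none => exact h3 hu
      | some u => exact (ih hu).desc (h2 u hu)

/-- Later labels are equal or proper descendants. -/
theorem IsLab.later {V : ℕ → ℕ → Bool} {S : Finset (Fin L.K)}
    {lam : ℕ → ℕ → Option (Fin L.K)} (h : L.IsLab F V S lam) {e t u : ℕ} (htu : t ≤ u)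
    {v : Fin L.K} (hv : lam e t = some v) : ∃ w, lam e u = some w ∧ (w = v ∨ L.Desc v w) := by
  induction u, htu using Nat.le_induction with
  | base => exact ⟨v, hv, Or.inl rfl⟩
  | succ u _ ih =>
    obtain ⟨w, hw, h1⟩ := ih
    rcases h.step e u with h2 | ⟨w', hw', _, h3, _⟩
    · exact ⟨w, h2.trans hw, h1⟩
    · refine ⟨w', hw', Or.inr ?_⟩
      rcases h1 with h1 | h1
      · rw [← h1]
        exact h3 w hw
      · exact h1.trans (h3 w hw)

/-- The labels become constant: there is a last label, or never a label. -/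
theorem IsLab.last {V : ℕ → ℕ → Bool} {S : Finset (Fin L.K)}
    {lam : ℕ → ℕ → Option (Fin L.K)} (h : L.IsLab F V S lam) (e : ℕ) :
    (∀ t, lam e t = none) ∨ ∃ v, L.Last lam e v := by
  by_cases h0 : ∀ t, lam e t = none
  · exact Or.inl h0
  right
  push Not at h0
  obtain ⟨t0, ht0⟩ := h0
  obtain ⟨v0, hv0⟩ := Option.ne_none_iff_exists'.mp ht0
  have htr : IsTrans (Fin L.K) (fun a b => L.Desc b a) :=
    ⟨fun a b c h1 h2 => Desc.trans h2 h1⟩
  have hir : Std.Irrefl (fun a b : Fin L.K => L.Desc b a) :=
    ⟨fun a h1 => lt_irrefl _ h1.lab_lt⟩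
  have hwf : WellFounded (fun a b : Fin L.K => L.Desc b a) :=
    Finite.wellFounded_of_trans_of_irrefl _
  have key : ∀ v : Fin L.K, ∀ t, lam e t = some v → ∃ w, L.Last lam e w := by
    intro v
    induction v using hwf.induction with
    | _ v ih =>
      intro t hv
      by_cases hall : ∀ u, t ≤ u → lam e u = some v
      · exact ⟨v, t, hall⟩
      · push Not at hall
        obtain ⟨u, htu, hne⟩ := hall
        obtain ⟨w, hw, h1⟩ := h.later htu hv
        rcases h1 with h1 | h1
        · exact absurd (h1 ▸ hw) hne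
        · exact ih w h1 u hw
  exact key v0 t0 hv0

/-- The label of the state is below the state. -/
theorem IsLab.lab_le {V : ℕ → ℕ → Bool} {S : Finset (Fin L.K)}
    {lam : ℕ → ℕ → Option (Fin L.K)} (hF : IsAp F) (h : L.IsLab F V S lam) {e t : ℕ}
    {v : Fin L.K} (hv : lam e t = some v) : L.lab v ≤ F e t := by
  induction t generalizing v with
  | zero =>
    rw [h.zero e] at hv
    exact absurd hv (by simp)
  | succ t ih =>
    rcases h.step e t with h1 | ⟨w, hw, h2, _, _⟩
    · rw [h1] at hv
      exact (ih hv).trans (hF.mono e (Nat.le_succ t))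
    · have hwv : w = v := by
        rw [hw] at hv
        exact Option.some.inj hv
      subst hwv
      exact h2.le

/-- If the label is constant from `t` on and correct then the state is constant from `t` on. -/
theorem Corr.state {V : ℕ → ℕ → Bool} {S : Finset (Fin L.K)}
    {lam : ℕ → ℕ → Option (Fin L.K)} (hF : IsAp F) (h : L.IsLab F V S lam) {e : ℕ}
    (hc : L.Corr F lam e) {f : ℕ → X} (hf : Lim F f) : ∃ v, L.Last lam e v ∧ L.lab v = f e := by
  obtain ⟨v, t, ht⟩ := hc
  obtain ⟨s, hs⟩ := hf e
  refine ⟨v, ⟨t, fun u hu => (ht u hu).1⟩, ?_⟩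
  rw [← hs (max t s) (le_max_right _ _)]
  exact (ht (max t s) (le_max_left _ _)).2.symm

/-- A finite stream is bounded by every forest, and only finite streams are bounded by the
empty forest. -/
theorem bdd_empty_iff {V : ℕ → ℕ → Bool} : L.Bdd F V ∅ ↔ {e | In V e}.Finite := by
  constructor
  · rintro ⟨lam, h, hfin⟩
    refine hfin.subset ?_
    intro e he
    refine ⟨he, ?_⟩
    rintro ⟨v, t, ht⟩
    obtain ⟨s, hs, _⟩ := h.node (ht t le_rfl).1
    simp at hs
  · intro hfin
    refine ⟨fun _ _ => none, ⟨?_, fun _ => rfl, fun _ _ _ => rfl, fun _ _ => Or.inl rfl⟩, ?_⟩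
    · exact (Primrec.const none).to₂
    · exact hfin.subset fun e he => he.1

private theorem labA_enter {V : ℕ → ℕ → Bool} {e t : ℕ} (h : V e t = true) :
    ∃ t0, t0 ≤ t ∧ Enter V e t0 := by
  classical
  have hex : ∃ u, V e u = true := ⟨t, h⟩
  refine ⟨Nat.find hex, Nat.find_min' hex h, Nat.find_spec hex, fun u hu => ?_⟩
  have := Nat.find_min hex hu
  simpa using this

/-- A stream at `c` is bounded by `c`. -/
theorem AtC.bdd {lam : ℕ → ℕ → Option (Fin L.K)} {V : ℕ → ℕ → Bool} {c : Fin L.K}
    {S : Finset (Fin L.K)} (hF : IsAp F) (hlam : L.IsLab F allSt S lam)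
    (hcor : {e | ¬ L.Corr F lam e}.Finite) (hV : L.AtC F lam V c) : L.Bdd F V {c} := by
  have hmono : ∀ {e s t : ℕ}, s ≤ t → V e s = true → V e t = true := fun hst h =>
    hV.ap.true_of_le hst h
  refine ⟨fun e t => if V e t = true then lam e t else none, ⟨?_, ?_, ?_, ?_⟩, ?_⟩
  · have h1 : PrimrecPred fun p : ℕ × ℕ => V p.1 p.2 = true :=
      Primrec.eq.comp hV.ap.prim (Primrec.const true)
    exact Primrec.ite h1 hlam.prim (Primrec.const none)
  · intro e
    show (if V e 0 = true then lam e 0 else none) = none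
    rw [hlam.zero e, ite_self]
  · intro e t h
    show (if V e t = true then lam e t else none) = none
    rw [if_neg (by rw [h]; simp)]
  · intro e t
    show (if V e (t + 1) = true then lam e (t + 1) else none) =
      (if V e t = true then lam e t else none) ∨ ∃ v,
        (if V e (t + 1) = true then lam e (t + 1) else none) = some v ∧
        L.lab v = F e (t + 1) ∧
        (∀ u, (if V e t = true then lam e t else none) = some u → L.Desc u v) ∧
        ((if V e t = true then lam e t else none) = none → L.Node {c} v)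
    by_cases h1 : V e t = true
    · have h2 : V e (t + 1) = true := hmono (Nat.le_succ t) h1
      rw [if_pos h1, if_pos h2]
      rcases hlam.step e t with h3 | ⟨v, h3, h4, h5, _⟩
      · exact Or.inl h3
      · refine Or.inr ⟨v, h3, h4, h5, fun h6 => ?_⟩
        obtain ⟨t0, ht0, hen⟩ := labA_enter h1
        obtain ⟨w, hw, _⟩ := hlam.later ht0 (hV.at_c e t0 hen).1
        rw [h6] at hw
        exact absurd hw (by simp)
    · rw [if_neg h1]
      by_cases h2 : V e (t + 1) = true
      · rw [if_pos h2]
        have hen : Enter V e (t + 1) := by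
          refine ⟨h2, fun u hu => ?_⟩
          by_contra h3
          exact h1 (hmono (Nat.lt_succ_iff.mp hu) (by simpa using h3))
        obtain ⟨h3, h4⟩ := hV.at_c e (t + 1) hen
        exact Or.inr ⟨c, h3, h4.symm, fun u hu => absurd hu (by simp),
          fun _ => Node.of_mem (Finset.mem_singleton_self c)⟩
      · rw [if_neg h2]
        exact Or.inl rfl
  · refine hcor.subset ?_
    rintro e ⟨⟨s, hs⟩, hn⟩ hc
    apply hn
    obtain ⟨v, t, ht⟩ := hc
    refine ⟨v, max t s, fun u hu => ?_⟩
    have h1 : V e u = true := hmono ((le_max_right _ _).trans hu) hs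
    show (if V e u = true then lam e u else none) = some v ∧ _
    rw [if_pos h1]
    exact ht u ((le_max_left _ _).trans hu)

end TSys

end Pool.Agent.Lib.MP_45c83f_lc
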