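import Pool.Agent.Lib.MP_45c83f_lc.Glue
import Pool.Agent.Lib.MP_45c83f_lc.TypesC

set_option autoImplicit false

/-!
# Labellings: Lemma A (text, 5.2)
-/

namespace Pool.Agent.Lib.MP_45c83f_lc

namespace TSys

variable {X : Type} [PartialOrder X] [Finite X] [Primcodable X] {L : TSys X} {F : ℕ → ℕ → X}
  {S : Finset (Fin L.K)} {lam : ℕ → ℕ → Option (Fin L.K)}

omit [PartialOrder X] [Finite X] [Primcodable X] in
private theorem LabL_iff [PartialOrder X] {L : TSys X} {lam : ℕ → ℕ → Option (Fin L.K)}
    {s : Fin L.K} {e t : ℕ} : L.rootSt lam s e t = true ↔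
      ∃ u, u < t ∧ lam e u = none ∧ lam e (u + 1) = some s := by
  unfold rootSt
  exact decide_eq_true_iff

omit [Finite X] [Primcodable X] in
private theorem LabL_succ {s : Fin L.K} {e t : ℕ} (h : L.rootSt lam s e (t + 1) = true)
    (h' : ¬ L.rootSt lam s e t = true) : lam e t = none ∧ lam e (t + 1) = some s := by
  obtain ⟨u, hu, h1, h2⟩ := LabL_iff.mp h
  rcases Nat.lt_succ_iff_lt_or_eq.mp hu with h3 | h3
  · exact absurd (LabL_iff.mpr ⟨u, h3, h1, h2⟩) h'
  · rw [← h3]
    exact ⟨h1, h2⟩

omit [Finite X] [Primcodable X] in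
private theorem LabL_ap (hlam : Primrec₂ lam) (s : Fin L.K) : IsAp (L.rootSt lam s) := by
  refine ⟨?_, ?_⟩
  · have h0 : PrimrecRel fun (u e : ℕ) => lam e u = none := by
      have h1 : PrimrecPred fun p : ℕ × ℕ => lam p.2 p.1 = none :=
        PrimrecRel.comp (Primrec.eq) (hlam.comp Primrec.snd Primrec.fst) (Primrec.const none)
      exact h1
    have h0' : PrimrecRel fun (u e : ℕ) => lam e (u + 1) = some s := by
      have h1 : PrimrecPred fun p : ℕ × ℕ => lam p.2 (p.1 + 1) = some s :=
        PrimrecRel.comp (Primrec.eq)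
          (hlam.comp Primrec.snd (Primrec.succ.comp Primrec.fst)) (Primrec.const (some s))
      exact h1
    have h2 : PrimrecRel fun (u e : ℕ) => lam e u = none ∧ lam e (u + 1) = some s :=
      PrimrecPred.and h0 h0'
    have h3 := h2.exists_lt
    have h4 : PrimrecPred fun p : ℕ × ℕ => ∃ u < p.2, lam p.1 u = none ∧
        lam p.1 (u + 1) = some s :=
      PrimrecPred.comp (p := fun p : ℕ × ℕ => ∃ u < p.1, lam p.2 u = none ∧
        lam p.2 (u + 1) = some s)
        (f := fun p : ℕ × ℕ => (p.2, p.1)) h3 (Primrec.pair Primrec.snd Primrec.fst)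
    exact h4.decide
  · intro e t t' htt
    rw [Bool.le_iff_imp]
    intro h
    obtain ⟨u, hu, h1⟩ := LabL_iff.mp h
    exact LabL_iff.mpr ⟨u, lt_of_lt_of_le hu htt, h1⟩

omit [Finite X] [Primcodable X] in
private theorem LabL_atC (hlam : L.IsLab F allSt S lam) (s : Fin L.K) :
    L.AtC F lam (L.rootSt lam s) s := by
  refine ⟨LabL_ap hlam.prim s, ?_⟩
  rintro e t ⟨h1, h2⟩
  cases t with
  | zero =>
    obtain ⟨u, hu, -⟩ := LabL_iff.mp h1
    exact absurd hu (Nat.not_lt_zero u)
  | succ t =>
    have h3 : ¬ L.rootSt lam s e t = true := by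
      rw [h2 t (Nat.lt_succ_self t)]
      exact Bool.false_ne_true
    obtain ⟨h4, h5⟩ := LabL_succ h1 h3
    refine ⟨h5, ?_⟩
    rcases hlam.step e t with h | ⟨v, h6, h7, -⟩
    · rw [h4, h5] at h
      exact absurd h (by simp)
    · rw [h5] at h6
      rw [← h7, Option.some.inj h6]

/-- The labelling of the elements outside the root stream. -/
private def LabL_mu (L : TSys X) (lam : ℕ → ℕ → Option (Fin L.K)) (s : Fin L.K) (e t : ℕ) :
    Option (Fin L.K) := if L.rootSt lam s e t = true then none else lam e t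

omit [Finite X] [Primcodable X] in
private theorem LabL_mu_lab (hlam : L.IsLab F allSt S lam) (s : Fin L.K) :
    L.IsLab F allSt (S.erase s ∪ L.ch s) (LabL_mu L lam s) := by
  have hap := LabL_ap hlam.prim s
  refine ⟨?_, ?_, ?_, ?_⟩
  · have h1 : Primrec fun p : ℕ × ℕ => if L.rootSt lam s p.1 p.2 = true then none
        else lam p.1 p.2 := by
      have h2 : PrimrecPred fun p : ℕ × ℕ => L.rootSt lam s p.1 p.2 = true :=
        PrimrecRel.comp (Primrec.eq) hap.prim (Primrec.const true)
      exact Primrec.ite h2 (Primrec.const none) hlam.prim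
    exact h1
  · intro e
    unfold LabL_mu
    split_ifs
    · rfl
    · exact hlam.zero e
  · intro e t h
    exact absurd h (by simp [allSt])
  · intro e t
    by_cases h1 : L.rootSt lam s e (t + 1) = true
    · left
      by_cases h2 : L.rootSt lam s e t = true
      · simp [LabL_mu, h1, h2]
      · obtain ⟨h3, -⟩ := LabL_succ h1 h2
        simp [LabL_mu, h1, h3]
    · have h2 : ¬ L.rootSt lam s e t = true := fun h => h1 (hap.true_of_le (Nat.le_succ t) h)
      have e1 : LabL_mu L lam s e (t + 1) = lam e (t + 1) := by simp [LabL_mu, h1]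
      have e2 : LabL_mu L lam s e t = lam e t := by simp [LabL_mu, h2]
      rw [e1, e2]
      rcases hlam.step e t with h | ⟨v, h3, h4, h5, h6⟩
      · exact Or.inl h
      · refine Or.inr ⟨v, h3, h4, h5, fun h7 => ?_⟩
        have h8 : s ≠ v := by
          rintro rfl
          exact h1 (LabL_iff.mpr ⟨t, Nat.lt_succ_self t, h7, h3⟩)
        obtain ⟨s', hs', h9⟩ := h6 h7
        rw [node_union]
        by_cases h10 : s' = s
        · subst h10
          rcases h9 with h9 | h9
          · exact absurd h9 h8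
          · exact Or.inr (desc_iff_node.mp h9)
        · exact Or.inl ⟨s', Finset.mem_erase.mpr ⟨h10, hs'⟩, h9⟩

/-- The decision function. -/
private def LabL_d (L : TSys X) (lam : ℕ → ℕ → Option (Fin L.K)) (s : Fin L.K) (e t : ℕ) :
    Option (Fin 2) :=
  if L.rootSt lam s e t = true then some 1 else if lam e t = none then none else some 0

omit [Finite X] [Primcodable X] in
private theorem LabL_d_prim (hlam : Primrec₂ lam) (s : Fin L.K) : Primrec₂ (LabL_d L lam s) := by
  have hap := LabL_ap hlam s
  have h1 : Primrec fun p : ℕ × ℕ => if L.rootSt lam s p.1 p.2 = true then some (1 : Fin 2)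
      else if lam p.1 p.2 = none then none else some 0 := by
    have h2 : PrimrecPred fun p : ℕ × ℕ => L.rootSt lam s p.1 p.2 = true :=
      PrimrecRel.comp (Primrec.eq) hap.prim (Primrec.const true)
    have h3 : PrimrecPred fun p : ℕ × ℕ => lam p.1 p.2 = none :=
      PrimrecRel.comp (Primrec.eq) hlam (Primrec.const none)
    exact Primrec.ite h2 (Primrec.const _) (Primrec.ite h3 (Primrec.const _) (Primrec.const _))
  exact h1

omit [Finite X] [Primcodable X] in
private theorem LabL_d_pers (hlam : L.IsLab F allSt S lam) (s : Fin L.K) (e t : ℕ) (i : Fin 2)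
    (h : LabL_d L lam s e t = some i) : LabL_d L lam s e (t + 1) = some i := by
  have hap := LabL_ap hlam.prim s
  by_cases h1 : L.rootSt lam s e t = true
  · have h2 := hap.true_of_le (Nat.le_succ t) h1
    have h3 : LabL_d L lam s e (t + 1) = LabL_d L lam s e t := by
      unfold LabL_d
      rw [if_pos h1, if_pos h2]
    rw [h3, h]
  · by_cases h2 : lam e t = none
    · unfold LabL_d at h
      rw [if_neg h1, if_pos h2] at h
      exact absurd h (by simp)
    · have h3 : ¬ L.rootSt lam s e (t + 1) = true := fun h3 => h2 (LabL_succ h3 h1).1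
      have h4 : lam e (t + 1) ≠ none := by
        rcases hlam.step e t with h5 | ⟨v, h5, -⟩
        · rw [h5]
          exact h2
        · rw [h5]
          simp
      have h6 : LabL_d L lam s e (t + 1) = LabL_d L lam s e t := by
        unfold LabL_d
        rw [if_neg h1, if_neg h3, if_neg h2, if_neg h4]
      rw [h6, h]

private theorem LabL_bdd (hF : IsAp F) (hlam : L.IsLab F allSt S lam)
    (hcor : {e | ¬ L.Corr F lam e}.Finite) (s : Fin L.K) {S'' : Finset (Fin L.K)}
    (h : L.Bdd F (L.rootSt lam s) S'') : L.Bdd F allSt (S.erase s ∪ L.ch s ∪ S'') := by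
  obtain ⟨mu, hmu, hfin⟩ := h
  obtain ⟨lam', h1, -, h3⟩ := glue (L := L) (F := F) hF (k := 2)
    (fun i => if i = 0 then allSt else L.rootSt lam s)
    (fun i => if i = 0 then S.erase s ∪ L.ch s else S'')
    (fun i => if i = 0 then LabL_mu L lam s else mu)
    (by
      intro i
      by_cases hi : i = 0
      · simp only [if_pos hi]
        exact LabL_mu_lab hlam s
      · simp only [if_neg hi]
        exact hmu)
    (LabL_d_prim hlam.prim s) (LabL_d_pers hlam s) (V := allSt) (fun _ _ _ _ => rfl)
    (S' := S.erase s ∪ L.ch s ∪ S'')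
    (by
      intro i v hv
      rw [node_union]
      by_cases hi : i = 0
      · simp only [if_pos hi] at hv
        exact Or.inl hv
      · simp only [if_neg hi] at hv
        exact Or.inr hv)
  refine ⟨lam', h1, (hcor.union hfin).subset ?_⟩
  rintro e ⟨-, he⟩
  by_contra hn
  have hn1 : L.Corr F lam e := by
    by_contra h4
    exact hn (Or.inl h4)
  have hn2 : In (L.rootSt lam s) e → L.Corr F mu e := by
    intro h4
    by_contra h5
    exact hn (Or.inr ⟨h4, h5⟩)
  apply he
  by_cases h4 : In (L.rootSt lam s) e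
  · obtain ⟨t, ht⟩ := h4
    refine h3 e 1 t ?_ ?_
    · unfold LabL_d
      rw [if_pos ht]
    · simp only [if_neg (one_ne_zero : (1 : Fin 2) ≠ 0)]
      exact hn2 ⟨t, ht⟩
  · have h5 : ∀ t, ¬ L.rootSt lam s e t = true := fun t ht => h4 ⟨t, ht⟩
    obtain ⟨v, t, hv⟩ := hn1
    refine h3 e 0 t ?_ ?_
    · unfold LabL_d
      rw [if_neg (h5 t), if_neg]
      rw [(hv t le_rfl).1]
      simp
    · simp only [if_pos]
      refine ⟨v, t, fun u hu => ?_⟩
      have h6 : LabL_mu L lam s e u = lam e u := by
        unfold LabL_mu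
        rw [if_neg (h5 u)]
      rw [h6]
      exact hv u hu

/-- Lemma A. -/
theorem lemA (hF : IsAp F) (hlam : L.IsLab F allSt S lam) (hcor : {e | ¬ L.Corr F lam e}.Finite)
    (hex : L.Exact F allSt S) (hS : L.Red S) {s : Fin L.K} (hs : s ∈ S) :
    L.AtC F lam (L.rootSt lam s) s ∧ L.Exact F (L.rootSt lam s) {s} := by
  have hat := LabL_atC hlam s
  refine ⟨hat, hat.bdd hF hlam hcor, ?_⟩
  intro S'' hlt hb
  exact hex.2 _ (ltF_A hS hs hlt) (LabL_bdd hF hlam hcor s hb)

end TSys

end Pool.Agent.Lib.MP_45c83f_lc
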