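import Pool.Agent.Lib.MP_45c83f_lc.Glue

set_option autoImplicit false

/-!
# Labellings: substreams and unions
-/

namespace Pool.Agent.Lib.MP_45c83f_lc

namespace TSys

variable {X : Type} [PartialOrder X] [Finite X] [Primcodable X] {L : TSys X} {F : ℕ → ℕ → X}

/-- (5.1c), (5.1d) at `c`: finite changes and substreams with the same label. -/
theorem Bdd.sub {lam : ℕ → ℕ → Option (Fin L.K)} {V W : ℕ → ℕ → Bool} {c : Fin L.K}
    {S : Finset (Fin L.K)} (hF : IsAp F) (hV : L.AtC F lam V c) (hW : L.AtC F lam W c)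
    (hsub : {e | ∃ t, W e t = true ∧ V e t = false}.Finite) (h : L.Bdd F V S) :
    L.Bdd F W S := by
  obtain ⟨mu, hmu, hfin⟩ := h
  let G : Bool × Bool → Option (Fin 1) := fun p => if p.1 = true ∧ p.2 = true then some 0 else none
  have hG : Primrec G := Primrec.dom_finite _
  have hG0 : ∀ a b : Bool, ∀ i, G (a, b) = some i → a = true ∧ b = true := by
    intro a b i hi
    by_contra hcon
    simp only [G, if_neg hcon] at hi
    exact absurd hi (by simp)
  have hG1 : ∀ a b : Bool, a = true → b = true → G (a, b) = some 0 := by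
    intro a b ha hb
    simp only [G, if_pos (And.intro ha hb)]
  obtain ⟨lam', h1, -, h3⟩ := glue hF (k := 1) (fun _ => V) (fun _ => S) (fun _ => mu)
    (fun _ => hmu) (d := fun e t => G (W e t, V e t))
    (hG.comp (Primrec.pair hW.ap.prim hV.ap.prim))
    (by
      intro e t i hi
      obtain ⟨ha, hb⟩ := hG0 _ _ i hi
      have h4 := hW.ap.true_of_le (Nat.le_succ t) ha
      have h5 := hV.ap.true_of_le (Nat.le_succ t) hb
      rw [show G (W e (t + 1), V e (t + 1)) = some 0 from hG1 _ _ h4 h5]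
      congr 1
      exact Subsingleton.elim _ _)
    (V := W) (fun e t i hi => (hG0 _ _ i hi).1) (S' := S) (fun _ _ hv => hv)
  refine ⟨lam', h1, (hfin.union hsub).subset ?_⟩
  rintro e ⟨⟨t, ht⟩, hc⟩
  by_cases hVt : V e t = true
  · left
    refine ⟨⟨t, hVt⟩, fun hcc => hc ?_⟩
    exact h3 e 0 t (hG1 _ _ ht hVt) hcc
  · right
    exact ⟨t, ht, by simpa using hVt⟩

/-- The decision between two streams: the first one which is entered. -/
private def dec (V W : ℕ → ℕ → Bool) (e : ℕ) : ℕ → Option (Fin 2)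
  | 0 => none
  | t + 1 => (dec V W e t).elim (if V e t = true then some 0 else
      if W e t = true then some 1 else none) some

private theorem dec_prim {V W : ℕ → ℕ → Bool} (hV : Primrec₂ V) (hW : Primrec₂ W) :
    Primrec₂ (dec V W) := by
  let G : Option (Fin 2) × Bool × Bool → Option (Fin 2) := fun p =>
    p.1.elim (if p.2.1 = true then some 0 else if p.2.2 = true then some 1 else none) some
  have hG : Primrec G := Primrec.dom_finite _
  have h1 : Primrec₂ fun (e t : ℕ) => (Nat.rec none (fun t x => G (x, V e t, W e t)) t :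
      Option (Fin 2)) := by
    refine Primrec.nat_rec (f := fun _ : ℕ => (none : Option (Fin 2)))
      (g := fun (e : ℕ) (p : ℕ × Option (Fin 2)) => G (p.2, V e p.1, W e p.1))
      (Primrec.const none) ?_
    refine hG.comp (Primrec.pair (Primrec.snd.comp Primrec.snd) (Primrec.pair ?_ ?_))
    · exact Primrec₂.comp hV Primrec.fst (Primrec.fst.comp Primrec.snd)
    · exact Primrec₂.comp hW Primrec.fst (Primrec.fst.comp Primrec.snd)
  refine h1.of_eq fun e t => ?_
  induction t with
  | zero => rfl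
  | succ t ih =>
    show G (Nat.rec none (fun t x => G (x, V e t, W e t)) t, V e t, W e t) = dec V W e (t + 1)
    rw [ih]
    rfl

private theorem dec_spec {V W : ℕ → ℕ → Bool} {e : ℕ} : ∀ {t : ℕ} {i : Fin 2},
    dec V W e t = some i → (i = 0 ∧ ∃ u, u < t ∧ V e u = true) ∨
      (i = 1 ∧ ∃ u, u < t ∧ W e u = true) := by
  intro t
  induction t with
  | zero =>
    intro i hi
    exact absurd hi (by simp [dec])
  | succ t ih =>
    intro i hi
    rw [dec] at hi
    rcases ho : dec V W e t with _ | j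
    · rw [ho, Option.elim_none] at hi
      by_cases hVt : V e t = true
      · rw [if_pos hVt, Option.some.injEq] at hi
        exact Or.inl ⟨hi.symm, t, Nat.lt_succ_self t, hVt⟩
      · rw [if_neg hVt] at hi
        by_cases hWt : W e t = true
        · rw [if_pos hWt, Option.some.injEq] at hi
          exact Or.inr ⟨hi.symm, t, Nat.lt_succ_self t, hWt⟩
        · rw [if_neg hWt] at hi
          exact absurd hi (by simp)
    · rw [ho, Option.elim_some, Option.some.injEq] at hi
      subst hi
      rcases ih ho with ⟨h1, u, h2, h3⟩ | ⟨h1, u, h2, h3⟩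
      · exact Or.inl ⟨h1, u, by omega, h3⟩
      · exact Or.inr ⟨h1, u, by omega, h3⟩

private theorem dec_ex {V W : ℕ → ℕ → Bool} {e t : ℕ} (h : V e t = true ∨ W e t = true) :
    ∃ i, dec V W e (t + 1) = some i := by
  rw [dec]
  rcases ho : dec V W e t with _ | j
  · rw [Option.elim_none]
    by_cases hVt : V e t = true
    · exact ⟨0, by rw [if_pos hVt]⟩
    · rw [if_neg hVt, if_pos (h.resolve_left hVt)]
      exact ⟨1, rfl⟩
  · exact ⟨j, by rw [Option.elim_some]⟩

/-- (5.1d) -/
theorem Bdd.union {lam : ℕ → ℕ → Option (Fin L.K)} {V W : ℕ → ℕ → Bool} {c : Fin L.K}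
    {S : Finset (Fin L.K)} (hF : IsAp F) (hV : L.AtC F lam V c) (hW : L.AtC F lam W c)
    (h : L.Bdd F V S) (h' : L.Bdd F W S) : L.Bdd F (fun e t => V e t || W e t) S := by
  obtain ⟨mu, hmu, hfin⟩ := h
  obtain ⟨mu', hmu', hfin'⟩ := h'
  obtain ⟨lam', h1, -, h3⟩ := glue hF (k := 2) (![V, W]) (fun _ => S) (![mu, mu'])
    (by
      intro i
      fin_cases i
      · exact hmu
      · exact hmu')
    (d := dec V W) (dec_prim hV.ap.prim hW.ap.prim)
    (by
      intro e t i hi
      rw [dec, hi, Option.elim_some])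
    (V := fun e t => V e t || W e t)
    (by
      intro e t i hi
      rw [Bool.or_eq_true]
      rcases dec_spec hi with ⟨-, u, h2, h3⟩ | ⟨-, u, h2, h3⟩
      · exact Or.inl (hV.ap.true_of_le h2.le h3)
      · exact Or.inr (hW.ap.true_of_le h2.le h3))
    (S' := S) (fun _ _ hv => hv)
  refine ⟨lam', h1, (hfin.union hfin').subset ?_⟩
  rintro e ⟨⟨t, ht⟩, hc⟩
  rw [Bool.or_eq_true] at ht
  obtain ⟨i, hi⟩ := dec_ex ht
  rcases dec_spec hi with ⟨rfl, u, h2, h4⟩ | ⟨rfl, u, h2, h4⟩
  · left
    exact ⟨⟨u, h4⟩, fun hcc => hc (h3 e 0 (t + 1) hi hcc)⟩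
  · right
    exact ⟨⟨u, h4⟩, fun hcc => hc (h3 e 1 (t + 1) hi hcc)⟩

end TSys

end Pool.Agent.Lib.MP_45c83f_lc
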