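import Mathlib

set_option autoImplicit false

/-!
# The language `L(⊆, ∪, ∩, 0, 1)` and the `∃∀∃`-sentences over the lattice of r.e. sets
-/

namespace Pool.Agent.Lib.MP_45c83f_lc

/-- The terms of the language `L(⊆, ∪, ∩, 0, 1)`, with variables indexed by the natural
numbers. -/
inductive Tm : Type
  | bot : Tm
  | top : Tm
  | var : ℕ → Tm
  | sup : Tm → Tm → Tm
  | inf : Tm → Tm → Tm

/-- The quantifier-free formulas of the language. -/
inductive Fm : Type
  | sub : Tm → Tm → Fm
  | eq : Tm → Tm → Fm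
  | neg : Fm → Fm
  | and : Fm → Fm → Fm
  | or : Fm → Fm → Fm

/-- The value of a term in the lattice of sets of natural numbers. -/
def Tm.val (v : ℕ → Set ℕ) : Tm → Set ℕ
  | .bot => ∅
  | .top => Set.univ
  | .var i => v i
  | .sup a b => a.val v ∪ b.val v
  | .inf a b => a.val v ∩ b.val v

/-- Satisfaction of a quantifier-free formula. -/
def Fm.Sat (v : ℕ → Set ℕ) : Fm → Prop
  | .sub a b => a.val v ⊆ b.val v
  | .eq a b => a.val v = b.val v
  | .neg φ => ¬ φ.Sat v
  | .and φ ψ => φ.Sat v ∧ ψ.Sat v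
  | .or φ ψ => φ.Sat v ∨ ψ.Sat v

/-- All variables of the term are among `var 0, ..., var (N - 1)`. -/
def Tm.Closed (N : ℕ) : Tm → Prop
  | .bot => True
  | .top => True
  | .var i => i < N
  | .sup a b => a.Closed N ∧ b.Closed N
  | .inf a b => a.Closed N ∧ b.Closed N

/-- All variables of the formula are among `var 0, ..., var (N - 1)`. -/
def Fm.Closed (N : ℕ) : Fm → Prop
  | .sub a b => a.Closed N ∧ b.Closed N
  | .eq a b => a.Closed N ∧ b.Closed N
  | .neg φ => φ.Closed N
  | .and φ ψ => φ.Closed N ∧ ψ.Closed N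
  | .or φ ψ => φ.Closed N ∧ ψ.Closed N

/-- The Goedel number of a term. -/
def Tm.code : Tm → ℕ
  | .bot => 0
  | .top => 1
  | .var i => 3 * i + 2
  | .sup a b => 3 * Nat.pair a.code b.code + 3
  | .inf a b => 3 * Nat.pair a.code b.code + 4

/-- The Goedel number of a quantifier-free formula. -/
def Fm.code : Fm → ℕ
  | .sub a b => 5 * Nat.pair a.code b.code
  | .eq a b => 5 * Nat.pair a.code b.code + 1
  | .neg φ => 5 * φ.code + 2
  | .and φ ψ => 5 * Nat.pair φ.code ψ.code + 3
  | .or φ ψ => 5 * Nat.pair φ.code ψ.code + 4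

/-- The r.e. sets of natural numbers. -/
def IsRE (A : Set ℕ) : Prop := REPred fun e => e ∈ A

/-- The valuation with the blocks `x` (variables `0, ..., n - 1`), `y` (variables
`n, ..., n + m - 1`) and `z` (variables `n + m, ..., n + m + k - 1`). -/
def val3 {n m k : ℕ} (x : Fin n → Set ℕ) (y : Fin m → Set ℕ) (z : Fin k → Set ℕ) (i : ℕ) :
    Set ℕ :=
  if h : i < n then x ⟨i, h⟩ else if h : i - n < m then y ⟨i - n, h⟩ else
    if h : i - n - m < k then z ⟨i - n - m, h⟩ else ∅

/-- An `∃∀∃`-sentence: `∃ v_0 ... v_(n-1) ∀ v_n ... v_(n+m-1) ∃ v_(n+m) ... v_(n+m+k-1) φ`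
with a quantifier-free matrix `φ`. -/
structure Sentence : Type where
  /-- the number of variables of the outer existential block -/
  n : ℕ
  /-- the number of variables of the universal block -/
  m : ℕ
  /-- the number of variables of the inner existential block -/
  k : ℕ
  /-- the quantifier-free matrix -/
  φ : Fm
  closed : φ.Closed (n + m + k)

/-- The Goedel number of an `∃∀∃`-sentence. -/
def Sentence.code (S : Sentence) : ℕ :=
  Nat.pair S.n (Nat.pair S.m (Nat.pair S.k S.φ.code))

/-- The sentence is true in the lattice of r.e. sets. -/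
def Sentence.Holds (S : Sentence) : Prop :=
  ∃ x : Fin S.n → Set ℕ, (∀ i, IsRE (x i)) ∧
    ∀ y : Fin S.m → Set ℕ, (∀ i, IsRE (y i)) →
      ∃ z : Fin S.k → Set ℕ, (∀ i, IsRE (z i)) ∧ S.φ.Sat (val3 x y z)

end Pool.Agent.Lib.MP_45c83f_lc
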