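import Pool.Agent.Lib.MP_45c83f_lc.Basics
import Pool.Agent.Lib.MP_45c83f_lc.Syntax

set_option autoImplicit false

/-!
# Primitive recursive approximations and Mathlib's r.e. predicates
-/

namespace Pool.Agent.Lib.MP_45c83f_lc

open Nat.Partrec (Code)
open Encodable Denumerable

/-- The r.e. sets in the sense of Mathlib have primitive recursive approximations. -/
theorem isRE_iff_reSet (A : Set ℕ) : IsRE A ↔ RESet A := by
  classical
  constructor
  · intro h
    have h1 : Partrec fun e : ℕ => (Part.assert (e ∈ A) fun _ => Part.some ()) := h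
    obtain ⟨c, hc⟩ := Code.exists_code.1 h1
    have hdom : ∀ e, e ∈ A ↔ (Code.eval c e).Dom := by
      intro e
      rw [hc]
      simp [Part.assert, Part.bind]
    refine RESet.of_exists (R := fun e s => (Code.evaln s c e).isSome = true) ?_ ?_
    · have h2 : Primrec fun p : ℕ × ℕ => (Code.evaln p.2 c p.1).isSome := by
        refine Primrec.option_isSome.comp ?_
        exact Code.primrec_evaln.comp (f := fun a : (ℕ × Code) × ℕ => Code.evaln a.1.1 a.1.2 a.2)
          (g := fun p : ℕ × ℕ => ((p.2, c), p.1))
          (Primrec.pair (Primrec.pair Primrec.snd (Primrec.const c)) Primrec.fst)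
      have h3 : PrimrecPred fun p : ℕ × ℕ => (Code.evaln p.2 c p.1).isSome = true :=
        PrimrecRel.comp Primrec.eq h2 (Primrec.const true)
      exact h3
    · intro e
      rw [hdom]
      constructor
      · intro hd
        obtain ⟨k, hk⟩ := Code.evaln_complete.1 (Part.get_mem hd)
        exact ⟨k, by rw [Option.mem_def.1 hk]; rfl⟩
      · rintro ⟨k, hk⟩
        obtain ⟨x, hx⟩ := Option.isSome_iff_exists.1 hk
        exact Part.dom_iff_mem.2 ⟨x, Code.evaln_sound (Option.mem_def.2 hx)⟩
  · rintro ⟨f, hf, hA⟩
    have h1 : Partrec fun e : ℕ => Nat.rfind fun s => (Part.some (f e s) : Part Bool) := by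
      refine Partrec.rfind (p := fun (e s : ℕ) => (Part.some (f e s) : Part Bool)) ?_
      exact hf.prim.to_comp.partrec
    refine REPred.of_eq h1.dom_re fun e => ?_
    rw [hA]
    constructor
    · intro hd
      have := Nat.rfind_spec (Part.get_mem hd)
      exact ⟨_, (Part.mem_some_iff.1 this).symm⟩
    · rintro ⟨s, hs⟩
      exact Nat.rfind_dom.2 ⟨s, by simp [hs], fun _ => trivial⟩

/-- Tuples of r.e. sets are r.e. functions with values in the cube. -/
theorem re_pi_iff {n : ℕ} (g : ℕ → Fin n → Bool) :
    RE g ↔ ∀ i, IsRE {e | g e i = true} := by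
  classical
  constructor
  · intro h i
    rw [isRE_iff_reSet]
    have h1 := h.reSet (fun j => decide (j = i))
    have h2 : {e | (fun j => decide (j = i)) ≤ g e} = {e | g e i = true} := by
      ext e
      simp only [Set.mem_ofPred_eq, Pi.le_def]
      constructor
      · intro h
        have := h i
        rw [Bool.le_iff_imp] at this
        exact this (by simp)
      · intro h j
        rw [Bool.le_iff_imp]
        intro hj
        rw [decide_eq_true_iff] at hj
        rw [hj]
        exact h
    rwa [h2] at h1
  · intro h
    refine RE.of_reSet fun η => ?_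
    have h2 : {e | η ≤ g e} = ⋂ i ∈ Finset.univ.filter (fun i => η i = true),
        {e | g e i = true} := by
      ext e
      simp only [Set.mem_ofPred_eq, Pi.le_def, Finset.mem_filter, Finset.mem_univ, true_and,
        Set.mem_iInter]
      exact forall_congr' fun i => Bool.le_iff_imp
    rw [h2]
    exact RESet.biInter _ fun i _ => (isRE_iff_reSet _).1 (h i)

end Pool.Agent.Lib.MP_45c83f_lc
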