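import Pool.Agent.Lib.MP_45c83f_lc.MaxSet
import Pool.Agent.Lib.MP_45c83f_lc.Link

set_option autoImplicit false

/-!
# Maximal sets in recursive sets
-/

namespace Pool.Agent.Lib.MP_45c83f_lc

/-- Recursive sets are the computable predicates. -/
theorem maxIn_rec_iff {R : Set ℕ} : Rec R ↔ ComputablePred (fun e => e ∈ R) := by
  rw [ComputablePred.computable_iff_re_compl_re']
  unfold Rec
  rw [← isRE_iff_reSet, ← isRE_iff_reSet]
  rfl

/-- Preimages under computable functions. -/
theorem maxIn_preimage {A : Set ℕ} (hA : RESet A) {φ : ℕ → ℕ} (hφ : Computable φ) :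
    RESet (φ ⁻¹' A) := by
  rw [← isRE_iff_reSet] at hA ⊢
  exact Partrec.comp hA hφ

/-- Projections of computable relations. -/
theorem maxIn_proj {A : Set ℕ} {P : ℕ → ℕ → Bool} (hP : Computable₂ P)
    (h : ∀ y, y ∈ A ↔ ∃ n, P y n = true) : RESet A := by
  rw [← isRE_iff_reSet]
  have h1 : Partrec (fun y => Nat.rfind fun n => Part.some (P y n)) := Partrec.rfind hP.partrec₂
  refine h1.dom_re.of_eq fun y => ?_
  rw [h y]
  refine (Nat.rfind_dom (p := fun n => Part.some (P y n))).trans ?_
  constructor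
  · rintro ⟨n, hn, -⟩
    exact ⟨n, (Part.mem_some_iff.1 hn).symm⟩
  · rintro ⟨n, hn⟩
    exact ⟨n, Part.mem_some_iff.2 hn.symm, fun _ => trivial⟩

/-- Images under computable functions. -/
theorem maxIn_image {A : Set ℕ} (hA : RESet A) {φ : ℕ → ℕ} (hφ : Computable φ) :
    RESet (φ '' A) := by
  obtain ⟨f, hf, hfA⟩ := hA
  have hf' : Computable₂ f := hf.prim.to_comp
  refine maxIn_proj (P := fun y n => f n.unpair.1 n.unpair.2 && decide (φ n.unpair.1 = y)) ?_ ?_
  · have u : Computable fun p : ℕ × ℕ => p.2.unpair :=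
      (Primrec.unpair.comp Primrec.snd).to_comp
    have c1 : Computable fun p : ℕ × ℕ => f p.2.unpair.1 p.2.unpair.2 :=
      hf'.comp (Computable.fst.comp u) (Computable.snd.comp u)
    have c2 : Computable fun p : ℕ × ℕ => decide (φ p.2.unpair.1 = p.1) := by
      have e : Computable fun q : ℕ × ℕ => decide (q.1 = q.2) :=
        (Primrec.eq (α := ℕ)).decide.to_comp
      exact e.comp ((hφ.comp (Computable.fst.comp u)).pair Computable.fst)
    exact Primrec.and.to_comp.comp c1 c2
  · intro y
    simp only [Set.mem_image, Bool.and_eq_true, decide_eq_true_eq]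
    constructor
    · rintro ⟨x, hx, rfl⟩
      obtain ⟨s, hs⟩ := (hfA x).1 hx
      exact ⟨Nat.pair x s, by simpa using hs⟩
    · rintro ⟨n, h1, h2⟩
      exact ⟨n.unpair.1, (hfA _).2 ⟨_, h1⟩, h2⟩

/-- The counting function of a recursive set is computable. -/
theorem maxIn_count {R : Set ℕ} [DecidablePred (· ∈ R)] (hR : Rec R) :
    Computable (Nat.count (· ∈ R)) := by
  have h1 := (maxIn_rec_iff.1 hR).decide
  have h2 : Computable₂ fun (_ : ℕ) (p : ℕ × ℕ) => p.2 + (if decide (p.1 ∈ R) then 1 else 0) := by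
    have c1 : Computable fun q : ℕ × ℕ × ℕ => q.2.2 := Computable.snd.comp Computable.snd
    have c2 : Computable fun q : ℕ × ℕ × ℕ => decide (q.2.1 ∈ R) :=
      h1.comp (Computable.fst.comp Computable.snd)
    have c3 : Computable fun q : ℕ × ℕ × ℕ => (bif decide (q.2.1 ∈ R) then 1 else 0 : ℕ) :=
      Computable.cond c2 (Computable.const 1) (Computable.const 0)
    have c4 : Computable fun q : ℕ × ℕ × ℕ => q.2.2 +
        (bif decide (q.2.1 ∈ R) then 1 else 0 : ℕ) := Primrec.nat_add.to_comp.comp c1 c3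
    refine c4.of_eq fun q => ?_
    by_cases h : q.2.1 ∈ R <;> simp [h]
  have h3 := Computable.nat_rec (f := fun n : ℕ => n) (g := fun _ => 0) Computable.id
    (Computable.const 0) h2
  refine h3.of_eq fun n => ?_
  induction n with
  | zero => simp
  | succ n ih =>
    rw [Nat.count_succ, ← ih]
    simp

/-- Every infinite recursive set has a maximal subset. -/
theorem exists_maximal_in {R : Set ℕ} (hR : Rec R) (hi : R.Infinite) : ∃ M : Set ℕ, M ⊆ R ∧
    RESet M ∧ (R \ M).Infinite ∧
    ∀ W : Set ℕ, RESet W → (W ∩ (R \ M)).Finite ∨ ((R \ M) \ W).Finite := by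
  classical
  obtain ⟨M, hM, hMi, hMc⟩ := exists_maximal
  have hc := maxIn_count hR
  have hi' : (Set.ofPred (· ∈ R)).Infinite := hi
  have hnm : ∀ n, Nat.nth (· ∈ R) n ∈ R := Nat.nth_mem_of_infinite hi'
  have hcn : ∀ n, Nat.count (· ∈ R) (Nat.nth (· ∈ R) n) = n :=
    Nat.count_nth_of_infinite hi'
  have hnc : ∀ x ∈ R, Nat.nth (· ∈ R) (Nat.count (· ∈ R) x) = x := fun x hx => Nat.nth_count hx
  refine ⟨R ∩ Nat.count (· ∈ R) ⁻¹' M, Set.inter_subset_left,
    hR.1.inter (maxIn_preimage hM hc), ?_, ?_⟩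
  · have h1 : (Nat.nth (· ∈ R) '' Mᶜ).Infinite :=
      hMi.image (Function.LeftInverse.injective hcn).injOn
    refine h1.mono ?_
    rintro _ ⟨n, hn, rfl⟩
    exact ⟨hnm n, fun h => hn (by simpa [hcn] using h.2)⟩
  · intro W hW
    have hW' : RESet (Nat.count (· ∈ R) '' (W ∩ R)) := maxIn_image (hW.inter hR.1) hc
    rcases hMc _ hW' with h | h
    · left
      refine (h.image (Nat.nth (· ∈ R))).subset ?_
      rintro x ⟨hxW, hxR, hxM⟩
      refine ⟨Nat.count (· ∈ R) x, ⟨⟨x, ⟨hxW, hxR⟩, rfl⟩, ?_⟩, hnc x hxR⟩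
      exact fun h => hxM ⟨hxR, h⟩
    · right
      refine (h.image (Nat.nth (· ∈ R))).subset ?_
      rintro x ⟨⟨hxR, hxM⟩, hxW⟩
      refine ⟨Nat.count (· ∈ R) x, ⟨fun h => hxM ⟨hxR, h⟩, ?_⟩, hnc x hxR⟩
      rintro ⟨y, ⟨hyW, hyR⟩, hy⟩
      apply hxW
      rw [← hnc x hxR, ← hy, hnc y hyR]
      exact hyW

/-- Every infinite recursive set splits into two infinite recursive sets. -/
theorem maxIn_split {R : Set ℕ} (hR : Rec R) (hi : R.Infinite) : ∃ E ⊆ R, RESet E ∧
    E.Infinite ∧ (R \ E).Infinite := by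
  classical
  have hc := maxIn_count hR
  have hi' : (Set.ofPred (· ∈ R)).Infinite := hi
  have hnm : ∀ n, Nat.nth (· ∈ R) n ∈ R := Nat.nth_mem_of_infinite hi'
  have hcn : ∀ n, Nat.count (· ∈ R) (Nat.nth (· ∈ R) n) = n :=
    Nat.count_nth_of_infinite hi'
  have hE : RESet {n : ℕ | n % 2 = 0} := by
    apply (maxIn_rec_iff.2 _).1
    apply PrimrecPred.computablePred
    exact Primrec.eq.comp (Primrec.nat_mod.comp Primrec.id (Primrec.const 2)) (Primrec.const 0)
  refine ⟨R ∩ Nat.count (· ∈ R) ⁻¹' {n : ℕ | n % 2 = 0}, Set.inter_subset_left,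
    hR.1.inter (maxIn_preimage hE hc), ?_, ?_⟩
  · have h1 : (Set.range fun n => Nat.nth (· ∈ R) (2 * n)).Infinite :=
      Set.infinite_range_of_injective fun a b h => by
        have := congrArg (Nat.count (· ∈ R)) h
        simp only [hcn] at this
        omega
    refine h1.mono ?_
    rintro _ ⟨n, rfl⟩
    exact ⟨hnm _, by simp [hcn]⟩
  · have h1 : (Set.range fun n => Nat.nth (· ∈ R) (2 * n + 1)).Infinite :=
      Set.infinite_range_of_injective fun a b h => by
        have := congrArg (Nat.count (· ∈ R)) h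
        simp only [hcn] at this
        omega
    refine h1.mono ?_
    rintro _ ⟨n, rfl⟩
    refine ⟨hnm _, fun h => ?_⟩
    have := h.2
    simp only [Set.mem_preimage, hcn, Set.mem_ofPred_eq] at this
    omega

/-- Every infinite r.e. set has an infinite recursive subset. -/
theorem exists_rec_subset {A : Set ℕ} (hA : RESet A) (hi : A.Infinite) : ∃ R ⊆ A, Rec R ∧
    R.Infinite := by
  classical
  obtain ⟨f, hf, hfA⟩ := hA
  have hf' : Computable₂ f := hf.prim.to_comp
  have hex : ∀ x : ℕ, ∃ n : ℕ, f n.unpair.1 n.unpair.2 = true ∧ x < n.unpair.1 := by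
    intro x
    obtain ⟨y, hy, hxy⟩ := hi.exists_gt x
    obtain ⟨s, hs⟩ := (hfA y).1 hy
    exact ⟨Nat.pair y s, by simpa using ⟨hs, hxy⟩⟩
  have hfind : Computable fun x => Nat.find (hex x) := by
    apply Computable.find (P := fun x n : ℕ => f n.unpair.1 n.unpair.2 = true ∧ x < n.unpair.1)
    apply Computable.computablePred
    have u : Computable fun p : ℕ × ℕ => p.2.unpair :=
      (Primrec.unpair.comp Primrec.snd).to_comp
    have c1 : Computable fun p : ℕ × ℕ => f p.2.unpair.1 p.2.unpair.2 :=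
      hf'.comp (Computable.fst.comp u) (Computable.snd.comp u)
    have c2 : Computable fun p : ℕ × ℕ => decide (p.1 < p.2.unpair.1) :=
      Primrec.nat_lt.decide.to_comp.comp Computable.fst (Computable.fst.comp u)
    refine (Primrec.and.to_comp.comp c1 c2).of_eq fun p => ?_
    simp
  obtain ⟨φ, hφ⟩ : ∃ φ : ℕ → ℕ, φ = fun x => (Nat.find (hex x)).unpair.1 := ⟨_, rfl⟩
  have hφc : Computable φ := by
    rw [hφ]
    exact Computable.fst.comp (Primrec.unpair.to_comp.comp hfind)
  have hφA : ∀ x, φ x ∈ A := fun x => by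
    rw [hφ]
    exact (hfA _).2 ⟨_, (Nat.find_spec (hex x)).1⟩
  have hφlt : ∀ x, x < φ x := fun x => by
    rw [hφ]
    exact (Nat.find_spec (hex x)).2
  obtain ⟨ψ, hψ⟩ : ∃ ψ : ℕ → ℕ, ψ = fun n => Nat.rec 0 (fun _ y => φ y) n := ⟨_, rfl⟩
  have hψc : Computable ψ := by
    rw [hψ]
    exact Computable.nat_rec (f := fun n : ℕ => n) (g := fun _ => 0) (h := fun _ p => φ p.2)
      Computable.id (Computable.const 0)
      (hφc.comp (Computable.snd.comp Computable.snd))
  have hψs : ∀ n, ψ (n + 1) = φ (ψ n) := fun n => by rw [hψ]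
  have hmono : StrictMono ψ := strictMono_nat_of_lt_succ fun n => by
    rw [hψs]; exact hφlt _
  obtain ⟨χ, hχ⟩ : ∃ χ : ℕ → ℕ, χ = fun n => ψ (n + 1) := ⟨_, rfl⟩
  have hχc : Computable χ := by
    rw [hχ]; exact hψc.comp Computable.succ
  have hχm : StrictMono χ := by
    rw [hχ]; exact fun a b h => hmono (by omega)
  have hχA : ∀ n, χ n ∈ A := fun n => by
    rw [hχ]; show ψ (n + 1) ∈ A; rw [hψs]; exact hφA _
  refine ⟨Set.range χ, ?_, ⟨?_, ?_⟩, Set.infinite_range_of_injective hχm.injective⟩
  · rintro _ ⟨n, rfl⟩; exact hχA n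
  · refine maxIn_proj (P := fun y n => decide (χ n = y)) ?_ ?_
    · have e : Computable fun q : ℕ × ℕ => decide (q.1 = q.2) :=
        (Primrec.eq (α := ℕ)).decide.to_comp
      exact e.comp ((hχc.comp Computable.snd).pair Computable.fst)
    · intro y; simp
  · -- `y` is not in the range iff some `n` has `χ n > y` and `y` is not `χ m` for `m < n`
    refine maxIn_proj (P := fun y n => decide (y < χ n) && decide (n = 0 ∨ χ (n - 1) < y)) ?_ ?_
    · have c1 : Computable fun p : ℕ × ℕ => decide (p.1 < χ p.2) :=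
        Primrec.nat_lt.decide.to_comp.comp Computable.fst (hχc.comp Computable.snd)
      have c2 : Computable fun p : ℕ × ℕ => decide (p.2 = 0) := by
        have e : Computable fun q : ℕ × ℕ => decide (q.1 = q.2) :=
          (Primrec.eq (α := ℕ)).decide.to_comp
        exact e.comp (Computable.snd.pair (Computable.const 0))
      have c3 : Computable fun p : ℕ × ℕ => decide (χ (p.2 - 1) < p.1) :=
        Primrec.nat_lt.decide.to_comp.comp
          (hχc.comp (Primrec.pred.to_comp.comp Computable.snd)) Computable.fst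
      refine (Primrec.and.to_comp.comp c1 (Primrec.or.to_comp.comp c2 c3)).of_eq fun p => ?_
      simp
    · intro y
      simp only [Set.mem_compl_iff, Set.mem_range, not_exists, Bool.and_eq_true,
        decide_eq_true_eq]
      constructor
      · intro h
        have h1 : ∃ n, y < χ n := ⟨y + 1, lt_of_lt_of_le (Nat.lt_succ_self y) (hχm.le_apply)⟩
        refine ⟨Nat.find h1, Nat.find_spec h1, ?_⟩
        by_cases h0 : Nat.find h1 = 0
        · exact Or.inl h0
        · right
          have h2 := Nat.find_min h1 (m := Nat.find h1 - 1) (by omega)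
          have h3 := h (Nat.find h1 - 1)
          omega
      · rintro ⟨n, h1, h2⟩ m hm
        rw [← hm] at h1 h2
        have h3 : m < n := hχm.lt_iff_lt.1 h1
        rcases h2 with h2 | h2
        · omega
        · have h4 : n - 1 < m := hχm.lt_iff_lt.1 h2
          omega

/-- The elements outside a maximal set are not r.e., in the strong form needed for splittings. -/
theorem not_reSet_diff_max {R M : Set ℕ} (hR : Rec R) (hM : M ⊆ R) (hMr : RESet M)
    (hi : (R \ M).Infinite)
    (hc : ∀ W : Set ℕ, RESet W → (W ∩ (R \ M)).Finite ∨ ((R \ M) \ W).Finite)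
    {Q : Set ℕ} (hQ : RESet Q) (hQi : (Q ∩ (R \ M)).Infinite) : ¬ RESet (Q \ M) := by
  intro h
  have h1 : RESet (Q ∩ (R \ M)) := by
    have h2 := h.inter hR.1
    have e : (Q \ M) ∩ R = Q ∩ (R \ M) := by
      ext x; simp only [Set.mem_inter_iff, Set.mem_sdiff]; tauto
    rwa [e] at h2
  obtain ⟨H, hHs, hH, hHi⟩ := exists_rec_subset h1 hQi
  obtain ⟨E, hEH, hE, hEi, hEc⟩ := maxIn_split hH hHi
  rcases hc E hE with h3 | h3
  · have : E ∩ (R \ M) = E :=
      Set.inter_eq_left.2 (hEH.trans (hHs.trans Set.inter_subset_right))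
    rw [this] at h3
    exact hEi h3
  · refine hEc (h3.subset ?_)
    intro x hx
    exact ⟨(hHs hx.1).2, hx.2⟩

/-- The natural numbers are a disjoint union of finitely many infinite recursive sets. -/
theorem exists_rec_partition {ι : Type} [DecidableEq ι] (S : Finset ι) (hS : S.Nonempty) :
    ∃ r : ℕ → ι, (∀ e, r e ∈ S) ∧ (∀ s ∈ S, {e | r e = s}.Infinite) ∧
      (∀ s, Rec {e | r e = s}) ∧ ∀ [Primcodable ι], Primrec r := by
  classical
  obtain ⟨s0, hs0⟩ := hS
  obtain ⟨l, hl⟩ : ∃ l, l = S.toList := ⟨_, rfl⟩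
  have hlS : ∀ x, x ∈ l ↔ x ∈ S := fun x => by rw [hl]; exact Finset.mem_toList
  have hlen : 0 < l.length := List.length_pos_of_mem ((hlS s0).2 hs0)
  have hmod : ∀ e, e % l.length < l.length := fun e => Nat.mod_lt e hlen
  refine ⟨fun e => l[e % l.length]'(hmod e), ?_, ?_, ?_, ?_⟩
  · intro e
    exact (hlS _).1 (List.getElem_mem _)
  · intro s hs
    obtain ⟨i, hi, rfl⟩ := List.getElem_of_mem ((hlS s).2 hs)
    have h1 : (Set.range fun n => i + n * l.length).Infinite :=
      Set.infinite_range_of_injective fun a b h => by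
        have h2 : a * l.length = b * l.length := by simpa using h
        exact Nat.eq_of_mul_eq_mul_right hlen h2
    refine h1.mono ?_
    rintro _ ⟨n, rfl⟩
    have h2 : (i + n * l.length) % l.length = i := by
      rw [Nat.add_mul_mod_self_right, Nat.mod_eq_of_lt hi]
    simp only [Set.mem_ofPred_eq, h2]
  · intro s
    rw [maxIn_rec_iff]
    apply PrimrecPred.computablePred
    have h1 : Primrec fun e : ℕ =>
        ((l.map fun x => decide (x = s))[e % l.length]?).getD false :=
      Primrec.option_getD.comp (Primrec.list_getElem?.comp (Primrec.const _)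
        (Primrec.nat_mod.comp Primrec.id (Primrec.const l.length))) (Primrec.const false)
    refine (Primrec.eq.comp h1 (Primrec.const true)).of_eq fun e => ?_
    rw [List.getElem?_eq_getElem (by rw [List.length_map]; exact hmod e)]
    simp
  · intro _
    have h1 : Primrec fun e : ℕ => l[e % l.length]? :=
      Primrec.list_getElem?.comp (Primrec.const l)
        (Primrec.nat_mod.comp Primrec.id (Primrec.const l.length))
    have h2 : Primrec fun e : ℕ => (l[e % l.length]?).getD s0 :=
      Primrec.option_getD.comp h1 (Primrec.const s0)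
    refine h2.of_eq fun e => ?_
    rw [List.getElem?_eq_getElem (hmod e)]
    rfl

end Pool.Agent.Lib.MP_45c83f_lc
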