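import Pool.Agent.Lib.MP_45c83f_lc.Basics
import Pool.Agent.Lib.MP_45c83f_lc.Univ

set_option autoImplicit false

/-!
# Maximal sets
-/

namespace Pool.Agent.Lib.MP_45c83f_lc

/-- The value of a bit. -/
def maxSet_bit (b : Bool) : ℕ := cond b 1 0

/-- The state of `x` at the stage `s`, for the first `e + 1` sets. -/
def maxSet_est (W : ℕ → ℕ → ℕ → Bool) (s x : ℕ) : ℕ → ℕ
  | 0 => maxSet_bit (W 0 x s)
  | e + 1 => 2 * maxSet_est W s x e + maxSet_bit (W (e + 1) x s)

/-- The number of the `u < x` with `p u = false`. -/
def maxSet_idx (p : ℕ → Bool) : ℕ → ℕ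
  | 0 => 0
  | x + 1 => maxSet_idx p x + maxSet_bit (!p x)

/-- `x` is beaten by `x'`. -/
def maxSet_bt (W : ℕ → ℕ → ℕ → Bool) (s : ℕ) (L : List Bool) (x x' : ℕ) : Bool :=
  decide (x < x') && (decide (x' < s) && (!(L.getD x false) && (!(L.getD x' false) &&
    decide (maxSet_est W s x (maxSet_idx (fun u => L.getD u false) x) <
      maxSet_est W s x' (maxSet_idx (fun u => L.getD u false) x)))))

/-- The least beaten element. -/
def maxSet_X (W : ℕ → ℕ → ℕ → Bool) (s : ℕ) (L : List Bool) : ℕ :=
  (List.range s).findIdx fun x =>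
    decide ((List.range s).findIdx (fun x' => maxSet_bt W s L x x') < s)

/-- The least element which beats it. -/
def maxSet_Y (W : ℕ → ℕ → ℕ → Bool) (s : ℕ) (L : List Bool) : ℕ :=
  (List.range s).findIdx fun x' => maxSet_bt W s L (maxSet_X W s L) x'

/-- One step of the construction. -/
def maxSet_F (W : ℕ → ℕ → ℕ → Bool) (s : ℕ) (L : List Bool) : List Bool :=
  (List.range (s + 1)).map fun u => L.getD u false ||
    (decide (maxSet_X W s L ≤ u) && decide (u < maxSet_Y W s L))

/-- The construction. -/
def maxSet_L (W : ℕ → ℕ → ℕ → Bool) (s : ℕ) : List Bool :=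
  Nat.rec [] (fun s L => maxSet_F W s L) s

section combinatorics

variable (W : ℕ → ℕ → ℕ → Bool)

private theorem bit_le (b : Bool) : maxSet_bit b ≤ 1 := by
  cases b <;> simp [maxSet_bit]

private theorem bit_mono {b c : Bool} (h : b ≤ c) : maxSet_bit b ≤ maxSet_bit c := by
  revert h
  cases b <;> cases c <;> simp [maxSet_bit]

private theorem est_lt (s x e : ℕ) : maxSet_est W s x e < 2 ^ (e + 1) := by
  induction e with
  | zero =>
    have := bit_le (W 0 x s)
    simp only [maxSet_est]
    omega
  | succ e ih =>
    have := bit_le (W (e + 1) x s)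
    simp only [maxSet_est]
    rw [pow_succ]
    omega

private theorem est_mono (hm : ∀ i e, Monotone (W i e)) (x e : ℕ) {s t : ℕ} (h : s ≤ t) :
    maxSet_est W s x e ≤ maxSet_est W t x e := by
  induction e with
  | zero => exact bit_mono (hm 0 x h)
  | succ e ih =>
    have := bit_mono (hm (e + 1) x h)
    simp only [maxSet_est]
    omega

open Classical in
/-- The final state. -/
private noncomputable def estI (x : ℕ) : ℕ → ℕ
  | 0 => if ∃ s, W 0 x s = true then 1 else 0
  | e + 1 => 2 * estI x e + if ∃ s, W (e + 1) x s = true then 1 else 0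

private theorem bit_lim (hm : ∀ i e, Monotone (W i e)) (x e : ℕ) [Decidable (∃ s, W e x s = true)] :
    ∃ s0, ∀ s, s0 ≤ s →
    maxSet_bit (W e x s) = if ∃ s, W e x s = true then 1 else 0 := by
  by_cases h : ∃ s, W e x s = true
  · obtain ⟨s0, h0⟩ := h
    refine ⟨s0, fun s hs => ?_⟩
    have h1 : W e x s = true := by
      have := hm e x hs
      rw [h0] at this
      exact top_le_iff.1 this
    rw [h1, if_pos ⟨s0, h0⟩]
    rfl
  · refine ⟨0, fun s _ => ?_⟩
    rw [if_neg h]
    have h1 : W e x s = false := by
      by_contra h2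
      exact h ⟨s, by simpa using h2⟩
    rw [h1]
    rfl

private theorem est_lim (hm : ∀ i e, Monotone (W i e)) (x e : ℕ) : ∃ s0, ∀ s, s0 ≤ s →
    maxSet_est W s x e = estI W x e := by
  classical
  induction e with
  | zero =>
    obtain ⟨s0, h0⟩ := bit_lim W hm x 0
    refine ⟨s0, fun s hs => ?_⟩
    have := h0 s hs
    simp only [maxSet_est, estI]
    rw [this]
  | succ e ih =>
    obtain ⟨s0, h0⟩ := ih
    obtain ⟨s1, h1⟩ := bit_lim W hm x (e + 1)
    refine ⟨max s0 s1, fun s hs => ?_⟩
    have a := h0 s ((le_max_left _ _).trans hs)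
    have b := h1 s ((le_max_right _ _).trans hs)
    simp only [maxSet_est, estI]
    rw [a, b]

private theorem estI_lt (hm : ∀ i e, Monotone (W i e)) (x e : ℕ) : estI W x e < 2 ^ (e + 1) := by
  obtain ⟨s0, h0⟩ := est_lim W hm x e
  rw [← h0 s0 le_rfl]
  exact est_lt W s0 x e

private theorem estI_lift {x x' e i : ℕ} (hi : e ≤ i) (h : estI W x e < estI W x' e) :
    estI W x i < estI W x' i := by
  classical
  induction i, hi using Nat.le_induction with
  | base => exact h
  | succ i _ ih =>
    simp only [estI]
    have h1 : (if ∃ s, W (i + 1) x s = true then 1 else 0) ≤ 1 := by split_ifs <;> simp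
    omega

private theorem estI_mod (x e : ℕ) : estI W x e % 2 = 1 ↔ ∃ s, W e x s = true := by
  classical
  cases e with
  | zero =>
    simp only [estI]
    split_ifs with h
    · exact ⟨fun _ => h, fun _ => rfl⟩
    · exact ⟨fun h' => absurd h' (by norm_num), fun h' => absurd h' h⟩
  | succ e =>
    simp only [estI]
    split_ifs with h
    · exact ⟨fun _ => h, fun _ => by omega⟩
    · exact ⟨fun h' => absurd h' (by omega), fun h' => absurd h' h⟩

private theorem idx_congr {p q : ℕ → Bool} {x : ℕ} (h : ∀ u < x, p u = q u) :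
    maxSet_idx p x = maxSet_idx q x := by
  induction x with
  | zero => rfl
  | succ x ih =>
    simp only [maxSet_idx]
    rw [ih fun u hu => h u (by omega), h x (by omega)]

private theorem idx_skip {p : ℕ → Bool} {b x : ℕ} (hbx : b ≤ x)
    (h : ∀ u, b ≤ u → u < x → p u = true) : maxSet_idx p x = maxSet_idx p b := by
  induction x, hbx using Nat.le_induction with
  | base => rfl
  | succ x hx ih =>
    simp only [maxSet_idx]
    rw [ih fun u hu hux => h u hu (by omega), h x hx (by omega)]
    rfl

private theorem idx_card (p : ℕ → Bool) (x : ℕ) :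
    maxSet_idx p x = ((Finset.range x).filter fun u => p u = false).card := by
  induction x with
  | zero => rfl
  | succ x ih =>
    rw [Finset.range_add_one, Finset.filter_insert]
    simp only [maxSet_idx]
    cases hp : p x with
    | false =>
      rw [if_pos rfl, Finset.card_insert_of_notMem (by simp), ih]
      rfl
    | true =>
      rw [if_neg (by simp), ih]
      rfl

/-- The combinatorial core. -/
private theorem core (hm : ∀ i e, Monotone (W i e)) (m : ℕ → ℕ → Bool)
    (hlt : ∀ s x, m s x = true → x < s) (X Y : ℕ → ℕ)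
    (hstep : ∀ s x, m (s + 1) x = (m s x || (decide (X s ≤ x) && decide (x < Y s))))
    (hX : ∀ s, X s < s → X s < Y s ∧ m s (X s) = false ∧ m s (Y s) = false ∧
      maxSet_est W s (X s) (maxSet_idx (m s) (X s)) <
        maxSet_est W s (Y s) (maxSet_idx (m s) (X s)))
    (hY : ∀ s, ¬ X s < s → Y s ≤ X s)
    (hmin : ∀ s x x', x < x' → x' < s → m s x = false → m s x' = false →
      maxSet_est W s x (maxSet_idx (m s) x) < maxSet_est W s x' (maxSet_idx (m s) x) →
        X s ≤ x) :
    {x | ∃ s, m s x = true}ᶜ.Infinite ∧ ∀ e,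
      ({x | ∃ s, W e x s = true} ∩ {x | ∃ s, m s x = true}ᶜ).Finite ∨
      ({x | ∃ s, m s x = true}ᶜ \ {x | ∃ s, W e x s = true}).Finite := by
  set C : Set ℕ := {x | ∃ s, m s x = true}ᶜ with hC
  have hCm : ∀ x, x ∈ C ↔ ∀ s, m s x = false := by
    intro x
    simp only [hC, Set.mem_compl_iff, Set.mem_ofPred_eq, not_exists, Bool.not_eq_true]
  have hmono1 : ∀ s x, m s x = true → m (s + 1) x = true := by
    intro s x h
    rw [hstep, h, Bool.true_or]
  have hmono : ∀ s t x, s ≤ t → m s x = true → m t x = true := by
    intro s t x hst h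
    induction t, hst using Nat.le_induction with
    | base => exact h
    | succ t _ ih => exact hmono1 t x ih
  -- stability
  have hstab : ∀ B, ∃ s0, ∀ r, s0 ≤ r → ∀ u, u < B → (m r u = true ↔ u ∉ C) := by
    intro B
    induction B with
    | zero => exact ⟨0, fun r _ u hu => absurd hu (by omega)⟩
    | succ B ih =>
      obtain ⟨s0, h0⟩ := ih
      by_cases hB : B ∈ C
      · refine ⟨s0, fun r hr u hu => ?_⟩
        rcases Nat.lt_succ_iff_lt_or_eq.1 hu with h | h
        · exact h0 r hr u h
        · rw [h]
          exact ⟨fun h' => by rw [(hCm B).1 hB r] at h'; exact absurd h' (by simp),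
            fun h' => absurd hB h'⟩
      · have hB' : ∃ s, m s B = true := by
          by_contra h
          exact hB ((hCm B).2 fun s => by
            by_contra h'
            exact h ⟨s, by simpa using h'⟩)
        obtain ⟨s1, h1⟩ := hB'
        refine ⟨max s0 s1, fun r hr u hu => ?_⟩
        rcases Nat.lt_succ_iff_lt_or_eq.1 hu with h | h
        · exact h0 r ((le_max_left _ _).trans hr) u h
        · rw [h]
          exact ⟨fun _ => hB, fun _ => hmono s1 r B ((le_max_right _ _).trans hr) h1⟩
  have hblock : ∀ s u, m s u = false → m (s + 1) u = true → X s < s ∧ X s ≤ u ∧ u < Y s := by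
    intro s u h1 h2
    rw [hstep, h1, Bool.false_or, Bool.and_eq_true, decide_eq_true_iff, decide_eq_true_iff] at h2
    refine ⟨?_, h2⟩
    by_contra h3
    have := hY s h3
    omega
  have hXen : ∀ s, X s < s → m (s + 1) (X s) = true := by
    intro s h
    rw [hstep]
    have := (hX s h).1
    simp [this]
  -- the complement is infinite
  have hinf : C.Infinite := by
    intro hfin
    obtain ⟨B, hB⟩ : ∃ B, ∀ x ∈ C, x < B := by
      obtain ⟨B, hB⟩ := hfin.bddAbove
      exact ⟨B + 1, fun x hx => Nat.lt_succ_of_le (hB hx)⟩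
    obtain ⟨s0, h0⟩ := hstab B
    set e : ℕ := maxSet_idx (m s0) B with he
    have hidx : ∀ r, s0 ≤ r → maxSet_idx (m r) B = e := by
      intro r hr
      refine idx_congr fun u hu => ?_
      have a := h0 r hr u hu
      have b := h0 s0 le_rfl u hu
      rw [Bool.eq_iff_iff, a, b]
    have key : ∀ k, ∃ s b, s0 ≤ s ∧ B ≤ b ∧ m s b = false ∧
        (∀ u, B ≤ u → u < b → m s u = true) ∧ k ≤ maxSet_est W s b e := by
      intro k
      induction k with
      | zero =>
        have hex : ∃ b, B ≤ b ∧ m s0 b = false := by
          refine ⟨max B s0, le_max_left _ _, ?_⟩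
          by_contra h
          have := hlt s0 _ (by simpa using h)
          have h2 := le_max_right B s0
          omega
        refine ⟨s0, Nat.find hex, le_rfl, (Nat.find_spec hex).1, (Nat.find_spec hex).2,
          fun u hu hub => ?_, Nat.zero_le _⟩
        have h2 := Nat.find_min hex hub
        by_contra h3
        exact h2 ⟨hu, by simpa using h3⟩
      | succ k ih =>
        obtain ⟨s, b, hs, hBb, hsb, hall, hk⟩ := ih
        have hbC : b ∉ C := fun h => absurd (hB b h) (by omega)
        have hex : ∃ t, m (s + t + 1) b = true := by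
          rw [hCm] at hbC
          push Not at hbC
          obtain ⟨t, ht⟩ := hbC
          exact ⟨t, hmono t _ b (by omega) (by simpa using ht)⟩
        set t := Nat.find hex with ht
        have ht1 : m (s + t + 1) b = true := Nat.find_spec hex
        have ht0 : m (s + t) b = false := by
          by_contra h
          have h' : m (s + t) b = true := by simpa using h
          rcases Nat.eq_zero_or_pos t with h3 | h3
          · rw [h3, add_zero, hsb] at h'
            exact absurd h' (by simp)
          · have h4 : t - 1 < Nat.find hex := by omega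
            refine Nat.find_min hex h4 ?_
            have h5 : s + (t - 1) + 1 = s + t := by omega
            rw [h5]
            exact h'
        set r := s + t with hr
        obtain ⟨hXr, hXb, hbY⟩ := hblock r b ht0 ht1
        obtain ⟨hXY, hmX, hmY, hest⟩ := hX r hXr
        have hBX : B ≤ X r := by
          by_contra h
          have h1 : X r < B := by omega
          have a := (h0 r (by omega) (X r) h1)
          have b' := (h0 (r + 1) (by omega) (X r) h1)
          have c := b'.1 (hXen r hXr)
          have d := a.2 c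
          rw [hmX] at d
          exact absurd d (by simp)
        have hXeq : X r = b := by
          by_contra h
          have h1 : X r < b := by omega
          have h2 := hmono s r (X r) (by omega) (hall (X r) hBX h1)
          rw [hmX] at h2
          exact absurd h2 (by simp)
        have hall' : ∀ u, B ≤ u → u < b → m r u = true := fun u hu hub =>
          hmono s r u (by omega) (hall u hu hub)
        have hie : maxSet_idx (m r) b = e := by
          rw [idx_skip hBb hall', hidx r (by omega)]
        rw [hXeq, hie] at hest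
        refine ⟨r + 1, Y r, by omega, by omega, ?_, fun u hu huY => ?_, ?_⟩
        · rw [hstep, hmY]
          simp
        · rcases Nat.lt_or_ge u b with h | h
          · exact hmono1 r u (hall' u hu h)
          · rw [hstep]
            have h1 : X r ≤ u := by omega
            simp [h1, huY]
        · have a := est_mono W hm b e (show s ≤ r by omega)
          have b' := est_mono W hm (Y r) e (show r ≤ r + 1 by omega)
          omega
    obtain ⟨s, b, -, -, -, -, h⟩ := key (2 ^ (e + 1))
    have := est_lt W s b e
    omega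
  refine ⟨hinf, fun e => ?_⟩
  -- the fibres
  set A : ℕ → Set ℕ := fun v => {x | x ∈ C ∧ estI W x e = v} with hA
  have hne : ∃ v, (A v).Infinite := by
    by_contra h
    push Not at h
    have h1 : C ⊆ ⋃ v ∈ Finset.range (2 ^ (e + 1)), A v := by
      intro x hx
      simp only [Set.mem_iUnion, Finset.mem_range, exists_prop]
      exact ⟨estI W x e, estI_lt W hm x e, hx, rfl⟩
    refine hinf (Set.Finite.subset ?_ h1)
    refine Set.Finite.biUnion (Finset.finite_toSet _) fun v _ => ?_
    exact h v
  have hbd : ∀ v, (A v).Infinite → v < 2 ^ (e + 1) := by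
    intro v hv
    obtain ⟨x, hx⟩ := hv.nonempty
    rw [← hx.2]
    exact estI_lt W hm x e
  obtain ⟨v, hv, hvmax⟩ : ∃ v, (A v).Infinite ∧ ∀ w, v < w → (A w).Finite := by
    classical
    have hb : BddAbove {v | (A v).Infinite} := ⟨2 ^ (e + 1), fun v hv => (hbd v hv).le⟩
    refine ⟨sSup {v | (A v).Infinite}, Nat.sSup_mem hne hb, fun w hw => ?_⟩
    by_contra h
    have := le_csSup hb (show w ∈ {v | (A v).Infinite} from h)
    omega
  have hsmall : {x | x ∈ C ∧ estI W x e < v}.Finite := by
    by_contra hinf'
    obtain ⟨T, hTA, hTc⟩ := (show ({x | x ∈ C ∧ estI W x e < v}).Infinite from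
      hinf').exists_subset_card_eq (e + 1)
    have hTne : T.Nonempty := by
      rw [← Finset.card_pos, hTc]
      omega
    set x := T.max' hTne with hx
    have hxT : x ∈ T := Finset.max'_mem T hTne
    obtain ⟨hxC, hxe⟩ := hTA hxT
    obtain ⟨x', hx'A, hxx'⟩ : ∃ x' ∈ A v, x < x' := hv.exists_gt x
    obtain ⟨hx'C, hx'e⟩ := hx'A
    obtain ⟨s0, h0⟩ := hstab (x + 1)
    set i := maxSet_idx (m s0) x with hi
    have hidx : ∀ r, s0 ≤ r → maxSet_idx (m r) x = i := by
      intro r hr
      refine idx_congr fun u hu => ?_
      have a := h0 r hr u (by omega)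
      have b := h0 s0 le_rfl u (by omega)
      rw [Bool.eq_iff_iff, a, b]
    have hei : e ≤ i := by
      rw [hi, idx_card]
      have h1 : T.erase x ⊆ (Finset.range x).filter fun u => m s0 u = false := by
        intro u hu
        rw [Finset.mem_erase] at hu
        rw [Finset.mem_filter, Finset.mem_range]
        refine ⟨lt_of_le_of_ne (Finset.le_max' T u hu.2) hu.1, ?_⟩
        exact (hCm u).1 (hTA hu.2).1 s0
      have h2 := Finset.card_le_card h1
      rw [Finset.card_erase_of_mem hxT, hTc] at h2
      omega
    obtain ⟨s1, h1⟩ := est_lim W hm x i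
    obtain ⟨s2, h2⟩ := est_lim W hm x' i
    set s := s0 + s1 + s2 + x' + 1 with hs
    have hcmp : maxSet_est W s x (maxSet_idx (m s) x) <
        maxSet_est W s x' (maxSet_idx (m s) x) := by
      rw [hidx s (by omega), h1 s (by omega), h2 s (by omega)]
      refine estI_lift W hei ?_
      rw [hx'e]
      exact hxe
    have hXx := hmin s x x' hxx' (by omega) ((hCm x).1 hxC s) ((hCm x').1 hx'C s) hcmp
    have hXs : X s < s := by omega
    have a := h0 s (by omega) (X s) (by omega)
    have b := h0 (s + 1) (by omega) (X s) (by omega)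
    have c := a.2 (b.1 (hXen s hXs))
    rw [(hX s hXs).2.1] at c
    exact absurd c (by simp)
  have hbig : {x | x ∈ C ∧ v < estI W x e}.Finite := by
    have h1 : {x | x ∈ C ∧ v < estI W x e} ⊆ ⋃ w ∈ {w | v < w ∧ w < 2 ^ (e + 1)}, A w := by
      intro x hx
      simp only [Set.mem_iUnion, Set.mem_ofPred_eq, exists_prop]
      exact ⟨estI W x e, ⟨hx.2, estI_lt W hm x e⟩, hx.1, rfl⟩
    refine Set.Finite.subset (Set.Finite.biUnion ?_ fun w hw => hvmax w hw.1) h1
    exact (Set.finite_lt_nat (2 ^ (e + 1))).subset fun w hw => hw.2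
  by_cases hpar : v % 2 = 1
  · right
    refine (hsmall.union hbig).subset ?_
    rintro x ⟨hxC, hxW⟩
    rcases lt_trichotomy (estI W x e) v with h | h | h
    · exact Or.inl ⟨hxC, h⟩
    · rw [← h] at hpar
      exact absurd ((estI_mod W x e).1 hpar) hxW
    · exact Or.inr ⟨hxC, h⟩
  · left
    refine (hsmall.union hbig).subset ?_
    rintro x ⟨hxW, hxC⟩
    rcases lt_trichotomy (estI W x e) v with h | h | h
    · exact Or.inl ⟨hxC, h⟩
    · rw [← h] at hpar
      exact absurd ((estI_mod W x e).2 hxW) hpar
    · exact Or.inr ⟨hxC, h⟩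

end combinatorics

section construction

variable (W : ℕ → ℕ → ℕ → Bool)

private theorem L_zero : maxSet_L W 0 = [] := rfl

private theorem L_succ (s : ℕ) : maxSet_L W (s + 1) = maxSet_F W s (maxSet_L W s) := rfl

private theorem L_length (s : ℕ) : (maxSet_L W s).length = s := by
  cases s with
  | zero => rfl
  | succ s =>
    rw [L_succ, maxSet_F, List.length_map, List.length_range]

private theorem X_le (s : ℕ) (L : List Bool) : maxSet_X W s L ≤ s := by
  unfold maxSet_X
  refine List.findIdx_le_length.trans ?_
  rw [List.length_range]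

private theorem Y_le (s : ℕ) (L : List Bool) : maxSet_Y W s L ≤ s := by
  unfold maxSet_Y
  refine List.findIdx_le_length.trans ?_
  rw [List.length_range]

private theorem range_find {s : ℕ} {p : ℕ → Bool} (h : (List.range s).findIdx p < s) :
    p ((List.range s).findIdx p) = true := by
  have h1 : (List.range s).findIdx p < (List.range s).length := by rwa [List.length_range]
  have h2 := List.findIdx_getElem (w := h1)
  rwa [List.getElem_range] at h2

private theorem range_find_le {s : ℕ} {p : ℕ → Bool} {x : ℕ} (_hx : x < s) (hp : p x = true) :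
    (List.range s).findIdx p ≤ x := by
  by_contra h
  have h1 := List.not_of_lt_findIdx (show x < (List.range s).findIdx p by omega)
  rw [List.getElem_range, hp] at h1
  exact absurd h1 (by simp)

private theorem bt_iff (s : ℕ) (L : List Bool) (x x' : ℕ) : maxSet_bt W s L x x' = true ↔
    x < x' ∧ x' < s ∧ L.getD x false = false ∧ L.getD x' false = false ∧
      maxSet_est W s x (maxSet_idx (fun u => L.getD u false) x) <
      maxSet_est W s x' (maxSet_idx (fun u => L.getD u false) x) := by
  unfold maxSet_bt
  simp only [Bool.and_eq_true, decide_eq_true_iff, Bool.not_eq_true']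

private theorem getD_L_succ (s x : ℕ) : (maxSet_L W (s + 1)).getD x false =
    ((maxSet_L W s).getD x false || (decide (maxSet_X W s (maxSet_L W s) ≤ x) &&
      decide (x < maxSet_Y W s (maxSet_L W s)))) := by
  rcases Nat.lt_or_ge x (s + 1) with h | h
  · rw [L_succ, maxSet_F, List.getD_eq_getElem _ _ (by simpa using h), List.getElem_map,
      List.getElem_range]
  · rw [List.getD_eq_default _ _ (by rw [L_length]; exact h),
      List.getD_eq_default _ _ (by rw [L_length]; omega)]
    have := Y_le W s (maxSet_L W s)
    have h1 : ¬ x < maxSet_Y W s (maxSet_L W s) := by omega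
    simp [h1]

end construction

section primrec

variable {W : ℕ → ℕ → ℕ → Bool} (hW : Primrec (fun p : ℕ × ℕ × ℕ => W p.1 p.2.1 p.2.2))

private theorem pr_bit {α : Type} [Primcodable α] {f : α → Bool} (hf : Primrec f) :
    Primrec fun a => maxSet_bit (f a) :=
  Primrec.cond hf (Primrec.const 1) (Primrec.const 0)

include hW in
private theorem pr_est {α : Type} [Primcodable α] {s x e : α → ℕ} (hs : Primrec s)
    (hx : Primrec x) (he : Primrec e) : Primrec fun a => maxSet_est W (s a) (x a) (e a) := by
  have h1 : Primrec fun a : α => maxSet_bit (W 0 (x a) (s a)) :=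
    pr_bit (hW.comp ((Primrec.const 0).pair (hx.pair hs)))
  have h2 : Primrec₂ fun (a : α) (p : ℕ × ℕ) =>
      2 * p.2 + maxSet_bit (W (p.1 + 1) (x a) (s a)) := by
    refine Primrec.nat_add.comp
      (Primrec.nat_mul.comp (Primrec.const 2) (Primrec.snd.comp Primrec.snd)) ?_
    exact pr_bit (hW.comp ((Primrec.succ.comp (Primrec.fst.comp Primrec.snd)).pair
      ((hx.comp Primrec.fst).pair (hs.comp Primrec.fst))))
  refine (Primrec.nat_rec' he h1 h2).of_eq fun a => ?_
  induction e a with
  | zero => rfl
  | succ n ih => simp only [maxSet_est, ← ih]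

private theorem pr_idx {α : Type} [Primcodable α] {L : α → List Bool} {x : α → ℕ}
    (hL : Primrec L) (hx : Primrec x) :
    Primrec fun a => maxSet_idx (fun u => (L a).getD u false) (x a) := by
  have h2 : Primrec₂ fun (a : α) (p : ℕ × ℕ) =>
      p.2 + maxSet_bit (!((L a).getD p.1 false)) := by
    refine Primrec.nat_add.comp (Primrec.snd.comp Primrec.snd) ?_
    exact pr_bit (Primrec.not.comp ((Primrec.list_getD false).comp (hL.comp Primrec.fst)
      (Primrec.fst.comp Primrec.snd)))
  refine (Primrec.nat_rec' hx (Primrec.const 0) h2).of_eq fun a => ?_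
  induction x a with
  | zero => rfl
  | succ n ih => simp only [maxSet_idx, ← ih]

include hW in
private theorem pr_bt {α : Type} [Primcodable α] {s x x' : α → ℕ} {L : α → List Bool}
    (hs : Primrec s) (hL : Primrec L) (hx : Primrec x) (hx' : Primrec x') :
    Primrec fun a => maxSet_bt W (s a) (L a) (x a) (x' a) := by
  unfold maxSet_bt
  refine Primrec.and.comp (Primrec.nat_lt.comp hx hx').decide ?_
  refine Primrec.and.comp (Primrec.nat_lt.comp hx' hs).decide ?_
  refine Primrec.and.comp (Primrec.not.comp ((Primrec.list_getD false).comp hL hx)) ?_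
  refine Primrec.and.comp (Primrec.not.comp ((Primrec.list_getD false).comp hL hx')) ?_
  exact (Primrec.nat_lt.comp (pr_est hW hs hx (pr_idx hL hx))
    (pr_est hW hs hx' (pr_idx hL hx))).decide

include hW in
private theorem pr_X {α : Type} [Primcodable α] {s : α → ℕ} {L : α → List Bool}
    (hs : Primrec s) (hL : Primrec L) : Primrec fun a => maxSet_X W (s a) (L a) := by
  unfold maxSet_X
  refine Primrec.list_findIdx (Primrec.list_range.comp hs) ?_
  refine (Primrec.nat_lt.comp (Primrec.list_findIdx
    (Primrec.list_range.comp (hs.comp Primrec.fst)) ?_) (hs.comp Primrec.fst)).decide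
  exact pr_bt hW (hs.comp (Primrec.fst.comp Primrec.fst)) (hL.comp (Primrec.fst.comp Primrec.fst))
    (Primrec.snd.comp Primrec.fst) Primrec.snd

include hW in
private theorem pr_Y {α : Type} [Primcodable α] {s : α → ℕ} {L : α → List Bool}
    (hs : Primrec s) (hL : Primrec L) : Primrec fun a => maxSet_Y W (s a) (L a) := by
  unfold maxSet_Y
  refine Primrec.list_findIdx (Primrec.list_range.comp hs) ?_
  exact pr_bt hW (hs.comp Primrec.fst) (hL.comp Primrec.fst)
    ((pr_X hW hs hL).comp Primrec.fst) Primrec.snd

include hW in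
private theorem pr_F : Primrec₂ fun (s : ℕ) (L : List Bool) => maxSet_F W s L := by
  have hs : Primrec fun p : ℕ × List Bool => p.1 := Primrec.fst
  have hL : Primrec fun p : ℕ × List Bool => p.2 := Primrec.snd
  unfold maxSet_F
  refine Primrec.list_map (Primrec.list_range.comp (Primrec.succ.comp hs)) ?_
  refine Primrec.or.comp ((Primrec.list_getD false).comp (hL.comp Primrec.fst) Primrec.snd) ?_
  exact Primrec.and.comp
    (Primrec.nat_le.comp ((pr_X hW hs hL).comp Primrec.fst) Primrec.snd).decide
    (Primrec.nat_lt.comp Primrec.snd ((pr_Y hW hs hL).comp Primrec.fst)).decide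

include hW in
private theorem pr_L : Primrec (maxSet_L W) :=
  Primrec.nat_rec₁ [] (pr_F hW)

end primrec

/-- Friedberg's theorem: there is a maximal set. -/
theorem exists_maximal : ∃ M : Set ℕ, RESet M ∧ Mᶜ.Infinite ∧
    ∀ W : Set ℕ, RESet W → (W ∩ Mᶜ).Finite ∨ (Mᶜ \ W).Finite := by
  obtain ⟨W, hW, hm, -, hall⟩ := exists_univ_set
  have hcore := core W hm (fun s x => (maxSet_L W s).getD x false)
    (fun s x h => ?_) (fun s => maxSet_X W s (maxSet_L W s))
    (fun s => maxSet_Y W s (maxSet_L W s)) (fun s x => getD_L_succ W s x)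
    (fun s hs => ?_) (fun s hs => ?_) (fun s x x' h1 h2 h3 h4 h5 => ?_)
  · refine ⟨{x | ∃ s, (maxSet_L W s).getD x false = true}, ?_, hcore.1, fun A hA => ?_⟩
    · refine RESet.of_exists (R := fun x s => (maxSet_L W s).getD x false = true) ?_
        fun e => Iff.rfl
      exact Primrec.eq.comp ((Primrec.list_getD false).comp ((pr_L hW).comp Primrec.snd)
        Primrec.fst) (Primrec.const true)
    · obtain ⟨i, hi⟩ := hall A hA
      have h1 : A = {x | ∃ s, W i x s = true} := by
        ext x
        exact hi x
      rw [h1]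
      exact hcore.2 i
  · by_contra hx
    rw [List.getD_eq_default _ _ (by rw [L_length]; omega)] at h
    exact absurd h (by simp)
  · have h1 : decide ((List.range s).findIdx
        (fun x' => maxSet_bt W s (maxSet_L W s) (maxSet_X W s (maxSet_L W s)) x') < s) = true :=
      range_find (p := fun x => decide ((List.range s).findIdx
        (fun x' => maxSet_bt W s (maxSet_L W s) x x') < s)) hs
    rw [decide_eq_true_iff] at h1
    have h2 := range_find h1
    have h3 := (bt_iff W s _ _ _).1 h2
    exact ⟨h3.1, h3.2.2.1, h3.2.2.2.1, h3.2.2.2.2⟩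
  · have h1 := X_le W s (maxSet_L W s)
    have h2 := Y_le W s (maxSet_L W s)
    omega
  · refine range_find_le (h1.trans h2) ?_
    rw [decide_eq_true_iff]
    refine lt_of_le_of_lt (range_find_le h2 ?_) h2
    exact (bt_iff W s _ _ _).2 ⟨h1, h2, h3, h4, h5⟩

end Pool.Agent.Lib.MP_45c83f_lc
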