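import Pool.Agent.Lib.MP_45c83f_lc.LabL
import Pool.Agent.Lib.MP_45c83f_lc.LabB
import Pool.Agent.Lib.MP_45c83f_lc.LabD
import Pool.Agent.Lib.MP_45c83f_lc.LabM
import Pool.Agent.Lib.MP_45c83f_lc.MaxIn

set_option autoImplicit false

/-!
# Exact streams at all nodes (text, 5.4 (i))
-/

namespace Pool.Agent.Lib.MP_45c83f_lc

namespace TSys

variable {X : Type} [PartialOrder X] [Finite X] [Primcodable X] {L : TSys X} {F : ℕ → ℕ → X}
  {S : Finset (Fin L.K)} {lam : ℕ → ℕ → Option (Fin L.K)}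

/-- Every node has an exact stream. -/
theorem exists_nodeStream (hF : IsAp F) (hlam : L.IsLab F allSt S lam)
    (hcor : {e | ¬ L.Corr F lam e}.Finite) (hS : L.HRed S) (hex : L.Exact F allSt S)
    {v : Fin L.K} (hv : L.Node S v) :
    ∃ V, L.AtC F lam V v ∧ L.Exact F V {v} := by
  obtain ⟨s, hs, hsv⟩ := hv
  have h0 : ∃ V, L.AtC F lam V s ∧ L.Exact F V {s} :=
    ⟨_, lemA hF hlam hcor hex hS.1 hs⟩
  rcases hsv with rfl | hsv
  · exact h0
  · unfold Desc at hsv
    induction hsv with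
    | single h1 =>
      obtain ⟨V, hV, hVe⟩ := h0
      exact ⟨_, lemD hF hlam hcor hV hVe (hS.2 s (Node.of_mem hs)) h1⟩
    | tail h1 h2 ih =>
      obtain ⟨V, hV, hVe⟩ := ih
      exact ⟨_, lemD hF hlam hcor hV hVe (hS.2 _ ((Node.of_mem hs).desc h1)) h2⟩

/-- The last label is unique. -/
theorem NodeEx_last_unique {e : ℕ} {v w : Fin L.K} (h : L.Last lam e v) (h' : L.Last lam e w) :
    v = w := by
  obtain ⟨t, ht⟩ := h
  obtain ⟨t', ht'⟩ := h'
  have h1 := ht _ (le_max_left t t')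
  rw [ht' _ (le_max_right t t')] at h1
  exact (Option.some.inj h1).symm

/-- At correct numbers the last label has the final state. -/
theorem NodeEx_state (hF : IsAp F) (hlam : L.IsLab F allSt S lam) {f : ℕ → X} (hf : Lim F f)
    {e : ℕ} (hc : L.Corr F lam e) {v : Fin L.K} (hv : L.Last lam e v) : f e = L.lab v := by
  obtain ⟨w, hw, hwl⟩ := hc.state hF hlam hf
  rw [NodeEx_last_unique hv hw, hwl]

/-- The labels of an exact type are the states which occur infinitely often. -/
theorem labF_iff (hF : IsAp F) {f : ℕ → X} (hf : Lim F f) (hS : L.HRed S)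
    (hex : L.Exact F allSt S) (τ : X) : L.LabF S τ ↔ {e | f e = τ}.Infinite := by
  obtain ⟨lam, hlam, hfin⟩ := hex.1
  have hcor : {e | ¬ L.Corr F lam e}.Finite := by
    refine hfin.subset fun e he => ⟨⟨0, rfl⟩, he⟩
  constructor
  · rintro ⟨v, hv, rfl⟩
    obtain ⟨V, hV, hVe⟩ := exists_nodeStream hF hlam hcor hS hex hv
    have h1 := exact_infinite hF hlam hcor hV hVe
    have h2 := h1.sdiff hcor
    refine h2.mono ?_
    rintro e ⟨⟨-, he⟩, hc⟩
    have hc' : L.Corr F lam e := by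
      by_contra h
      exact hc h
    exact NodeEx_state hF hlam hf hc' he
  · intro h
    obtain ⟨e, he, hc⟩ := (h.sdiff hcor).nonempty
    have hc' : L.Corr F lam e := by
      by_contra h
      exact hc h
    obtain ⟨w, ⟨t, ht⟩, hwl⟩ := hc'.state hF hlam hf
    exact ⟨w, hlam.node (ht t le_rfl), hwl.trans he⟩

/-- For a leaf label there is an infinite recursive set of numbers with this state. -/
theorem exists_leafSet (hF : IsAp F) {f : ℕ → X} (hf : Lim F f) (hS : L.HRed S)
    (hex : L.Exact F allSt S) {d : X} (hd : L.LeafLab S d) :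
    ∃ R : Set ℕ, Rec R ∧ R.Infinite ∧ ∀ e ∈ R, f e = d := by
  obtain ⟨lam, hlam, hfin⟩ := hex.1
  have hcor : {e | ¬ L.Corr F lam e}.Finite := by
    refine hfin.subset fun e he => ⟨⟨0, rfl⟩, he⟩
  obtain ⟨v, hv, hch, rfl⟩ := hd
  obtain ⟨V, hV, hVe⟩ := exists_nodeStream hF hlam hcor hS hex hv
  have hnd : ∀ w, ¬ L.Desc v w := by
    intro w hw
    rw [desc_iff_node, hch] at hw
    obtain ⟨s, hs, -⟩ := hw
    exact absurd hs (Finset.notMem_empty s)
  -- the elements of the stream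
  have hre : RESet {e | In V e} := ⟨V, hV.ap, fun e => Iff.rfl⟩
  have hre2 : RESet ({e | In V e} \ {e | ¬ L.Corr F lam e}) := by
    refine hre.change (hcor.subset ?_)
    intro e he
    simp only [Set.mem_symmDiff, Set.mem_sdiff, Set.mem_ofPred_eq] at he ⊢
    tauto
  have hinf : ({e | In V e} \ {e | ¬ L.Corr F lam e}).Infinite := by
    refine Set.Infinite.sdiff ?_ hcor
    exact (exact_infinite hF hlam hcor hV hVe).mono fun e he => he.1
  obtain ⟨R, hR1, hR2, hR3⟩ := exists_rec_subset hre2 hinf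
  refine ⟨R, hR2, hR3, fun e he => ?_⟩
  obtain ⟨⟨t, ht⟩, hc⟩ := hR1 he
  have hc' : L.Corr F lam e := by
    by_contra h
    exact hc h
  refine NodeEx_state hF hlam hf hc' ⟨t, fun u hu => ?_⟩
  have htu : V e u = true := hV.ap.true_of_le hu ht
  obtain ⟨w, hw, hw'⟩ := LabD_val hlam hV htu
  rcases hw' with rfl | hw'
  · exact hw
  · exact absurd hw' (hnd w)

end TSys

end Pool.Agent.Lib.MP_45c83f_lc
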