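import Pool.Agent.Lib.MP_45c83f_lc.NuNum
import Pool.Agent.Lib.MP_45c83f_lc.Defs

set_option autoImplicit false

/-!
# Elements of cubes, finite sets and finite functions as numbers
-/

namespace Pool.Agent.Lib.MP_45c83f_lc.Dec

/-- the element of the cube with code `a` -/
def cube (n a : ℕ) : Fin n → Bool := fun i => a.testBit i

/-- the code of an element of the cube -/
def cd {n : ℕ} (τ : Fin n → Bool) : ℕ := Nat.ofBits τ

private theorem lt_of_bit {a i : ℕ} (h : a.testBit i = true) : i < a :=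
  lt_of_lt_of_le Nat.lt_two_pow_self (Nat.ge_two_pow_of_testBit h)

private theorem lt_of_bit_lt {n a i : ℕ} (ha : a < 2 ^ n) (h : a.testBit i = true) : i < n := by
  have h1 : 2 ^ i ≤ a := Nat.ge_two_pow_of_testBit h
  exact (Nat.pow_lt_pow_iff_right (by norm_num : 1 < 2)).1 (lt_of_le_of_lt h1 ha)

theorem cd_lt {n : ℕ} (τ : Fin n → Bool) : cd τ < 2 ^ n := Nat.ofBits_lt_two_pow τ

theorem cube_cd {n : ℕ} (τ : Fin n → Bool) : cube n (cd τ) = τ := by
  funext i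
  exact Nat.testBit_ofBits_lt τ i.1 i.2

theorem cd_cube {n a : ℕ} (ha : a < 2 ^ n) : cd (cube n a) = a := by
  have h := Nat.ofBits_testBit a n
  rw [Nat.mod_eq_of_lt ha] at h
  exact h

theorem cube_Lb (n a : ℕ) : cube n (Lb n a) = cube n a := by
  funext i
  simp only [cube, Lb, Nat.testBit_mod_two_pow]
  simp [i.2]

theorem cd_cube' (n a : ℕ) : cd (cube n a) = Lb n a := Nat.ofBits_testBit a n

theorem Lb_lt (n a : ℕ) : Lb n a < 2 ^ n := Nat.mod_lt _ (by positivity)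

theorem dg_lt (m w j : ℕ) : dg m w j < 2 ^ m := Nat.mod_lt _ (by positivity)

theorem cube_inj {n a b : ℕ} (ha : a < 2 ^ n) (hb : b < 2 ^ n) :
    cube n a = cube n b ↔ a = b := by
  constructor
  · intro h
    rw [← cd_cube ha, ← cd_cube hb, h]
  · rintro rfl
    rfl

theorem cube_le {n a : ℕ} (ha : a < 2 ^ n) (b : ℕ) : cube n a ≤ cube n b ↔ Sb a b := by
  constructor
  · intro h i _ hi
    have hin : i < n := lt_of_bit_lt ha hi
    have h2 := h ⟨i, hin⟩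
    exact Bool.le_iff_imp.1 h2 hi
  · intro h i
    exact Bool.le_iff_imp.2 (fun hi => h i.1 (lt_of_bit hi) hi)

theorem cube_lt {n a b : ℕ} (ha : a < 2 ^ n) (hb : b < 2 ^ n) :
    cube n a < cube n b ↔ Sb a b ∧ a ≠ b := by
  rw [lt_iff_le_and_ne, cube_le ha, Ne, cube_inj ha hb]

theorem Sb_le {a b : ℕ} (h : Sb a b) : a ≤ b := by
  have h1 : a &&& b = a := by
    apply Nat.eq_of_testBit_eq
    intro i
    rw [Nat.testBit_and]
    cases hi : a.testBit i with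
    | false => simp
    | true => simp [h i (lt_of_bit hi) hi]
  rw [← h1]
  exact Nat.and_le_right

theorem cube_zero (n : ℕ) : cube n 0 = ⊥ := by
  funext i
  simp [cube]

theorem forall_cube {n : ℕ} {Q : (Fin n → Bool) → Prop} :
    (∀ τ, Q τ) ↔ ∀ a < 2 ^ n, Q (cube n a) := by
  constructor
  · intro h a _
    exact h _
  · intro h τ
    rw [← cube_cd τ]
    exact h _ (cd_lt τ)

theorem exists_cube {n : ℕ} {Q : (Fin n → Bool) → Prop} :
    (∃ τ, Q τ) ↔ ∃ a < 2 ^ n, Q (cube n a) := by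
  constructor
  · rintro ⟨τ, h⟩
    exact ⟨cd τ, cd_lt τ, by rw [cube_cd τ]; exact h⟩
  · rintro ⟨a, _, h⟩
    exact ⟨_, h⟩

/-- every set of numbers below `N` has a code -/
theorem exists_set_code (N : ℕ) (A : Set ℕ) :
    ∃ w < 2 ^ N, ∀ i, w.testBit i = true ↔ i < N ∧ i ∈ A := by
  classical
  refine ⟨Nat.ofBits (fun i : Fin N => decide (i.1 ∈ A)), Nat.ofBits_lt_two_pow _, ?_⟩
  intro i
  by_cases hi : i < N
  · rw [Nat.testBit_ofBits_lt _ _ hi]
    simp [hi]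
  · rw [Nat.testBit_ofBits_ge _ _ (not_lt.1 hi)]
    simp [hi]

/-- every function on the numbers below `N` has a code -/
theorem exists_fun_code (m N : ℕ) (f : ℕ → ℕ) (hf : ∀ j < N, f j < 2 ^ m) :
    ∃ w < 2 ^ (m * N), ∀ j < N, dg m w j = f j := by
  induction N with
  | zero => exact ⟨0, by simp, fun j hj => absurd hj (Nat.not_lt_zero _)⟩
  | succ N ih =>
    obtain ⟨w, hw, hd⟩ := ih (fun j hj => hf j (Nat.lt_succ_of_lt hj))
    have hfN := hf N (Nat.lt_succ_self N)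
    refine ⟨w + 2 ^ (m * N) * f N, ?_, ?_⟩
    · rw [Nat.mul_succ, Nat.pow_add]
      calc w + 2 ^ (m * N) * f N < 2 ^ (m * N) + 2 ^ (m * N) * f N := by omega
        _ = 2 ^ (m * N) * (f N + 1) := by ring
        _ ≤ 2 ^ (m * N) * 2 ^ m := Nat.mul_le_mul_left _ hfN
    · intro j hj
      rcases Nat.lt_succ_iff_lt_or_eq.1 hj with h | h
      · have hd' := hd j h
        unfold dg at hd' ⊢
        obtain ⟨t, rfl⟩ : ∃ t, N = j + 1 + t := ⟨N - (j + 1), by omega⟩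
        have e : w + 2 ^ (m * (j + 1 + t)) * f (j + 1 + t)
            = w + 2 ^ (m * j) * (2 ^ m * (2 ^ (m * t) * f (j + 1 + t))) := by
          have : m * (j + 1 + t) = m * j + (m + m * t) := by ring
          rw [this, Nat.pow_add, Nat.pow_add]
          ring
        rw [e, Nat.add_mul_div_left _ _ (by positivity), Nat.add_mul_mod_self_left]
        exact hd'
      · subst h
        unfold dg
        rw [Nat.add_mul_div_left _ _ (by positivity), Nat.div_eq_of_lt hw, zero_add,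
          Nat.mod_eq_of_lt hfN]

/-- codes of pairs -/
theorem pair_lt {a b P N : ℕ} (ha : a < P) (hb : b < N) : P * b + a < P * N := by
  calc P * b + a < P * b + P := by omega
    _ = P * (b + 1) := by ring
    _ ≤ P * N := Nat.mul_le_mul_left _ hb

theorem pair_inj {a b a' b' P : ℕ} (ha : a < P) (ha' : a' < P) (h : P * b + a = P * b' + a') :
    b = b' ∧ a = a' := by
  have hP : 0 < P := lt_of_le_of_lt (Nat.zero_le _) ha
  have h1 : (P * b + a) / P = b := by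
    rw [Nat.mul_add_div hP, Nat.div_eq_of_lt ha, add_zero]
  have h2 : (P * b' + a') / P = b' := by
    rw [Nat.mul_add_div hP, Nat.div_eq_of_lt ha', add_zero]
  have h3 : b = b' := by rw [← h1, ← h2, h]
  subst h3
  exact ⟨rfl, by omega⟩

theorem pair_lt' {n m a b : ℕ} (ha : a < 2 ^ n) (hb : b < 2 ^ m) :
    a + 2 ^ n * b < 2 ^ (n + m) := by
  have h := pair_lt ha hb
  rw [Nat.pow_add]
  omega

theorem pair_inj' {n a b a' b' : ℕ} (ha : a < 2 ^ n) (ha' : a' < 2 ^ n)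
    (h : a + 2 ^ n * b = a' + 2 ^ n * b') : a = a' ∧ b = b' := by
  have h' : 2 ^ n * b + a = 2 ^ n * b' + a' := by omega
  exact (pair_inj ha ha' h').symm

/-- the bits of the code of a pair -/
theorem testBit_pair {n a : ℕ} (ha : a < 2 ^ n) (b i : ℕ) :
    (a + 2 ^ n * b).testBit i = if i < n then a.testBit i else b.testBit (i - n) := by
  rw [add_comm]
  exact Nat.testBit_two_pow_mul_add b ha i

/-- the states of two variables -/
def setXY (n m I : ℕ) : Set ((Fin n → Bool) × (Fin m → Bool)) :=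
  {ρ | I.testBit (cd ρ.1 + 2 ^ n * cd ρ.2) = true}

/-- the states of three variables -/
def setXYZ (n m k T : ℕ) : Set ((Fin n → Bool) × (Fin m → Bool) × (Fin k → Bool)) :=
  {ρ | T.testBit (cd ρ.1 + 2 ^ n * cd ρ.2.1 + 2 ^ (n + m) * cd ρ.2.2) = true}

theorem mem_setXY {n m I a b : ℕ} (hb : b < 2 ^ m) :
    (cube n a, cube m b) ∈ setXY n m I ↔ I.testBit (Lb n a + 2 ^ n * b) = true := by
  show I.testBit (cd (cube n a) + 2 ^ n * cd (cube m b)) = true ↔ _
  rw [cd_cube' n a, cd_cube hb]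

theorem mem_setXYZ {n m k T a b c : ℕ} (hb : b < 2 ^ m) (hc : c < 2 ^ k) :
    (cube n a, cube m b, cube k c) ∈ setXYZ n m k T ↔
      T.testBit (Lb n a + 2 ^ n * b + 2 ^ (n + m) * c) = true := by
  show T.testBit (cd (cube n a) + 2 ^ n * cd (cube m b) + 2 ^ (n + m) * cd (cube k c)) = true ↔ _
  rw [cd_cube' n a, cd_cube hb, cd_cube hc]

theorem exists_setXY {n m : ℕ} (I : Set ((Fin n → Bool) × (Fin m → Bool))) :
    ∃ w < 2 ^ 2 ^ (n + m), setXY n m w = I := by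
  obtain ⟨w, hw, h⟩ := exists_set_code (2 ^ (n + m))
    {i | ∃ ρ ∈ I, cd ρ.1 + 2 ^ n * cd ρ.2 = i}
  refine ⟨w, hw, ?_⟩
  ext ρ
  simp only [setXY, Set.mem_ofPred_eq, h]
  constructor
  · rintro ⟨_, ρ', hρ', he⟩
    obtain ⟨h1, h2⟩ := pair_inj' (cd_lt ρ'.1) (cd_lt ρ.1) he
    have e1 : ρ'.1 = ρ.1 := by rw [← cube_cd ρ'.1, ← cube_cd ρ.1, h1]
    have e2 : ρ'.2 = ρ.2 := by rw [← cube_cd ρ'.2, ← cube_cd ρ.2, h2]
    have : ρ' = ρ := Prod.ext e1 e2
    rw [← this]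
    exact hρ'
  · intro hρ
    exact ⟨pair_lt' (cd_lt _) (cd_lt _), ρ, hρ, rfl⟩

theorem exists_setXYZ {n m k : ℕ}
    (T : Set ((Fin n → Bool) × (Fin m → Bool) × (Fin k → Bool))) :
    ∃ w < 2 ^ 2 ^ (n + m + k), setXYZ n m k w = T := by
  obtain ⟨w, hw, h⟩ := exists_set_code (2 ^ (n + m + k))
    {i | ∃ ρ ∈ T, cd ρ.1 + 2 ^ n * cd ρ.2.1 + 2 ^ (n + m) * cd ρ.2.2 = i}
  refine ⟨w, hw, ?_⟩
  ext ρ
  simp only [setXYZ, Set.mem_ofPred_eq, h]
  constructor
  · rintro ⟨_, ρ', hρ', he⟩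
    obtain ⟨h1, h2⟩ := pair_inj' (pair_lt' (cd_lt ρ'.1) (cd_lt ρ'.2.1))
      (pair_lt' (cd_lt ρ.1) (cd_lt ρ.2.1)) he
    obtain ⟨h3, h4⟩ := pair_inj' (cd_lt ρ'.1) (cd_lt ρ.1) h1
    have e1 : ρ'.1 = ρ.1 := by rw [← cube_cd ρ'.1, ← cube_cd ρ.1, h3]
    have e2 : ρ'.2.1 = ρ.2.1 := by rw [← cube_cd ρ'.2.1, ← cube_cd ρ.2.1, h4]
    have e3 : ρ'.2.2 = ρ.2.2 := by rw [← cube_cd ρ'.2.2, ← cube_cd ρ.2.2, h2]
    have : ρ' = ρ := Prod.ext e1 (Prod.ext e2 e3)
    rw [← this]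
    exact hρ'
  · intro hρ
    exact ⟨pair_lt' (pair_lt' (cd_lt _) (cd_lt _)) (cd_lt _), ρ, hρ, rfl⟩

end Pool.Agent.Lib.MP_45c83f_lc.Dec
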