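import Mathlib

set_option autoImplicit false

/-!
# Closure properties of primitive recursive predicates

Bounded quantifiers in arbitrary contexts and the tactic `prim`.
-/

namespace Pool.Agent.Lib.MP_45c83f_lc.Dec

variable {α : Type} [Primcodable α]

theorem ex_lt {R : α → ℕ → Prop} {t : α → ℕ} (ht : Primrec t)
    (hR : PrimrecPred fun p : α × ℕ => R p.1 p.2) : PrimrecPred fun a => ∃ y < t a, R a y := by
  have h1 : PrimrecRel fun (y : ℕ) (a : α) => R a y := by
    have := hR.comp (Primrec.pair Primrec.snd Primrec.fst : Primrec fun p : ℕ × α => (p.2, p.1))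
    exact this.primrecRel
  exact (h1.exists_mem_list.comp (Primrec.list_range.comp ht) Primrec.id).of_eq (by simp)

theorem all_lt {R : α → ℕ → Prop} {t : α → ℕ} (ht : Primrec t)
    (hR : PrimrecPred fun p : α × ℕ => R p.1 p.2) : PrimrecPred fun a => ∀ y < t a, R a y := by
  have h1 : PrimrecRel fun (y : ℕ) (a : α) => R a y := by
    have := hR.comp (Primrec.pair Primrec.snd Primrec.fst : Primrec fun p : ℕ × α => (p.2, p.1))
    exact this.primrecRel
  exact (h1.forall_mem_list.comp (Primrec.list_range.comp ht) Primrec.id).of_eq (by simp)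

theorem p_imp {p q : α → Prop} (hp : PrimrecPred p) (hq : PrimrecPred q) :
    PrimrecPred fun a => p a → q a :=
  (hp.not.or hq).of_eq fun a => by tauto

theorem p_iff {p q : α → Prop} (hp : PrimrecPred p) (hq : PrimrecPred q) :
    PrimrecPred fun a => (p a ↔ q a) :=
  ((p_imp hp hq).and (p_imp hq hp)).of_eq fun a => by tauto

theorem p_and {p q : α → Prop} (hp : PrimrecPred p) (hq : PrimrecPred q) :
    PrimrecPred fun a => p a ∧ q a := hp.and hq

theorem p_or {p q : α → Prop} (hp : PrimrecPred p) (hq : PrimrecPred q) :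
    PrimrecPred fun a => p a ∨ q a := hp.or hq

theorem p_not {p : α → Prop} (hp : PrimrecPred p) : PrimrecPred fun a => ¬ p a := hp.not

theorem p_lt {s t : α → ℕ} (hs : Primrec s) (ht : Primrec t) : PrimrecPred fun a => s a < t a :=
  Primrec.nat_lt.comp hs ht

theorem p_le {s t : α → ℕ} (hs : Primrec s) (ht : Primrec t) : PrimrecPred fun a => s a ≤ t a :=
  Primrec.nat_le.comp hs ht

theorem p_eq {s t : α → ℕ} (hs : Primrec s) (ht : Primrec t) : PrimrecPred fun a => s a = t a :=
  Primrec.eq.comp hs ht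

theorem p_ne {s t : α → ℕ} (hs : Primrec s) (ht : Primrec t) : PrimrecPred fun a => s a ≠ t a :=
  (Primrec.eq.comp hs ht).not

theorem t_add {s t : α → ℕ} (hs : Primrec s) (ht : Primrec t) : Primrec fun a => s a + t a :=
  Primrec.nat_add.comp hs ht

theorem t_sub {s t : α → ℕ} (hs : Primrec s) (ht : Primrec t) : Primrec fun a => s a - t a :=
  Primrec.nat_sub.comp hs ht

theorem t_mul {s t : α → ℕ} (hs : Primrec s) (ht : Primrec t) : Primrec fun a => s a * t a :=
  Primrec.nat_mul.comp hs ht

theorem t_div {s t : α → ℕ} (hs : Primrec s) (ht : Primrec t) : Primrec fun a => s a / t a :=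
  Primrec.nat_div.comp hs ht

theorem t_mod {s t : α → ℕ} (hs : Primrec s) (ht : Primrec t) : Primrec fun a => s a % t a :=
  Primrec.nat_mod.comp hs ht

theorem prim_pow : Primrec₂ fun a b : ℕ => a ^ b :=
  Primrec₂.unpaired'.1 Nat.Primrec.pow

theorem t_pow {s t : α → ℕ} (hs : Primrec s) (ht : Primrec t) : Primrec fun a => s a ^ t a :=
  prim_pow.comp hs ht

theorem t_fst {s : α → ℕ} (hs : Primrec s) : Primrec fun a => (s a).unpair.1 :=
  Primrec.fst.comp (Primrec.unpair.comp hs)

theorem t_snd {s : α → ℕ} (hs : Primrec s) : Primrec fun a => (s a).unpair.2 :=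
  Primrec.snd.comp (Primrec.unpair.comp hs)

theorem p_bit {s t : α → ℕ} (hs : Primrec s) (ht : Primrec t) :
    PrimrecPred fun a => (s a).testBit (t a) = true := by
  have h : PrimrecPred fun a => s a / 2 ^ t a % 2 = 1 :=
    p_eq (t_mod (t_div hs (t_pow (Primrec.const 2) ht)) (Primrec.const 2)) (Primrec.const 1)
  refine h.of_eq fun a => ?_
  rw [Nat.testBit_eq_decide_div_mod_eq, decide_eq_true_iff]

end Pool.Agent.Lib.MP_45c83f_lc.Dec
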