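import Pool.Agent.Lib.MP_45c83f_lc.NuCl

set_option autoImplicit false

/-!
# The numeric form of the criterion

All finite objects are natural numbers. A subset of `{0, ..., N - 1}` is a number `w < 2 ^ N`
(the set of the positions of its binary digits `1`), an element of the cube `2 ^ n` is a number
below `2 ^ n`, a type over `2 ^ n` is a number `v`: its label consists of the first `n` bits, and
`c` is a child iff the bit `n + c` is `1`. A state `(a, b)` is the number `a + 2 ^ n * b`, a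
state `(a, b, c)` is `a + 2 ^ n * b + 2 ^ (n + m) * c`. A function with values below `2 ^ m` is
a number, with digits in base `2 ^ m`.
-/

namespace Pool.Agent.Lib.MP_45c83f_lc.Dec

/-- inclusion of the sets of bits -/
def Sb (a b : ℕ) : Prop := ∀ i < a, a.testBit i = true → b.testBit i = true

/-- the label of a type -/
def Lb (n v : ℕ) : ℕ := v % 2 ^ n

/-- the `j`-th digit in base `2 ^ m` -/
def dg (m w j : ℕ) : ℕ := w / 2 ^ (m * j) % 2 ^ m

/-- `v` is the code of a type -/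
def Ty (n v : ℕ) : Prop :=
  ∃ S < 2 ^ (v + 1), S.testBit v = true ∧ ∀ u < v + 1, S.testBit u = true →
    ∀ c < u, u.testBit (n + c) = true → Sb (Lb n u) (Lb n c) ∧ Lb n u ≠ Lb n c ∧
      S.testBit c = true

/-- auxiliary bounds -/
def bdr (n : ℕ) : ℕ → ℕ
  | 0 => 0
  | r + 1 => 2 ^ (n + bdr n r)

/-- a bound for all codes of types -/
def bd (n : ℕ) : ℕ := bdr n (n + 1)

/-- `v` is a node of the forest `S` -/
def NodeN (n B S v : ℕ) : Prop :=
  ∀ N < 2 ^ B, (∀ u < B, (S.testBit u = true → N.testBit u = true) ∧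
    (N.testBit u = true → ∀ c < B, u.testBit (n + c) = true → N.testBit c = true)) →
    N.testBit v = true

/-- `a` is the label of a node of the forest `S` -/
def LabN (n B S a : ℕ) : Prop := ∃ v < B, NodeN n B S v ∧ Lb n v = a

/-- compliance -/
def CompN (n m B I v b : ℕ) : Prop :=
  ∃ C < 2 ^ (2 ^ m * B), C.testBit (2 ^ m * v + b) = true ∧ ∀ u < B, ∀ a < 2 ^ m,
    C.testBit (2 ^ m * u + a) = true → I.testBit (Lb n u + 2 ^ n * a) = true ∧
      ∀ c < B, u.testBit (n + c) = true → ∃ a' < 2 ^ m, Sb a a' ∧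
        C.testBit (2 ^ m * c + a') = true

/-- the winning positions of the existential player -/
def EWN (n m k B I T v b c : ℕ) : Prop :=
  ∃ E < 2 ^ (2 ^ k * (2 ^ m * B)), E.testBit (2 ^ k * (2 ^ m * v + b) + c) = true ∧
    ∀ u < B, ∀ a < 2 ^ m, ∀ d < 2 ^ k, E.testBit (2 ^ k * (2 ^ m * u + a) + d) = true →
      ∃ d' < 2 ^ k, Sb d d' ∧
        (CompN n m B I u a → T.testBit (Lb n u + 2 ^ n * a + 2 ^ (n + m) * d') = true ∧
          ∀ w < B, u.testBit (n + w) = true →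
            E.testBit (2 ^ k * (2 ^ m * w + a) + d') = true) ∧
        ∀ a' < 2 ^ m, Sb a a' → a ≠ a' → E.testBit (2 ^ k * (2 ^ m * u + a') + d') = true

/-- reachability of `(v, a)` from `(s, b)` by compliant steps -/
def RchN (n m B I s b v a : ℕ) : Prop :=
  ∀ R < 2 ^ (2 ^ m * B), R.testBit (2 ^ m * s + b) = true →
    (∀ u < B, ∀ d < 2 ^ m, R.testBit (2 ^ m * u + d) = true → ∀ c < B,
      u.testBit (n + c) = true → ∀ d' < 2 ^ m, Sb d d' → CompN n m B I c d' →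
        R.testBit (2 ^ m * c + d') = true) → R.testBit (2 ^ m * v + a) = true

/-- valid data -/
def ValidN (n m B S I h : ℕ) : Prop :=
  (∀ s < B, S.testBit s = true → CompN n m B I s (dg m h s)) ∧
  ∀ a < 2 ^ n, ∀ b < 2 ^ m, I.testBit (a + 2 ^ n * b) = true → NodeN n B S a ∨
    ∃ s < B, S.testBit s = true ∧ ∃ v < B, Lb n v = a ∧ RchN n m B I s (dg m h s) v b

/-- the winning condition -/
def WinN (n m k B S I h T : ℕ) : Prop :=
  (∀ a < 2 ^ n, NodeN n B S a → EWN n m k B I T a 0 0) ∧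
  ∀ s < B, S.testBit s = true → 2 ^ n ≤ s → ∃ c < 2 ^ k,
    T.testBit (Lb n s + 2 ^ n * dg m h s + 2 ^ (n + m) * c) = true ∧
      ∀ w < B, s.testBit (n + w) = true → EWN n m k B I T w (dg m h s) c

/-- the value of the term with code `t` at the state `σ` (the bits of `σ` are the values of the
variables) -/
def TmN (σ t : ℕ) : Prop :=
  ∃ W < 2 ^ (t + 1), W.testBit t = true ∧ ∀ e < t + 1, (W.testBit e = true ↔
    (e = 1 ∨ (e % 3 = 2 ∧ σ.testBit (e / 3) = true) ∨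
      (e % 3 = 0 ∧ e ≠ 0 ∧ (W.testBit (e / 3 - 1).unpair.1 = true ∨
        W.testBit (e / 3 - 1).unpair.2 = true)) ∨
      (e % 3 = 1 ∧ e ≠ 1 ∧ W.testBit (e / 3 - 1).unpair.1 = true ∧
        W.testBit (e / 3 - 1).unpair.2 = true)))

/-- the truth of the formula with code `d`, if `T` is the set of the attained states of the `N`
variables -/
def SatN (N T d : ℕ) : Prop :=
  ∃ W < 2 ^ (d + 1), W.testBit d = true ∧ ∀ e < d + 1, (W.testBit e = true ↔
    ((e % 5 = 0 ∧ ∀ σ < 2 ^ N, T.testBit σ = true → TmN σ (e / 5).unpair.1 →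
        TmN σ (e / 5).unpair.2) ∨
      (e % 5 = 1 ∧ ∀ σ < 2 ^ N, T.testBit σ = true → (TmN σ (e / 5).unpair.1 ↔
        TmN σ (e / 5).unpair.2)) ∨
      (e % 5 = 2 ∧ ¬ W.testBit (e / 5) = true) ∨
      (e % 5 = 3 ∧ W.testBit (e / 5).unpair.1 = true ∧ W.testBit (e / 5).unpair.2 = true) ∨
      (e % 5 = 4 ∧ (W.testBit (e / 5).unpair.1 = true ∨ W.testBit (e / 5).unpair.2 = true))))

/-- all variables of the term with code `t` are below `N` -/
def ClT (N t : ℕ) : Prop :=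
  ∃ W < 2 ^ (t + 1), W.testBit t = true ∧ ∀ e < t + 1, W.testBit e = true →
    (e % 3 = 2 → e / 3 < N) ∧
    ((e % 3 = 0 ∧ e ≠ 0) ∨ (e % 3 = 1 ∧ e ≠ 1) → W.testBit (e / 3 - 1).unpair.1 = true ∧
      W.testBit (e / 3 - 1).unpair.2 = true)

/-- all variables of the formula with code `d` are below `N` -/
def ClF (N d : ℕ) : Prop :=
  ∃ W < 2 ^ (d + 1), W.testBit d = true ∧ ∀ e < d + 1, W.testBit e = true →
    (e % 5 = 0 ∨ e % 5 = 1 → ClT N (e / 5).unpair.1 ∧ ClT N (e / 5).unpair.2) ∧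
    (e % 5 = 2 → W.testBit (e / 5) = true) ∧
    (e % 5 = 3 ∨ e % 5 = 4 → W.testBit (e / 5).unpair.1 = true ∧
      W.testBit (e / 5).unpair.2 = true)

/-- the answer of the existential player in the criterion -/
def AnsN (n m k d B S q x I h y F z T : ℕ) : Prop :=
  SatN (n + m + k) T d ∧
  (∀ a < 2 ^ n, ∀ b < 2 ^ m, I.testBit (a + 2 ^ n * b) = true → ∃ c < 2 ^ k,
    T.testBit (a + 2 ^ n * b + 2 ^ (n + m) * c) = true) ∧
  (∀ a < 2 ^ n, ∀ b < 2 ^ m, F.testBit (a + 2 ^ n * b) = true → ∃ c < 2 ^ k,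
    T.testBit (a + 2 ^ n * b + 2 ^ (n + m) * c) = true ∧
      ∀ c' < 2 ^ k, T.testBit (a + 2 ^ n * b + 2 ^ (n + m) * c') = true → c' = c) ∧
  (∀ a < 2 ^ n, ∀ b < 2 ^ m, ∀ c < 2 ^ k,
    T.testBit (a + 2 ^ n * b + 2 ^ (n + m) * c) = true → LabN n B S a →
      (I.testBit (a + 2 ^ n * b) = true ∨ F.testBit (a + 2 ^ n * b) = true)) ∧
  (∀ a < 2 ^ n, ∀ b < 2 ^ m, ∀ c < 2 ^ k, ¬ LabN n B S a →
    (T.testBit (a + 2 ^ n * b + 2 ^ (n + m) * c) = true ↔
      ∃ j < q, dg n x j = a ∧ dg m y j = b ∧ dg k z j = c)) ∧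
  WinN n m k B S I h T

/-- the criterion for a forest and exceptional values, with bounds `B` and `Q` as parameters -/
def GoodN (n m k d B Q S q x : ℕ) : Prop :=
  ∀ I < 2 ^ 2 ^ (n + m), ∀ h < 2 ^ (m * B), ValidN n m B S I h →
    ∀ y < 2 ^ (m * Q), ∀ F < 2 ^ 2 ^ (n + m),
      (∀ a < 2 ^ n, ∀ b < 2 ^ m, F.testBit (a + 2 ^ n * b) = true →
        LabN n B S a ∧ ¬ I.testBit (a + 2 ^ n * b) = true) →
      ∃ z < 2 ^ (k * Q), ∃ T < 2 ^ 2 ^ (n + m + k), AnsN n m k d B S q x I h y F z T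

/-- the numeric form of the criterion -/
def CritN (n m k d B Q : ℕ) : Prop :=
  ∃ S < 2 ^ B, S ≠ 0 ∧ (∀ v < B, S.testBit v = true → Ty n v) ∧
    ∃ q < Q + 1, ∃ x < 2 ^ (n * Q), (∀ j < q, ¬ LabN n B S (dg n x j)) ∧
      GoodN n m k d B Q S q x

/-- the numeric form of the decision procedure for `n, m, k` and the code `d` of the matrix -/
def DecN (n m k d : ℕ) : Prop :=
  ClF (n + m + k) d ∧ CritN n m k d (bd n) (2 ^ (n + m + k))

end Pool.Agent.Lib.MP_45c83f_lc.Dec
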