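import Pool.Agent.Lib.MP_45c83f_lc.Syntax
import Pool.Agent.Lib.MP_45c83f_lc.NuNum
import Pool.Agent.Lib.MP_45c83f_lc.NuBits

set_option autoImplicit false

/-!
# Goedel numbers
-/

namespace Pool.Agent.Lib.MP_45c83f_lc.Dec

theorem tm_code_inj {s t : Tm} (h : s.code = t.code) : s = t := by
  induction s generalizing t with
  | bot => cases t <;> simp only [Tm.code] at h <;> first | rfl | omega
  | top => cases t <;> simp only [Tm.code] at h <;> first | rfl | omega
  | var i =>
    cases t <;> simp only [Tm.code] at h <;> first | omega | skip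
    rename_i j
    have h1 : i = j := by omega
    rw [h1]
  | sup a b iha ihb =>
    cases t <;> simp only [Tm.code] at h <;> first | omega | skip
    rename_i a' b'
    have h1 : Nat.pair a.code b.code = Nat.pair a'.code b'.code := by omega
    obtain ⟨h2, h3⟩ := Nat.pair_eq_pair.1 h1
    rw [iha h2, ihb h3]
  | inf a b iha ihb =>
    cases t <;> simp only [Tm.code] at h <;> first | omega | skip
    rename_i a' b'
    have h1 : Nat.pair a.code b.code = Nat.pair a'.code b'.code := by omega
    obtain ⟨h2, h3⟩ := Nat.pair_eq_pair.1 h1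
    rw [iha h2, ihb h3]

theorem tm_code_surj (c : ℕ) : ∃ t : Tm, t.code = c := by
  induction c using Nat.strong_induction_on with
  | _ c ih =>
    by_cases h0 : c = 0
    · exact ⟨.bot, h0.symm⟩
    by_cases h1 : c = 1
    · exact ⟨.top, h1.symm⟩
    by_cases h2 : c % 3 = 2
    · exact ⟨.var (c / 3), by simp only [Tm.code]; omega⟩
    have hl : (Nat.unpair (c / 3 - 1)).1 ≤ c / 3 - 1 := Nat.unpair_left_le _
    have hr : (Nat.unpair (c / 3 - 1)).2 ≤ c / 3 - 1 := Nat.unpair_right_le _
    obtain ⟨a, ha⟩ := ih _ (show (Nat.unpair (c / 3 - 1)).1 < c by omega)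
    obtain ⟨b, hb⟩ := ih _ (show (Nat.unpair (c / 3 - 1)).2 < c by omega)
    by_cases h3 : c % 3 = 0
    · refine ⟨.sup a b, ?_⟩
      simp only [Tm.code, ha, hb, Nat.pair_unpair]
      omega
    · refine ⟨.inf a b, ?_⟩
      simp only [Tm.code, ha, hb, Nat.pair_unpair]
      omega

theorem fm_code_inj {φ ψ : Fm} (h : φ.code = ψ.code) : φ = ψ := by
  induction φ generalizing ψ with
  | sub a b =>
    cases ψ <;> simp only [Fm.code] at h <;> first | omega | skip
    rename_i a' b'
    have h1 : Nat.pair a.code b.code = Nat.pair a'.code b'.code := by omega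
    obtain ⟨h2, h3⟩ := Nat.pair_eq_pair.1 h1
    rw [tm_code_inj h2, tm_code_inj h3]
  | eq a b =>
    cases ψ <;> simp only [Fm.code] at h <;> first | omega | skip
    rename_i a' b'
    have h1 : Nat.pair a.code b.code = Nat.pair a'.code b'.code := by omega
    obtain ⟨h2, h3⟩ := Nat.pair_eq_pair.1 h1
    rw [tm_code_inj h2, tm_code_inj h3]
  | neg φ ih =>
    cases ψ <;> simp only [Fm.code] at h <;> first | omega | skip
    rename_i φ'
    have h1 : φ.code = φ'.code := by omega
    rw [ih h1]
  | and φ₁ φ₂ ih₁ ih₂ =>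
    cases ψ <;> simp only [Fm.code] at h <;> first | omega | skip
    rename_i a' b'
    have h1 : Nat.pair φ₁.code φ₂.code = Nat.pair a'.code b'.code := by omega
    obtain ⟨h2, h3⟩ := Nat.pair_eq_pair.1 h1
    rw [ih₁ h2, ih₂ h3]
  | or φ₁ φ₂ ih₁ ih₂ =>
    cases ψ <;> simp only [Fm.code] at h <;> first | omega | skip
    rename_i a' b'
    have h1 : Nat.pair φ₁.code φ₂.code = Nat.pair a'.code b'.code := by omega
    obtain ⟨h2, h3⟩ := Nat.pair_eq_pair.1 h1
    rw [ih₁ h2, ih₂ h3]

theorem fm_code_surj (c : ℕ) : ∃ φ : Fm, φ.code = c := by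
  induction c using Nat.strong_induction_on with
  | _ c ih =>
    have hl : (Nat.unpair (c / 5)).1 ≤ c / 5 := Nat.unpair_left_le _
    have hr : (Nat.unpair (c / 5)).2 ≤ c / 5 := Nat.unpair_right_le _
    by_cases h0 : c % 5 = 0
    · obtain ⟨a, ha⟩ := tm_code_surj (Nat.unpair (c / 5)).1
      obtain ⟨b, hb⟩ := tm_code_surj (Nat.unpair (c / 5)).2
      refine ⟨.sub a b, ?_⟩
      simp only [Fm.code, ha, hb, Nat.pair_unpair]
      omega
    by_cases h1 : c % 5 = 1
    · obtain ⟨a, ha⟩ := tm_code_surj (Nat.unpair (c / 5)).1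
      obtain ⟨b, hb⟩ := tm_code_surj (Nat.unpair (c / 5)).2
      refine ⟨.eq a b, ?_⟩
      simp only [Fm.code, ha, hb, Nat.pair_unpair]
      omega
    by_cases h2 : c % 5 = 2
    · obtain ⟨φ, hφ⟩ := ih (c / 5) (by omega)
      exact ⟨.neg φ, by simp only [Fm.code]; omega⟩
    obtain ⟨a, ha⟩ := ih _ (show (Nat.unpair (c / 5)).1 < c by omega)
    obtain ⟨b, hb⟩ := ih _ (show (Nat.unpair (c / 5)).2 < c by omega)
    by_cases h3 : c % 5 = 3
    · refine ⟨.and a b, ?_⟩
      simp only [Fm.code, ha, hb, Nat.pair_unpair]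
      omega
    · refine ⟨.or a b, ?_⟩
      simp only [Fm.code, ha, hb, Nat.pair_unpair]
      omega

private theorem NuCode_e1 (p : ℕ) : (3 * p + 3) / 3 - 1 = p := by omega

private theorem NuCode_e2 (p : ℕ) : (3 * p + 4) / 3 - 1 = p := by omega

private theorem NuCode_sub1 (a b : ℕ) : a ≤ Nat.pair a b := Nat.left_le_pair a b

private theorem NuCode_sub2 (a b : ℕ) : b ≤ Nat.pair a b := Nat.right_le_pair a b

theorem clT_iff (N : ℕ) (t : Tm) : ClT N t.code ↔ t.Closed N := by
  constructor
  · rintro ⟨W, _, ht, hW⟩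
    have key : ∀ u : Tm, u.code < t.code + 1 → W.testBit u.code = true → u.Closed N := by
      intro u
      induction u with
      | bot => intro _ _; trivial
      | top => intro _ _; trivial
      | var i =>
        intro h1 h2
        have h3 := (hW _ h1 h2).1
        simp only [Tm.code] at h3
        have h4 := h3 (by omega)
        have h5 : (3 * i + 2) / 3 = i := by omega
        rw [h5] at h4
        exact h4
      | sup a b iha ihb =>
        intro h1 h2
        have h3 := (hW _ h1 h2).2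
        simp only [Tm.code] at h1 h2 h3
        rw [NuCode_e1, Nat.unpair_pair] at h3
        obtain ⟨h4, h5⟩ := h3 (Or.inl ⟨by omega, by omega⟩)
        have h6 := NuCode_sub1 a.code b.code
        have h7 := NuCode_sub2 a.code b.code
        exact ⟨iha (by omega) h4, ihb (by omega) h5⟩
      | inf a b iha ihb =>
        intro h1 h2
        have h3 := (hW _ h1 h2).2
        simp only [Tm.code] at h1 h2 h3
        rw [NuCode_e2, Nat.unpair_pair] at h3
        obtain ⟨h4, h5⟩ := h3 (Or.inr ⟨by omega, by omega⟩)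
        have h6 := NuCode_sub1 a.code b.code
        have h7 := NuCode_sub2 a.code b.code
        exact ⟨iha (by omega) h4, ihb (by omega) h5⟩
    exact key t (Nat.lt_succ_self _) ht
  · intro ht
    obtain ⟨W, hW, hWb⟩ := exists_set_code (t.code + 1) {c | ∃ u : Tm, u.Closed N ∧ u.code = c}
    refine ⟨W, hW, (hWb _).2 ⟨Nat.lt_succ_self _, t, ht, rfl⟩, ?_⟩
    intro e he hWe
    obtain ⟨_, u, hu, rfl⟩ := (hWb e).1 hWe
    cases u with
    | bot =>
      refine ⟨fun h => ?_, fun h => ?_⟩
      · simp [Tm.code] at h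
      · simp [Tm.code] at h
    | top =>
      refine ⟨fun h => ?_, fun h => ?_⟩
      · simp [Tm.code] at h
      · simp [Tm.code] at h
    | var i =>
      simp only [Tm.code]
      refine ⟨fun _ => ?_, fun h => ?_⟩
      · rw [show (3 * i + 2) / 3 = i by omega]
        exact hu
      · omega
    | sup a b =>
      simp only [Tm.code] at he ⊢
      have h6 := NuCode_sub1 a.code b.code
      have h7 := NuCode_sub2 a.code b.code
      refine ⟨fun h => by omega, fun _ => ?_⟩
      rw [NuCode_e1, Nat.unpair_pair]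
      exact ⟨(hWb _).2 ⟨by omega, a, hu.1, rfl⟩, (hWb _).2 ⟨by omega, b, hu.2, rfl⟩⟩
    | inf a b =>
      simp only [Tm.code] at he ⊢
      have h6 := NuCode_sub1 a.code b.code
      have h7 := NuCode_sub2 a.code b.code
      refine ⟨fun h => by omega, fun _ => ?_⟩
      rw [NuCode_e2, Nat.unpair_pair]
      exact ⟨(hWb _).2 ⟨by omega, a, hu.1, rfl⟩, (hWb _).2 ⟨by omega, b, hu.2, rfl⟩⟩

private theorem NuCode_f0 (p : ℕ) : (5 * p) / 5 = p := by omega

private theorem NuCode_f1 (p : ℕ) : (5 * p + 1) / 5 = p := by omega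

private theorem NuCode_f2 (p : ℕ) : (5 * p + 2) / 5 = p := by omega

private theorem NuCode_f3 (p : ℕ) : (5 * p + 3) / 5 = p := by omega

private theorem NuCode_f4 (p : ℕ) : (5 * p + 4) / 5 = p := by omega

theorem clF_iff (N : ℕ) (φ : Fm) : ClF N φ.code ↔ φ.Closed N := by
  constructor
  · rintro ⟨W, _, ht, hW⟩
    have key : ∀ ψ : Fm, ψ.code < φ.code + 1 → W.testBit ψ.code = true → ψ.Closed N := by
      intro ψ
      induction ψ with
      | sub a b =>
        intro h1 h2
        have h3 := (hW _ h1 h2).1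
        simp only [Fm.code] at h1 h2 h3
        rw [NuCode_f0, Nat.unpair_pair] at h3
        obtain ⟨h4, h5⟩ := h3 (Or.inl (by omega))
        exact ⟨(clT_iff N a).1 h4, (clT_iff N b).1 h5⟩
      | eq a b =>
        intro h1 h2
        have h3 := (hW _ h1 h2).1
        simp only [Fm.code] at h1 h2 h3
        rw [NuCode_f1, Nat.unpair_pair] at h3
        obtain ⟨h4, h5⟩ := h3 (Or.inr (by omega))
        exact ⟨(clT_iff N a).1 h4, (clT_iff N b).1 h5⟩
      | neg ψ ih =>
        intro h1 h2
        have h3 := (hW _ h1 h2).2.1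
        simp only [Fm.code] at h1 h2 h3
        rw [NuCode_f2] at h3
        exact ih (by omega) (h3 (by omega))
      | and a b iha ihb =>
        intro h1 h2
        have h3 := (hW _ h1 h2).2.2
        simp only [Fm.code] at h1 h2 h3
        rw [NuCode_f3, Nat.unpair_pair] at h3
        obtain ⟨h4, h5⟩ := h3 (Or.inl (by omega))
        have h6 := NuCode_sub1 a.code b.code
        have h7 := NuCode_sub2 a.code b.code
        exact ⟨iha (by omega) h4, ihb (by omega) h5⟩
      | or a b iha ihb =>
        intro h1 h2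
        have h3 := (hW _ h1 h2).2.2
        simp only [Fm.code] at h1 h2 h3
        rw [NuCode_f4, Nat.unpair_pair] at h3
        obtain ⟨h4, h5⟩ := h3 (Or.inr (by omega))
        have h6 := NuCode_sub1 a.code b.code
        have h7 := NuCode_sub2 a.code b.code
        exact ⟨iha (by omega) h4, ihb (by omega) h5⟩
    exact key φ (Nat.lt_succ_self _) ht
  · intro ht
    obtain ⟨W, hW, hWb⟩ := exists_set_code (φ.code + 1) {c | ∃ ψ : Fm, ψ.Closed N ∧ ψ.code = c}
    refine ⟨W, hW, (hWb _).2 ⟨Nat.lt_succ_self _, φ, ht, rfl⟩, ?_⟩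
    intro e he hWe
    obtain ⟨_, ψ, hψ, rfl⟩ := (hWb e).1 hWe
    cases ψ with
    | sub a b =>
      simp only [Fm.code] at he ⊢
      refine ⟨fun _ => ?_, fun h => by omega, fun h => by omega⟩
      rw [NuCode_f0, Nat.unpair_pair]
      exact ⟨(clT_iff N a).2 hψ.1, (clT_iff N b).2 hψ.2⟩
    | eq a b =>
      simp only [Fm.code] at he ⊢
      refine ⟨fun _ => ?_, fun h => by omega, fun h => by omega⟩
      rw [NuCode_f1, Nat.unpair_pair]
      exact ⟨(clT_iff N a).2 hψ.1, (clT_iff N b).2 hψ.2⟩
    | neg ψ =>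
      simp only [Fm.code] at he ⊢
      refine ⟨fun h => by omega, fun _ => ?_, fun h => by omega⟩
      rw [NuCode_f2]
      exact (hWb _).2 ⟨by omega, ψ, hψ, rfl⟩
    | and a b =>
      simp only [Fm.code] at he ⊢
      have h6 := NuCode_sub1 a.code b.code
      have h7 := NuCode_sub2 a.code b.code
      refine ⟨fun h => by omega, fun h => by omega, fun _ => ?_⟩
      rw [NuCode_f3, Nat.unpair_pair]
      exact ⟨(hWb _).2 ⟨by omega, a, hψ.1, rfl⟩, (hWb _).2 ⟨by omega, b, hψ.2, rfl⟩⟩
    | or a b =>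
      simp only [Fm.code] at he ⊢
      have h6 := NuCode_sub1 a.code b.code
      have h7 := NuCode_sub2 a.code b.code
      refine ⟨fun h => by omega, fun h => by omega, fun _ => ?_⟩
      rw [NuCode_f4, Nat.unpair_pair]
      exact ⟨(hWb _).2 ⟨by omega, a, hψ.1, rfl⟩, (hWb _).2 ⟨by omega, b, hψ.2, rfl⟩⟩

end Pool.Agent.Lib.MP_45c83f_lc.Dec
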