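import Pool.Agent.Lib.MP_45c83f_lc.NuTy

set_option autoImplicit false

/-!
# Compliance
-/

namespace Pool.Agent.Lib.MP_45c83f_lc.Dec.Enum

variable {n : ℕ} (E : Enum n)

private theorem nuComp_mp {m I b : ℕ} (hb : b < 2 ^ m) (i : Fin E.L.K)
    (h : E.L.Comp (setXY n m I) i (cube m b)) : CompN n m (bd n) I (E.e i) b := by
  obtain ⟨C, hC, hCb⟩ := exists_set_code (2 ^ m * bd n)
    {w | ∃ (i' : Fin E.L.K) (b' : ℕ), b' < 2 ^ m ∧ w = 2 ^ m * E.e i' + b' ∧
      E.L.Comp (setXY n m I) i' (cube m b')}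
  refine ⟨C, hC, (hCb _).2 ⟨pair_lt hb (E.lt_bd i), i, b, hb, rfl, h⟩, ?_⟩
  intro u _ a ha hua
  obtain ⟨-, i', b', hb', he, hc⟩ := (hCb _).1 hua
  obtain ⟨rfl, rfl⟩ := pair_inj ha hb' he
  cases hc with
  | mk _ _ φ h1 h2 h3 =>
    refine ⟨?_, ?_⟩
    · rw [E.lab i', mem_setXY ha] at h1
      exact h1
    · intro c _ hcb
      obtain ⟨j, hj, rfl⟩ := E.exists_ch hcb
      refine ⟨cd (φ j), cd_lt _, ?_, ?_⟩
      · rw [← cube_le ha, cube_cd]
        exact h2 j hj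
      · refine (hCb _).2 ⟨pair_lt (cd_lt _) (E.lt_bd j), j, cd (φ j), cd_lt _, rfl, ?_⟩
        rw [cube_cd]
        exact h3 j hj

private theorem nuComp_mpr {m I C : ℕ}
    (hC : ∀ u < bd n, ∀ a < 2 ^ m, C.testBit (2 ^ m * u + a) = true →
      I.testBit (Lb n u + 2 ^ n * a) = true ∧
      ∀ c < bd n, u.testBit (n + c) = true → ∃ a' < 2 ^ m, Sb a a' ∧
        C.testBit (2 ^ m * c + a') = true) :
    ∀ (N : ℕ) (i : Fin E.L.K) (b : ℕ), E.e i = N → b < 2 ^ m →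
      C.testBit (2 ^ m * E.e i + b) = true → E.L.Comp (setXY n m I) i (cube m b) := by
  intro N
  induction N using Nat.strong_induction_on with
  | _ N ih =>
    intro i b hN hb hCi
    obtain ⟨h1, h2⟩ := hC (E.e i) (E.lt_bd i) b hb hCi
    have h3 : ∀ c ∈ E.L.ch i, ∃ a' < 2 ^ m, Sb b a' ∧
        C.testBit (2 ^ m * E.e c + a') = true := fun c hc =>
      h2 (E.e c) (E.lt_bd c) ((E.ch i c).1 hc)
    classical
    let φ : Fin E.L.K → Fin m → Bool := fun c =>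
      if hc : c ∈ E.L.ch i then cube m (Classical.choose (h3 c hc)) else cube m b
    have hφ : ∀ c (hc : c ∈ E.L.ch i), φ c = cube m (Classical.choose (h3 c hc)) := fun c hc =>
      dif_pos hc
    refine TSys.Comp.mk i (cube m b) φ ?_ ?_ ?_
    · rw [E.lab i, mem_setXY hb]
      exact h1
    · intro c hc
      rw [hφ c hc, cube_le hb]
      exact (Classical.choose_spec (h3 c hc)).2.1
    · intro c hc
      rw [hφ c hc]
      exact ih (E.e c) (hN ▸ ch_lt ((E.ch i c).1 hc)) c _ rfl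
        (Classical.choose_spec (h3 c hc)).1 (Classical.choose_spec (h3 c hc)).2.2

theorem comp_iff {m I b : ℕ} (hb : b < 2 ^ m) (i : Fin E.L.K) :
    E.L.Comp (setXY n m I) i (cube m b) ↔ CompN n m (bd n) I (E.e i) b := by
  refine ⟨nuComp_mp E hb i, ?_⟩
  rintro ⟨C, -, h1, h2⟩
  exact nuComp_mpr E h2 (E.e i) i b rfl hb h1

end Pool.Agent.Lib.MP_45c83f_lc.Dec.Enum
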