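import Pool.Agent.Lib.MP_45c83f_lc.Defs

set_option autoImplicit false

/-!
# The number of exceptional values is bounded
-/

namespace Pool.Agent.Lib.MP_45c83f_lc.Dec

variable {X Y Z : Type} [PartialOrder X] [PartialOrder Y] [PartialOrder Z] [OrderBot Y]
  [OrderBot Z]

/-- the body of the criterion -/
def Good (L : TSys X) (P : Set (X × Y × Z) → Prop) (S : Finset (Fin L.K)) (q : ℕ)
    (x : Fin q → X) : Prop :=
  (∀ j, ¬ L.LabF S (x j)) ∧
    ∀ (I : Set (X × Y)) (h : Fin L.K → Y), L.Valid S I h →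
    ∀ (y : Fin q → Y) (F : Set (X × Y)), (∀ ρ ∈ F, L.LabF S ρ.1 ∧ ρ ∉ I) →
    ∃ (z : Fin q → Z) (T : Set (X × Y × Z)), P T ∧
      (∀ τ η, (τ, η) ∈ I → ∃ ζ, (τ, η, ζ) ∈ T) ∧
      (∀ τ η, (τ, η) ∈ F → ∃! ζ, (τ, η, ζ) ∈ T) ∧
      (∀ τ η ζ, (τ, η, ζ) ∈ T → L.LabF S τ → (τ, η) ∈ I ∪ F) ∧
      (∀ τ η ζ, ¬ L.LabF S τ → ((τ, η, ζ) ∈ T ↔ ∃ j, x j = τ ∧ y j = η ∧ z j = ζ)) ∧
      L.Win S I h T

theorem crit_iff (L : TSys X) (P : Set (X × Y × Z) → Prop) :
    L.Crit P ↔ ∃ S : Finset (Fin L.K), S.Nonempty ∧ ∃ (q : ℕ) (x : Fin q → X),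
      Good L P S q x := by
  rfl

omit [PartialOrder Z] [OrderBot Z] in
/-- a finite set with at least as many elements as another nonempty one maps onto it -/
private theorem NuQ_onto {m : ℕ} {A : Finset (Fin m)} {B : Finset Z} (hB : B.Nonempty)
    (hc : B.card ≤ A.card) :
    ∃ g : Fin m → Z, (∀ i ∈ A, g i ∈ B) ∧ ∀ ζ ∈ B, ∃ i ∈ A, g i = ζ := by
  classical
  obtain ⟨A', hA', hcard⟩ := Finset.exists_subset_card_eq hc
  obtain ⟨b, hb⟩ := hB
  let e := Finset.equivOfCardEq hcard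
  refine ⟨fun i => if hi : i ∈ A' then (e ⟨i, hi⟩ : Z) else b, ?_, ?_⟩
  · intro i _
    by_cases hi : i ∈ A'
    · simp only [hi, dite_true]
      exact (e ⟨i, hi⟩).2
    · simp only [hi, dite_false]
      exact hb
  · intro ζ hζ
    refine ⟨(e.symm ⟨ζ, hζ⟩ : Fin m), hA' (e.symm ⟨ζ, hζ⟩).2, ?_⟩
    simp only [Finset.coe_mem, dite_true, Subtype.coe_eta, Equiv.apply_symm_apply]

private theorem NuQ_step [Fintype X] [Fintype Y] [Fintype Z] {L : TSys X}
    {P : Set (X × Y × Z) → Prop} {S : Finset (Fin L.K)} {m : ℕ} {x : Fin (m + 1) → X}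
    (h : Good L P S (m + 1) x)
    (hm : Fintype.card X * Fintype.card Y * Fintype.card Z < m + 1) :
    ∃ x' : Fin m → X, Good L P S m x' := by
  classical
  have h1 : (Finset.univ : Finset X).card * (Fintype.card Y * Fintype.card Z) <
      (Finset.univ : Finset (Fin (m + 1))).card := by
    rw [Finset.card_univ, Finset.card_univ, Fintype.card_fin, ← mul_assoc]
    exact hm
  obtain ⟨τ, -, hτ⟩ := Finset.exists_lt_card_fiber_of_mul_lt_card_of_maps_to
    (f := x) (fun j _ => Finset.mem_univ (x j)) h1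
  obtain ⟨j0, hj0⟩ : (Finset.univ.filter fun j => x j = τ).Nonempty :=
    Finset.card_pos.1 (by omega)
  have hxj0 : x j0 = τ := (Finset.mem_filter.1 hj0).2
  refine ⟨fun i => x (j0.succAbove i), fun i => h.1 _, ?_⟩
  intro I hh hV y' F hF
  -- the indices with value `τ`
  set A0 : Finset (Fin m) := Finset.univ.filter fun i => x (j0.succAbove i) = τ with hA0
  have hA0c : Fintype.card Y * Fintype.card Z ≤ A0.card := by
    have h2 : (Finset.univ.filter fun j => x j = τ) ⊆
        insert j0 (A0.image j0.succAbove) := by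
      intro j hj
      rw [Finset.mem_filter] at hj
      rcases Fin.eq_self_or_eq_succAbove j0 j with h3 | ⟨i, h3⟩
      · rw [h3]
        exact Finset.mem_insert_self _ _
      · refine Finset.mem_insert_of_mem (Finset.mem_image.2 ⟨i, ?_, h3.symm⟩)
        rw [hA0, Finset.mem_filter]
        exact ⟨Finset.mem_univ _, by rw [← h3]; exact hj.2⟩
    have h3 := Finset.card_le_card h2
    have h4 := Finset.card_insert_le j0 (A0.image j0.succAbove)
    have h5 : (A0.image j0.succAbove).card ≤ A0.card := Finset.card_image_le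
    omega
  obtain ⟨η, -, hη⟩ := Finset.exists_le_card_fiber_of_mul_le_card_of_maps_to
    (s := A0) (t := (Finset.univ : Finset Y)) (f := y') (n := Fintype.card Z)
    (fun i _ => Finset.mem_univ (y' i)) ⟨⊥, Finset.mem_univ _⟩ (by
      rw [Finset.card_univ]
      exact hA0c)
  set A : Finset (Fin m) := A0.filter fun i => y' i = η with hA
  have hAmem : ∀ i, i ∈ A ↔ x (j0.succAbove i) = τ ∧ y' i = η := by
    intro i
    rw [hA, Finset.mem_filter, hA0, Finset.mem_filter]
    simp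
  obtain ⟨z, T, hP, t1, t2, t3, t4, t5⟩ :=
    h.2 I hh hV (Fin.insertNth (α := fun _ => Y) j0 η y') F hF
  have hy0 : Fin.insertNth (α := fun _ => Y) j0 η y' j0 = η := Fin.insertNth_apply_same _ _ _
  have hy1 : ∀ i, Fin.insertNth (α := fun _ => Y) j0 η y' (j0.succAbove i) = y' i := fun i =>
    Fin.insertNth_apply_succAbove _ _ _ _
  have hτS : ¬ L.LabF S τ := by
    rw [← hxj0]
    exact h.1 j0
  set B : Finset Z := Finset.univ.filter fun ζ => (τ, η, ζ) ∈ T with hB
  have hBn : B.Nonempty := by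
    refine ⟨z j0, ?_⟩
    rw [hB, Finset.mem_filter]
    exact ⟨Finset.mem_univ _, (t4 τ η (z j0) hτS).2 ⟨j0, hxj0, hy0, rfl⟩⟩
  have hBc : B.card ≤ A.card := le_trans (Finset.card_le_univ B) hη
  obtain ⟨g, hg1, hg2⟩ := NuQ_onto hBn hBc
  refine ⟨fun i => if i ∈ A then g i else z (j0.succAbove i), T, hP, t1, t2, t3, ?_, t5⟩
  intro τ' η' ζ hτ'
  by_cases hc : τ' = τ ∧ η' = η
  · obtain ⟨rfl, rfl⟩ := hc
    constructor
    · intro hT
      obtain ⟨i, hi, hgi⟩ := hg2 ζ (by
        rw [hB, Finset.mem_filter]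
        exact ⟨Finset.mem_univ _, hT⟩)
      have hi' := (hAmem i).1 hi
      refine ⟨i, hi'.1, hi'.2, ?_⟩
      beta_reduce
      rw [if_pos hi]
      exact hgi
    · rintro ⟨i, hi1, hi2, hi3⟩
      have hi : i ∈ A := (hAmem i).2 ⟨hi1, hi2⟩
      beta_reduce at hi3
      rw [if_pos hi] at hi3
      have h6 := hg1 i hi
      rw [hi3, hB, Finset.mem_filter] at h6
      exact h6.2
  · rw [t4 τ' η' ζ hτ']
    constructor
    · rintro ⟨j, hj1, hj2, hj3⟩
      rcases Fin.eq_self_or_eq_succAbove j0 j with h3 | ⟨i, h3⟩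
      · exfalso
        apply hc
        rw [h3] at hj1 hj2
        exact ⟨hj1.symm.trans hxj0, hj2.symm.trans hy0⟩
      · rw [h3] at hj1 hj2 hj3
        rw [hy1] at hj2
        refine ⟨i, hj1, hj2, ?_⟩
        beta_reduce
        rw [if_neg]
        · exact hj3
        · intro hi
          have hi' := (hAmem i).1 hi
          exact hc ⟨hj1.symm.trans hi'.1, hj2.symm.trans hi'.2⟩
    · rintro ⟨i, hi1, hi2, hi3⟩
      refine ⟨j0.succAbove i, hi1, by rw [hy1]; exact hi2, ?_⟩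
      beta_reduce at hi3
      rw [if_neg] at hi3
      · exact hi3
      · intro hi
        have hi' := (hAmem i).1 hi
        exact hc ⟨hi1.symm.trans hi'.1, hi2.symm.trans hi'.2⟩

/-- at most `|X| |Y| |Z|` exceptional values are needed -/
theorem Good.bdd [Fintype X] [Fintype Y] [Fintype Z] {L : TSys X} {P : Set (X × Y × Z) → Prop}
    {S : Finset (Fin L.K)} {q : ℕ} {x : Fin q → X} (h : Good L P S q x) :
    ∃ q' ≤ Fintype.card X * Fintype.card Y * Fintype.card Z, ∃ x' : Fin q' → X,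
      Good L P S q' x' := by
  induction q with
  | zero => exact ⟨0, Nat.zero_le _, x, h⟩
  | succ m ih =>
    rcases Nat.lt_or_ge (Fintype.card X * Fintype.card Y * Fintype.card Z) (m + 1) with hm | hm
    · obtain ⟨x', hx'⟩ := NuQ_step h hm
      exact ih hx'
    · exact ⟨m + 1, hm, x, h⟩

end Pool.Agent.Lib.MP_45c83f_lc.Dec
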