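import Pool.Agent.Lib.MP_45c83f_lc.NuVal
import Pool.Agent.Lib.MP_45c83f_lc.NuQ

set_option autoImplicit false

/-!
# The numeric criterion is the criterion
-/

namespace Pool.Agent.Lib.MP_45c83f_lc.Dec.Enum

variable {n : ℕ} (E : Enum n)

/-- the exceptional values with code `x` -/
def seq (n q x : ℕ) : Fin q → Fin n → Bool := fun j => cube n (dg n x j)

theorem exists_seq {q Q : ℕ} (hq : q ≤ Q) (x : Fin q → Fin n → Bool) :
    ∃ w < 2 ^ (n * Q), seq n q w = x := by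
  classical
  obtain ⟨w, hw, h⟩ := exists_fun_code n q
    (fun j => if hj : j < q then cd (x ⟨j, hj⟩) else 0) (by
      intro j hj
      simp only [hj, dite_true]
      exact cd_lt _)
  refine ⟨w, lt_of_lt_of_le hw
    (Nat.pow_le_pow_right (by norm_num) (Nat.mul_le_mul_left _ hq)), ?_⟩
  funext j
  show cube n (dg n w j) = x j
  rw [h j j.2]
  simp only [j.2, dite_true, Fin.eta, cube_cd]

private theorem nuCrit_XY {m I a b : ℕ} (ha : a < 2 ^ n) (hb : b < 2 ^ m) :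
    (cube n a, cube m b) ∈ setXY n m I ↔ I.testBit (a + 2 ^ n * b) = true := by
  have h := mem_setXY (n := n) (I := I) (a := a) hb
  have e : Lb n a = a := Nat.mod_eq_of_lt ha
  rw [e] at h
  exact h

private theorem nuCrit_XYZ {m k T a b c : ℕ} (ha : a < 2 ^ n) (hb : b < 2 ^ m)
    (hc : c < 2 ^ k) : (cube n a, cube m b, cube k c) ∈ setXYZ n m k T ↔
      T.testBit (a + 2 ^ n * b + 2 ^ (n + m) * c) = true := by
  have h := mem_setXYZ (n := n) (T := T) (a := a) hb hc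
  have e : Lb n a = a := Nat.mod_eq_of_lt ha
  rw [e] at h
  exact h

private theorem nuCrit_ex {n' : ℕ} (τ : Fin n' → Bool) : ∃ a < 2 ^ n', cube n' a = τ :=
  ⟨cd τ, cd_lt τ, cube_cd τ⟩

private theorem nuCrit_c1 {m k I T : ℕ} :
    (∀ τ η, (τ, η) ∈ setXY n m I → ∃ ζ, (τ, η, ζ) ∈ setXYZ n m k T) ↔
    ∀ a < 2 ^ n, ∀ b < 2 ^ m, I.testBit (a + 2 ^ n * b) = true → ∃ c < 2 ^ k,
      T.testBit (a + 2 ^ n * b + 2 ^ (n + m) * c) = true := by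
  constructor
  · intro h a ha b hb hI
    obtain ⟨ζ, hζ⟩ := h (cube n a) (cube m b) ((nuCrit_XY ha hb).2 hI)
    obtain ⟨c, hc, rfl⟩ := nuCrit_ex ζ
    exact ⟨c, hc, (nuCrit_XYZ ha hb hc).1 hζ⟩
  · intro h τ η hI
    obtain ⟨a, ha, rfl⟩ := nuCrit_ex τ
    obtain ⟨b, hb, rfl⟩ := nuCrit_ex η
    obtain ⟨c, hc, hT⟩ := h a ha b hb ((nuCrit_XY ha hb).1 hI)
    exact ⟨cube k c, (nuCrit_XYZ ha hb hc).2 hT⟩

private theorem nuCrit_c2 {m k F T : ℕ} :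
    (∀ τ η, (τ, η) ∈ setXY n m F → ∃! ζ, (τ, η, ζ) ∈ setXYZ n m k T) ↔
    ∀ a < 2 ^ n, ∀ b < 2 ^ m, F.testBit (a + 2 ^ n * b) = true → ∃ c < 2 ^ k,
      T.testBit (a + 2 ^ n * b + 2 ^ (n + m) * c) = true ∧
        ∀ c' < 2 ^ k, T.testBit (a + 2 ^ n * b + 2 ^ (n + m) * c') = true → c' = c := by
  constructor
  · intro h a ha b hb hF
    obtain ⟨ζ, hζ, hu⟩ := h (cube n a) (cube m b) ((nuCrit_XY ha hb).2 hF)
    obtain ⟨c, hc, rfl⟩ := nuCrit_ex ζ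
    refine ⟨c, hc, (nuCrit_XYZ ha hb hc).1 hζ, ?_⟩
    intro c' hc' hT'
    exact (cube_inj hc' hc).1 (hu (cube k c') ((nuCrit_XYZ ha hb hc').2 hT'))
  · intro h τ η hF
    obtain ⟨a, ha, rfl⟩ := nuCrit_ex τ
    obtain ⟨b, hb, rfl⟩ := nuCrit_ex η
    obtain ⟨c, hc, hT, hu⟩ := h a ha b hb ((nuCrit_XY ha hb).1 hF)
    refine ⟨cube k c, (nuCrit_XYZ ha hb hc).2 hT, ?_⟩
    intro ζ hζ
    obtain ⟨c', hc', rfl⟩ := nuCrit_ex ζ
    rw [hu c' hc' ((nuCrit_XYZ ha hb hc').1 hζ)]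

private theorem nuCrit_c3 {m k S I F T : ℕ} (hS : ∀ v < bd n, S.testBit v = true → Ty n v) :
    (∀ τ η ζ, (τ, η, ζ) ∈ setXYZ n m k T → E.L.LabF (E.forest S) τ →
      (τ, η) ∈ setXY n m I ∪ setXY n m F) ↔
    ∀ a < 2 ^ n, ∀ b < 2 ^ m, ∀ c < 2 ^ k,
      T.testBit (a + 2 ^ n * b + 2 ^ (n + m) * c) = true → LabN n (bd n) S a →
        (I.testBit (a + 2 ^ n * b) = true ∨ F.testBit (a + 2 ^ n * b) = true) := by
  constructor
  · intro h a ha b hb c hc hT hL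
    rcases h (cube n a) (cube m b) (cube k c) ((nuCrit_XYZ ha hb hc).2 hT)
      ((E.labF_iff hS ha).2 hL) with h1 | h1
    · exact Or.inl ((nuCrit_XY ha hb).1 h1)
    · exact Or.inr ((nuCrit_XY ha hb).1 h1)
  · intro h τ η ζ hT hL
    obtain ⟨a, ha, rfl⟩ := nuCrit_ex τ
    obtain ⟨b, hb, rfl⟩ := nuCrit_ex η
    obtain ⟨c, hc, rfl⟩ := nuCrit_ex ζ
    rcases h a ha b hb c hc ((nuCrit_XYZ ha hb hc).1 hT) ((E.labF_iff hS ha).1 hL) with h1 | h1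
    · exact Or.inl ((nuCrit_XY ha hb).2 h1)
    · exact Or.inr ((nuCrit_XY ha hb).2 h1)

private theorem nuCrit_seq {m k q x y z a b c : ℕ} (ha : a < 2 ^ n) (hb : b < 2 ^ m)
    (hc : c < 2 ^ k) :
    (∃ j, seq n q x j = cube n a ∧ seq m q y j = cube m b ∧ seq k q z j = cube k c) ↔
    ∃ j < q, dg n x j = a ∧ dg m y j = b ∧ dg k z j = c := by
  constructor
  · rintro ⟨j, h1, h2, h3⟩
    exact ⟨j.1, j.2, (cube_inj (dg_lt _ _ _) ha).1 h1, (cube_inj (dg_lt _ _ _) hb).1 h2,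
      (cube_inj (dg_lt _ _ _) hc).1 h3⟩
  · rintro ⟨j, hj, h1, h2, h3⟩
    refine ⟨⟨j, hj⟩, ?_, ?_, ?_⟩
    · show cube n (dg n x j) = cube n a
      rw [h1]
    · show cube m (dg m y j) = cube m b
      rw [h2]
    · show cube k (dg k z j) = cube k c
      rw [h3]

private theorem nuCrit_c4 {m k S q x y z T : ℕ}
    (hS : ∀ v < bd n, S.testBit v = true → Ty n v) :
    (∀ τ η ζ, ¬ E.L.LabF (E.forest S) τ → ((τ, η, ζ) ∈ setXYZ n m k T ↔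
      ∃ j, seq n q x j = τ ∧ seq m q y j = η ∧ seq k q z j = ζ)) ↔
    ∀ a < 2 ^ n, ∀ b < 2 ^ m, ∀ c < 2 ^ k, ¬ LabN n (bd n) S a →
      (T.testBit (a + 2 ^ n * b + 2 ^ (n + m) * c) = true ↔
        ∃ j < q, dg n x j = a ∧ dg m y j = b ∧ dg k z j = c) := by
  constructor
  · intro h a ha b hb c hc hL
    have h1 := h (cube n a) (cube m b) (cube k c) (fun hl => hL ((E.labF_iff hS ha).1 hl))
    rw [nuCrit_XYZ ha hb hc, nuCrit_seq ha hb hc] at h1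
    exact h1
  · intro h τ η ζ hL
    obtain ⟨a, ha, rfl⟩ := nuCrit_ex τ
    obtain ⟨b, hb, rfl⟩ := nuCrit_ex η
    obtain ⟨c, hc, rfl⟩ := nuCrit_ex ζ
    rw [nuCrit_XYZ ha hb hc, nuCrit_seq ha hb hc]
    exact h a ha b hb c hc (fun hl => hL ((E.labF_iff hS ha).2 hl))

private theorem nuCrit_hF {m S I F : ℕ} (hS : ∀ v < bd n, S.testBit v = true → Ty n v) :
    (∀ ρ ∈ setXY n m F, E.L.LabF (E.forest S) ρ.1 ∧ ρ ∉ setXY n m I) ↔
    ∀ a < 2 ^ n, ∀ b < 2 ^ m, F.testBit (a + 2 ^ n * b) = true →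
      LabN n (bd n) S a ∧ ¬ I.testBit (a + 2 ^ n * b) = true := by
  constructor
  · intro h a ha b hb hF
    obtain ⟨h1, h2⟩ := h (cube n a, cube m b) ((nuCrit_XY ha hb).2 hF)
    exact ⟨(E.labF_iff hS ha).1 h1, fun h3 => h2 ((nuCrit_XY ha hb).2 h3)⟩
  · rintro h ⟨τ, η⟩ hF
    obtain ⟨a, ha, rfl⟩ := nuCrit_ex τ
    obtain ⟨b, hb, rfl⟩ := nuCrit_ex η
    obtain ⟨h1, h2⟩ := h a ha b hb ((nuCrit_XY ha hb).1 hF)
    exact ⟨(E.labF_iff hS ha).2 h1, fun h3 => h2 ((nuCrit_XY ha hb).1 h3)⟩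

theorem good_iff {m k d S q x Q : ℕ} (hS : ∀ v < bd n, S.testBit v = true → Ty n v)
    (hq : q ≤ Q)
    {P : Set ((Fin n → Bool) × (Fin m → Bool) × (Fin k → Bool)) → Prop}
    (hP : ∀ T, P (setXYZ n m k T) ↔ SatN (n + m + k) T d) :
    Good E.L P (E.forest S) q (seq n q x) ↔
      (∀ j < q, ¬ LabN n (bd n) S (dg n x j)) ∧ GoodN n m k d (bd n) Q S q x := by
  constructor
  · rintro ⟨h0, h⟩
    refine ⟨fun j hj hL => h0 ⟨j, hj⟩ ((E.labF_iff hS (dg_lt _ _ _)).2 hL), ?_⟩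
    intro I _ hh _ hV y _ F _ hF
    obtain ⟨z', T', h1, h2, h3, h4, h5, h6⟩ := h (setXY n m I) (E.funY m hh)
      ((E.valid_iff hS).2 hV) (seq m q y) (setXY n m F) ((E.nuCrit_hF hS).2 hF)
    obtain ⟨z, hz, rfl⟩ := exists_seq hq z'
    obtain ⟨T, hT, rfl⟩ := exists_setXYZ T'
    exact ⟨z, hz, T, hT, (hP T).1 h1, nuCrit_c1.1 h2, nuCrit_c2.1 h3, (E.nuCrit_c3 hS).1 h4,
      (E.nuCrit_c4 hS).1 h5, (E.win_iff hS).1 h6⟩
  · rintro ⟨h0, h⟩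
    refine ⟨fun j hL => h0 j.1 j.2 ((E.labF_iff hS (dg_lt _ _ _)).1 hL), ?_⟩
    intro I' h' hV y' F' hF
    obtain ⟨I, hI, rfl⟩ := exists_setXY I'
    obtain ⟨hh, hhb, rfl⟩ := E.exists_funY h'
    obtain ⟨y, hy, rfl⟩ := exists_seq hq y'
    obtain ⟨F, hFb, rfl⟩ := exists_setXY F'
    obtain ⟨z, _, T, _, h1, h2, h3, h4, h5, h6⟩ := h I hI hh hhb ((E.valid_iff hS).1 hV) y hy
      F hFb ((E.nuCrit_hF hS).1 hF)
    exact ⟨seq k q z, setXYZ n m k T, (hP T).2 h1, nuCrit_c1.2 h2, nuCrit_c2.2 h3,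
      (E.nuCrit_c3 hS).2 h4, (E.nuCrit_c4 hS).2 h5, (E.win_iff hS).2 h6⟩

private theorem nuCrit_bit {S B : ℕ} (hB : S < 2 ^ B) (h0 : S ≠ 0) :
    ∃ v < B, S.testBit v = true := by
  obtain ⟨v, hv⟩ := Nat.exists_testBit_of_ne_zero h0
  refine ⟨v, ?_, hv⟩
  have h1 : 2 ^ v ≤ S := Nat.ge_two_pow_of_testBit hv
  exact (Nat.pow_lt_pow_iff_right (by norm_num : 1 < 2)).1 (lt_of_le_of_lt h1 hB)

theorem critN_iff {m k d : ℕ}
    {P : Set ((Fin n → Bool) × (Fin m → Bool) × (Fin k → Bool)) → Prop}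
    (hP : ∀ T, P (setXYZ n m k T) ↔ SatN (n + m + k) T d) :
    E.L.Crit P ↔ CritN n m k d (bd n) (2 ^ (n + m + k)) := by
  have hcard : Fintype.card (Fin n → Bool) * Fintype.card (Fin m → Bool) *
      Fintype.card (Fin k → Bool) = 2 ^ (n + m + k) := by
    simp [Nat.pow_add]
  rw [crit_iff]
  constructor
  · rintro ⟨S', hne, q0, x0, hG0⟩
    obtain ⟨q, hq, x', hG⟩ := hG0.bdd
    rw [hcard] at hq
    obtain ⟨S, hSb, hS, rfl⟩ := E.exists_forest S'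
    obtain ⟨x, hx, rfl⟩ := exists_seq hq x'
    obtain ⟨h1, h2⟩ := (E.good_iff hS hq hP).1 hG
    refine ⟨S, hSb, ?_, hS, q, Nat.lt_succ_of_le hq, x, hx, h1, h2⟩
    rintro rfl
    obtain ⟨i, hi⟩ := hne
    rw [E.mem_forest] at hi
    simp at hi
  · rintro ⟨S, hSb, hS0, hS, q, hq, x, _, h1, h2⟩
    refine ⟨E.forest S, ?_, q, seq n q x,
      (E.good_iff hS (Nat.lt_succ_iff.1 hq) hP).2 ⟨h1, h2⟩⟩
    obtain ⟨v, hv, hvS⟩ := nuCrit_bit hSb hS0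
    obtain ⟨i, rfl⟩ := E.surj v (hS v hv hvS)
    exact ⟨i, E.mem_forest.2 hvS⟩

end Pool.Agent.Lib.MP_45c83f_lc.Dec.Enum
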