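import Pool.Agent.Lib.MP_45c83f_lc.NuComp

set_option autoImplicit false

/-!
# The winning positions
-/

namespace Pool.Agent.Lib.MP_45c83f_lc.Dec.Enum

variable {n : ℕ} (E : Enum n)

/-- the code of a triple is bounded -/
private theorem ew_code_lt {m k B u a d : ℕ} (hu : u < B) (ha : a < 2 ^ m) (hd : d < 2 ^ k) :
    2 ^ k * (2 ^ m * u + a) + d < 2 ^ k * (2 ^ m * B) :=
  pair_lt hd (pair_lt ha hu)

/-- the code of a triple determines the triple -/
private theorem ew_code_inj {m k u a d u' a' d' : ℕ} (ha : a < 2 ^ m) (hd : d < 2 ^ k)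
    (ha' : a' < 2 ^ m) (hd' : d' < 2 ^ k)
    (h : 2 ^ k * (2 ^ m * u + a) + d = 2 ^ k * (2 ^ m * u' + a') + d') :
    u = u' ∧ a = a' ∧ d = d' := by
  obtain ⟨h1, h2⟩ := pair_inj hd hd' h
  obtain ⟨h3, h4⟩ := pair_inj ha ha' h1
  exact ⟨h3, h4, h2⟩

private theorem ew_to {m k I T b c : ℕ} (hb : b < 2 ^ m) (hc : c < 2 ^ k) (i : Fin E.L.K)
    (h : E.L.EW (setXY n m I) (setXYZ n m k T) i (cube m b) (cube k c)) :
    EWN n m k (bd n) I T (E.e i) b c := by
  obtain ⟨W, hW, hWA⟩ := exists_set_code (2 ^ k * (2 ^ m * bd n))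
    {x | ∃ (j : Fin E.L.K) (a d : ℕ), a < 2 ^ m ∧ d < 2 ^ k ∧
      x = 2 ^ k * (2 ^ m * E.e j + a) + d ∧
      E.L.EW (setXY n m I) (setXYZ n m k T) j (cube m a) (cube k d)}
  have key : ∀ (j : Fin E.L.K) (a d : ℕ), a < 2 ^ m → d < 2 ^ k →
      E.L.EW (setXY n m I) (setXYZ n m k T) j (cube m a) (cube k d) →
      W.testBit (2 ^ k * (2 ^ m * E.e j + a) + d) = true := by
    intro j a d ha hd hj
    rw [hWA]
    exact ⟨ew_code_lt (E.lt_bd j) ha hd, j, a, d, ha, hd, rfl, hj⟩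
  refine ⟨W, hW, key i b c hb hc h, ?_⟩
  intro u _ a ha d hd hbit
  rw [hWA] at hbit
  obtain ⟨_, j, a1, d1, ha1, hd1, hx, hj⟩ := hbit
  obtain ⟨rfl, rfl, rfl⟩ := ew_code_inj ha hd ha1 hd1 hx
  cases hj with
  | mk _ _ _ ζ' hle hT hch hη =>
    have hζ : cube k (cd ζ') = ζ' := cube_cd ζ'
    refine ⟨cd ζ', cd_lt ζ', ?_, ?_, ?_⟩
    · rw [← cube_le hd, hζ]
      exact hle
    · intro hcomp
      have hco : E.L.Comp (setXY n m I) j (cube m a) := (E.comp_iff ha j).2 hcomp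
      refine ⟨?_, ?_⟩
      · have h1 := hT hco
        rw [E.lab, ← hζ] at h1
        exact (mem_setXYZ ha (cd_lt ζ')).1 h1
      · intro w _ hw
        obtain ⟨j', hj', rfl⟩ := E.exists_ch hw
        refine key j' a (cd ζ') ha (cd_lt ζ') ?_
        rw [hζ]
        exact hch hco j' hj'
    · intro a' ha' hs hne
      refine key j a' (cd ζ') ha' (cd_lt ζ') ?_
      rw [hζ]
      exact hη _ ((cube_lt ha ha').2 ⟨hs, hne⟩)

private theorem ew_from {m k I T W : ℕ}
    (hW : ∀ u < bd n, ∀ a < 2 ^ m, ∀ d < 2 ^ k,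
      W.testBit (2 ^ k * (2 ^ m * u + a) + d) = true →
      ∃ d' < 2 ^ k, Sb d d' ∧
        (CompN n m (bd n) I u a →
          T.testBit (Lb n u + 2 ^ n * a + 2 ^ (n + m) * d') = true ∧
          ∀ w < bd n, u.testBit (n + w) = true →
            W.testBit (2 ^ k * (2 ^ m * w + a) + d') = true) ∧
        ∀ a' < 2 ^ m, Sb a a' → a ≠ a' →
          W.testBit (2 ^ k * (2 ^ m * u + a') + d') = true) :
    ∀ (v : ℕ) (i : Fin E.L.K), E.e i = v → ∀ (r b : ℕ), b < 2 ^ m → 2 ^ m - b = r →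
      ∀ c < 2 ^ k, W.testBit (2 ^ k * (2 ^ m * E.e i + b) + c) = true →
        E.L.EW (setXY n m I) (setXYZ n m k T) i (cube m b) (cube k c) := by
  intro v
  induction v using Nat.strong_induction_on with
  | _ v ihv =>
    intro i hi r
    induction r using Nat.strong_induction_on with
    | _ r ihr =>
      intro b hb hr c hc hbit
      obtain ⟨d', hd', hs, hcomp, hup⟩ := hW (E.e i) (E.lt_bd i) b hb c hc hbit
      refine TSys.EW.mk i (cube m b) (cube k c) (cube k d') ((cube_le hc d').2 hs) ?_ ?_ ?_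
      · intro hco
        have h1 := (hcomp ((E.comp_iff hb i).1 hco)).1
        rw [E.lab]
        exact (mem_setXYZ hb hd').2 h1
      · intro hco j hj
        have hb1 := (E.ch i j).1 hj
        have h1 := (hcomp ((E.comp_iff hb i).1 hco)).2 (E.e j) (E.lt_bd j) hb1
        have hlt : E.e j < v := hi ▸ ch_lt hb1
        exact ihv (E.e j) hlt j rfl _ b hb rfl d' hd' h1
      · intro η'' hη
        have hη' : cube m (cd η'') = η'' := cube_cd η''
        rw [← hη'] at hη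
        have h2 := (cube_lt hb (cd_lt η'')).1 hη
        have h3 := hup (cd η'') (cd_lt η'') h2.1 h2.2
        have h4 : b < cd η'' := lt_of_le_of_ne (Sb_le h2.1) h2.2
        have h5 := cd_lt η''
        rw [← hη']
        exact ihr (2 ^ m - cd η'') (by omega) (cd η'') h5 rfl d' hd' h3

theorem ew_iff {m k I T b c : ℕ} (hb : b < 2 ^ m) (hc : c < 2 ^ k) (i : Fin E.L.K) :
    E.L.EW (setXY n m I) (setXYZ n m k T) i (cube m b) (cube k c) ↔
      EWN n m k (bd n) I T (E.e i) b c := by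
  constructor
  · exact E.ew_to hb hc i
  · rintro ⟨W, _, hbit, hW⟩
    exact E.ew_from hW (E.e i) i rfl _ b hb rfl c hc hbit

end Pool.Agent.Lib.MP_45c83f_lc.Dec.Enum
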