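import Pool.Agent.Lib.MP_45c83f_lc.NuSat
import Pool.Agent.Lib.MP_45c83f_lc.Link

set_option autoImplicit false

/-!
# From sentences over the lattice of r.e. sets to r.e. functions with values in cubes
-/

namespace Pool.Agent.Lib.MP_45c83f_lc.Dec

open Classical in
private theorem nuTruth_sat {n m k : ℕ} (f : ℕ → Fin n → Bool) (g : ℕ → Fin m → Bool)
    (h : ℕ → Fin k → Bool) (φ : Fm) :
    φ.Sat (val3 (fun i => {e | f e i = true}) (fun i => {e | g e i = true})
      (fun i => {e | h e i = true})) ↔
    φ.SatS n m k (Set.range fun e => (f e, g e, h e)) := by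
  rw [Fm.sat_iff]
  unfold Fm.SatS
  rw [← Set.range_comp]
  have e1 : (fun (e i : ℕ) => decide (e ∈ val3 (fun i => {e | f e i = true})
      (fun i => {e | g e i = true}) (fun i => {e | h e i = true}) i)) =
      (st3 ∘ fun e => (f e, g e, h e)) := by
    funext e i
    simp only [val3, st3, Function.comp]
    split_ifs <;> simp
  rw [e1]

open Classical in
private theorem nuTruth_set {n : ℕ} (x : Fin n → Set ℕ) :
    (fun i => {e | (fun (e : ℕ) (i : Fin n) => decide (e ∈ x i)) e i = true}) = x := by
  funext i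
  ext e
  simp

theorem holds_iff_truth (S : Sentence) : S.Holds ↔
    Truth (X := Fin S.n → Bool) (Y := Fin S.m → Bool) (Z := Fin S.k → Bool)
      (S.φ.SatS S.n S.m S.k) := by
  classical
  constructor
  · rintro ⟨x, hx, H⟩
    refine ⟨fun e i => decide (e ∈ x i), (re_pi_iff _).2 fun i => ?_, fun g hg => ?_⟩
    · simpa using hx i
    · obtain ⟨z, hz, hs⟩ := H (fun i => {e | g e i = true}) ((re_pi_iff g).1 hg)
      refine ⟨fun e i => decide (e ∈ z i), (re_pi_iff _).2 fun i => ?_, ?_⟩
      · simpa using hz i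
      · rw [← nuTruth_sat, nuTruth_set x, nuTruth_set z]
        exact hs
  · rintro ⟨f, hf, H⟩
    refine ⟨fun i => {e | f e i = true}, (re_pi_iff f).1 hf, fun y hy => ?_⟩
    obtain ⟨h, hh, hs⟩ := H (fun e i => decide (e ∈ y i)) ((re_pi_iff _).2 fun i => by
      simpa using hy i)
    refine ⟨fun i => {e | h e i = true}, (re_pi_iff h).1 hh, ?_⟩
    rw [← nuTruth_sat, nuTruth_set y] at hs
    exact hs

end Pool.Agent.Lib.MP_45c83f_lc.Dec
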