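import Pool.Agent.Lib.MP_45c83f_lc.NuPrim
import Pool.Agent.Lib.MP_45c83f_lc.NuCrit
import Pool.Agent.Lib.MP_45c83f_lc.NuTruth
import Pool.Agent.Lib.MP_45c83f_lc.NuCode

set_option autoImplicit false

/-!
# The decision procedure, from the criterion
-/

namespace Pool.Agent.Lib.MP_45c83f_lc.Dec

/-- if truth is characterised by the criterion, then the set of the Goedel numbers of the true
sentences is computable -/
theorem computable_of_crit
    (hA : ∀ (n m k : ℕ) (L : TSys (Fin n → Bool))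
      (P : Set ((Fin n → Bool) × (Fin m → Bool) × (Fin k → Bool)) → Prop),
      Truth P ↔ L.Crit P) :
    ComputablePred fun c : ℕ => ∃ S : Sentence, S.code = c ∧ S.Holds := by
  have key : ∀ c : ℕ, (∃ S : Sentence, S.code = c ∧ S.Holds) ↔
      DecN c.unpair.1 c.unpair.2.unpair.1 c.unpair.2.unpair.2.unpair.1
        c.unpair.2.unpair.2.unpair.2 := by
    intro c
    have h1 : ∀ S : Sentence, S.Holds ↔
        CritN S.n S.m S.k S.φ.code (bd S.n) (2 ^ (S.n + S.m + S.k)) := by
      intro S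
      obtain ⟨E⟩ := exists_enum S.n
      rw [holds_iff_truth, hA S.n S.m S.k E.L]
      exact E.critN_iff fun T => satS_iff S.n S.m S.k T S.φ
    constructor
    · rintro ⟨S, rfl, hS⟩
      have h2 := (h1 S).1 hS
      unfold Sentence.code DecN
      simp only [Nat.unpair_pair]
      exact ⟨(clF_iff _ _).2 S.closed, h2⟩
    · rintro ⟨h2, h3⟩
      obtain ⟨φ, hφ⟩ := fm_code_surj c.unpair.2.unpair.2.unpair.2
      rw [← hφ] at h2 h3
      refine ⟨⟨c.unpair.1, c.unpair.2.unpair.1, c.unpair.2.unpair.2.unpair.1, φ,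
        (clF_iff _ _).1 h2⟩, ?_, (h1 _).2 h3⟩
      unfold Sentence.code
      simp only [hφ, Nat.pair_unpair]
  have hp : PrimrecPred fun c : ℕ => DecN c.unpair.1 c.unpair.2.unpair.1
      c.unpair.2.unpair.2.unpair.1 c.unpair.2.unpair.2.unpair.2 := by
    have e1 : Primrec fun c : ℕ => c.unpair.1 := t_fst Primrec.id
    have e2 : Primrec fun c : ℕ => c.unpair.2.unpair.1 := t_fst (t_snd Primrec.id)
    have e3 : Primrec fun c : ℕ => c.unpair.2.unpair.2.unpair.1 :=
      t_fst (t_snd (t_snd Primrec.id))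
    have e4 : Primrec fun c : ℕ => c.unpair.2.unpair.2.unpair.2 :=
      t_snd (t_snd (t_snd Primrec.id))
    exact c_DecN e1 e2 e3 e4
  have hq := hp.of_eq fun c => (key c).symm
  obtain ⟨hd, hq⟩ := hq
  exact ⟨hd, hq.to_comp⟩

end Pool.Agent.Lib.MP_45c83f_lc.Dec
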