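import Pool.Agent.Lib.MP_45c83f_lc.Defs

set_option autoImplicit false

/-!
# Types: the embedding order
-/

namespace Pool.Agent.Lib.MP_45c83f_lc

namespace TSys

variable {X : Type} [PartialOrder X] {L : TSys X}

theorem Desc.lab_lt {v w : Fin L.K} (h : L.Desc v w) : L.lab v < L.lab w := by
  unfold Desc at h
  induction h with
  | single h => exact L.lt_ch _ _ h
  | tail _ h ih => exact ih.trans (L.lt_ch _ _ h)

theorem Desc.trans {u v w : Fin L.K} (h : L.Desc u v) (h' : L.Desc v w) : L.Desc u w :=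
  Relation.TransGen.trans h h'

theorem Desc.of_ch {v c : Fin L.K} (h : c ∈ L.ch v) : L.Desc v c :=
  Relation.TransGen.single h

/-- A proper descendant is a node of the forest of the children. -/
theorem desc_iff_node {v w : Fin L.K} : L.Desc v w ↔ L.Node (L.ch v) w := by
  unfold Desc Node
  rw [Relation.TransGen.head'_iff]
  constructor
  · rintro ⟨b, hb, h⟩
    refine ⟨b, hb, ?_⟩
    rcases Relation.reflTransGen_iff_eq_or_transGen.mp h with h | h
    · exact Or.inl h.symm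
    · exact Or.inr h
  · rintro ⟨b, hb, h | h⟩
    · refine ⟨b, hb, ?_⟩
      rw [h]
    · exact ⟨b, hb, h.to_reflTransGen⟩

theorem Node.of_mem {S : Finset (Fin L.K)} {s : Fin L.K} (h : s ∈ S) : L.Node S s :=
  ⟨s, h, Or.inl rfl⟩

theorem Node.desc {S : Finset (Fin L.K)} {v w : Fin L.K} (h : L.Node S v) (h' : L.Desc v w) :
    L.Node S w := by
  obtain ⟨s, hs, h | h⟩ := h
  · exact ⟨s, hs, Or.inr (h ▸ h')⟩
  · exact ⟨s, hs, Or.inr (h.trans h')⟩

theorem Node.mono {S S' : Finset (Fin L.K)} (h : ∀ s ∈ S, L.Node S' s) {v : Fin L.K}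
    (h' : L.Node S v) : L.Node S' v := by
  obtain ⟨s, hs, h1 | h1⟩ := h'
  · exact h1 ▸ h s hs
  · exact (h s hs).desc h1

theorem node_union {S S' : Finset (Fin L.K)} {v : Fin L.K} :
    L.Node (S ∪ S') v ↔ L.Node S v ∨ L.Node S' v := by
  constructor
  · rintro ⟨s, hs, h⟩
    rcases Finset.mem_union.mp hs with hs | hs
    · exact Or.inl ⟨s, hs, h⟩
    · exact Or.inr ⟨s, hs, h⟩
  · rintro (⟨s, hs, h⟩ | ⟨s, hs, h⟩)
    · exact ⟨s, Finset.mem_union_left _ hs, h⟩
    · exact ⟨s, Finset.mem_union_right _ hs, h⟩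

theorem node_singleton {c v : Fin L.K} : L.Node {c} v ↔ c = v ∨ L.Desc c v := by
  constructor
  · rintro ⟨s, hs, h⟩
    rw [Finset.mem_singleton] at hs
    rw [← hs]
    exact h
  · intro h
    exact ⟨c, Finset.mem_singleton_self c, h⟩

theorem emb_iff {v w : Fin L.K} : L.Emb v w ↔ L.lab v = L.lab w ∧
    ∀ c ∈ L.ch v, ∃ d, L.Desc w d ∧ L.Emb c d := by
  constructor
  · intro h
    cases h with
    | mk _ _ φ h1 h2 h3 => exact ⟨h1, fun c hc => ⟨φ c, h2 c hc, h3 c hc⟩⟩
  · rintro ⟨h1, h2⟩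
    classical
    refine Emb.mk v w (fun c => if h : c ∈ L.ch v then (h2 c h).choose else v) h1 ?_ ?_
    · intro c hc
      simp only [dif_pos hc]
      exact (h2 c hc).choose_spec.1
    · intro c hc
      simp only [dif_pos hc]
      exact (h2 c hc).choose_spec.2

private theorem Types_wf (L : TSys X) : WellFounded fun a b : Fin L.K => L.Desc b a := by
  haveI : IsTrans (Fin L.K) (fun a b => L.Desc b a) :=
    ⟨fun a b c h1 h2 => Relation.TransGen.trans h2 h1⟩
  haveI : Std.Irrefl (fun a b : Fin L.K => L.Desc b a) :=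
    ⟨fun a h => lt_irrefl _ (Desc.lab_lt h)⟩
  exact Finite.wellFounded_of_trans_of_irrefl _

theorem Emb.refl (v : Fin L.K) : L.Emb v v := by
  induction v using (Types_wf L).induction with
  | _ v ih =>
    rw [emb_iff]
    exact ⟨rfl, fun c hc => ⟨c, Desc.of_ch hc, ih c (Desc.of_ch hc)⟩⟩

theorem Emb.desc {v w d : Fin L.K} (h : L.Emb v w) (h' : L.Desc v d) :
    ∃ d', L.Desc w d' ∧ L.Emb d d' := by
  unfold Desc at h'
  induction h' with
  | single h1 => exact (emb_iff.mp h).2 _ h1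
  | tail _ h1 ih =>
    obtain ⟨b', hb, he⟩ := ih
    obtain ⟨c', hc, he'⟩ := (emb_iff.mp he).2 _ h1
    exact ⟨c', hb.trans hc, he'⟩

theorem Emb.trans {u v w : Fin L.K} (h : L.Emb u v) (h' : L.Emb v w) : L.Emb u w := by
  induction h generalizing w with
  | mk u v φ h1 h2 _ ih =>
    rw [emb_iff]
    refine ⟨h1.trans (emb_iff.mp h').1, ?_⟩
    intro c hc
    obtain ⟨d', hd, he⟩ := h'.desc (h2 c hc)
    exact ⟨d', hd, ih c hc he⟩

theorem LeF.refl (S : Finset (Fin L.K)) : L.LeF S S :=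
  fun s hs => ⟨s, Node.of_mem hs, Emb.refl s⟩

theorem LeF.of_node {S S' : Finset (Fin L.K)} (h : ∀ s ∈ S, L.Node S' s) : L.LeF S S' :=
  fun s hs => ⟨s, h s hs, Emb.refl s⟩

theorem LeF.node {S S' : Finset (Fin L.K)} (h : L.LeF S S') {v : Fin L.K} (hv : L.Node S v) :
    ∃ w, L.Node S' w ∧ L.Emb v w := by
  obtain ⟨s, hs, h1 | h1⟩ := hv
  · exact h1 ▸ h s hs
  · obtain ⟨w, hw, he⟩ := h s hs
    obtain ⟨d', hd, he'⟩ := he.desc h1
    exact ⟨d', hw.desc hd, he'⟩

theorem LeF.trans {S S' S'' : Finset (Fin L.K)} (h : L.LeF S S') (h' : L.LeF S' S'') :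
    L.LeF S S'' := by
  intro s hs
  obtain ⟨w, hw, he⟩ := h s hs
  obtain ⟨w', hw', he'⟩ := h'.node hw
  exact ⟨w', hw', he.trans he'⟩

theorem LeF.union {S S' S'' : Finset (Fin L.K)} (h : L.LeF S S'') (h' : L.LeF S' S'') :
    L.LeF (S ∪ S') S'' := by
  intro s hs
  rcases Finset.mem_union.mp hs with hs | hs
  · exact h s hs
  · exact h' s hs

/-- A property of forests which holds somewhere holds for a forest which is minimal in the
embedding order. -/
theorem exists_minimal {p : Finset (Fin L.K) → Prop} (h : ∃ S, p S) :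
    ∃ S, p S ∧ ∀ S', L.LtF S' S → ¬ p S' := by
  have hwf : WellFounded (L.LtF) := by
    haveI : IsTrans (Finset (Fin L.K)) L.LtF :=
      ⟨fun a b c h1 h2 => ⟨h1.1.trans h2.1, fun h3 => h2.2 (h3.trans h1.1)⟩⟩
    haveI : Std.Irrefl (L.LtF) := ⟨fun a h => h.2 h.1⟩
    exact Finite.wellFounded_of_trans_of_irrefl _
  obtain ⟨S, hS, hm⟩ := hwf.has_min {S | p S} h
  exact ⟨S, hS, fun S' hlt hp => hm S' hp hlt⟩

/-- Reducedness passes to the forests of the children. -/
theorem HRed.ch {S : Finset (Fin L.K)} (h : L.HRed S) {v : Fin L.K} (hv : L.Node S v) :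
    L.Red (L.ch v) := h.2 v hv

/-- In a reduced forest no root is a proper descendant of a root. -/
theorem Red.not_desc {S : Finset (Fin L.K)} (h : L.Red S) {s s' : Fin L.K} (hs : s ∈ S)
    (hs' : s' ∈ S) : ¬ L.Desc s s' := by
  intro hd
  have hne : s ≠ s' := by
    rintro rfl
    exact lt_irrefl _ hd.lab_lt
  apply h s' hs'
  apply LeF.of_node
  intro t ht
  rw [Finset.mem_singleton] at ht
  rw [ht]
  exact ⟨s, Finset.mem_erase.mpr ⟨hne, hs⟩, Or.inr hd⟩

end TSys

end Pool.Agent.Lib.MP_45c83f_lc
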