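import Pool.Agent.Lib.MP_45c83f_lc.NuTy
import Pool.Agent.Lib.MP_45c83f_lc.Types

set_option autoImplicit false

/-!
# Nodes and labels of forests
-/

namespace Pool.Agent.Lib.MP_45c83f_lc.Dec.Enum

variable {n : ℕ} (E : Enum n)

private theorem nuNode_code (S : ℕ) (hS : ∀ v < bd n, S.testBit v = true → Ty n v) {v : ℕ}
    (h : NodeN n (bd n) S v) : ∃ j, E.L.Node (E.forest S) j ∧ E.e j = v := by
  obtain ⟨N, hN, hNb⟩ := exists_set_code (bd n) {x | ∃ j, E.L.Node (E.forest S) j ∧ E.e j = x}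
  have h1 := h N hN ?_
  · obtain ⟨-, j, hj, he⟩ := (hNb v).1 h1
    exact ⟨j, hj, he⟩
  · intro u hu
    constructor
    · intro h2
      obtain ⟨j, rfl⟩ := E.surj u (hS u hu h2)
      exact (hNb _).2 ⟨hu, j, ⟨j, E.mem_forest.2 h2, Or.inl rfl⟩, rfl⟩
    · intro h2 c hc h3
      obtain ⟨-, j, hj, rfl⟩ := (hNb u).1 h2
      obtain ⟨j', hj', rfl⟩ := E.exists_ch h3
      exact (hNb _).2 ⟨hc, j', TSys.Node.desc hj (TSys.Desc.of_ch hj'), rfl⟩

theorem node_iff {S : ℕ} (hS : ∀ v < bd n, S.testBit v = true → Ty n v) (i : Fin E.L.K) :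
    E.L.Node (E.forest S) i ↔ NodeN n (bd n) S (E.e i) := by
  constructor
  · rintro ⟨s, hs, hsi⟩ N _ hcl
    have h1 : N.testBit (E.e s) = true := (hcl _ (E.lt_bd s)).1 (E.mem_forest.1 hs)
    rcases hsi with rfl | hd
    · exact h1
    · have hd' : Relation.TransGen (fun a b => b ∈ E.L.ch a) s i := hd
      clear hd
      induction hd' with
      | single hb => exact (hcl _ (E.lt_bd s)).2 h1 _ (E.lt_bd _) ((E.ch _ _).1 hb)
      | tail _ hb ih => exact (hcl _ (E.lt_bd _)).2 ih _ (E.lt_bd _) ((E.ch _ _).1 hb)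
  · intro h
    obtain ⟨j, hj, he⟩ := E.nuNode_code S hS h
    rw [← E.inj he]
    exact hj

/-- all nodes of a numeric forest are codes of types -/
theorem ty_of_node {S v : ℕ} (hS : ∀ v < bd n, S.testBit v = true → Ty n v)
    (h : NodeN n (bd n) S v) : Ty n v := by
  obtain ⟨E⟩ := exists_enum n
  obtain ⟨j, -, rfl⟩ := E.nuNode_code S hS h
  exact E.ty j

theorem labF_iff {S : ℕ} (hS : ∀ v < bd n, S.testBit v = true → Ty n v) {a : ℕ}
    (ha : a < 2 ^ n) : E.L.LabF (E.forest S) (cube n a) ↔ LabN n (bd n) S a := by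
  constructor
  · rintro ⟨v, hv, hl⟩
    refine ⟨E.e v, E.lt_bd v, (E.node_iff hS v).1 hv, ?_⟩
    rw [E.lab, ← cube_Lb, cube_inj (Lb_lt n _) ha] at hl
    exact hl
  · rintro ⟨v, -, hv, hl⟩
    obtain ⟨j, hj, rfl⟩ := E.nuNode_code S hS hv
    refine ⟨j, hj, ?_⟩
    rw [E.lab, ← cube_Lb, hl]

theorem leafLab_iff {S : ℕ} (hS : ∀ v < bd n, S.testBit v = true → Ty n v) {a : ℕ}
    (ha : a < 2 ^ n) : E.L.LeafLab (E.forest S) (cube n a) ↔ NodeN n (bd n) S a := by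
  constructor
  · rintro ⟨v, hv, hc, hl⟩
    rw [E.lab, cube_inj ((E.ch_eq_empty_iff v).1 hc) ha] at hl
    rw [← hl]
    exact (E.node_iff hS v).1 hv
  · intro h
    obtain ⟨j, hj, rfl⟩ := E.nuNode_code S hS h
    exact ⟨j, hj, (E.ch_eq_empty_iff j).2 ha, E.lab j⟩

end Pool.Agent.Lib.MP_45c83f_lc.Dec.Enum
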