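import Pool.Agent.Lib.MP_45c83f_lc.NuNum

set_option autoImplicit false

/-!
# The numeric criterion is primitive recursive
-/

namespace Pool.Agent.Lib.MP_45c83f_lc.Dec

variable {α : Type} [Primcodable α]

theorem c_Lb {n v : α → ℕ} (hn : Primrec n) (hv : Primrec v) :
    Primrec fun p => Lb (n p) (v p) :=
  t_mod hv (t_pow (Primrec.const 2) hn)

theorem c_dg {m w j : α → ℕ} (hm : Primrec m) (hw : Primrec w) (hj : Primrec j) :
    Primrec fun p => dg (m p) (w p) (j p) :=
  t_mod (t_div hw (t_pow (Primrec.const 2) (t_mul hm hj))) (t_pow (Primrec.const 2) hm)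

theorem p_Sb : PrimrecPred fun p : ℕ × ℕ => Sb p.1 p.2 := by
  unfold Sb
  (repeat' first
      | with_reducible refine ex_lt ?_ ?_
      | with_reducible refine all_lt ?_ ?_
      | with_reducible refine p_and ?_ ?_
      | with_reducible refine p_or ?_ ?_
      | with_reducible refine p_not ?_
      | with_reducible refine p_iff ?_ ?_
      | with_reducible refine p_imp ?_ ?_
      | with_reducible refine p_bit ?_ ?_
      | with_reducible refine p_lt ?_ ?_
      | with_reducible refine p_le ?_ ?_
      | with_reducible refine p_eq ?_ ?_
      | with_reducible refine p_ne ?_ ?_) <;> (repeat' first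
      | with_reducible exact Primrec.const _
      | with_reducible exact Primrec.id
      | with_reducible exact Primrec.fst
      | with_reducible exact Primrec.snd
      | with_reducible refine Primrec.fst.comp ?_
      | with_reducible refine Primrec.snd.comp ?_
      | with_reducible refine t_add ?_ ?_
      | with_reducible refine t_sub ?_ ?_
      | with_reducible refine t_mul ?_ ?_
      | with_reducible refine t_div ?_ ?_
      | with_reducible refine t_mod ?_ ?_
      | with_reducible refine t_pow ?_ ?_
      | with_reducible refine t_fst ?_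
      | with_reducible refine t_snd ?_
      | with_reducible refine Primrec.unpair.comp ?_
      | with_reducible refine c_Lb ?_ ?_
      | with_reducible refine c_dg ?_ ?_ ?_)

theorem c_Sb {a b : α → ℕ} (ha : Primrec a) (hb : Primrec b) :
    PrimrecPred fun p => Sb (a p) (b p) := p_Sb.comp (ha.pair hb)

theorem p_Ty : PrimrecPred fun p : ℕ × ℕ => Ty p.1 p.2 := by
  unfold Ty
  ((repeat' first
      | with_reducible refine ex_lt ?_ ?_
      | with_reducible refine all_lt ?_ ?_
      | with_reducible refine p_and ?_ ?_
      | with_reducible refine p_or ?_ ?_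
      | with_reducible refine p_not ?_
      | with_reducible refine p_iff ?_ ?_
      | with_reducible refine p_imp ?_ ?_
      | with_reducible refine p_bit ?_ ?_
      | with_reducible refine p_lt ?_ ?_
      | with_reducible refine p_le ?_ ?_
      | with_reducible refine p_eq ?_ ?_
      | with_reducible refine p_ne ?_ ?_) <;> try with_reducible refine c_Sb ?_ ?_) <;> (repeat' first
      | with_reducible exact Primrec.const _
      | with_reducible exact Primrec.id
      | with_reducible exact Primrec.fst
      | with_reducible exact Primrec.snd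
      | with_reducible refine Primrec.fst.comp ?_
      | with_reducible refine Primrec.snd.comp ?_
      | with_reducible refine t_add ?_ ?_
      | with_reducible refine t_sub ?_ ?_
      | with_reducible refine t_mul ?_ ?_
      | with_reducible refine t_div ?_ ?_
      | with_reducible refine t_mod ?_ ?_
      | with_reducible refine t_pow ?_ ?_
      | with_reducible refine t_fst ?_
      | with_reducible refine t_snd ?_
      | with_reducible refine Primrec.unpair.comp ?_
      | with_reducible refine c_Lb ?_ ?_
      | with_reducible refine c_dg ?_ ?_ ?_)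

theorem c_Ty {n v : α → ℕ} (hn : Primrec n) (hv : Primrec v) :
    PrimrecPred fun p => Ty (n p) (v p) := p_Ty.comp (hn.pair hv)

theorem prim_bdr : Primrec₂ bdr := by
  have h : Primrec₂ fun (n r : ℕ) => (Nat.rec 0 (fun _ s => 2 ^ (n + s)) r : ℕ) := by
    have h2 : Primrec₂ fun (n : ℕ) (q : ℕ × ℕ) => 2 ^ (n + q.2) := by
      show Primrec fun p : ℕ × ℕ × ℕ => 2 ^ (p.1 + p.2.2)
      (repeat' first
      | with_reducible exact Primrec.const _
      | with_reducible exact Primrec.id
      | with_reducible exact Primrec.fst
      | with_reducible exact Primrec.snd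
      | with_reducible refine Primrec.fst.comp ?_
      | with_reducible refine Primrec.snd.comp ?_
      | with_reducible refine t_add ?_ ?_
      | with_reducible refine t_sub ?_ ?_
      | with_reducible refine t_mul ?_ ?_
      | with_reducible refine t_div ?_ ?_
      | with_reducible refine t_mod ?_ ?_
      | with_reducible refine t_pow ?_ ?_
      | with_reducible refine t_fst ?_
      | with_reducible refine t_snd ?_
      | with_reducible refine Primrec.unpair.comp ?_
      | with_reducible refine c_Lb ?_ ?_
      | with_reducible refine c_dg ?_ ?_ ?_)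
    exact Primrec.nat_rec (Primrec.const 0) h2
  refine h.of_eq fun n r => ?_
  induction r with
  | zero => rfl
  | succ r ih => rw [bdr, ← ih]

theorem prim_bd : Primrec bd := by
  unfold bd
  exact prim_bdr.comp Primrec.id (t_add Primrec.id (Primrec.const 1))

theorem p_NodeN : PrimrecPred fun p : ℕ × ℕ × ℕ × ℕ => NodeN p.1 p.2.1 p.2.2.1 p.2.2.2 := by
  unfold NodeN
  (repeat' first
      | with_reducible refine ex_lt ?_ ?_
      | with_reducible refine all_lt ?_ ?_
      | with_reducible refine p_and ?_ ?_
      | with_reducible refine p_or ?_ ?_
      | with_reducible refine p_not ?_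
      | with_reducible refine p_iff ?_ ?_
      | with_reducible refine p_imp ?_ ?_
      | with_reducible refine p_bit ?_ ?_
      | with_reducible refine p_lt ?_ ?_
      | with_reducible refine p_le ?_ ?_
      | with_reducible refine p_eq ?_ ?_
      | with_reducible refine p_ne ?_ ?_) <;> (repeat' first
      | with_reducible exact Primrec.const _
      | with_reducible exact Primrec.id
      | with_reducible exact Primrec.fst
      | with_reducible exact Primrec.snd
      | with_reducible refine Primrec.fst.comp ?_
      | with_reducible refine Primrec.snd.comp ?_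
      | with_reducible refine t_add ?_ ?_
      | with_reducible refine t_sub ?_ ?_
      | with_reducible refine t_mul ?_ ?_
      | with_reducible refine t_div ?_ ?_
      | with_reducible refine t_mod ?_ ?_
      | with_reducible refine t_pow ?_ ?_
      | with_reducible refine t_fst ?_
      | with_reducible refine t_snd ?_
      | with_reducible refine Primrec.unpair.comp ?_
      | with_reducible refine c_Lb ?_ ?_
      | with_reducible refine c_dg ?_ ?_ ?_)

theorem c_NodeN {n B S v : α → ℕ} (hn : Primrec n) (hB : Primrec B) (hS : Primrec S)
    (hv : Primrec v) : PrimrecPred fun p => NodeN (n p) (B p) (S p) (v p) :=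
  p_NodeN.comp (hn.pair (hB.pair (hS.pair hv)))

theorem p_LabN : PrimrecPred fun p : ℕ × ℕ × ℕ × ℕ => LabN p.1 p.2.1 p.2.2.1 p.2.2.2 := by
  unfold LabN
  ((repeat' first
      | with_reducible refine ex_lt ?_ ?_
      | with_reducible refine all_lt ?_ ?_
      | with_reducible refine p_and ?_ ?_
      | with_reducible refine p_or ?_ ?_
      | with_reducible refine p_not ?_
      | with_reducible refine p_iff ?_ ?_
      | with_reducible refine p_imp ?_ ?_
      | with_reducible refine p_bit ?_ ?_
      | with_reducible refine p_lt ?_ ?_
      | with_reducible refine p_le ?_ ?_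
      | with_reducible refine p_eq ?_ ?_
      | with_reducible refine p_ne ?_ ?_) <;> try with_reducible refine c_NodeN ?_ ?_ ?_ ?_) <;> (repeat' first
      | with_reducible exact Primrec.const _
      | with_reducible exact Primrec.id
      | with_reducible exact Primrec.fst
      | with_reducible exact Primrec.snd
      | with_reducible refine Primrec.fst.comp ?_
      | with_reducible refine Primrec.snd.comp ?_
      | with_reducible refine t_add ?_ ?_
      | with_reducible refine t_sub ?_ ?_
      | with_reducible refine t_mul ?_ ?_
      | with_reducible refine t_div ?_ ?_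
      | with_reducible refine t_mod ?_ ?_
      | with_reducible refine t_pow ?_ ?_
      | with_reducible refine t_fst ?_
      | with_reducible refine t_snd ?_
      | with_reducible refine Primrec.unpair.comp ?_
      | with_reducible refine c_Lb ?_ ?_
      | with_reducible refine c_dg ?_ ?_ ?_)

theorem c_LabN {n B S v : α → ℕ} (hn : Primrec n) (hB : Primrec B) (hS : Primrec S)
    (hv : Primrec v) : PrimrecPred fun p => LabN (n p) (B p) (S p) (v p) :=
  p_LabN.comp (hn.pair (hB.pair (hS.pair hv)))

theorem p_CompN : PrimrecPred fun p : ℕ × ℕ × ℕ × ℕ × ℕ × ℕ =>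
    CompN p.1 p.2.1 p.2.2.1 p.2.2.2.1 p.2.2.2.2.1 p.2.2.2.2.2 := by
  unfold CompN
  ((repeat' first
      | with_reducible refine ex_lt ?_ ?_
      | with_reducible refine all_lt ?_ ?_
      | with_reducible refine p_and ?_ ?_
      | with_reducible refine p_or ?_ ?_
      | with_reducible refine p_not ?_
      | with_reducible refine p_iff ?_ ?_
      | with_reducible refine p_imp ?_ ?_
      | with_reducible refine p_bit ?_ ?_
      | with_reducible refine p_lt ?_ ?_
      | with_reducible refine p_le ?_ ?_
      | with_reducible refine p_eq ?_ ?_
      | with_reducible refine p_ne ?_ ?_) <;> try with_reducible refine c_Sb ?_ ?_) <;> (repeat' first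
      | with_reducible exact Primrec.const _
      | with_reducible exact Primrec.id
      | with_reducible exact Primrec.fst
      | with_reducible exact Primrec.snd
      | with_reducible refine Primrec.fst.comp ?_
      | with_reducible refine Primrec.snd.comp ?_
      | with_reducible refine t_add ?_ ?_
      | with_reducible refine t_sub ?_ ?_
      | with_reducible refine t_mul ?_ ?_
      | with_reducible refine t_div ?_ ?_
      | with_reducible refine t_mod ?_ ?_
      | with_reducible refine t_pow ?_ ?_
      | with_reducible refine t_fst ?_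
      | with_reducible refine t_snd ?_
      | with_reducible refine Primrec.unpair.comp ?_
      | with_reducible refine c_Lb ?_ ?_
      | with_reducible refine c_dg ?_ ?_ ?_)

theorem c_CompN {n m B I v b : α → ℕ} (hn : Primrec n) (hm : Primrec m) (hB : Primrec B)
    (hI : Primrec I) (hv : Primrec v) (hb : Primrec b) :
    PrimrecPred fun p => CompN (n p) (m p) (B p) (I p) (v p) (b p) :=
  p_CompN.comp (hn.pair (hm.pair (hB.pair (hI.pair (hv.pair hb)))))

theorem p_EWN : PrimrecPred fun p : ℕ × ℕ × ℕ × ℕ × ℕ × ℕ × ℕ × ℕ × ℕ =>
    EWN p.1 p.2.1 p.2.2.1 p.2.2.2.1 p.2.2.2.2.1 p.2.2.2.2.2.1 p.2.2.2.2.2.2.1 p.2.2.2.2.2.2.2.1 p.2.2.2.2.2.2.2.2 := by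
  unfold EWN
  ((repeat' first
      | with_reducible refine ex_lt ?_ ?_
      | with_reducible refine all_lt ?_ ?_
      | with_reducible refine p_and ?_ ?_
      | with_reducible refine p_or ?_ ?_
      | with_reducible refine p_not ?_
      | with_reducible refine p_iff ?_ ?_
      | with_reducible refine p_imp ?_ ?_
      | with_reducible refine p_bit ?_ ?_
      | with_reducible refine p_lt ?_ ?_
      | with_reducible refine p_le ?_ ?_
      | with_reducible refine p_eq ?_ ?_
      | with_reducible refine p_ne ?_ ?_) <;> try first | with_reducible refine c_Sb ?_ ?_ | with_reducible refine c_CompN ?_ ?_ ?_ ?_ ?_ ?_) <;> (repeat' first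
      | with_reducible exact Primrec.const _
      | with_reducible exact Primrec.id
      | with_reducible exact Primrec.fst
      | with_reducible exact Primrec.snd
      | with_reducible refine Primrec.fst.comp ?_
      | with_reducible refine Primrec.snd.comp ?_
      | with_reducible refine t_add ?_ ?_
      | with_reducible refine t_sub ?_ ?_
      | with_reducible refine t_mul ?_ ?_
      | with_reducible refine t_div ?_ ?_
      | with_reducible refine t_mod ?_ ?_
      | with_reducible refine t_pow ?_ ?_
      | with_reducible refine t_fst ?_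
      | with_reducible refine t_snd ?_
      | with_reducible refine Primrec.unpair.comp ?_
      | with_reducible refine c_Lb ?_ ?_
      | with_reducible refine c_dg ?_ ?_ ?_)

theorem c_EWN {n m k B I T v b c : α → ℕ} (hn : Primrec n) (hm : Primrec m) (hk : Primrec k) (hB : Primrec B) (hI : Primrec I) (hT : Primrec T) (hv : Primrec v) (hb : Primrec b) (hc : Primrec c) :
    PrimrecPred fun p => EWN (n p) (m p) (k p) (B p) (I p) (T p) (v p) (b p) (c p) :=
  p_EWN.comp (hn.pair (hm.pair (hk.pair (hB.pair (hI.pair (hT.pair (hv.pair (hb.pair hc))))))))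

theorem p_RchN : PrimrecPred fun p : ℕ × ℕ × ℕ × ℕ × ℕ × ℕ × ℕ × ℕ =>
    RchN p.1 p.2.1 p.2.2.1 p.2.2.2.1 p.2.2.2.2.1 p.2.2.2.2.2.1 p.2.2.2.2.2.2.1 p.2.2.2.2.2.2.2 := by
  unfold RchN
  ((repeat' first
      | with_reducible refine ex_lt ?_ ?_
      | with_reducible refine all_lt ?_ ?_
      | with_reducible refine p_and ?_ ?_
      | with_reducible refine p_or ?_ ?_
      | with_reducible refine p_not ?_
      | with_reducible refine p_iff ?_ ?_
      | with_reducible refine p_imp ?_ ?_
      | with_reducible refine p_bit ?_ ?_
      | with_reducible refine p_lt ?_ ?_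
      | with_reducible refine p_le ?_ ?_
      | with_reducible refine p_eq ?_ ?_
      | with_reducible refine p_ne ?_ ?_) <;> try first | with_reducible refine c_Sb ?_ ?_ | with_reducible refine c_CompN ?_ ?_ ?_ ?_ ?_ ?_) <;> (repeat' first
      | with_reducible exact Primrec.const _
      | with_reducible exact Primrec.id
      | with_reducible exact Primrec.fst
      | with_reducible exact Primrec.snd
      | with_reducible refine Primrec.fst.comp ?_
      | with_reducible refine Primrec.snd.comp ?_
      | with_reducible refine t_add ?_ ?_
      | with_reducible refine t_sub ?_ ?_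
      | with_reducible refine t_mul ?_ ?_
      | with_reducible refine t_div ?_ ?_
      | with_reducible refine t_mod ?_ ?_
      | with_reducible refine t_pow ?_ ?_
      | with_reducible refine t_fst ?_
      | with_reducible refine t_snd ?_
      | with_reducible refine Primrec.unpair.comp ?_
      | with_reducible refine c_Lb ?_ ?_
      | with_reducible refine c_dg ?_ ?_ ?_)

theorem c_RchN {n m B I s b v a : α → ℕ} (hn : Primrec n) (hm : Primrec m) (hB : Primrec B) (hI : Primrec I) (hs : Primrec s) (hb : Primrec b) (hv : Primrec v) (ha : Primrec a) :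
    PrimrecPred fun p => RchN (n p) (m p) (B p) (I p) (s p) (b p) (v p) (a p) :=
  p_RchN.comp (hn.pair (hm.pair (hB.pair (hI.pair (hs.pair (hb.pair (hv.pair ha)))))))

theorem p_ValidN : PrimrecPred fun p : ℕ × ℕ × ℕ × ℕ × ℕ × ℕ =>
    ValidN p.1 p.2.1 p.2.2.1 p.2.2.2.1 p.2.2.2.2.1 p.2.2.2.2.2 := by
  unfold ValidN
  ((repeat' first
      | with_reducible refine ex_lt ?_ ?_
      | with_reducible refine all_lt ?_ ?_
      | with_reducible refine p_and ?_ ?_
      | with_reducible refine p_or ?_ ?_
      | with_reducible refine p_not ?_
      | with_reducible refine p_iff ?_ ?_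
      | with_reducible refine p_imp ?_ ?_
      | with_reducible refine p_bit ?_ ?_
      | with_reducible refine p_lt ?_ ?_
      | with_reducible refine p_le ?_ ?_
      | with_reducible refine p_eq ?_ ?_
      | with_reducible refine p_ne ?_ ?_) <;> try first | with_reducible refine c_CompN ?_ ?_ ?_ ?_ ?_ ?_ | with_reducible refine c_NodeN ?_ ?_ ?_ ?_ | with_reducible refine c_RchN ?_ ?_ ?_ ?_ ?_ ?_ ?_ ?_) <;> (repeat' first
      | with_reducible exact Primrec.const _
      | with_reducible exact Primrec.id
      | with_reducible exact Primrec.fst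
      | with_reducible exact Primrec.snd
      | with_reducible refine Primrec.fst.comp ?_
      | with_reducible refine Primrec.snd.comp ?_
      | with_reducible refine t_add ?_ ?_
      | with_reducible refine t_sub ?_ ?_
      | with_reducible refine t_mul ?_ ?_
      | with_reducible refine t_div ?_ ?_
      | with_reducible refine t_mod ?_ ?_
      | with_reducible refine t_pow ?_ ?_
      | with_reducible refine t_fst ?_
      | with_reducible refine t_snd ?_
      | with_reducible refine Primrec.unpair.comp ?_
      | with_reducible refine c_Lb ?_ ?_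
      | with_reducible refine c_dg ?_ ?_ ?_)

theorem c_ValidN {n m B S I h : α → ℕ} (hn : Primrec n) (hm : Primrec m) (hB : Primrec B) (hS : Primrec S) (hI : Primrec I) (hh : Primrec h) :
    PrimrecPred fun p => ValidN (n p) (m p) (B p) (S p) (I p) (h p) :=
  p_ValidN.comp (hn.pair (hm.pair (hB.pair (hS.pair (hI.pair hh)))))

theorem p_WinN : PrimrecPred fun p : ℕ × ℕ × ℕ × ℕ × ℕ × ℕ × ℕ × ℕ =>
    WinN p.1 p.2.1 p.2.2.1 p.2.2.2.1 p.2.2.2.2.1 p.2.2.2.2.2.1 p.2.2.2.2.2.2.1 p.2.2.2.2.2.2.2 := by
  unfold WinN
  ((repeat' first
      | with_reducible refine ex_lt ?_ ?_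
      | with_reducible refine all_lt ?_ ?_
      | with_reducible refine p_and ?_ ?_
      | with_reducible refine p_or ?_ ?_
      | with_reducible refine p_not ?_
      | with_reducible refine p_iff ?_ ?_
      | with_reducible refine p_imp ?_ ?_
      | with_reducible refine p_bit ?_ ?_
      | with_reducible refine p_lt ?_ ?_
      | with_reducible refine p_le ?_ ?_
      | with_reducible refine p_eq ?_ ?_
      | with_reducible refine p_ne ?_ ?_) <;> try first | with_reducible refine c_NodeN ?_ ?_ ?_ ?_ | with_reducible refine c_EWN ?_ ?_ ?_ ?_ ?_ ?_ ?_ ?_ ?_) <;> (repeat' first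
      | with_reducible exact Primrec.const _
      | with_reducible exact Primrec.id
      | with_reducible exact Primrec.fst
      | with_reducible exact Primrec.snd
      | with_reducible refine Primrec.fst.comp ?_
      | with_reducible refine Primrec.snd.comp ?_
      | with_reducible refine t_add ?_ ?_
      | with_reducible refine t_sub ?_ ?_
      | with_reducible refine t_mul ?_ ?_
      | with_reducible refine t_div ?_ ?_
      | with_reducible refine t_mod ?_ ?_
      | with_reducible refine t_pow ?_ ?_
      | with_reducible refine t_fst ?_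
      | with_reducible refine t_snd ?_
      | with_reducible refine Primrec.unpair.comp ?_
      | with_reducible refine c_Lb ?_ ?_
      | with_reducible refine c_dg ?_ ?_ ?_)

theorem c_WinN {n m k B S I h T : α → ℕ} (hn : Primrec n) (hm : Primrec m) (hk : Primrec k) (hB : Primrec B) (hS : Primrec S) (hI : Primrec I) (hh : Primrec h) (hT : Primrec T) :
    PrimrecPred fun p => WinN (n p) (m p) (k p) (B p) (S p) (I p) (h p) (T p) :=
  p_WinN.comp (hn.pair (hm.pair (hk.pair (hB.pair (hS.pair (hI.pair (hh.pair hT)))))))

theorem p_TmN : PrimrecPred fun p : ℕ × ℕ =>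
    TmN p.1 p.2 := by
  unfold TmN
  (repeat' first
      | with_reducible refine ex_lt ?_ ?_
      | with_reducible refine all_lt ?_ ?_
      | with_reducible refine p_and ?_ ?_
      | with_reducible refine p_or ?_ ?_
      | with_reducible refine p_not ?_
      | with_reducible refine p_iff ?_ ?_
      | with_reducible refine p_imp ?_ ?_
      | with_reducible refine p_bit ?_ ?_
      | with_reducible refine p_lt ?_ ?_
      | with_reducible refine p_le ?_ ?_
      | with_reducible refine p_eq ?_ ?_
      | with_reducible refine p_ne ?_ ?_) <;> (repeat' first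
      | with_reducible exact Primrec.const _
      | with_reducible exact Primrec.id
      | with_reducible exact Primrec.fst
      | with_reducible exact Primrec.snd
      | with_reducible refine Primrec.fst.comp ?_
      | with_reducible refine Primrec.snd.comp ?_
      | with_reducible refine t_add ?_ ?_
      | with_reducible refine t_sub ?_ ?_
      | with_reducible refine t_mul ?_ ?_
      | with_reducible refine t_div ?_ ?_
      | with_reducible refine t_mod ?_ ?_
      | with_reducible refine t_pow ?_ ?_
      | with_reducible refine t_fst ?_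
      | with_reducible refine t_snd ?_
      | with_reducible refine Primrec.unpair.comp ?_
      | with_reducible refine c_Lb ?_ ?_
      | with_reducible refine c_dg ?_ ?_ ?_)

theorem c_TmN {σ t : α → ℕ} (hσ : Primrec σ) (ht : Primrec t) :
    PrimrecPred fun p => TmN (σ p) (t p) :=
  p_TmN.comp (hσ.pair ht)

theorem p_SatN : PrimrecPred fun p : ℕ × ℕ × ℕ =>
    SatN p.1 p.2.1 p.2.2 := by
  unfold SatN
  ((repeat' first
      | with_reducible refine ex_lt ?_ ?_
      | with_reducible refine all_lt ?_ ?_
      | with_reducible refine p_and ?_ ?_
      | with_reducible refine p_or ?_ ?_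
      | with_reducible refine p_not ?_
      | with_reducible refine p_iff ?_ ?_
      | with_reducible refine p_imp ?_ ?_
      | with_reducible refine p_bit ?_ ?_
      | with_reducible refine p_lt ?_ ?_
      | with_reducible refine p_le ?_ ?_
      | with_reducible refine p_eq ?_ ?_
      | with_reducible refine p_ne ?_ ?_) <;> try first | with_reducible refine c_TmN ?_ ?_) <;> (repeat' first
      | with_reducible exact Primrec.const _
      | with_reducible exact Primrec.id
      | with_reducible exact Primrec.fst
      | with_reducible exact Primrec.snd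
      | with_reducible refine Primrec.fst.comp ?_
      | with_reducible refine Primrec.snd.comp ?_
      | with_reducible refine t_add ?_ ?_
      | with_reducible refine t_sub ?_ ?_
      | with_reducible refine t_mul ?_ ?_
      | with_reducible refine t_div ?_ ?_
      | with_reducible refine t_mod ?_ ?_
      | with_reducible refine t_pow ?_ ?_
      | with_reducible refine t_fst ?_
      | with_reducible refine t_snd ?_
      | with_reducible refine Primrec.unpair.comp ?_
      | with_reducible refine c_Lb ?_ ?_
      | with_reducible refine c_dg ?_ ?_ ?_)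

theorem c_SatN {N T d : α → ℕ} (hN : Primrec N) (hT : Primrec T) (hd : Primrec d) :
    PrimrecPred fun p => SatN (N p) (T p) (d p) :=
  p_SatN.comp (hN.pair (hT.pair hd))

theorem p_ClT : PrimrecPred fun p : ℕ × ℕ =>
    ClT p.1 p.2 := by
  unfold ClT
  (repeat' first
      | with_reducible refine ex_lt ?_ ?_
      | with_reducible refine all_lt ?_ ?_
      | with_reducible refine p_and ?_ ?_
      | with_reducible refine p_or ?_ ?_
      | with_reducible refine p_not ?_
      | with_reducible refine p_iff ?_ ?_
      | with_reducible refine p_imp ?_ ?_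
      | with_reducible refine p_bit ?_ ?_
      | with_reducible refine p_lt ?_ ?_
      | with_reducible refine p_le ?_ ?_
      | with_reducible refine p_eq ?_ ?_
      | with_reducible refine p_ne ?_ ?_) <;> (repeat' first
      | with_reducible exact Primrec.const _
      | with_reducible exact Primrec.id
      | with_reducible exact Primrec.fst
      | with_reducible exact Primrec.snd
      | with_reducible refine Primrec.fst.comp ?_
      | with_reducible refine Primrec.snd.comp ?_
      | with_reducible refine t_add ?_ ?_
      | with_reducible refine t_sub ?_ ?_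
      | with_reducible refine t_mul ?_ ?_
      | with_reducible refine t_div ?_ ?_
      | with_reducible refine t_mod ?_ ?_
      | with_reducible refine t_pow ?_ ?_
      | with_reducible refine t_fst ?_
      | with_reducible refine t_snd ?_
      | with_reducible refine Primrec.unpair.comp ?_
      | with_reducible refine c_Lb ?_ ?_
      | with_reducible refine c_dg ?_ ?_ ?_)

theorem c_ClT {N t : α → ℕ} (hN : Primrec N) (ht : Primrec t) :
    PrimrecPred fun p => ClT (N p) (t p) :=
  p_ClT.comp (hN.pair ht)

theorem p_ClF : PrimrecPred fun p : ℕ × ℕ =>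
    ClF p.1 p.2 := by
  unfold ClF
  ((repeat' first
      | with_reducible refine ex_lt ?_ ?_
      | with_reducible refine all_lt ?_ ?_
      | with_reducible refine p_and ?_ ?_
      | with_reducible refine p_or ?_ ?_
      | with_reducible refine p_not ?_
      | with_reducible refine p_iff ?_ ?_
      | with_reducible refine p_imp ?_ ?_
      | with_reducible refine p_bit ?_ ?_
      | with_reducible refine p_lt ?_ ?_
      | with_reducible refine p_le ?_ ?_
      | with_reducible refine p_eq ?_ ?_
      | with_reducible refine p_ne ?_ ?_) <;> try first | with_reducible refine c_ClT ?_ ?_) <;> (repeat' first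
      | with_reducible exact Primrec.const _
      | with_reducible exact Primrec.id
      | with_reducible exact Primrec.fst
      | with_reducible exact Primrec.snd
      | with_reducible refine Primrec.fst.comp ?_
      | with_reducible refine Primrec.snd.comp ?_
      | with_reducible refine t_add ?_ ?_
      | with_reducible refine t_sub ?_ ?_
      | with_reducible refine t_mul ?_ ?_
      | with_reducible refine t_div ?_ ?_
      | with_reducible refine t_mod ?_ ?_
      | with_reducible refine t_pow ?_ ?_
      | with_reducible refine t_fst ?_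
      | with_reducible refine t_snd ?_
      | with_reducible refine Primrec.unpair.comp ?_
      | with_reducible refine c_Lb ?_ ?_
      | with_reducible refine c_dg ?_ ?_ ?_)

theorem c_ClF {N d : α → ℕ} (hN : Primrec N) (hd : Primrec d) :
    PrimrecPred fun p => ClF (N p) (d p) :=
  p_ClF.comp (hN.pair hd)

theorem p_AnsN : PrimrecPred fun p : ℕ × ℕ × ℕ × ℕ × ℕ × ℕ × ℕ × ℕ × ℕ × ℕ × ℕ × ℕ × ℕ × ℕ =>
    AnsN p.1 p.2.1 p.2.2.1 p.2.2.2.1 p.2.2.2.2.1 p.2.2.2.2.2.1 p.2.2.2.2.2.2.1 p.2.2.2.2.2.2.2.1 p.2.2.2.2.2.2.2.2.1 p.2.2.2.2.2.2.2.2.2.1 p.2.2.2.2.2.2.2.2.2.2.1 p.2.2.2.2.2.2.2.2.2.2.2.1 p.2.2.2.2.2.2.2.2.2.2.2.2.1 p.2.2.2.2.2.2.2.2.2.2.2.2.2 := by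
  unfold AnsN
  ((repeat' first
      | with_reducible refine ex_lt ?_ ?_
      | with_reducible refine all_lt ?_ ?_
      | with_reducible refine p_and ?_ ?_
      | with_reducible refine p_or ?_ ?_
      | with_reducible refine p_not ?_
      | with_reducible refine p_iff ?_ ?_
      | with_reducible refine p_imp ?_ ?_
      | with_reducible refine p_bit ?_ ?_
      | with_reducible refine p_lt ?_ ?_
      | with_reducible refine p_le ?_ ?_
      | with_reducible refine p_eq ?_ ?_
      | with_reducible refine p_ne ?_ ?_) <;> try first | with_reducible refine c_SatN ?_ ?_ ?_ | with_reducible refine c_LabN ?_ ?_ ?_ ?_ | with_reducible refine c_WinN ?_ ?_ ?_ ?_ ?_ ?_ ?_ ?_) <;> (repeat' first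
      | with_reducible exact Primrec.const _
      | with_reducible exact Primrec.id
      | with_reducible exact Primrec.fst
      | with_reducible exact Primrec.snd
      | with_reducible refine Primrec.fst.comp ?_
      | with_reducible refine Primrec.snd.comp ?_
      | with_reducible refine t_add ?_ ?_
      | with_reducible refine t_sub ?_ ?_
      | with_reducible refine t_mul ?_ ?_
      | with_reducible refine t_div ?_ ?_
      | with_reducible refine t_mod ?_ ?_
      | with_reducible refine t_pow ?_ ?_
      | with_reducible refine t_fst ?_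
      | with_reducible refine t_snd ?_
      | with_reducible refine Primrec.unpair.comp ?_
      | with_reducible refine c_Lb ?_ ?_
      | with_reducible refine c_dg ?_ ?_ ?_)

theorem c_AnsN {n m k d B S q x I h y F z T : α → ℕ} (hn : Primrec n) (hm : Primrec m) (hk : Primrec k) (hd : Primrec d) (hB : Primrec B) (hS : Primrec S) (hq : Primrec q) (hx : Primrec x) (hI : Primrec I) (hh : Primrec h) (hy : Primrec y) (hF : Primrec F) (hz : Primrec z) (hT : Primrec T) :
    PrimrecPred fun p => AnsN (n p) (m p) (k p) (d p) (B p) (S p) (q p) (x p) (I p) (h p) (y p) (F p) (z p) (T p) :=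
  p_AnsN.comp (hn.pair (hm.pair (hk.pair (hd.pair (hB.pair (hS.pair (hq.pair (hx.pair (hI.pair (hh.pair (hy.pair (hF.pair (hz.pair hT)))))))))))))

theorem p_GoodN : PrimrecPred fun p : ℕ × ℕ × ℕ × ℕ × ℕ × ℕ × ℕ × ℕ × ℕ =>
    GoodN p.1 p.2.1 p.2.2.1 p.2.2.2.1 p.2.2.2.2.1 p.2.2.2.2.2.1 p.2.2.2.2.2.2.1 p.2.2.2.2.2.2.2.1 p.2.2.2.2.2.2.2.2 := by
  unfold GoodN
  ((repeat' first
      | with_reducible refine ex_lt ?_ ?_
      | with_reducible refine all_lt ?_ ?_
      | with_reducible refine p_and ?_ ?_
      | with_reducible refine p_or ?_ ?_
      | with_reducible refine p_not ?_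
      | with_reducible refine p_iff ?_ ?_
      | with_reducible refine p_imp ?_ ?_
      | with_reducible refine p_bit ?_ ?_
      | with_reducible refine p_lt ?_ ?_
      | with_reducible refine p_le ?_ ?_
      | with_reducible refine p_eq ?_ ?_
      | with_reducible refine p_ne ?_ ?_) <;> try first | with_reducible refine c_ValidN ?_ ?_ ?_ ?_ ?_ ?_ | with_reducible refine c_LabN ?_ ?_ ?_ ?_ | with_reducible refine c_AnsN ?_ ?_ ?_ ?_ ?_ ?_ ?_ ?_ ?_ ?_ ?_ ?_ ?_ ?_) <;> (repeat' first
      | with_reducible exact Primrec.const _
      | with_reducible exact Primrec.id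
      | with_reducible exact Primrec.fst
      | with_reducible exact Primrec.snd
      | with_reducible refine Primrec.fst.comp ?_
      | with_reducible refine Primrec.snd.comp ?_
      | with_reducible refine t_add ?_ ?_
      | with_reducible refine t_sub ?_ ?_
      | with_reducible refine t_mul ?_ ?_
      | with_reducible refine t_div ?_ ?_
      | with_reducible refine t_mod ?_ ?_
      | with_reducible refine t_pow ?_ ?_
      | with_reducible refine t_fst ?_
      | with_reducible refine t_snd ?_
      | with_reducible refine Primrec.unpair.comp ?_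
      | with_reducible refine c_Lb ?_ ?_
      | with_reducible refine c_dg ?_ ?_ ?_)

theorem c_GoodN {n m k d B Q S q x : α → ℕ} (hn : Primrec n) (hm : Primrec m) (hk : Primrec k) (hd : Primrec d) (hB : Primrec B) (hQ : Primrec Q) (hS : Primrec S) (hq : Primrec q) (hx : Primrec x) :
    PrimrecPred fun p => GoodN (n p) (m p) (k p) (d p) (B p) (Q p) (S p) (q p) (x p) :=
  p_GoodN.comp (hn.pair (hm.pair (hk.pair (hd.pair (hB.pair (hQ.pair (hS.pair (hq.pair hx))))))))

theorem p_CritN : PrimrecPred fun p : ℕ × ℕ × ℕ × ℕ × ℕ × ℕ =>
    CritN p.1 p.2.1 p.2.2.1 p.2.2.2.1 p.2.2.2.2.1 p.2.2.2.2.2 := by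
  unfold CritN
  ((repeat' first
      | with_reducible refine ex_lt ?_ ?_
      | with_reducible refine all_lt ?_ ?_
      | with_reducible refine p_and ?_ ?_
      | with_reducible refine p_or ?_ ?_
      | with_reducible refine p_not ?_
      | with_reducible refine p_iff ?_ ?_
      | with_reducible refine p_imp ?_ ?_
      | with_reducible refine p_bit ?_ ?_
      | with_reducible refine p_lt ?_ ?_
      | with_reducible refine p_le ?_ ?_
      | with_reducible refine p_eq ?_ ?_
      | with_reducible refine p_ne ?_ ?_) <;> try first | with_reducible refine c_Ty ?_ ?_ | with_reducible refine c_LabN ?_ ?_ ?_ ?_ | with_reducible refine c_GoodN ?_ ?_ ?_ ?_ ?_ ?_ ?_ ?_ ?_) <;> (repeat' first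
      | with_reducible exact Primrec.const _
      | with_reducible exact Primrec.id
      | with_reducible exact Primrec.fst
      | with_reducible exact Primrec.snd
      | with_reducible refine Primrec.fst.comp ?_
      | with_reducible refine Primrec.snd.comp ?_
      | with_reducible refine t_add ?_ ?_
      | with_reducible refine t_sub ?_ ?_
      | with_reducible refine t_mul ?_ ?_
      | with_reducible refine t_div ?_ ?_
      | with_reducible refine t_mod ?_ ?_
      | with_reducible refine t_pow ?_ ?_
      | with_reducible refine t_fst ?_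
      | with_reducible refine t_snd ?_
      | with_reducible refine Primrec.unpair.comp ?_
      | with_reducible refine c_Lb ?_ ?_
      | with_reducible refine c_dg ?_ ?_ ?_)

theorem c_CritN {n m k d B Q : α → ℕ} (hn : Primrec n) (hm : Primrec m) (hk : Primrec k) (hd : Primrec d) (hB : Primrec B) (hQ : Primrec Q) :
    PrimrecPred fun p => CritN (n p) (m p) (k p) (d p) (B p) (Q p) :=
  p_CritN.comp (hn.pair (hm.pair (hk.pair (hd.pair (hB.pair hQ)))))

theorem p_DecN : PrimrecPred fun p : ℕ × ℕ × ℕ × ℕ => DecN p.1 p.2.1 p.2.2.1 p.2.2.2 := by
  unfold DecN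
  refine p_and (c_ClF ?_ ?_) (c_CritN ?_ ?_ ?_ ?_ (prim_bd.comp ?_) ?_) <;> (repeat' first
      | with_reducible exact Primrec.const _
      | with_reducible exact Primrec.id
      | with_reducible exact Primrec.fst
      | with_reducible exact Primrec.snd
      | with_reducible refine Primrec.fst.comp ?_
      | with_reducible refine Primrec.snd.comp ?_
      | with_reducible refine t_add ?_ ?_
      | with_reducible refine t_sub ?_ ?_
      | with_reducible refine t_mul ?_ ?_
      | with_reducible refine t_div ?_ ?_
      | with_reducible refine t_mod ?_ ?_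
      | with_reducible refine t_pow ?_ ?_
      | with_reducible refine t_fst ?_
      | with_reducible refine t_snd ?_
      | with_reducible refine Primrec.unpair.comp ?_
      | with_reducible refine c_Lb ?_ ?_
      | with_reducible refine c_dg ?_ ?_ ?_)

theorem c_DecN {n m k d : α → ℕ} (hn : Primrec n) (hm : Primrec m) (hk : Primrec k)
    (hd : Primrec d) : PrimrecPred fun p => DecN (n p) (m p) (k p) (d p) :=
  p_DecN.comp (hn.pair (hm.pair (hk.pair hd)))

end Pool.Agent.Lib.MP_45c83f_lc.Dec
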