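import Pool.Agent.Lib.MP_45c83f_lc.Syntax
import Pool.Agent.Lib.MP_45c83f_lc.NuBits
import Pool.Agent.Lib.MP_45c83f_lc.NuCode

set_option autoImplicit false

/-!
# Satisfaction depends only on the set of the attained states
-/

namespace Pool.Agent.Lib.MP_45c83f_lc

/-- the value of a term at a state of the variables -/
def Tm.ev (v : ℕ → Bool) : Tm → Bool
  | .bot => false
  | .top => true
  | .var i => v i
  | .sup a b => a.ev v || b.ev v
  | .inf a b => a.ev v && b.ev v

/-- the truth of a formula for a set of attained states -/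
def Fm.SatT (Q : Set (ℕ → Bool)) : Fm → Prop
  | .sub a b => ∀ v ∈ Q, a.ev v = true → b.ev v = true
  | .eq a b => ∀ v ∈ Q, a.ev v = b.ev v
  | .neg φ => ¬ φ.SatT Q
  | .and φ ψ => φ.SatT Q ∧ ψ.SatT Q
  | .or φ ψ => φ.SatT Q ∨ ψ.SatT Q

/-- the state of the variables given by a state of the three blocks -/
def st3 {n m k : ℕ} (ρ : (Fin n → Bool) × (Fin m → Bool) × (Fin k → Bool)) (i : ℕ) : Bool :=
  if h : i < n then ρ.1 ⟨i, h⟩ else if h : i - n < m then ρ.2.1 ⟨i - n, h⟩ else
    if h : i - n - m < k then ρ.2.2 ⟨i - n - m, h⟩ else false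

/-- the matrix as a property of the set of the attained states -/
def Fm.SatS (n m k : ℕ) (φ : Fm) (T : Set ((Fin n → Bool) × (Fin m → Bool) × (Fin k → Bool))) :
    Prop := φ.SatT (st3 '' T)

private theorem nuSat_val (v : ℕ → Set ℕ) [∀ e i, Decidable (e ∈ v i)] (t : Tm) (e : ℕ) :
    e ∈ t.val v ↔ t.ev (fun i => decide (e ∈ v i)) = true := by
  induction t with
  | bot => simp [Tm.val, Tm.ev]
  | top => simp [Tm.val, Tm.ev]
  | var i => simp [Tm.val, Tm.ev]
  | sup a b iha ihb => simp only [Tm.val, Tm.ev, Set.mem_union, iha, ihb, Bool.or_eq_true]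
  | inf a b iha ihb => simp only [Tm.val, Tm.ev, Set.mem_inter_iff, iha, ihb, Bool.and_eq_true]

/-- satisfaction in the lattice of sets is satisfaction at the set of the states of the elements -/
theorem Fm.sat_iff (v : ℕ → Set ℕ) (φ : Fm) [∀ e i, Decidable (e ∈ v i)] :
    φ.Sat v ↔ φ.SatT (Set.range fun e i => decide (e ∈ v i)) := by
  induction φ with
  | sub a b =>
    simp only [Fm.Sat, Fm.SatT, Set.mem_range, forall_exists_index, forall_apply_eq_imp_iff,
      Set.subset_def, nuSat_val v]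
  | eq a b =>
    simp only [Fm.Sat, Fm.SatT, Set.mem_range, forall_exists_index, forall_apply_eq_imp_iff,
      Set.ext_iff, nuSat_val v]
    exact forall_congr' fun e => Bool.eq_iff_iff.symm
  | neg φ ih => simp only [Fm.Sat, Fm.SatT, ih]
  | and φ ψ ih1 ih2 => simp only [Fm.Sat, Fm.SatT, ih1, ih2]
  | or φ ψ ih1 ih2 => simp only [Fm.Sat, Fm.SatT, ih1, ih2]

end Pool.Agent.Lib.MP_45c83f_lc

namespace Pool.Agent.Lib.MP_45c83f_lc.Dec

/-- the condition on an entry of the table of the truth values of the terms -/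
private def nuSat_TC (σ : ℕ) (P : ℕ → Prop) (e : ℕ) : Prop :=
  e = 1 ∨ (e % 3 = 2 ∧ σ.testBit (e / 3) = true) ∨
    (e % 3 = 0 ∧ e ≠ 0 ∧ (P (e / 3 - 1).unpair.1 ∨ P (e / 3 - 1).unpair.2)) ∨
    (e % 3 = 1 ∧ e ≠ 1 ∧ P (e / 3 - 1).unpair.1 ∧ P (e / 3 - 1).unpair.2)

/-- the value of the table condition, from the values of the subterms -/
private theorem nuSat_TC_iff {σ : ℕ} {P : ℕ → Prop} (s : Tm)
    (hP : ∀ r : Tm, r.code < s.code → (P r.code ↔ r.ev (fun i => σ.testBit i) = true)) :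
    nuSat_TC σ P s.code ↔ s.ev (fun i => σ.testBit i) = true := by
  unfold nuSat_TC
  cases s with
  | bot => simp [Tm.code, Tm.ev]
  | top => simp [Tm.code, Tm.ev]
  | var i =>
    have h1 : (Tm.var i).code = 3 * i + 2 := rfl
    have h2 : (3 * i + 2) % 3 = 2 := by omega
    have h3 : (3 * i + 2) / 3 = i := by omega
    have h4 : 3 * i + 2 ≠ 1 := by omega
    rw [h1, h2, h3]
    simp [Tm.ev]
  | sup a b =>
    have h1 : (Tm.sup a b).code = 3 * Nat.pair a.code b.code + 3 := rfl
    have h2 : (3 * Nat.pair a.code b.code + 3) % 3 = 0 := by omega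
    have h3 : (3 * Nat.pair a.code b.code + 3) / 3 - 1 = Nat.pair a.code b.code := by omega
    have h4 := Nat.left_le_pair a.code b.code
    have h5 := Nat.right_le_pair a.code b.code
    have h6 := hP a (by omega)
    have h7 := hP b (by omega)
    have h8 : (Tm.sup a b).ev (fun i => σ.testBit i) = true ↔
        (P a.code ∨ P b.code) := by
      rw [h6, h7]
      simp only [Tm.ev, Bool.or_eq_true]
    rw [h8, h1, h2, h3, Nat.unpair_pair]
    constructor
    · rintro (h | ⟨h, -⟩ | ⟨-, -, h⟩ | ⟨h, -⟩)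
      · omega
      · omega
      · exact h
      · omega
    · intro h
      exact Or.inr (Or.inr (Or.inl ⟨rfl, by omega, h⟩))
  | inf a b =>
    have h1 : (Tm.inf a b).code = 3 * Nat.pair a.code b.code + 4 := rfl
    have h2 : (3 * Nat.pair a.code b.code + 4) % 3 = 1 := by omega
    have h3 : (3 * Nat.pair a.code b.code + 4) / 3 - 1 = Nat.pair a.code b.code := by omega
    have h4 := Nat.left_le_pair a.code b.code
    have h5 := Nat.right_le_pair a.code b.code
    have h6 := hP a (by omega)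
    have h7 := hP b (by omega)
    have h8 : (Tm.inf a b).ev (fun i => σ.testBit i) = true ↔
        (P a.code ∧ P b.code) := by
      rw [h6, h7]
      simp only [Tm.ev, Bool.and_eq_true]
    rw [h8, h1, h2, h3, Nat.unpair_pair]
    constructor
    · rintro (h | ⟨h, -⟩ | ⟨h, -⟩ | ⟨-, -, h⟩)
      · omega
      · omega
      · omega
      · exact h
    · intro h
      exact Or.inr (Or.inr (Or.inr ⟨rfl, by omega, h⟩))

theorem tmN_iff (σ : ℕ) (t : Tm) : TmN σ t.code ↔ t.ev (fun i => σ.testBit i) = true := by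
  constructor
  · rintro ⟨W, -, hW, hW'⟩
    have key : ∀ (c : ℕ) (s : Tm), s.code = c → c < t.code + 1 →
        (W.testBit s.code = true ↔ s.ev (fun i => σ.testBit i) = true) := by
      intro c
      induction c using Nat.strong_induction_on with
      | _ c ih =>
        intro s hs hc
        refine (hW' s.code (by omega)).trans ?_
        exact nuSat_TC_iff (P := fun i => W.testBit i = true) s
          (fun r hr => ih r.code (by omega) r rfl (by omega))
    exact (key t.code t rfl (Nat.lt_succ_self _)).1 hW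
  · intro h
    obtain ⟨W, hlt, hW⟩ := exists_set_code (t.code + 1)
      {e | ∃ s : Tm, s.code = e ∧ s.ev (fun i => σ.testBit i) = true}
    have key : ∀ s : Tm, s.code < t.code + 1 →
        (W.testBit s.code = true ↔ s.ev (fun i => σ.testBit i) = true) := by
      intro s hs
      rw [hW]
      constructor
      · rintro ⟨-, r, hr, hr'⟩
        rwa [tm_code_inj hr] at hr'
      · intro h'
        exact ⟨hs, s, rfl, h'⟩
    refine ⟨W, hlt, (key t (Nat.lt_succ_self _)).2 h, fun e he => ?_⟩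
    obtain ⟨s, rfl⟩ := tm_code_surj e
    refine (key s he).trans ?_
    exact (nuSat_TC_iff (P := fun i => W.testBit i = true) s
      (fun r hr => key r (by omega))).symm

/-- the condition on an entry of the table of the truth values of the formulas -/
private def nuSat_FC (N T : ℕ) (P : ℕ → Prop) (e : ℕ) : Prop :=
  (e % 5 = 0 ∧ ∀ σ < 2 ^ N, T.testBit σ = true → TmN σ (e / 5).unpair.1 →
      TmN σ (e / 5).unpair.2) ∨
    (e % 5 = 1 ∧ ∀ σ < 2 ^ N, T.testBit σ = true → (TmN σ (e / 5).unpair.1 ↔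
      TmN σ (e / 5).unpair.2)) ∨
    (e % 5 = 2 ∧ ¬ P (e / 5)) ∨
    (e % 5 = 3 ∧ P (e / 5).unpair.1 ∧ P (e / 5).unpair.2) ∨
    (e % 5 = 4 ∧ (P (e / 5).unpair.1 ∨ P (e / 5).unpair.2))

/-- the value of the table condition, from the values of the subformulas -/
private theorem nuSat_FC_iff {N T : ℕ} {P : ℕ → Prop} {Q : Set (ℕ → Bool)}
    (hQ : ∀ v, v ∈ Q ↔ ∃ σ < 2 ^ N, T.testBit σ = true ∧ v = fun i => σ.testBit i) (φ : Fm)
    (hP : ∀ ψ : Fm, ψ.code < φ.code → (P ψ.code ↔ ψ.SatT Q)) :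
    nuSat_FC N T P φ.code ↔ φ.SatT Q := by
  unfold nuSat_FC
  cases φ with
  | sub a b =>
    have h1 : (Fm.sub a b).code = 5 * Nat.pair a.code b.code := rfl
    have h2 : (5 * Nat.pair a.code b.code) % 5 = 0 := by omega
    have h3 : (5 * Nat.pair a.code b.code) / 5 = Nat.pair a.code b.code := by omega
    rw [h1, h2, h3, Nat.unpair_pair]
    simp only [tmN_iff, Fm.SatT, hQ]
    constructor
    · rintro (⟨-, h⟩ | ⟨h, -⟩ | ⟨h, -⟩ | ⟨h, -⟩ | ⟨h, -⟩)
      · rintro v ⟨σ, h4, h5, rfl⟩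
        exact h σ h4 h5
      all_goals omega
    · intro h
      exact Or.inl ⟨trivial, fun σ h4 h5 => h _ ⟨σ, h4, h5, rfl⟩⟩
  | eq a b =>
    have h1 : (Fm.eq a b).code = 5 * Nat.pair a.code b.code + 1 := rfl
    have h2 : (5 * Nat.pair a.code b.code + 1) % 5 = 1 := by omega
    have h3 : (5 * Nat.pair a.code b.code + 1) / 5 = Nat.pair a.code b.code := by omega
    rw [h1, h2, h3, Nat.unpair_pair]
    simp only [tmN_iff, Fm.SatT, hQ]
    constructor
    · rintro (⟨h, -⟩ | ⟨-, h⟩ | ⟨h, -⟩ | ⟨h, -⟩ | ⟨h, -⟩)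
      · omega
      · rintro v ⟨σ, h4, h5, rfl⟩
        exact Bool.eq_iff_iff.2 (h σ h4 h5)
      all_goals omega
    · intro h
      exact Or.inr (Or.inl ⟨trivial, fun σ h4 h5 =>
        Bool.eq_iff_iff.1 (h _ ⟨σ, h4, h5, rfl⟩)⟩)
  | neg ψ =>
    have h1 : (Fm.neg ψ).code = 5 * ψ.code + 2 := rfl
    have h2 : (5 * ψ.code + 2) % 5 = 2 := by omega
    have h3 : (5 * ψ.code + 2) / 5 = ψ.code := by omega
    have h6 := hP ψ (by omega)
    have h8 : (Fm.neg ψ).SatT Q ↔ ¬ P ψ.code := by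
      rw [h6]
      rfl
    rw [h8, h1, h2, h3]
    constructor
    · rintro (⟨h, -⟩ | ⟨h, -⟩ | ⟨-, h⟩ | ⟨h, -⟩ | ⟨h, -⟩)
      · omega
      · omega
      · exact h
      all_goals omega
    · intro h
      exact Or.inr (Or.inr (Or.inl ⟨rfl, h⟩))
  | and ψ χ =>
    have h1 : (Fm.and ψ χ).code = 5 * Nat.pair ψ.code χ.code + 3 := rfl
    have h2 : (5 * Nat.pair ψ.code χ.code + 3) % 5 = 3 := by omega
    have h3 : (5 * Nat.pair ψ.code χ.code + 3) / 5 = Nat.pair ψ.code χ.code := by omega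
    have h4 := Nat.left_le_pair ψ.code χ.code
    have h5 := Nat.right_le_pair ψ.code χ.code
    have h6 := hP ψ (by omega)
    have h7 := hP χ (by omega)
    have h8 : (Fm.and ψ χ).SatT Q ↔ (P ψ.code ∧ P χ.code) := by
      rw [h6, h7]
      rfl
    rw [h8, h1, h2, h3, Nat.unpair_pair]
    constructor
    · rintro (⟨h, -⟩ | ⟨h, -⟩ | ⟨h, -⟩ | ⟨-, h⟩ | ⟨h, -⟩)
      · omega
      · omega
      · omega
      · exact h
      · omega
    · intro h
      exact Or.inr (Or.inr (Or.inr (Or.inl ⟨rfl, h⟩)))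
  | or ψ χ =>
    have h1 : (Fm.or ψ χ).code = 5 * Nat.pair ψ.code χ.code + 4 := rfl
    have h2 : (5 * Nat.pair ψ.code χ.code + 4) % 5 = 4 := by omega
    have h3 : (5 * Nat.pair ψ.code χ.code + 4) / 5 = Nat.pair ψ.code χ.code := by omega
    have h4 := Nat.left_le_pair ψ.code χ.code
    have h5 := Nat.right_le_pair ψ.code χ.code
    have h6 := hP ψ (by omega)
    have h7 := hP χ (by omega)
    have h8 : (Fm.or ψ χ).SatT Q ↔ (P ψ.code ∨ P χ.code) := by
      rw [h6, h7]
      rfl
    rw [h8, h1, h2, h3, Nat.unpair_pair]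
    constructor
    · rintro (⟨h, -⟩ | ⟨h, -⟩ | ⟨h, -⟩ | ⟨h, -⟩ | ⟨-, h⟩)
      · omega
      · omega
      · omega
      · omega
      · exact h
    · intro h
      exact Or.inr (Or.inr (Or.inr (Or.inr ⟨rfl, h⟩)))

/-- a bit of the code of an element of the cube -/
private theorem nuSat_cd_bit {n : ℕ} (τ : Fin n → Bool) {i : ℕ} (h : i < n) :
    (cd τ).testBit i = τ ⟨i, h⟩ := by
  have h1 := congrFun (cube_cd τ) ⟨i, h⟩
  exact h1

/-- the bits of the code of a state -/
private theorem nuSat_st3 {n m k : ℕ} (ρ : (Fin n → Bool) × (Fin m → Bool) × (Fin k → Bool))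
    (i : ℕ) :
    (cd ρ.1 + 2 ^ n * cd ρ.2.1 + 2 ^ (n + m) * cd ρ.2.2).testBit i = st3 ρ i := by
  have h1 := cd_lt ρ.1
  have h2 := cd_lt ρ.2.1
  have h3 := cd_lt ρ.2.2
  rw [testBit_pair (pair_lt' h1 h2), testBit_pair h1]
  unfold st3
  by_cases c1 : i < n
  · rw [if_pos (by omega), if_pos c1, dif_pos c1, nuSat_cd_bit]
  · rw [dif_neg c1]
    by_cases c2 : i - n < m
    · rw [if_pos (by omega), if_neg c1, dif_pos c2, nuSat_cd_bit]
    · rw [if_neg (by omega), dif_neg c2]
      have h4 : i - (n + m) = i - n - m := by omega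
      rw [h4]
      by_cases c3 : i - n - m < k
      · rw [dif_pos c3, nuSat_cd_bit]
      · rw [dif_neg c3]
        exact Nat.testBit_lt_two_pow (lt_of_lt_of_le h3 (Nat.pow_le_pow_right (by norm_num)
          (by omega)))

private theorem nuSat_mem (n m k T : ℕ) (v : ℕ → Bool) :
    v ∈ st3 '' (setXYZ n m k T) ↔
      ∃ σ < 2 ^ (n + m + k), T.testBit σ = true ∧ v = fun i => σ.testBit i := by
  constructor
  · rintro ⟨ρ, hρ, rfl⟩
    refine ⟨cd ρ.1 + 2 ^ n * cd ρ.2.1 + 2 ^ (n + m) * cd ρ.2.2, ?_, hρ, ?_⟩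
    · exact pair_lt' (pair_lt' (cd_lt ρ.1) (cd_lt ρ.2.1)) (cd_lt ρ.2.2)
    · funext i
      exact (nuSat_st3 ρ i).symm
  · rintro ⟨σ, hσ, hT, rfl⟩
    let ρ : (Fin n → Bool) × (Fin m → Bool) × (Fin k → Bool) :=
      (cube n σ, cube m (σ / 2 ^ n), cube k (σ / 2 ^ (n + m)))
    have h1 : ∀ i, st3 ρ i = σ.testBit i := by
      intro i
      unfold st3
      by_cases c1 : i < n
      · rw [dif_pos c1]
        rfl
      · rw [dif_neg c1]
        by_cases c2 : i - n < m
        · rw [dif_pos c2]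
          change (σ / 2 ^ n).testBit (i - n) = σ.testBit i
          rw [Nat.testBit_div_two_pow]
          congr 1
          omega
        · rw [dif_neg c2]
          by_cases c3 : i - n - m < k
          · rw [dif_pos c3]
            change (σ / 2 ^ (n + m)).testBit (i - n - m) = σ.testBit i
            rw [Nat.testBit_div_two_pow]
            congr 1
            omega
          · rw [dif_neg c3]
            exact (Nat.testBit_lt_two_pow (lt_of_lt_of_le hσ
              (Nat.pow_le_pow_right (by norm_num) (by omega)))).symm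
    have h2 : cd ρ.1 + 2 ^ n * cd ρ.2.1 + 2 ^ (n + m) * cd ρ.2.2 = σ :=
      Nat.eq_of_testBit_eq fun i => (nuSat_st3 ρ i).trans (h1 i)
    refine ⟨ρ, ?_, funext h1⟩
    change T.testBit (cd ρ.1 + 2 ^ n * cd ρ.2.1 + 2 ^ (n + m) * cd ρ.2.2) = true
    rw [h2]
    exact hT

theorem satS_iff (n m k T : ℕ) (φ : Fm) :
    φ.SatS n m k (setXYZ n m k T) ↔ SatN (n + m + k) T φ.code := by
  have hQ := nuSat_mem n m k T
  unfold Fm.SatS
  symm
  constructor
  · rintro ⟨W, -, hW, hW'⟩
    have key : ∀ (c : ℕ) (ψ : Fm), ψ.code = c → c < φ.code + 1 →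
        (W.testBit ψ.code = true ↔ ψ.SatT (st3 '' (setXYZ n m k T))) := by
      intro c
      induction c using Nat.strong_induction_on with
      | _ c ih =>
        intro ψ hs hc
        refine (hW' ψ.code (by omega)).trans ?_
        exact nuSat_FC_iff (P := fun i => W.testBit i = true) hQ ψ
          (fun χ hχ => ih χ.code (by omega) χ rfl (by omega))
    exact (key φ.code φ rfl (Nat.lt_succ_self _)).1 hW
  · intro h
    obtain ⟨W, hlt, hW⟩ := exists_set_code (φ.code + 1)
      {e | ∃ ψ : Fm, ψ.code = e ∧ ψ.SatT (st3 '' (setXYZ n m k T))}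
    have key : ∀ ψ : Fm, ψ.code < φ.code + 1 →
        (W.testBit ψ.code = true ↔ ψ.SatT (st3 '' (setXYZ n m k T))) := by
      intro ψ hs
      rw [hW]
      constructor
      · rintro ⟨-, χ, hr, hr'⟩
        rwa [fm_code_inj hr] at hr'
      · intro h'
        exact ⟨hs, ψ, rfl, h'⟩
    refine ⟨W, hlt, (key φ (Nat.lt_succ_self _)).2 h, fun e he => ?_⟩
    obtain ⟨ψ, rfl⟩ := fm_code_surj e
    refine (key ψ he).trans ?_
    exact (nuSat_FC_iff (P := fun i => W.testBit i = true) hQ ψ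
      (fun χ hχ => key χ (by omega))).symm

end Pool.Agent.Lib.MP_45c83f_lc.Dec
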