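import Pool.Agent.Lib.MP_45c83f_lc.NuBits

set_option autoImplicit false

/-!
# The type system of all codes of types over the cube
-/

namespace Pool.Agent.Lib.MP_45c83f_lc.Dec

private theorem nuTy_ch_lt {n v c : ℕ} (h : v.testBit (n + c) = true) : c < v := by
  have h1 : 2 ^ (n + c) ≤ v := Nat.ge_two_pow_of_testBit h
  have h2 : 2 ^ c ≤ 2 ^ (n + c) := Nat.pow_le_pow_right (by norm_num) (by omega)
  have h3 : c < 2 ^ c := Nat.lt_two_pow_self
  omega

private theorem nuTy_fwd {n v c : ℕ} (h : Ty n v) (hc : v.testBit (n + c) = true) :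
    Sb (Lb n v) (Lb n c) ∧ Lb n v ≠ Lb n c ∧ Ty n c := by
  obtain ⟨S, -, hSv, hS⟩ := h
  have hcv : c < v := nuTy_ch_lt hc
  obtain ⟨h1, h2, h3⟩ := hS v (Nat.lt_succ_self v) hSv c hcv hc
  refine ⟨h1, h2, S % 2 ^ (c + 1), Nat.mod_lt _ (by positivity), ?_, ?_⟩
  · rw [Nat.testBit_mod_two_pow]
    simp [h3]
  · intro u hu hSu d hd hdu
    rw [Nat.testBit_mod_two_pow] at hSu
    have hSu' : S.testBit u = true := by
      simp only [Bool.and_eq_true] at hSu
      exact hSu.2
    obtain ⟨h4, h5, h6⟩ := hS u (by omega) hSu' d hd hdu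
    refine ⟨h4, h5, ?_⟩
    rw [Nat.testBit_mod_two_pow]
    simp only [Bool.and_eq_true, decide_eq_true_eq]
    exact ⟨by omega, h6⟩

theorem ty_iff {n v : ℕ} : Ty n v ↔ ∀ c, v.testBit (n + c) = true →
    Sb (Lb n v) (Lb n c) ∧ Lb n v ≠ Lb n c ∧ Ty n c := by
  constructor
  · intro h c hc
    exact nuTy_fwd h hc
  · intro h
    obtain ⟨w, hw, hwb⟩ := exists_set_code (v + 1) {u | u = v ∨ Ty n u}
    refine ⟨w, hw, (hwb v).2 ⟨Nat.lt_succ_self v, Or.inl rfl⟩, ?_⟩
    intro u hu hwu c hcu hc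
    have key : Sb (Lb n u) (Lb n c) ∧ Lb n u ≠ Lb n c ∧ Ty n c := by
      rcases ((hwb u).1 hwu).2 with h1 | h1
      · rw [h1] at hc ⊢
        exact h c hc
      · exact nuTy_fwd h1 hc
    exact ⟨key.1, key.2.1, (hwb c).2 ⟨by omega, Or.inr key.2.2⟩⟩

/-- the number of zeros of the label -/
private def nuTy_rk (n v : ℕ) : ℕ := ((Finset.range n).filter fun i => v.testBit i = false).card

private theorem nuTy_rk_lt {n v c : ℕ} (h1 : Sb (Lb n v) (Lb n c)) (h2 : Lb n v ≠ Lb n c) :
    nuTy_rk n c < nuTy_rk n v := by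
  have hb : ∀ i < n, v.testBit i = true → c.testBit i = true := by
    intro i hi hv
    have h3 : (Lb n v).testBit i = true := by
      unfold Lb
      rw [Nat.testBit_mod_two_pow]
      simp [hi, hv]
    have h4 := h1 i (lt_of_lt_of_le Nat.lt_two_pow_self (Nat.ge_two_pow_of_testBit h3)) h3
    unfold Lb at h4
    rw [Nat.testBit_mod_two_pow] at h4
    simp only [Bool.and_eq_true] at h4
    exact h4.2
  have hex : ∃ i < n, v.testBit i = false ∧ c.testBit i = true := by
    by_contra hno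
    push Not at hno
    apply h2
    apply Nat.eq_of_testBit_eq
    intro i
    unfold Lb
    rw [Nat.testBit_mod_two_pow, Nat.testBit_mod_two_pow]
    by_cases hi : i < n
    · simp only [hi, decide_true, Bool.true_and]
      cases hv : v.testBit i with
      | true => exact (hb i hi hv).symm
      | false =>
        have h5 := hno i hi hv
        simpa using h5.symm
    · simp [hi]
  apply Finset.card_lt_card
  rw [Finset.ssubset_iff_of_subset]
  · obtain ⟨i, hi, hv, hc⟩ := hex
    refine ⟨i, ?_, ?_⟩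
    · simp [hi, hv]
    · simp [hc]
  · intro i hi
    simp only [Finset.mem_filter, Finset.mem_range] at hi ⊢
    refine ⟨hi.1, ?_⟩
    cases hv : v.testBit i with
    | false => rfl
    | true =>
      have h6 := hb i hi.1 hv
      rw [hi.2] at h6
      exact absurd h6 (by simp)

private theorem nuTy_lt_bdr (n r : ℕ) : ∀ v, Ty n v → nuTy_rk n v < r → v < bdr n r := by
  induction r with
  | zero => intro v _ h; exact absurd h (Nat.not_lt_zero _)
  | succ r ih =>
    intro v hv hr
    have h1 : v / 2 ^ n < 2 ^ bdr n r := by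
      apply Nat.lt_pow_two_of_testBit
      intro c hc
      by_contra hne
      have h2 : v.testBit (n + c) = true := by
        rw [Nat.testBit_div_two_pow] at hne
        rw [add_comm]
        simpa using hne
      obtain ⟨h3, h4, h5⟩ := nuTy_fwd hv h2
      have h6 := nuTy_rk_lt h3 h4
      have h7 := ih c h5 (by omega)
      omega
    have h8 : v < 2 ^ bdr n r * 2 ^ n := (Nat.div_lt_iff_lt_mul (by positivity)).1 h1
    show v < 2 ^ (n + bdr n r)
    rw [Nat.pow_add, mul_comm]
    exact h8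

theorem ty_lt_bd {n v : ℕ} (h : Ty n v) : v < bd n := by
  refine nuTy_lt_bdr n (n + 1) v h ?_
  have h1 : nuTy_rk n v ≤ n := by
    unfold nuTy_rk
    exact (Finset.card_filter_le _ _).trans_eq (Finset.card_range n)
  omega

/-- every child has a smaller code -/
theorem ch_lt {n v c : ℕ} (h : v.testBit (n + c) = true) : c < v := nuTy_ch_lt h

/-- a type system over the cube, with an enumeration of the codes -/
structure Enum (n : ℕ) where
  /-- the type system -/
  L : TSys (Fin n → Bool)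
  /-- the code of a node -/
  e : Fin L.K → ℕ
  inj : Function.Injective e
  ty : ∀ i, Ty n (e i)
  surj : ∀ v, Ty n v → ∃ i, e i = v
  lab : ∀ i, L.lab i = cube n (e i)
  ch : ∀ i c, c ∈ L.ch i ↔ (e i).testBit (n + e c) = true

private theorem nuTy_exists_code {n K : ℕ} {e : Fin K → ℕ} (hty : ∀ i, Ty n (e i))
    (hinj : Function.Injective e) (τ : Fin n → Bool) (C : Finset (Fin K))
    (hC : ∀ c ∈ C, τ < cube n (e c)) : ∃ v, Ty n v ∧ cube n v = τ ∧
      ∀ c, v.testBit (n + e c) = true ↔ c ∈ C := by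
  obtain ⟨w, -, hwb⟩ := exists_set_code (bd n) {x | ∃ c ∈ C, e c = x}
  have hbit : ∀ x, (cd τ + 2 ^ n * w).testBit (n + x) = w.testBit x := by
    intro x
    rw [testBit_pair (cd_lt τ), if_neg (by omega)]
    congr 1
    omega
  have hLb : Lb n (cd τ + 2 ^ n * w) = cd τ := by
    unfold Lb
    rw [Nat.add_mul_mod_self_left, Nat.mod_eq_of_lt (cd_lt τ)]
  have hcb : ∀ c, w.testBit (e c) = true ↔ c ∈ C := by
    intro c
    rw [hwb]
    constructor
    · rintro ⟨-, c', hc', he⟩
      exact hinj he ▸ hc'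
    · intro hc
      exact ⟨ty_lt_bd (hty c), c, hc, rfl⟩
  refine ⟨cd τ + 2 ^ n * w, ?_, ?_, ?_⟩
  · rw [ty_iff]
    intro x hx
    rw [hbit, hwb] at hx
    obtain ⟨-, c, hc, rfl⟩ := hx
    have h1 := hC c hc
    rw [← cube_Lb n (e c), ← cube_cd τ, cube_lt (cd_lt τ) (Lb_lt n _)] at h1
    rw [hLb]
    exact ⟨h1.1, h1.2, hty c⟩
  · rw [← cube_Lb, hLb, cube_cd]
  · intro c
    rw [hbit, hcb]

theorem exists_enum (n : ℕ) : Nonempty (Enum n) := by
  classical
  obtain ⟨A, hA⟩ : ∃ A : Finset ℕ, A = (Finset.range (bd n)).filter (Ty n) := ⟨_, rfl⟩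
  have hmem : ∀ v, v ∈ A ↔ Ty n v := by
    intro v
    rw [hA, Finset.mem_filter, Finset.mem_range]
    exact ⟨fun h => h.2, fun h => ⟨ty_lt_bd h, h⟩⟩
  obtain ⟨e, he⟩ : ∃ e : Fin A.card → ℕ, e = A.orderEmbOfFin rfl := ⟨_, rfl⟩
  have hinj : Function.Injective e := by
    rw [he]
    exact (A.orderEmbOfFin rfl).injective
  have hty : ∀ i, Ty n (e i) := by
    intro i
    rw [← hmem, he]
    exact A.orderEmbOfFin_mem rfl i
  have hsurj : ∀ v, Ty n v → ∃ i, e i = v := by
    intro v hv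
    have h1 : v ∈ Set.range (A.orderEmbOfFin rfl) := by
      rw [Finset.range_orderEmbOfFin]
      exact (hmem v).2 hv
    obtain ⟨i, hi⟩ := h1
    exact ⟨i, by rw [he]; exact hi⟩
  have hch : ∀ (i c : Fin A.card), c ∈ (Finset.univ.filter fun c : Fin A.card =>
      (e i).testBit (n + e c) = true) ↔ (e i).testBit (n + e c) = true := by
    intro i c
    simp
  refine ⟨{ L := ?_, e := ?_, inj := ?_, ty := ?_, surj := ?_, lab := ?_, ch := ?_ }⟩
  · refine ⟨A.card, fun i => cube n (e i), fun i => Finset.univ.filter fun c : Fin A.card =>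
      (e i).testBit (n + e c) = true, ?_, ?_, ?_⟩
    · intro v c hc
      obtain ⟨h1, h2, -⟩ := nuTy_fwd (hty v) ((hch v c).1 hc)
      rw [← cube_Lb n (e v), ← cube_Lb n (e c), cube_lt (Lb_lt n _) (Lb_lt n _)]
      exact ⟨h1, h2⟩
    · intro τ C hC
      obtain ⟨v, hv, h1, h2⟩ := nuTy_exists_code hty hinj τ C hC
      obtain ⟨i, rfl⟩ := hsurj v hv
      refine ⟨i, h1, ?_⟩
      ext c
      rw [hch, h2]
    · intro v w h1 h2
      apply hinj
      have key : ∀ c, (e v).testBit (n + c) = true ↔ (e w).testBit (n + c) = true := by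
        intro c
        constructor
        · intro h3
          obtain ⟨j, rfl⟩ := hsurj c (nuTy_fwd (hty v) h3).2.2
          exact (hch w j).1 (h2 ▸ (hch v j).2 h3)
        · intro h3
          obtain ⟨j, rfl⟩ := hsurj c (nuTy_fwd (hty w) h3).2.2
          exact (hch v j).1 (h2.symm ▸ (hch w j).2 h3)
      apply Nat.eq_of_testBit_eq
      intro i
      by_cases hi : i < n
      · exact congrFun h1 ⟨i, hi⟩
      · obtain ⟨c, rfl⟩ : ∃ c, i = n + c := ⟨i - n, by omega⟩
        exact Bool.eq_iff_iff.2 (key c)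
  · exact e
  · exact hinj
  · exact hty
  · exact hsurj
  · intro i
    rfl
  · intro i c
    exact hch i c

namespace Enum

variable {n : ℕ} (E : Enum n)

theorem lt_bd (i : Fin E.L.K) : E.e i < bd n := ty_lt_bd (E.ty i)

/-- the children of a node are the numbers given by the bits of its code -/
theorem exists_ch {i : Fin E.L.K} {c : ℕ} (h : (E.e i).testBit (n + c) = true) :
    ∃ j ∈ E.L.ch i, E.e j = c := by
  obtain ⟨j, rfl⟩ := E.surj c (nuTy_fwd (E.ty i) h).2.2
  exact ⟨j, (E.ch i j).2 h, rfl⟩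

theorem ch_eq_empty_iff (i : Fin E.L.K) : E.L.ch i = ∅ ↔ E.e i < 2 ^ n := by
  constructor
  · intro h
    apply Nat.lt_pow_two_of_testBit
    intro x hx
    by_contra hne
    obtain ⟨c, rfl⟩ : ∃ c, x = n + c := ⟨x - n, by omega⟩
    obtain ⟨j, hj, -⟩ := E.exists_ch (i := i) (c := c) (by simpa using hne)
    rw [h] at hj
    exact absurd hj (Finset.notMem_empty j)
  · intro h
    apply Finset.eq_empty_of_forall_notMem
    intro j hj
    have h1 : 2 ^ (n + E.e j) ≤ E.e i := Nat.ge_two_pow_of_testBit ((E.ch i j).1 hj)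
    have h2 : 2 ^ n ≤ 2 ^ (n + E.e j) := Nat.pow_le_pow_right (by norm_num) (by omega)
    omega

/-- the forest with code `S` -/
def forest (S : ℕ) : Finset (Fin E.L.K) := Finset.univ.filter fun i => S.testBit (E.e i) = true

theorem mem_forest {S : ℕ} {i : Fin E.L.K} : i ∈ E.forest S ↔ S.testBit (E.e i) = true := by
  simp [forest]

theorem exists_forest (S : Finset (Fin E.L.K)) : ∃ w < 2 ^ bd n,
    (∀ v < bd n, w.testBit v = true → Ty n v) ∧ E.forest w = S := by
  obtain ⟨w, hw, hwb⟩ := exists_set_code (bd n) {x | ∃ i ∈ S, E.e i = x}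
  refine ⟨w, hw, ?_, ?_⟩
  · intro v _ hv
    obtain ⟨-, i, -, rfl⟩ := (hwb v).1 hv
    exact E.ty i
  · ext i
    rw [mem_forest, hwb]
    constructor
    · rintro ⟨-, j, hj, he⟩
      exact E.inj he ▸ hj
    · intro hi
      exact ⟨E.lt_bd i, i, hi, rfl⟩

/-- the function on the nodes with code `h` -/
def funY (m h : ℕ) : Fin E.L.K → Fin m → Bool := fun i => cube m (dg m h (E.e i))

theorem exists_funY {m : ℕ} (h : Fin E.L.K → Fin m → Bool) :
    ∃ w < 2 ^ (m * bd n), E.funY m w = h := by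
  classical
  obtain ⟨f, hf⟩ : ∃ f : ℕ → ℕ, f = fun x =>
      if hx : ∃ i, E.e i = x then cd (h hx.choose) else 0 := ⟨_, rfl⟩
  have hfe : ∀ i, f (E.e i) = cd (h i) := by
    intro i
    have hx : ∃ j, E.e j = E.e i := ⟨i, rfl⟩
    rw [hf]
    simp only [dif_pos hx]
    rw [E.inj hx.choose_spec]
  have hlt : ∀ x < bd n, f x < 2 ^ m := by
    intro x _
    rw [hf]
    by_cases hx : ∃ i, E.e i = x
    · simp only [dif_pos hx]
      exact cd_lt _
    · simp only [dif_neg hx]
      positivity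
  obtain ⟨w, hw, hd⟩ := exists_fun_code m (bd n) f hlt
  refine ⟨w, hw, ?_⟩
  funext i
  show cube m (dg m w (E.e i)) = h i
  rw [hd _ (E.lt_bd i), hfe, cube_cd]

end Enum

end Pool.Agent.Lib.MP_45c83f_lc.Dec
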