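import Pool.Agent.Lib.MP_45c83f_lc.NuNode
import Pool.Agent.Lib.MP_45c83f_lc.NuEW

set_option autoImplicit false

/-!
# Valid data and the winning condition
-/

namespace Pool.Agent.Lib.MP_45c83f_lc.Dec.Enum

variable {n : ℕ} (E : Enum n)

private theorem rch_mp {m I b a : ℕ} (hb : b < 2 ^ m) (ha : a < 2 ^ m) (s v : Fin E.L.K)
    (h : Relation.ReflTransGen (E.L.Step (setXY n m I)) (s, cube m b) (v, cube m a)) :
    RchN n m (bd n) I (E.e s) b (E.e v) a := by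
  intro R _ hstart hclosed
  have key : ∀ x : Fin E.L.K × (Fin m → Bool),
      Relation.ReflTransGen (E.L.Step (setXY n m I)) (s, cube m b) x →
      R.testBit (2 ^ m * E.e x.1 + cd x.2) = true := by
    intro x hx
    induction hx with
    | refl =>
      rw [cd_cube hb]
      exact hstart
    | @tail y z _ hyz ih =>
      obtain ⟨h1, h2, h3⟩ := hyz
      refine hclosed (E.e y.1) (E.lt_bd y.1) (cd y.2) (cd_lt _) ih (E.e z.1) (E.lt_bd z.1)
        ((E.ch y.1 z.1).1 h1) (cd z.2) (cd_lt _) ?_ ?_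
      · rw [← cube_le (cd_lt _), cube_cd, cube_cd]
        exact h2
      · rw [← E.comp_iff (cd_lt _) z.1, cube_cd]
        exact h3
  have h1 := key _ h
  rw [cd_cube ha] at h1
  exact h1

theorem rch_iff {m I b a : ℕ} (hb : b < 2 ^ m) (ha : a < 2 ^ m) (s v : Fin E.L.K) :
    Relation.ReflTransGen (E.L.Step (setXY n m I)) (s, cube m b) (v, cube m a) ↔
      RchN n m (bd n) I (E.e s) b (E.e v) a := by
  refine ⟨E.rch_mp hb ha s v, ?_⟩
  intro h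
  obtain ⟨R, hR, hRb⟩ := exists_set_code (2 ^ m * bd n)
    {w | ∃ (i' : Fin E.L.K) (b' : ℕ), b' < 2 ^ m ∧ w = 2 ^ m * E.e i' + b' ∧
      Relation.ReflTransGen (E.L.Step (setXY n m I)) (s, cube m b) (i', cube m b')}
  have h1 := h R hR ((hRb _).2 ⟨pair_lt hb (E.lt_bd s), s, b, hb, rfl, .refl⟩) (by
    intro u _ d hd hud c _ hc d' hd' hs hcomp
    obtain ⟨-, i', b', hb', he, hr⟩ := (hRb _).1 hud
    obtain ⟨rfl, rfl⟩ := pair_inj hd hb' he
    obtain ⟨j, hj, rfl⟩ := E.exists_ch hc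
    refine (hRb _).2 ⟨pair_lt hd' (E.lt_bd j), j, d', hd', rfl, hr.tail ⟨hj, ?_, ?_⟩⟩
    · exact (cube_le hd d').2 hs
    · exact (E.comp_iff hd' j).2 hcomp)
  obtain ⟨-, i', b', hb', he, hr⟩ := (hRb _).1 h1
  obtain ⟨h2, rfl⟩ := pair_inj ha hb' he
  rw [E.inj h2]
  exact hr

/-- only codes of types are reachable -/
theorem ty_of_rch {m I s b v a : ℕ} (hs : Ty n s) (ha : a < 2 ^ m) (hb : b < 2 ^ m)
    (h : RchN n m (bd n) I s b v a) : Ty n v := by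
  obtain ⟨R, hR, hRb⟩ := exists_set_code (2 ^ m * bd n)
    {w | ∃ u d : ℕ, d < 2 ^ m ∧ w = 2 ^ m * u + d ∧ Ty n u}
  have h1 := h R hR ((hRb _).2 ⟨pair_lt hb (ty_lt_bd hs), s, b, hb, rfl, hs⟩) (by
    intro u _ d hd hud c _ hc d' hd' _ _
    obtain ⟨-, u', b', hb', he, ht⟩ := (hRb _).1 hud
    obtain ⟨rfl, rfl⟩ := pair_inj hd hb' he
    have ht' := (ty_iff.1 ht c hc).2.2
    exact (hRb _).2 ⟨pair_lt hd' (ty_lt_bd ht'), c, d', hd', rfl, ht'⟩)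
  obtain ⟨-, u, d, hd, he, ht⟩ := (hRb _).1 h1
  obtain ⟨rfl, -⟩ := pair_inj ha hd he
  exact ht

private theorem nuVal_Lb {a : ℕ} (ha : a < 2 ^ n) : Lb n a = a := Nat.mod_eq_of_lt ha

private theorem nuVal_lab {a : ℕ} (ha : a < 2 ^ n) (v : Fin E.L.K) :
    E.L.lab v = cube n a ↔ Lb n (E.e v) = a := by
  rw [E.lab, ← cube_Lb n (E.e v), cube_inj (Lb_lt _ _) ha]

theorem valid_iff {m S I h : ℕ} (hS : ∀ v < bd n, S.testBit v = true → Ty n v) :
    E.L.Valid (E.forest S) (setXY n m I) (E.funY m h) ↔ ValidN n m (bd n) S I h := by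
  constructor
  · rintro ⟨h1, h2⟩
    refine ⟨?_, ?_⟩
    · intro s hs hsS
      obtain ⟨i, rfl⟩ := E.surj s (hS s hs hsS)
      exact (E.comp_iff (dg_lt _ _ _) i).1 (h1 i (E.mem_forest.2 hsS))
    · intro a ha b hb hI
      rcases h2 (cube n a) (cube m b) ((mem_setXY hb).2 (by rw [nuVal_Lb ha]; exact hI)) with
        h3 | ⟨s, hs, v, hv, hl⟩
      · exact Or.inl ((E.leafLab_iff hS ha).1 h3)
      · refine Or.inr ⟨E.e s, E.lt_bd s, E.mem_forest.1 hs, E.e v, E.lt_bd v,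
          (E.nuVal_lab ha v).1 hl, (E.rch_iff (dg_lt _ _ _) hb s v).1 hv⟩
  · rintro ⟨h1, h2⟩
    refine ⟨?_, ?_⟩
    · intro s hs
      exact (E.comp_iff (dg_lt _ _ _) s).2 (h1 _ (E.lt_bd s) (E.mem_forest.1 hs))
    · intro τ η hI
      obtain ⟨a, ha, rfl⟩ : ∃ a < 2 ^ n, cube n a = τ := ⟨cd τ, cd_lt τ, cube_cd τ⟩
      obtain ⟨b, hb, rfl⟩ : ∃ b < 2 ^ m, cube m b = η := ⟨cd η, cd_lt η, cube_cd η⟩
      have hI' := (mem_setXY hb).1 hI
      rw [nuVal_Lb ha] at hI'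
      rcases h2 a ha b hb hI' with h3 | ⟨s, hs, hsS, v, hv, hl, hr⟩
      · exact Or.inl ((E.leafLab_iff hS ha).2 h3)
      · obtain ⟨i, rfl⟩ := E.surj s (hS s hs hsS)
        obtain ⟨j, rfl⟩ := E.surj v (ty_of_rch (E.ty i) hb (dg_lt _ _ _) hr)
        refine Or.inr ⟨i, E.mem_forest.2 hsS, j, ?_, (E.nuVal_lab ha j).2 hl⟩
        exact (E.rch_iff (dg_lt _ _ _) hb i j).2 hr

private theorem nuVal_T {m k T : ℕ} {b c : ℕ} (hb : b < 2 ^ m) (hc : c < 2 ^ k)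
    (i : Fin E.L.K) : (E.L.lab i, cube m b, cube k c) ∈ setXYZ n m k T ↔
      T.testBit (Lb n (E.e i) + 2 ^ n * b + 2 ^ (n + m) * c) = true := by
  rw [E.lab]
  exact mem_setXYZ hb hc

theorem win_iff {m k S I h T : ℕ} (hS : ∀ v < bd n, S.testBit v = true → Ty n v) :
    E.L.Win (E.forest S) (setXY n m I) (E.funY m h) (setXYZ n m k T) ↔
      WinN n m k (bd n) S I h T := by
  constructor
  · rintro ⟨h1, h2⟩
    refine ⟨?_, ?_⟩
    · intro a ha hN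
      obtain ⟨i, rfl⟩ := E.surj a (ty_of_node hS hN)
      have h3 := h1 i ((E.node_iff hS i).2 hN) ((E.ch_eq_empty_iff i).2 ha)
      rw [← cube_zero m, ← cube_zero k] at h3
      exact (E.ew_iff (Nat.two_pow_pos m) (Nat.two_pow_pos k) i).1 h3
    · intro s hs hsS hsn
      obtain ⟨i, rfl⟩ := E.surj s (hS s hs hsS)
      obtain ⟨ζ, h3, h4⟩ := h2 i (E.mem_forest.2 hsS)
        (fun h5 => absurd ((E.ch_eq_empty_iff i).1 h5) (not_lt.2 hsn))
      obtain ⟨c, hc, rfl⟩ : ∃ c < 2 ^ k, cube k c = ζ := ⟨cd ζ, cd_lt ζ, cube_cd ζ⟩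
      refine ⟨c, hc, (E.nuVal_T (dg_lt _ _ _) hc i).1 h3, ?_⟩
      intro w _ hw
      obtain ⟨j, hj, rfl⟩ := E.exists_ch hw
      exact (E.ew_iff (dg_lt _ _ _) hc j).1 (h4 j hj)
  · rintro ⟨h1, h2⟩
    refine ⟨?_, ?_⟩
    · intro v hv hch
      rw [← cube_zero m, ← cube_zero k]
      exact (E.ew_iff (Nat.two_pow_pos m) (Nat.two_pow_pos k) v).2
        (h1 (E.e v) ((E.ch_eq_empty_iff v).1 hch) ((E.node_iff hS v).1 hv))
    · intro s hs hch
      obtain ⟨c, hc, h3, h4⟩ := h2 (E.e s) (E.lt_bd s) (E.mem_forest.1 hs)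
        (not_lt.1 fun h5 => hch ((E.ch_eq_empty_iff s).2 h5))
      refine ⟨cube k c, (E.nuVal_T (dg_lt _ _ _) hc s).2 h3, ?_⟩
      intro w hw
      exact (E.ew_iff (dg_lt _ _ _) hc w).2 (h4 (E.e w) (E.lt_bd w) ((E.ch s w).1 hw))

end Pool.Agent.Lib.MP_45c83f_lc.Dec.Enum
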