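import Pool.Agent.Lib.MP_45c83f_lc.PathDef

set_option autoImplicit false

/-!
# Path systems: basic facts
-/

namespace Pool.Agent.Lib.MP_45c83f_lc

namespace TSys

variable {X : Type} [PartialOrder X] {L : TSys X} {S : Finset (Fin L.K)}

namespace PathSys

variable (P : L.PathSys S)

/-- The position changes only together with a strict increase of the label. -/
private theorem PathA_lab_lt (e t w : ℕ) (h : t ≤ w) : P.pth e w = P.pth e t ∨
    L.lab (P.nd (P.pth e t)) < L.lab (P.nd (P.pth e w)) := by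
  induction w, h using Nat.le_induction with
  | base => exact Or.inl rfl
  | succ w _ ih =>
    rcases P.step e w with h1 | ⟨c, hc, h1⟩
    · rw [h1]; exact ih
    · right
      have h2 : L.lab (P.nd (P.pth e w)) < L.lab (P.nd (P.pth e (w + 1))) := by
        rw [h1, P.nd_kid _ c hc]
        exact L.lt_ch _ c hc
      rcases ih with ih | ih
      · rw [ih] at h2; exact h2
      · exact ih.trans h2

private theorem PathA_kid_ne {q : Fin P.N} {c : Fin L.K} (hc : c ∈ L.ch (P.nd q)) :
    P.kid q c ≠ q := by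
  intro h
  have h1 := L.lt_ch _ c hc
  have h2 := P.nd_kid q c hc
  rw [h] at h2
  rw [h2] at h1
  exact lt_irrefl _ h1

/-- The final position. -/
theorem exists_D (e : ℕ) : ∃ q, e ∈ P.D q := by
  obtain ⟨m, hm⟩ := ((Set.toFinite (Set.range (P.pth e))).image
    (fun q => L.lab (P.nd q))).exists_maximal
      ((Set.range_nonempty (P.pth e)).image _)
  obtain ⟨q, ⟨s, rfl⟩, hq⟩ := hm.1
  refine ⟨P.pth e s, s, fun u hu => ?_⟩
  rcases P.PathA_lab_lt e s u hu with h | h
  · exact h
  · exfalso
    have h3 : L.lab (P.nd (P.pth e u)) ∈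
        (fun q => L.lab (P.nd q)) '' (Set.range (P.pth e)) := ⟨_, ⟨u, rfl⟩, rfl⟩
    have h4 : m ≤ L.lab (P.nd (P.pth e u)) := by
      rw [← hq]; exact h.le
    have h5 := hm.2 h3 h4
    rw [← hq] at h5
    exact absurd (lt_of_lt_of_le h h5) (lt_irrefl _)

/-- The final position. -/
noncomputable def lim (e : ℕ) : Fin P.N := Classical.choose (P.exists_D e)

/-- The final state. -/
noncomputable def st (e : ℕ) : X := L.lab (P.nd (P.lim e))

private theorem PathA_lim_spec (e : ℕ) : e ∈ P.D (P.lim e) := Classical.choose_spec (P.exists_D e)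

theorem mem_D_iff {e : ℕ} {q : Fin P.N} : e ∈ P.D q ↔ P.lim e = q := by
  constructor
  · rintro ⟨t, ht⟩
    obtain ⟨u, hu⟩ := P.PathA_lim_spec e
    rw [← hu (max t u) (le_max_right _ _), ht (max t u) (le_max_left _ _)]
  · intro h
    rw [← h]
    exact P.PathA_lim_spec e

theorem D_sub_B (q : Fin P.N) : P.D q ⊆ P.B q := by
  rintro e ⟨t, ht⟩
  exact ⟨t, ht t le_rfl⟩

/-- The numbers at a position come from a root. -/
theorem exists_root (e : ℕ) : ∃ q, P.rt q = true ∧ e ∈ P.B q ∧
    ∀ q', P.rt q' = true → e ∈ P.B q' → q' = q := by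
  have key : ∀ t, P.pth e t = P.pth e 0 ∨ P.rt (P.pth e t) = false := by
    intro t
    induction t with
    | zero => exact Or.inl rfl
    | succ t ih =>
      rcases P.step e t with h1 | ⟨c, hc, h1⟩
      · rw [h1]; exact ih
      · right
        rw [h1]
        exact P.rt_kid _ c hc
  refine ⟨P.pth e 0, P.zero e, ⟨0, rfl⟩, ?_⟩
  rintro q' hq' ⟨t, rfl⟩
  rcases key t with h | h
  · exact h
  · rw [h] at hq'
    exact absurd hq' (by simp)

theorem node_nd (q : Fin P.N) : L.Node S (P.nd q) := by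
  have wf : WellFounded (fun a b : Fin P.N => L.lab (P.nd a) < L.lab (P.nd b)) := by
    have : IsTrans (Fin P.N) (fun a b => L.lab (P.nd a) < L.lab (P.nd b)) :=
      ⟨fun a b c h1 h2 => lt_trans h1 h2⟩
    have : Std.Irrefl (fun a b : Fin P.N => L.lab (P.nd a) < L.lab (P.nd b)) :=
      ⟨fun a => lt_irrefl _⟩
    exact Finite.wellFounded_of_trans_of_irrefl _
  induction q using wf.induction with
  | h q ih =>
    by_cases hq : P.rt q = true
    · exact ⟨P.nd q, P.rt_nd q hq, Or.inl rfl⟩
    · have hq' : P.rt q = false := by simpa using hq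
      obtain ⟨q', c, hc, h⟩ := P.par q hq'
      have h1 : P.nd q = c := by rw [← h]; exact P.nd_kid q' c hc
      have h2 : L.lab (P.nd q') < L.lab (P.nd q) := by
        rw [h1]; exact L.lt_ch _ c hc
      obtain ⟨s, hs, h3⟩ := ih q' h2
      refine ⟨s, hs, Or.inr ?_⟩
      rw [h1]
      rcases h3 with h3 | h3
      · rw [h3]
        exact Relation.TransGen.single hc
      · exact Relation.TransGen.tail h3 hc

/-- Every node of the forest is the node of a position. -/
theorem exists_pos {v : Fin L.K} (hv : L.Node S v) : ∃ q, P.nd q = v := by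
  obtain ⟨s, hs, h⟩ := hv
  obtain ⟨q, -, hq⟩ := P.rt_ex s hs
  rcases h with h | h
  · exact ⟨q, by rw [hq, h]⟩
  · unfold Desc at h
    induction h with
    | single h =>
      rename_i b
      refine ⟨P.kid q b, P.nd_kid q b ?_⟩
      rw [hq]; exact h
    | tail h0 h ih =>
      rename_i b c
      obtain ⟨q', hq'⟩ := ih
      refine ⟨P.kid q' c, P.nd_kid q' c ?_⟩
      rw [hq']; exact h

/-- A number which is at a child position was at the parent position before. -/
theorem B_kid {q : Fin P.N} {c : Fin L.K} (hc : c ∈ L.ch (P.nd q)) {e t : ℕ}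
    (h : P.pth e t = P.kid q c) : ∃ u, u < t ∧ P.pth e u = q ∧ P.pth e (u + 1) = P.kid q c := by
  induction t with
  | zero =>
    exfalso
    have h1 := P.zero e
    rw [h, P.rt_kid q c hc] at h1
    exact absurd h1 (by simp)
  | succ t ih =>
    by_cases h0 : P.pth e t = P.kid q c
    · obtain ⟨u, hu, h1, h2⟩ := ih h0
      exact ⟨u, by omega, h1, h2⟩
    · rcases P.step e t with h1 | ⟨d, hd, h1⟩
      · exfalso
        rw [h1] at h
        exact h0 h
      · refine ⟨t, Nat.lt_succ_self t, ?_, h⟩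
        refine P.kid_inj _ _ d c hd hc ?_
        rw [← h1, h]

/-- A number which has left a position never comes back. -/
theorem between {e t u w : ℕ} {q : Fin P.N} (h : P.pth e t = q) (h' : P.pth e u = q)
    (htw : t ≤ w) (hwu : w ≤ u) : P.pth e w = q := by
  rcases P.PathA_lab_lt e t w htw with h1 | h1
  · rw [h1, h]
  · rcases P.PathA_lab_lt e w u hwu with h2 | h2
    · rw [← h2, h']
    · exfalso
      have h3 := h1.trans h2
      rw [h, h'] at h3
      exact lt_irrefl _ h3

theorem mem_B_iff {e : ℕ} {q : Fin P.N} : e ∈ P.B q ↔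
    e ∈ P.D q ∨ ∃ c ∈ L.ch (P.nd q), e ∈ P.B (P.kid q c) := by
  constructor
  · rintro ⟨t, ht⟩
    by_cases hD : e ∈ P.D q
    · exact Or.inl hD
    · right
      -- a stage after `t` where the position changes
      by_contra hne
      apply hD
      refine ⟨t, fun u hu => ?_⟩
      induction u, hu using Nat.le_induction with
      | base => exact ht
      | succ u _ ih =>
        rcases P.step e u with h1 | ⟨c, hc, h1⟩
        · rw [h1]; exact ih
        · exfalso
          rw [ih] at hc h1
          exact hne ⟨c, hc, u + 1, h1⟩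
  · rintro (h | ⟨c, hc, t, ht⟩)
    · exact P.D_sub_B q h
    · obtain ⟨u, -, hu, -⟩ := P.B_kid hc ht
      exact ⟨u, hu⟩

theorem not_D_kid {e : ℕ} {q : Fin P.N} {c : Fin L.K} (hc : c ∈ L.ch (P.nd q))
    (h : e ∈ P.B (P.kid q c)) : e ∉ P.D q := by
  rintro ⟨s, hs⟩
  obtain ⟨t, ht⟩ := h
  obtain ⟨u, hu, h1, h2⟩ := P.B_kid hc ht
  have h3 := P.between (t := u) (u := max s t) (w := t) h1 (hs _ (le_max_left _ _)) hu.le
    (le_max_right _ _)
  rw [ht] at h3
  exact P.PathA_kid_ne hc h3

theorem disj_kid {e : ℕ} {q : Fin P.N} {c d : Fin L.K} (hc : c ∈ L.ch (P.nd q))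
    (hd : d ∈ L.ch (P.nd q)) (h : e ∈ P.B (P.kid q c)) (h' : e ∈ P.B (P.kid q d)) : c = d := by
  obtain ⟨t, ht⟩ := h
  obtain ⟨t', ht'⟩ := h'
  obtain ⟨u, -, h1, h2⟩ := P.B_kid hc ht
  obtain ⟨u', -, h1', h2'⟩ := P.B_kid hd ht'
  have huu : u = u' := by
    rcases lt_trichotomy u u' with hlt | heq | hgt
    · exfalso
      have h3 := P.between (w := u + 1) h1 h1' (Nat.le_succ u) hlt
      rw [h2] at h3
      exact P.PathA_kid_ne hc h3
    · exact heq
    · exfalso
      have h3 := P.between (w := u' + 1) h1' h1 (Nat.le_succ u') hgt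
      rw [h2'] at h3
      exact P.PathA_kid_ne hd h3
  subst huu
  rw [h2] at h2'
  rw [← P.nd_kid q c hc, ← P.nd_kid q d hd, h2']

theorem B_re (q : Fin P.N) : RESet (P.B q) := by
  refine RESet.of_exists (R := fun e t => P.pth e t = q) ?_ (fun e => Iff.rfl)
  have h1 : PrimrecPred fun p : ℕ × ℕ => P.pth p.1 p.2 = q :=
    PrimrecRel.comp Primrec.eq P.prim (Primrec.const q)
  exact h1

/-- The state is an r.e. function. -/
theorem st_re [Finite X] [Primcodable X] : RE P.st := by
  refine ⟨fun e t => L.lab (P.nd (P.pth e t)), ⟨?_, ?_⟩, ?_⟩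
  · exact (Primrec.dom_finite fun q : Fin P.N => L.lab (P.nd q)).comp P.prim
  · intro e s t hst
    rcases P.PathA_lab_lt e s t hst with h | h
    · simp only [h]; exact le_rfl
    · exact h.le
  · intro e
    obtain ⟨s, hs⟩ := P.PathA_lim_spec e
    refine ⟨s, fun t ht => ?_⟩
    simp only [st, hs t ht]

theorem st_inf (hP : P.Good) {τ : X} (hτ : L.LabF S τ) : {e | P.st e = τ}.Infinite := by
  obtain ⟨v, hv, hl⟩ := hτ
  obtain ⟨q, hq⟩ := P.exists_pos hv
  refine (hP.inf q).mono fun e he => ?_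
  have h := P.mem_D_iff.1 he
  simp only [Set.mem_ofPred_eq, st, h, hq, hl]

theorem st_mem (e : ℕ) : L.LabF S (P.st e) := ⟨P.nd (P.lim e), P.node_nd _, rfl⟩

end PathSys

end TSys

end Pool.Agent.Lib.MP_45c83f_lc
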