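import Pool.Agent.Lib.MP_45c83f_lc.PathA
import Pool.Agent.Lib.MP_45c83f_lc.Facts

set_option autoImplicit false

/-!
# Path systems: compliance (text, 4.2)
-/

namespace Pool.Agent.Lib.MP_45c83f_lc

namespace TSys

variable {X Y : Type} [PartialOrder X] [Finite X] [Primcodable X] [PartialOrder Y] [Finite Y]
  [Primcodable Y] {L : TSys X} {S : Finset (Fin L.K)}

namespace PathSys

variable {P : L.PathSys S} {g : ℕ → Y}

/-- Pigeonhole. -/
private theorem PathB_pigeon {Y : Type} [Finite Y] {g : ℕ → Y} {A : Set ℕ} (hA : A.Infinite) :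
    ∃ η, {e | e ∈ A ∧ g e = η}.Infinite := by
  by_contra hcon
  push Not at hcon
  apply hA
  refine (Set.finite_iUnion (f := fun η : Y => {e | e ∈ A ∧ g e = η}) hcon).subset ?_
  intro e he
  exact Set.mem_iUnion.mpr ⟨g e, he, rfl⟩

/-- A cohesive set: the function is constant up to finitely many exceptions. -/
private theorem PathB_const (hg : RE g) {A : Set ℕ} (hA : A.Infinite)
    (hc : ∀ W : Set ℕ, RESet W → (W ∩ A).Finite ∨ (A \ W).Finite) :
    ∃ η, {e | e ∈ A ∧ g e ≠ η}.Finite := by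
  classical
  have h1 : ∀ η : Y, ∃ F : Set ℕ, F.Finite ∧ ∀ e e', e ∈ A → e' ∈ A → e ∉ F → e' ∉ F →
      η ≤ g e → η ≤ g e' := by
    intro η
    rcases hc _ (hg.reSet η) with h | h
    · exact ⟨_, h, fun e e' he _ hn _ hle => absurd ⟨hle, he⟩ hn⟩
    · refine ⟨_, h, fun e e' _ he' _ hn' _ => ?_⟩
      by_contra hcon
      exact hn' ⟨he', hcon⟩
  choose F hF h2 using h1
  have hfin : (⋃ η, F η).Finite := Set.finite_iUnion hF
  obtain ⟨e0, he0, hn0⟩ := (hA.sdiff hfin).nonempty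
  refine ⟨g e0, hfin.subset ?_⟩
  rintro e ⟨he, hne⟩
  by_contra hn
  apply hne
  have h3 : ∀ η, e ∉ F η := fun η h => hn (Set.mem_iUnion.mpr ⟨η, h⟩)
  have h4 : ∀ η, e0 ∉ F η := fun η h => hn0 (Set.mem_iUnion.mpr ⟨η, h⟩)
  exact le_antisymm (h2 (g e) e e0 he he0 (h3 _) (h4 _) le_rfl)
    (h2 (g e0) e0 e he0 he (h4 _) (h3 _) le_rfl)

/-- The value of a single root position. -/
private theorem PathB_root (hP : P.Good) (hg : RE g) (q : Fin P.N) (hq : P.rt q = true) :
    ∃ η, (P.NL q → {e | e ∈ P.D q ∧ g e ≠ η}.Finite) ∧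
      {e | e ∈ P.D q ∧ g e = η}.Infinite := by
  by_cases hn : P.NL q
  · obtain ⟨η, hη⟩ := PathB_const hg (hP.inf q) (hP.coh q hq hn)
    refine ⟨η, fun _ => hη, fun hfin => hP.inf q ?_⟩
    refine (hη.union hfin).subset ?_
    intro e he
    by_cases h : g e = η
    · exact Or.inr ⟨he, h⟩
    · exact Or.inl ⟨he, h⟩
  · obtain ⟨η, hη⟩ := PathB_pigeon (g := g) (hP.inf q)
    exact ⟨η, fun h => absurd h hn, hη⟩

/-- The root values. -/
theorem exists_rootVal (hP : P.Good) (hg : RE g) : ∃ h : Fin L.K → Y,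
    (∀ q, P.rt q = true → P.NL q → {e | e ∈ P.D q ∧ g e ≠ h (P.nd q)}.Finite) ∧
    ∀ q, P.rt q = true → {e | e ∈ P.D q ∧ g e = h (P.nd q)}.Infinite := by
  have key : ∀ v : Fin L.K, ∃ η : Y, ∀ q, P.rt q = true → P.nd q = v →
      (P.NL q → {e | e ∈ P.D q ∧ g e ≠ η}.Finite) ∧
        {e | e ∈ P.D q ∧ g e = η}.Infinite := by
    intro v
    by_cases hv : ∃ q, P.rt q = true ∧ P.nd q = v
    · obtain ⟨q, hq, hqv⟩ := hv
      obtain ⟨η, h1, h2⟩ := PathB_root hP hg q hq
      refine ⟨η, fun q' hq' hqv' => ?_⟩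
      obtain rfl := P.rt_inj q q' hq hq' (hqv.trans hqv'.symm)
      exact ⟨h1, h2⟩
    · exact ⟨g 0, fun q hq hqv => absurd ⟨q, hq, hqv⟩ hv⟩
  choose h hh using key
  exact ⟨h, fun q hq hn => (hh _ q hq rfl).1 hn, fun q hq => (hh _ q hq rfl).2⟩

/-- (4.2) -/
theorem comp_of_inf (hP : P.Good) (hg : RE g) {q : Fin P.N} {η : Y}
    (hi : {e | e ∈ P.D q ∧ g e = η}.Infinite) : L.Comp (InfSt P.st g) (P.nd q) η := by
  have key : ∀ (x : X) (q : Fin P.N) (η : Y), L.lab (P.nd q) = x →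
      {e | e ∈ P.D q ∧ g e = η}.Infinite → L.Comp (InfSt P.st g) (P.nd q) η := by
    intro x
    induction x using WellFoundedGT.induction with
    | ind x ih =>
      intro q η hx hi
      refine comp_iff.2 ⟨?_, fun c hc => ?_⟩
      · refine hi.mono ?_
        rintro e ⟨he, hge⟩
        have h1 : P.lim e = q := P.mem_D_iff.1 he
        show (P.st e, g e) = (L.lab (P.nd q), η)
        rw [← h1, ← hge]
        rfl
      · have h1 : ({e | η ≤ g e} ∩ P.D q).Infinite := by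
          refine hi.mono ?_
          rintro e ⟨he, hge⟩
          exact ⟨hge.ge, he⟩
        have h2 := hP.ext q c hc _ (hg.reSet η) h1
        obtain ⟨η', h3⟩ := PathB_pigeon (g := g) h2
        have h4 : η ≤ η' := by
          obtain ⟨e, he, hge⟩ := h3.nonempty
          rw [← hge]
          exact he.1
        have h5 : {e | e ∈ P.D (P.kid q c) ∧ g e = η'}.Infinite := by
          refine h3.mono ?_
          rintro e ⟨he, hge⟩
          exact ⟨he.2, hge⟩
        have h6 : P.nd (P.kid q c) = c := P.nd_kid q c hc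
        refine ⟨η', h4, ?_⟩
        have h7 : x < L.lab (P.nd (P.kid q c)) := by
          rw [h6, ← hx]
          exact L.lt_ch _ _ hc
        have h8 := ih _ h7 (P.kid q c) η' rfl h5
        rwa [h6] at h8
  exact key _ q η rfl hi

theorem comp_ae (hP : P.Good) (hg : RE g) (q : Fin P.N) :
    {e | e ∈ P.D q ∧ ¬ L.Comp (InfSt P.st g) (P.nd q) (g e)}.Finite := by
  have h1 : ∀ η : Y, {e | e ∈ P.D q ∧ g e = η ∧
      ¬ L.Comp (InfSt P.st g) (P.nd q) η}.Finite := by
    intro η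
    by_contra hcon
    have hcon' : {e | e ∈ P.D q ∧ g e = η ∧
      ¬ L.Comp (InfSt P.st g) (P.nd q) η}.Infinite := hcon
    obtain ⟨e, -, -, h2⟩ := hcon'.nonempty
    apply h2
    apply comp_of_inf hP hg
    refine hcon'.mono ?_
    rintro e ⟨he, hge, -⟩
    exact ⟨he, hge⟩
  refine (Set.finite_iUnion h1).subset ?_
  rintro e ⟨he, hc⟩
  exact Set.mem_iUnion.mpr ⟨g e, he, rfl, hc⟩

end PathSys

end TSys

end Pool.Agent.Lib.MP_45c83f_lc
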