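import Pool.Agent.Lib.MP_45c83f_lc.Types
import Pool.Agent.Lib.MP_45c83f_lc.Basics

set_option autoImplicit false

/-!
# Path systems: definitions (text, section 4)
-/

namespace Pool.Agent.Lib.MP_45c83f_lc

namespace TSys

variable {X : Type} [PartialOrder X] (L : TSys X)

/-- A path system: the positions form finitely many finite trees, one for every root of the
forest, every number moves along a path from a root position; `pth e t` is the position of `e` at
stage `t`. -/
structure PathSys (S : Finset (Fin L.K)) where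
  /-- the number of positions -/
  N : ℕ
  /-- the node of a position -/
  nd : Fin N → Fin L.K
  /-- the root positions -/
  rt : Fin N → Bool
  /-- the child positions -/
  kid : Fin N → Fin L.K → Fin N
  /-- the path function -/
  pth : ℕ → ℕ → Fin N
  prim : Primrec₂ pth
  rt_nd : ∀ q, rt q = true → nd q ∈ S
  rt_ex : ∀ s ∈ S, ∃ q, rt q = true ∧ nd q = s
  rt_inj : ∀ q q', rt q = true → rt q' = true → nd q = nd q' → q = q'
  nd_kid : ∀ q, ∀ c ∈ L.ch (nd q), nd (kid q c) = c
  rt_kid : ∀ q, ∀ c ∈ L.ch (nd q), rt (kid q c) = false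
  kid_inj : ∀ q q' c c', c ∈ L.ch (nd q) → c' ∈ L.ch (nd q') → kid q c = kid q' c' → q = q'
  par : ∀ q, rt q = false → ∃ q', ∃ c ∈ L.ch (nd q'), kid q' c = q
  zero : ∀ e, rt (pth e 0) = true
  step : ∀ e t, pth e (t + 1) = pth e t ∨
    ∃ c ∈ L.ch (nd (pth e t)), pth e (t + 1) = kid (pth e t) c

namespace PathSys

variable {L} {S : Finset (Fin L.K)} (P : L.PathSys S)

/-- The numbers which pass through the position. -/
def B (q : Fin P.N) : Set ℕ := {e | ∃ t, P.pth e t = q}

/-- The numbers which stay at the position. -/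
def D (q : Fin P.N) : Set ℕ := {e | ∃ t, ∀ u, t ≤ u → P.pth e u = q}

/-- The position is not a leaf. -/
def NL (q : Fin P.N) : Prop := (L.ch (P.nd q)).Nonempty

/-- The properties of a good path system. -/
structure Good : Prop where
  rec_rt : ∀ q, P.rt q = true → Rec (P.B q)
  inf : ∀ q, (P.D q).Infinite
  coh : ∀ q, P.rt q = true → P.NL q → ∀ W : Set ℕ, RESet W →
    (W ∩ P.D q).Finite ∨ (P.D q \ W).Finite
  ext : ∀ q, ∀ c ∈ L.ch (P.nd q), ∀ Q : Set ℕ, RESet Q → (Q ∩ P.D q).Infinite →
    (Q ∩ P.D (P.kid q c)).Infinite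
  small : ∀ q, P.rt q = false → P.NL q → ∀ H G : Set ℕ, RESet H → RESet G → Disjoint H G →
    H ∪ G = P.B q → (H ∩ P.D q).Finite → Rec H
  major : ∀ q, P.rt q = false → P.NL q → ∀ H : Set ℕ, Rec H → H ⊆ P.B q → (H ∩ P.D q).Finite

end PathSys

end TSys

end Pool.Agent.Lib.MP_45c83f_lc
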