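import Pool.Agent.Lib.MP_45c83f_lc.PathSets
import Pool.Agent.Lib.MP_45c83f_lc.PathDef

set_option autoImplicit false

/-!
# Existence of good path systems (text, section 4)
-/

namespace Pool.Agent.Lib.MP_45c83f_lc

namespace TSys

variable {X : Type} [PartialOrder X] (L : TSys X)

private theorem PathEx_cons {S : Finset (Fin L.K)} {p : List (Fin L.K)} (h : L.Pos S p) :
    ∃ v t, p = v :: t := by
  cases h with
  | root s _ => exact ⟨s, [], rfl⟩
  | cons c v p _ _ => exact ⟨c, v :: p, rfl⟩

private theorem PathEx_root {S : Finset (Fin L.K)} {v : Fin L.K} (h : L.Pos S [v]) :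
    v ∈ S := by
  cases h with
  | root s hs => exact hs

private theorem PathEx_par {S : Finset (Fin L.K)} {c v : Fin L.K} {p : List (Fin L.K)}
    (h : L.Pos S (c :: v :: p)) : L.Pos S (v :: p) ∧ c ∈ L.ch v := by
  cases h with
  | cons _ _ _ h1 h2 => exact ⟨h1, h2⟩

private theorem PathEx_first {α : Type} (f : ℕ → α) (t : ℕ) (x : α) (ht : f t = x)
    (h : ∃ u, t ≤ u ∧ f u ≠ x) : ∃ k, f (t + k) = x ∧ f (t + k + 1) ≠ x := by
  obtain ⟨u, hu, hne⟩ := h
  by_contra hno
  push Not at hno
  have : ∀ k, f (t + k) = x := by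
    intro k
    induction k with
    | zero => exact ht
    | succ k ih => exact hno k ih
  exact hne (by have := this (u - t); rwa [Nat.add_sub_cancel' hu] at this)

/-- The core of the construction: the position function `ps` is a bijection with the positions,
`nd` and `tl` are head and tail. -/
private theorem PathEx_core (S : Finset (Fin L.K)) (B : List (Fin L.K) → Set ℕ)
    (hB : L.SetSys S B) (N : ℕ) (b : {p // L.Pos S p} ≃ Fin N) (nd : Fin N → Fin L.K)
    (tl : Fin N → List (Fin L.K)) (hps : ∀ q, (b.symm q).1 = nd q :: tl q)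
    (hS : S.Nonempty) : ∃ P : L.PathSys S, P.Good := by
  classical
  have hpos : ∀ q, L.Pos S (nd q :: tl q) := fun q => hps q ▸ (b.symm q).2
  have hinj : ∀ q q', nd q :: tl q = nd q' :: tl q' → q = q' := by
    intro q q' h
    apply b.symm.injective
    apply Subtype.ext
    rw [hps, hps, h]
  have hb : ∀ (v : Fin L.K) (p : List (Fin L.K)) (h : L.Pos S (v :: p)),
      nd (b ⟨v :: p, h⟩) = v ∧ tl (b ⟨v :: p, h⟩) = p := by
    intro v p h
    have h1 := hps (b ⟨v :: p, h⟩)
    rw [Equiv.symm_apply_apply] at h1
    simp only [List.cons.injEq] at h1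
    exact ⟨h1.1.symm, h1.2.symm⟩
  -- the children
  let kid : Fin N → Fin L.K → Fin N := fun q c =>
    if h : c ∈ L.ch (nd q) then b ⟨c :: nd q :: tl q, Pos.cons c (nd q) (tl q) (hpos q) h⟩ else q
  have hkid : ∀ q, ∀ c ∈ L.ch (nd q), nd (kid q c) = c ∧ tl (kid q c) = nd q :: tl q := by
    intro q c hc
    simp only [kid, dif_pos hc]
    exact hb _ _ _
  -- the approximations
  have happ : ∀ q, ∃ f : ℕ → ℕ → Bool, IsAp f ∧
      ∀ e, e ∈ B (nd q :: tl q) ↔ ∃ s, f e s = true := fun q => hB.re _ (hpos q)
  choose a ha hA using happ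
  obtain ⟨r, hr, hrS, hrB⟩ := hB.root_fun
  obtain ⟨s0, hs0⟩ := hS
  -- the start
  let st : Fin L.K → Fin N := fun s =>
    if h : s ∈ S then b ⟨[s], Pos.root s h⟩ else b ⟨[s0], Pos.root s0 hs0⟩
  have hst : ∀ s ∈ S, nd (st s) = s ∧ tl (st s) = [] := by
    intro s hs
    simp only [st, dif_pos hs]
    exact hb _ _ _
  -- the step
  let G : Fin N × (Fin N → Bool) → Fin N := fun p =>
    if h : ∃ c ∈ L.ch (nd p.1), p.2 (kid p.1 c) = true then kid p.1 h.choose else p.1
  have hG : Primrec G := Primrec.dom_finite _
  let v : ℕ → ℕ → (Fin N → Bool) := fun e s q => a q e s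
  have hv : Primrec₂ v := by
    have : Primrec fun p : ℕ × ℕ => (fun q => a q p.1 p.2 : Fin N → Bool) := by
      rw [Primrec.fin_curry]
      have h2 : Primrec₂ fun (q : Fin N) (p : ℕ × ℕ) => a q p.1 p.2 :=
        Primrec.fin_curry₁.2 fun q => (ha q).prim
      exact h2.swap
    exact this
  let pth : ℕ → ℕ → Fin N := fun e s => Nat.rec (st (r e)) (fun t q => G (q, v e t)) s
  have hp0 : ∀ e, pth e 0 = st (r e) := fun e => rfl
  have hps' : ∀ e s, pth e (s + 1) = G (pth e s, v e s) := fun e s => rfl
  have hprim : Primrec₂ pth := by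
    refine Primrec.nat_rec (f := fun e : ℕ => st (r e))
      (g := fun (e : ℕ) (p : ℕ × Fin N) => G (p.2, v e p.1)) ?_ ?_
    · exact (Primrec.dom_finite st).comp hr
    · refine hG.comp (Primrec.pair (Primrec.snd.comp Primrec.snd) ?_)
      exact Primrec₂.comp hv Primrec.fst (Primrec.fst.comp Primrec.snd)
  have hstep : ∀ e t, pth e (t + 1) = pth e t ∨
      ∃ c ∈ L.ch (nd (pth e t)), a (kid (pth e t) c) e t = true ∧
        pth e (t + 1) = kid (pth e t) c := by
    intro e t
    rw [hps']
    by_cases h : ∃ c ∈ L.ch (nd (pth e t)), v e t (kid (pth e t) c) = true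
    · right
      have h1 : G (pth e t, v e t) = kid (pth e t) h.choose := by
        simp only [G, dif_pos h]
      exact ⟨h.choose, h.choose_spec.1, h.choose_spec.2, h1⟩
    · left
      simp only [G, dif_neg h]
  have hmove : ∀ e t, ∀ c ∈ L.ch (nd (pth e t)), a (kid (pth e t) c) e t = true →
      ∃ d ∈ L.ch (nd (pth e t)), pth e (t + 1) = kid (pth e t) d := by
    intro e t c hc hac
    have h : ∃ c ∈ L.ch (nd (pth e t)), v e t (kid (pth e t) c) = true := ⟨c, hc, hac⟩
    refine ⟨h.choose, h.choose_spec.1, ?_⟩
    rw [hps']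
    simp only [G, dif_pos h]
  -- the number belongs to the sets of its positions
  have hmem : ∀ e t, e ∈ B (nd (pth e t) :: tl (pth e t)) := by
    intro e t
    induction t with
    | zero =>
      have h1 := hst (r e) (hrS e)
      rw [hp0, h1.1, h1.2, hrB (r e) (hrS e)]
      rfl
    | succ t ih =>
      rcases hstep e t with h1 | ⟨c, hc, hac, h1⟩
      · rw [h1]
        exact ih
      · rw [h1]
        exact (hA _ e).2 ⟨t, hac⟩
  -- the depth increases
  have hdep1 : ∀ e t, (tl (pth e t)).length ≤ (tl (pth e (t + 1))).length := by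
    intro e t
    rcases hstep e t with h1 | ⟨c, hc, -, h1⟩
    · rw [h1]
    · rw [h1, (hkid _ c hc).2, List.length_cons]
      omega
  have hdep : ∀ e t u, t ≤ u → (tl (pth e t)).length ≤ (tl (pth e u)).length :=
    fun e t u htu => monotone_nat_of_le_succ (f := fun t => (tl (pth e t)).length) (hdep1 e) htu
  have hkne : ∀ q, ∀ c ∈ L.ch (nd q), kid q c ≠ q := by
    intro q c hc h
    have h1 := (hkid q c hc).2
    rw [h] at h1
    have h2 := congrArg List.length h1
    rw [List.length_cons] at h2
    omega
  -- every number of the set passes through the position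
  have hpass : ∀ p, L.Pos S p → ∀ q, nd q :: tl q = p → ∀ e ∈ B p, ∃ t, pth e t = q := by
    intro p hp
    induction hp with
    | root s hs =>
      intro q hq e he
      refine ⟨0, ?_⟩
      rw [hrB s hs] at he
      apply hinj
      have h1 := hst (r e) (hrS e)
      rw [hp0, h1.1, h1.2, hq]
      simp only [List.cons.injEq, and_true]
      exact he
    | cons c w p hp hc ih =>
      intro q hq e he
      have hsub := hB.sub w p hp c hc he
      obtain ⟨h1, h2⟩ := hb w p hp
      obtain ⟨t, ht⟩ := ih (b ⟨w :: p, hp⟩) (by rw [h1, h2]) e hsub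
      have hcq : c ∈ L.ch (nd (b ⟨w :: p, hp⟩)) := by rw [h1]; exact hc
      have hkq : kid (b ⟨w :: p, hp⟩) c = q := by
        apply hinj
        rw [(hkid _ c hcq).1, (hkid _ c hcq).2, h1, h2, hq]
      obtain ⟨s1, hs1⟩ := (hA q e).1 (by rw [hq]; exact he)
      rcases Classical.em (∀ u, t ≤ u → pth e u = b ⟨w :: p, hp⟩) with hstay | hstay
      · exfalso
        have h3 := hstay (max t s1) (le_max_left _ _)
        have h4 : a (kid (pth e (max t s1)) c) e (max t s1) = true := by
          rw [h3, hkq]
          exact (ha q).true_of_le (le_max_right _ _) hs1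
        obtain ⟨d, hd, h5⟩ := hmove e (max t s1) c (by rw [h3]; exact hcq) h4
        have h6 := hstay (max t s1 + 1) (by omega)
        rw [h5, h3] at h6
        exact hkne _ d (by rw [h3] at hd; exact hd) h6
      · push Not at hstay
        obtain ⟨k, hprev, hk⟩ := PathEx_first (pth e) t _ ht hstay
        rcases hstep e (t + k) with h3 | ⟨d, hd, had, h3⟩
        · exact absurd (h3.trans hprev) hk
        · refine ⟨t + k + 1, ?_⟩
          rw [h3]
          rw [hprev] at hd had ⊢
          have hde : e ∈ B (d :: w :: p) := by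
            have h4 := (hA _ e).2 ⟨_, had⟩
            rwa [(hkid _ d hd).1, (hkid _ d hd).2, h1, h2] at h4
          rw [h1] at hd
          have hdc : d = c := by
            by_contra hne
            exact Set.disjoint_left.1 (hB.disj w p hp d hd c hc hne) hde he
          rw [hdc, hkq]
  let P : L.PathSys S :=
    { N := N
      nd := nd
      rt := fun q => decide (tl q = [])
      kid := kid
      pth := pth
      prim := hprim
      rt_nd := by
        intro q hq
        rw [decide_eq_true_iff] at hq
        have h1 := hpos q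
        rw [hq] at h1
        exact PathEx_root L h1
      rt_ex := by
        intro s hs
        have h1 := hb s [] (Pos.root s hs)
        exact ⟨b ⟨[s], Pos.root s hs⟩, by rw [decide_eq_true_iff]; exact h1.2, h1.1⟩
      rt_inj := by
        intro q q' hq hq' h
        rw [decide_eq_true_iff] at hq hq'
        exact hinj q q' (by rw [hq, hq', h])
      nd_kid := fun q c hc => (hkid q c hc).1
      rt_kid := by
        intro q c hc
        rw [decide_eq_false_iff_not, (hkid q c hc).2]
        simp
      kid_inj := by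
        intro q q' c c' hc hc' h
        apply hinj
        rw [← (hkid q c hc).2, ← (hkid q' c' hc').2, h]
      par := by
        intro q hq
        rw [decide_eq_false_iff_not] at hq
        obtain ⟨w, p, hp⟩ := List.exists_cons_of_ne_nil hq
        have h1 := hpos q
        rw [hp] at h1
        obtain ⟨h2, h3⟩ := PathEx_par L h1
        obtain ⟨h4, h5⟩ := hb w p h2
        have h6 : nd q ∈ L.ch (nd (b ⟨w :: p, h2⟩)) := by rw [h4]; exact h3
        refine ⟨b ⟨w :: p, h2⟩, nd q, h6, ?_⟩
        apply hinj
        rw [(hkid _ _ h6).1, (hkid _ _ h6).2, h4, h5, hp]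
      zero := by
        intro e
        rw [decide_eq_true_iff]
        exact (hst (r e) (hrS e)).2
      step := by
        intro e t
        rcases hstep e t with h | ⟨c, hc, -, h⟩
        · exact Or.inl h
        · exact Or.inr ⟨c, hc, h⟩ }
  have hPB : ∀ q, P.B q = B (nd q :: tl q) := by
    intro q
    ext e
    constructor
    · rintro ⟨t, ht⟩
      have h1 := hmem e t
      have h2 : pth e t = q := ht
      rwa [h2] at h1
    · intro he
      exact hpass _ (hpos q) q rfl e he
  have hPD : ∀ q, P.D q = L.DD B (nd q) (tl q) := by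
    intro q
    ext e
    unfold DD
    simp only [Set.mem_sdiff, Set.mem_iUnion, not_exists]
    constructor
    · rintro ⟨t, ht⟩
      have h1 : pth e t = q := ht t le_rfl
      refine ⟨by rw [← hPB]; exact ⟨t, h1⟩, fun c hc hcon => ?_⟩
      obtain ⟨h2, h3⟩ := hkid q c hc
      obtain ⟨u, hu⟩ := hpass _ (hpos (kid q c)) (kid q c) rfl e (by rw [h2, h3]; exact hcon)
      have h4 := hdep e u (max t u) (le_max_right _ _)
      have h5 : pth e (max t u) = q := ht _ (le_max_left _ _)
      rw [h5, hu, h3, List.length_cons] at h4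
      omega
    · rintro ⟨he, hno⟩
      obtain ⟨t, ht⟩ := hpass _ (hpos q) q rfl e he
      refine ⟨t, fun u hu => ?_⟩
      show pth e u = q
      induction u, hu using Nat.le_induction with
      | base => exact ht
      | succ u hu ih =>
        rcases hstep e u with h1 | ⟨c, hc, hac, h1⟩
        · rw [h1]
          exact ih
        · exfalso
          rw [ih] at hc hac
          have h2 := (hA _ e).2 ⟨_, hac⟩
          rw [(hkid q c hc).1, (hkid q c hc).2] at h2
          exact hno c hc h2
  refine ⟨P, ⟨?_, ?_, ?_, ?_, ?_, ?_⟩⟩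
  · intro q hq
    have hq' : tl q = [] := by
      have h1 : decide (tl q = []) = true := hq
      rwa [decide_eq_true_iff] at h1
    have h1 := P.rt_nd q hq
    rw [hPB, hq']
    exact (hB.root (nd q) h1).1
  · intro q
    rw [hPD]
    exact hB.inf _ _ (hpos q)
  · intro q hq hnl W hW
    have hq' : tl q = [] := by
      have h1 : decide (tl q = []) = true := hq
      rwa [decide_eq_true_iff] at h1
    have h1 := P.rt_nd q hq
    rw [hPD, hq']
    exact hB.coh (nd q) h1 hnl W hW
  · intro q c hc Q hQ hinf
    rw [hPD] at hinf ⊢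
    have h1 := hB.ext (nd q) (tl q) (hpos q) c hc Q hQ hinf
    show (Q ∩ L.DD B (nd (kid q c)) (tl (kid q c))).Infinite
    rw [(hkid q c hc).1, (hkid q c hc).2]
    exact h1
  · intro q hq hnl H G' hH hG' hdis hun hfin
    have hq' : tl q ≠ [] := by
      have h1 : decide (tl q = []) = false := hq
      rwa [decide_eq_false_iff_not] at h1
    rw [hPB] at hun
    rw [hPD] at hfin
    exact hB.small (nd q) (tl q) (hpos q) hq' hnl H G' hH hG' hdis hun hfin
  · intro q hq hnl H hH hsub
    have hq' : tl q ≠ [] := by
      have h1 : decide (tl q = []) = false := hq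
      rwa [decide_eq_false_iff_not] at h1
    rw [hPB] at hsub
    rw [hPD]
    exact hB.major (nd q) (tl q) (hpos q) hq' hnl H hH hsub

theorem exists_pathSys (S : Finset (Fin L.K)) (hS : S.Nonempty) :
    ∃ P : L.PathSys S, P.Good := by
  classical
  obtain ⟨B, hB⟩ := L.exists_setSys S hS
  have hfin : Finite {p // L.Pos S p} := (pos_finite (L := L) S).to_subtype
  obtain ⟨N, ⟨b⟩⟩ := Finite.exists_equiv_fin {p // L.Pos S p}
  have h1 : ∀ q : Fin N, ∃ v t, (b.symm q).1 = v :: t := fun q => PathEx_cons L (b.symm q).2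
  choose nd tl hps using h1
  exact PathEx_core L S B hB N b nd tl hps hS

end TSys

end Pool.Agent.Lib.MP_45c83f_lc
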