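import Pool.Agent.Lib.MP_45c83f_lc.PathA
import Pool.Agent.Lib.MP_45c83f_lc.Facts
import Pool.Agent.Lib.MP_45c83f_lc.Known

set_option autoImplicit false

/-!
# Path systems: the exceptional numbers (text, 4.3)
-/

namespace Pool.Agent.Lib.MP_45c83f_lc

namespace TSys

variable {X Y : Type} [PartialOrder X] [PartialOrder Y] {L : TSys X} {S : Finset (Fin L.K)}

namespace PathSys

/-- `e` is good at the position `q`. -/
def GoodAt (P : L.PathSys S) (I : Set (X × Y)) (h : Fin L.K → Y) (ga : ℕ → ℕ → Y) (q : Fin P.N)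
    (e : ℕ) : Prop :=
  ∃ t, P.pth e t = q ∧ (P.rt q = true → ga e t = h (P.nd q)) ∧
    (P.rt q = false → L.Comp I (P.nd q) (ga e t))

variable {P : L.PathSys S}

theorem PathH_wf (L : TSys X) : WellFounded fun a b : Fin L.K => L.Desc b a := by
  have : IsTrans (Fin L.K) (fun a b => L.Desc b a) :=
    ⟨fun a b c h1 h2 => Relation.TransGen.trans h2 h1⟩
  have : Std.Irrefl (fun a b : Fin L.K => L.Desc b a) :=
    ⟨fun a h => lt_irrefl _ (Desc.lab_lt h)⟩
  exact Finite.wellFounded_of_trans_of_irrefl _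

/-- The numbers which leave `q` without having been good. -/
def PathH_H (P : L.PathSys S) (r : Fin P.N → ℕ → ℕ → Bool) (q : Fin P.N) : Set ℕ :=
  {e | ∃ t, P.pth e t = q ∧ ¬ P.pth e (t + 1) = q ∧
    ∀ u, u < t + 1 → (P.pth e u = q → r q e u = false)}

/-- The good numbers. -/
def PathH_G (P : L.PathSys S) (r : Fin P.N → ℕ → ℕ → Bool) (q : Fin P.N) : Set ℕ :=
  {e | ∃ t, P.pth e t = q ∧ r q e t = true}

/-- The numbers which stay at `q` without being good. -/
def PathH_F (P : L.PathSys S) (r : Fin P.N → ℕ → ℕ → Bool) (q : Fin P.N) : Set ℕ :=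
  {e | e ∈ P.D q ∧ ∀ t, P.pth e t = q → r q e t = false}

theorem PathH_H_re (P : L.PathSys S) {r : Fin P.N → ℕ → ℕ → Bool} (hr : ∀ q, Primrec₂ (r q))
    (q : Fin P.N) : RESet (PathH_H P r q) := by
  have h1 : PrimrecPred fun p : ℕ × ℕ => P.pth p.1 p.2 = q :=
    PrimrecRel.comp Primrec.eq P.prim (Primrec.const q)
  have h2 : PrimrecPred fun p : ℕ × ℕ => ¬ P.pth p.1 (p.2 + 1) = q :=
    (PrimrecRel.comp Primrec.eq
      (Primrec₂.comp P.prim Primrec.fst (Primrec.succ.comp Primrec.snd)) (Primrec.const q)).not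
  have h3 : PrimrecRel fun u e : ℕ => (P.pth e u = q → r q e u = false) := by
    have a1 : PrimrecPred fun p : ℕ × ℕ => P.pth p.2 p.1 = q :=
      PrimrecRel.comp Primrec.eq (Primrec₂.comp P.prim Primrec.snd Primrec.fst) (Primrec.const q)
    have a2 : PrimrecPred fun p : ℕ × ℕ => r q p.2 p.1 = false :=
      PrimrecRel.comp Primrec.eq (Primrec₂.comp (hr q) Primrec.snd Primrec.fst)
        (Primrec.const false)
    have a3 : PrimrecPred fun p : ℕ × ℕ => (P.pth p.2 p.1 = q → r q p.2 p.1 = false) :=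
      (a1.not.or a2).of_eq fun p => by tauto
    exact a3
  have h5 : PrimrecPred fun p : ℕ × ℕ =>
      ∀ u, u < p.2 + 1 → (P.pth p.1 u = q → r q p.1 u = false) :=
    PrimrecRel.comp h3.forall_lt (Primrec.succ.comp Primrec.snd) Primrec.fst
  have h6 : PrimrecRel fun e t : ℕ => P.pth e t = q ∧ ¬ P.pth e (t + 1) = q ∧
      ∀ u, u < t + 1 → (P.pth e u = q → r q e u = false) := h1.and (h2.and h5)
  exact RESet.of_exists h6 fun e => Iff.rfl

theorem PathH_G_re (P : L.PathSys S) {r : Fin P.N → ℕ → ℕ → Bool} (hr : ∀ q, Primrec₂ (r q))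
    (q : Fin P.N) : RESet (PathH_G P r q) := by
  have h1 : PrimrecPred fun p : ℕ × ℕ => P.pth p.1 p.2 = q :=
    PrimrecRel.comp Primrec.eq P.prim (Primrec.const q)
  have h2 : PrimrecPred fun p : ℕ × ℕ => r q p.1 p.2 = true :=
    PrimrecRel.comp Primrec.eq (hr q) (Primrec.const true)
  have h6 : PrimrecRel fun e t : ℕ => P.pth e t = q ∧ r q e t = true := h1.and h2
  exact RESet.of_exists h6 fun e => Iff.rfl

/-- A number which stays at a position does not leave it. -/
theorem PathH_not_leave {P : L.PathSys S} {q : Fin P.N} {e t : ℕ} (hD : e ∈ P.D q)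
    (h1 : P.pth e t = q) : P.pth e (t + 1) = q := by
  obtain ⟨t0, ht0⟩ := hD
  exact P.between (u := max t0 (t + 1)) h1 (ht0 _ (le_max_left _ _)) (Nat.le_succ t)
    (le_max_right _ _)

/-- A number which passes through a position and does not stay leaves it. -/
theorem PathH_leave {P : L.PathSys S} {q : Fin P.N} {e : ℕ} (hB : e ∈ P.B q)
    (hD : e ∉ P.D q) : ∃ t, P.pth e t = q ∧ ¬ P.pth e (t + 1) = q := by
  obtain ⟨t0, ht0⟩ := hB
  by_contra hcon
  apply hD
  refine ⟨t0, fun u hu => ?_⟩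
  induction u, hu using Nat.le_induction with
  | base => exact ht0
  | succ u _ ih =>
    by_contra h
    exact hcon ⟨u, ih, h⟩

theorem PathH_H_sub {P : L.PathSys S} {r : Fin P.N → ℕ → ℕ → Bool} {q : Fin P.N} :
    PathH_H P r q ⊆ P.B q := fun _ ⟨t, ht, _⟩ => ⟨t, ht⟩

theorem PathH_H_D {P : L.PathSys S} {r : Fin P.N → ℕ → ℕ → Bool} {q : Fin P.N} :
    PathH_H P r q ∩ P.D q = ∅ := by
  rw [Set.eq_empty_iff_forall_notMem]
  rintro e ⟨⟨t, ht, ht', _⟩, hD⟩
  exact ht' (PathH_not_leave hD ht)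

theorem PathH_disj {P : L.PathSys S} {r : Fin P.N → ℕ → ℕ → Bool} {q : Fin P.N} :
    Disjoint (PathH_H P r q) (PathH_G P r q ∪ PathH_F P r q) := by
  rw [Set.disjoint_left]
  rintro e ⟨t, ht, ht', hu⟩ (⟨w, hw, hw'⟩ | ⟨hD, _⟩)
  · by_cases hwt : w < t + 1
    · rw [hu w hwt hw] at hw'
      exact absurd hw' (by simp)
    · exact ht' (P.between ht hw (Nat.le_succ t) (not_lt.1 hwt))
  · exact ht' (PathH_not_leave hD ht)

theorem PathH_union {P : L.PathSys S} {r : Fin P.N → ℕ → ℕ → Bool} {q : Fin P.N} :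
    PathH_H P r q ∪ (PathH_G P r q ∪ PathH_F P r q) = P.B q := by
  ext e
  constructor
  · rintro (h | (⟨t, ht, _⟩ | ⟨h, _⟩))
    · exact PathH_H_sub h
    · exact ⟨t, ht⟩
    · exact P.D_sub_B q h
  · intro hB
    by_cases hg : ∃ t, P.pth e t = q ∧ r q e t = true
    · exact Or.inr (Or.inl hg)
    · have hn : ∀ t, P.pth e t = q → r q e t = false := by
        intro t ht
        by_contra h
        exact hg ⟨t, ht, by simpa using h⟩
      by_cases hD : e ∈ P.D q
      · exact Or.inr (Or.inr ⟨hD, hn⟩)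
      · obtain ⟨t, ht, ht'⟩ := PathH_leave hB hD
        exact Or.inl ⟨t, ht, ht', fun u _ => hn u⟩

theorem PathH_H_rec {P : L.PathSys S} (hP : P.Good) {r : Fin P.N → ℕ → ℕ → Bool}
    (hr : ∀ q, Primrec₂ (r q)) {q : Fin P.N} (hq : P.NL q) (hF : (PathH_F P r q).Finite) :
    Rec (PathH_H P r q) := by
  have hG : RESet (PathH_G P r q ∪ PathH_F P r q) := (PathH_G_re P hr q).union
    (RESet.of_finite hF)
  cases hrt : P.rt q with
  | true =>
    exact Rec.of_disjoint_union (PathH_H_re P hr q) hG (hP.rec_rt q hrt) PathH_disj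
      PathH_union
  | false =>
    refine hP.small q hrt hq _ _ (PathH_H_re P hr q) hG PathH_disj PathH_union ?_
    rw [PathH_H_D]
    exact Set.finite_empty

/-- The part of a recursive set below a child is recursive. -/
theorem PathH_kid {P : L.PathSys S} {q : Fin P.N} {K : Set ℕ} (hK : Rec K) (hKB : K ⊆ P.B q)
    (hfin : (K ∩ P.D q).Finite) {c : Fin L.K} (hc : c ∈ L.ch (P.nd q)) :
    Rec (K ∩ P.B (P.kid q c)) := by
  classical
  refine Rec.of_disjoint_union (B := (K ∩ P.D q) ∪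
    ⋃ c' ∈ (L.ch (P.nd q)).erase c, K ∩ P.B (P.kid q c')) (hK.1.inter (P.B_re _))
    ((RESet.of_finite hfin).union (RESet.biUnion _ fun c' _ => hK.1.inter (P.B_re _))) hK ?_ ?_
  · rw [Set.disjoint_left]
    rintro e ⟨he, heB⟩ (⟨_, hD⟩ | hu)
    · exact P.not_D_kid hc heB hD
    · simp only [Set.mem_iUnion] at hu
      obtain ⟨c', hc', _, heB'⟩ := hu
      rw [Finset.mem_erase] at hc'
      exact hc'.1 (P.disj_kid hc'.2 hc heB' heB)
  · ext e
    constructor
    · rintro (⟨he, _⟩ | (⟨he, _⟩ | hu))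
      · exact he
      · exact he
      · simp only [Set.mem_iUnion] at hu
        obtain ⟨c', hc', he, _⟩ := hu
        exact he
    · intro he
      rcases P.mem_B_iff.1 (hKB he) with h | ⟨c', hc', h⟩
      · exact Or.inr (Or.inl ⟨he, h⟩)
      · by_cases hcc : c' = c
        · rw [hcc] at h
          exact Or.inl ⟨he, h⟩
        · refine Or.inr (Or.inr ?_)
          simp only [Set.mem_iUnion]
          exact ⟨c', Finset.mem_erase.2 ⟨hcc, hc'⟩, he, h⟩

theorem PathH_fin {P : L.PathSys S} {q : Fin P.N} {K : Set ℕ} (hKB : K ⊆ P.B q)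
    (hfin : (K ∩ P.D q).Finite)
    (hk : ∀ c ∈ L.ch (P.nd q), {e | e ∈ K ∩ P.B (P.kid q c) ∧ P.NL (P.lim e)}.Finite) :
    {e | e ∈ K ∧ P.NL (P.lim e)}.Finite := by
  refine (hfin.union (Set.Finite.biUnion (L.ch (P.nd q)).finite_toSet hk)).subset ?_
  rintro e ⟨he, hN⟩
  rcases P.mem_B_iff.1 (hKB he) with h | ⟨c, hc, h⟩
  · exact Or.inl ⟨he, h⟩
  · refine Or.inr ?_
    simp only [Set.mem_iUnion]
    exact ⟨c, hc, ⟨he, h⟩, hN⟩

/-- Almost all numbers of a recursive set below a position which is not a root end in a leaf. -/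
theorem PathH_leaf {P : L.PathSys S} (hP : P.Good) : ∀ (v : Fin L.K) (q : Fin P.N),
    P.nd q = v → P.rt q = false → ∀ K : Set ℕ, Rec K → K ⊆ P.B q →
      {e | e ∈ K ∧ P.NL (P.lim e)}.Finite := by
  intro v
  induction v using (PathH_wf L).induction with
  | _ v ih =>
    intro q hq hrt K hK hKB
    by_cases hN : P.NL q
    · have hfin := hP.major q hrt hN K hK hKB
      refine PathH_fin hKB hfin fun c hc => ?_
      exact ih c (hq ▸ Desc.of_ch hc) (P.kid q c) (P.nd_kid q c hc) (P.rt_kid q c hc) _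
        (PathH_kid hK hKB hfin hc) Set.inter_subset_right
    · refine Set.Finite.subset Set.finite_empty ?_
      rintro e ⟨he, hNe⟩
      rcases P.mem_B_iff.1 (hKB he) with h | ⟨c, hc, h⟩
      · rw [P.mem_D_iff] at h
        rw [h] at hNe
        exact hN hNe
      · exact hN ⟨c, hc⟩

/-- (4.3), abstract form: `r q e t` says that `e` is good at `q` at stage `t`. -/
theorem exists_H (hP : P.Good) (r : Fin P.N → ℕ → ℕ → Bool) (hr : ∀ q, Primrec₂ (r q))
    (hr' : ∀ q, P.NL q → {e | e ∈ P.D q ∧ ∀ t, P.pth e t = q → r q e t = false}.Finite) :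
    ∃ H : Set ℕ, Rec H ∧ {e | e ∈ H ∧ P.NL (P.lim e)}.Finite ∧
      ∀ e, e ∉ H → ∀ q, P.NL q → e ∈ P.B q → e ∉ P.D q → ∃ t, P.pth e t = q ∧ r q e t = true := by
  classical
  have hrec : ∀ q, P.NL q → Rec (PathH_H P r q) := fun q hq =>
    PathH_H_rec hP hr hq (hr' q hq)
  refine ⟨⋃ q ∈ Finset.univ.filter (fun q => P.NL q), PathH_H P r q, ⟨?_, ?_⟩, ?_, ?_⟩
  · exact RESet.biUnion _ fun q hq => (hrec q (Finset.mem_filter.1 hq).2).1
  · have h1 : (⋃ q ∈ Finset.univ.filter (fun q => P.NL q), PathH_H P r q)ᶜ =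
        ⋂ q ∈ Finset.univ.filter (fun q => P.NL q), (PathH_H P r q)ᶜ := by
      simp only [Set.compl_iUnion]
    rw [h1]
    exact RESet.biInter _ fun q hq => (hrec q (Finset.mem_filter.1 hq).2).2
  · have h1 : ∀ q, P.NL q → {e | e ∈ PathH_H P r q ∧ P.NL (P.lim e)}.Finite := by
      intro q hq
      cases hrt : P.rt q with
      | false => exact PathH_leaf hP _ q rfl hrt _ (hrec q hq) PathH_H_sub
      | true =>
        have hfin : (PathH_H P r q ∩ P.D q).Finite := by
          rw [PathH_H_D]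
          exact Set.finite_empty
        refine PathH_fin PathH_H_sub hfin fun c hc => ?_
        exact PathH_leaf hP _ (P.kid q c) rfl (P.rt_kid q c hc) _
          (PathH_kid (hrec q hq) PathH_H_sub hfin hc) Set.inter_subset_right
    refine (Set.Finite.biUnion (Finset.univ.filter fun q => P.NL q).finite_toSet
      (t := fun q => {e | e ∈ PathH_H P r q ∧ P.NL (P.lim e)}) ?_).subset ?_
    · intro q hq
      exact h1 q (Finset.mem_filter.1 (Finset.mem_coe.1 hq)).2
    · rintro e ⟨he, hN⟩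
      simp only [Set.mem_iUnion] at he ⊢
      obtain ⟨q, hq, he⟩ := he
      exact ⟨q, hq, he, hN⟩
  · intro e he q hq hB hD
    have h1 : e ∉ PathH_H P r q := by
      intro h
      apply he
      simp only [Set.mem_iUnion]
      exact ⟨q, Finset.mem_filter.2 ⟨Finset.mem_univ _, hq⟩, h⟩
    by_contra hg
    apply h1
    obtain ⟨t, ht, ht'⟩ := PathH_leave hB hD
    refine ⟨t, ht, ht', fun u _ hu => ?_⟩
    by_contra h
    exact hg ⟨u, hu, by simpa using h⟩

variable [Primcodable Y] [Finite Y]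

/-- (4.3) -/
theorem exists_H' (hP : P.Good) {I : Set (X × Y)} {h : Fin L.K → Y} {ga : ℕ → ℕ → Y}
    (hga : IsAp ga) (hr : ∀ q, P.NL q → {e | e ∈ P.D q ∧ ¬ P.GoodAt I h ga q e}.Finite) :
    ∃ H : Set ℕ, Rec H ∧ {e | e ∈ H ∧ P.NL (P.lim e)}.Finite ∧
      ∀ e, e ∉ H → ∀ q, P.NL q → e ∈ P.B q → e ∉ P.D q → P.GoodAt I h ga q e := by
  classical
  let r : Fin P.N → ℕ → ℕ → Bool := fun q e t =>
    decide ((P.rt q = true → ga e t = h (P.nd q)) ∧
      (P.rt q = false → L.Comp I (P.nd q) (ga e t)))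
  have hrp : ∀ q, Primrec₂ (r q) := by
    intro q
    have h1 : Primrec fun y : Y => decide ((P.rt q = true → y = h (P.nd q)) ∧
      (P.rt q = false → L.Comp I (P.nd q) y)) := Primrec.dom_finite _
    exact h1.comp hga.prim
  have hiff : ∀ q e, P.GoodAt I h ga q e ↔ ∃ t, P.pth e t = q ∧ r q e t = true := by
    intro q e
    simp only [GoodAt, r, decide_eq_true_eq]
  obtain ⟨H, h1, h2, h3⟩ := exists_H hP r hrp (by
    intro q hq
    refine (hr q hq).subset ?_
    rintro e ⟨he, hn⟩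
    refine ⟨he, fun hg => ?_⟩
    obtain ⟨t, ht, ht'⟩ := (hiff q e).1 hg
    rw [hn t ht] at ht'
    exact absurd ht' (by simp))
  exact ⟨H, h1, h2, fun e he q hq hB hD => (hiff q e).2 (h3 e he q hq hB hD)⟩

/-- Almost all numbers are good at their final position. -/
theorem good_ae {I : Set (X × Y)} {h : Fin L.K → Y} {ga : ℕ → ℕ → Y} {g : ℕ → Y}
    (hgl : Lim ga g) (q : Fin P.N) (hq : P.NL q)
    (h1 : P.rt q = true → {e | e ∈ P.D q ∧ g e ≠ h (P.nd q)}.Finite)
    (h2 : {e | e ∈ P.D q ∧ ¬ L.Comp I (P.nd q) (g e)}.Finite) :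
    {e | e ∈ P.D q ∧ ¬ P.GoodAt I h ga q e}.Finite := by
  have h3 : {e | e ∈ P.D q ∧ P.rt q = true ∧ g e ≠ h (P.nd q)}.Finite := by
    cases hrt : P.rt q with
    | true => exact (h1 hrt).subset fun e he => ⟨he.1, he.2.2⟩
    | false =>
      refine Set.finite_empty.subset ?_
      rintro e ⟨_, h, _⟩
      exact absurd h (by simp)
  refine (h3.union h2).subset ?_
  rintro e ⟨hD, hg⟩
  by_contra hcon
  apply hg
  obtain ⟨t0, ht0⟩ := hD
  obtain ⟨s0, hs0⟩ := hgl e
  refine ⟨max t0 s0, ht0 _ (le_max_left _ _), fun hrt => ?_, fun hrt => ?_⟩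
  · rw [hs0 _ (le_max_right _ _)]
    by_contra h4
    exact hcon (Or.inl ⟨⟨t0, ht0⟩, hrt, h4⟩)
  · rw [hs0 _ (le_max_right _ _)]
    by_contra h4
    exact hcon (Or.inr ⟨⟨t0, ht0⟩, h4⟩)

end PathSys

end TSys

end Pool.Agent.Lib.MP_45c83f_lc
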