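import Pool.Agent.Lib.MP_45c83f_lc.PathH
import Pool.Agent.Lib.MP_45c83f_lc.PathA
import Pool.Agent.Lib.MP_45c83f_lc.Facts

set_option autoImplicit false

/-!
# Path systems: the strategy of the existential player (text, 4.5)
-/

namespace Pool.Agent.Lib.MP_45c83f_lc

namespace TSys

variable {X Y Z : Type} [PartialOrder X] [Finite X] [Primcodable X] [PartialOrder Y] [Finite Y]
  [OrderBot Y] [Primcodable Y] [PartialOrder Z] [OrderBot Z] [Finite Z] [Primcodable Z]
  {L : TSys X} {S : Finset (Fin L.K)}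

namespace PathSys

variable {P : L.PathSys S} {g : ℕ → Y} {ga : ℕ → ℕ → Y} {I : Set (X × Y)} {h : Fin L.K → Y}
  {T : Set (X × Y × Z)}

/-- The stage function of an automaton. -/
private def PathS_hv (P : L.PathSys S) (act : Fin P.N → Y → Z → Z) (ga : ℕ → ℕ → Y) (e : ℕ) :
    ℕ → Z
  | 0 => act (P.pth e 0) (ga e 0) ⊥
  | t + 1 => act (P.pth e (t + 1)) (ga e (t + 1)) (PathS_hv P act ga e t)

private theorem PathS_isAp (act : Fin P.N → Y → Z → Z) (hact : ∀ q γ z, z ≤ act q γ z)
    (hga : IsAp ga) : IsAp (PathS_hv P act ga) := by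
  constructor
  · have hA : Primrec fun a : Fin P.N × Y × Z => act a.1 a.2.1 a.2.2 := Primrec.dom_finite _
    have hf : Primrec fun p : ℕ × ℕ => p.2 := Primrec.snd
    have hg : Primrec fun p : ℕ × ℕ => act (P.pth p.1 0) (ga p.1 0) ⊥ :=
      hA.comp (Primrec.pair (P.prim.comp Primrec.fst (Primrec.const 0))
        (Primrec.pair (hga.prim.comp Primrec.fst (Primrec.const 0)) (Primrec.const ⊥)))
    have he : Primrec fun x : (ℕ × ℕ) × (ℕ × Z) => x.1.1 := Primrec.fst.comp Primrec.fst
    have hn : Primrec fun x : (ℕ × ℕ) × (ℕ × Z) => x.2.1 + 1 :=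
      Primrec.succ.comp (Primrec.fst.comp Primrec.snd)
    have hh : Primrec₂ fun (p : ℕ × ℕ) (x : ℕ × Z) =>
        act (P.pth p.1 (x.1 + 1)) (ga p.1 (x.1 + 1)) x.2 :=
      hA.comp (Primrec.pair (P.prim.comp he hn) (Primrec.pair (hga.prim.comp he hn)
        (Primrec.snd.comp Primrec.snd)))
    have h1 := Primrec.nat_rec' hf hg hh
    refine h1.of_eq ?_
    rintro ⟨e, t⟩
    show (Nat.rec _ _ t : Z) = PathS_hv P act ga e t
    induction t with
    | zero => rfl
    | succ t ih =>
      show act _ _ _ = act _ _ _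
      rw [ih]
  · intro e
    apply monotone_nat_of_le_succ
    intro t
    exact hact _ _ _

/-- The strategy on the regular numbers. -/
theorem exists_regular (hga : IsAp ga) (hgl : Lim ga g) (hW : L.Win S I h T) :
    ∃ hv : ℕ → ℕ → Z, IsAp hv ∧ ∀ e z,
      (∀ q, P.NL q → e ∈ P.B q → e ∉ P.D q → P.GoodAt I h ga q e) →
      (P.NL (P.lim e) → P.GoodAt I h ga (P.lim e) e) →
      (P.rt (P.lim e) = true → P.NL (P.lim e) → g e = h (P.nd (P.lim e))) →
      L.Comp I (P.nd (P.lim e)) (g e) → (∃ t, ∀ u, t ≤ u → hv e u = z) →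
      (P.st e, g e, z) ∈ T := by
  classical
  obtain ⟨r, hr⟩ := exists_resp L I T
  -- the values at the root positions
  have hz : ∀ s : Fin L.K, ∃ ζ : Z, s ∈ S → (L.ch s).Nonempty →
      (L.lab s, h s, ζ) ∈ T ∧ ∀ c ∈ L.ch s, L.EW I T c (h s) ζ := by
    intro s
    by_cases hs : s ∈ S ∧ (L.ch s).Nonempty
    · obtain ⟨ζ, h1⟩ := hW.2 s hs.1 hs.2.ne_empty
      exact ⟨ζ, fun _ _ => h1⟩
    · exact ⟨⊥, fun h1 h2 => absurd ⟨h1, h2⟩ hs⟩
  choose ze hze using hz
  set act : Fin P.N → Y → Z → Z := fun q γ z =>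
    if P.rt q = true ∧ P.NL q then (if γ = h (P.nd q) ∧ z = ⊥ then ze (P.nd q) else z)
    else if L.Comp I (P.nd q) γ then r (P.nd q) γ z else z with hactd
  have act1 : ∀ q γ z, P.rt q = true ∧ P.NL q →
      act q γ z = if γ = h (P.nd q) ∧ z = ⊥ then ze (P.nd q) else z := by
    intro q γ z hq
    simp only [hactd]
    rw [if_pos hq]
  have act2 : ∀ q γ z, ¬ (P.rt q = true ∧ P.NL q) →
      act q γ z = if L.Comp I (P.nd q) γ then r (P.nd q) γ z else z := by
    intro q γ z hq
    simp only [hactd]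
    rw [if_neg hq]
  have hact : ∀ q γ z, z ≤ act q γ z := by
    intro q γ z
    by_cases hq : P.rt q = true ∧ P.NL q
    · rw [act1 q γ z hq]
      split_ifs with h1
      · rw [h1.2]
        exact bot_le
      · exact le_rfl
    · rw [act2 q γ z hq]
      split_ifs with h1
      · exact (hr _ _ _).1
      · exact le_rfl
  -- the two rules
  have rule1 : ∀ q γ z, P.rt q = true ∧ P.NL q → (z = ⊥ ∨ z = ze (P.nd q)) →
      (act q γ z = ⊥ ∨ act q γ z = ze (P.nd q)) ∧
      ((γ = h (P.nd q) ∨ z = ze (P.nd q)) → act q γ z = ze (P.nd q)) := by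
    intro q γ z hq hzz
    rw [act1 q γ z hq]
    split_ifs with h1
    · exact ⟨Or.inr rfl, fun _ => rfl⟩
    · refine ⟨hzz, ?_⟩
      rintro (h2 | h2)
      · rcases hzz with h3 | h3
        · exact absurd ⟨h2, h3⟩ h1
        · exact h3
      · exact h2
  have rule2 : ∀ q γ z, ¬ (P.rt q = true ∧ P.NL q) → L.EW I T (P.nd q) γ z →
      L.EW I T (P.nd q) γ (act q γ z) ∧
      ((L.Comp I (P.nd q) γ ∨ ∀ c ∈ L.ch (P.nd q), L.EW I T c γ z) →
        ∀ c ∈ L.ch (P.nd q), L.EW I T c γ (act q γ z)) := by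
    intro q γ z hq hE
    rw [act2 q γ z hq]
    split_ifs with h1
    · obtain ⟨-, h3, -, h5, -⟩ := (hr (P.nd q) γ z).2 hE h1
      exact ⟨h5, fun _ => h3⟩
    · refine ⟨hE, ?_⟩
      rintro (h2 | h2)
      · exact absurd h2 h1
      · exact h2
  refine ⟨PathS_hv P act ga, PathS_isAp act hact hga, ?_⟩
  intro e z hB hD hroot hcomp hlimz
  have hgood : ∀ q, P.NL q → e ∈ P.B q → P.GoodAt I h ga q e := by
    intro q hq hq1
    by_cases hq2 : e ∈ P.D q
    · have h1 := P.mem_D_iff.1 hq2
      rw [← h1]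
      exact hD (by rw [h1]; exact hq)
    · exact hB q hq hq1 hq2
  -- the invariant
  have inv : ∀ t, ((P.rt (P.pth e t) = true ∧ P.NL (P.pth e t)) →
        (PathS_hv P act ga e t = ⊥ ∨ PathS_hv P act ga e t = ze (P.nd (P.pth e t))) ∧
        ((∃ s, s ≤ t ∧ P.pth e s = P.pth e t ∧ ga e s = h (P.nd (P.pth e t))) →
          PathS_hv P act ga e t = ze (P.nd (P.pth e t)))) ∧
      (¬ (P.rt (P.pth e t) = true ∧ P.NL (P.pth e t)) →
        L.EW I T (P.nd (P.pth e t)) (ga e t) (PathS_hv P act ga e t) ∧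
        ((∃ s, s ≤ t ∧ P.pth e s = P.pth e t ∧ L.Comp I (P.nd (P.pth e t)) (ga e s)) →
          ∀ c ∈ L.ch (P.nd (P.pth e t)), L.EW I T c (ga e t) (PathS_hv P act ga e t))) := by
    intro t
    induction t with
    | zero =>
      have hv0 : PathS_hv P act ga e 0 = act (P.pth e 0) (ga e 0) ⊥ := rfl
      rw [hv0]
      constructor
      · intro hq
        obtain ⟨h1, h2⟩ := rule1 (P.pth e 0) (ga e 0) ⊥ hq (Or.inl rfl)
        refine ⟨h1, ?_⟩
        rintro ⟨s, hs, -, hs2⟩
        have : s = 0 := by omega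
        rw [this] at hs2
        exact h2 (Or.inl hs2)
      · intro hq
        have hleaf : L.ch (P.nd (P.pth e 0)) = ∅ := by
          rw [← Finset.not_nonempty_iff_eq_empty]
          intro hne
          exact hq ⟨P.zero e, hne⟩
        have hE : L.EW I T (P.nd (P.pth e 0)) (ga e 0) ⊥ :=
          (hW.1 _ (P.node_nd _) hleaf).mono bot_le
        obtain ⟨h1, h2⟩ := rule2 (P.pth e 0) (ga e 0) ⊥ hq hE
        refine ⟨h1, ?_⟩
        intro _ c hc
        rw [hleaf] at hc
        exact absurd hc (Finset.notMem_empty c)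
    | succ t ih =>
      have hvs : PathS_hv P act ga e (t + 1) =
        act (P.pth e (t + 1)) (ga e (t + 1)) (PathS_hv P act ga e t) := rfl
      rw [hvs]
      set zt := PathS_hv P act ga e t with hzt
      have hmono : ga e t ≤ ga e (t + 1) := hga.mono e (Nat.le_succ t)
      rcases P.step e t with h0 | ⟨c, hc, h0⟩
      · rw [h0]
        set q := P.pth e t with hqd
        constructor
        · intro hq
          obtain ⟨h1, h2⟩ := ih.1 hq
          obtain ⟨h3, h4⟩ := rule1 q (ga e (t + 1)) zt hq h1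
          refine ⟨h3, ?_⟩
          rintro ⟨s, hs, hs1, hs2⟩
          rcases Nat.lt_or_ge t s with h5 | h5
          · have : s = t + 1 := by omega
            rw [this] at hs2
            exact h4 (Or.inl hs2)
          · exact h4 (Or.inr (h2 ⟨s, h5, hs1, hs2⟩))
        · intro hq
          obtain ⟨h1, h2⟩ := ih.2 hq
          obtain ⟨h3, h4⟩ := rule2 q (ga e (t + 1)) zt hq (h1.mono hmono)
          refine ⟨h3, ?_⟩
          rintro ⟨s, hs, hs1, hs2⟩
          rcases Nat.lt_or_ge t s with h5 | h5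
          · have : s = t + 1 := by omega
            rw [this] at hs2
            exact h4 (Or.inl hs2)
          · exact h4 (Or.inr fun c hc => (h2 ⟨s, h5, hs1, hs2⟩ c hc).mono hmono)
      · -- arrival at a child position
        set q := P.pth e t with hqd
        have hnl : P.NL q := ⟨c, hc⟩
        have hnd : P.nd (P.kid q c) = c := P.nd_kid q c hc
        have hrt : P.rt (P.kid q c) = false := P.rt_kid q c hc
        have hne : P.kid q c ≠ q := by
          intro h1
          have h2 := L.lt_ch _ c hc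
          rw [h1] at hnd
          rw [hnd] at h2
          exact lt_irrefl _ h2
        -- goodness at the left position
        have hch : ∀ d ∈ L.ch (P.nd q), L.EW I T d (ga e (t + 1)) zt := by
          obtain ⟨s, hs, hs1, hs2⟩ := hgood q hnl ⟨t, rfl⟩
          have hst : s ≤ t := by
            by_contra hcon
            have h1 := P.between (t := t) (u := s) (w := t + 1) hqd.symm hs (Nat.le_succ t)
              (by omega)
            rw [h0] at h1
            exact hne h1
          intro d hd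
          by_cases hq : P.rt q = true
          · have h1 := (ih.1 ⟨hq, hnl⟩).2 ⟨s, hst, hs, hs1 hq⟩
            have h2 := hze (P.nd q) (P.rt_nd q hq) hnl
            rw [h1]
            refine (h2.2 d hd).mono ?_
            rw [← hs1 hq]
            exact hga.mono e (by omega)
          · have hq' : P.rt q = false := by simpa using hq
            have h1 := (ih.2 fun h2 => hq h2.1).2 ⟨s, hst, hs, hs2 hq'⟩ d hd
            exact h1.mono hmono
        have hnot : ¬ (P.rt (P.kid q c) = true ∧ P.NL (P.kid q c)) := by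
          rintro ⟨h1, -⟩
          rw [hrt] at h1
          exact absurd h1 (by simp)
        rw [h0]
        refine ⟨fun hq => absurd hq hnot, fun _ => ?_⟩
        have hE : L.EW I T (P.nd (P.kid q c)) (ga e (t + 1)) zt := by
          rw [hnd]
          exact hch c hc
        obtain ⟨h3, h4⟩ := rule2 (P.kid q c) (ga e (t + 1)) zt hnot hE
        refine ⟨h3, ?_⟩
        rintro ⟨s, hs, hs1, hs2⟩
        rcases Nat.lt_or_ge t s with h5 | h5
        · have : s = t + 1 := by omega
          rw [this] at hs2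
          exact h4 (Or.inl hs2)
        · exfalso
          have h6 := P.between (t := s) (u := t + 1) (w := t) hs1 h0 h5 (Nat.le_succ t)
          exact hne h6.symm
  -- the end
  obtain ⟨t1, ht1⟩ := P.mem_D_iff.2 (rfl : P.lim e = P.lim e)
  obtain ⟨t2, ht2⟩ := hgl e
  obtain ⟨t3, ht3⟩ := hlimz
  show (L.lab (P.nd (P.lim e)), g e, z) ∈ T
  by_cases hq : P.rt (P.lim e) = true ∧ P.NL (P.lim e)
  · obtain ⟨s, hs, hs1, -⟩ := hD hq.2
    set t := max (max t1 t2) (max t3 s) with ht
    have e1 : P.pth e t = P.lim e := ht1 t (by omega)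
    have e3 : PathS_hv P act ga e t = z := ht3 t (by omega)
    have h1 := (inv t).1 (by rw [e1]; exact hq)
    rw [e1] at h1
    have h2 := h1.2 ⟨s, by omega, hs, hs1 hq.1⟩
    rw [e3] at h2
    rw [h2, hroot hq.1 hq.2]
    exact (hze _ (P.rt_nd _ hq.1) hq.2).1
  · set t := max (max t1 t2) t3 with ht
    have e1 : P.pth e t = P.lim e := ht1 t (by omega)
    have e2 : ga e t = g e := ht2 t (by omega)
    have e3 : PathS_hv P act ga e t = z := ht3 t (by omega)
    have e1' : P.pth e (t + 1) = P.lim e := ht1 (t + 1) (by omega)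
    have e2' : ga e (t + 1) = g e := ht2 (t + 1) (by omega)
    have e3' : PathS_hv P act ga e (t + 1) = z := ht3 (t + 1) (by omega)
    have h1 := ((inv t).2 (by rw [e1]; exact hq)).1
    rw [e1, e2, e3] at h1
    have h2 : act (P.pth e (t + 1)) (ga e (t + 1)) (PathS_hv P act ga e t) = z := e3'
    rw [e1', e2', e3, act2 _ _ _ hq, if_pos hcomp] at h2
    have h3 := ((hr (P.nd (P.lim e)) (g e) z).2 h1 hcomp).1
    rw [h2] at h3
    exact h3

end PathSys

end TSys

end Pool.Agent.Lib.MP_45c83f_lc
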