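import Pool.Agent.Lib.MP_45c83f_lc.Step
import Pool.Agent.Lib.MP_45c83f_lc.Types

set_option autoImplicit false

/-!
# The sets of the path system (text, section 4)
-/

namespace Pool.Agent.Lib.MP_45c83f_lc

namespace TSys

variable {X : Type} [PartialOrder X] (L : TSys X)

/-- The positions of the forest: lists, the head is the current node. -/
inductive Pos (S : Finset (Fin L.K)) : List (Fin L.K) → Prop
  | root (s : Fin L.K) : s ∈ S → Pos S [s]
  | cons (c v : Fin L.K) (p : List (Fin L.K)) : Pos S (v :: p) → c ∈ L.ch v → Pos S (c :: v :: p)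

variable {L}

private theorem pathSets_nodup {S : Finset (Fin L.K)} {l : List (Fin L.K)} (h : L.Pos S l) :
    l.Nodup ∧ ∀ v p, l = v :: p → ∀ w ∈ p, L.lab w < L.lab v := by
  induction h with
  | root s hs =>
    refine ⟨List.nodup_singleton s, ?_⟩
    intro v p hl w hw
    rw [List.cons.injEq] at hl
    rw [← hl.2] at hw
    simp at hw
  | cons c v p hp hc ih =>
    have hlt : ∀ w ∈ v :: p, L.lab w < L.lab c := by
      intro w hw
      rcases List.mem_cons.mp hw with rfl | hw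
      · exact L.lt_ch _ _ hc
      · exact (ih.2 v p rfl w hw).trans (L.lt_ch _ _ hc)
    refine ⟨List.nodup_cons.mpr ⟨fun hm => lt_irrefl _ (hlt c hm), ih.1⟩, ?_⟩
    intro v' p' hl w hw
    rw [List.cons.injEq] at hl
    rw [← hl.2] at hw
    rw [← hl.1]
    exact hlt w hw

/-- There are only finitely many positions. -/
theorem pos_finite (S : Finset (Fin L.K)) : {p | L.Pos S p}.Finite := by
  refine (List.finite_length_le (Fin L.K) L.K).subset ?_
  intro p hp
  have h := (pathSets_nodup hp).1.length_le_card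
  simpa using h

theorem Pos.node {S : Finset (Fin L.K)} {v : Fin L.K} {p : List (Fin L.K)}
    (h : L.Pos S (v :: p)) : L.Node S v := by
  have key : ∀ l, L.Pos S l → ∀ v p, l = v :: p → L.Node S v := by
    intro l hl
    induction hl with
    | root s hs =>
      intro v p hl
      rw [List.cons.injEq] at hl
      rw [← hl.1]
      exact Node.of_mem hs
    | cons c v p hp hc ih =>
      intro v' p' hl
      rw [List.cons.injEq] at hl
      rw [← hl.1]
      exact (ih v p rfl).desc (Desc.of_ch hc)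
  exact key _ h v p rfl

variable (L)

/-- The complement of the sets of the children. -/
def DD (B : List (Fin L.K) → Set ℕ) (v : Fin L.K) (p : List (Fin L.K)) : Set ℕ :=
  B (v :: p) \ ⋃ c ∈ L.ch v, B (c :: v :: p)

/-- A system of sets on the positions. -/
structure SetSys (S : Finset (Fin L.K)) (B : List (Fin L.K) → Set ℕ) : Prop where
  re : ∀ p, L.Pos S p → RESet (B p)
  root : ∀ s ∈ S, Rec (B [s]) ∧ (B [s]).Infinite
  root_disj : ∀ s ∈ S, ∀ s' ∈ S, s ≠ s' → Disjoint (B [s]) (B [s'])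
  root_cov : ∀ e, ∃ s ∈ S, e ∈ B [s]
  root_fun : ∃ r : ℕ → Fin L.K, Primrec r ∧ (∀ e, r e ∈ S) ∧ ∀ s ∈ S, B [s] = {e | r e = s}
  sub : ∀ v p, L.Pos S (v :: p) → ∀ c ∈ L.ch v, B (c :: v :: p) ⊆ B (v :: p)
  disj : ∀ v p, L.Pos S (v :: p) → ∀ c ∈ L.ch v, ∀ d ∈ L.ch v, c ≠ d →
    Disjoint (B (c :: v :: p)) (B (d :: v :: p))
  inf : ∀ v p, L.Pos S (v :: p) → (L.DD B v p).Infinite
  coh : ∀ s ∈ S, (L.ch s).Nonempty → ∀ W : Set ℕ, RESet W →
    (W ∩ L.DD B s []).Finite ∨ (L.DD B s [] \ W).Finite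
  ext : ∀ v p, L.Pos S (v :: p) → ∀ c ∈ L.ch v, ∀ Q : Set ℕ, RESet Q →
    (Q ∩ L.DD B v p).Infinite → (Q ∩ L.DD B c (v :: p)).Infinite
  small : ∀ v p, L.Pos S (v :: p) → p ≠ [] → (L.ch v).Nonempty → ∀ H G : Set ℕ, RESet H →
    RESet G → Disjoint H G → H ∪ G = B (v :: p) → (H ∩ L.DD B v p).Finite → Rec H
  major : ∀ v p, L.Pos S (v :: p) → p ≠ [] → (L.ch v).Nonempty → ∀ H : Set ℕ, Rec H →
    H ⊆ B (v :: p) → (H ∩ L.DD B v p).Finite

/-- The sets of the positions, from the choice functions of the two steps. -/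
private def pathSetsB (r : ℕ → Fin L.K)
    (s1 s2 : Set ℕ → Finset (Fin L.K) → Fin L.K → Set ℕ) : List (Fin L.K) → Set ℕ
  | [] => Set.univ
  | [s] => {e | r e = s}
  | [c, v] => s1 {e | r e = v} (L.ch v) c
  | c :: v :: w :: p => s2 (pathSetsB r s1 s2 (v :: w :: p)) (L.ch v) c

theorem exists_setSys (S : Finset (Fin L.K)) (hS : S.Nonempty) : ∃ B, L.SetSys S B := by
  classical
  obtain ⟨r, hrS, hri, hrR, hrp⟩ := exists_rec_partition S hS
  have e1 : ∀ (R : Set ℕ) (C : Finset (Fin L.K)), ∃ B : Fin L.K → Set ℕ,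
      (Rec R → R.Infinite → C.Nonempty → (∀ c ∈ C, RESet (B c) ∧ B c ⊆ R ∧ ¬ RESet (B c)ᶜ) ∧
      (∀ c ∈ C, ∀ d ∈ C, c ≠ d → Disjoint (B c) (B d)) ∧
      (R \ ⋃ c ∈ C, B c).Infinite ∧
      (∀ W : Set ℕ, RESet W → (W ∩ (R \ ⋃ c ∈ C, B c)).Finite ∨
        ((R \ ⋃ c ∈ C, B c) \ W).Finite) ∧
      ∀ Q : Set ℕ, RESet Q → (Q ∩ (R \ ⋃ c ∈ C, B c)).Infinite →
        ∀ c ∈ C, ¬ RESet (Q \ B c)) := by
    intro R C
    by_cases h : Rec R ∧ R.Infinite ∧ C.Nonempty
    · obtain ⟨B, hB⟩ := exists_rootStep h.1 h.2.1 C h.2.2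
      exact ⟨B, fun _ _ _ => hB⟩
    · exact ⟨fun _ => ∅, fun h1 h2 h3 => absurd ⟨h1, h2, h3⟩ h⟩
  have e2 : ∀ (B₀ : Set ℕ) (C : Finset (Fin L.K)), ∃ B : Fin L.K → Set ℕ,
      (RESet B₀ → ¬ RESet B₀ᶜ → C.Nonempty →
      (∀ c ∈ C, RESet (B c) ∧ B c ⊆ B₀ ∧ ¬ RESet (B c)ᶜ) ∧
      (∀ c ∈ C, ∀ d ∈ C, c ≠ d → Disjoint (B c) (B d)) ∧
      (∀ H G : Set ℕ, RESet H → RESet G → Disjoint H G → H ∪ G = B₀ →
        (H ∩ (B₀ \ ⋃ c ∈ C, B c)).Finite → Rec H) ∧
      (∀ H : Set ℕ, Rec H → H ⊆ B₀ → (H ∩ (B₀ \ ⋃ c ∈ C, B c)).Finite) ∧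
      (∀ Q : Set ℕ, RESet Q → (Q ∩ (B₀ \ ⋃ c ∈ C, B c)).Finite → RESet (Q \ B₀)) ∧
      ∀ Q : Set ℕ, RESet Q → (Q ∩ (B₀ \ ⋃ c ∈ C, B c)).Infinite →
        ∀ c ∈ C, ¬ RESet (Q \ B c)) := by
    intro B₀ C
    by_cases h : RESet B₀ ∧ ¬ RESet B₀ᶜ ∧ C.Nonempty
    · obtain ⟨B, hB⟩ := exists_nodeStep h.1 h.2.1 C h.2.2
      exact ⟨B, fun _ _ _ => hB⟩
    · exact ⟨fun _ => ∅, fun h1 h2 h3 => absurd ⟨h1, h2, h3⟩ h⟩
  choose s1 hs1 using e1
  choose s2 hs2 using e2
  obtain ⟨B, hB⟩ : ∃ B, B = pathSetsB L r s1 s2 := ⟨_, rfl⟩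
  have hB1 : ∀ s, B [s] = {e | r e = s} := fun s => by rw [hB]; rfl
  have hB2 : ∀ c v, B [c, v] = s1 (B [v]) (L.ch v) c := fun c v => by rw [hB]; rfl
  have hB3 : ∀ c v w p, B (c :: v :: w :: p) = s2 (B (v :: w :: p)) (L.ch v) c :=
    fun c v w p => by rw [hB]; rfl
  have hroot : ∀ s ∈ S, Rec (B [s]) ∧ (B [s]).Infinite := fun s hs => by
    rw [hB1]; exact ⟨hrR s, hri s hs⟩
  have hposr : ∀ v, L.Pos S [v] → v ∈ S := by
    intro v hv
    cases hv with
    | root _ h => exact h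
  have hposc : ∀ c v p, L.Pos S (c :: v :: p) → L.Pos S (v :: p) ∧ c ∈ L.ch v := by
    intro c v p hv
    cases hv with
    | cons _ _ _ h h' => exact ⟨h, h'⟩
  -- the union of the sets of the children
  have hU1 : ∀ v, (⋃ c ∈ L.ch v, B [c, v]) = ⋃ c ∈ L.ch v, s1 (B [v]) (L.ch v) c :=
    fun v => by simp only [hB2]
  have hU2 : ∀ v w p, (⋃ c ∈ L.ch v, B (c :: v :: w :: p)) =
      ⋃ c ∈ L.ch v, s2 (B (v :: w :: p)) (L.ch v) c := fun v w p => by simp only [hB3]
  have hD1 : ∀ v, L.DD B v [] = B [v] \ ⋃ c ∈ L.ch v, s1 (B [v]) (L.ch v) c := fun v => by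
    unfold DD; rw [hU1]
  have hD2 : ∀ v w p, L.DD B v (w :: p) =
      B (v :: w :: p) \ ⋃ c ∈ L.ch v, s2 (B (v :: w :: p)) (L.ch v) c := fun v w p => by
    unfold DD; rw [hU2]
  -- positions of length at least two
  have hnr : ∀ l, L.Pos S l → ∀ c v p, l = c :: v :: p → RESet (B l) ∧ ¬ RESet (B l)ᶜ := by
    intro l hl
    induction hl with
    | root s hs =>
      intro c v p h
      simp at h
    | cons c v p hp hc ih =>
      intro c' v' p' _
      have hne : (L.ch v).Nonempty := ⟨c, hc⟩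
      cases p with
      | nil =>
        have hv := hroot v (hposr v hp)
        rw [hB2]
        have h := (hs1 (B [v]) (L.ch v) hv.1 hv.2 hne).1 c hc
        exact ⟨h.1, h.2.2⟩
      | cons w p =>
        have hv := ih v w p rfl
        rw [hB3]
        have h := (hs2 (B (v :: w :: p)) (L.ch v) hv.1 hv.2 hne).1 c hc
        exact ⟨h.1, h.2.2⟩
  have hre : ∀ p, L.Pos S p → RESet (B p) := by
    intro p hp
    cases hp with
    | root s hs => exact (hroot s hs).1.1
    | cons c v p h h' => exact (hnr _ (Pos.cons c v p h h') c v p rfl).1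
  -- the two steps at the positions
  have st1 := fun v (hv : L.Pos S [v]) (hne : (L.ch v).Nonempty) =>
    hs1 (B [v]) (L.ch v) (hroot v (hposr v hv)).1 (hroot v (hposr v hv)).2 hne
  have st2 := fun v w p (hv : L.Pos S (v :: w :: p)) (hne : (L.ch v).Nonempty) =>
    hs2 (B (v :: w :: p)) (L.ch v) (hnr _ hv v w p rfl).1 (hnr _ hv v w p rfl).2 hne
  have hlast : ∀ v p, L.Pos S (v :: p) → ∀ c ∈ L.ch v, ∀ Q : Set ℕ, RESet Q →
      (Q ∩ L.DD B v p).Infinite → ¬ RESet (Q \ B (c :: v :: p)) := by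
    intro v p hv c hc Q hQ hQi
    cases p with
    | nil =>
      rw [hB2]
      rw [hD1] at hQi
      exact (st1 v hv ⟨c, hc⟩).2.2.2.2 Q hQ hQi c hc
    | cons w p =>
      rw [hB3]
      rw [hD2] at hQi
      exact (st2 v w p hv ⟨c, hc⟩).2.2.2.2.2 Q hQ hQi c hc
  have hext : ∀ v p, L.Pos S (v :: p) → ∀ c ∈ L.ch v, ∀ Q : Set ℕ, RESet Q →
      (Q ∩ L.DD B v p).Infinite → (Q ∩ L.DD B c (v :: p)).Infinite := by
    intro v p hv c hc Q hQ hQi hfin
    apply hlast v p hv c hc Q hQ hQi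
    rcases (L.ch c).eq_empty_or_nonempty with he | hne
    · have hDc : L.DD B c (v :: p) = B (c :: v :: p) := by
        unfold DD
        rw [he]
        simp
      rw [hDc] at hfin
      refine hQ.change (hfin.subset ?_)
      intro x hx
      rw [Set.mem_symmDiff] at hx
      rcases hx with ⟨h1, h2⟩ | ⟨h1, h2⟩
      · refine ⟨h1, ?_⟩
        by_contra h3
        exact h2 ⟨h1, h3⟩
      · exact absurd h1.1 h2
    · have hc' : L.Pos S (c :: v :: p) := Pos.cons c v p hv hc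
      rw [hD2] at hfin
      exact (st2 c v p hc' hne).2.2.2.2.1 Q hQ hfin
  have huniv : RESet (Set.univ : Set ℕ) := by
    simpa using RESet.compl_of_finite Set.finite_empty
  have hinf : ∀ l, L.Pos S l → ∀ v p, l = v :: p → (L.DD B v p).Infinite := by
    intro l hl
    induction hl with
    | root s hs =>
      intro v p h
      rw [List.cons.injEq] at h
      rw [← h.1, ← h.2]
      rcases (L.ch s).eq_empty_or_nonempty with he | hne
      · unfold DD
        rw [he]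
        simpa using (hroot s hs).2
      · rw [hD1]
        exact (st1 s (Pos.root s hs) hne).2.2.1
    | cons c v p hp hc ih =>
      intro v' p' h
      rw [List.cons.injEq] at h
      rw [← h.1, ← h.2]
      have h1 := ih v p rfl
      have h2 := hext v p hp c hc Set.univ huniv (by rwa [Set.univ_inter])
      rwa [Set.univ_inter] at h2
  refine ⟨B, ?_⟩
  constructor
  case re => exact hre
  case root => exact hroot
  case root_disj =>
    intro s _ s' _ hne
    rw [hB1, hB1, Set.disjoint_left]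
    intro e h1 h2
    exact hne (h1.symm.trans h2)
  case root_cov =>
    intro e
    exact ⟨r e, hrS e, by rw [hB1]; rfl⟩
  case root_fun => exact ⟨r, hrp, hrS, fun s _ => hB1 s⟩
  case sub =>
    intro v p hv c hc
    cases p with
    | nil =>
      rw [hB2]
      exact ((st1 v hv ⟨c, hc⟩).1 c hc).2.1
    | cons w p =>
      rw [hB3]
      exact ((st2 v w p hv ⟨c, hc⟩).1 c hc).2.1
  case disj =>
    intro v p hv c hc d hd hne
    cases p with
    | nil =>
      rw [hB2, hB2]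
      exact (st1 v hv ⟨c, hc⟩).2.1 c hc d hd hne
    | cons w p =>
      rw [hB3, hB3]
      exact (st2 v w p hv ⟨c, hc⟩).2.1 c hc d hd hne
  case inf =>
    intro v p hv
    exact hinf _ hv v p rfl
  case coh =>
    intro s hs hne W hW
    rw [hD1]
    exact (st1 s (Pos.root s hs) hne).2.2.2.1 W hW
  case ext => exact hext
  case small =>
    intro v p hv hp hne H G hH hG hd hu hf
    cases p with
    | nil => exact absurd rfl hp
    | cons w p =>
      rw [hD2] at hf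
      exact (st2 v w p hv hne).2.2.1 H G hH hG hd hu hf
  case major =>
    intro v p hv hp hne H hH hsub
    cases p with
    | nil => exact absurd rfl hp
    | cons w p =>
      rw [hD2]
      exact (st2 v w p hv hne).2.2.2.1 H hH hsub

end TSys

end Pool.Agent.Lib.MP_45c83f_lc
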