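import Pool.Agent.Lib.MP_45c83f_lc.PathH
import Pool.Agent.Lib.MP_45c83f_lc.PathA
import Pool.Agent.Lib.MP_45c83f_lc.Facts

set_option autoImplicit false

/-!
# Path systems: the strategy on the waiting numbers (text, 4.5)
-/

namespace Pool.Agent.Lib.MP_45c83f_lc

namespace TSys

variable {X Y Z : Type} [PartialOrder X] [Finite X] [Primcodable X] [PartialOrder Y] [Finite Y]
  [OrderBot Y] [Primcodable Y] [PartialOrder Z] [OrderBot Z] [Finite Z] [Primcodable Z]
  {L : TSys X} {S : Finset (Fin L.K)}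

namespace PathSys

variable {P : L.PathSys S} {g : ℕ → Y} {ga : ℕ → ℕ → Y} {I : Set (X × Y)} {h : Fin L.K → Y}
  {T : Set (X × Y × Z)}

omit [Finite X] [Primcodable X] in
/-- A number at a leaf position stays there. -/
private theorem PathW_stay (P : L.PathSys S) {e u : ℕ} (hu : L.ch (P.nd (P.pth e u)) = ∅) :
    P.pth e u = P.lim e := by
  have h1 : ∀ w, u ≤ w → P.pth e w = P.pth e u := by
    intro w hw
    induction w, hw using Nat.le_induction with
    | base => rfl
    | succ w _ ih =>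
      rcases P.step e w with h1 | ⟨c, hc, -⟩
      · rw [h1, ih]
      · rw [ih, hu] at hc
        exact absurd hc (Finset.notMem_empty c)
  exact (P.mem_D_iff.1 ⟨u, h1⟩).symm

open Classical in
/-- One step of the strategy. -/
private noncomputable def PathW_act (L : TSys X) (I : Set (X × Y)) (r : Fin L.K → Y → Z → Z)
    (v : Fin L.K) (γ : Y) (z : Z) : Z :=
  if L.ch v = ∅ ∧ L.Comp I v γ then r v γ z else z

/-- The strategy on the numbers which wait for a leaf. -/
theorem exists_waiting (hga : IsAp ga) (hgl : Lim ga g) (hW : L.Win S I h T) :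
    ∃ hl : ℕ → ℕ → Z, IsAp hl ∧ ∀ e z, ¬ P.NL (P.lim e) →
      L.Comp I (P.nd (P.lim e)) (g e) → (∃ t, ∀ u, t ≤ u → hl e u = z) →
      (P.st e, g e, z) ∈ T := by
  obtain ⟨r, hr⟩ := exists_resp L I T
  let F : Fin P.N × Y × Z → Z := fun p => PathW_act L I r (P.nd p.1) p.2.1 p.2.2
  let hl : ℕ → ℕ → Z := fun e n =>
    n.rec (motive := fun _ => Z) ⊥ fun n z => F (P.pth e n, ga e n, z)
  have hl0 : ∀ e, hl e 0 = ⊥ := fun e => rfl
  have hls : ∀ e u, hl e (u + 1) =
      PathW_act L I r (P.nd (P.pth e u)) (ga e u) (hl e u) := fun e u => rfl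
  have hact : ∀ v γ z, z ≤ PathW_act L I r v γ z := by
    intro v γ z
    unfold PathW_act
    split_ifs
    · exact (hr v γ z).1
    · exact le_rfl
  have hprim : Primrec₂ hl := by
    refine Primrec.nat_rec (f := fun _ : ℕ => (⊥ : Z))
      (g := fun e p => F (P.pth e p.1, ga e p.1, p.2)) (Primrec.const _) ?_
    have h1 : Primrec fun q : ℕ × ℕ × Z => P.pth q.1 q.2.1 :=
      Primrec₂.comp P.prim Primrec.fst (Primrec.fst.comp Primrec.snd)
    have h2 : Primrec fun q : ℕ × ℕ × Z => ga q.1 q.2.1 :=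
      Primrec₂.comp hga.prim Primrec.fst (Primrec.fst.comp Primrec.snd)
    have h3 : Primrec fun q : ℕ × ℕ × Z => q.2.2 := Primrec.snd.comp Primrec.snd
    exact (Primrec.dom_finite F).comp (Primrec.pair h1 (Primrec.pair h2 h3))
  refine ⟨hl, ⟨hprim, fun e => monotone_nat_of_le_succ fun n => ?_⟩, ?_⟩
  · rw [hls]
    exact hact _ _ _
  · intro e z hNL hC hz
    have hch : L.ch (P.nd (P.lim e)) = ∅ := by
      rw [← Finset.not_nonempty_iff_eq_empty]
      exact hNL
    have hinv : ∀ u, L.EW I T (P.nd (P.lim e)) (ga e u) (hl e u) := by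
      intro u
      induction u with
      | zero =>
        rw [hl0]
        exact (hW.1 _ (P.node_nd _) hch).mono bot_le
      | succ u ih =>
        have hmono : ga e u ≤ ga e (u + 1) := hga.mono e (Nat.le_succ u)
        refine EW.mono ?_ hmono
        rw [hls]
        unfold PathW_act
        split_ifs with h1
        · have h2 : P.pth e u = P.lim e := PathW_stay P h1.1
          rw [h2] at h1 ⊢
          exact ((hr _ _ _).2 ih h1.2).2.2.2.1
        · exact ih
    obtain ⟨t, ht⟩ := hz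
    obtain ⟨t0, ht0⟩ := P.mem_D_iff.2 (rfl : P.lim e = P.lim e)
    obtain ⟨s0, hs0⟩ := hgl e
    have hu1 : t ≤ t + t0 + s0 := by omega
    have h1 := hls e (t + t0 + s0)
    have h2 := hinv (t + t0 + s0)
    rw [ht _ (by omega : t ≤ t + t0 + s0 + 1), ht _ hu1, ht0 _ (by omega : t0 ≤ t + t0 + s0),
      hs0 _ (by omega : s0 ≤ t + t0 + s0)] at h1
    rw [ht _ hu1, hs0 _ (by omega : s0 ≤ t + t0 + s0)] at h2
    unfold PathW_act at h1
    rw [if_pos ⟨hch, hC⟩] at h1
    have h3 := ((hr _ _ _).2 h2 hC).1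
    rw [← h1] at h3
    exact h3

end PathSys

end TSys

end Pool.Agent.Lib.MP_45c83f_lc
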