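import Pool.Agent.Lib.MP_45c83f_lc.PathS
import Pool.Agent.Lib.MP_45c83f_lc.PathW
import Pool.Agent.Lib.MP_45c83f_lc.PathH
import Pool.Agent.Lib.MP_45c83f_lc.PathA
import Pool.Agent.Lib.MP_45c83f_lc.Facts

set_option autoImplicit false

/-!
# Path systems: the combined strategy (text, 4.5)
-/

namespace Pool.Agent.Lib.MP_45c83f_lc

namespace TSys

variable {X Y Z : Type} [PartialOrder X] [Finite X] [Primcodable X] [PartialOrder Y] [Finite Y]
  [OrderBot Y] [Primcodable Y] [PartialOrder Z] [OrderBot Z] [Finite Z] [Primcodable Z]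
  {L : TSys X} {S : Finset (Fin L.K)}

namespace PathSys

variable {P : L.PathSys S} {g : ℕ → Y} {ga : ℕ → ℕ → Y} {I : Set (X × Y)} {h : Fin L.K → Y}
  {T : Set (X × Y × Z)}

/-- The combination of the two strategies. -/
private def PathT_G (p : Option Bool × Z × Z) : Z :=
  match p.1 with
  | none => ⊥
  | some false => p.2.1
  | some true => p.2.2

/-- The combination of two approximations, by means of a knowledge function. -/
private theorem PathT_comb {H : Set ℕ} (hR : Rec H) {a b : ℕ → ℕ → Z} (ha : IsAp a)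
    (hb : IsAp b) : ∃ f : ℕ → ℕ → Z, IsAp f ∧
      (∀ e z, e ∉ H → (∃ t, ∀ u, t ≤ u → f e u = z) → ∃ t, ∀ u, t ≤ u → a e u = z) ∧
      (∀ e z, e ∈ H → (∃ t, ∀ u, t ≤ u → f e u = z) → ∃ t, ∀ u, t ≤ u → b e u = z) := by
  obtain ⟨k, k0, k1, k2, -, k4⟩ := hR.exists_known
  have hG : Primrec (PathT_G (Z := Z)) := Primrec.dom_finite _
  refine ⟨fun e t => PathT_G (k e t, a e t, b e t), ⟨?_, ?_⟩, ?_, ?_⟩
  · exact hG.comp (Primrec.pair k0 (Primrec.pair ha.prim hb.prim))
  · intro e t u htu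
    rcases hk : k e t with _ | (_ | _)
    · simp only [hk, PathT_G]
      exact bot_le
    · simp only [hk, k1 e t u _ hk htu, PathT_G]
      exact ha.mono e htu
    · simp only [hk, k1 e t u _ hk htu, PathT_G]
      exact hb.mono e htu
  · rintro e z he ⟨t, ht⟩
    obtain ⟨s, c, hc⟩ := k4 e
    have hcf : c = false := by
      cases c with
      | false => rfl
      | true => exact absurd ((k2 e s true hc).1 rfl) he
    refine ⟨max s t, fun u hu => ?_⟩
    have h1 : PathT_G (k e u, a e u, b e u) = z := ht u ((le_max_right s t).trans hu)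
    rw [k1 e s u _ hc ((le_max_left s t).trans hu), hcf] at h1
    exact h1
  · rintro e z he ⟨t, ht⟩
    obtain ⟨s, c, hc⟩ := k4 e
    have hcf : c = true := (k2 e s c hc).2 he
    refine ⟨max s t, fun u hu => ?_⟩
    have h1 : PathT_G (k e u, a e u, b e u) = z := ht u ((le_max_right s t).trans hu)
    rw [k1 e s u _ hc ((le_max_left s t).trans hu), hcf] at h1
    exact h1

/-- (4.5) -/
theorem exists_strategy (hg : RE g) (hga : IsAp ga) (hgl : Lim ga g) (hW : L.Win S I h T)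
    (h1 : ∀ q, P.rt q = true → P.NL q → {e | e ∈ P.D q ∧ g e ≠ h (P.nd q)}.Finite)
    (h2 : ∀ q, {e | e ∈ P.D q ∧ ¬ L.Comp I (P.nd q) (g e)}.Finite)
    (h3 : ∀ q, P.NL q → {e | e ∈ P.D q ∧ ¬ P.GoodAt I h ga q e}.Finite)
    {H : Set ℕ} (hR : Rec H) (hH : {e | e ∈ H ∧ P.NL (P.lim e)}.Finite)
    (hH' : ∀ e, e ∉ H → ∀ q, P.NL q → e ∈ P.B q → e ∉ P.D q → P.GoodAt I h ga q e) :
    Pred P.st g T := by
  obtain ⟨hv, hvA, hvT⟩ := exists_regular (P := P) hga hgl hW
  obtain ⟨hl, hlA, hlT⟩ := exists_waiting (P := P) hga hgl hW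
  obtain ⟨f, hf, hfv, hfl⟩ := PathT_comb hR hvA hlA
  obtain ⟨w, hw⟩ := exists_lim hf.mono
  refine ⟨w, ⟨f, hf, hw⟩, ?_⟩
  have hb1 : (⋃ q : Fin P.N, {e | e ∈ P.D q ∧ P.rt q = true ∧ P.NL q ∧
      g e ≠ h (P.nd q)}).Finite := by
    refine Set.finite_iUnion fun q => ?_
    by_cases hq : P.rt q = true ∧ P.NL q
    · exact (h1 q hq.1 hq.2).subset fun e he => ⟨he.1, he.2.2.2⟩
    · refine Set.finite_empty.subset fun e he => ?_
      exact hq ⟨he.2.1, he.2.2.1⟩
  have hb2 : (⋃ q : Fin P.N, {e | e ∈ P.D q ∧ ¬ L.Comp I (P.nd q) (g e)}).Finite :=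
    Set.finite_iUnion fun q => h2 q
  have hb3 : (⋃ q : Fin P.N, {e | e ∈ P.D q ∧ P.NL q ∧ ¬ P.GoodAt I h ga q e}).Finite := by
    refine Set.finite_iUnion fun q => ?_
    by_cases hq : P.NL q
    · exact (h3 q hq).subset fun e he => ⟨he.1, he.2.2⟩
    · exact Set.finite_empty.subset fun e he => hq he.2.1
  refine (((hH.union hb1).union hb2).union hb3).subset fun e he => ?_
  by_contra hnot
  apply he
  have heD : e ∈ P.D (P.lim e) := P.mem_D_iff.2 rfl
  have hcomp : L.Comp I (P.nd (P.lim e)) (g e) := by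
    by_contra hne
    exact hnot (Or.inl (Or.inr (Set.mem_iUnion.2 ⟨P.lim e, heD, hne⟩)))
  by_cases heH : e ∈ H
  · have hNL : ¬ P.NL (P.lim e) := fun hN => hnot (Or.inl (Or.inl (Or.inl ⟨heH, hN⟩)))
    exact hlT e (w e) hNL hcomp (hfl e (w e) heH (hw e))
  · refine hvT e (w e) (hH' e heH) (fun hN => ?_) (fun hr hN => ?_) hcomp
      (hfv e (w e) heH (hw e))
    · by_contra hne
      exact hnot (Or.inr (Set.mem_iUnion.2 ⟨P.lim e, heD, hN, hne⟩))
    · by_contra hne
      exact hnot (Or.inl (Or.inl (Or.inr (Set.mem_iUnion.2 ⟨P.lim e, heD, hr, hN, hne⟩))))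

end PathSys

end TSys

end Pool.Agent.Lib.MP_45c83f_lc
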