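import Pool.Agent.Lib.MP_45c83f_lc.PathH
import Pool.Agent.Lib.MP_45c83f_lc.PathB

set_option autoImplicit false

/-!
# Path systems: validity (text, 4.4)
-/

namespace Pool.Agent.Lib.MP_45c83f_lc

namespace TSys

variable {X Y : Type} [PartialOrder X] [Finite X] [Primcodable X] [PartialOrder Y] [Finite Y]
  [Primcodable Y] {L : TSys X} {S : Finset (Fin L.K)}

namespace PathSys

variable {P : L.PathSys S} {g : ℕ → Y}

omit [Finite X] [Primcodable X] in
/-- A child position is not its parent position. -/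
private theorem kid_ne_self {q : Fin P.N} {c : Fin L.K} (hc : c ∈ L.ch (P.nd q)) :
    P.kid q c ≠ q := by
  intro h
  have h1 := P.nd_kid q c hc
  rw [h] at h1
  have h2 := L.lt_ch (P.nd q) c hc
  rw [h1] at h2
  exact lt_irrefl _ h2

omit [Finite X] [Primcodable X] [Finite Y] in
/-- The chain up to a position which the number leaves. -/
private theorem chain_aux {ga : ℕ → ℕ → Y} (hga : IsAp ga) {I : Set (X × Y)}
    {h : Fin L.K → Y} {e : ℕ}
    (hgood : ∀ q, P.NL q → e ∈ P.B q → e ∉ P.D q → P.GoodAt I h ga q e) :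
    ∀ t : ℕ, P.NL (P.pth e t) → e ∉ P.D (P.pth e t) →
      ∃ u, P.pth e u = P.pth e t ∧ ∃ s ∈ S,
        Relation.ReflTransGen (L.Step I) (s, h s) (P.nd (P.pth e t), ga e u) := by
  intro t
  induction t using Nat.strong_induction_on with
  | _ t ih =>
    intro hNL hD
    obtain ⟨w, hw, hwr, hwc⟩ := hgood (P.pth e t) hNL ⟨t, rfl⟩ hD
    cases hr : P.rt (P.pth e t) with
    | true =>
      refine ⟨w, hw, P.nd (P.pth e t), P.rt_nd _ hr, ?_⟩
      rw [hwr hr]
    | false =>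
      obtain ⟨q', c, hc, hq⟩ := P.par _ hr
      obtain ⟨u, hut, hu, -⟩ := P.B_kid hc hq.symm
      have hB : e ∈ P.B (P.kid q' c) := ⟨t, hq.symm⟩
      have hD' : e ∉ P.D (P.pth e u) := by
        rw [hu]
        exact P.not_D_kid hc hB
      have hNL' : P.NL (P.pth e u) := by
        rw [hu]
        exact ⟨c, hc⟩
      obtain ⟨v, hv, s, hs, hch⟩ := ih u hut hNL' hD'
      have hvw : v ≤ w := by
        by_contra hlt
        push Not at hlt
        obtain ⟨u', hu'w, hu', -⟩ := P.B_kid (t := w) hc (by rw [hw, hq])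
        have h1 := P.between hu' (hv.trans hu) hu'w.le hlt.le
        rw [hw, ← hq] at h1
        exact kid_ne_self hc h1
      refine ⟨w, hw, s, hs, hch.tail ⟨?_, hga.mono e hvw, hwc hr⟩⟩
      change P.nd (P.pth e t) ∈ L.ch (P.nd (P.pth e u))
      rw [hu, ← hq, P.nd_kid q' c hc]
      exact hc

set_option linter.unusedSectionVars false in
/-- A number which was good at all nonleaf positions which it has left gives a chain. -/
theorem chain_of_good {ga : ℕ → ℕ → Y} (hga : IsAp ga) (hgl : Lim ga g) {I : Set (X × Y)}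
    {h : Fin L.K → Y} {e : ℕ}
    (hgood : ∀ q, P.NL q → e ∈ P.B q → e ∉ P.D q → P.GoodAt I h ga q e)
    (hroot : P.rt (P.lim e) = true → g e = h (P.nd (P.lim e)))
    (hcomp : L.Comp I (P.nd (P.lim e)) (g e)) :
    ∃ s ∈ S, Relation.ReflTransGen (L.Step I) (s, h s) (P.nd (P.lim e), g e) := by
  cases hr : P.rt (P.lim e) with
  | true =>
    refine ⟨P.nd (P.lim e), P.rt_nd _ hr, ?_⟩
    rw [← hroot hr]
  | false =>
    obtain ⟨q', c, hc, hq⟩ := P.par _ hr
    have hB : e ∈ P.B (P.lim e) := P.D_sub_B _ (P.mem_D_iff.2 rfl)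
    obtain ⟨t, ht⟩ := hB
    obtain ⟨u, -, hu, -⟩ := P.B_kid (t := t) hc (by rw [ht, hq])
    have hB' : e ∈ P.B (P.kid q' c) := ⟨t, by rw [ht, hq]⟩
    have hD' : e ∉ P.D (P.pth e u) := by
      rw [hu]
      exact P.not_D_kid hc hB'
    have hNL' : P.NL (P.pth e u) := by
      rw [hu]
      exact ⟨c, hc⟩
    obtain ⟨v, -, s, hs, hch⟩ := chain_aux hga hgood u hNL' hD'
    refine ⟨s, hs, hch.tail ⟨?_, hga.le_lim hgl e v, hcomp⟩⟩
    change P.nd (P.lim e) ∈ L.ch (P.nd (P.pth e u))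
    rw [hu, ← hq, P.nd_kid q' c hc]
    exact hc

/-- (4.4) -/
theorem valid_of (hP : P.Good) (hg : RE g) {ga : ℕ → ℕ → Y} (hga : IsAp ga) (hgl : Lim ga g)
    {h : Fin L.K → Y}
    (h1 : ∀ q, P.rt q = true → P.NL q → {e | e ∈ P.D q ∧ g e ≠ h (P.nd q)}.Finite)
    (h2 : ∀ q, P.rt q = true → {e | e ∈ P.D q ∧ g e = h (P.nd q)}.Infinite) {H : Set ℕ}
    (hH : {e | e ∈ H ∧ P.NL (P.lim e)}.Finite)
    (hH' : ∀ e, e ∉ H → ∀ q, P.NL q → e ∈ P.B q → e ∉ P.D q →
      P.GoodAt (InfSt P.st g) h ga q e) : L.Valid S (InfSt P.st g) h := by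
  refine ⟨?_, ?_⟩
  · intro s hs
    obtain ⟨q, hq, rfl⟩ := P.rt_ex s hs
    exact comp_of_inf hP hg (h2 q hq)
  · intro τ η hτη
    by_cases hleaf : ∃ e, (P.st e, g e) = (τ, η) ∧ ¬ P.NL (P.lim e)
    · obtain ⟨e, he, hNL⟩ := hleaf
      refine Or.inl ⟨P.nd (P.lim e), P.node_nd _, ?_, ?_⟩
      · exact Finset.not_nonempty_iff_eq_empty.1 hNL
      · exact (Prod.ext_iff.1 he).1
    · push Not at hleaf
      refine Or.inr ?_
      have hb1 : (⋃ q : Fin P.N, {e | e ∈ P.D q ∧ P.rt q = true ∧ P.NL q ∧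
          g e ≠ h (P.nd q)}).Finite := by
        refine Set.finite_iUnion fun q => ?_
        by_cases hq : P.rt q = true ∧ P.NL q
        · exact (h1 q hq.1 hq.2).subset fun e he => ⟨he.1, he.2.2.2⟩
        · refine Set.finite_empty.subset fun e he => ?_
          exact hq ⟨he.2.1, he.2.2.1⟩
      have hb2 : (⋃ q : Fin P.N, {e | e ∈ P.D q ∧
          ¬ L.Comp (InfSt P.st g) (P.nd q) (g e)}).Finite :=
        Set.finite_iUnion fun q => comp_ae hP hg q
      have hinf : {e : ℕ | (P.st e, g e) = (τ, η)}.Infinite := hτη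
      obtain ⟨e, he, hnot⟩ := (hinf.sdiff ((hH.union hb1).union hb2)).nonempty
      have hNL : P.NL (P.lim e) := hleaf e he
      have heD : e ∈ P.D (P.lim e) := P.mem_D_iff.2 rfl
      have hn1 : e ∉ H := fun hm => hnot (Or.inl (Or.inl ⟨hm, hNL⟩))
      have hroot : P.rt (P.lim e) = true → g e = h (P.nd (P.lim e)) := by
        intro hr
        by_contra hne
        exact hnot (Or.inl (Or.inr (Set.mem_iUnion.2 ⟨P.lim e, heD, hr, hNL, hne⟩)))
      have hcomp : L.Comp (InfSt P.st g) (P.nd (P.lim e)) (g e) := by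
        by_contra hne
        exact hnot (Or.inr (Set.mem_iUnion.2 ⟨P.lim e, heD, hne⟩))
      obtain ⟨s, hs, hch⟩ := chain_of_good hga hgl (hH' e hn1) hroot hcomp
      have hge : g e = η := (Prod.ext_iff.1 he).2
      rw [hge] at hch
      exact ⟨s, hs, P.nd (P.lim e), hch, (Prod.ext_iff.1 he).1⟩

end PathSys

end TSys

end Pool.Agent.Lib.MP_45c83f_lc
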