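import Pool.Agent.Lib.MP_45c83f_lc.Run
import Pool.Agent.Lib.MP_45c83f_lc.Facts
import Pool.Agent.Lib.MP_45c83f_lc.LabA

set_option autoImplicit false

/-!
# Existence of runs of the automaton (text, 5.4 (v))
-/

namespace Pool.Agent.Lib.MP_45c83f_lc

namespace TSys

section RunExStep

variable {X Y Z J : Type} [PartialOrder X] [PartialOrder Y] [PartialOrder Z] {L : TSys X}
  {I : Set (X × Y)} {S : Finset (Fin L.K)} {h : Fin L.K → Y}

/-- The controller at work. -/
private def RunEx_c (D : Jobs L I S h Z J) (j : J) (v : Fin L.K) (g : Y) (z : Z) :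
    Y × Option J × Option (Fin L.K) := ((D.ctl j v g z).1, some j, (D.ctl j v g z).2)

/-- The step when the label does not change. -/
private def RunEx_keep (D : Jobs L I S h Z J) :
    Y × Option J × Option (Fin L.K) → Option (Fin L.K) → Option (J × Z) →
      Y × Option J × Option (Fin L.K)
  | (g, some j, none), some v, some (_, z) => RunEx_c D j v g z
  | (g, m, c), _, _ => (g, m, c)

/-- The default rule. -/
private def RunEx_dflt (dflt : Fin L.K → Y → Y) (S : Finset (Fin L.K)) (h : Fin L.K → Y)
    (g : Y) (w : Fin L.K) (a : Option (Fin L.K)) : Y × Option J × Option (Fin L.K) :=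
  match a with
  | none => (if w ∈ S then h w else dflt w g, none, none)
  | some _ => (dflt w g, none, none)

/-- The step when the label changes. -/
private def RunEx_move (D : Jobs L I S h Z J) (dflt : Fin L.K → Y → Y) (w : Fin L.K) :
    Y × Option J × Option (Fin L.K) → Option (Fin L.K) → Option (J × Z) →
      Y × Option J × Option (Fin L.K)
  | (g, some j, some c), some v, some (_, z) =>
    if c = w then RunEx_c D j w (D.arr j v g) z else RunEx_dflt dflt S h g w (some v)
  | (g, _, _), a, _ => RunEx_dflt dflt S h g w a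

/-- One step of the automaton. -/
private def RunEx_step (D : Jobs L I S h Z J) (dflt : Fin L.K → Y → Y)
    (σ : Y × Option J × Option (Fin L.K)) (a b : Option (Fin L.K)) (as : Bool)
    (p : Option (J × Z)) : Y × Option J × Option (Fin L.K) :=
  match as, p with
  | false, some (j, z) => RunEx_c D j (D.nd j) (D.ini j) z
  | _, p => if b = a then RunEx_keep D σ a p else
    match b with
    | none => σ
    | some w => RunEx_move D dflt w σ a p

/-- The invariant. -/
private structure RunEx_Inv [OrderBot Y] (D : Jobs L I S h Z J) (l : Option (Fin L.K))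
    (s : Option (ℕ × J)) (u : ℕ → Z) (σ : Y × Option J × Option (Fin L.K)) : Prop where
  off : l = none → σ = (⊥, none, none)
  comp : ∀ v, l = some v → L.Comp I v σ.1
  job : ∀ j, σ.2.1 = some j → ∃ i v, s = some (i, j) ∧ l = some v ∧ D.good j v σ.1 (u i) ∧
    ∀ c, σ.2.2 = some c → c ∈ L.ch v ∧ σ.1 ≤ D.arr j v σ.1 ∧ D.good j c (D.arr j v σ.1) (u i)
  nojob : σ.2.1 = none → σ.2.2 = none
  root : ∀ r ∈ S, l = some r → s = none → σ.1 = h r

/-- The state after a move of the controller. -/
private theorem RunEx_inv_c [OrderBot Y] (D : Jobs L I S h Z J) {i : ℕ} {j : J} {v : Fin L.K}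
    {g : Y} {u : ℕ → Z} (hg : D.good j v g (u i)) :
    RunEx_Inv D (some v) (some (i, j)) u (RunEx_c D j v g (u i)) := by
  refine ⟨fun h0 => absurd h0 (by simp), ?_, ?_, fun h0 => absurd h0 (by simp [RunEx_c]),
    fun r _ _ h0 => absurd h0 (by simp)⟩
  · intro v' hv'
    rw [← Option.some.inj hv']
    exact D.comp j v g _ hg
  · intro j' hj'
    have hjj : j = j' := Option.some.inj hj'
    subst hjj
    exact ⟨i, v, rfl, rfl, D.stay j v g _ hg, fun c hc => D.child j v g _ c hg hc⟩

/-- The state after the default rule. -/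
private theorem RunEx_inv_d [OrderBot Y] (D : Jobs L I S h Z J) {v : Fin L.K} {g : Y}
    {s : Option (ℕ × J)} {u : ℕ → Z} (hg : L.Comp I v g)
    (hr : v ∈ S → s = none → g = h v) :
    RunEx_Inv D (some v) s u (g, none, none) := by
  refine ⟨fun h0 => absurd h0 (by simp), ?_, fun j hj => absurd hj (by simp), fun _ => rfl, ?_⟩
  · intro v' hv'
    rw [← Option.some.inj hv']
    exact hg
  · intro r hr' hv' hs
    rw [← Option.some.inj hv'] at hr' ⊢
    exact hr hr' hs

/-- The step at a constant label. -/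
private theorem RunEx_keep_spec [OrderBot Y] (D : Jobs L I S h Z J) {l : Option (Fin L.K)}
    {s s' : Option (ℕ × J)} {u u' : ℕ → Z} {σ : Y × Option J × Option (Fin L.K)}
    (hI : RunEx_Inv D l s u σ) (hs : ∀ p, s = some p → s' = some p) (hu : ∀ i, u i ≤ u' i) :
    RunEx_Inv D l s' u' (RunEx_keep D σ l (s'.map fun q => (q.2, u' q.1))) ∧
      σ.1 ≤ (RunEx_keep D σ l (s'.map fun q => (q.2, u' q.1))).1 ∧
      (∀ j, σ.2.1 = some j →
        (RunEx_keep D σ l (s'.map fun q => (q.2, u' q.1))).2.1 = some j) ∧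
      (∀ c, σ.2.2 = some c →
        (RunEx_keep D σ l (s'.map fun q => (q.2, u' q.1))).2.2 = some c) := by
  obtain ⟨g, m, c⟩ := σ
  have hn : s' = none → s = none := by
    intro h1
    cases hs0 : s with
    | none => rfl
    | some p => rw [hs p hs0] at h1; exact absurd h1 (by simp)
  cases m with
  | none =>
    have h1 : RunEx_keep D (g, none, c) l (s'.map fun q => (q.2, u' q.1)) = (g, none, c) := rfl
    rw [h1]
    exact ⟨⟨hI.off, hI.comp, fun j hj => absurd hj (by simp), hI.nojob,
      fun r hr hl h0 => hI.root r hr hl (hn h0)⟩, le_rfl, fun j hj => hj, fun c hc => hc⟩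
  | some j =>
    obtain ⟨i, v, h2, h3, h4, h5⟩ := hI.job j rfl
    have h6 := hs _ h2
    subst h3
    rw [h6]
    have h7 : D.good j v g (u' i) := D.anti j v g _ _ h4 (hu i)
    cases c with
    | none =>
      have h1 : RunEx_keep D (g, some j, none) (some v)
          ((some (i, j)).map fun q => (q.2, u' q.1)) = RunEx_c D j v g (u' i) := rfl
      rw [h1]
      exact ⟨RunEx_inv_c D h7, D.le j v g _ h7, fun j' hj' => hj',
        fun c hc => absurd hc (by simp)⟩
    | some c =>
      have h1 : RunEx_keep D (g, some j, some c) (some v)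
          ((some (i, j)).map fun q => (q.2, u' q.1)) = (g, some j, some c) := rfl
      rw [h1]
      refine ⟨⟨hI.off, hI.comp, ?_, hI.nojob, fun r _ _ h0 => absurd h0 (by simp)⟩, le_rfl,
        fun j hj => hj, fun c hc => hc⟩
      intro j' hj'
      have hjj : j = j' := Option.some.inj hj'
      subst hjj
      refine ⟨i, v, rfl, rfl, h7, fun c' hc' => ?_⟩
      obtain ⟨h8, h9, h10⟩ := h5 c' hc'
      exact ⟨h8, h9, D.anti j c' _ _ _ h10 (hu i)⟩

/-- The step when the label changes. -/
private theorem RunEx_move_spec [OrderBot Y] (D : Jobs L I S h Z J) (hS : L.Red S)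
    (hv : ∀ s ∈ S, L.Comp I s (h s)) {dflt : Fin L.K → Y → Y}
    (hdf : ∀ w g, (∃ η, g ≤ η ∧ L.Comp I w η) → g ≤ dflt w g ∧ L.Comp I w (dflt w g))
    {l : Option (Fin L.K)} {w : Fin L.K} {s s' : Option (ℕ × J)} {u u' : ℕ → Z}
    {σ : Y × Option J × Option (Fin L.K)} (hI : RunEx_Inv D l s u σ)
    (hs : ∀ p, s = some p → s' = some p) (hu : ∀ i, u i ≤ u' i)
    (hd : ∀ v, l = some v → L.Desc v w) (hn : l = none → L.Node S w)
    (hl : ∀ v, l = some v → L.Node S v) :
    RunEx_Inv D (some w) s' u' (RunEx_move D dflt w σ l (s'.map fun q => (q.2, u' q.1))) ∧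
      σ.1 ≤ (RunEx_move D dflt w σ l (s'.map fun q => (q.2, u' q.1))).1 ∧
      (∀ j, σ.2.1 = some j → σ.2.2 = some w →
        (RunEx_move D dflt w σ l (s'.map fun q => (q.2, u' q.1))).2.1 = some j) := by
  obtain ⟨g, m, c⟩ := σ
  -- the default rule
  have hdef : RunEx_Inv D (some w) s' u' (RunEx_dflt (J := J) dflt S h g w l) ∧
      g ≤ (RunEx_dflt (J := J) dflt S h g w l).1 := by
    cases l with
    | none =>
      have h1 : g = ⊥ := congrArg Prod.fst (hI.off rfl)
      by_cases hw : w ∈ S
      · have h2 : RunEx_dflt (J := J) dflt S h g w none = (h w, none, none) := by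
          simp only [RunEx_dflt, if_pos hw]
        rw [h2]
        refine ⟨RunEx_inv_d D (hv w hw) fun _ _ => rfl, ?_⟩
        rw [h1]
        exact bot_le
      · have h2 : RunEx_dflt (J := J) dflt S h g w none = (dflt w g, none, none) := by
          simp only [RunEx_dflt, if_neg hw]
        rw [h2]
        obtain ⟨r, hr, h3⟩ := hn rfl
        have h4 : L.Desc r w := by
          rcases h3 with h3 | h3
          · exact absurd (h3 ▸ hr) hw
          · exact h3
        obtain ⟨η, -, h5⟩ := (hv r hr).desc h4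
        have h6 := hdf w g ⟨η, by rw [h1]; exact bot_le, h5⟩
        exact ⟨RunEx_inv_d D h6.2 fun h7 _ => absurd h7 hw, h6.1⟩
    | some v =>
      have h2 : RunEx_dflt (J := J) dflt S h g w (some v) = (dflt w g, none, none) := rfl
      rw [h2]
      obtain ⟨η, h4, h5⟩ := (hI.comp v rfl).desc (hd v rfl)
      have h6 := hdf w g ⟨η, h4, h5⟩
      refine ⟨RunEx_inv_d D h6.2 fun h7 _ => ?_, h6.1⟩
      exfalso
      obtain ⟨r, hr, h8⟩ := hl v rfl
      rcases h8 with h8 | h8
      · exact hS.not_desc hr h7 (h8 ▸ hd v rfl)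
      · exact hS.not_desc hr h7 (h8.trans (hd v rfl))
  cases m with
  | none => exact ⟨hdef.1, hdef.2, fun j hj => absurd hj (by simp)⟩
  | some j =>
    obtain ⟨i, v, h2, h3, h4, h5⟩ := hI.job j rfl
    have h6 := hs _ h2
    subst h3
    cases c with
    | none => exact ⟨hdef.1, hdef.2, fun j hj h0 => absurd h0 (by simp)⟩
    | some c =>
      by_cases hcw : c = w
      · subst hcw
        rw [h6]
        have h1 : RunEx_move D dflt c (g, some j, some c) (some v)
            ((some (i, j)).map fun q => (q.2, u' q.1)) =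
              RunEx_c D j c (D.arr j v g) (u' i) := by
          simp only [RunEx_move, Option.map_some, if_true]
        rw [h1]
        obtain ⟨h8, h9, h10⟩ := h5 c rfl
        have h7 := D.anti j c _ _ _ h10 (hu i)
        exact ⟨RunEx_inv_c D h7, h9.trans (D.le j c _ _ h7), fun j' hj' _ => hj'⟩
      · have h1 : RunEx_move D dflt w (g, some j, some c) (some v)
            (s'.map fun q => (q.2, u' q.1)) = RunEx_dflt (J := J) dflt S h g w (some v) := by
          rw [h6]
          simp only [RunEx_move, Option.map_some, if_neg hcw]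
        rw [h1]
        exact ⟨hdef.1, hdef.2, fun j' _ h0 => absurd (Option.some.inj h0) hcw⟩

end RunExStep

theorem exists_run {X Y Z J : Type} [PartialOrder X] [Finite X] [Primcodable X] [PartialOrder Y]
    [OrderBot Y] [Finite Y] [Primcodable Y] [PartialOrder Z] [Finite Z] [Primcodable Z]
    [Finite J] [Primcodable J] {L : TSys X} {I : Set (X × Y)} {S : Finset (Fin L.K)}
    {h : Fin L.K → Y} (D : Jobs L I S h Z J) {F : ℕ → ℕ → X} (hF : IsAp F) (hS : L.Red S)
    (hv : ∀ s ∈ S, L.Comp I s (h s)) {lam : ℕ → ℕ → Option (Fin L.K)}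
    (hlam : L.IsLab F allSt S lam) {U : ℕ → ℕ → ℕ → Z}
    (hU : Primrec fun p : ℕ × ℕ × ℕ => U p.1 p.2.1 p.2.2) (hU' : ∀ i e, Monotone (U i e))
    {asg : ℕ → ℕ → Option (ℕ × J)} (ha : IsAsg D lam U asg) :
    ∃ (g : ℕ → ℕ → Y) (md : ℕ → ℕ → Option J) (pc : ℕ → ℕ → Option (Fin L.K)),
      IsRun D F lam U asg g md pc := by
  classical
  -- the default function
  obtain ⟨dflt, hdf⟩ : ∃ dflt : Fin L.K → Y → Y, ∀ w g, (∃ η, g ≤ η ∧ L.Comp I w η) →
      g ≤ dflt w g ∧ L.Comp I w (dflt w g) := by
    have : ∀ w g, ∃ y : Y, (∃ η, g ≤ η ∧ L.Comp I w η) → g ≤ y ∧ L.Comp I w y := by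
      intro w g
      by_cases h0 : ∃ η, g ≤ η ∧ L.Comp I w η
      · obtain ⟨η, h1⟩ := h0
        exact ⟨η, fun _ => h1⟩
      · exact ⟨g, fun h1 => absurd h1 h0⟩
    choose d hd using this
    exact ⟨d, hd⟩
  -- the states
  let st : ℕ → ℕ → Y × Option J × Option (Fin L.K) := fun e t =>
    Nat.rec (⊥, none, none) (fun t σ => RunEx_step D dflt σ (lam e t) (lam e (t + 1))
      (asg e t).isSome ((asg e (t + 1)).map fun q => (q.2, U q.1 e (t + 1)))) t
  have st0 : ∀ e, st e 0 = (⊥, none, none) := fun e => rfl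
  have sts : ∀ e t, st e (t + 1) = RunEx_step D dflt (st e t) (lam e t) (lam e (t + 1))
      (asg e t).isSome ((asg e (t + 1)).map fun q => (q.2, U q.1 e (t + 1))) :=
    fun e t => rfl
  have hprim : Primrec₂ st := by
    let G : (Y × Option J × Option (Fin L.K)) × Option (Fin L.K) × Option (Fin L.K) × Bool ×
        Option (J × Z) → Y × Option J × Option (Fin L.K) := fun p =>
      RunEx_step D dflt p.1 p.2.1 p.2.2.1 p.2.2.2.1 p.2.2.2.2
    have hG : Primrec G := Primrec.dom_finite _
    refine Primrec.nat_rec (f := fun _ : ℕ => ((⊥, none, none) :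
      Y × Option J × Option (Fin L.K)))
      (g := fun (e : ℕ) (p : ℕ × (Y × Option J × Option (Fin L.K))) =>
        G (p.2, lam e p.1, lam e (p.1 + 1), (asg e p.1).isSome,
          (asg e (p.1 + 1)).map fun q => (q.2, U q.1 e (p.1 + 1)))) (Primrec.const _) ?_
    have e1 : Primrec fun p : ℕ × ℕ × (Y × Option J × Option (Fin L.K)) => p.2.1 :=
      Primrec.fst.comp Primrec.snd
    have e2 : Primrec fun p : ℕ × ℕ × (Y × Option J × Option (Fin L.K)) => p.2.1 + 1 :=
      Primrec.succ.comp e1
    have e3 : Primrec fun p : ℕ × ℕ × (Y × Option J × Option (Fin L.K)) =>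
        (asg p.1 (p.2.1 + 1)).map fun q => (q.2, U q.1 p.1 (p.2.1 + 1)) := by
      refine Primrec.option_map (ha.prim.comp Primrec.fst e2) ?_
      have e4 : Primrec fun r : (ℕ × ℕ × (Y × Option J × Option (Fin L.K))) × (ℕ × J) =>
          (r.2.2, U r.2.1 r.1.1 (r.1.2.1 + 1)) := by
        refine Primrec.pair (Primrec.snd.comp Primrec.snd) ?_
        exact hU.comp (Primrec.pair (Primrec.fst.comp Primrec.snd)
          (Primrec.pair (Primrec.fst.comp Primrec.fst) (e2.comp Primrec.fst)))
      exact e4
    refine hG.comp (Primrec.pair (Primrec.snd.comp Primrec.snd) (Primrec.pair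
      (hlam.prim.comp Primrec.fst e1) (Primrec.pair (hlam.prim.comp Primrec.fst e2)
        (Primrec.pair (Primrec.option_isSome.comp (ha.prim.comp Primrec.fst e1)) e3))))
  have hpers : ∀ e t p, asg e t = some p → asg e (t + 1) = some p := ha.pers
  have hmon : ∀ e t i, U i e t ≤ U i e (t + 1) := fun e t i => hU' i e (Nat.le_succ t)
  -- the three cases
  have case1 : ∀ e t i j, asg e t = none → asg e (t + 1) = some (i, j) →
      st e (t + 1) = RunEx_c D j (D.nd j) (D.ini j) (U i e (t + 1)) := by
    intro e t i j h1 h2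
    rw [sts, h1, h2]
    rfl
  have case23 : ∀ e t, (asg e t = none → asg e (t + 1) = none) → st e (t + 1) =
      if lam e (t + 1) = lam e t then RunEx_keep D (st e t) (lam e t)
        ((asg e (t + 1)).map fun q => (q.2, U q.1 e (t + 1))) else
      match lam e (t + 1) with
      | none => st e t
      | some w => RunEx_move D dflt w (st e t) (lam e t)
        ((asg e (t + 1)).map fun q => (q.2, U q.1 e (t + 1))) := by
    intro e t h1
    rw [sts]
    cases h2 : asg e t with
    | none => rw [h1 h2]; rfl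
    | some p => rfl
  have case2 : ∀ e t, (asg e t = none → asg e (t + 1) = none) → lam e (t + 1) = lam e t →
      st e (t + 1) = RunEx_keep D (st e t) (lam e t)
        ((asg e (t + 1)).map fun q => (q.2, U q.1 e (t + 1))) := by
    intro e t h1 h2
    rw [case23 e t h1, if_pos h2]
  have case3 : ∀ e t w, (asg e t = none → asg e (t + 1) = none) → lam e (t + 1) ≠ lam e t →
      lam e (t + 1) = some w → st e (t + 1) = RunEx_move D dflt w (st e t) (lam e t)
        ((asg e (t + 1)).map fun q => (q.2, U q.1 e (t + 1))) := by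
    intro e t w h1 h2 h3
    rw [case23 e t h1, if_neg h2, h3]
  have hdich : ∀ e t, (∃ i j, asg e t = none ∧ asg e (t + 1) = some (i, j)) ∨
      (asg e t = none → asg e (t + 1) = none) := by
    intro e t
    cases h1 : asg e t with
    | some p => exact Or.inr fun h2 => absurd h2 (by simp)
    | none =>
      cases h2 : asg e (t + 1) with
      | none => exact Or.inr fun _ => rfl
      | some p => exact Or.inl ⟨p.1, p.2, rfl, rfl⟩
  -- the label changes
  have hchg : ∀ e t, lam e (t + 1) ≠ lam e t → ∃ w, lam e (t + 1) = some w ∧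
      (∀ v, lam e t = some v → L.Desc v w) ∧ (lam e t = none → L.Node S w) := by
    intro e t h1
    rcases hlam.step e t with h2 | ⟨w, h2, -, h3, h4⟩
    · exact absurd h2 h1
    · exact ⟨w, h2, h3, h4⟩
  -- the invariant
  have hinv : ∀ e t, RunEx_Inv D (lam e t) (asg e t) (fun i => U i e t) (st e t) := by
    intro e t
    induction t with
    | zero =>
      rw [st0, hlam.zero e]
      exact ⟨fun _ => rfl, fun v h1 => absurd h1 (by simp), fun j h1 => absurd h1 (by simp),
        fun _ => rfl, fun r _ h1 => absurd h1 (by simp)⟩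
    | succ t ih =>
      rcases hdich e t with ⟨i, j, h1, h2⟩ | h1
      · obtain ⟨-, h3, u, hu, h4⟩ := ha.start e t i j h1 h2
        rw [case1 e t i j h1 h2, h2, h3]
        have h5 : D.good j (D.nd j) (D.ini j) ((fun i => U i e (t + 1)) i) :=
          D.start j _ _ h4 (hU' i e (hu.trans (Nat.le_succ t)))
        exact RunEx_inv_c D h5
      · by_cases h2 : lam e (t + 1) = lam e t
        · rw [case2 e t h1 h2, h2]
          exact (RunEx_keep_spec D ih (hpers e t) (hmon e t)).1
        · obtain ⟨w, h3, h4, h5⟩ := hchg e t h2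
          rw [case3 e t w h1 h2 h3, h3]
          exact (RunEx_move_spec D hS hv hdf ih (hpers e t) (hmon e t) h4 h5
            fun v h6 => hlam.node h6).1
  have hle : ∀ e t, (st e t).1 ≤ (st e (t + 1)).1 := by
    intro e t
    rcases hdich e t with ⟨i, j, h1, h2⟩ | h1
    · obtain ⟨h6, h3, u, hu, h4⟩ := ha.start e t i j h1 h2
      rw [case1 e t i j h1 h2]
      have h5 : D.good j (D.nd j) (D.ini j) (U i e (t + 1)) :=
        D.start j _ _ h4 (hU' i e (hu.trans (Nat.le_succ t)))
      refine le_trans ?_ (D.le j _ _ _ h5)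
      cases hsrc : D.src j with
      | none =>
        rw [hsrc] at h6
        rw [(hinv e t).off h6]
        exact bot_le
      | some r =>
        rw [hsrc] at h6
        obtain ⟨h7, -, h8⟩ := D.src_some j r hsrc
        rw [(hinv e t).root r h7 h6 h1]
        exact h8
    · by_cases h2 : lam e (t + 1) = lam e t
      · rw [case2 e t h1 h2]
        exact (RunEx_keep_spec D (hinv e t) (hpers e t) (hmon e t)).2.1
      · obtain ⟨w, h3, h4, h5⟩ := hchg e t h2
        rw [case3 e t w h1 h2 h3]
        exact (RunEx_move_spec D hS hv hdf (hinv e t) (hpers e t) (hmon e t) h4 h5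
          fun v h6 => hlam.node h6).2.1
  -- a job in progress is not a start
  have hmd : ∀ e t j, (st e t).2.1 = some j → (asg e t = none → asg e (t + 1) = none) := by
    intro e t j h1 h2
    obtain ⟨i, v, h3, -⟩ := (hinv e t).job j h1
    rw [h2] at h3
    exact absurd h3 (by simp)
  have hpc : ∀ e t c, (st e t).2.2 = some c → ∃ j, (st e t).2.1 = some j := by
    intro e t c h1
    cases h2 : (st e t).2.1 with
    | none =>
      rw [(hinv e t).nojob h2] at h1
      exact absurd h1 (by simp)
    | some j => exact ⟨j, rfl⟩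
  have hap : IsAp fun e t => (st e t).1 :=
    ⟨Primrec.fst.comp hprim, fun e => monotone_nat_of_le_succ (hle e)⟩
  refine ⟨fun e t => (st e t).1, fun e t => (st e t).2.1, fun e t => (st e t).2.2, ?_⟩
  refine ⟨hap, Primrec.fst.comp (Primrec.snd.comp hprim),
    Primrec.snd.comp (Primrec.snd.comp hprim), fun e t => (hinv e t).comp,
    fun e t s hs h1 h2 => (hinv e t).root s hs h1 h2, ?_, ?_, ?_, ?_, ?_, ?_, ?_⟩
  · intro e t j h1
    obtain ⟨i, v, h2, -⟩ := (hinv e t).job j h1
    exact ⟨i, h2⟩
  · intro e t i j h1 h2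
    show (st e (t + 1)).2.1 = some j
    rw [case1 e t i j h1 h2]
    rfl
  · intro e t j h1 h2
    show (st e (t + 1)).2.1 = some j
    rw [case2 e t (hmd e t j h2) h1]
    exact (RunEx_keep_spec D (hinv e t) (hpers e t) (hmon e t)).2.2.1 j h2
  · intro e t c j h1 h2 h3
    show (st e (t + 1)).2.1 = some j
    obtain ⟨i, v, -, h4, -, h5⟩ := (hinv e t).job j h1
    have h6 : lam e (t + 1) ≠ lam e t := by
      intro h7
      rw [h3, h4] at h7
      have h8 := L.lt_ch v c (h5 c h2).1
      rw [Option.some.inj h7] at h8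
      exact lt_irrefl _ h8
    obtain ⟨w, h7, h8, h9⟩ := hchg e t h6
    have hcw : c = w := by
      rw [h7] at h3
      exact (Option.some.inj h3).symm
    subst hcw
    rw [case3 e t c (hmd e t j h1) h6 h3]
    exact (RunEx_move_spec D hS hv hdf (hinv e t) (hpers e t) (hmon e t) h8 h9
      fun v h6 => hlam.node h6).2.2 j h1 h2
  · intro e t c h1
    obtain ⟨j, h2⟩ := hpc e t c h1
    obtain ⟨i, v, -, h4, -, h5⟩ := (hinv e t).job j h2
    exact ⟨v, h4, (h5 c h1).1⟩
  · intro e t c h1 h2
    obtain ⟨j, h3⟩ := hpc e t c h1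
    show (st e (t + 1)).2.2 = some c
    rw [case2 e t (hmd e t j h3) h2]
    exact (RunEx_keep_spec D (hinv e t) (hpers e t) (hmon e t)).2.2.2 c h1
  · rintro e v i j ⟨t1, h1⟩ - ⟨t2, h2⟩
    obtain ⟨gl, hgl⟩ := exists_lim hap.mono
    obtain ⟨t3, h3⟩ := hgl e
    obtain ⟨ul, hul⟩ := exists_lim (f := fun e => U i e) fun e => hU' i e
    obtain ⟨t4, h4⟩ := hul e
    have h3' : ∀ u, t3 ≤ u → (st e u).1 = gl e := h3
    have h4' : ∀ u, t4 ≤ u → U i e u = ul e := h4
    have hst : ∀ u, t2 ≤ u → t3 ≤ u → st e u = (gl e, some j, none) := by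
      intro u hu hu'
      obtain ⟨-, h5, h6⟩ := h2 u hu
      have h7 := h3' u hu'
      exact Prod.ext h7 (Prod.ext h5 h6)
    obtain ⟨N, n1, n2, n3, n4⟩ : ∃ N, t1 ≤ N ∧ t2 ≤ N ∧ t3 ≤ N ∧ t4 ≤ N :=
      ⟨t1 + t2 + t3 + t4, by omega, by omega, by omega, by omega⟩
    have h5 := hinv e N
    rw [hst N n2 n3] at h5
    obtain ⟨i', v', h6, h7, h8, -⟩ := h5.job j rfl
    have hii : i' = i := by
      have h9 := (h2 N n2).1
      rw [h6] at h9
      exact congrArg Prod.fst (Option.some.inj h9)
    have hvv : v' = v := by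
      have h9 := h1 N n1
      rw [h7] at h9
      exact Option.some.inj h9
    subst hii
    subst hvv
    have h9 : lam e (N + 1) = lam e N := by
      rw [h1 N n1, h1 (N + 1) (by omega)]
    have h10 := case2 e N (fun h0 => by rw [h6] at h0; exact absurd h0 (by simp)) h9
    rw [hst N n2 n3, hst (N + 1) (by omega) (by omega), h7, (h2 (N + 1) (by omega)).1] at h10
    have h11 : RunEx_keep D (gl e, some j, none) (some v')
        ((some (i', j)).map fun q => (q.2, U q.1 e (N + 1))) =
          RunEx_c D j v' (gl e) (U i' e (N + 1)) := rfl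
    rw [h11, h4' (N + 1) (by omega)] at h10
    have h12 : D.ctl j v' (gl e) (ul e) = (gl e, none) :=
      Prod.ext (congrArg Prod.fst h10).symm (congrArg (fun q => q.2.2) h10).symm
    have h13 : D.good j v' (gl e) (ul e) := by
      have h14 : D.good j v' (gl e) (U i' e N) := h8
      rw [h4' N n4] at h14
      exact h14
    refine ⟨N, fun u hu => ?_⟩
    show D.rest j v' (st e u).1 (U i' e u)
    rw [h3' u (n3.trans hu), h4' u (n4.trans hu)]
    exact D.fin j v' _ _ h13 h12

end TSys

end Pool.Agent.Lib.MP_45c83f_lc
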