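import Pool.Agent.Lib.MP_45c83f_lc.AsgEx
import Pool.Agent.Lib.MP_45c83f_lc.RunEx
import Pool.Agent.Lib.MP_45c83f_lc.Claim

set_option autoImplicit false

/-!
# Infinitely many numbers come to rest (text, 5.4 (vi), (vii))
-/

namespace Pool.Agent.Lib.MP_45c83f_lc

namespace TSys

variable {X Y Z J : Type} [PartialOrder X] [Finite X] [Primcodable X] [PartialOrder Y]
  [OrderBot Y] [Primcodable Y] [PartialOrder Z] [Primcodable J] {L : TSys X} {I : Set (X × Y)}
  {S : Finset (Fin L.K)} {h : Fin L.K → Y} {D : Jobs L I S h Z J} {F : ℕ → ℕ → X}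
  {lam : ℕ → ℕ → Option (Fin L.K)} {U : ℕ → ℕ → ℕ → Z} {asg : ℕ → ℕ → Option (ℕ × J)}
  {g : ℕ → ℕ → Y} {md : ℕ → ℕ → Option J} {pc : ℕ → ℕ → Option (Fin L.K)}

/-- Numbers which are assigned have a stage of assignment. -/
theorem RestInf_start (ha : IsAsg D lam U asg) {e t : ℕ} {p : ℕ × J}
    (h : asg e t = some p) : ∃ u, asg e u = none ∧ asg e (u + 1) = some p := by
  classical
  have hex : ∃ u, asg e u = some p := ⟨t, h⟩
  have h1 := Nat.find_spec hex
  have h2 : Nat.find hex ≠ 0 := by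
    intro h0
    rw [h0, ha.zero] at h1
    exact absurd h1 (by simp)
  obtain ⟨u, hu⟩ := Nat.exists_eq_succ_of_ne_zero h2
  rw [hu] at h1
  refine ⟨u, ?_, h1⟩
  by_contra hne
  obtain ⟨q, hq⟩ := Option.ne_none_iff_exists'.1 hne
  have h3 := ha.pers e u q hq
  rw [h1] at h3
  rw [← Option.some.inj h3] at hq
  exact Nat.find_min hex (by omega) hq

theorem RestInf_asg (ha : IsAsg D lam U asg) {e t u : ℕ} {p : ℕ × J}
    (h : asg e t = some p) (htu : t ≤ u) : asg e u = some p := by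
  induction u, htu using Nat.le_induction with
  | base => exact h
  | succ k _ ih => exact ha.pers e k p ih

/-- The numbers with a leaf job. -/
theorem leaf_rest (hF : IsAp F) (hlam : L.IsLab F allSt S lam)
    (hcor : {e | ¬ L.Corr F lam e}.Finite) (ha : IsAsg D lam U asg)
    (hr : IsRun D F lam U asg g md pc) {i : ℕ} {j : J} (hj : D.src j = none)
    (hinf : {e | ∃ t, asg e t = some (i, j)}.Infinite) :
    {e | ∃ v t, ∀ u, t ≤ u → F e u = L.lab v ∧ D.rest j v (g e u) (U i e u)}.Infinite := by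
  refine (hinf.sdiff hcor).mono ?_
  rintro e ⟨⟨t, ht⟩, hc⟩
  have hc' : L.Corr F lam e := by
    by_contra h
    exact hc h
  obtain ⟨u0, h1, h2⟩ := RestInf_start ha ht
  obtain ⟨-, h3, -⟩ := ha.start e u0 i j h1 h2
  have h4 := hr.start e u0 i j h1 h2
  obtain ⟨h5, h6⟩ := D.src_none j hj
  have hlamw : ∀ w, u0 + 1 ≤ w → lam e w = some (D.nd j) := by
    intro w hw
    obtain ⟨v, hv, hv'⟩ := hlam.later hw h3
    rcases hv' with rfl | hv'
    · exact hv
    · rw [desc_iff_node, h6] at hv'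
      obtain ⟨s, hs, -⟩ := hv'
      exact absurd hs (Finset.notMem_empty s)
  have hmd : ∀ w, u0 + 1 ≤ w → md e w = some j := by
    intro w hw
    induction w, hw using Nat.le_induction with
    | base => exact h4
    | succ k hk ih =>
      exact hr.stay e k j (by rw [hlamw k hk, hlamw (k + 1) (by omega)]) ih
  have hpc : ∀ w, u0 + 1 ≤ w → pc e w = none := by
    intro w hw
    by_contra hne
    obtain ⟨c, hc⟩ := Option.ne_none_iff_exists'.1 hne
    obtain ⟨v, hv, hv'⟩ := hr.pc_mem e w c hc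
    rw [hlamw w hw] at hv
    rw [← Option.some.inj hv, h6] at hv'
    exact absurd hv' (Finset.notMem_empty c)
  obtain ⟨v, t1, ht1⟩ := hc'
  have hvd : v = D.nd j := by
    have h7 := (ht1 _ (le_max_left t1 (u0 + 1))).1
    rw [hlamw _ (le_max_right t1 (u0 + 1))] at h7
    exact (Option.some.inj h7).symm
  subst hvd
  obtain ⟨t2, ht2⟩ := hr.fin e (D.nd j) i j ⟨u0 + 1, hlamw⟩ ⟨t1, fun u hu => (ht1 u hu).2⟩
    ⟨u0 + 1, fun u hu => ⟨RestInf_asg ha h2 hu, hmd u hu, hpc u hu⟩⟩
  exact ⟨D.nd j, max t1 t2, fun u hu => ⟨(ht1 u (le_trans (le_max_left _ _) hu)).2,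
    ht2 u (le_trans (le_max_right _ _) hu)⟩⟩

theorem RestInf_vst {i : ℕ} {cond : Z → Prop} {s : Fin L.K} {e t : ℕ} :
    vst F lam U i cond s e t = true ↔
      ∃ u, u ≤ t ∧ lam e u = some s ∧ F e u = L.lab s ∧ cond (U i e u) := by
  unfold vst
  exact @decide_eq_true_iff _ (Classical.dec _)

theorem RestInf_root {s : Fin L.K} {e t : ℕ} : L.rootSt lam s e t = true ↔
      ∃ u, u < t ∧ lam e u = none ∧ lam e (u + 1) = some s := by
  unfold rootSt
  exact decide_eq_true_iff

/-- A number with the label `s` in the reduced forest has the first label `s`. -/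
theorem RestInf_first (hS : L.Red S) (hlam : L.IsLab F allSt S lam) {s : Fin L.K} (hs : s ∈ S)
    {e u t : ℕ} (hu : lam e u = some s) (hut : u ≤ t) : L.rootSt lam s e t = true := by
  classical
  have hex : ∃ n, lam e n ≠ none := ⟨u, by rw [hu]; simp⟩
  have h1 := Nat.find_spec hex
  have h2 : Nat.find hex ≠ 0 := by
    intro h0
    rw [h0] at h1
    exact h1 (hlam.zero e)
  obtain ⟨n, hn⟩ := Nat.exists_eq_succ_of_ne_zero h2
  have hnu : n + 1 ≤ u := by
    have := Nat.find_min' hex (show lam e u ≠ none by rw [hu]; simp)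
    omega
  rw [hn] at h1
  obtain ⟨v, hv⟩ := Option.ne_none_iff_exists'.1 h1
  have hn0 : lam e n = none := by
    by_contra h
    exact Nat.find_min hex (by omega) h
  obtain ⟨w, hw, hw'⟩ := hlam.later hnu hv
  rw [hu] at hw
  have hws : s = w := Option.some.inj hw
  subst hws
  have hvs : v = s := by
    rcases hw' with h | h
    · exact h.symm
    · exfalso
      obtain ⟨r, hr, hrv⟩ := hlam.node hv
      rcases hrv with rfl | hrv
      · exact hS.not_desc hr hs h
      · exact hS.not_desc hr hs (hrv.trans h)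
  subst hvs
  exact RestInf_root.2 ⟨n, by omega, hn0, hv⟩

/-- The numbers with a root job. -/
theorem root_rest (hF : IsAp F) (hS : L.HRed S) (hex : L.Exact F allSt S)
    (hlam : L.IsLab F allSt S lam) (hcor : {e | ¬ L.Corr F lam e}.Finite)
    (ha : IsAsg D lam U asg) (hr : IsRun D F lam U asg g md pc) {i : ℕ} {s : Fin L.K}
    (hs : s ∈ S) {ι : Type} [Fintype ι] (jj : ι → J) (hj : ∀ k, D.src (jj k) = some s)
    (hat : ∀ k, L.AtC F lam (vst F lam U i (D.cond (jj k)) s) s)
    (hV : ∀ k, L.Exact F (vst F lam U i (D.cond (jj k)) s) {s} →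
      ∃ V, L.AtC F lam V (D.nd (jj k)) ∧ L.Exact F V {D.nd (jj k)} ∧
        ∀ e t, Enter V e t → ∃ u, t = u + 1 ∧ asg e u = none ∧ asg e t = some (i, jj k))
    (hcov : {e | L.Last lam e s ∧
      ∀ k, ¬ ∃ t, ∀ u, t ≤ u → D.cond (jj k) (U i e u)}.Finite) :
    ∃ k, {e | ∃ v t, ∀ u, t ≤ u → F e u = L.lab v ∧
      D.rest (jj k) v (g e u) (U i e u)}.Infinite := by
  obtain ⟨hRat, hRex⟩ := lemA hF hlam hcor hex hS.1 hs
  obtain ⟨k, hk⟩ := lemB hF hlam hcor hRat hRex
    (fun k => vst F lam U i (D.cond (jj k)) s) hat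
    (by
      intro k e t h
      obtain ⟨u, hut, hu, -⟩ := RestInf_vst.1 h
      exact RestInf_first hS.1 hlam hs hu hut)
    (by
      refine (hcov.union hcor).subset ?_
      rintro e ⟨-, hl, hn⟩
      by_cases hc : L.Corr F lam e
      · left
        refine ⟨hl, fun k hk => hn k ?_⟩
        obtain ⟨t, ht⟩ := hk
        obtain ⟨t1, ht1⟩ := hl
        obtain ⟨v, t2, ht2⟩ := hc
        have hvs : v = s := by
          have h7 := (ht2 _ (le_max_left t2 t1)).1
          rw [ht1 _ (le_max_right t2 t1)] at h7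
          exact (Option.some.inj h7).symm
        subst hvs
        refine ⟨max t t2, RestInf_vst.2 ⟨max t t2, le_rfl, ?_⟩⟩
        exact ⟨(ht2 _ (le_max_right _ _)).1, (ht2 _ (le_max_right _ _)).2,
          ht _ (le_max_left _ _)⟩
      · exact Or.inr hc)
  refine ⟨k, ?_⟩
  obtain ⟨V, hVat, hVex, hVent⟩ := hV k hk
  obtain ⟨h1, h2, -⟩ := D.src_some (jj k) s (hj k)
  refine claim hF hS hlam hcor ha hr ((Node.of_mem hs).desc (Desc.of_ch h2)) hVat hVex ?_
  intro e t he
  obtain ⟨u, rfl, h3, h4⟩ := hVent e t he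
  exact ⟨hr.start e u i (jj k) h3 h4, h4⟩

end TSys

end Pool.Agent.Lib.MP_45c83f_lc
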