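import Pool.Agent.Lib.MP_45c83f_lc.Lab

set_option autoImplicit false

/-!
# The universal player's automaton: definitions (text, 5.4)
-/

namespace Pool.Agent.Lib.MP_45c83f_lc

namespace TSys

variable {X Y : Type} [PartialOrder X] [PartialOrder Y] (L : TSys X) (I : Set (X × Y))
  (S : Finset (Fin L.K)) (h : Fin L.K → Y)

/-- A finite controller with a list `J` of jobs. For a job `j`, a node `v`, the present value `g`
and the present answer `z`, `ctl j v g z` gives the new value and the next node which is wanted;
`arr j v g` is the value on arrival at the wanted child; `good` is the invariant on arrival and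
`rest` is what holds at the end. A root job (`src j = some s`) starts when a number moves from the
root `s` to `nd j`, with value `ini j`, the other jobs start at the leaf node `nd j`; a root job is
given to a number only after the answer has satisfied `cond j` at the root. -/
structure Jobs (Z J : Type) [PartialOrder Z] where
  ctl : J → Fin L.K → Y → Z → Y × Option (Fin L.K)
  arr : J → Fin L.K → Y → Y
  good : J → Fin L.K → Y → Z → Prop
  rest : J → Fin L.K → Y → Z → Prop
  src : J → Option (Fin L.K)
  nd : J → Fin L.K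
  ini : J → Y
  cond : J → Z → Prop
  anti : ∀ j v g z z', good j v g z → z ≤ z' → good j v g z'
  le : ∀ j v g z, good j v g z → g ≤ (ctl j v g z).1
  comp : ∀ j v g z, good j v g z → L.Comp I v (ctl j v g z).1
  stay : ∀ j v g z, good j v g z → good j v (ctl j v g z).1 z
  child : ∀ j v g z c, good j v g z → (ctl j v g z).2 = some c → c ∈ L.ch v ∧
    (ctl j v g z).1 ≤ arr j v (ctl j v g z).1 ∧ good j c (arr j v (ctl j v g z).1) z
  fin : ∀ j v g z, good j v g z → ctl j v g z = (g, none) → rest j v g z
  src_some : ∀ j s, src j = some s → s ∈ S ∧ nd j ∈ L.ch s ∧ h s ≤ ini j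
  src_none : ∀ j, src j = none → L.Node S (nd j) ∧ L.ch (nd j) = ∅
  start : ∀ j z z', cond j z → z ≤ z' → good j (nd j) (ini j) z'
  cond_none : ∀ j z, src j = none → cond j z

variable {L I S h} {Z J : Type} [PartialOrder Z] [Primcodable J]

/-- An assignment of jobs: `asg e t = some (i, j)` says that `e` has the job `j` against the
function with index `i`. -/
structure IsAsg (D : Jobs L I S h Z J) (lam : ℕ → ℕ → Option (Fin L.K)) (U : ℕ → ℕ → ℕ → Z)
    (asg : ℕ → ℕ → Option (ℕ × J)) : Prop where
  prim : Primrec₂ asg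
  zero : ∀ e, asg e 0 = none
  pers : ∀ e t p, asg e t = some p → asg e (t + 1) = some p
  start : ∀ e t i j, asg e t = none → asg e (t + 1) = some (i, j) →
    lam e t = D.src j ∧ lam e (t + 1) = some (D.nd j) ∧ ∃ u, u ≤ t ∧ D.cond j (U i e u)

variable [OrderBot Y] [Primcodable X] [Primcodable Y]

/-- A run of the automaton. -/
structure IsRun (D : Jobs L I S h Z J) (F : ℕ → ℕ → X) (lam : ℕ → ℕ → Option (Fin L.K))
    (U : ℕ → ℕ → ℕ → Z) (asg : ℕ → ℕ → Option (ℕ × J)) (g : ℕ → ℕ → Y)
    (md : ℕ → ℕ → Option J) (pc : ℕ → ℕ → Option (Fin L.K)) : Prop where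
  ap : IsAp g
  md_prim : Primrec₂ md
  pc_prim : Primrec₂ pc
  comp : ∀ e t v, lam e t = some v → L.Comp I v (g e t)
  root : ∀ e t s, s ∈ S → lam e t = some s → asg e t = none → g e t = h s
  md_asg : ∀ e t j, md e t = some j → ∃ i, asg e t = some (i, j)
  start : ∀ e t i j, asg e t = none → asg e (t + 1) = some (i, j) → md e (t + 1) = some j
  stay : ∀ e t j, lam e (t + 1) = lam e t → md e t = some j → md e (t + 1) = some j
  arrive : ∀ e t c j, md e t = some j → pc e t = some c → lam e (t + 1) = some c →
    md e (t + 1) = some j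
  pc_mem : ∀ e t c, pc e t = some c → ∃ v, lam e t = some v ∧ c ∈ L.ch v
  pc_stay : ∀ e t c, pc e t = some c → lam e (t + 1) = lam e t → pc e (t + 1) = some c
  fin : ∀ e v i j, L.Last lam e v → (∃ t, ∀ u, t ≤ u → F e u = L.lab v) →
    (∃ t, ∀ u, t ≤ u → asg e u = some (i, j) ∧ md e u = some j ∧ pc e u = none) →
    ∃ t, ∀ u, t ≤ u → D.rest j v (g e u) (U i e u)

end TSys

end Pool.Agent.Lib.MP_45c83f_lc
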