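import Pool.Agent.Lib.MP_45c83f_lc.Basics
import Pool.Agent.Lib.MP_45c83f_lc.MaxIn

set_option autoImplicit false

/-!
# Consequences of smallness and majorness
-/

namespace Pool.Agent.Lib.MP_45c83f_lc

variable {A B : Set ℕ}

theorem small_p1 (hs : ∀ U V : Set ℕ, RESet U → RESet V → U ∩ (B \ A) ⊆ V →
    RESet ((U \ B) ∪ V)) {Q : Set ℕ} (hQ : RESet Q) (hf : (Q ∩ (B \ A)).Finite) :
    RESet (Q \ B) := by
  have h1 := hs Q (Q ∩ (B \ A)) hQ (RESet.of_finite hf) le_rfl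
  refine h1.change (hf.subset ?_)
  intro e he
  simp only [Set.mem_symmDiff, Set.mem_union, Set.mem_sdiff, Set.mem_inter_iff] at he ⊢
  tauto

theorem major_p2 (hm : ∀ H : Set ℕ, Rec H → H ⊆ B → (H ∩ (B \ A)).Finite) {Q : Set ℕ}
    (hQ : RESet Q) (hsub : Q ⊆ B \ A) : Q.Finite := by
  by_contra hi
  obtain ⟨R, hRQ, hR, hRi⟩ := exists_rec_subset hQ hi
  have h1 : R ⊆ B \ A := hRQ.trans hsub
  have h2 := hm R hR (fun e he => (h1 he).1)
  rw [Set.inter_eq_left.2 h1] at h2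
  exact hRi h2

theorem small_p3 (hs : ∀ U V : Set ℕ, RESet U → RESet V → U ∩ (B \ A) ⊆ V →
    RESet ((U \ B) ∪ V)) {H G : Set ℕ} (hH : RESet H) (hG : RESet G) (hd : Disjoint H G)
    (hu : H ∪ G = B) (hf : (H ∩ (B \ A)).Finite) : Rec H := by
  refine ⟨hH, ?_⟩
  have h1 := hs Set.univ (G ∪ (H ∩ (B \ A)))
    (by simpa using RESet.compl_of_finite Set.finite_empty) (hG.union (RESet.of_finite hf)) ?_
  · refine h1.change (hf.subset ?_)
    intro e he
    have h2 : e ∈ B ↔ e ∈ H ∨ e ∈ G := by rw [← hu]; rfl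
    have h3 : e ∈ H → e ∉ G := fun h h' => Set.disjoint_left.1 hd h h'
    simp only [Set.mem_symmDiff, Set.mem_union, Set.mem_sdiff, Set.mem_inter_iff,
      Set.mem_univ, true_and, Set.mem_compl_iff] at he ⊢
    tauto
  · intro e he
    have h2 : e ∈ B ↔ e ∈ H ∨ e ∈ G := by rw [← hu]; rfl
    simp only [Set.mem_union, Set.mem_sdiff, Set.mem_inter_iff, Set.mem_univ, true_and] at he ⊢
    tauto

theorem major_p5 (hB : RESet B) (hAB : A ⊆ B)
    (hm : ∀ H : Set ℕ, Rec H → H ⊆ B → (H ∩ (B \ A)).Finite) {Q : Set ℕ} (hQ : RESet Q)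
    (hi : (Q ∩ (B \ A)).Infinite) : ¬ RESet (Q \ A) := by
  intro h
  have h1 : RESet ((Q \ A) ∩ B) := h.inter hB
  have h2 : (Q \ A) ∩ B = Q ∩ (B \ A) := by
    ext e
    simp only [Set.mem_sdiff, Set.mem_inter_iff]
    tauto
  rw [h2] at h1
  exact hi (major_p2 hm h1 Set.inter_subset_right)

end Pool.Agent.Lib.MP_45c83f_lc
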