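import Pool.Agent.Lib.MP_45c83f_lc.Basics
import Pool.Agent.Lib.MP_45c83f_lc.Univ

set_option autoImplicit false

/-!
# Small major subsets
-/

namespace Pool.Agent.Lib.MP_45c83f_lc

section Prim

variable {α : Type} [Primcodable α]

private theorem sm_forall_lt {p : α → ℕ → Prop} {g : α → ℕ}
    (hp : PrimrecPred fun q : α × ℕ => p q.1 q.2) (hg : Primrec g) :
    PrimrecPred fun a => ∀ x < g a, p a x := by
  have h1 : PrimrecRel fun (x : ℕ) (a : α) => p a x := hp.comp (Primrec.snd.pair Primrec.fst)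
  exact (h1.forall_mem_list.comp (Primrec.list_range.comp hg) Primrec.id).of_eq (by simp)

private theorem sm_exists_lt {p : α → ℕ → Prop} {g : α → ℕ}
    (hp : PrimrecPred fun q : α × ℕ => p q.1 q.2) (hg : Primrec g) :
    PrimrecPred fun a => ∃ x < g a, p a x := by
  have h1 : PrimrecRel fun (x : ℕ) (a : α) => p a x := hp.comp (Primrec.snd.pair Primrec.fst)
  exact (h1.exists_mem_list.comp (Primrec.list_range.comp hg) Primrec.id).of_eq (by simp)

private theorem sm_forall_mem {p : α → ℕ → Prop} (T : List ℕ)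
    (hp : PrimrecPred fun q : α × ℕ => p q.1 q.2) : PrimrecPred fun a => ∀ x ∈ T, p a x := by
  have h1 : PrimrecRel fun (x : ℕ) (a : α) => p a x := hp.comp (Primrec.snd.pair Primrec.fst)
  exact (h1.forall_mem_list.comp (Primrec.const T) Primrec.id).of_eq (by simp)

private theorem sm_filter {p : α → ℕ → Prop} [∀ a, DecidablePred (p a)] {g : α → List ℕ}
    (hp : PrimrecPred fun q : α × ℕ => p q.1 q.2) (hg : Primrec g) :
    Primrec fun a => (g a).filter (fun x => decide (p a x)) := by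
  have h1 : PrimrecRel fun (x : ℕ) (a : α) => p a x := hp.comp (Primrec.snd.pair Primrec.fst)
  let : DecidableRel fun (x : ℕ) (a : α) => p a x :=
    fun x a => inferInstanceAs (Decidable (p a x))
  exact h1.listFilter.comp hg Primrec.id

private theorem sm_mem {x : α → ℕ} {L : α → List ℕ} (hx : Primrec x) (hL : Primrec L) :
    PrimrecPred fun a => x a ∈ L a := by
  have h1 : PrimrecRel fun (y z : ℕ) => y = z := Primrec.eq
  exact (h1.exists_mem_list.comp hL hx).of_eq (by simp)

private theorem sm_imp {p q : α → Prop} (hp : PrimrecPred p) (hq : PrimrecPred q) :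
    PrimrecPred fun a => p a → q a :=
  (hp.not.or hq).of_eq fun _ => imp_iff_not_or.symm

end Prim

private def smF (W : ℕ → ℕ → ℕ → Bool) (b : ℕ → ℕ → Bool) (e u s : ℕ) : Prop :=
  ∀ x < u + 1, W e x s = true ∨ b x s = true

private def smL (W : ℕ → ℕ → ℕ → Bool) (b : ℕ → ℕ → Bool) (j u s : ℕ) (A : List ℕ) : Prop :=
  ∀ x < u + 1, W j.unpair.1 x s = true → b x s = true → x ∉ A → W j.unpair.2 x s = true

private def smN (W : ℕ → ℕ → ℕ → Bool) (b : ℕ → ℕ → Bool) (m s : ℕ) (A : List ℕ) : Prop :=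
  m.unpair.2 ≤ m.unpair.1 ∧ b m.unpair.1 s = false ∧
    W m.unpair.2.unpair.1 m.unpair.1 s = true ∧ smL W b m.unpair.2 m.unpair.1 s A

private def smE (W : ℕ → ℕ → ℕ → Bool) (b : ℕ → ℕ → Bool) (u s : ℕ) (A M : List ℕ) : Prop :=
  b u s = true ∧ u ∉ A ∧ ∃ e < s + 1, smF W b e u s ∧ W e u s = false ∧
    ∀ j < e, Nat.pair u j ∈ M → W j.unpair.2 u s = true

section Prim2

variable {α : Type} [Primcodable α] {W : ℕ → ℕ → ℕ → Bool} {b : ℕ → ℕ → Bool}

private theorem sm_W (hW : Primrec (fun p : ℕ × ℕ × ℕ => W p.1 p.2.1 p.2.2)) {i x s : α → ℕ}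
    (hi : Primrec i) (hx : Primrec x) (hs : Primrec s) (c : Bool) :
    PrimrecPred fun a => W (i a) (x a) (s a) = c :=
  Primrec.eq.comp (hW.comp (hi.pair (hx.pair hs))) (Primrec.const c)

private theorem sm_b (hb : Primrec₂ b) {x s : α → ℕ}
    (hx : Primrec x) (hs : Primrec s) (c : Bool) :
    PrimrecPred fun a => b (x a) (s a) = c :=
  Primrec.eq.comp (hb.comp hx hs) (Primrec.const c)

private theorem sm_F (hW : Primrec (fun p : ℕ × ℕ × ℕ => W p.1 p.2.1 p.2.2)) (hb : Primrec₂ b)
    {e u s : α → ℕ} (he : Primrec e) (hu : Primrec u) (hs : Primrec s) :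
    PrimrecPred fun a => smF W b (e a) (u a) (s a) := by
  refine sm_forall_lt (g := fun a => u a + 1) ?_ (Primrec.succ.comp hu)
  exact (sm_W hW (he.comp Primrec.fst) Primrec.snd (hs.comp Primrec.fst) true).or
    (sm_b hb Primrec.snd (hs.comp Primrec.fst) true)

private theorem sm_L (hW : Primrec (fun p : ℕ × ℕ × ℕ => W p.1 p.2.1 p.2.2)) (hb : Primrec₂ b)
    {j u s : α → ℕ} {A : α → List ℕ} (hj : Primrec j) (hu : Primrec u) (hs : Primrec s)
    (hA : Primrec A) :
    PrimrecPred fun a => smL W b (j a) (u a) (s a) (A a) := by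
  refine sm_forall_lt (g := fun a => u a + 1) ?_ (Primrec.succ.comp hu)
  have h1 : Primrec fun q : α × ℕ => (j q.1).unpair.1 :=
    Primrec.fst.comp (Primrec.unpair.comp (hj.comp Primrec.fst))
  have h2 : Primrec fun q : α × ℕ => (j q.1).unpair.2 :=
    Primrec.snd.comp (Primrec.unpair.comp (hj.comp Primrec.fst))
  exact sm_imp (sm_W hW h1 Primrec.snd (hs.comp Primrec.fst) true)
    (sm_imp (sm_b hb Primrec.snd (hs.comp Primrec.fst) true)
      (sm_imp (sm_mem Primrec.snd (hA.comp Primrec.fst)).not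
        (sm_W hW h2 Primrec.snd (hs.comp Primrec.fst) true)))

private theorem sm_N (hW : Primrec (fun p : ℕ × ℕ × ℕ => W p.1 p.2.1 p.2.2)) (hb : Primrec₂ b)
    {m s : α → ℕ} {A : α → List ℕ} (hm : Primrec m) (hs : Primrec s) (hA : Primrec A) :
    PrimrecPred fun a => smN W b (m a) (s a) (A a) := by
  have h1 : Primrec fun a => (m a).unpair.1 := Primrec.fst.comp (Primrec.unpair.comp hm)
  have h2 : Primrec fun a => (m a).unpair.2 := Primrec.snd.comp (Primrec.unpair.comp hm)
  have h3 : Primrec fun a => (m a).unpair.2.unpair.1 :=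
    Primrec.fst.comp (Primrec.unpair.comp h2)
  exact (Primrec.nat_le.comp h2 h1).and ((sm_b hb h1 hs false).and
    ((sm_W hW h3 h1 hs true).and (sm_L hW hb h2 h1 hs hA)))

private theorem sm_E (hW : Primrec (fun p : ℕ × ℕ × ℕ => W p.1 p.2.1 p.2.2)) (hb : Primrec₂ b)
    {u s : α → ℕ} {A M : α → List ℕ} (hu : Primrec u) (hs : Primrec s) (hA : Primrec A)
    (hM : Primrec M) :
    PrimrecPred fun a => smE W b (u a) (s a) (A a) (M a) := by
  refine (sm_b hb hu hs true).and ((sm_mem hu hA).not.and ?_)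
  refine sm_exists_lt (g := fun a => s a + 1) ?_ (Primrec.succ.comp hs)
  refine (sm_F hW hb Primrec.snd (hu.comp Primrec.fst) (hs.comp Primrec.fst)).and
    ((sm_W hW Primrec.snd (hu.comp Primrec.fst) (hs.comp Primrec.fst) false).and ?_)
  refine sm_forall_lt (g := fun q : α × ℕ => q.2) ?_ Primrec.snd
  have hu2 : Primrec fun q : (α × ℕ) × ℕ => u q.1.1 :=
    hu.comp (Primrec.fst.comp Primrec.fst)
  have hs2 : Primrec fun q : (α × ℕ) × ℕ => s q.1.1 :=
    hs.comp (Primrec.fst.comp Primrec.fst)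
  have hM2 : Primrec fun q : (α × ℕ) × ℕ => M q.1.1 :=
    hM.comp (Primrec.fst.comp Primrec.fst)
  have h1 : Primrec fun q : (α × ℕ) × ℕ => q.2.unpair.2 :=
    Primrec.snd.comp (Primrec.unpair.comp Primrec.snd)
  have h2 : Primrec fun q : (α × ℕ) × ℕ => Nat.pair (u q.1.1) q.2 :=
    Primrec₂.natPair.comp hu2 Primrec.snd
  exact sm_imp (sm_mem h2 hM2) (sm_W hW h1 hu2 hs2 true)

end Prim2

open Classical in
private noncomputable def smM (W : ℕ → ℕ → ℕ → Bool) (b : ℕ → ℕ → Bool) (s : ℕ)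
    (p : List ℕ × List ℕ) : List ℕ :=
  p.2 ++ (List.range (s * s)).filter (fun m => decide (smN W b m s p.1))

open Classical in
private noncomputable def smStep (W : ℕ → ℕ → ℕ → Bool) (b : ℕ → ℕ → Bool) (s : ℕ)
    (p : List ℕ × List ℕ) : List ℕ × List ℕ :=
  (p.1 ++ (List.range s).filter (fun u => decide (smE W b u s p.1 (smM W b s p))), smM W b s p)

private noncomputable def smSt (W : ℕ → ℕ → ℕ → Bool) (b : ℕ → ℕ → Bool) (s : ℕ) :
    List ℕ × List ℕ :=
  Nat.rec ([], []) (smStep W b) s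

section Constr

variable {W : ℕ → ℕ → ℕ → Bool} {b : ℕ → ℕ → Bool}

private theorem sm_prim_M (hW : Primrec (fun p : ℕ × ℕ × ℕ => W p.1 p.2.1 p.2.2))
    (hb : Primrec₂ b) : Primrec₂ (smM W b) := by
  classical
  refine Primrec.list_append.comp (Primrec.snd.comp Primrec.snd) ?_
  refine sm_filter (p := fun (q : ℕ × (List ℕ × List ℕ)) m => smN W b m q.1 q.2.1) ?_ ?_
  · exact sm_N hW hb Primrec.snd (Primrec.fst.comp Primrec.fst)
      (Primrec.fst.comp (Primrec.snd.comp Primrec.fst))
  · exact Primrec.list_range.comp (Primrec.nat_mul.comp Primrec.fst Primrec.fst)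

private theorem sm_prim_step (hW : Primrec (fun p : ℕ × ℕ × ℕ => W p.1 p.2.1 p.2.2))
    (hb : Primrec₂ b) : Primrec₂ (smStep W b) := by
  classical
  have hM : Primrec fun q : ℕ × (List ℕ × List ℕ) => smM W b q.1 q.2 := sm_prim_M hW hb
  refine Primrec.pair ?_ hM
  refine Primrec.list_append.comp (Primrec.fst.comp Primrec.snd) ?_
  refine sm_filter (p := fun (q : ℕ × (List ℕ × List ℕ)) u =>
    smE W b u q.1 q.2.1 (smM W b q.1 q.2)) ?_ ?_
  · exact sm_E hW hb Primrec.snd (Primrec.fst.comp Primrec.fst)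
      (Primrec.fst.comp (Primrec.snd.comp Primrec.fst)) (hM.comp Primrec.fst)
  · exact Primrec.list_range.comp Primrec.fst

private theorem sm_prim_st (hW : Primrec (fun p : ℕ × ℕ × ℕ => W p.1 p.2.1 p.2.2))
    (hb : Primrec₂ b) : Primrec (smSt W b) :=
  Primrec.nat_rec₁ ([], []) (sm_prim_step hW hb)

private theorem sm_mem_A (hblt : ∀ e s, b e s = true → e < s) (u s : ℕ) :
    u ∈ (smSt W b (s + 1)).1 ↔ u ∈ (smSt W b s).1 ∨
      smE W b u s (smSt W b s).1 (smSt W b (s + 1)).2 := by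
  classical
  have h1 : (smSt W b (s + 1)).1 = (smSt W b s).1 ++ (List.range s).filter
      (fun u => decide (smE W b u s (smSt W b s).1 (smM W b s (smSt W b s)))) := rfl
  have h2 : (smSt W b (s + 1)).2 = smM W b s (smSt W b s) := rfl
  rw [h1, h2, List.mem_append, List.mem_filter, List.mem_range, decide_eq_true_iff]
  constructor
  · rintro (h | h)
    · exact Or.inl h
    · exact Or.inr h.2
  · rintro (h | h)
    · exact Or.inl h
    · exact Or.inr ⟨hblt u s h.1, h⟩

private theorem sm_mem_M (hWlt : ∀ i e s, W i e s = true → e < s) (m s : ℕ) :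
    m ∈ (smSt W b (s + 1)).2 ↔ m ∈ (smSt W b s).2 ∨ smN W b m s (smSt W b s).1 := by
  classical
  have h2 : (smSt W b (s + 1)).2 = (smSt W b s).2 ++ (List.range (s * s)).filter
      (fun m => decide (smN W b m s (smSt W b s).1)) := rfl
  rw [h2, List.mem_append, List.mem_filter, List.mem_range, decide_eq_true_iff]
  constructor
  · rintro (h | h)
    · exact Or.inl h
    · exact Or.inr h.2
  · rintro (h | h)
    · exact Or.inl h
    · refine Or.inr ⟨?_, h⟩
      have h3 := hWlt _ _ _ h.2.2.1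
      have h4 := h.1
      have h5 := Nat.pair_lt_max_add_one_sq m.unpair.1 m.unpair.2
      rw [Nat.pair_unpair, max_eq_left h4, pow_two] at h5
      exact lt_of_lt_of_le h5 (Nat.mul_le_mul h3 h3)

private theorem sm_mem_M' (hWlt : ∀ i e s, W i e s = true → e < s) (m s : ℕ) :
    m ∈ (smSt W b s).2 ↔ ∃ s' < s, smN W b m s' (smSt W b s').1 := by
  induction s with
  | zero =>
    have h1 : (smSt W b 0).2 = [] := rfl
    rw [h1]
    simp
  | succ s ih =>
    rw [sm_mem_M hWlt, ih]
    constructor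
    · rintro (⟨s', h1, h2⟩ | h)
      · exact ⟨s', Nat.lt_succ_of_lt h1, h2⟩
      · exact ⟨s, Nat.lt_succ_self s, h⟩
    · rintro ⟨s', h1, h2⟩
      rcases Nat.lt_succ_iff_lt_or_eq.mp h1 with h3 | h3
      · exact Or.inl ⟨s', h3, h2⟩
      · exact Or.inr (h3 ▸ h2)

end Constr

/-- The construction. -/
private theorem sm_constr {W : ℕ → ℕ → ℕ → Bool} {b : ℕ → ℕ → Bool}
    (hW : Primrec (fun p : ℕ × ℕ × ℕ => W p.1 p.2.1 p.2.2)) (hb : Primrec₂ b)
    (hWlt : ∀ i e s, W i e s = true → e < s) (hblt : ∀ e s, b e s = true → e < s) :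
    ∃ (a : ℕ → ℕ → Prop) (mk : ℕ → ℕ → ℕ → Prop), PrimrecRel a ∧ (∀ u, ¬ a u 0) ∧
      (∀ u s, a u (s + 1) ↔ a u s ∨ (b u s = true ∧ ¬ a u s ∧ ∃ e < s + 1,
        (∀ x < u + 1, W e x s = true ∨ b x s = true) ∧ W e u s = false ∧
        ∀ j < e, mk u j s → W j.unpair.2 u s = true)) ∧
      ∀ u j s, mk u j s ↔ ∃ s' < s + 1, j ≤ u ∧ b u s' = false ∧ W j.unpair.1 u s' = true ∧
        ∀ x < u + 1, W j.unpair.1 x s' = true → b x s' = true → ¬ a x s' →
          W j.unpair.2 x s' = true := by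
  refine ⟨fun u s => u ∈ (smSt W b s).1, fun u j s => Nat.pair u j ∈ (smSt W b (s + 1)).2,
    ?_, ?_, ?_, ?_⟩
  · exact sm_mem Primrec.fst (Primrec.fst.comp ((sm_prim_st hW hb).comp Primrec.snd))
  · intro u
    have h1 : (smSt W b 0).1 = [] := rfl
    show ¬ u ∈ (smSt W b 0).1
    rw [h1]
    simp
  · intro u s
    exact sm_mem_A hblt u s
  · intro u j s
    show Nat.pair u j ∈ (smSt W b (s + 1)).2 ↔ _
    rw [sm_mem_M' hWlt]
    unfold smN smL
    rw [Nat.unpair_pair]

/-- Every r.e. set which is not recursive has a small major subset. -/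
theorem exists_small_major {B : Set ℕ} (hB : RESet B) (hn : ¬ RESet Bᶜ) :
    ∃ A : Set ℕ, A ⊆ B ∧ RESet A ∧
      (∀ U V : Set ℕ, RESet U → RESet V → U ∩ (B \ A) ⊆ V → RESet ((U \ B) ∪ V)) ∧
      ∀ H : Set ℕ, Rec H → H ⊆ B → (H ∩ (B \ A)).Finite := by
  classical
  obtain ⟨b, hb, hblt, hbB⟩ := hB.exists_bdd
  obtain ⟨W, hW, hWm, hWlt', hWu⟩ := exists_univ_set
  have hWlt : ∀ i e s, W i e s = true → e < s := fun i e s h => (hWlt' i e s h).1
  obtain ⟨a, mk, ha, ha0, has, hmk⟩ := sm_constr hW hb.prim hWlt hblt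
  have bmono : ∀ u s t, s ≤ t → b u s = true → b u t = true := by
    intro u s t h1 h2
    have h3 := hb.mono u h1
    rw [h2] at h3
    exact top_le_iff.mp h3
  have Wmono : ∀ i u s t, s ≤ t → W i u s = true → W i u t = true := by
    intro i u s t h1 h2
    have h3 := hWm i u h1
    rw [h2] at h3
    exact top_le_iff.mp h3
  have amono : ∀ u s t, s ≤ t → a u s → a u t := by
    intro u s t h1 h2
    induction t, h1 using Nat.le_induction with
    | base => exact h2
    | succ t _ ih => exact (has u t).mpr (Or.inl ih)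
  refine ⟨{u | ∃ s, a u s}, ?_, RESet.of_exists ha (fun e => Iff.rfl), ?_, ?_⟩
  · rintro u ⟨s, hs⟩
    induction s with
    | zero => exact absurd hs (ha0 u)
    | succ s ih =>
      rcases (has u s).mp hs with h | h
      · exact ih h
      · exact (hbB u).mpr ⟨s, h.1⟩
  · -- small
    intro U V hU hV hUV
    obtain ⟨i, hi⟩ := hWu U hU
    obtain ⟨k, hk⟩ := hWu V hV
    obtain ⟨j, hj⟩ : ∃ j, j = Nat.pair i k := ⟨_, rfl⟩
    have hj1 : j.unpair.1 = i := by rw [hj, Nat.unpair_pair]
    have hj2 : j.unpair.2 = k := by rw [hj, Nat.unpair_pair]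
    -- the length of agreement tends to infinity
    have hlen : ∀ u, ∃ s₀, ∀ s, s₀ ≤ s → ∀ x < u + 1, W i x s = true → b x s = true →
        ¬ a x s → W k x s = true := by
      intro u
      have h1 : ∀ x, ∃ s₀, ∀ s, s₀ ≤ s → W i x s = true → b x s = true →
          ¬ a x s → W k x s = true := by
        intro x
        by_cases h2 : x ∈ V
        · obtain ⟨s₀, hs₀⟩ := (hk x).mp h2
          exact ⟨s₀, fun s hs _ _ _ => Wmono k x s₀ s hs hs₀⟩
        · by_cases h3 : x ∈ U
          · by_cases h4 : x ∈ B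
            · have h5 : ∃ s, a x s := by
                by_contra hc
                exact h2 (hUV ⟨h3, h4, hc⟩)
              obtain ⟨s₀, hs₀⟩ := h5
              exact ⟨s₀, fun s hs _ _ h6 => absurd (amono x s₀ s hs hs₀) h6⟩
            · exact ⟨0, fun s _ _ h6 _ => absurd ((hbB x).mpr ⟨s, h6⟩) h4⟩
          · exact ⟨0, fun s _ h6 _ _ => absurd ((hi x).mpr ⟨s, h6⟩) h3⟩
      choose s₀ hs₀ using h1
      refine ⟨(Finset.range (u + 1)).sup s₀, fun s hs x hx => hs₀ x s ?_⟩
      exact le_trans (Finset.le_sup (f := s₀) (Finset.mem_range.mpr hx)) hs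
    -- the true indices
    obtain ⟨T, hT⟩ : ∃ T : List ℕ, ∀ e, e ∈ T ↔ e ≤ j ∧
        ∀ x, (∃ s, W e x s = true) ∨ x ∈ B := by
      refine ⟨(List.range (j + 1)).filter
        (fun e => decide (∀ x, (∃ s, W e x s = true) ∨ x ∈ B)), fun e => ?_⟩
      rw [List.mem_filter, List.mem_range, decide_eq_true_iff, Nat.lt_succ_iff]
    -- the set Z
    obtain ⟨R, hR⟩ : ∃ R : ℕ → ℕ → Prop, R = fun u s => b u s = false ∧ W i u s = true ∧ j ≤ u ∧
        (∀ x < u + 1, W i x s = true → b x s = true → ¬ a x s → W k x s = true) ∧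
        ∀ e ∈ T, smF W b e u s := ⟨_, rfl⟩
    have hRp : PrimrecRel R := by
      rw [hR]
      refine (sm_b hb.prim Primrec.fst Primrec.snd false).and
        ((sm_W hW (Primrec.const i) Primrec.fst Primrec.snd true).and
          ((Primrec.nat_le.comp (Primrec.const j) Primrec.fst).and (PrimrecPred.and ?_ ?_)))
      · refine sm_forall_lt (g := fun q : ℕ × ℕ => q.1 + 1) ?_ (Primrec.succ.comp Primrec.fst)
        have h2 : Primrec fun q : (ℕ × ℕ) × ℕ => q.1.2 := Primrec.snd.comp Primrec.fst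
        exact sm_imp (sm_W hW (Primrec.const i) Primrec.snd h2 true)
          (sm_imp (sm_b hb.prim Primrec.snd h2 true)
            (sm_imp (ha.comp Primrec.snd h2).not
              (sm_W hW (Primrec.const k) Primrec.snd h2 true)))
      · refine sm_forall_mem T ?_
        exact sm_F hW hb.prim Primrec.snd (Primrec.fst.comp Primrec.fst)
          (Primrec.snd.comp Primrec.fst)
    have hZ : RESet {u | ∃ s, R u s} := RESet.of_exists hRp (fun e => Iff.rfl)
    -- the false indices
    have hfalse : ∀ e, ∃ x₀, e ≤ j → e ∉ T → ∀ s u, (∀ x < u + 1, W e x s = true ∨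
        b x s = true) → u < x₀ := by
      intro e
      by_cases h1 : e ≤ j ∧ e ∉ T
      · rw [hT] at h1
        have h2 : ¬ ∀ x, (∃ s, W e x s = true) ∨ x ∈ B := fun h3 => h1.2 ⟨h1.1, h3⟩
        push Not at h2
        obtain ⟨x₀, h3, h4⟩ := h2
        refine ⟨x₀, fun _ _ s u h5 => ?_⟩
        by_contra h6
        rcases h5 x₀ (by omega) with h7 | h7
        · exact h3 s h7
        · exact h4 ((hbB x₀).mpr ⟨s, h7⟩)
      · exact ⟨0, fun h2 h3 => absurd ⟨h2, h3⟩ h1⟩
    choose x₀ hx₀ using hfalse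
    refine RESet.change (RESet.union hZ hV) (Set.Finite.subset
      ((Set.finite_lt_nat j).union (Set.finite_lt_nat ((Finset.range (j + 1)).sup x₀))) ?_)
    rintro u (⟨h1, h2⟩ | ⟨h1, h2⟩)
    · -- in Z ∪ V, not in (U \ B) ∪ V
      right
      have hnV : u ∉ V := fun h => h2 (Or.inr h)
      have huZ : ∃ s, R u s := by
        rcases h1 with h | h
        · exact h
        · exact absurd h hnV
      obtain ⟨s₁, hs₁⟩ := huZ
      rw [hR] at hs₁
      obtain ⟨r1, r2, r3, r4, r5⟩ := hs₁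
      have huU : u ∈ U := (hi u).mpr ⟨s₁, r2⟩
      have huB : u ∈ B := by
        by_contra h
        exact h2 (Or.inl ⟨huU, h⟩)
      have huA : ∃ s, a u s := by
        by_contra h
        exact hnV (hUV ⟨huU, huB, h⟩)
      have hent : ∃ s, ¬ a u s ∧ a u (s + 1) := by
        by_contra h
        push Not at h
        obtain ⟨s, hs⟩ := huA
        have h3 : ∀ s, ¬ a u s := by
          intro s
          induction s with
          | zero => exact ha0 u
          | succ s ih => exact h s ih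
        exact h3 s hs
      obtain ⟨s, hs1, hs2⟩ := hent
      rcases (has u s).mp hs2 with h3 | ⟨q1, -, e, he, q2, q3, q4⟩
      · exact absurd h3 hs1
      · have hlt : s₁ < s := by
          by_contra h
          have h4 := bmono u s s₁ (by omega) q1
          rw [h4] at r1
          exact absurd r1 (by simp)
        rcases lt_or_ge j e with hje | hje
        · exfalso
          apply hnV
          rw [hk]
          refine ⟨s, ?_⟩
          have h5 := q4 j hje ((hmk u j s).mpr ⟨s₁, by omega, r3, r1, ?_, ?_⟩)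
          · rwa [hj2] at h5
          · rwa [hj1]
          · rw [hj1, hj2]
            exact r4
        · by_cases heT : e ∈ T
          · exfalso
            rcases r5 e heT u (by omega) with h6 | h6
            · have h7 := Wmono e u s₁ s (by omega) h6
              rw [h7] at q3
              exact absurd q3 (by simp)
            · rw [h6] at r1
              exact absurd r1 (by simp)
          · have h6 := hx₀ e hje heT s u q2
            exact lt_of_lt_of_le h6
              (Finset.le_sup (f := x₀) (Finset.mem_range.mpr (Nat.lt_succ_of_le hje)))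
    · -- in (U \ B) ∪ V, not in Z ∪ V
      left
      have hnV : u ∉ V := fun h => h2 (Or.inr h)
      have hnZ : ¬ ∃ s, R u s := fun h => h2 (Or.inl h)
      have huUB : u ∈ U \ B := by
        rcases h1 with h | h
        · exact h
        · exact absurd h hnV
      show u < j
      by_contra hju
      apply hnZ
      obtain ⟨s₁, hs₁⟩ := (hi u).mp huUB.1
      obtain ⟨s₂, hs₂⟩ := hlen u
      have h3 : ∀ e ∈ T, ∃ s₀, ∀ s, s₀ ≤ s → smF W b e u s := by
        intro e he
        have h4 := ((hT e).mp he).2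
        have h5 : ∀ x, ∃ s₀, ∀ s, s₀ ≤ s → (W e x s = true ∨ b x s = true) := by
          intro x
          rcases h4 x with ⟨s₀, h6⟩ | h6
          · exact ⟨s₀, fun s hs => Or.inl (Wmono e x s₀ s hs h6)⟩
          · obtain ⟨s₀, h7⟩ := (hbB x).mp h6
            exact ⟨s₀, fun s hs => Or.inr (bmono x s₀ s hs h7)⟩
        choose s₀ hs₀ using h5
        refine ⟨(Finset.range (u + 1)).sup s₀, fun s hs x hx => hs₀ x s ?_⟩
        exact le_trans (Finset.le_sup (f := s₀) (Finset.mem_range.mpr hx)) hs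
      have h3' : ∀ e, ∃ s₀, e ∈ T → ∀ s, s₀ ≤ s → smF W b e u s := by
        intro e
        by_cases he : e ∈ T
        · obtain ⟨s₀, h⟩ := h3 e he
          exact ⟨s₀, fun _ => h⟩
        · exact ⟨0, fun h => absurd h he⟩
      choose s₃ hs₃ using h3'
      refine ⟨max s₁ (max s₂ (T.toFinset.sup s₃)), ?_⟩
      rw [hR]
      refine ⟨?_, ?_, by omega, ?_, ?_⟩
      · rw [Bool.eq_false_iff]
        intro h
        exact huUB.2 ((hbB u).mpr ⟨_, h⟩)
      · exact Wmono i u s₁ _ (le_max_left _ _) hs₁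
      · exact hs₂ _ (le_trans (le_max_left _ _) (le_max_right _ _))
      · intro e he
        refine hs₃ e he _ (le_trans ?_ (le_trans (le_max_right _ _) (le_max_right _ _)))
        exact Finset.le_sup (f := s₃) (List.mem_toFinset.mpr he)
  · -- major
    intro H hH hHB
    obtain ⟨e, he⟩ := hWu _ hH.2
    have hfin : ∀ j, {u : ℕ | u ∈ B ∧ (¬ ∃ s, a u s) ∧ (¬ ∃ s, W j.unpair.2 u s = true) ∧
        ∃ s, mk u j s}.Finite := by
      intro j
      by_cases hne : ∃ u₀, u₀ ∈ B ∧ (¬ ∃ s, a u₀ s) ∧ (¬ ∃ s, W j.unpair.2 u₀ s = true) ∧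
        ∃ s, mk u₀ j s
      · obtain ⟨u₀, h1, h2, h3, s₀, h4⟩ := hne
        obtain ⟨s₁, -, -, -, h5, -⟩ := (hmk u₀ j s₀).mp h4
        obtain ⟨s₂, h6⟩ := (hbB u₀).mp h1
        refine Set.Finite.subset (Set.finite_lt_nat (max u₀ (max s₁ s₂))) ?_
        rintro u ⟨-, -, -, s, hs⟩
        obtain ⟨s', -, -, -, h7, h8⟩ := (hmk u j s).mp hs
        show u < _
        by_contra hc
        have h9 : u < s' := hWlt _ _ _ h7
        have h10 : u₀ ≤ u ∧ s₁ ≤ u ∧ s₂ ≤ u := by
          refine ⟨?_, ?_, ?_⟩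
          · exact le_trans (le_max_left _ _) (not_lt.mp hc)
          · exact le_trans (le_trans (le_max_left _ _) (le_max_right _ _)) (not_lt.mp hc)
          · exact le_trans (le_trans (le_max_right _ _) (le_max_right _ _)) (not_lt.mp hc)
        apply h3
        refine ⟨s', h8 u₀ (by omega) (Wmono _ _ s₁ s' (by omega) h5)
          (bmono _ s₂ s' (by omega) h6) (fun h => h2 ⟨s', h⟩)⟩
      · refine Set.Finite.subset Set.finite_empty ?_
        intro u hu
        exact absurd ⟨u, hu⟩ hne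
    refine Set.Finite.subset (Set.Finite.biUnion (Set.finite_lt_nat e) fun j _ => hfin j) ?_
    rintro u ⟨huH, huB, huA⟩
    have huA' : ¬ ∃ s, a u s := huA
    -- stages at which everything up to u is settled
    have h1 : ∀ x, ∃ s₀, ∀ s, s₀ ≤ s → (W e x s = true ∨ b x s = true) := by
      intro x
      by_cases h2 : x ∈ H
      · obtain ⟨s₀, h7⟩ := (hbB x).mp (hHB h2)
        exact ⟨s₀, fun s hs => Or.inr (bmono x s₀ s hs h7)⟩
      · obtain ⟨s₀, h6⟩ := (he x).mp h2
        exact ⟨s₀, fun s hs => Or.inl (Wmono e x s₀ s hs h6)⟩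
    choose s₀ hs₀ using h1
    have h2 : ∀ j : ℕ, ∃ s₁, ∀ s, s₁ ≤ s → (∃ t, W j.unpair.2 u t = true) →
        W j.unpair.2 u s = true := by
      intro j
      by_cases h3 : ∃ t, W j.unpair.2 u t = true
      · obtain ⟨t, ht⟩ := h3
        exact ⟨t, fun s hs _ => Wmono _ u t s hs ht⟩
      · exact ⟨0, fun s _ h4 => absurd h4 h3⟩
    choose s₁ hs₁ using h2
    obtain ⟨s₂, hs₂⟩ := (hbB u).mp huB
    obtain ⟨s, hs⟩ : ∃ s, s = (Finset.range (u + 1)).sup s₀ + (Finset.range e).sup s₁ + s₂ + e :=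
      ⟨_, rfl⟩
    have hnot : ¬ a u (s + 1) := fun h => huA' ⟨_, h⟩
    rw [has] at hnot
    push Not at hnot
    have h5 := hnot.2 (bmono u s₂ s (by omega) hs₂) (fun h => huA' ⟨s, h⟩) e (by omega) ?_ ?_
    · obtain ⟨j, hj, hm, hV⟩ := h5
      simp only [Set.mem_iUnion]
      refine ⟨j, hj, huB, huA', ?_, s, hm⟩
      intro h6
      apply hV
      apply hs₁ j s _ h6
      have h7 := Finset.le_sup (f := s₁) (Finset.mem_range.mpr hj)
      omega
    · intro x hx
      apply hs₀ x s
      have h7 := Finset.le_sup (f := s₀) (Finset.mem_range.mpr hx)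
      omega
    · rw [Bool.eq_false_iff]
      intro h6
      exact (he u).mpr ⟨s, h6⟩ huH

end Pool.Agent.Lib.MP_45c83f_lc
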