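import Pool.Agent.Lib.MP_45c83f_lc.Basics
import Pool.Agent.Lib.MP_45c83f_lc.Univ

set_option autoImplicit false

/-!
# Friedberg splitting
-/

namespace Pool.Agent.Lib.MP_45c83f_lc

/-- The requirement `r = i * k + j` is open and `e` is in the `i`-th set at stage `t`. -/
private def splCand (W : ℕ → ℕ → ℕ → Bool) (k : ℕ) (q : (ℕ × List (ℕ × ℕ)) × ℕ) (r : ℕ) : Prop :=
  W (r / k) q.2 q.1.1 = true ∧ ¬ ∃ p ∈ q.1.2, p.2 = r + 1

private theorem splCand_prim {W : ℕ → ℕ → ℕ → Bool}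
    (hW : Primrec (fun p : ℕ × ℕ × ℕ => W p.1 p.2.1 p.2.2)) (k : ℕ) :
    PrimrecRel (splCand W k) := by
  have h1 : Primrec fun z : ((ℕ × List (ℕ × ℕ)) × ℕ) × ℕ => W (z.2 / k) z.1.2 z.1.1.1 :=
    hW.comp (Primrec.pair (Primrec.nat_div.comp Primrec.snd (Primrec.const k))
      (Primrec.pair (Primrec.snd.comp Primrec.fst)
        (Primrec.fst.comp (Primrec.fst.comp Primrec.fst))))
  have h2 : PrimrecRel fun (p : ℕ × ℕ) (r : ℕ) => p.2 = r + 1 :=
    Primrec.eq.comp (Primrec.snd.comp Primrec.fst) (Primrec.succ.comp Primrec.snd)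
  have h3 := h2.exists_mem_list.comp
    (Primrec.snd.comp (Primrec.fst.comp (Primrec.fst (α := (ℕ × List (ℕ × ℕ)) × ℕ) (β := ℕ))))
    (Primrec.snd (α := (ℕ × List (ℕ × ℕ)) × ℕ) (β := ℕ))
  exact (Primrec.eq.comp h1 (Primrec.const true)).and h3.not

open Classical in
/-- The least open requirement `r ≤ t` (plus one), or `0`. -/
private noncomputable def splCode (W : ℕ → ℕ → ℕ → Bool) (k : ℕ) (q : (ℕ × List (ℕ × ℕ)) × ℕ) : ℕ :=
  if (List.range (q.1.1 + 1)).findIdx (fun r => decide (splCand W k q r)) ≤ q.1.1 then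
    (List.range (q.1.1 + 1)).findIdx (fun r => decide (splCand W k q r)) + 1 else 0

private theorem splCode_prim {W : ℕ → ℕ → ℕ → Bool}
    (hW : Primrec (fun p : ℕ × ℕ × ℕ => W p.1 p.2.1 p.2.2)) (k : ℕ) :
    Primrec (splCode W k) := by
  classical
  have h1 : Primrec fun q : (ℕ × List (ℕ × ℕ)) × ℕ =>
      (List.range (q.1.1 + 1)).findIdx (fun r => decide (splCand W k q r)) := by
    refine Primrec.list_findIdx (Primrec.list_range.comp
      (Primrec.succ.comp (Primrec.fst.comp Primrec.fst))) ?_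
    exact (splCand_prim hW k).decide
  exact Primrec.ite (Primrec.nat_le.comp h1 (Primrec.fst.comp Primrec.fst))
    (Primrec.succ.comp h1) (Primrec.const 0)

private theorem splCode_succ {W : ℕ → ℕ → ℕ → Bool} {k : ℕ} {q : (ℕ × List (ℕ × ℕ)) × ℕ} {r : ℕ}
    (h : splCode W k q = r + 1) : splCand W k q r ∧ r ≤ q.1.1 := by
  classical
  unfold splCode at h
  split_ifs at h with h1
  have h2 : (List.range (q.1.1 + 1)).findIdx (fun r => decide (splCand W k q r)) = r := by omega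
  have h3 : (List.range (q.1.1 + 1)).findIdx (fun r => decide (splCand W k q r)) <
      (List.range (q.1.1 + 1)).length := by
    rw [List.length_range]
    omega
  have h4 := List.findIdx_getElem (w := h3)
  rw [List.getElem_range, h2, decide_eq_true_iff] at h4
  exact ⟨h4, by omega⟩

private theorem splCode_le {W : ℕ → ℕ → ℕ → Bool} {k : ℕ} {q : (ℕ × List (ℕ × ℕ)) × ℕ} {r : ℕ}
    (h : splCand W k q r) (hr : r ≤ q.1.1) : ∃ r' ≤ r, splCode W k q = r' + 1 := by
  classical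
  have h1 : (List.range (q.1.1 + 1)).findIdx (fun r => decide (splCand W k q r)) ≤ r := by
    by_contra hlt
    push Not at hlt
    have h2 := List.not_of_lt_findIdx hlt
    rw [List.getElem_range] at h2
    simp only [decide_eq_false_iff_not] at h2
    exact h2 h
  refine ⟨_, h1, ?_⟩
  unfold splCode
  rw [if_pos (h1.trans hr)]

open Classical in
/-- One step of the construction. -/
private noncomputable def splStep (f : ℕ → ℕ → Bool) (W : ℕ → ℕ → ℕ → Bool) (k : ℕ) (t : ℕ)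
    (l : List (ℕ × ℕ)) : List (ℕ × ℕ) :=
  if f (Nat.unpair t).1 (Nat.unpair t).2 = true ∧ ¬ ∃ p ∈ l, p.1 = (Nat.unpair t).1 then
    ((Nat.unpair t).1, splCode W k ((t, l), (Nat.unpair t).1)) :: l else l

private theorem splStep_prim {f : ℕ → ℕ → Bool} (hf : Primrec₂ f) {W : ℕ → ℕ → ℕ → Bool}
    (hW : Primrec (fun p : ℕ × ℕ × ℕ => W p.1 p.2.1 p.2.2)) (k : ℕ) :
    Primrec₂ (splStep f W k) := by
  classical
  have h0 : Primrec fun p : ℕ × List (ℕ × ℕ) => Nat.unpair p.1 :=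
    Primrec.unpair.comp Primrec.fst
  have h1 : Primrec fun p : ℕ × List (ℕ × ℕ) => f (Nat.unpair p.1).1 (Nat.unpair p.1).2 :=
    hf.comp (Primrec.fst.comp h0) (Primrec.snd.comp h0)
  have h2 : PrimrecRel fun (p : ℕ × ℕ) (e : ℕ) => p.1 = e :=
    Primrec.eq.comp (Primrec.fst.comp Primrec.fst) Primrec.snd
  have h3 : PrimrecPred fun p : ℕ × List (ℕ × ℕ) => ∃ q ∈ p.2, q.1 = (Nat.unpair p.1).1 :=
    h2.exists_mem_list.comp Primrec.snd (Primrec.fst.comp h0)
  have h4 : Primrec fun p : ℕ × List (ℕ × ℕ) => splCode W k (p, (Nat.unpair p.1).1) :=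
    (splCode_prim hW k).comp (Primrec.pair Primrec.id (Primrec.fst.comp h0))
  exact Primrec.ite ((Primrec.eq.comp h1 (Primrec.const true)).and h3.not)
    (Primrec.list_cons.comp (Primrec.pair (Primrec.fst.comp h0) h4) Primrec.snd) Primrec.snd

/-- The list of all pairs (element, code of the requirement) up to step `t`. -/
private noncomputable def splSt (f : ℕ → ℕ → Bool) (W : ℕ → ℕ → ℕ → Bool) (k : ℕ) :
    ℕ → List (ℕ × ℕ) := fun t => Nat.rec [] (splStep f W k) t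

private theorem splSt_prim {f : ℕ → ℕ → Bool} (hf : Primrec₂ f) {W : ℕ → ℕ → ℕ → Bool}
    (hW : Primrec (fun p : ℕ × ℕ × ℕ => W p.1 p.2.1 p.2.2)) (k : ℕ) : Primrec (splSt f W k) :=
  Primrec.nat_rec₁ [] (splStep_prim hf hW k)

private theorem splSt_succ (f : ℕ → ℕ → Bool) (W : ℕ → ℕ → ℕ → Bool) (k t : ℕ) :
    splSt f W k (t + 1) = splStep f W k t (splSt f W k t) := rfl

private theorem splSt_mono (f : ℕ → ℕ → Bool) (W : ℕ → ℕ → ℕ → Bool) (k : ℕ) {s t : ℕ}
    (hst : s ≤ t) {p : ℕ × ℕ} (hp : p ∈ splSt f W k s) : p ∈ splSt f W k t := by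
  induction hst with
  | refl => exact hp
  | step _ ih =>
    rw [Nat.succ_eq_add_one, splSt_succ]
    unfold splStep
    split_ifs
    · exact List.mem_cons_of_mem _ ih
    · exact ih

/-- How a pair enters the list. -/
private theorem splSt_mem {f : ℕ → ℕ → Bool} {W : ℕ → ℕ → ℕ → Bool} {k t : ℕ} {p : ℕ × ℕ}
    (hp : p ∈ splSt f W k t) : ∃ s < t, p ∈ splSt f W k (s + 1) ∧ p.1 = (Nat.unpair s).1 ∧
      f p.1 (Nat.unpair s).2 = true ∧ (¬ ∃ q ∈ splSt f W k s, q.1 = p.1) ∧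
      p.2 = splCode W k ((s, splSt f W k s), p.1) := by
  induction t with
  | zero => exact absurd hp (List.not_mem_nil)
  | succ t ih =>
    have hp' := hp
    rw [splSt_succ] at hp
    unfold splStep at hp
    split_ifs at hp with h1
    · rcases List.mem_cons.1 hp with h2 | h2
      · refine ⟨t, Nat.lt_succ_self t, hp', ?_, ?_, ?_, ?_⟩
        · rw [h2]
        · rw [h2]
          exact h1.1
        · rw [h2]
          exact h1.2
        · rw [h2]
      · obtain ⟨s, hs, h3⟩ := ih h2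
        exact ⟨s, hs.trans (Nat.lt_succ_self t), h3⟩
    · obtain ⟨s, hs, h3⟩ := ih hp
      exact ⟨s, hs.trans (Nat.lt_succ_self t), h3⟩

/-- Every element gets only one code. -/
private theorem splSt_uniq {f : ℕ → ℕ → Bool} {W : ℕ → ℕ → ℕ → Bool} {k s t : ℕ} {p q : ℕ × ℕ}
    (hp : p ∈ splSt f W k s) (hq : q ∈ splSt f W k t) (h : p.1 = q.1) : p.2 = q.2 := by
  obtain ⟨s', -, h0, -, -, h1, h2⟩ := splSt_mem hp
  obtain ⟨t', -, h0', -, -, h3, h4⟩ := splSt_mem hq
  rcases lt_trichotomy s' t' with hst | hst | hst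
  · exact absurd ⟨p, splSt_mono f W k hst h0, h⟩ h3
  · rw [h2, h4, h, hst]
  · exact absurd ⟨q, splSt_mono f W k hst h0', h.symm⟩ h1

/-- Every requirement acts only once. -/
private theorem splSt_once {f : ℕ → ℕ → Bool} {W : ℕ → ℕ → ℕ → Bool} {k s t r : ℕ} {p q : ℕ × ℕ}
    (hp : p ∈ splSt f W k s) (hq : q ∈ splSt f W k t) (hpr : p.2 = r + 1) (hqr : q.2 = r + 1) :
    p.1 = q.1 := by
  obtain ⟨s', -, h0, h00, -, -, h2⟩ := splSt_mem hp
  obtain ⟨t', -, h0', h00', -, -, h4⟩ := splSt_mem hq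
  rcases lt_trichotomy s' t' with hst | hst | hst
  · exact absurd ⟨p, splSt_mono f W k hst h0, hpr⟩ (splCode_succ (h4.symm.trans hqr)).1.2
  · rw [h00, h00', hst]
  · exact absurd ⟨q, splSt_mono f W k hst h0', hqr⟩ (splCode_succ (h2.symm.trans hpr)).1.2

/-- The piece which belongs to a code. -/
private def splPc (k c : ℕ) : ℕ := (c - 1) % k

/-- The pieces, with indices `j < k`. -/
private def splB (f : ℕ → ℕ → Bool) (W : ℕ → ℕ → ℕ → Bool) (k j : ℕ) : Set ℕ :=
  {e | ∃ t, ∃ p ∈ splSt f W k t, p.1 = e ∧ splPc k p.2 = j}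

private theorem splB_re {f : ℕ → ℕ → Bool} (hf : Primrec₂ f) {W : ℕ → ℕ → ℕ → Bool}
    (hW : Primrec (fun p : ℕ × ℕ × ℕ => W p.1 p.2.1 p.2.2)) (k j : ℕ) :
    RESet (splB f W k j) := by
  have h1 : PrimrecRel fun (p : ℕ × ℕ) (e : ℕ) => p.1 = e ∧ splPc k p.2 = j :=
    (Primrec.eq.comp (Primrec.fst.comp Primrec.fst) Primrec.snd).and
      (Primrec.eq.comp (Primrec.nat_mod.comp (Primrec.nat_sub.comp
        (Primrec.snd.comp Primrec.fst) (Primrec.const 1)) (Primrec.const k)) (Primrec.const j))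
  have h2 : PrimrecRel fun e t => ∃ p ∈ splSt f W k t, p.1 = e ∧ splPc k p.2 = j :=
    h1.exists_mem_list.comp ((splSt_prim hf hW k).comp Primrec.snd) Primrec.fst
  exact RESet.of_exists h2 fun e => Iff.rfl

/-- Friedberg splitting into finitely many pieces. -/
theorem exists_split {ι : Type} (C : Finset ι) (hC : C.Nonempty) {A : Set ℕ} (hA : RESet A) :
    ∃ B : ι → Set ℕ, (∀ c ∈ C, RESet (B c)) ∧
      (∀ c ∈ C, ∀ d ∈ C, c ≠ d → Disjoint (B c) (B d)) ∧ (⋃ c ∈ C, B c) = A ∧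
      ∀ Q : Set ℕ, RESet Q → ∀ c ∈ C, RESet (Q \ B c) → RESet (Q \ A) := by
  classical
  obtain ⟨f, hf, -, hfA⟩ := hA.exists_bdd
  obtain ⟨W, hW, hWm, -, hWu⟩ := exists_univ_set
  obtain ⟨k, hk⟩ : ∃ k, k = C.card := ⟨_, rfl⟩
  have hk0 : 0 < k := hk ▸ hC.card_pos
  let eqv : C ≃ Fin k := C.equivFinOfCardEq hk.symm
  let idx : ι → ℕ := fun c => if h : c ∈ C then (eqv ⟨c, h⟩ : ℕ) else 0
  have hidx : ∀ c (h : c ∈ C), idx c = (eqv ⟨c, h⟩ : ℕ) := fun c h => dif_pos h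
  have hidx_lt : ∀ c ∈ C, idx c < k := fun c h => by
    rw [hidx c h]
    exact (eqv ⟨c, h⟩).2
  have hidx_inj : ∀ c ∈ C, ∀ d ∈ C, idx c = idx d → c = d := by
    intro c hc d hd h
    rw [hidx c hc, hidx d hd] at h
    exact congrArg Subtype.val (eqv.injective (Fin.ext h))
  have hidx_surj : ∀ j < k, ∃ c ∈ C, idx c = j := by
    intro j hj
    refine ⟨(eqv.symm ⟨j, hj⟩).1, (eqv.symm ⟨j, hj⟩).2, ?_⟩
    rw [hidx _ (eqv.symm ⟨j, hj⟩).2]
    show ((eqv (eqv.symm ⟨j, hj⟩)) : ℕ) = j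
    rw [Equiv.apply_symm_apply]
  have hsub : ∀ t, ∀ p ∈ splSt f W k t, p.1 ∈ A := by
    intro t p hp
    obtain ⟨s, -, -, -, h1, -⟩ := splSt_mem hp
    exact (hfA _).2 ⟨_, h1⟩
  have hcov : ∀ e ∈ A, ∃ t, ∃ p ∈ splSt f W k t, p.1 = e := by
    intro e he
    obtain ⟨s, hs⟩ := (hfA e).1 he
    by_cases h1 : ∃ q ∈ splSt f W k (Nat.pair e s), q.1 = e
    · exact ⟨_, h1⟩
    · refine ⟨Nat.pair e s + 1, (e, splCode W k ((Nat.pair e s, splSt f W k (Nat.pair e s)), e)),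
        ?_, rfl⟩
      rw [splSt_succ]
      unfold splStep
      rw [Nat.unpair_pair, if_pos ⟨hs, h1⟩]
      exact List.mem_cons_self
  refine ⟨fun c => splB f W k (idx c), fun c _ => splB_re hf.prim hW k _, ?_, ?_, ?_⟩
  · intro c hc d hd hcd
    rw [Set.disjoint_left]
    rintro e ⟨t, p, hp, rfl, hp2⟩ ⟨t', q, hq, hq1, hq2⟩
    apply hcd
    apply hidx_inj c hc d hd
    rw [← hp2, ← hq2, splSt_uniq hp hq hq1.symm]
  · ext e
    simp only [Set.mem_iUnion, exists_prop]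
    constructor
    · rintro ⟨c, hc, t, p, hp, rfl, -⟩
      exact hsub t p hp
    · intro he
      obtain ⟨t, p, hp, hpe⟩ := hcov e he
      obtain ⟨c, hc, hj⟩ := hidx_surj (splPc k p.2) (Nat.mod_lt _ hk0)
      exact ⟨c, hc, t, p, hp, hpe, hj.symm⟩
  · intro Q hQ c hc hQB
    obtain ⟨i, hi⟩ := hWu _ hQB
    obtain ⟨r, hr⟩ : ∃ r, r = i * k + idx c := ⟨_, rfl⟩
    have hr1 : r / k = i := by
      rw [hr, add_comm, Nat.add_mul_div_right _ _ hk0, Nat.div_eq_of_lt (hidx_lt c hc), zero_add]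
    have hr2 : r % k = idx c := by
      rw [hr, add_comm, Nat.add_mul_mod_self_right, Nat.mod_eq_of_lt (hidx_lt c hc)]
    -- the requirement never acts
    have hnever : ∀ t, ∀ p ∈ splSt f W k t, p.2 ≠ r + 1 := by
      intro t p hp hpr
      obtain ⟨s, -, -, -, -, -, h1⟩ := splSt_mem hp
      have h2 := (splCode_succ (h1.symm.trans hpr)).1.1
      rw [hr1] at h2
      have h3 : p.1 ∈ Q \ splB f W k (idx c) := (hi p.1).2 ⟨_, h2⟩
      refine h3.2 ⟨t, p, hp, rfl, ?_⟩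
      rw [hpr]
      show (r + 1 - 1) % k = idx c
      rw [Nat.add_sub_cancel, hr2]
    -- the exceptions
    have hF1 : {e : ℕ | ∃ t, ∃ p ∈ splSt f W k t, p.1 = e ∧ ∃ r' < r, p.2 = r' + 1}.Finite := by
      refine (Set.Finite.biUnion (Set.finite_lt_nat r) (t := fun r' =>
        {e : ℕ | ∃ t, ∃ p ∈ splSt f W k t, p.1 = e ∧ p.2 = r' + 1}) fun r' _ => ?_).subset ?_
      · refine Set.Subsingleton.finite ?_
        rintro _ ⟨t, p, hp, rfl, hp2⟩ _ ⟨t', q, hq, rfl, hq2⟩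
        exact splSt_once hp hq hp2 hq2
      · rintro e ⟨t, p, hp, hpe, r', hr', hp2⟩
        rw [Set.mem_iUnion₂]
        exact ⟨r', hr', t, p, hp, hpe, hp2⟩
    have hF2 : {e : ℕ | ∃ t < r, e = (Nat.unpair t).1}.Finite := by
      refine ((Set.finite_lt_nat r).image fun t => (Nat.unpair t).1).subset ?_
      rintro e ⟨t, ht, rfl⟩
      exact ⟨t, ht, rfl⟩
    have hZ : RESet {e | ∃ t, W i e t = true ∧ ¬ ∃ p ∈ splSt f W k t, p.1 = e} := by
      have h1 : Primrec fun p : ℕ × ℕ => W i p.1 p.2 :=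
        hW.comp (Primrec.pair (Primrec.const i) (Primrec.pair Primrec.fst Primrec.snd))
      have h2 : PrimrecRel fun (p : ℕ × ℕ) (e : ℕ) => p.1 = e :=
        Primrec.eq.comp (Primrec.fst.comp Primrec.fst) Primrec.snd
      have h3 : PrimrecPred fun z : ℕ × ℕ => ∃ p ∈ splSt f W k z.2, p.1 = z.1 :=
        h2.exists_mem_list.comp ((splSt_prim hf.prim hW k).comp Primrec.snd) Primrec.fst
      have h4 : PrimrecRel fun e t => W i e t = true ∧ ¬ ∃ p ∈ splSt f W k t, p.1 = e :=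
        (Primrec.eq.comp h1 (Primrec.const true)).and h3.not
      exact RESet.of_exists h4 fun e => Iff.rfl
    refine RESet.change hZ ((hF1.union hF2).subset ?_)
    rintro e (⟨⟨t, h1, h2⟩, h3⟩ | ⟨⟨h1, h2⟩, h3⟩)
    · -- `e` is in `Z`, not in `Q \ A`
      have h4 : e ∈ Q \ splB f W k (idx c) := (hi e).2 ⟨t, h1⟩
      have h5 : e ∈ A := by
        by_contra h5
        exact h3 ⟨h4.1, h5⟩
      obtain ⟨t', p, hp, hpe⟩ := hcov e h5
      obtain ⟨s, -, h6, h7, -, h8, h9⟩ := splSt_mem hp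
      have hts : t ≤ s := by
        by_contra hlt
        push Not at hlt
        exact h2 ⟨p, splSt_mono f W k hlt h6, hpe⟩
      by_cases hrs : r ≤ s
      · left
        have h10 : splCand W k ((s, splSt f W k s), p.1) r := by
          refine ⟨?_, ?_⟩
          · rw [hr1, hpe]
            exact le_antisymm le_top (h1.symm.le.trans (hWm i e hts))
          · rintro ⟨q, hq, hqr⟩
            exact hnever s q hq hqr
        obtain ⟨r', hr', h11⟩ := splCode_le h10 hrs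
        rw [← h9] at h11
        refine ⟨t', p, hp, hpe, r', lt_of_le_of_ne hr' ?_, h11⟩
        rintro rfl
        exact hnever t' p hp h11
      · right
        push Not at hrs
        exact ⟨s, hrs, hpe ▸ h7⟩
    · -- `e` is in `Q \ A`, not in `Z`
      exfalso
      have h4 : e ∈ Q \ splB f W k (idx c) := by
        refine ⟨h1, ?_⟩
        rintro ⟨t, p, hp, rfl, -⟩
        exact h2 (hsub t p hp)
      obtain ⟨s, hs⟩ := (hi e).1 h4
      refine h3 ⟨s, hs, ?_⟩
      rintro ⟨p, hp, rfl⟩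
      exact h2 (hsub s p hp)

end Pool.Agent.Lib.MP_45c83f_lc
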