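import Pool.Agent.Lib.MP_45c83f_lc.SmallCor
import Pool.Agent.Lib.MP_45c83f_lc.SmallMajor
import Pool.Agent.Lib.MP_45c83f_lc.MaxIn
import Pool.Agent.Lib.MP_45c83f_lc.Split

set_option autoImplicit false

/-!
# One step of the construction of the path system (text, section 4)
-/

namespace Pool.Agent.Lib.MP_45c83f_lc

private theorem step_univ : RESet (Set.univ : Set ℕ) := by
  simpa using RESet.compl_of_finite Set.finite_empty

/-- The step at a root. -/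
theorem exists_rootStep {ι : Type} {R : Set ℕ} (hR : Rec R) (hi : R.Infinite) (C : Finset ι)
    (hC : C.Nonempty) :
    ∃ B : ι → Set ℕ, (∀ c ∈ C, RESet (B c) ∧ B c ⊆ R ∧ ¬ RESet (B c)ᶜ) ∧
      (∀ c ∈ C, ∀ d ∈ C, c ≠ d → Disjoint (B c) (B d)) ∧
      (R \ ⋃ c ∈ C, B c).Infinite ∧
      (∀ W : Set ℕ, RESet W → (W ∩ (R \ ⋃ c ∈ C, B c)).Finite ∨
        ((R \ ⋃ c ∈ C, B c) \ W).Finite) ∧
      ∀ Q : Set ℕ, RESet Q → (Q ∩ (R \ ⋃ c ∈ C, B c)).Infinite →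
        ∀ c ∈ C, ¬ RESet (Q \ B c) := by
  obtain ⟨M, hMR, hM, hMi, hMc⟩ := exists_maximal_in hR hi
  obtain ⟨B, hBr, hBd, hBu, hBs⟩ := exists_split C hC hM
  have key : ∀ Q : Set ℕ, RESet Q → (Q ∩ (R \ M)).Infinite → ∀ c ∈ C, ¬ RESet (Q \ B c) :=
    fun Q hQ hQi c hc h =>
      not_reSet_diff_max hR hMR hM hMi hMc hQ hQi (hBs Q hQ c hc h)
  refine ⟨B, fun c hc => ⟨hBr c hc, ?_, ?_⟩, hBd, ?_, ?_, ?_⟩
  · refine Set.Subset.trans ?_ hMR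
    rw [← hBu]
    exact Set.subset_biUnion_of_mem (u := B) hc
  · rw [Set.compl_eq_univ_sdiff]
    exact key Set.univ step_univ (by rwa [Set.univ_inter]) c hc
  · rwa [hBu]
  · rwa [hBu]
  · rwa [hBu]

/-- The step at a position which is not a root. -/
theorem exists_nodeStep {ι : Type} {B₀ : Set ℕ} (hB : RESet B₀) (hn : ¬ RESet B₀ᶜ)
    (C : Finset ι) (hC : C.Nonempty) :
    ∃ B : ι → Set ℕ, (∀ c ∈ C, RESet (B c) ∧ B c ⊆ B₀ ∧ ¬ RESet (B c)ᶜ) ∧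
      (∀ c ∈ C, ∀ d ∈ C, c ≠ d → Disjoint (B c) (B d)) ∧
      (∀ H G : Set ℕ, RESet H → RESet G → Disjoint H G → H ∪ G = B₀ →
        (H ∩ (B₀ \ ⋃ c ∈ C, B c)).Finite → Rec H) ∧
      (∀ H : Set ℕ, Rec H → H ⊆ B₀ → (H ∩ (B₀ \ ⋃ c ∈ C, B c)).Finite) ∧
      (∀ Q : Set ℕ, RESet Q → (Q ∩ (B₀ \ ⋃ c ∈ C, B c)).Finite → RESet (Q \ B₀)) ∧
      ∀ Q : Set ℕ, RESet Q → (Q ∩ (B₀ \ ⋃ c ∈ C, B c)).Infinite →
        ∀ c ∈ C, ¬ RESet (Q \ B c) := by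
  obtain ⟨A, hAB, hA, hs, hm⟩ := exists_small_major hB hn
  obtain ⟨B, hBr, hBd, hBu, hBs⟩ := exists_split C hC hA
  have key : ∀ Q : Set ℕ, RESet Q → (Q ∩ (B₀ \ A)).Infinite → ∀ c ∈ C, ¬ RESet (Q \ B c) :=
    fun Q hQ hQi c hc h => major_p5 hB hAB hm hQ hQi (hBs Q hQ c hc h)
  have hinf : (B₀ \ A).Infinite := by
    intro hfin
    apply hn
    rw [Set.compl_eq_univ_sdiff]
    exact small_p1 hs step_univ (by rwa [Set.univ_inter])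
  refine ⟨B, fun c hc => ⟨hBr c hc, ?_, ?_⟩, hBd, ?_, ?_, ?_, ?_⟩
  · refine Set.Subset.trans ?_ hAB
    rw [← hBu]
    exact Set.subset_biUnion_of_mem (u := B) hc
  · rw [Set.compl_eq_univ_sdiff]
    exact key Set.univ step_univ (by rwa [Set.univ_inter]) c hc
  · intro H G hH hG hd hu hf
    rw [hBu] at hf
    exact small_p3 hs hH hG hd hu hf
  · rwa [hBu]
  · intro Q hQ hf
    rw [hBu] at hf
    exact small_p1 hs hQ hf
  · rwa [hBu]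

end Pool.Agent.Lib.MP_45c83f_lc
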