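import Pool.Agent.Lib.MP_45c83f_lc.AsgEx
import Pool.Agent.Lib.MP_45c83f_lc.JobsEx
import Pool.Agent.Lib.MP_45c83f_lc.RunEx
import Pool.Agent.Lib.MP_45c83f_lc.RestInf
import Pool.Agent.Lib.MP_45c83f_lc.NodeEx

set_option autoImplicit false

/-!
# The lower bound (text, section 5)
-/

namespace Pool.Agent.Lib.MP_45c83f_lc

namespace TSys

private theorem thmL_last_unique {X : Type} [PartialOrder X] {L : TSys X}
    {lam : ℕ → ℕ → Option (Fin L.K)} {e : ℕ} {v w : Fin L.K} (hv : L.Last lam e v)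
    (hw : L.Last lam e w) : v = w := by
  obtain ⟨s, hs⟩ := hv
  obtain ⟨t, ht⟩ := hw
  have h1 := hs (max s t) (le_max_left _ _)
  rw [ht (max s t) (le_max_right _ _)] at h1
  exact (Option.some.inj h1).symm

/-- Theorem L. -/
theorem thmL {X Y Z : Type} [PartialOrder X] [Finite X] [Primcodable X]
    [PartialOrder Y] [OrderBot Y] [Finite Y] [Primcodable Y]
    [PartialOrder Z] [OrderBot Z] [Finite Z] [Primcodable Z]
    (L : TSys X) (f : ℕ → X) (hf : RE f) :
    ∃ S : Finset (Fin L.K), S.Nonempty ∧ (∀ τ, L.LabF S τ ↔ {e | f e = τ}.Infinite) ∧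
      ∀ (I : Set (X × Y)) (h : Fin L.K → Y), L.Valid S I h →
      ∀ 𝒯 : Set (Set (X × Y × Z)), (∀ T ∈ 𝒯, ¬ L.Win S I h T) →
      ∃ g : ℕ → Y, RE g ∧ InfSt f g = I ∧ ∀ T ∈ 𝒯, ¬ Pred f g T := by
  classical
  obtain ⟨F, hF, hFf⟩ := hf
  obtain ⟨S, hSne, hS, hex⟩ := exists_exact (L := L) hF
  refine ⟨S, hSne, fun τ => labF_iff hF hFf hS hex τ, ?_⟩
  intro I h hv 𝒯 hT
  obtain ⟨n, D, hD1, hD2⟩ := exists_jobs L hv hT
  obtain ⟨U, hU, hU', -, hUu⟩ := exists_univ Z
  obtain ⟨lam, asg, hlam, hcor, ha, hleaf, hroot, hnone⟩ := exists_asg D hF hFf hS hex hU hU'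
  obtain ⟨g, md, pc, hr⟩ := exists_run D hF hS.1 hv.1 hlam hU hU' ha
  obtain ⟨gl, hgl⟩ := exists_lim hr.ap.mono
  -- the final values of a number which came to rest
  have hfinal : ∀ (i : ℕ) (j : Fin n) (e : ℕ),
      (∃ v t, ∀ u, t ≤ u → F e u = L.lab v ∧ D.rest j v (g e u) (U i e u)) →
      ∃ v, L.lab v = f e ∧ ∃ t, ∀ u, t ≤ u → D.rest j v (gl e) (U i e u) := by
    rintro i j e ⟨v, t, ht⟩
    obtain ⟨t1, ht1⟩ := hFf e
    obtain ⟨t2, ht2⟩ := hgl e
    refine ⟨v, ?_, max t t2, fun u hu => ?_⟩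
    · rw [← ht1 (max t t1) (le_max_right _ _)]
      exact (ht (max t t1) (le_max_left _ _)).1.symm
    · rw [← ht2 u ((le_max_right _ _).trans hu)]
      exact (ht u ((le_max_left _ _).trans hu)).2
  -- the final values of a number which stays at a root
  have hstay : ∀ (s : Fin L.K) (e : ℕ), s ∈ S → (L.ch s).Nonempty → L.Last lam e s →
      L.Corr F lam e → f e = L.lab s ∧ gl e = h s := by
    intro s e hs hne hl hc
    obtain ⟨v, hv1, hv2⟩ := hc.state hF hlam hFf
    have hvs : v = s := thmL_last_unique hv1 hl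
    subst hvs
    refine ⟨hv2.symm, ?_⟩
    obtain ⟨t1, ht1⟩ := hl
    obtain ⟨t2, ht2⟩ := hgl e
    have h1 := ht1 (max t1 t2) (le_max_left _ _)
    rw [← ht2 (max t1 t2) (le_max_right _ _)]
    exact hr.root e _ v hs h1 (hnone e _ v hs hne h1)
  refine ⟨gl, ⟨g, hr.ap, hgl⟩, ?_, ?_⟩
  · ext ⟨τ, η⟩
    constructor
    · intro hinf
      have hinf' : ({e : ℕ | (f e, gl e) = (τ, η)} \ {e | ¬ L.Corr F lam e}).Infinite :=
        Set.Infinite.sdiff hinf hcor
      obtain ⟨e, he, hc⟩ := hinf'.nonempty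
      have hc' : L.Corr F lam e := not_not.mp hc
      obtain ⟨v, ⟨t1, ht1⟩, hv2⟩ := hc'.state hF hlam hFf
      obtain ⟨t2, ht2⟩ := hgl e
      have h1 := hr.comp e (max t1 t2) v (ht1 _ (le_max_left _ _))
      rw [ht2 _ (le_max_right _ _)] at h1
      have h2 := (comp_iff.1 h1).1
      rw [hv2] at h2
      have he' : (f e, gl e) = (τ, η) := he
      rwa [he'] at h2
    · intro hI
      rcases hD2 τ η hI with ⟨j, hj, hrest⟩ | ⟨s, hs, hne, hlab, hh⟩ | ⟨j, s, hj, hcond, hrest⟩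
      · have hinf := leaf_rest hF hlam hcor ha hr hj (hleaf 0 j hj)
        refine hinf.mono ?_
        intro e he
        obtain ⟨v, hv1, t, ht⟩ := hfinal 0 j e he
        obtain ⟨h1, h2⟩ := hrest v _ _ (ht t le_rfl)
        show (f e, gl e) = (τ, η)
        rw [← hv1, h1, h2]
      · obtain ⟨hat, hexs⟩ := lemA hF hlam hcor hex hS.1 hs
        have hinf := (exact_infinite hF hlam hcor hat hexs).sdiff hcor
        refine Set.Infinite.mono ?_ hinf
        rintro e ⟨⟨-, hl⟩, hc⟩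
        obtain ⟨h1, h2⟩ := hstay s e hs hne hl (not_not.mp hc)
        show (f e, gl e) = (τ, η)
        rw [h1, h2, hlab, hh]
      · obtain ⟨hs, -, -⟩ := D.src_some j s hj
        obtain ⟨k, hinf⟩ := root_rest hF hS hex hlam hcor ha hr (i := 0) hs
          (ι := Unit) (fun _ => j) (fun _ => hj) (fun _ => (hroot 0 j s hj).1)
          (fun _ => (hroot 0 j s hj).2) (by
            refine Set.Finite.subset Set.finite_empty ?_
            rintro e ⟨-, hk⟩
            exact (hk () ⟨0, fun u _ => hcond _⟩).elim)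
        refine Set.Infinite.mono ?_ hinf
        intro e he
        obtain ⟨v, hv1, t, ht⟩ := hfinal 0 j e he
        obtain ⟨h1, h2⟩ := hrest v _ _ (ht t le_rfl)
        show (f e, gl e) = (τ, η)
        rw [← hv1, h1, h2]
  · rintro T hTT ⟨h', hh', hfin⟩
    obtain ⟨i, hi⟩ := hUu h' hh'
    -- a job whose rests avoid `T` gives a contradiction
    have hcontra : ∀ j : Fin n, (∀ v g z, D.rest j v g z → (L.lab v, g, z) ∉ T) →
        {e | ∃ v t, ∀ u, t ≤ u → F e u = L.lab v ∧ D.rest j v (g e u) (U i e u)}.Infinite →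
        False := by
      intro j hrest hinf
      refine Set.Infinite.mono ?_ hinf hfin
      intro e he
      obtain ⟨v, hv1, t, ht⟩ := hfinal i j e he
      obtain ⟨t2, ht2⟩ := hi e
      have h1 := hrest v _ _ (ht (max t t2) (le_max_left _ _))
      rw [ht2 _ (le_max_right _ _), hv1] at h1
      exact h1
    rcases hD1 T hTT with ⟨j, hj, hrest⟩ | ⟨s, hs, hne, hζ⟩
    · exact hcontra j hrest (leaf_rest hF hlam hcor ha hr hj (hleaf i j hj))
    · choose jf hj1 hj2 hj3 using hζ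
      have : Fintype {ζ : Z // (L.lab s, h s, ζ) ∈ T} := Fintype.ofFinite _
      obtain ⟨k, hinf⟩ := root_rest hF hS hex hlam hcor ha hr (i := i) hs
        (ι := {ζ : Z // (L.lab s, h s, ζ) ∈ T}) (fun k => jf k.1 k.2) (fun k => hj1 k.1 k.2)
        (fun k => (hroot i (jf k.1 k.2) s (hj1 k.1 k.2)).1)
        (fun k => (hroot i (jf k.1 k.2) s (hj1 k.1 k.2)).2) (by
          refine Set.Finite.subset (hcor.union hfin) ?_
          rintro e ⟨hl, hk⟩
          by_contra hcon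
          rw [Set.mem_union, not_or] at hcon
          obtain ⟨hc1, hc2⟩ := hcon
          obtain ⟨h1, h2⟩ := hstay s e hs hne hl (not_not.mp hc1)
          have h3 : (f e, gl e, h' e) ∈ T := not_not.mp hc2
          rw [h1, h2] at h3
          obtain ⟨t, ht⟩ := hi e
          exact hk ⟨h' e, h3⟩ ⟨t, fun u hu => (hj2 _ h3 _).mpr (ht u hu)⟩)
      exact hcontra _ (hj3 k.1 k.2) hinf

end TSys

end Pool.Agent.Lib.MP_45c83f_lc
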