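import Pool.Agent.Lib.MP_45c83f_lc.ThmR
import Pool.Agent.Lib.MP_45c83f_lc.ThmL
import Pool.Agent.Lib.MP_45c83f_lc.FinCh

set_option autoImplicit false

/-!
# Theorem A
-/

namespace Pool.Agent.Lib.MP_45c83f_lc

namespace TSys

variable {X Y Z : Type} [PartialOrder X] [Finite X] [Primcodable X]
  [PartialOrder Y] [OrderBot Y] [Finite Y] [Primcodable Y]
  [PartialOrder Z] [OrderBot Z] [Finite Z] [Primcodable Z]

private theorem TheoremA_inf {X Y : Type} {f : ℕ → X} {g : ℕ → Y} {τ : X} {η : Y}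
    (h : (τ, η) ∈ InfSt f g) : ∃ e, (f e, g e) = (τ, η) :=
  Set.Infinite.nonempty (s := {e : ℕ | (f e, g e) = (τ, η)}) h

theorem truth_of_crit (L : TSys X) (P : Set (X × Y × Z) → Prop) (h : L.Crit P) : Truth P := by
  obtain ⟨S, hS, q, x, hx, hC⟩ := h
  obtain ⟨f, hf, -, ⟨ε, hε, hεx, hεL⟩, hR⟩ := thmR (Y := Y) (Z := Z) L S hS x hx
  refine ⟨f, hf, fun g hg => ?_⟩
  obtain ⟨h, hV, hP⟩ := hR g hg
  obtain ⟨z, T, hPT, c1, c2, c3, c4, hW⟩ := hC (InfSt f g) h hV (fun j => g (ε j))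
    {ρ | L.LabF S ρ.1 ∧ ρ ∉ InfSt f g ∧ ∃ e, (f e, g e) = ρ} (fun ρ hρ => ⟨hρ.1, hρ.2.1⟩)
  obtain ⟨h', hh', hr⟩ := fit_of_pred (hP T hW) {τ | L.LabF S τ} ε hε
    (by
      intro e
      constructor
      · intro he
        by_contra hcon
        exact he (hεL e hcon)
      · rintro ⟨j, rfl⟩ hcon
        have h1 : L.LabF S (f (ε j)) := hcon
        rw [hεx j] at h1
        exact hx j h1) z c1
    (fun τ η hτ hI he => c2 τ η ⟨hτ, hI, he⟩)
    (by
      intro τ η ζ hT hτ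
      rcases c3 τ η ζ hT hτ with h1 | h1
      · exact TheoremA_inf h1
      · exact h1.2.2)
    (by
      intro τ η ζ hτ
      rw [c4 τ η ζ hτ]
      simp only [hεx])
  refine ⟨h', hh', ?_⟩
  rw [hr]
  exact hPT

theorem crit_of_truth (L : TSys X) (P : Set (X × Y × Z) → Prop) (h : Truth P) : L.Crit P := by
  obtain ⟨f, hf, hT⟩ := h
  obtain ⟨S, hS, hlab, hL⟩ := thmL (Y := Y) (Z := Z) L f hf
  have hE : {e | ¬ L.LabF S (f e)}.Finite := by
    have h1 : ({τ : X | ¬ L.LabF S τ}.toFinite.toFinset : Set X).Finite := Finset.finite_toSet _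
    have h2 : {e | ¬ L.LabF S (f e)} ⊆ ⋃ τ ∈ {τ : X | ¬ L.LabF S τ}, {e | f e = τ} := by
      intro e he
      rw [Set.mem_iUnion₂]
      exact ⟨f e, he, rfl⟩
    refine Set.Finite.subset (Set.Finite.biUnion (Set.toFinite _) fun τ hτ => ?_) h2
    rw [← Set.not_infinite]
    exact fun h3 => hτ ((hlab τ).2 h3)
  have hEf : Finite {e | ¬ L.LabF S (f e)} := hE
  obtain ⟨q, ⟨E⟩⟩ := Finite.exists_equiv_fin {e | ¬ L.LabF S (f e)}
  have hε2 : ∀ e, f e ∉ {τ | L.LabF S τ} ↔ e ∈ Set.range fun j => ((E.symm j).1 : ℕ) := by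
    intro e
    constructor
    · intro he
      exact ⟨E ⟨e, he⟩, by simp⟩
    · rintro ⟨j, rfl⟩
      exact (E.symm j).2
  have hε : Function.Injective fun j => ((E.symm j).1 : ℕ) := by
    intro i j hij
    exact E.symm.injective (Subtype.ext hij)
  refine ⟨S, hS, q, fun j => f (E.symm j).1, fun j => (E.symm j).2, ?_⟩
  intro I h hV y F hF
  by_contra hcon
  obtain ⟨g, hg, hgI, hgT⟩ := hL I h hV {T | P T ∧ ∃ z : Fin q → Z,
      (∀ τ η, (τ, η) ∈ I → ∃ ζ, (τ, η, ζ) ∈ T) ∧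
      (∀ τ η, (τ, η) ∈ F → ∃! ζ, (τ, η, ζ) ∈ T) ∧
      (∀ τ η ζ, (τ, η, ζ) ∈ T → L.LabF S τ → (τ, η) ∈ I ∪ F) ∧
      (∀ τ η ζ, ¬ L.LabF S τ → ((τ, η, ζ) ∈ T ↔
        ∃ j, f (E.symm j).1 = τ ∧ y j = η ∧ z j = ζ))} (by
    rintro T ⟨hPT, z, c1, c2, c3, c4⟩ hW
    exact hcon ⟨z, T, hPT, c1, c2, c3, c4, hW⟩)
  obtain ⟨g', hg', hfin, hy, hF', hall⟩ := exists_counts (f := f) hg {τ | L.LabF S τ}
    (fun τ hτ => (hlab τ).1 hτ) (fun j => (E.symm j).1) hε hε2 y F (by rw [hgI]; exact hF)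
  have hI' : InfSt f g' = I := by rw [infSt_change hfin, hgI]
  obtain ⟨h', hh', hP⟩ := hT g' hg'
  refine hgT _ ⟨hP, fun j => h' (E.symm j).1, ?_, ?_, ?_, ?_⟩ (pred_change (g := g') ?_
    ⟨h', hh', ?_⟩)
  · intro τ η hτ
    rw [← hI'] at hτ
    obtain ⟨e, he⟩ := TheoremA_inf hτ
    rw [Prod.mk.injEq] at he
    exact ⟨h' e, e, by rw [← he.1, ← he.2]⟩
  · intro τ η hτ
    obtain ⟨e, he, hu⟩ := hF' τ η hτ
    change (f e, g' e) = (τ, η) at he
    rw [Prod.mk.injEq] at he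
    refine ⟨h' e, ⟨e, by rw [← he.1, ← he.2]⟩, ?_⟩
    rintro ζ ⟨e', he'⟩
    change (f e', g' e', h' e') = (τ, η, ζ) at he'
    rw [Prod.mk.injEq, Prod.mk.injEq] at he'
    have h1 : e' = e := hu e' (by
      show (f e', g' e') = (τ, η)
      rw [he'.1, he'.2.1])
    rw [← he'.2.2, h1]
  · rintro τ η ζ ⟨e, he⟩ hτ
    change (f e, g' e, h' e) = (τ, η, ζ) at he
    rw [Prod.mk.injEq, Prod.mk.injEq] at he
    have h1 := hall e (by rw [he.1]; exact hτ)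
    rw [hgI, he.1, he.2.1] at h1
    exact h1
  · intro τ η ζ hτ
    constructor
    · rintro ⟨e, he⟩
      change (f e, g' e, h' e) = (τ, η, ζ) at he
      rw [Prod.mk.injEq, Prod.mk.injEq] at he
      obtain ⟨h1, h2, h3⟩ := he
      have h4 : f e ∉ {τ | L.LabF S τ} := by
        rw [h1]
        exact hτ
      obtain ⟨j, hj⟩ := (hε2 e).1 h4
      change ((E.symm j).1 : ℕ) = e at hj
      refine ⟨j, ?_, ?_, ?_⟩
      · rw [hj, h1]
      · have h5 := hy j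
        change g' (E.symm j).1 = y j at h5
        rw [← h5, hj, h2]
      · show h' (E.symm j).1 = ζ
        rw [hj, h3]
    · rintro ⟨j, h1, h2, h3⟩
      refine ⟨(E.symm j).1, ?_⟩
      have h5 := hy j
      change g' (E.symm j).1 = y j at h5
      show (f (E.symm j).1, g' (E.symm j).1, h' (E.symm j).1) = (τ, η, ζ)
      rw [h1, h5, h2]
      exact congrArg (fun a => (τ, η, a)) h3
  · refine hfin.subset fun e he => ?_
    exact fun h1 => he h1.symm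
  · have h1 : {e : ℕ | (f e, g' e, h' e) ∉ Set.range fun e => (f e, g' e, h' e)} = ∅ := by
      rw [Set.eq_empty_iff_forall_notMem]
      intro e he
      exact he ⟨e, rfl⟩
    rw [h1]
    exact Set.finite_empty

/-- Theorem A. -/
theorem theoremA (L : TSys X) (P : Set (X × Y × Z) → Prop) : Truth P ↔ L.Crit P :=
  ⟨crit_of_truth L P, truth_of_crit L P⟩

end TSys

end Pool.Agent.Lib.MP_45c83f_lc
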