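import Pool.Agent.Lib.MP_45c83f_lc.PathT
import Pool.Agent.Lib.MP_45c83f_lc.PathV
import Pool.Agent.Lib.MP_45c83f_lc.PathEx
import Pool.Agent.Lib.MP_45c83f_lc.FinCh

set_option autoImplicit false

/-!
# The Realisation Theorem (text, section 4)
-/

namespace Pool.Agent.Lib.MP_45c83f_lc

private theorem ThmR_infSt_sub {X Y : Type} {f f' : ℕ → X} {g : ℕ → Y}
    (h : {e | f e ≠ f' e}.Finite) : InfSt f g ⊆ InfSt f' g := by
  intro ρ hρ hfin
  refine hρ (Set.Finite.subset (hfin.union h) ?_)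
  intro e he
  by_cases h3 : f e = f' e
  · left
    change (f' e, g e) = ρ
    rw [← h3]
    exact he
  · exact Or.inr h3

private theorem ThmR_infSt {X Y : Type} {f f' : ℕ → X} {g : ℕ → Y}
    (h : {e | f e ≠ f' e}.Finite) : InfSt f g = InfSt f' g := by
  refine Set.Subset.antisymm (ThmR_infSt_sub h) (ThmR_infSt_sub ?_)
  exact h.subset fun e he h1 => he h1.symm

private theorem ThmR_pred {X Y Z : Type} [PartialOrder Z] [Primcodable Z] {f f' : ℕ → X}
    {g : ℕ → Y} {T : Set (X × Y × Z)} (h : {e | f e ≠ f' e}.Finite) (hp : Pred f' g T) :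
    Pred f g T := by
  obtain ⟨k, hk, hfin⟩ := hp
  refine ⟨k, hk, Set.Finite.subset (hfin.union h) ?_⟩
  intro e he
  by_cases h3 : f e = f' e
  · left
    change (f' e, g e, k e) ∉ T
    rw [← h3]
    exact he
  · exact Or.inr h3

namespace TSys

/-- Theorem R. -/
theorem thmR {X Y Z : Type} [PartialOrder X] [Finite X] [Primcodable X]
    [PartialOrder Y] [OrderBot Y] [Finite Y] [Primcodable Y]
    [PartialOrder Z] [OrderBot Z] [Finite Z] [Primcodable Z]
    (L : TSys X) (S : Finset (Fin L.K)) (hS : S.Nonempty) {q : ℕ} (x : Fin q → X)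
    (hx : ∀ j, ¬ L.LabF S (x j)) :
    ∃ f : ℕ → X, RE f ∧ (∀ τ, L.LabF S τ → {e | f e = τ}.Infinite) ∧
      (∃ ε : Fin q → ℕ, Function.Injective ε ∧ (∀ j, f (ε j) = x j) ∧
        ∀ e, e ∉ Set.range ε → L.LabF S (f e)) ∧
      ∀ g : ℕ → Y, RE g → ∃ h : Fin L.K → Y, L.Valid S (InfSt f g) h ∧
        ∀ T : Set (X × Y × Z), L.Win S (InfSt f g) h T → Pred f g T := by
  classical
  obtain ⟨P, hP⟩ := L.exists_pathSys S hS
  let f : ℕ → X := fun e => if he : e < q then x ⟨e, he⟩ else P.st e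
  have hlt : ∀ e (he : e < q), f e = x ⟨e, he⟩ := fun e he => dif_pos he
  have hge : ∀ e, ¬ e < q → f e = P.st e := fun e he => dif_neg he
  have hfin : {e | f e ≠ P.st e}.Finite := by
    refine (Set.finite_lt_nat q).subset fun e he => ?_
    by_contra h1
    exact he (hge e h1)
  have hfin' : {e | P.st e ≠ f e}.Finite := hfin.subset fun e he h1 => he h1.symm
  refine ⟨f, RE.change P.st_re hfin', ?_, ⟨fun j => (j : ℕ), ?_, ?_, ?_⟩, ?_⟩
  · intro τ hτ hcon
    refine (P.st_inf hP hτ) ((hcon.union hfin).subset fun e he => ?_)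
    by_cases h1 : f e = P.st e
    · left
      change f e = τ
      rw [h1]
      exact he
    · exact Or.inr h1
  · exact Fin.val_injective
  · intro j
    exact hlt j j.2
  · intro e he
    have h1 : ¬ e < q := fun h1 => he ⟨⟨e, h1⟩, rfl⟩
    rw [hge e h1]
    exact P.st_mem e
  · intro g hg
    rw [ThmR_infSt (g := g) hfin]
    obtain ⟨h, hh1, hh2⟩ := PathSys.exists_rootVal (P := P) hP hg
    obtain ⟨ga, hga, hgl⟩ := id hg
    have hcomp : ∀ p, {e | e ∈ P.D p ∧ ¬ L.Comp (InfSt P.st g) (P.nd p) (g e)}.Finite :=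
      fun p => PathSys.comp_ae hP hg p
    have hgood : ∀ p, P.NL p →
        {e | e ∈ P.D p ∧ ¬ P.GoodAt (InfSt P.st g) h ga p e}.Finite :=
      fun p hp => PathSys.good_ae hgl p hp (fun hr => hh1 p hr hp) (hcomp p)
    obtain ⟨H, hRec, hH1, hH2⟩ := PathSys.exists_H' hP hga hgood
    refine ⟨h, PathSys.valid_of hP hg hga hgl hh1 hh2 hH1 hH2, ?_⟩
    intro T hW
    exact ThmR_pred hfin (PathSys.exists_strategy hg hga hgl hW hh1 hcomp hgood hRec hH1 hH2)

end TSys

end Pool.Agent.Lib.MP_45c83f_lc
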